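import Pool.Agent.Lib.MP_15cb89_nt.AnaConeA

/-! The cone sum: the value at zero of the twisted zeta function of the principal class. -/

set_option autoImplicit false

namespace Pool.Agent.Lib.MP_15cb89_nt

open Finset Filter Topology MeasureTheory

/-- The contribution of a point of the cone, folded along the reflection. -/
noncomputable def B2_t (w : ℤ → ℤ) (n : ℕ) (A B : ℝ) (p : ℕ × ℕ) : ℝ :=
  if 0 < p.1 ∧ p.2 < n * p.1 then B2_F w n p.1 p.2 *
    (Real.exp (-(p.1 * A + p.2 * B)) + Real.exp (-(p.1 * A + (n * p.1 - p.2) * B))) else 0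

section

variable {n N : ℕ} {w : ℤ → ℤ}

theorem B2_H (hn : 0 < n) (hodd : ∀ a, w (-a) = -w a) {W : ℝ} (hW0 : 0 ≤ W)
    (hW : ∀ x y : ℕ, |B2_F w n x y| ≤ W) {A B G₁ G₂ : ℝ} (hA : 0 < A) (hB : 0 < B)
    (h₁ : HasSum (fun p : ℕ × ℕ => B2_c p.1 * B2_c p.2 * (B2_F w n p.1 p.2 *
      (Real.exp (-(p.1 * A)) * Real.exp (-(p.2 * B))))) G₁)
    (h₂ : HasSum (fun p : ℕ × ℕ => B2_c p.1 * B2_c p.2 * (B2_F w n p.1 p.2 *
      (Real.exp (-(p.1 * B)) * Real.exp (-(p.2 * (A + n * B)))))) G₂) :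
    HasSum (B2_t w n A B) (2 * G₁ + 2 * G₂) := by
  set E : ℕ × ℕ → ℝ := fun p => B2_F w n p.1 p.2 *
    (Real.exp (-(p.1 * A)) * Real.exp (-(p.2 * B))) with hE
  have hs : ∀ (P : ℕ × ℕ → Prop) [DecidablePred P], Summable fun p => if P p then E p else 0 := by
    intro P _
    refine (((B2_geom hA).summable.mul_of_nonneg (B2_geom hB).summable
      (fun _ => (Real.exp_pos _).le) fun _ => (Real.exp_pos _).le).mul_left W).of_norm_bounded
      fun p => ?_
    split_ifs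
    · rw [hE, Real.norm_eq_abs, abs_mul, abs_of_pos (a := Real.exp _ * Real.exp _) (by positivity)]
      exact mul_le_mul_of_nonneg_right (hW _ _) (by positivity)
    · rw [norm_zero]; positivity
  have hj : Function.Injective fun p : ℕ × ℕ => (p.2, p.1 + n * p.2) := by
    rintro ⟨a, b⟩ ⟨c, d⟩ h
    simp only [Prod.mk.injEq] at h ⊢
    obtain ⟨rfl, h⟩ := h
    exact ⟨by omega, rfl⟩
  have h3 : HasSum (fun p : ℕ × ℕ => if n * p.1 ≤ p.2 then
      -(B2_c p.1 * B2_c (p.2 - n * p.1) * E p) else 0) G₂ := by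
    refine (hj.hasSum_iff fun p hp => if_neg fun h => hp ⟨(p.2 - n * p.1, p.1), ?_⟩).1
      (B2_congr h₂ (fun p => ?_) rfl)
    · simp [Nat.sub_add_cancel h]
    · simp only [Function.comp, hE, Nat.le_add_left, if_true, Nat.add_sub_cancel]
      push_cast
      rw [B2_F_shear hodd, ← Real.exp_add, ← Real.exp_add,
        show -(p.2 * A) + -((p.1 + n * p.2) * B) = -(p.1 * B) + -(p.2 * (A + n * B)) by ring]
      ring
  have h4 : HasSum (fun p : ℕ × ℕ => (if 0 < p.1 ∧ p.2 < n * p.1 then E p else 0) +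
      if 0 < p.1 ∧ 0 < p.2 ∧ p.2 ≤ n * p.1 then E p else 0) (2 * G₁ + 2 * G₂) := by
    refine B2_congr ((h₁.mul_left 2).add (h3.mul_left 2)) (fun p => ?_) rfl
    have h5 : 0 < p.1 → 0 < n * p.1 := Nat.mul_pos hn
    have h6 : p.1 = 0 → n * p.1 = 0 := fun h => by rw [h, mul_zero]
    change _ = 2 * (_ * _ * E p) + _
    simp only [B2_c]
    split_ifs <;> first | omega | ring
  have hσ : Function.Involutive fun p : ℕ × ℕ =>
      if p.2 ≤ n * p.1 then (p.1, n * p.1 - p.2) else p := by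
    rintro ⟨x, y⟩
    by_cases h : y ≤ n * x
    · simp [h, Nat.sub_sub_self h]
    · simp [h]
  have h5 := (hσ.toPerm _).hasSum_iff.2
    (hs fun p => 0 < p.1 ∧ 0 < p.2 ∧ p.2 ≤ n * p.1).hasSum
  have h6 := (hs fun p => 0 < p.1 ∧ p.2 < n * p.1).hasSum
  refine B2_congr (h6.add h5) (fun p => ?_)
    (h4.unique (h6.add (hs fun p => 0 < p.1 ∧ 0 < p.2 ∧ p.2 ≤ n * p.1).hasSum))
  simp only [B2_t, Function.comp, Function.Involutive.coe_toPerm]
  by_cases h : 0 < p.1 ∧ p.2 < n * p.1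
  · rw [if_pos h, if_pos h, if_pos h.2.le, if_pos ⟨h.1, Nat.sub_pos_of_lt h.2, Nat.sub_le _ _⟩]
    simp only [hE, Nat.cast_sub h.2.le]
    push_cast
    rw [B2_F_refl, ← Real.exp_add, ← Real.exp_add, mul_add, neg_add, neg_add]
  · rw [if_neg h, if_neg h, zero_add, if_neg]
    split_ifs with h7
    · simp only
      omega
    · omega

theorem B2_big (hn : 0 < n) {W : ℝ} (hW0 : 0 ≤ W) (hW : ∀ x y : ℕ, |B2_F w n x y| ≤ W) :
    ∃ C, 0 ≤ C ∧ ∀ A B G : ℝ, 1 ≤ A → 0 < B → HasSum (B2_t w n A B) G →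
      |G| ≤ C * Real.exp (-(A / 2)) := by
  have hn' : (0 : ℝ) < n := by exact_mod_cast hn
  have h1 := (B2_geom (A := 1 / 4) (by norm_num)).summable.mul_of_nonneg
    (B2_geom (A := 1 / (4 * n)) (by positivity)).summable
      (fun _ => (Real.exp_pos _).le) fun _ => (Real.exp_pos _).le
  refine ⟨2 * W * ∑' p : ℕ × ℕ, Real.exp (-(p.1 * (1 / 4))) * Real.exp (-(p.2 * (1 / (4 * n)))),
    by positivity, fun A B G hA hB hG => ?_⟩
  rw [mul_right_comm, ← Real.norm_eq_abs]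
  refine hG.norm_le_of_bounded (h1.hasSum.mul_left _) fun p => ?_
  rw [B2_t]
  split_ifs with h
  · have hx : (1 : ℝ) ≤ p.1 := by exact_mod_cast h.1
    have hy : (p.2 : ℝ) ≤ n * p.1 := by exact_mod_cast h.2.le
    have hy0 : (0 : ℝ) ≤ p.2 := Nat.cast_nonneg _
    have h2 : ∀ b, 0 ≤ b → Real.exp (-(p.1 * A + b * B)) ≤ Real.exp (-(A / 2)) *
        (Real.exp (-(p.1 * (1 / 4))) * Real.exp (-(p.2 * (1 / (4 * n))))) := fun b hb => by
      rw [← Real.exp_add, ← Real.exp_add, Real.exp_le_exp]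
      have h3 : (p.2 : ℝ) * (1 / (4 * n)) ≤ p.1 / 4 := by
        rw [mul_one_div, div_le_div_iff₀ (by positivity) (by positivity)]
        nlinarith
      nlinarith [mul_nonneg hb hB.le, mul_nonneg (sub_nonneg.2 hx) (sub_nonneg.2 hA)]
    rw [Real.norm_eq_abs, abs_mul, abs_of_pos (a := Real.exp _ + Real.exp _) (by positivity)]
    refine (mul_le_mul (hW _ _) (add_le_add (h2 _ hy0) (h2 _ (sub_nonneg.2 hy))) (by positivity)
      hW0).trans_eq (by ring)
  · rw [norm_zero]; positivity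

theorem B2_dd {f : ℝ → ℝ} (hf : ContDiff ℝ 1 f) : ∃ Δ : ℝ × ℝ → ℝ, Continuous Δ ∧
    Δ (0, 0) = deriv f 0 ∧ ∀ a b, f b - f a = (b - a) * Δ (a, b) := by
  have hc : Continuous (deriv f) := hf.continuous_deriv le_rfl
  refine ⟨fun z => ∫ θ in (0 : ℝ)..1, deriv f (z.1 + θ * (z.2 - z.1)),
    intervalIntegral.continuous_parametric_intervalIntegral_of_continuous'
      (f := fun (z : ℝ × ℝ) (θ : ℝ) => deriv f (z.1 + θ * (z.2 - z.1))) (by fun_prop) _ _,
    by simp, fun a b => ?_⟩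
  have h := intervalIntegral.integral_eq_sub_of_hasDerivAt (a := 0) (b := 1)
    (f := fun θ : ℝ => f (a + θ * (b - a)))
    (f' := fun θ => deriv f (a + θ * (b - a)) * (b - a)) (fun θ _ =>
      ((hf.differentiable one_ne_zero) _).hasDerivAt.comp θ
        ((hasDerivAt_mul_const (b - a)).const_add a))
    (Continuous.intervalIntegrable (by fun_prop) _ _)
  rw [intervalIntegral.integral_mul_const] at h
  simp only [one_mul, add_sub_cancel, zero_mul, add_zero] at h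
  rw [← h, mul_comm]

theorem B2_phi : ∃ φ : ℝ → ℝ, Continuous φ ∧ φ 0 = 1 ∧ ∀ t, 0 < t → B2_k t = φ t / t := by
  obtain ⟨Δ, h1, h2, h3⟩ := B2_dd (f := fun t => -Real.exp (-t)) (by fun_prop)
  have h4 : Δ (0, 0) = 1 := by
    rw [h2]
    simpa using (hasDerivAt_neg (0 : ℝ)).exp.neg.deriv
  have h5 : ∀ t, 1 - Real.exp (-t) = t * Δ (0, t) := fun t => by
    have := h3 0 t
    simp only [neg_zero, Real.exp_zero, sub_zero] at this
    linarith
  have h6 : ∀ t, Δ (0, t) ≠ 0 := fun t h => by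
    have h7 := h5 t
    rw [h, mul_zero, sub_eq_zero, eq_comm, Real.exp_eq_one_iff, neg_eq_zero] at h7
    rw [h7, h4] at h
    exact one_ne_zero h
  refine ⟨fun t => (Δ (0, t))⁻¹ - t / 2, (Continuous.inv₀ (by fun_prop) h6).sub (by fun_prop),
    by simp [h4], fun t ht => ?_⟩
  have := h6 t
  rw [B2_k, h5]
  field_simp

theorem B2_Phi (hn : 0 < n) (hN : 0 < N) (hper : ∀ a, w (a + N) = w a)
    (hodd : ∀ a, w (-a) = -w a) {ε : ℝ} (hε : 0 < ε) (he : ε - ε⁻¹ = n) :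
    ∃ Φ : ℝ × ℝ → ℝ, Continuous Φ ∧ Φ (0, 0) = (Num w n N : ℝ) / (N : ℝ) ^ 2 ∧
      ∀ u z : ℝ, 0 < u → 0 < ε - z ^ 2 / ε →
        HasSum (B2_t w n (u * (1 + z ^ 2)) (u * (ε - z ^ 2 / ε))) (Φ (u, z)) := by
  obtain ⟨D, R, hD, hR, hR0, hval, hG⟩ := B2_G (n := n) hN hper hodd
  obtain ⟨W, hW0, hW⟩ := B2_F_bdd (n := n) hN hper
  obtain ⟨Δ, hΔ, hΔ0, hΔ1⟩ := B2_dd hR
  obtain ⟨φ, hφ, hφ0, hφ1⟩ := B2_phi
  set a : ℝ → ℝ := fun z => 1 + z ^ 2 with ha
  set b : ℝ → ℝ := fun z => ε - z ^ 2 / ε with hb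
  set c : ℝ → ℝ := fun z => ε ^ 2 + z ^ 2 / ε ^ 2 with hc
  have ha0 : ∀ z, 0 < a z := fun z => by positivity
  have hc0 : ∀ z, 0 < c z := fun z => by positivity
  have hac : Continuous a := by fun_prop
  have hbc : Continuous b := by fun_prop
  have hcc : Continuous c := by fun_prop
  have hp : Continuous fun z => b z / a z := hbc.div hac fun z => (ha0 z).ne'
  have hq : Continuous fun z => b z / c z := hbc.div hcc fun z => (hc0 z).ne'
  have habc : ∀ z, c z = a z + n * b z := fun z => by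
    simp only [ha, hb, hc, ← he]
    field_simp
    ring
  refine ⟨fun v => 2 * (D (v.1 * a v.2, v.1 * b v.2) + D (v.1 * b v.2, v.1 * c v.2) -
    n * φ (v.1 * b v.2) * Δ (v.1 * a v.2, v.1 * c v.2) + Δ (0, v.1 * b v.2) *
      (φ (v.1 * c v.2) * (fun z => b z / c z) v.2 - φ (v.1 * a v.2) * (fun z => b z / a z) v.2)),
    ?_, ?_, fun u z hu hz => ?_⟩
  · generalize (fun z => b z / c z) = q at hq
    generalize (fun z => b z / a z) = p at hp
    fun_prop
  · simp only [zero_mul, hφ0, hΔ0, ha, hb, hc, ← hval, ← he]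
    field_simp
    ring
  · have hA : 0 < u * a z := mul_pos hu (ha0 z)
    have hB : 0 < u * b z := mul_pos hu hz
    have hC : 0 < u * c z := mul_pos hu (hc0 z)
    have h1 : u * c z = u * a z + n * (u * b z) := by rw [habc]; ring
    refine B2_congr (B2_H hn hodd hW0 hW hA hB (hG _ _ hA hB) (h1 ▸ hG _ _ hB hC))
      (fun _ => rfl) ?_
    have h2 := hΔ1 (u * a z) (u * c z)
    have h3 := hΔ1 0 (u * b z)
    rw [hR0, sub_zero, sub_zero] at h3
    rw [show u * c z - u * a z = n * (u * b z) by rw [h1]; ring, sub_eq_iff_eq_add] at h2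
    rw [← h1, hφ1 _ hA, hφ1 _ hB, hφ1 _ hC, h2, h3]
    have := (ha0 z).ne'
    have := (hc0 z).ne'
    have : b z ≠ 0 := hz.ne'
    simp only
    field_simp
    ring

theorem B2_J {ε τ : ℝ} (hε : 0 < ε) (hn : (n : ℝ) < ε) (he : ε - ε⁻¹ = n) (hτ : 0 < τ) {x y : ℝ}
    (hx : 0 < x) (hy : 0 ≤ y) (hxy : y < n * x) :
    IntegrableOn (fun s => Real.exp (-(x * (τ * Real.exp s * (1 + Real.exp (-s) ^ 2)) +
        y * (τ * Real.exp s * (ε - Real.exp (-s) ^ 2 / ε)))) +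
      Real.exp (-(x * (τ * Real.exp s * (1 + Real.exp (-s) ^ 2)) +
        (n * x - y) * (τ * Real.exp s * (ε - Real.exp (-s) ^ 2 / ε))))) (Set.Ioi (-Real.log ε)) ∧
    ∫ s in Set.Ioi (-Real.log ε), (Real.exp (-(x * (τ * Real.exp s * (1 + Real.exp (-s) ^ 2)) +
        y * (τ * Real.exp s * (ε - Real.exp (-s) ^ 2 / ε)))) +
      Real.exp (-(x * (τ * Real.exp s * (1 + Real.exp (-s) ^ 2)) +
        (n * x - y) * (τ * Real.exp s * (ε - Real.exp (-s) ^ 2 / ε))))) =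
      Jf τ (x ^ 2 + n * x * y - y ^ 2) := by
  have h2 : 0 < x - y / ε := by
    rw [sub_pos, div_lt_iff₀ hε]
    nlinarith
  obtain ⟨hi, hJ⟩ := B_J_shift τ (x + y * ε) (x - y / ε) hτ (by positivity) h2
  set g : ℝ → ℝ := fun s =>
    Real.exp (-(τ * ((x + y * ε) * Real.exp s + (x - y / ε) * Real.exp (-s)))) with hg
  set s₀ := -Real.log ε with hs₀
  have e1 : ∀ s, Real.exp (-(x * (τ * Real.exp s * (1 + Real.exp (-s) ^ 2)) +
      y * (τ * Real.exp s * (ε - Real.exp (-s) ^ 2 / ε)))) = g s := fun s => by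
    rw [hg]
    congr 2
    rw [Real.exp_neg]
    field_simp
    ring
  have e2 : ∀ s, Real.exp (-(x * (τ * Real.exp s * (1 + Real.exp (-s) ^ 2)) +
      (n * x - y) * (τ * Real.exp s * (ε - Real.exp (-s) ^ 2 / ε)))) = g (2 * s₀ - s) := fun s => by
    have h3 : Real.exp (2 * s₀ - s) = (ε ^ 2 * Real.exp s)⁻¹ := by
      rw [Real.exp_sub, hs₀, two_mul, Real.exp_add, Real.exp_neg, Real.exp_log hε]
      field_simp
    rw [hg]
    congr 2
    rw [Real.exp_neg, Real.exp_neg, h3, ← he]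
    field_simp
    ring
  simp only [e1, e2]
  have hi' : Integrable fun s => g (2 * s₀ - s) := hi.comp_sub_left _
  refine ⟨(hi.add hi').integrableOn, ?_⟩
  have h3 : ∫ s in Set.Ioi s₀, g (2 * s₀ - s) = ∫ s in Set.Iic s₀, g s := by
    rw [integral_Iic_eq_integral_Iio, ← integral_indicator measurableSet_Ioi,
      ← integral_indicator measurableSet_Iio, ← integral_sub_left_eq_self _ volume (2 * s₀)]
    congr 1
    funext s
    simp only [Set.indicator, Set.mem_Ioi, Set.mem_Iio, sub_sub_cancel,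
      show s₀ < 2 * s₀ - s ↔ s < s₀ by constructor <;> intro <;> linarith]
  rw [integral_add hi.integrableOn hi'.integrableOn, h3, add_comm,
    intervalIntegral.integral_Iic_add_Ioi hi.integrableOn hi.integrableOn, hJ]
  congr 1
  rw [← he]
  field_simp
  ring

theorem B2_sum (hn : 0 < n) {W : ℝ} (hW0 : 0 ≤ W) (hW : ∀ x y : ℕ, |B2_F w n x y| ≤ W)
    {ε τ : ℝ} (hε : 0 < ε) (hnε : (n : ℝ) < ε) (he : ε - ε⁻¹ = n) (hτ : 0 < τ) :
    ∑' a : ℕ, ((w a * rP n a : ℤ) : ℝ) * Jf τ a = ∫ s in Set.Ioi (-Real.log ε), ∑' p,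
      B2_t w n (τ * Real.exp s * (1 + Real.exp (-s) ^ 2))
        (τ * Real.exp s * (ε - Real.exp (-s) ^ 2 / ε)) p := by
  obtain ⟨C, hC⟩ := B_J_bound τ hτ
  have hC0 : 0 ≤ C := by simpa using (hC 1 le_rfl).1.trans (hC 1 le_rfl).2
  have hJ := fun (p : ℕ × ℕ) (h : 0 < p.1 ∧ p.2 < n * p.1) => B2_J hε hnε he hτ
    (x := p.1) (y := p.2) (by exact_mod_cast h.1) (Nat.cast_nonneg _) (by exact_mod_cast h.2)
  have h1 : Summable fun x : ℕ => 1 / (x : ℝ) ^ 2 := Real.summable_one_div_nat_pow.2 one_lt_two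
  have h2 := hasSum_integral_of_summable_integral_norm
    (μ := volume.restrict (Set.Ioi (-Real.log ε)))
    (F := fun (p : ℕ × ℕ) s => B2_t w n (τ * Real.exp s * (1 + Real.exp (-s) ^ 2))
      (τ * Real.exp s * (ε - Real.exp (-s) ^ 2 / ε)) p) (fun p => by
      simp only [B2_t]
      split_ifs with h
      · exact (hJ p h).1.const_mul _
      · exact integrable_zero _ _ _)
    (((h1.mul_of_nonneg ((summable_nat_add_iff 1).2 h1) (fun _ => by positivity)
      fun _ => by positivity).mul_left (W * C * n ^ 2)).of_nonneg_of_le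
      (fun p => integral_nonneg fun _ => norm_nonneg _) fun p => by
      simp only [B2_t]
      split_ifs with h
      · have hx : (1 : ℝ) ≤ p.1 := by exact_mod_cast h.1
        have hy : ((p.2 + 1 : ℕ) : ℝ) ≤ n * p.1 := by exact_mod_cast h.2
        have hy0 : (0 : ℝ) ≤ p.2 := Nat.cast_nonneg _
        have hy1 : (0 : ℝ) < (p.2 + 1 : ℕ) := by positivity
        have hQ : (p.1 : ℝ) ^ 2 ≤ p.1 ^ 2 + n * p.1 * p.2 - p.2 ^ 2 := by
          push_cast at hy
          nlinarith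
        have hx2 : (1 : ℝ) ≤ p.1 ^ 2 := one_le_pow₀ hx
        simp only [norm_mul, integral_const_mul, Real.norm_eq_abs,
          abs_of_pos (add_pos (Real.exp_pos _) (Real.exp_pos _)), (hJ p h).2]
        refine (mul_le_mul (hW _ _) (hC _ (hx2.trans hQ)).2 (hC _ (hx2.trans hQ)).1 hW0).trans ?_
        rw [mul_assoc (W * C), mul_assoc W C, div_eq_mul_one_div]
        refine mul_le_mul_of_nonneg_left (mul_le_mul_of_nonneg_left ?_ hC0) hW0
        rw [one_div_mul_one_div, mul_one_div,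
          div_le_div_iff₀ (pow_pos (by linarith) _) (by positivity)]
        calc 1 * ((p.1 : ℝ) ^ 2 * ((p.2 + 1 : ℕ) : ℝ) ^ 2)
            ≤ p.1 ^ 2 * ((p.1 : ℝ) ^ 2 * (n * p.1) ^ 2) := by gcongr
          _ = n ^ 2 * ((p.1 : ℝ) ^ 2) ^ 3 := by ring
          _ ≤ _ := by gcongr
      · simp only [norm_zero, integral_zero]
        positivity)
  refine HasSum.tsum_eq (B2_congr
    (h2.tsum_fiberwise fun p => p.1 ^ 2 + n * p.1 * p.2 - p.2 ^ 2) (fun a => ?_) rfl)
  rw [_root_.tsum_subtype _ fun p : ℕ × ℕ => ∫ s in Set.Ioi (-Real.log ε),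
      B2_t w n (τ * Real.exp s * (1 + Real.exp (-s) ^ 2))
        (τ * Real.exp s * (ε - Real.exp (-s) ^ 2 / ε)) p,
    tsum_eq_sum (s := (range (a + 1) ×ˢ range (n * a + 1)).filter
      fun v : ℕ × ℕ => 0 < v.1 ∧ v.2 < n * v.1 ∧ v.1 ^ 2 + n * v.1 * v.2 = a + v.2 ^ 2)]
  · rw [sum_congr rfl (g := fun _ => (w a : ℝ) * Jf τ a), sum_const, rP]
    · simp only [nsmul_eq_mul, Int.cast_mul, Int.cast_natCast]
      ring
    · intro p hp
      obtain ⟨-, h3, h4, h5⟩ := mem_filter.1 hp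
      have h6 : (p.1 : ℤ) ^ 2 + n * p.1 * p.2 - p.2 ^ 2 = a := by
        rw [sub_eq_iff_eq_add]; exact_mod_cast h5
      have h7 : (p.1 : ℝ) ^ 2 + n * p.1 * p.2 - p.2 ^ 2 = a := by exact_mod_cast h6
      rw [Set.indicator_of_mem (by simp [h5])]
      simp only [B2_t, if_pos (And.intro h3 h4), integral_const_mul, (hJ p ⟨h3, h4⟩).2, B2_F, h6,
        h7]
  · intro p hp
    refine Set.indicator_apply_eq_zero.2 fun h3 => ?_
    have h4 : ¬(0 < p.1 ∧ p.2 < n * p.1) := fun h => hp <| by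
      have h5 : p.2 ^ 2 ≤ n * p.1 * p.2 := by nlinarith [h.2]
      have h6 : p.1 ^ 2 + n * p.1 * p.2 - p.2 ^ 2 = a := h3
      have h7 : p.1 ≤ a := by nlinarith [h.1, show p.1 ^ 2 ≤ a by omega]
      have h8 := Nat.mul_le_mul_left n h7
      simp only [mem_filter, mem_product, mem_range]
      omega
    simp only [B2_t, if_neg h4, integral_zero]

end

theorem B2_cone (n N : ℕ) (hn : 0 < n) (hN : 0 < N) (w : ℤ → ℤ)
    (hper : ∀ a, w (a + N) = w a) (hodd : ∀ a, w (-a) = -w a) :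
    Tendsto (fun T : ℝ => (1 / T) * ∑' a : ℕ,
        ((w a * rP n a : ℤ) : ℝ) * Jf (Real.exp (-T)) a) atTop
      (𝓝 ((Num w n N : ℝ) / (N : ℝ) ^ 2)) := by
  obtain ⟨ε, hnε, he⟩ : ∃ ε : ℝ, n < ε ∧ ε - ε⁻¹ = n := by
    have h0 : (0 : ℝ) ≤ n := Nat.cast_nonneg n
    have h1 := Real.sq_sqrt (show (0 : ℝ) ≤ n ^ 2 + 4 by positivity)
    have h2 : (n : ℝ) < √(n ^ 2 + 4) := Real.lt_sqrt_of_sq_lt (by linarith)
    refine ⟨(n + √(n ^ 2 + 4)) / 2, by linarith, ?_⟩
    have h3 : (n + √(n ^ 2 + 4) : ℝ) ≠ 0 := by linarith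
    field_simp
    nlinarith
  have hε : 0 < ε := (Nat.cast_nonneg n).trans_lt hnε
  obtain ⟨W, hW0, hW⟩ := B2_F_bdd (n := n) hN hper
  obtain ⟨Φ, hΦ, hΦ0, hΦ1⟩ := B2_Phi hn hN hper hodd hε he
  obtain ⟨C, hC0, hC⟩ := B2_big hn hW0 hW
  obtain ⟨C', hC'⟩ := (isCompact_Icc.prod isCompact_Icc).exists_bound_of_continuousOn
    (s := Set.Icc (0 : ℝ) 1 ×ˢ Set.Icc (0 : ℝ) ε) hΦ.continuousOn
  have hC'0 : 0 ≤ C' := (norm_nonneg _).trans (hC' (0, 0) (by simp [hε.le]))
  have hz : ∀ s, -Real.log ε < s → Real.exp (-s) < ε := fun s hs =>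
    (Real.lt_log_iff_exp_lt hε).1 (by linarith)
  have hz' : ∀ s, -Real.log ε < s → 0 < ε - Real.exp (-s) ^ 2 / ε := fun s hs => by
    rw [sub_pos, div_lt_iff₀ hε]
    nlinarith [hz s hs, Real.exp_pos (-s)]
  have h := B_cesaro (-Real.log ε) _ (C + C' * Real.exp (1 / 2))
    (fun T s => Φ (Real.exp (s - T), Real.exp (-s))) (fun T => Continuous.continuousOn (by fun_prop))
    (fun T _ s hs => by
      have hu := Real.exp_pos (s - T)
      have h2 := Real.exp_pos (-(Real.exp (s - T) / 2))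
      rw [add_mul]
      rcases le_total (Real.exp (s - T)) 1 with h1 | h1
      · refine (hC' _ ⟨⟨hu.le, h1⟩, (Real.exp_pos _).le, (hz s hs).le⟩).trans ?_
        rw [mul_assoc, ← Real.exp_add]
        exact le_add_of_nonneg_of_le (by positivity)
          (le_mul_of_one_le_right hC'0 (Real.one_le_exp (by linarith)))
      · have h3 : Real.exp (s - T) ≤ Real.exp (s - T) * (1 + Real.exp (-s) ^ 2) :=
          le_mul_of_one_le_right hu.le (by nlinarith [sq_nonneg (Real.exp (-s))])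
        refine (hC _ _ _ (h1.trans h3) (mul_pos hu (hz' s hs)) (hΦ1 _ _ hu (hz' s hs))).trans
          (le_add_of_le_of_nonneg ?_ (by positivity))
        gcongr)
    (fun σ h0 h1 => (hΦ.tendsto (0, 0)).comp (Tendsto.prodMk_nhds
      (Real.tendsto_exp_atBot.comp ((tendsto_id.atTop_mul_const_of_neg
        (sub_neg.2 h1)).congr fun T => by simp [mul_sub]))
      (Real.tendsto_exp_neg_atTop_nhds_zero.comp (tendsto_id.atTop_mul_const h0))))
  rw [hΦ0] at h
  refine h.congr fun T => ?_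
  rw [B2_sum hn hW0 hW hε hnε he (Real.exp_pos _)]
  congr 1
  refine setIntegral_congr_fun measurableSet_Ioi fun s hs => ?_
  rw [← Real.exp_add, neg_add_eq_sub, (hΦ1 _ _ (Real.exp_pos _) (hz' s hs)).tsum_eq]

end Pool.Agent.Lib.MP_15cb89_nt
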