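import Pool.Agent.Lib.MP_15cb89_nt.AnaCore

/-! The two variable generating function of `w (x^2 + n x y - y^2)`. -/

set_option autoImplicit false

namespace Pool.Agent.Lib.MP_15cb89_nt

open Finset Filter Topology MeasureTheory

/-- The weight of the point `(x, y)`. -/
def B2_F (w : ℤ → ℤ) (n : ℕ) (x y : ℤ) : ℝ := w (x ^ 2 + n * x * y - y ^ 2)

/-- Half weight at the origin. -/
noncomputable def B2_c (x : ℕ) : ℝ := if x = 0 then 1 / 2 else 1

/-- The sum of `B2_c x * exp (-x t)`. -/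
noncomputable def B2_k (t : ℝ) : ℝ := (1 - Real.exp (-t))⁻¹ - 1 / 2

theorem B2_congr {ι : Type} {f g : ι → ℝ} {a b : ℝ} (h : HasSum f a) (h1 : ∀ x, g x = f x)
    (h2 : b = a) : HasSum g b := by
  rw [funext h1, h2]; exact h

theorem B2_shift {N : ℕ} {g : ℤ → ℝ} (hg : ∀ a, g (a + N) = g a) (c : ℤ) :
    ∑ u ∈ range N, g (u + c) = ∑ u ∈ range N, g u := by
  have step : ∀ c : ℤ, ∑ u ∈ range N, g (u + (c + 1)) = ∑ u ∈ range N, g (u + c) := fun c => by
    have h1 := sum_range_succ (fun u : ℕ => g (u + c)) N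
    have h2 := sum_range_succ' (fun u : ℕ => g (u + c)) N
    rw [h1, add_comm (N : ℤ) c, hg] at h2
    simp only [Nat.cast_zero, zero_add, add_left_inj] at h2
    rw [h2]
    exact sum_congr rfl fun u _ => by push_cast; ring_nf
  induction c using Int.induction_on with
  | zero => simp
  | succ i ih => rw [step, ih]
  | pred i ih => rw [← step, sub_add_cancel, ih]

theorem B2_neg {N : ℕ} {g : ℤ → ℝ} (hg : ∀ a, g (a + N) = g a) :
    ∑ u ∈ range N, g (-u) = ∑ u ∈ range N, g u := by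
  rw [← sum_range_reflect, ← B2_shift hg (1 - N)]
  refine sum_congr rfl fun u hu => ?_
  have := mem_range.1 hu
  rw [Nat.sub_sub, Nat.cast_sub (by omega)]
  push_cast
  ring_nf

theorem B2_saw {N : ℕ} (ρ : ℕ → ℝ) (h : ∀ u, 0 < u → u < N → ρ (N - u) = ρ u) :
    ∑ u ∈ range N, ρ u * (saw N u : ℝ) = 0 := by
  rcases N with _ | N
  · simp
  rw [sum_range_succ']
  have h1 := sum_range_reflect (fun j => ρ (j + 1) * (saw (N + 1) (j + 1) : ℝ)) N
  have h2 : ∑ j ∈ range N, ρ (N - 1 - j + 1) * (saw (N + 1) (N - 1 - j + 1) : ℝ) =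
      -∑ j ∈ range N, ρ (j + 1) * (saw (N + 1) (j + 1) : ℝ) := by
    rw [← sum_neg_distrib]
    refine sum_congr rfl fun j hj => ?_
    have hj' := mem_range.1 hj
    rw [show N - 1 - j + 1 = N + 1 - (j + 1) by omega, h _ (by omega) (by omega), saw, saw,
      if_neg (by omega), if_neg (by omega), Nat.cast_sub (by omega)]
    push_cast
    ring
  have h3 : (saw (N + 1) 0 : ℝ) = 0 := by simp [saw]
  rw [h3]
  linarith

section

variable {n N : ℕ} {w : ℤ → ℤ}

theorem B2_w_mul (hper : ∀ a, w (a + N) = w a) (a m : ℤ) : w (a + m * N) = w a :=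
  (Function.Periodic.int_mul (f := w) (c := (N : ℤ)) hper m) a

theorem B2_F_add (hper : ∀ a, w (a + N) = w a) (x y i j : ℤ) :
    B2_F w n (x + i * N) (y + j * N) = B2_F w n x y := by
  rw [B2_F, B2_F, ← B2_w_mul hper (x ^ 2 + n * x * y - y ^ 2)
    (2 * x * i + i ^ 2 * N + n * (x * j + i * y + i * j * N) - 2 * y * j - j ^ 2 * N)]
  congr 2
  ring

theorem B2_F_mod (hper : ∀ a, w (a + N) = w a) (x y : ℕ) :
    B2_F w n (x % N : ℕ) (y % N : ℕ) = B2_F w n x y := by
  rw [← B2_F_add hper _ _ (x / N : ℕ) (y / N : ℕ)]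
  congr 1 <;> exact_mod_cast Nat.mod_add_div' _ _

theorem B2_F_shear (hodd : ∀ a, w (-a) = -w a) (x y : ℤ) :
    B2_F w n x (y + n * x) = -B2_F w n y x := by
  rw [B2_F, B2_F, ← Int.cast_neg, ← hodd]
  congr 2
  ring

theorem B2_F_refl (x y : ℤ) : B2_F w n x (n * x - y) = B2_F w n x y := by
  rw [B2_F, B2_F]
  congr 2
  ring

theorem B2_F_bdd (hN : 0 < N) (hper : ∀ a, w (a + N) = w a) :
    ∃ W, 0 ≤ W ∧ ∀ x y : ℕ, |B2_F w n x y| ≤ W := by
  refine ⟨∑ u ∈ range N, ∑ v ∈ range N, |B2_F w n u v|, by positivity, fun x y => ?_⟩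
  rw [← B2_F_mod hper]
  refine le_trans ?_ (single_le_sum (f := fun u : ℕ => ∑ v ∈ range N, |B2_F w n u v|)
    (fun u _ => by positivity) (mem_range.2 (Nat.mod_lt x hN)))
  exact single_le_sum (f := fun v : ℕ => |B2_F w n (x % N : ℕ) v|) (fun u _ => abs_nonneg _)
    (mem_range.2 (Nat.mod_lt y hN))

theorem B2_half {f : ℕ → ℝ} {a : ℝ} (h : HasSum f (a + f 0 / 2)) :
    HasSum (fun x => B2_c x * f x) a := by
  have h1 := h.sub (hasSum_ite_eq 0 (f 0 / 2))
  rw [add_sub_cancel_right] at h1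
  refine B2_congr h1 (fun x => ?_) rfl
  rw [B2_c]
  split_ifs with hx
  · rw [hx]; ring
  · ring

theorem B2_geom {A : ℝ} (hA : 0 < A) :
    HasSum (fun x : ℕ => Real.exp (-(x * A))) (1 - Real.exp (-A))⁻¹ := by
  refine B2_congr (hasSum_geometric_of_lt_one (Real.exp_pos (-A)).le
    (Real.exp_lt_one_iff.2 (neg_neg_of_pos hA))) (fun x => ?_) rfl
  rw [← Real.exp_nat_mul, mul_neg]

theorem B2_res (hN : 0 < N) (u : ℕ) : ∃ d : ℝ → ℝ, u < N → ContDiff ℝ 1 d ∧
    (∀ A, 0 < A → HasSum (fun x : ℕ => B2_c x * ((if x % N = u then 1 else 0) *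
      Real.exp (-(x * A)))) (d A + B2_k A / N)) ∧ d 0 = -(saw N u : ℝ) / (2 * N) ∧
    deriv d 0 = ((u : ℝ) ^ 2 - N * u - (∑ x ∈ range N, ((x : ℝ) ^ 2 - N * x)) / N) / (2 * N) := by
  by_cases hu : u < N
  swap
  · exact ⟨0, fun h => absurd h hu⟩
  have hN' : (N : ℝ) ≠ 0 := by positivity
  have key : ∀ g : ℕ → ℝ, ∑ x ∈ range N, ((if x % N = u then 1 else 0) - 1 / (N : ℝ)) * g x =
      g u - (∑ x ∈ range N, g x) / N := fun g => by
    simp only [sub_mul, sum_sub_distrib, ← mul_sum]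
    rw [sum_eq_single u (fun x hx hxu => by
      rw [Nat.mod_eq_of_lt (mem_range.1 hx), if_neg hxu, zero_mul])
      (fun h => absurd (mem_range.2 hu) h), Nat.mod_eq_of_lt hu, if_pos rfl]
    ring
  obtain ⟨d, h1, h2, h3, h4⟩ := B_gen N hN (fun x => (if x % N = u then 1 else 0) - 1 / (N : ℝ))
    (fun x => by simp only [Nat.add_mod_right]) (by simpa [hN'] using key fun _ => 1)
  refine ⟨d, fun _ => ⟨h1, fun A hA => ?_, ?_, ?_⟩⟩
  · have h5 := B2_half (f := fun x : ℕ => ((if x % N = u then 1 else 0) - 1 / (N : ℝ)) *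
      Real.exp (-(x * A))) (a := d A) (by simpa using h2 A hA)
    have h6 := B2_half (f := fun x : ℕ => Real.exp (-(x * A))) (a := B2_k A)
      (by simpa [B2_k] using B2_geom hA)
    exact B2_congr (h5.add (h6.div_const N)) (fun x => by ring) rfl
  · have h5 := B2_saw (N := N) (fun _ => 1) fun _ _ _ => rfl
    simp only [one_mul] at h5
    rw [h3, key, h5]
    simp
  · rw [h4, key]

theorem B2_G (hN : 0 < N) (hper : ∀ a, w (a + N) = w a) (hodd : ∀ a, w (-a) = -w a) :
    ∃ (D : ℝ × ℝ → ℝ) (R : ℝ → ℝ), Continuous D ∧ ContDiff ℝ 1 R ∧ R 0 = 0 ∧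
      4 * D (0, 0) - 4 * n * deriv R 0 = (Num w n N : ℝ) / (N : ℝ) ^ 2 ∧
      ∀ A B, 0 < A → 0 < B → HasSum (fun p : ℕ × ℕ => B2_c p.1 * B2_c p.2 * (B2_F w n p.1 p.2 *
        (Real.exp (-(p.1 * A)) * Real.exp (-(p.2 * B)))))
        (D (A, B) + B2_k B * R A - B2_k A * R B) := by
  choose d hd using B2_res hN
  have hN' : (N : ℝ) ≠ 0 := by positivity
  have hp2 : ∀ x a : ℤ, B2_F w n x (a + N) = B2_F w n x a := fun x a => by
    simpa using B2_F_add hper x a 0 1
  set ρ : ℕ → ℝ := fun u => ∑ v ∈ range N, B2_F w n u v with hρ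
  have hcol : ∀ v : ℕ, ∑ u ∈ range N, B2_F w n u v = -ρ v := fun v => by
    rw [hρ]
    beta_reduce
    rw [← B2_shift (hp2 v) (n * v), ← sum_neg_distrib]
    exact sum_congr rfl fun u _ => by rw [B2_F_shear hodd, neg_neg]
  have htot : ∑ u ∈ range N, ρ u = 0 := by
    have h1 : ∑ u ∈ range N, ρ u = -∑ u ∈ range N, ρ u := by
      conv_lhs => rw [hρ, sum_comm]
      rw [← sum_neg_distrib]
      exact sum_congr rfl fun v _ => hcol v
    linarith
  have hev : ∀ u, 0 < u → u < N → ρ (N - u) = ρ u := fun u _ hu => by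
    rw [hρ]
    beta_reduce
    rw [← B2_neg (hp2 u)]
    refine sum_congr rfl fun v _ => ?_
    rw [Nat.cast_sub hu.le, show (N : ℤ) - u = -u + 1 * N by ring, ← add_zero (v : ℤ),
      ← zero_mul (N : ℤ), B2_F_add hper, zero_mul, add_zero, B2_F, B2_F]
    congr 2
    ring
  have hc : ∀ u ∈ range N, Continuous (d u) := fun u hu => (hd u (mem_range.1 hu)).1.continuous
  refine ⟨fun z => ∑ u ∈ range N, ∑ v ∈ range N, B2_F w n u v * (d u z.1 * d v z.2),
    fun A => ∑ u ∈ range N, ρ u / N * d u A, ?_, ?_, ?_, ?_, fun A B hA hB => ?_⟩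
  · exact continuous_finsetSum _ fun u hu => continuous_finsetSum _ fun v hv =>
      continuous_const.mul (((hc u hu).comp continuous_fst).mul ((hc v hv).comp continuous_snd))
  · exact ContDiff.sum fun u hu => contDiff_const.mul (hd u (mem_range.1 hu)).1
  · beta_reduce
    rw [sum_congr rfl fun u hu => show ρ u / N * d u 0 = -(1 / (2 * N ^ 2)) * (ρ u * saw N u) by
      rw [(hd u (mem_range.1 hu)).2.2.1]; field_simp, ← mul_sum, B2_saw ρ hev, mul_zero]
  · have h1 : HasDerivAt (fun A => ∑ u ∈ range N, ρ u / N * d u A)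
        (∑ u ∈ range N, ρ u / N * deriv (d u) 0) 0 :=
      HasDerivAt.fun_sum fun u hu => (((hd u (mem_range.1 hu)).1.differentiable
        one_ne_zero) 0).hasDerivAt.const_mul _
    have h2 : ∑ u ∈ range N, ρ u / N * deriv (d u) 0 =
        (∑ u ∈ range N, ρ u * ((u : ℝ) ^ 2 - N * u)) / (2 * N ^ 2) := by
      rw [sum_congr rfl fun u hu => show ρ u / N * deriv (d u) 0 =
        ρ u * ((u : ℝ) ^ 2 - N * u) / (2 * N ^ 2) -
          ρ u * ((∑ x ∈ range N, ((x : ℝ) ^ 2 - N * x)) / (2 * N ^ 3)) by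
        rw [(hd u (mem_range.1 hu)).2.2.2]; field_simp, sum_sub_distrib, ← sum_mul, htot,
        ← sum_div]
      ring
    have h3 : ∑ u ∈ range N, ρ u * ((u : ℝ) ^ 2 - N * u) =
        -∑ u ∈ range N, ∑ v ∈ range N, B2_F w n u v * ((v : ℝ) ^ 2 - N * v) := by
      rw [sum_comm, ← sum_neg_distrib]
      exact sum_congr rfl fun v _ => by rw [← sum_mul, hcol]; ring
    have h4 : ∑ u ∈ range N, ∑ v ∈ range N, B2_F w n u v * (d u 0 * d v 0) =
        (∑ u ∈ range N, ∑ v ∈ range N, B2_F w n u v * (saw N u * saw N v)) / (4 * N ^ 2) := by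
      rw [sum_div]
      refine sum_congr rfl fun u hu => ?_
      rw [sum_div]
      refine sum_congr rfl fun v hv => ?_
      rw [(hd u (mem_range.1 hu)).2.2.1, (hd v (mem_range.1 hv)).2.2.1]
      field_simp
      ring
    have h5 : (Num w n N : ℝ) =
        (∑ u ∈ range N, ∑ v ∈ range N, B2_F w n u v * (saw N u * saw N v)) +
          2 * n * ∑ u ∈ range N, ∑ v ∈ range N, B2_F w n u v * ((v : ℝ) ^ 2 - N * v) := by
      simp only [Num, B2_F, mul_sum, ← sum_add_distrib]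
      push_cast
      exact sum_congr rfl fun u _ => sum_congr rfl fun v _ => by ring
    beta_reduce
    rw [h1.deriv, h2, h3, h4, h5]
    field_simp
    ring
  · have h1 := hasSum_sum (s := range N) fun u hu => hasSum_sum (s := range N) fun v hv =>
      (((hd u (mem_range.1 hu)).2.1 A hA).mul ((hd v (mem_range.1 hv)).2.1 B hB)
        (summable_mul_of_summable_norm ((hd u (mem_range.1 hu)).2.1 A hA).summable.norm
          ((hd v (mem_range.1 hv)).2.1 B hB).summable.norm)).mul_left (B2_F w n u v)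
    refine B2_congr h1 (fun p => ?_) ?_
    · rw [sum_eq_single (p.1 % N) (fun u _ hu => by simp [hu.symm])
        (fun h => absurd (mem_range.2 (Nat.mod_lt _ hN)) h), sum_eq_single (p.2 % N)
        (fun u _ hu => by simp [hu.symm]) (fun h => absurd (mem_range.2 (Nat.mod_lt _ hN)) h),
        B2_F_mod hper, if_pos rfl, if_pos rfl]
      ring
    · have h2 : ∀ u v : ℕ, B2_F w n u v * ((d u A + B2_k A / N) * (d v B + B2_k B / N)) =
          B2_F w n u v * (d u A * d v B) + B2_k B * (B2_F w n u v / N * d u A) +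
            B2_k A * (B2_F w n u v / N * d v B) + B2_k A * B2_k B / N ^ 2 * B2_F w n u v :=
        fun u v => by ring
      simp only [h2, sum_add_distrib, ← mul_sum]
      rw [sum_comm (f := fun u v : ℕ => B2_F w n u v / N * d v B)]
      simp only [← sum_mul, ← sum_div, hcol]
      change _ = _ + B2_k B * ∑ u ∈ range N, ρ u / N * d u A + _ + _ * ∑ u ∈ range N, ρ u
      simp only [htot, neg_div, neg_mul, sum_neg_distrib]
      ring

end

end Pool.Agent.Lib.MP_15cb89_nt
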