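import Pool.Agent.Lib.MP_15cb89_nt.Defs

/-! Analytic core lemmas: a Cesaro limit, generating functions, the Bessel type weight. -/

set_option autoImplicit false

namespace Pool.Agent.Lib.MP_15cb89_nt

open Finset Filter Topology MeasureTheory

theorem B_cesaro (s0 h0 C : ℝ) (h : ℝ → ℝ → ℝ)
    (hcont : ∀ T, ContinuousOn (h T) (Set.Ioi s0))
    (hbound : ∀ T, 1 ≤ T → ∀ s, s0 < s → |h T s| ≤ C * Real.exp (-(Real.exp (s - T) / 2)))
    (hlim : ∀ σ : ℝ, 0 < σ → σ < 1 → Tendsto (fun T => h T (T * σ)) atTop (𝓝 h0)) :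
    Tendsto (fun T => (1 / T) * ∫ s in Set.Ioi s0, h T s) atTop (𝓝 h0) := by
  have hC : 0 ≤ C := nonneg_of_mul_nonneg_left
    ((abs_nonneg _).trans (hbound 1 le_rfl (s0 + 1) (by linarith))) (Real.exp_pos _)
  have h1 := tendsto_integral_filter_of_dominated_convergence (μ := volume) (l := atTop)
    (F := fun T σ => (Set.Ioi s0).indicator (h T) (T * σ))
    (f := (Set.Ioo (0 : ℝ) 1).indicator fun _ => h0)
    ((Set.Ioi (-|s0|)).indicator fun σ => C * Real.exp (1 / 2) * Real.exp (-(1 / 2) * σ))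
    (Eventually.of_forall fun T => by
      have hm : MeasurableSet {σ : ℝ | s0 < T * σ} :=
        (isOpen_lt continuous_const (by fun_prop)).measurableSet
      exact (aestronglyMeasurable_indicator_iff (f := fun σ => h T (T * σ)) hm).2
        (((hcont T).comp (s := {σ : ℝ | s0 < T * σ}) (f := fun σ => T * σ) (by fun_prop)
          fun σ hσ => hσ).aestronglyMeasurable hm))
    (by
      filter_upwards [eventually_ge_atTop 1] with T hT
      refine Eventually.of_forall fun σ => ?_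
      by_cases hσ : s0 < T * σ
      · have h2 : -|s0| < σ := by
          by_contra h3
          nlinarith [abs_nonneg s0, neg_abs_le s0]
        rw [Set.indicator_of_mem (show T * σ ∈ Set.Ioi s0 from hσ),
          Set.indicator_of_mem (show σ ∈ Set.Ioi (-|s0|) from h2), mul_assoc, ← Real.exp_add]
        refine (hbound T hT _ hσ).trans (mul_le_mul_of_nonneg_left (Real.exp_le_exp.2 ?_) hC)
        rcases le_total σ 1 with h3 | h3
        · linarith [Real.exp_pos (T * σ - T)]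
        · nlinarith [Real.add_one_le_exp (T * σ - T)]
      · rw [Set.indicator_of_notMem (show T * σ ∉ Set.Ioi s0 from hσ), norm_zero]
        exact Set.indicator_nonneg (fun _ _ => by positivity) _)
    ((integrable_indicator_iff measurableSet_Ioi).2
      ((exp_neg_integrableOn_Ioi _ (by norm_num)).const_mul _))
    (by
      filter_upwards [compl_mem_ae_iff.2 (measure_singleton (0 : ℝ)),
        compl_mem_ae_iff.2 (measure_singleton (1 : ℝ))] with σ e0 e1
      rcases lt_or_gt_of_ne (show σ ≠ 0 from e0) with h2 | h2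
      · rw [Set.indicator_of_notMem fun h => h2.not_gt h.1]
        refine tendsto_const_nhds.congr' ?_
        filter_upwards [(tendsto_id.atTop_mul_const_of_neg h2).eventually (eventually_le_atBot s0)]
          with T hT
        exact (Set.indicator_of_notMem (show T * σ ∉ Set.Ioi s0 from not_lt.2 hT) _).symm
      have h4 := (tendsto_id.atTop_mul_const h2).eventually (eventually_gt_atTop s0)
      rcases lt_or_gt_of_ne (show σ ≠ 1 from e1) with h3 | h3
      · rw [Set.indicator_of_mem (show σ ∈ Set.Ioo 0 1 from ⟨h2, h3⟩)]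
        refine (hlim σ h2 h3).congr' ?_
        filter_upwards [h4] with T hT
        exact (Set.indicator_of_mem (show T * σ ∈ Set.Ioi s0 from hT) _).symm
      · rw [Set.indicator_of_notMem fun h => h3.not_gt h.2]
        have h5 := (Real.tendsto_exp_atBot.comp (tendsto_neg_atTop_atBot.comp
          ((Real.tendsto_exp_atTop.comp (tendsto_id.atTop_mul_const (sub_pos.2 h3))).atTop_div_const
            two_pos))).const_mul C
        rw [mul_zero] at h5
        refine squeeze_zero_norm' ?_ h5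
        filter_upwards [h4, eventually_ge_atTop 1] with T hT hT1
        rw [Set.indicator_of_mem (show T * σ ∈ Set.Ioi s0 from hT)]
        simpa only [Function.comp_apply, id, mul_sub, mul_one, Real.norm_eq_abs]
          using hbound T hT1 _ hT)
  rw [integral_indicator measurableSet_Ioo] at h1
  simp only [integral_const, MeasurableSet.univ, measureReal_restrict_apply, Set.univ_inter,
    Real.volume_real_Ioo, sub_zero, smul_eq_mul, max_eq_left zero_le_one, one_mul] at h1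
  refine h1.congr' ?_
  filter_upwards [eventually_gt_atTop 0] with T hT
  rw [Measure.integral_comp_mul_left, integral_indicator measurableSet_Ioi,
    abs_of_pos (inv_pos.2 hT), smul_eq_mul, one_div]

/-- finite geometric sum -/
noncomputable def B_gs (x : ℕ) (A : ℝ) : ℝ := ∑ i ∈ range x, Real.exp (-(i * A))

/-- generating function of a periodic sequence of mean zero -/
noncomputable def B_Gen (N : ℕ) (ρ : ℕ → ℝ) (A : ℝ) : ℝ :=
  -(∑ x ∈ range N, ρ x * B_gs x A) / B_gs N A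

lemma B_gs_mul (x : ℕ) (A : ℝ) : B_gs x A * (Real.exp (-A) - 1) = Real.exp (-(x * A)) - 1 := by
  simp only [B_gs, ← mul_neg, Real.exp_nat_mul, geom_sum_mul]

lemma B_gs_succ (x : ℕ) (A : ℝ) :
    B_gs (x + 1) A = ∑ i ∈ range x, Real.exp (-((i + 1 : ℕ) * A)) + 1 := by
  rw [B_gs, sum_range_succ']
  simp

lemma B_one_le_gs {N : ℕ} (hN : 0 < N) (A : ℝ) : 1 ≤ B_gs N A := by
  obtain ⟨k, rfl⟩ := Nat.exists_eq_succ_of_ne_zero hN.ne'
  rw [B_gs_succ]
  exact le_add_of_nonneg_left (by positivity)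

lemma B_gs_le (x : ℕ) {A : ℝ} (hA : 0 ≤ A) : |B_gs x A| ≤ x := by
  rw [B_gs, abs_of_nonneg (by positivity)]
  refine (sum_le_card_nsmul _ _ 1 fun i _ => Real.exp_le_one_iff.2 (neg_nonpos.2 (by positivity))).trans
    (by simp)

lemma B_gs_sub_le {x : ℕ} (hx : x ≠ 0) {A : ℝ} (hA : 0 ≤ A) :
    |B_gs x A - 1| ≤ x * Real.exp (-A) := by
  obtain ⟨k, rfl⟩ := Nat.exists_eq_succ_of_ne_zero hx
  rw [B_gs_succ, add_sub_cancel_right, abs_of_nonneg (by positivity)]
  refine (sum_le_card_nsmul _ _ (Real.exp (-A)) fun i _ => Real.exp_le_exp.2 ?_).trans ?_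
  · push_cast
    nlinarith [Nat.cast_nonneg (α := ℝ) i]
  · rw [card_range, nsmul_eq_mul]
    gcongr
    exact Nat.le_succ k

lemma B_gs_contDiff (x : ℕ) : ContDiff ℝ 1 (B_gs x) := by
  unfold B_gs
  fun_prop

lemma B_gs_zero (x : ℕ) : B_gs x 0 = x := by simp [B_gs]

lemma B_gs_deriv (x : ℕ) : HasDerivAt (B_gs x) (-((x : ℝ) ^ 2 - x) / 2) 0 := by
  have h := HasDerivAt.fun_sum (u := range x) fun i _ =>
    (((hasDerivAt_id (0 : ℝ)).const_mul (i : ℝ)).neg).exp
  refine h.congr_deriv ?_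
  clear h
  induction x with
  | zero => simp
  | succ k ih => rw [sum_range_succ, ih]; simp; ring

lemma B_Gen_contDiff {N : ℕ} (hN : 0 < N) (ρ : ℕ → ℝ) : ContDiff ℝ 1 (B_Gen N ρ) :=
  (ContDiff.sum fun x _ => contDiff_const.mul (B_gs_contDiff x)).neg.div (B_gs_contDiff N)
    fun A => (one_pos.trans_le (B_one_le_gs hN A)).ne'

lemma B_Gen_zero (N : ℕ) (ρ : ℕ → ℝ) : B_Gen N ρ 0 = -(∑ x ∈ range N, ρ x * x) / N := by
  simp only [B_Gen, B_gs_zero]

lemma B_Gen_le {N : ℕ} (hN : 0 < N) (ρ : ℕ → ℝ) {A : ℝ} (hA : 0 ≤ A) :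
    |B_Gen N ρ A| ≤ ∑ x ∈ range N, |ρ x| * x := by
  have h := B_one_le_gs hN A
  rw [B_Gen, abs_div, abs_neg, abs_of_pos (one_pos.trans_le h)]
  refine (div_le_self (abs_nonneg _) h).trans ((abs_sum_le_sum_abs _ _).trans
    (sum_le_sum fun x _ => ?_))
  rw [abs_mul]
  exact mul_le_mul_of_nonneg_left (B_gs_le x hA) (abs_nonneg _)

lemma B_Gen_le' {N : ℕ} (hN : 0 < N) {ρ : ℕ → ℝ} (hsum : ∑ x ∈ range N, ρ x = 0) (h0 : ρ 0 = 0)
    {A : ℝ} (hA : 0 ≤ A) : |B_Gen N ρ A| ≤ (∑ x ∈ range N, |ρ x| * x) * Real.exp (-A) := by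
  have h := B_one_le_gs hN A
  have e : ∑ x ∈ range N, ρ x * B_gs x A = ∑ x ∈ range N, ρ x * (B_gs x A - 1) := by
    simp only [mul_sub, sum_sub_distrib, mul_one, hsum, sub_zero]
  rw [B_Gen, abs_div, abs_neg, abs_of_pos (one_pos.trans_le h), e, sum_mul]
  refine (div_le_self (abs_nonneg _) h).trans ((abs_sum_le_sum_abs _ _).trans
    (sum_le_sum fun x _ => ?_))
  rw [abs_mul, mul_assoc]
  rcases eq_or_ne x 0 with rfl | hx
  · simp [h0]
  · exact mul_le_mul_of_nonneg_left (B_gs_sub_le hx hA) (abs_nonneg _)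

lemma B_summable {N : ℕ} (hN : 0 < N) {ρ : ℕ → ℝ} (hper : ∀ x, ρ (x + N) = ρ x) {A : ℝ}
    (hA : 0 < A) : Summable fun x : ℕ => ‖ρ x * Real.exp (-(x * A))‖ := by
  refine Summable.of_nonneg_of_le (fun _ => norm_nonneg _) (fun x => ?_)
    ((summable_geometric_of_lt_one (Real.exp_pos (-A)).le
      (Real.exp_lt_one_iff.2 (neg_lt_zero.2 hA))).mul_left (∑ y ∈ range N, |ρ y|))
  rw [norm_mul, Real.norm_of_nonneg (Real.exp_pos _).le, ← mul_neg, Real.exp_nat_mul,
    ← Function.Periodic.map_mod_nat hper x]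
  exact mul_le_mul_of_nonneg_right (single_le_sum (f := fun y => |ρ y|) (fun _ _ => abs_nonneg _)
    (mem_range.2 (Nat.mod_lt _ hN))) (by positivity)

lemma B_Gen_hasSum {N : ℕ} (hN : 0 < N) {ρ : ℕ → ℝ} (hper : ∀ x, ρ (x + N) = ρ x)
    (hsum : ∑ x ∈ range N, ρ x = 0) {A : ℝ} (hA : 0 < A) :
    HasSum (fun x : ℕ => ρ x * Real.exp (-(x * A))) (B_Gen N ρ A) := by
  have h1 := (B_summable hN hper hA).of_norm
  have h2 := h1.sum_add_tsum_nat_add N
  have h3 : ∀ x : ℕ, ρ (x + N) * Real.exp (-((x + N : ℕ) * A)) =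
      Real.exp (-(N * A)) * (ρ x * Real.exp (-(x * A))) := fun x => by
    rw [hper, mul_left_comm, ← Real.exp_add]
    congr 2
    push_cast
    ring
  simp only [h3, tsum_mul_left] at h2
  have h4 : (∑ x ∈ range N, ρ x * B_gs x A) * (Real.exp (-A) - 1) =
      ∑ x ∈ range N, ρ x * Real.exp (-(x * A)) := by
    simp only [sum_mul, mul_assoc, B_gs_mul]
    simp only [mul_sub, sum_sub_distrib, mul_one, hsum, sub_zero]
  refine (show B_Gen N ρ A = _ from ?_) ▸ h1.hasSum
  rw [B_Gen, div_eq_iff (one_pos.trans_le (B_one_le_gs hN A)).ne']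
  refine mul_right_cancel₀ (sub_ne_zero.2 (Real.exp_lt_one_iff.2 (neg_lt_zero.2 hA)).ne) ?_
  linear_combination -h4 - h2 - (∑' x : ℕ, ρ x * Real.exp (-(x * A))) * B_gs_mul N A

theorem B_gen (N : ℕ) (hN : 0 < N) (ρ : ℕ → ℝ) (hper : ∀ x, ρ (x + N) = ρ x)
    (hsum : ∑ x ∈ range N, ρ x = 0) :
    ∃ R : ℝ → ℝ, ContDiff ℝ 1 R ∧
      (∀ A : ℝ, 0 < A → HasSum (fun x : ℕ => ρ x * Real.exp (-(x * A))) (R A + ρ 0 / 2)) ∧
      R 0 = -(∑ x ∈ range N, ρ x * (saw N x : ℝ)) / (2 * N) ∧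
      deriv R 0 = (∑ x ∈ range N, ρ x * ((x : ℝ) ^ 2 - N * x)) / (2 * N) := by
  have hN' : (N : ℝ) ≠ 0 := by positivity
  refine ⟨fun A => B_Gen N ρ A - ρ 0 / 2, (B_Gen_contDiff hN ρ).sub contDiff_const, fun A hA => by
    simpa only [sub_add_cancel] using B_Gen_hasSum hN hper hsum hA, ?_, ?_⟩
  · have e : ∀ x ∈ range N, ρ x * (saw N x : ℝ) =
        2 * (ρ x * x) - N * ρ x + if x = 0 then N * ρ x else 0 := fun x _ => by
      unfold saw
      split_ifs with h
      · simp [h]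
      · push_cast
        ring
    rw [sum_congr rfl e, sum_add_distrib, sum_sub_distrib, ← mul_sum, ← mul_sum, hsum, sum_ite_eq',
      if_pos (mem_range.2 hN)]
    simp only [B_Gen_zero]
    field_simp
    ring
  · have h := (((HasDerivAt.fun_sum (u := range N) fun x _ =>
      (B_gs_deriv x).const_mul (ρ x)).neg.div (B_gs_deriv N)
        (by rwa [B_gs_zero])).sub_const (ρ 0 / 2)).deriv
    refine h.trans ?_
    simp only [B_gs_zero, Pi.neg_apply, mul_sub, neg_div, mul_neg, ← mul_div_assoc, sum_neg_distrib,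
      ← sum_div, sum_sub_distrib, mul_left_comm _ (N : ℝ), ← mul_sum]
    field_simp
    ring

lemma B_cosh (s : ℝ) : 1 + s ^ 2 / 2 ≤ Real.exp s + Real.exp (-s) := by
  have h := Real.quadratic_le_exp_of_nonneg (abs_nonneg s)
  rw [sq_abs] at h
  rcases abs_cases s with h1 | h1 <;> rw [h1.1] at h <;>
    linarith [Real.exp_pos s, Real.exp_pos (-s), h1.2]

theorem B_J_shift (τ L1 L2 : ℝ) (hτ : 0 < τ) (h1 : 0 < L1) (h2 : 0 < L2) :
    Integrable (fun s : ℝ => Real.exp (-(τ * (L1 * Real.exp s + L2 * Real.exp (-s))))) ∧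
    ∫ s : ℝ, Real.exp (-(τ * (L1 * Real.exp s + L2 * Real.exp (-s)))) = Jf τ (L1 * L2) := by
  constructor
  · refine (integrable_exp_neg_mul_sq (b := τ * min L1 L2 / 2) (by positivity)).mono'
      (Continuous.aestronglyMeasurable (by fun_prop)) (Eventually.of_forall fun s => ?_)
    rw [Real.norm_of_nonneg (Real.exp_pos _).le, Real.exp_le_exp]
    have h3 := mul_le_mul_of_nonneg_right (min_le_left L1 L2) (Real.exp_pos s).le
    have h4 := mul_le_mul_of_nonneg_right (min_le_right L1 L2) (Real.exp_pos (-s)).le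
    have h5 := mul_le_mul_of_nonneg_left (B_cosh s) (lt_min h1 h2).le
    nlinarith [lt_min h1 h2]
  · rw [Jf, ← integral_add_right_eq_self _ (Real.log L2)]
    congr 1
    ext s
    rw [neg_add, Real.exp_add, Real.exp_add, Real.exp_neg (Real.log L2), Real.exp_log h2]
    field_simp

theorem B_J_bound (τ : ℝ) (hτ : 0 < τ) :
    ∃ C : ℝ, ∀ a : ℝ, 1 ≤ a → 0 ≤ Jf τ a ∧ Jf τ a ≤ C / a ^ 3 := by
  refine ⟨720 / τ ^ 6 * ∫ s : ℝ, Real.exp (-(τ / 2) * s ^ 2), fun a ha =>
    ⟨integral_nonneg fun s => (Real.exp_pos _).le, ?_⟩⟩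
  have h1 : 1 ≤ √a := Real.one_le_sqrt.2 ha
  have h2 : √a * √a = a := Real.mul_self_sqrt (by linarith)
  obtain ⟨h3, h4⟩ := B_J_shift τ √a √a hτ (by linarith) (by linarith)
  rw [h2] at h4
  rw [← h4, mul_div_right_comm, ← integral_const_mul]
  refine integral_mono h3 ((integrable_exp_neg_mul_sq (by positivity)).const_mul _) fun s => ?_
  have h5 : Real.exp (-(τ * √a)) ≤ 720 / τ ^ 6 / a ^ 3 := by
    have := Real.pow_div_factorial_le_exp (τ * √a) (by positivity) 6
    rw [Real.exp_neg, inv_le_comm₀ (Real.exp_pos _) (by positivity)]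
    refine le_trans (le_of_eq ?_) this
    conv_lhs => rw [← h2]
    simp only [Nat.factorial]
    field_simp
    norm_num
  refine le_trans ?_ (mul_le_mul_of_nonneg_right h5 (Real.exp_pos _).le)
  rw [← Real.exp_add, Real.exp_le_exp]
  have h6 := mul_le_mul_of_nonneg_left (B_cosh s) (show 0 ≤ √a by linarith)
  have h7 := mul_le_mul_of_nonneg_right h1 (sq_nonneg s)
  nlinarith

end Pool.Agent.Lib.MP_15cb89_nt
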