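import Pool.Agent.Lib.MP_15cb89_nt.AnaCore

/-! The Cesaro limit of the convolution side. -/

set_option autoImplicit false

namespace Pool.Agent.Lib.MP_15cb89_nt

open Finset Filter Topology MeasureTheory

/-- half of the Bessel type weight -/
noncomputable def B1_I (τ : ℝ) (u v : ℕ) : ℝ :=
  ∫ s in Set.Ioi (0 : ℝ), Real.exp (-(τ * (u * Real.exp s + v * Real.exp (-s))))

lemma B1_split {τ : ℝ} (hτ : 0 < τ) {u v : ℕ} (hu : u ≠ 0) (hv : v ≠ 0) :
    B1_I τ u v + B1_I τ v u = Jf τ (u * v : ℕ) := by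
  obtain ⟨h1, h2⟩ := B_J_shift τ u v hτ (by positivity) (by positivity)
  rw [Nat.cast_mul, ← h2, ← intervalIntegral.integral_Iic_add_Ioi (b := 0) h1.integrableOn
    h1.integrableOn, add_comm, B1_I, B1_I, ← neg_zero, ← integral_comp_neg_Ioi, neg_zero]
  simp only [neg_neg, add_comm]

lemma B1_I_nonneg (τ : ℝ) (u v : ℕ) : 0 ≤ B1_I τ u v :=
  integral_nonneg fun _ => (Real.exp_pos _).le

lemma B1_sum_odd {M : ℕ} {g : ℤ → ℤ} (hp : ∀ u, g (u + M) = g u) (ho : ∀ u, g (-u) = -g u) :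
    g 0 = 0 ∧ ∑ x ∈ range M, ((g x : ℤ) : ℝ) = 0 := by
  have h0 : g 0 = 0 := by have := ho 0; rw [neg_zero] at this; omega
  refine ⟨h0, ?_⟩
  have h1 := sum_range_succ_sub_sum (n := M) fun x : ℕ => ((g x : ℤ) : ℝ)
  have h2 := sum_range_reflect (fun x : ℕ => ((g x : ℤ) : ℝ)) (M + 1)
  have h3 : ∑ x ∈ range (M + 1), ((g (M + 1 - 1 - x : ℕ) : ℤ) : ℝ) =
      -∑ x ∈ range (M + 1), ((g x : ℤ) : ℝ) := by
    rw [← sum_neg_distrib]
    refine sum_congr rfl fun x hx => ?_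
    rw [Nat.add_sub_cancel, Nat.cast_sub (Nat.lt_succ_iff.1 (mem_range.1 hx)), ← Int.cast_neg, ← ho,
      ← hp (-x), neg_add_eq_sub]
  have h4 := hp 0
  rw [zero_add, h0] at h4
  simp only [h4, Int.cast_zero] at h1
  linarith

lemma B1_half (M : ℕ) (hM : 0 < M) (f : ℤ → ℤ → ℤ)
    (hp1 : ∀ u v, f (u + M) v = f u v) (hp2 : ∀ u v, f u (v + M) = f u v)
    (ho1 : ∀ u v, f (-u) v = -f u v) (ho2 : ∀ u v, f u (-v) = -f u v) : ∃ Φ : ℝ → ℝ,
    (∀ T, HasSum (fun w : ℕ × ℕ => (f w.1 w.2 : ℝ) * B1_I (Real.exp (-T)) w.1 w.2) (Φ T)) ∧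
    Tendsto (fun T : ℝ => (1 / T) * Φ T) atTop
      (𝓝 (((∑ u ∈ range M, ∑ v ∈ range M, f u v * u * v : ℤ) : ℝ) / (M : ℝ) ^ 2)) := by
  have hM' : (M : ℝ) ≠ 0 := by positivity
  have r1 := fun v => B1_sum_odd (g := fun u => f u v) (fun u => hp1 u v) fun u => ho1 u v
  have r2 := fun u => B1_sum_odd (g := f u) (hp2 u) (ho2 u)
  let ρ : ℕ → ℕ → ℝ := fun j v => (if v % M = j then 1 else 0) - 1 / M
  have ρ1 : ∀ j v, ρ j (v + M) = ρ j v := fun j v => by simp only [ρ, Nat.add_mod_right]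
  have ρ2 : ∀ j ∈ range M, ∀ g : ℕ → ℝ,
      ∑ v ∈ range M, ρ j v * g v = g j - (∑ v ∈ range M, g v) / M := fun j hj g => by
    simp only [ρ, sub_mul, sum_sub_distrib, ← mul_sum]
    rw [sum_congr rfl fun v hv => by rw [Nat.mod_eq_of_lt (mem_range.1 hv)]]
    simp [hj, div_eq_inv_mul]
  have ρ3 : ∀ j ∈ range M, ∑ v ∈ range M, ρ j v = 0 := fun j hj => by
    simpa [hM'] using ρ2 j hj fun _ => 1
  have q1 : ∀ (j : ℤ) (u : ℕ), ((f (u + M : ℕ) j : ℤ) : ℝ) = f u j := fun j u => by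
    rw [Nat.cast_add, hp1]
  have q2 : ∀ (u : ℤ) (v : ℕ), f u (v % M : ℕ) = f u v := fun u v =>
    Function.Periodic.map_mod_nat (f := fun v : ℕ => f u v) (fun v => by
      simp only [Nat.cast_add, hp2]) v
  have dec : ∀ u v : ℕ, (f u v : ℝ) = ∑ j ∈ range M, f u j * ρ j v := fun u v => by
    simp only [ρ, mul_sub, sum_sub_distrib, ← sum_mul, (r2 u).2, mul_ite, mul_one, mul_zero,
      sum_ite_eq, mem_range, Nat.mod_lt _ hM, if_true, q2, zero_mul, sub_zero]
  obtain ⟨K, hK⟩ : ∃ K : ℝ, ∀ u v : ℕ, |(f u v : ℝ)| ≤ K := by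
    refine ⟨∑ u ∈ range M, ∑ v ∈ range M, |(f u v : ℝ)|, fun u v => ?_⟩
    rw [← q2, ← Function.Periodic.map_mod_nat (f := fun u : ℕ => ((f u (v % M : ℕ) : ℤ) : ℝ))
      (q1 _) u]
    refine le_trans ?_ (single_le_sum (f := fun u : ℕ => ∑ v ∈ range M, |(f u v : ℝ)|)
      (fun _ _ => by positivity) (mem_range.2 (Nat.mod_lt u hM)))
    exact single_le_sum (f := fun v : ℕ => |(f (u % M : ℕ) v : ℝ)|) (fun _ _ => abs_nonneg _)
      (mem_range.2 (Nat.mod_lt v hM))
  let h : ℝ → ℝ → ℝ := fun T s => ∑ j ∈ range M,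
    B_Gen M (fun u => f u j) (Real.exp (s - T)) * B_Gen M (ρ j) (Real.exp (-s - T))
  have c1 := fun ρ => (B_Gen_contDiff hM ρ).continuous
  refine ⟨fun T => ∫ s in Set.Ioi 0, h T s, fun T => ?_, ?_⟩
  · have hτ := Real.exp_pos (-T)
    obtain ⟨C, hC⟩ := B_J_bound _ hτ
    have k := hasSum_integral_of_summable_integral_norm (μ := volume.restrict (Set.Ioi (0 : ℝ)))
      (F := fun (w : ℕ × ℕ) s => (f w.1 w.2 : ℝ) *
        Real.exp (-(Real.exp (-T) * (w.1 * Real.exp s + w.2 * Real.exp (-s)))))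
      (fun w => by
        rcases eq_or_ne w.1 0 with e | e1
        · simp [e, (r1 _).1]
        rcases eq_or_ne w.2 0 with e | e2
        · simp [e, (r2 _).1]
        exact (B_J_shift _ _ _ hτ (by positivity) (by positivity)).1.integrableOn.const_mul _)
      (by
        have s1 : Summable fun n : ℕ => ‖1 / (n : ℝ) ^ 3‖ :=
          (Real.summable_one_div_nat_pow.2 (by norm_num)).norm
        refine Summable.of_nonneg_of_le (fun _ => integral_nonneg fun _ => norm_nonneg _)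
          (fun w => ?_) ((summable_mul_of_summable_norm s1 s1).mul_left (K * C))
        rcases eq_or_ne w.1 0 with e | e1
        · simp [e, (r1 _).1]
        rcases eq_or_ne w.2 0 with e | e2
        · simp [e, (r2 _).1]
        simp only [norm_mul, Real.norm_of_nonneg (Real.exp_pos _).le, integral_const_mul]
        have b1 := B1_split hτ e1 e2
        have b2 := (hC (w.1 * w.2 : ℕ) (by exact_mod_cast Nat.pos_of_ne_zero (mul_ne_zero e1 e2))).2
        have b3 := B1_I_nonneg (Real.exp (-T)) w.2 w.1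
        rw [mul_assoc]
        refine mul_le_mul (hK _ _) ((show B1_I _ _ _ ≤ _ by linarith).trans (b2.trans (le_of_eq ?_)))
          (B1_I_nonneg _ _ _) ((abs_nonneg _).trans (hK 0 0))
        push_cast
        ring)
    simp only [integral_const_mul] at k
    refine Eq.subst (motive := fun x => HasSum _ x) ?_ k
    congr 1
    ext s
    refine HasSum.tsum_eq ?_
    have a1 := Real.exp_pos (s - T)
    have a2 := Real.exp_pos (-s - T)
    have a3 := hasSum_sum (s := range M) fun (j : ℕ) hj =>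
      (B_Gen_hasSum (ρ := fun u => f u j) hM (q1 j) (r1 j).2 a1).mul
      (B_Gen_hasSum hM (ρ1 j) (ρ3 j hj) a2) (summable_mul_of_summable_norm
        (B_summable (ρ := fun u => f u j) hM (q1 j) a1) (B_summable hM (ρ1 j) a2))
    refine Eq.subst (motive := fun x => HasSum x _) (funext fun w => Eq.symm ?_) a3
    rw [dec, sum_mul]
    refine sum_congr rfl fun j _ => ?_
    rw [mul_mul_mul_comm, ← Real.exp_add, Real.exp_sub, Real.exp_sub, Real.exp_neg T]
    congr 2
    ring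
  · refine B_cesaro 0 _ (∑ j ∈ range M, (∑ x ∈ range M, |(f x j : ℝ)| * x) *
      ∑ x ∈ range M, |ρ j x| * x) h (fun T => Continuous.continuousOn (by fun_prop))
      (fun T _ s _ => ?_) fun σ h0 h1 => ?_
    · rw [sum_mul]
      refine (abs_sum_le_sum_abs _ _).trans (sum_le_sum fun j _ => ?_)
      rw [abs_mul, mul_right_comm]
      refine mul_le_mul ((B_Gen_le' hM (r1 j).2 (by simp [(r1 _).1]) (Real.exp_pos _).le).trans ?_)
        (B_Gen_le hM _ (Real.exp_pos _).le) (abs_nonneg _) (by positivity)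
      gcongr
      linarith [Real.exp_pos (s - T)]
    · have t1 : Tendsto (fun T => Real.exp (T * σ - T)) atTop (𝓝 0) := by
        simpa only [Function.comp_def, id, mul_sub, mul_one] using
          Real.tendsto_exp_atBot.comp (tendsto_id.atTop_mul_const_of_neg (sub_neg.2 h1))
      have t2 : Tendsto (fun T => Real.exp (-(T * σ) - T)) atTop (𝓝 0) := by
        simpa only [Function.comp_def, id, mul_sub, mul_one, mul_neg] using
          Real.tendsto_exp_atBot.comp (tendsto_id.atTop_mul_const_of_neg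
            (show -σ - 1 < 0 by linarith))
      have t3 := tendsto_finsetSum (range M) fun j _ =>
        (((c1 fun u => f u j).tendsto 0).comp t1).mul (((c1 (ρ j)).tendsto 0).comp t2)
      refine t3.trans_eq (congrArg _ ?_)
      rw [sum_congr rfl fun j hj => by rw [B_Gen_zero, B_Gen_zero, ρ2 j hj]]
      have e : ∑ j ∈ range M, ∑ x ∈ range M, (f x j : ℝ) * x = 0 := by
        rw [sum_comm]
        simp only [← sum_mul, (r2 _).2, zero_mul, sum_const_zero]
      have e2 : ∀ a b c : ℝ, -a / M * (-(b - c) / M) = a * b / M ^ 2 - a * (c / M ^ 2) :=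
        fun a b c => by ring
      simp only [e2, sum_sub_distrib, ← sum_mul, e, zero_mul, sub_zero, ← sum_div]
      push_cast
      simp only [sum_mul]
      rw [sum_comm]

theorem B1_rhs (M : ℕ) (hM : 0 < M) (f : ℤ → ℤ → ℤ)
    (hp1 : ∀ u v, f (u + M) v = f u v) (hp2 : ∀ u v, f u (v + M) = f u v)
    (ho1 : ∀ u v, f (-u) v = -f u v) (ho2 : ∀ u v, f u (-v) = -f u v) :
    Tendsto (fun T : ℝ => (1 / T) * ∑' a : ℕ,
        ((∑ v ∈ a.divisorsAntidiagonal, f v.1 v.2 : ℤ) : ℝ) * Jf (Real.exp (-T)) a) atTop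
      (𝓝 (2 * ((∑ u ∈ range M, ∑ v ∈ range M, f u v * u * v : ℤ) : ℝ) / (M : ℝ) ^ 2)) := by
  obtain ⟨Φ, a1, a2⟩ := B1_half M hM f hp1 hp2 ho1 ho2
  obtain ⟨Ψ, b1, b2⟩ := B1_half M hM (fun u v => f v u) (fun u v => hp2 v u) (fun u v => hp1 v u)
    (fun u v => ho2 v u) fun u v => ho1 v u
  have r1 := fun v => (B1_sum_odd (g := fun u => f u v) (fun u => hp1 u v) fun u => ho1 u v).1
  have r2 := fun u => (B1_sum_odd (g := f u) (hp2 u) (ho2 u)).1
  have e0 : ∑ u ∈ range M, ∑ v ∈ range M, f v u * u * v =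
      ∑ u ∈ range M, ∑ v ∈ range M, f u v * u * v := by
    rw [sum_comm]
    exact sum_congr rfl fun u _ => sum_congr rfl fun v _ => mul_right_comm _ _ _
  rw [e0] at b2
  have c := a2.add b2
  rw [← two_mul, ← mul_div_assoc] at c
  refine c.congr fun T => ?_
  rw [← mul_add]
  congr 1
  have d : HasSum (fun w : ℕ × ℕ => (f w.1 w.2 : ℝ) * Jf (Real.exp (-T)) (w.1 * w.2 : ℕ))
      (Φ T + Ψ T) := by
    refine Eq.subst (motive := fun x => HasSum x _) (funext fun w => Eq.symm ?_)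
      ((a1 T).add ((Equiv.prodComm ℕ ℕ).hasSum_iff.2 (b1 T)))
    rcases eq_or_ne w.1 0 with e | e1
    · simp [e, r1]
    rcases eq_or_ne w.2 0 with e | e2
    · simp [e, r2]
    rw [← B1_split (Real.exp_pos _) e1 e2, mul_add]
    rfl
  rw [← (d.tsum_fiberwise fun w => w.1 * w.2).tsum_eq]
  refine tsum_congr fun a => ?_
  rw [tsum_subtype ((fun w : ℕ × ℕ => w.1 * w.2) ⁻¹' {a})
    fun w => (f w.1 w.2 : ℝ) * Jf (Real.exp (-T)) (w.1 * w.2 : ℕ),
    tsum_eq_sum (s := a.divisorsAntidiagonal) fun w hw => ?_]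
  · push_cast
    rw [sum_mul]
    refine sum_congr rfl fun w hw => ?_
    have := (Nat.mem_divisorsAntidiagonal.1 hw).1
    rw [Set.indicator_of_mem (show w ∈ (fun w : ℕ × ℕ => w.1 * w.2) ⁻¹' {a} from this), ← this,
      Nat.cast_mul]
  · refine Set.indicator_apply_eq_zero.2 fun h => ?_
    have h1 : w.1 * w.2 = a := h
    have h2 : a = 0 := by_contra fun h2 => hw (Nat.mem_divisorsAntidiagonal.2 ⟨h1, h2⟩)
    rcases mul_eq_zero.1 (h1.trans h2) with e | e
    · simp [e, r1]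
    · simp [e, r2]

end Pool.Agent.Lib.MP_15cb89_nt
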