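import Pool.Agent.Lib.MP_15cb89_nt.Enc

/-! Tensor contractions with packed vectors. -/

set_option autoImplicit false

namespace Pool.Agent.Lib.MP_15cb89_nt

open Finset

structure Geo where
  R1 : Ch
  R2 : Ch
  R3 : Ch
  R4 : Ch
  r1 : ℕ
  r2 : ℕ
  r3 : ℕ
  r4 : ℕ
  W : ℕ

namespace Geo

def q1 (G : Geo) : ℕ := Nat.mul G.r1 G.r2
def q2 (G : Geo) : ℕ := Nat.mul G.r3 G.r4
def N (G : Geo) : ℕ := Nat.mul G.q1 G.q2
def s1 (G : Geo) : ℕ := Nat.mul G.W G.r2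
def s3 (G : Geo) : ℕ := Nat.mul G.W G.q1
def s4 (G : Geo) : ℕ := Nat.mul G.s3 G.r3
def sN (G : Geo) : ℕ := Nat.mul G.W (Nat.pred G.N)
def sq (G : Geo) : ℕ := Nat.mul G.W (Nat.pred G.q1)
def B (G : Geo) : ℕ := Nat.pow 2 G.W

structure OK (G : Geo) : Prop where
  l1 : IsLoop G.R1 G.r1
  l2 : IsLoop G.R2 G.r2
  l3 : IsLoop G.R3 G.r3
  l4 : IsLoop G.R4 G.r4

def Ps (G : Geo) (P : ℕ → ℕ → ℕ → ℕ → ℕ) (x3 x4 : ℕ) : ℕ :=
  encF G.R1 G.s1 (fun x1 => encF G.R2 G.W (fun x2 => P x1 x2 x3 x4))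
def R3v (G : Geo) (f3 : ℕ → ℕ → ℕ) (x3 : ℕ) : ℕ := encF G.R3 G.s3 (fun y3 => f3 x3 y3)
def Mp (G : Geo) (P : ℕ → ℕ → ℕ → ℕ → ℕ) (f3 : ℕ → ℕ → ℕ) (x4 : ℕ) : ℕ :=
  sumC G.R3 (fun x3 => Nat.mul (G.Ps P x3 x4) (G.R3v f3 x3))
def MM (G : Geo) (P : ℕ → ℕ → ℕ → ℕ → ℕ) (f3 f4 : ℕ → ℕ → ℕ) : ℕ :=
  encF G.R4 G.s4 (fun y4 => sumC G.R4 (fun x4 => Nat.mul (f4 x4 y4) (G.Mp P f3 x4)))
def Qs (G : Geo) (Q : ℕ → ℕ → ℕ → ℕ → ℕ) (y1 y2 : ℕ) : ℕ :=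
  encR G.R4 G.s4 (fun y4 => encR G.R3 G.s3 (fun y3 => Q y1 y2 y3 y4))
def R1v (G : Geo) (f1 : ℕ → ℕ → ℕ) (y1 : ℕ) : ℕ := encR G.R1 G.s1 (fun x1 => f1 x1 y1)
def R2v (G : Geo) (f2 : ℕ → ℕ → ℕ) (y2 : ℕ) : ℕ := encR G.R2 G.W (fun x2 => f2 x2 y2)
def Cp (G : Geo) (Q : ℕ → ℕ → ℕ → ℕ → ℕ) (f1 : ℕ → ℕ → ℕ) (y2 : ℕ) : ℕ :=
  sumC G.R1 (fun y1 => Nat.mul (G.Qs Q y1 y2) (G.R1v f1 y1))
def CC (G : Geo) (Q : ℕ → ℕ → ℕ → ℕ → ℕ) (f1 f2 : ℕ → ℕ → ℕ) : ℕ :=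
  sumC G.R2 (fun y2 => Nat.mul (G.Cp Q f1 y2) (G.R2v f2 y2))
def con2 (G : Geo) (P Q : ℕ → ℕ → ℕ → ℕ → ℕ) (f1 f2 f3 f4 : ℕ → ℕ → ℕ) : ℕ :=
  Nat.mod (Nat.shiftRight (Nat.mul (G.MM P f3 f4) (G.CC Q f1 f2)) G.sN) G.B

def L3 (G : Geo) (V : ℕ → ℕ → ℕ → ℕ → ℕ) (g3 : ℕ → ℕ) (x4 : ℕ) : ℕ :=
  sumC G.R3 (fun x3 => Nat.mul (g3 x3) (G.Ps V x3 x4))
def L4 (G : Geo) (V : ℕ → ℕ → ℕ → ℕ → ℕ) (g3 g4 : ℕ → ℕ) : ℕ :=
  sumC G.R4 (fun x4 => Nat.mul (g4 x4) (G.L3 V g3 x4))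
def L12 (G : Geo) (g1 g2 : ℕ → ℕ) : ℕ := Nat.mul (encR G.R1 G.s1 g1) (encR G.R2 G.W g2)
def con1 (G : Geo) (V : ℕ → ℕ → ℕ → ℕ → ℕ) (g1 g2 g3 g4 : ℕ → ℕ) : ℕ :=
  Nat.mod (Nat.shiftRight (Nat.mul (G.L4 V g3 g4) (G.L12 g1 g2)) G.sq) G.B

def S12 (G : Geo) : Finset (ℕ × ℕ) := range G.r1 ×ˢ range G.r2
def S43 (G : Geo) : Finset (ℕ × ℕ) := range G.r4 ×ˢ range G.r3
def p12 (G : Geo) (u : ℕ × ℕ) : ℕ := u.2 + G.r2 * u.1
def p43 (G : Geo) (v : ℕ × ℕ) : ℕ := v.2 + G.r3 * v.1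
def pos (G : Geo) (i : (ℕ × ℕ) × (ℕ × ℕ)) : ℕ := G.p12 i.2 + G.q1 * G.p43 i.1

theorem radix_lt {a b i j : ℕ} (hi : i < a) (hj : j < b) : j + b * i < a * b := by
  have : b * (i + 1) ≤ b * a := Nat.mul_le_mul_left _ hi
  nlinarith

theorem radix_inj {b i j i' j' : ℕ} (hj : j < b) (hj' : j' < b) (h : j + b * i = j' + b * i') :
    i = i' ∧ j = j' := by
  have h1 := congrArg (· / b) h
  have h2 := congrArg (· % b) h
  have hb : 0 < b := by omega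
  simp only [Nat.add_mul_div_left _ _ hb, Nat.div_eq_of_lt hj, Nat.div_eq_of_lt hj',
    Nat.add_mul_mod_self_left, Nat.mod_eq_of_lt hj, Nat.mod_eq_of_lt hj'] at h1 h2
  omega

theorem radix_rev {a b i j : ℕ} (hi : i < a) (hj : j < b) :
    a * b - 1 - (j + b * i) = (b - 1 - j) + b * (a - 1 - i) := by
  obtain ⟨a', rfl⟩ : ∃ a', a = i + 1 + a' := ⟨a - (i + 1), by omega⟩
  obtain ⟨b', rfl⟩ : ∃ b', b = j + 1 + b' := ⟨b - (j + 1), by omega⟩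
  have e1 : i + 1 + a' - 1 - i = a' := by omega
  have e2 : j + 1 + b' - 1 - j = b' := by omega
  rw [e1, e2]
  have : (i + 1 + a') * (j + 1 + b') =
      (j + (j + 1 + b') * i) + 1 + (b' + (j + 1 + b') * a') := by ring
  omega

variable {G : Geo}

theorem mem_S12 {u : ℕ × ℕ} : u ∈ G.S12 ↔ u.1 < G.r1 ∧ u.2 < G.r2 := by
  simp [S12]

theorem mem_S43 {v : ℕ × ℕ} : v ∈ G.S43 ↔ v.1 < G.r4 ∧ v.2 < G.r3 := by
  simp [S43]

theorem q1_eq : G.q1 = G.r1 * G.r2 := rfl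
theorem q2_eq : G.q2 = G.r3 * G.r4 := rfl
theorem N_eq : G.N = G.q1 * G.q2 := rfl
theorem B_eq : G.B = 2 ^ G.W := rfl

theorem p12_lt {u : ℕ × ℕ} (hu : u ∈ G.S12) : G.p12 u < G.q1 :=
  radix_lt (mem_S12.mp hu).1 (mem_S12.mp hu).2

theorem p43_lt {v : ℕ × ℕ} (hv : v ∈ G.S43) : G.p43 v < G.q2 := by
  have := radix_lt (mem_S43.mp hv).1 (mem_S43.mp hv).2
  rw [q2_eq, mul_comm]; exact this

theorem p12_inj : Set.InjOn G.p12 G.S12 := by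
  intro u hu u' hu' h
  obtain ⟨h1, h2⟩ := radix_inj (mem_S12.mp hu).2 (mem_S12.mp hu').2 h
  exact Prod.ext h1 h2

theorem pos_inj : Set.InjOn G.pos (G.S43 ×ˢ G.S12 : Finset _) := by
  intro i hi j hj h
  have hi' := mem_product.mp hi
  have hj' := mem_product.mp hj
  obtain ⟨h1, h2⟩ := radix_inj (p12_lt hi'.2) (p12_lt hj'.2) h
  obtain ⟨h3, h4⟩ := radix_inj (mem_S43.mp hi'.1).2 (mem_S43.mp hj'.1).2 h1
  exact Prod.ext (Prod.ext h3 h4) (p12_inj hi'.2 hj'.2 h2)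

theorem card_S12 : G.S12.card = G.q1 := by simp [S12, q1_eq]
theorem card_S43 : G.S43.card = G.q2 := by simp [S43, q2_eq, mul_comm]

theorem Ps_eq (h : G.OK) (P : ℕ → ℕ → ℕ → ℕ → ℕ) (x3 x4 : ℕ) :
    G.Ps P x3 x4 = ∑ u ∈ G.S12, P u.1 u.2 x3 x4 * G.B ^ G.p12 u := by
  unfold Ps S12
  rw [encF_eq h.l1, sum_product]
  refine sum_congr rfl fun x1 _ => ?_
  rw [encF_eq h.l2, sum_mul]
  refine sum_congr rfl fun x2 _ => ?_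
  simp only [B_eq, p12, s1, Nat.mul_eq, ← pow_mul, mul_assoc, ← pow_add]
  congr 2; ring

theorem MM_eq (h : G.OK) (P : ℕ → ℕ → ℕ → ℕ → ℕ) (f3 f4 : ℕ → ℕ → ℕ) :
    G.MM P f3 f4 = Ev G.B (G.S43 ×ˢ G.S12)
      (fun i => ∑ v ∈ G.S43, P i.2.1 i.2.2 v.2 v.1 * (f3 v.2 i.1.2 * f4 v.1 i.1.1)) G.pos := by
  unfold MM Ev
  rw [encF_eq h.l4, sum_product]
  conv_rhs => rw [S43, sum_product]
  refine sum_congr rfl fun y4 _ => ?_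
  rw [sumC_eq h.l4]
  simp only [Mp, sumC_eq h.l3, R3v, encF_eq h.l3, Ps_eq h, Nat.mul_eq, sum_product, sum_mul,
    mul_sum]
  calc _ = ∑ x4 ∈ range G.r4, ∑ x3 ∈ range G.r3, ∑ y3 ∈ range G.r3, ∑ u ∈ G.S12,
        P u.1 u.2 x3 x4 * (f3 x3 y3 * f4 x4 y4) * G.B ^ G.pos ((y4, y3), u) := by
        refine sum_congr rfl fun x4 _ => sum_congr rfl fun x3 _ => sum_congr rfl fun y3 _ =>
          sum_congr rfl fun u _ => ?_
        simp only [B_eq, pos, p43, s3, s4, Nat.mul_eq, ← pow_mul]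
        rw [show G.W * (G.p12 u + G.q1 * (y3 + G.r3 * y4)) =
          G.W * G.p12 u + G.W * G.q1 * y3 + G.W * G.q1 * G.r3 * y4 by ring, pow_add, pow_add]
        ring
    _ = ∑ x4 ∈ range G.r4, ∑ y3 ∈ range G.r3, ∑ u ∈ G.S12, ∑ x3 ∈ range G.r3,
        P u.1 u.2 x3 x4 * (f3 x3 y3 * f4 x4 y4) * G.B ^ G.pos ((y4, y3), u) := by
        refine sum_congr rfl fun x4 _ => ?_
        rw [sum_comm]
        exact sum_congr rfl fun y3 _ => sum_comm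
    _ = _ := by
        rw [sum_comm]
        exact sum_congr rfl fun y3 _ => sum_comm

theorem CC_eq (h : G.OK) (Q : ℕ → ℕ → ℕ → ℕ → ℕ) (f1 f2 : ℕ → ℕ → ℕ) :
    G.CC Q f1 f2 = Ev G.B (G.S43 ×ˢ G.S12)
      (fun i => ∑ u ∈ G.S12, Q u.1 u.2 i.1.2 i.1.1 * (f1 i.2.1 u.1 * f2 i.2.2 u.2))
      (fun i => (G.N - 1) - G.pos i) := by
  unfold CC Ev
  rw [sumC_eq h.l2]
  simp only [Cp, sumC_eq h.l1, Qs, R1v, R2v, encR_eq h.l1, encR_eq h.l2, encR_eq h.l3,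
    encR_eq h.l4, Nat.mul_eq, sum_mul, mul_sum]
  calc _ = ∑ y2 ∈ range G.r2, ∑ y1 ∈ range G.r1, ∑ i ∈ G.S43 ×ˢ G.S12,
        Q y1 y2 i.1.2 i.1.1 * (f1 i.2.1 y1 * f2 i.2.2 y2) * G.B ^ ((G.N - 1) - G.pos i) := by
        refine sum_congr rfl fun y2 _ => ?_
        rw [sum_comm]
        refine sum_congr rfl fun y1 _ => ?_
        rw [sum_product]
        conv_rhs => rw [sum_comm, S12, sum_product, sum_comm]
        refine sum_congr rfl fun x2 hx2 => sum_congr rfl fun x1 hx1 => ?_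
        rw [S43, sum_product]
        refine sum_congr rfl fun y4 hy4 => sum_congr rfl fun y3 hy3 => ?_
        have h1 := mem_range.mp hx1
        have h2 := mem_range.mp hx2
        have h3 := mem_range.mp hy3
        have h4 := mem_range.mp hy4
        have e1 := radix_rev h1 h2
        have e2 := radix_rev h4 h3
        have e3 := radix_rev (radix_lt h4 h3) (radix_lt h1 h2)
        have eN : G.N = G.r4 * G.r3 * (G.r1 * G.r2) := by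
          rw [N_eq, q1_eq, q2_eq]; ring
        simp only [B_eq, pos, p12, p43, s1, s3, s4, Nat.mul_eq, ← pow_mul, q1_eq]
        rw [eN, e3, e1, e2]
        rw [show G.W * (G.r2 - 1 - x2 + G.r2 * (G.r1 - 1 - x1) +
            G.r1 * G.r2 * (G.r3 - 1 - y3 + G.r3 * (G.r4 - 1 - y4))) =
          G.W * (G.r2 - 1 - x2) + G.W * G.r2 * (G.r1 - 1 - x1) +
            G.W * (G.r1 * G.r2) * (G.r3 - 1 - y3) +
            G.W * (G.r1 * G.r2) * G.r3 * (G.r4 - 1 - y4) by ring, pow_add, pow_add, pow_add]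
        ring
    _ = _ := by
        rw [sum_comm, ← sum_product' (range G.r1) (range G.r2) (fun y1 y2 =>
          ∑ i ∈ G.S43 ×ˢ G.S12, Q y1 y2 i.1.2 i.1.1 * (f1 i.2.1 y1 * f2 i.2.2 y2) *
            G.B ^ ((G.N - 1) - G.pos i)), sum_comm]
        rfl

theorem con2_eq (h : G.OK) (m : ℕ) (P Q : ℕ → ℕ → ℕ → ℕ → ℕ) (f1 f2 f3 f4 : ℕ → ℕ → ℕ)
    (hP : ∀ a b c d, P a b c d ≤ m) (hQ : ∀ a b c d, Q a b c d ≤ m)
    (h1 : ∀ a b, f1 a b ≤ m) (h2 : ∀ a b, f2 a b ≤ m) (h3 : ∀ a b, f3 a b ≤ m)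
    (h4 : ∀ a b, f4 a b ≤ m) (hW : G.N ^ 2 * m ^ 6 + 1 < G.B) :
    G.con2 P Q f1 f2 f3 f4 =
      ∑ u ∈ G.S12, ∑ v ∈ G.S43, ∑ u' ∈ G.S12, ∑ v' ∈ G.S43,
        P u.1 u.2 v.2 v.1 * Q u'.1 u'.2 v'.2 v'.1 *
          (f1 u.1 u'.1 * f2 u.2 u'.2 * f3 v.2 v'.2 * f4 v.1 v'.1) := by
  unfold con2
  have e0 : ∀ a : ℕ, Nat.mod (Nat.shiftRight a G.sN) G.B = a / G.B ^ (G.N - 1) % G.B := by
    intro a
    show (a >>> G.sN) % G.B = _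
    rw [Nat.shiftRight_eq_div_pow, B_eq, ← pow_mul]; rfl
  rw [e0, Nat.mul_eq, MM_eq h, CC_eq h,
    Ev_extract G.B (G.N - 1) _ _ _ _ pos_inj ?_ (G.q2 * m ^ 3) ?_ ?_]
  · rw [sum_product, sum_comm]
    refine sum_congr rfl fun u _ => ?_
    simp only [sum_mul_sum]
    rw [sum_comm]
    refine sum_congr rfl fun v _ => ?_
    rw [sum_comm]
    refine sum_congr rfl fun u' _ => sum_congr rfl fun v' _ => ?_
    ring
  · intro i hi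
    have hi' := mem_product.mp hi
    have := radix_lt (p43_lt hi'.1) (p12_lt hi'.2)
    rw [N_eq, mul_comm]
    unfold pos
    omega
  · intro i _
    calc _ ≤ ∑ _v ∈ G.S43, m ^ 3 := sum_le_sum fun v _ => by
          calc _ ≤ m * (m * m) :=
                Nat.mul_le_mul (hP _ _ _ _) (Nat.mul_le_mul (h3 _ _) (h4 _ _))
            _ = m ^ 3 := by ring
      _ = _ := by rw [sum_const, card_S43, smul_eq_mul]
  · have : ∑ i ∈ G.S43 ×ˢ G.S12, ∑ u ∈ G.S12,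
        Q u.1 u.2 i.1.2 i.1.1 * (f1 i.2.1 u.1 * f2 i.2.2 u.2) ≤ G.q2 * G.q1 * (G.q1 * m ^ 3) := by
      calc _ ≤ ∑ _i ∈ G.S43 ×ˢ G.S12, ∑ _u ∈ G.S12, m ^ 3 :=
            sum_le_sum fun i _ => sum_le_sum fun u _ => by
              calc _ ≤ m * (m * m) :=
                    Nat.mul_le_mul (hQ _ _ _ _) (Nat.mul_le_mul (h1 _ _) (h2 _ _))
                _ = m ^ 3 := by ring
        _ = _ := by simp only [sum_const, card_product, card_S43, card_S12, smul_eq_mul]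
    calc _ ≤ G.q2 * m ^ 3 * (G.q2 * G.q1 * (G.q1 * m ^ 3)) + 1 :=
          Nat.add_le_add_right (Nat.mul_le_mul_left _ this) 1
      _ = G.N ^ 2 * m ^ 6 + 1 := by rw [N_eq]; ring
      _ < _ := hW

theorem con1_eq (h : G.OK) (m : ℕ) (V : ℕ → ℕ → ℕ → ℕ → ℕ) (g1 g2 g3 g4 : ℕ → ℕ)
    (hV : ∀ a b c d, V a b c d ≤ m)
    (h1 : ∀ a, g1 a ≤ m) (h2 : ∀ a, g2 a ≤ m) (h3 : ∀ a, g3 a ≤ m)
    (h4 : ∀ a, g4 a ≤ m) (hW : G.N ^ 2 * m ^ 6 + 1 < G.B) :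
    G.con1 V g1 g2 g3 g4 =
      ∑ u ∈ G.S12, ∑ v ∈ G.S43, V u.1 u.2 v.2 v.1 * (g1 u.1 * g2 u.2 * g3 v.2 * g4 v.1) := by
  unfold con1
  have e0 : ∀ a : ℕ, Nat.mod (Nat.shiftRight a G.sq) G.B = a / G.B ^ (G.q1 - 1) % G.B := by
    intro a
    show (a >>> G.sq) % G.B = _
    rw [Nat.shiftRight_eq_div_pow, B_eq, ← pow_mul]; rfl
  have e1 : G.L4 V g3 g4 = Ev G.B G.S12
      (fun u => ∑ v ∈ G.S43, V u.1 u.2 v.2 v.1 * (g3 v.2 * g4 v.1)) G.p12 := by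
    unfold L4 Ev
    simp only [L3, sumC_eq h.l4, sumC_eq h.l3, Ps_eq h, Nat.mul_eq, mul_sum, sum_mul]
    conv_rhs => rw [sum_comm, S43, sum_product]
    refine sum_congr rfl fun x4 _ => sum_congr rfl fun x3 _ => sum_congr rfl fun u _ => ?_
    ring
  have e2 : G.L12 g1 g2 = Ev G.B G.S12 (fun u => g1 u.1 * g2 u.2)
      (fun u => (G.q1 - 1) - G.p12 u) := by
    unfold L12 Ev
    rw [encR_eq h.l1, encR_eq h.l2, Nat.mul_eq, sum_mul_sum, S12, sum_product]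
    refine sum_congr rfl fun x1 hx1 => sum_congr rfl fun x2 hx2 => ?_
    have e1 := radix_rev (mem_range.mp hx1) (mem_range.mp hx2)
    simp only [B_eq, p12, s1, Nat.mul_eq, ← pow_mul, q1_eq]
    rw [e1, show G.W * (G.r2 - 1 - x2 + G.r2 * (G.r1 - 1 - x1)) =
      G.W * (G.r2 - 1 - x2) + G.W * G.r2 * (G.r1 - 1 - x1) by ring, pow_add]
    ring
  rw [e0, Nat.mul_eq, e1, e2, Ev_extract G.B (G.q1 - 1) _ _ _ _ p12_inj ?_ (G.q2 * m ^ 3) ?_ ?_]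
  · refine sum_congr rfl fun u _ => ?_
    rw [sum_mul]
    refine sum_congr rfl fun v _ => ?_
    ring
  · intro u hu
    have := p12_lt hu
    omega
  · intro i _
    calc _ ≤ ∑ _v ∈ G.S43, m ^ 3 := sum_le_sum fun v _ => by
          calc _ ≤ m * (m * m) :=
                Nat.mul_le_mul (hV _ _ _ _) (Nat.mul_le_mul (h3 _) (h4 _))
            _ = m ^ 3 := by ring
      _ = _ := by rw [sum_const, card_S43, smul_eq_mul]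
  · have : ∑ u ∈ G.S12, g1 u.1 * g2 u.2 ≤ G.q1 * m ^ 2 := by
      calc _ ≤ ∑ _u ∈ G.S12, m ^ 2 := sum_le_sum fun u _ => by
              rw [pow_two]; exact Nat.mul_le_mul (h1 _) (h2 _)
        _ = _ := by simp only [sum_const, card_S12, smul_eq_mul]
    have h5 : G.N * m ^ 5 ≤ G.N ^ 2 * m ^ 6 := by
      rcases Nat.eq_zero_or_pos (G.N * m) with h0 | h0
      · have : G.N * m ^ 5 = G.N * m * m ^ 4 := by ring
        rw [this, h0]; simp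
      · calc G.N * m ^ 5 = G.N * m ^ 5 * 1 := by ring
          _ ≤ G.N * m ^ 5 * (G.N * m) := Nat.mul_le_mul_left _ h0
          _ = _ := by ring
    calc _ ≤ G.q2 * m ^ 3 * (G.q1 * m ^ 2) + 1 :=
          Nat.add_le_add_right (Nat.mul_le_mul_left _ this) 1
      _ = G.N * m ^ 5 + 1 := by rw [N_eq]; ring
      _ ≤ G.N ^ 2 * m ^ 6 + 1 := by omega
      _ < _ := hW

end Geo

end Pool.Agent.Lib.MP_15cb89_nt
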