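import Pool.Agent.Lib.MP_15cb89_nt.Defs

/-! Small split primes and the finite range `n ≤ 1849`. -/

set_option autoImplicit false

namespace Pool.Agent.Lib.MP_15cb89_nt

open Finset

theorem E_point (n a x y : ℕ) (hx : 0 < x) (hy : 0 < y) (hlt : y < n * x)
    (h : x ^ 2 + n * x * y = a + y ^ 2) : n ≤ a := by
  obtain ⟨k, hk⟩ : ∃ k, n * x = y + 1 + k := ⟨n * x - (y + 1), by omega⟩
  have h1 : n ≤ n * x := Nat.le_mul_of_pos_right n hx
  have h2 : k ≤ k * y := Nat.le_mul_of_pos_right k hy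
  have h3 : 1 ≤ x ^ 2 := Nat.one_le_pow _ _ hx
  rw [hk] at h
  nlinarith

theorem E_split_big (n p q r : ℕ) (hn : 0 < n) (hp : p.Prime) (hq : q.Prime) (hD : n ^ 2 + 4 = p * q)
    (hG : GenusId n p q) (hr : r.Prime) (hs : jacobiSym (r : ℤ) (p * q) = 1) : n ≤ r ^ 2 := by
  have h := hG (r ^ 2) (pow_pos hr.pos 2)
  have hm : jacobiSym (r : ℤ) p * jacobiSym (r : ℤ) q = 1 := by
    rw [← jacobiSym.mul_right' _ hp.ne_zero hq.ne_zero, hs]
  have h1 : jacobiSym (r : ℤ) p ^ 2 = 1 := by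
    rcases Int.eq_one_or_neg_one_of_mul_eq_one hm with h | h <;> rw [h] <;> rfl
  have h2 : jacobiSym (r : ℤ) q ^ 2 = 1 := by
    rcases Int.eq_one_or_neg_one_of_mul_eq_one ((mul_comm _ _).trans hm) with h | h <;>
      rw [h] <;> rfl
  rw [Nat.sum_divisorsAntidiagonal (f := fun a b : ℕ =>
    jacobiSym (b : ℤ) (p * q) + jacobiSym (a : ℤ) p * jacobiSym (b : ℤ) q),
    Nat.sum_divisors_prime_pow hr] at h
  have e1 : r ^ 2 / r = r := by rw [pow_two, Nat.mul_div_cancel _ hr.pos]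
  have e2 : r ^ 2 / r ^ 2 = 1 := Nat.div_self (pow_pos hr.pos 2)
  simp only [sum_range_succ, sum_range_zero, pow_zero, pow_one, Nat.div_one, e1, e2, Nat.cast_pow,
    Nat.cast_one, jacobiSym.pow_left, jacobiSym.one_left, hs, hm, h1, h2] at h
  have h3 : 1 < rP n (r ^ 2) := by omega
  obtain ⟨u, hu, v, hv, huv⟩ := one_lt_card.1 h3
  obtain ⟨-, hu1, hu2, hu3⟩ := mem_filter.1 hu
  obtain ⟨-, hv1, hv2, hv3⟩ := mem_filter.1 hv
  rcases Nat.eq_zero_or_pos u.2 with hu0 | hu0
  · rcases Nat.eq_zero_or_pos v.2 with hv0 | hv0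
    · refine absurd (Prod.ext ?_ (hu0.trans hv0.symm)) huv
      rw [hu0] at hu3
      rw [hv0] at hv3
      exact Nat.pow_left_injective two_ne_zero (by simpa using hu3.trans hv3.symm)
    · exact E_point n _ _ _ hv1 hv0 hv2 hv3
  · exact E_point n _ _ _ hu1 hu0 hu2 hu3

theorem E_kill (n p q r : ℕ) (hp : p.Prime) (hq : q.Prime) (hG : GenusId n p q) (hr : r.Prime)
    (hrn : r < n) (h1 : jacobiSym (r : ℤ) p = 1) (h2 : jacobiSym (r : ℤ) q = 1) : False := by
  have h := hG r hr.pos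
  have hs : jacobiSym (r : ℤ) (p * q) = 1 := by
    rw [jacobiSym.mul_right' _ hp.ne_zero hq.ne_zero, h1, h2, one_mul]
  rw [Nat.sum_divisorsAntidiagonal (f := fun a b : ℕ =>
    jacobiSym (b : ℤ) (p * q) + jacobiSym (a : ℤ) p * jacobiSym (b : ℤ) q),
    hr.sum_divisors] at h
  simp only [Nat.div_one, Nat.div_self hr.pos, Nat.cast_one, jacobiSym.one_left, hs, h1, h2] at h
  have h3 : 0 < rP n r := by omega
  obtain ⟨u, hu⟩ := card_pos.1 h3
  obtain ⟨-, hu1, hu2, hu3⟩ := mem_filter.1 hu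
  rcases Nat.eq_zero_or_pos u.2 with hu0 | hu0
  · rw [hu0] at hu3
    have h4 : u.1 ^ 2 = r := by simpa using hu3
    exact Nat.Prime.not_prime_pow le_rfl (h4 ▸ hr)
  · have := E_point n _ _ _ hu1 hu0 hu2 hu3
    omega

theorem E_true (n : ℕ) (T : Finset ℕ) (hn : n ≤ 53) (h8 : (n ^ 2 + 4) % 8 = 5)
    (hT : ∀ r ∈ T, r ∈ [3, 5, 7, 11, 13, 17, 19, 23])
    (h : ∀ r ∈ [3, 5, 7, 11, 13, 17, 19, 23], (r ∈ T ↔ (4 * r ^ 2 < n ^ 2 + 4 ∧
      jacobiSym ((n ^ 2 + 4 : ℕ) : ℤ) r ≠ -1)))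
    (h1 : 1 ≤ T.card) (h2 : T.card ≤ 2)
    (h3 : ∀ r ∈ T, r ≠ 2 ∧ (jacobiSym ((n ^ 2 + 4 : ℕ) : ℤ) r = 1 → n ^ 2 + 4 < 4 * r ^ 4)) :
    (∀ r : ℕ, r ∈ T ↔
      (r.Prime ∧ (r : ℝ) < Real.sqrt ((n ^ 2 + 4 : ℕ) : ℝ) / 2 ∧
        ((r = 2 ∧ ((n ^ 2 + 4) % 2 = 0 ∨ (n ^ 2 + 4) % 8 = 1 ∨ (n ^ 2 + 4) % 8 = 7)) ∨
          (r ≠ 2 ∧ jacobiSym ((n ^ 2 + 4 : ℕ) : ℤ) r ≠ -1)))) ∧
      1 ≤ T.card ∧ T.card ≤ 2 ∧
      ∀ r ∈ T,
        ((r = 2 ∧ ((n ^ 2 + 4) % 8 = 1 ∨ (n ^ 2 + 4) % 8 = 7)) ∨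
          (r ≠ 2 ∧ jacobiSym ((n ^ 2 + 4 : ℕ) : ℤ) r = 1)) →
        Real.sqrt ((n ^ 2 + 4 : ℕ) : ℝ) / 2 < (r : ℝ) ^ 2 := by
  have key : ∀ r : ℕ, (r : ℝ) < Real.sqrt ((n ^ 2 + 4 : ℕ) : ℝ) / 2 ↔ 4 * r ^ 2 < n ^ 2 + 4 := by
    intro r
    rw [lt_div_iff₀ two_pos, Real.lt_sqrt (by positivity)]
    rw [show ((r : ℝ) * 2) ^ 2 = ((4 * r ^ 2 : ℕ) : ℝ) by push_cast; ring, Nat.cast_lt]
  refine ⟨fun r => ?_, h1, h2, fun r hr hc => ?_⟩
  · rw [key]
    have hl : r ∈ [3, 5, 7, 11, 13, 17, 19, 23] ↔ r.Prime ∧ r ≠ 2 ∧ r < 27 := by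
      constructor
      · intro hr
        simp only [List.mem_cons, List.not_mem_nil, or_false] at hr
        rcases hr with rfl | rfl | rfl | rfl | rfl | rfl | rfl | rfl <;> norm_num
      · rintro ⟨h1, h2, h3⟩
        interval_cases r <;> first | decide | exact absurd rfl h2 | exact absurd h1 (by norm_num)
    constructor
    · intro hr
      obtain ⟨h4, h5, -⟩ := hl.1 (hT r hr)
      obtain ⟨h6, h7⟩ := (h r (hT r hr)).1 hr
      exact ⟨h4, h6, Or.inr ⟨h5, h7⟩⟩
    · rintro ⟨h4, h5, ⟨-, h6⟩ | ⟨h6, h7⟩⟩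
      · omega
      · exact (h r (hl.2 ⟨h4, h6, by nlinarith⟩)).2 ⟨h5, h7⟩
  · obtain ⟨h4, h5⟩ := h3 r hr
    rcases hc with hc | hc
    · exact absurd hc.1 h4
    · have h6 := h5 hc.2
      have hr0 : (0 : ℝ) < r := by
        have : 0 < r := Nat.pos_of_ne_zero (by rintro rfl; simp at h6)
        exact_mod_cast this
      rw [div_lt_iff₀ two_pos, Real.sqrt_lt' (by positivity)]
      rw [show ((r : ℝ) ^ 2 * 2) ^ 2 = ((4 * r ^ 4 : ℕ) : ℝ) by push_cast; ring, Nat.cast_lt]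
      exact h6

/-- The odd primes up to `43`. -/
def ePr : List ℕ := [3, 5, 7, 11, 13, 17, 19, 23, 29, 31, 37, 41, 43]

/-- The odd `n ≤ 1849` without a small split prime. -/
def eExc : List ℕ :=
  [1, 3, 5, 7, 9, 11, 13, 17, 19, 23, 25, 29, 31, 37, 41, 43, 47, 49, 53, 59, 67, 71, 73, 83,
    97, 101, 109, 113, 127, 137, 151, 157, 167, 179, 181, 193, 211, 223, 251, 269, 277, 283,
    311, 349, 361, 431, 613, 701, 743, 1249, 1259, 1361, 1609, 1667]

/-- The remaining pairs `(n, p)`. -/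
def ePairs : List (ℕ × ℕ) :=
  [(9, 5), (19, 5), (23, 13), (25, 17), (31, 5), (41, 5), (43, 17), (53, 29), (71, 5),
    (83, 61), (109, 5), (113, 53), (151, 5), (157, 89), (181, 5), (223, 41), (251, 5)]

/-- A search for a proper divisor. -/
def eComp (m : ℕ) : Bool := (List.range 1700).any fun d => 2 ≤ d && d < m && m % d == 0

theorem E_chk1 : ((List.range 1850).all fun n => n % 2 == 0 || eExc.contains n ||
    ePr.any fun r => r * r < n && (List.range r).any fun t =>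
      t != 0 && t * t % r == (n * n + 4) % r) = true := by decide +kernel

theorem E_chk2 : (eExc.all fun n => (List.range (n + 2)).all fun p => p < 2 ||
    (n * n + 4) % p != 0 || eComp p || eComp ((n * n + 4) / p) || ePairs.contains (n, p)) = true := by
  decide +kernel

theorem E_comp (m : ℕ) (hm : m.Prime) : eComp m = false := by
  rw [Bool.eq_false_iff]
  intro h
  simp only [eComp, List.any_eq_true, Bool.and_eq_true, decide_eq_true_eq, beq_iff_eq] at h
  obtain ⟨d, -, ⟨h1, h2⟩, h3⟩ := h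
  rcases (Nat.dvd_prime hm).1 (Nat.dvd_of_mod_eq_zero h3) with h | h <;> omega

theorem E_pr (r : ℕ) (hr : r ∈ ePr) : r.Prime ∧ r % 2 = 1 := by
  simp only [ePr, List.mem_cons, List.not_mem_nil, or_false] at hr
  rcases hr with rfl | rfl | rfl | rfl | rfl | rfl | rfl | rfl | rfl | rfl | rfl | rfl | rfl <;> norm_num

theorem E_odd (n p q : ℕ) (hp : p.Prime) (hq : q.Prime) (hpq : p < q) (hD : n ^ 2 + 4 = p * q) :
    n % 2 = 1 := by
  by_contra h
  obtain ⟨k, rfl⟩ : ∃ k, n = 2 * k := ⟨n / 2, by omega⟩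
  have hq2 : q % 2 = 1 := hq.eq_two_or_odd.resolve_left (by have := hp.two_le; omega)
  have h4 : p * q = 4 * (k ^ 2 + 1) := by rw [← hD]; ring
  rcases hp.eq_two_or_odd with rfl | hp2
  · omega
  · have : p * q % 2 = 1 := by rw [Nat.mul_mod, hp2, hq2]
    omega

theorem E_pairs (n p q : ℕ) (hn : 0 < n) (hn' : n ≤ 1849) (hp : p.Prime) (hq : q.Prime)
    (hpq : p < q) (hD : n ^ 2 + 4 = p * q) (hG : GenusId n p q) : (n, p) ∈ ePairs := by
  have hodd := E_odd n p q hp hq hpq hD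
  have hexc : n ∈ eExc := by
    have h := List.all_eq_true.1 E_chk1 n (List.mem_range.2 (by omega))
    simp only [Bool.or_eq_true, beq_iff_eq, List.contains_iff_mem, List.any_eq_true,
      Bool.and_eq_true, decide_eq_true_eq, bne_iff_ne, List.mem_range] at h
    rcases h with (h | h) | ⟨r, hr, h1, t, ht, ht0, ht1⟩
    · omega
    · exact h
    · exfalso
      obtain ⟨hr1, hr2⟩ := E_pr r hr
      have hD4 : p * q % 4 = 1 := by
        obtain ⟨k, rfl⟩ : ∃ k, n = 2 * k + 1 := ⟨n / 2, by omega⟩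
        have : p * q = 4 * (k ^ 2 + k + 1) + 1 := by rw [← hD]; ring
        omega
      have hc : (t : ℤ).gcd r = 1 := by
        rw [Int.gcd_natCast_natCast]
        exact (Nat.coprime_of_lt_prime ht0 ht hr1).symm
      have hs : jacobiSym (r : ℤ) (p * q) = 1 := by
        rw [jacobiSym.quadratic_reciprocity_one_mod_four' (Nat.odd_iff.2 hr2) hD4,
          ← jacobiSym.sq_one' hc]
        refine jacobiSym.mod_left' ?_
        rw [← hD, pow_two, pow_two]
        exact_mod_cast ht1.symm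
      have := E_split_big n p q r hn hp hq hD hG hr1 hs
      nlinarith
  have hpn : p < n + 2 := by nlinarith
  have h := List.all_eq_true.1 (List.all_eq_true.1 E_chk2 n hexc) p (List.mem_range.2 hpn)
  have e : n * n + 4 = p * q := by rw [← hD, pow_two]
  rw [e, Nat.mul_div_cancel_left _ hp.pos, E_comp p hp, E_comp q hq, Nat.mul_mod_right] at h
  have h2 := hp.two_le
  simpa [show ¬ p < 2 by omega] using h

theorem E_finite (n p q : ℕ) (hn : 0 < n) (hn' : n ≤ 1849) (hp : p.Prime) (hq : q.Prime) (hpq : p < q)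
    (hD : n ^ 2 + 4 = p * q) (hG : GenusId n p q) :
    p % 4 = 1 ∧ q % 4 = 1 ∧ ∃ T : Finset ℕ,
          (∀ r : ℕ, r ∈ T ↔
            (r.Prime ∧ (r : ℝ) < Real.sqrt ((n ^ 2 + 4 : ℕ) : ℝ) / 2 ∧
              ((r = 2 ∧ ((n ^ 2 + 4) % 2 = 0 ∨ (n ^ 2 + 4) % 8 = 1 ∨ (n ^ 2 + 4) % 8 = 7)) ∨
               (r ≠ 2 ∧ jacobiSym ((n ^ 2 + 4 : ℕ) : ℤ) r ≠ -1)))) ∧
          1 ≤ T.card ∧ T.card ≤ 2 ∧
          ∀ r ∈ T,
            ((r = 2 ∧ ((n ^ 2 + 4) % 8 = 1 ∨ (n ^ 2 + 4) % 8 = 7)) ∨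
              (r ≠ 2 ∧ jacobiSym ((n ^ 2 + 4 : ℕ) : ℤ) r = 1)) →
            Real.sqrt ((n ^ 2 + 4 : ℕ) : ℝ) / 2 < (r : ℝ) ^ 2 := by
  have h := E_pairs n p q hn hn' hp hq hpq hD hG
  simp only [ePairs, List.mem_cons, Prod.mk.injEq, List.not_mem_nil, or_false] at h
  rcases h with ⟨rfl, rfl⟩ | ⟨rfl, rfl⟩ | ⟨rfl, rfl⟩ | ⟨rfl, rfl⟩ | ⟨rfl, rfl⟩ |
    ⟨rfl, rfl⟩ | ⟨rfl, rfl⟩ | ⟨rfl, rfl⟩ | ⟨rfl, rfl⟩ | ⟨rfl, rfl⟩ | ⟨rfl, rfl⟩ |
    ⟨rfl, rfl⟩ | ⟨rfl, rfl⟩ | ⟨rfl, rfl⟩ | ⟨rfl, rfl⟩ | ⟨rfl, rfl⟩ | ⟨rfl, rfl⟩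
  · obtain rfl : q = 17 := by omega
    refine ⟨by norm_num, by norm_num, {3}, ?_⟩
    refine E_true 9 {3} (by norm_num) (by norm_num) (by decide) (fun r hr => ?_) (by decide)
      (by decide) (fun r hr => ?_)
    · simp only [List.mem_cons, List.not_mem_nil, or_false] at hr
      rcases hr with rfl | rfl | rfl | rfl | rfl | rfl | rfl | rfl <;> norm_num
    · obtain rfl := mem_singleton.1 hr
      norm_num
  · obtain rfl : q = 73 := by omega
    refine ⟨by norm_num, by norm_num, {5, 7}, ?_⟩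
    refine E_true 19 {5, 7} (by norm_num) (by norm_num) (by decide) (fun r hr => ?_) (by decide)
      (by decide) (fun r hr => ?_)
    · simp only [List.mem_cons, List.not_mem_nil, or_false] at hr
      rcases hr with rfl | rfl | rfl | rfl | rfl | rfl | rfl | rfl <;> norm_num
    · simp only [mem_insert, mem_singleton] at hr
      rcases hr with rfl | rfl <;> norm_num
  · obtain rfl : q = 41 := by omega
    refine ⟨by norm_num, by norm_num, {7, 11}, ?_⟩
    refine E_true 23 {7, 11} (by norm_num) (by norm_num) (by decide) (fun r hr => ?_) (by decide)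
      (by decide) (fun r hr => ?_)
    · simp only [List.mem_cons, List.not_mem_nil, or_false] at hr
      rcases hr with rfl | rfl | rfl | rfl | rfl | rfl | rfl | rfl <;> norm_num
    · simp only [mem_insert, mem_singleton] at hr
      rcases hr with rfl | rfl <;> norm_num
  · obtain rfl : q = 37 := by omega
    refine ⟨by norm_num, by norm_num, {5}, ?_⟩
    refine E_true 25 {5} (by norm_num) (by norm_num) (by decide) (fun r hr => ?_) (by decide)
      (by decide) (fun r hr => ?_)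
    · simp only [List.mem_cons, List.not_mem_nil, or_false] at hr
      rcases hr with rfl | rfl | rfl | rfl | rfl | rfl | rfl | rfl <;> norm_num
    · obtain rfl := mem_singleton.1 hr
      norm_num
  · obtain rfl : q = 193 := by omega
    refine ⟨by norm_num, by norm_num, {5, 13}, ?_⟩
    refine E_true 31 {5, 13} (by norm_num) (by norm_num) (by decide) (fun r hr => ?_) (by decide)
      (by decide) (fun r hr => ?_)
    · simp only [List.mem_cons, List.not_mem_nil, or_false] at hr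
      rcases hr with rfl | rfl | rfl | rfl | rfl | rfl | rfl | rfl <;> norm_num
    · simp only [mem_insert, mem_singleton] at hr
      rcases hr with rfl | rfl <;> norm_num
  · obtain rfl : q = 337 := by omega
    refine ⟨by norm_num, by norm_num, {5, 17}, ?_⟩
    refine E_true 41 {5, 17} (by norm_num) (by norm_num) (by decide) (fun r hr => ?_) (by decide)
      (by decide) (fun r hr => ?_)
    · simp only [List.mem_cons, List.not_mem_nil, or_false] at hr
      rcases hr with rfl | rfl | rfl | rfl | rfl | rfl | rfl | rfl <;> norm_num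
    · simp only [mem_insert, mem_singleton] at hr
      rcases hr with rfl | rfl <;> norm_num
  · obtain rfl : q = 109 := by omega
    refine ⟨by norm_num, by norm_num, {11, 17}, ?_⟩
    refine E_true 43 {11, 17} (by norm_num) (by norm_num) (by decide) (fun r hr => ?_) (by decide)
      (by decide) (fun r hr => ?_)
    · simp only [List.mem_cons, List.not_mem_nil, or_false] at hr
      rcases hr with rfl | rfl | rfl | rfl | rfl | rfl | rfl | rfl <;> norm_num
    · simp only [mem_insert, mem_singleton] at hr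
      rcases hr with rfl | rfl <;> norm_num
  · obtain rfl : q = 97 := by omega
    refine ⟨by norm_num, by norm_num, {17, 19}, ?_⟩
    refine E_true 53 {17, 19} (by norm_num) (by norm_num) (by decide) (fun r hr => ?_) (by decide)
      (by decide) (fun r hr => ?_)
    · simp only [List.mem_cons, List.not_mem_nil, or_false] at hr
      rcases hr with rfl | rfl | rfl | rfl | rfl | rfl | rfl | rfl <;> norm_num
    · simp only [mem_insert, mem_singleton] at hr
      rcases hr with rfl | rfl <;> norm_num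
  · obtain rfl : q = 1009 := by omega
    exact (E_kill 71 5 1009 29 hp hq hG (by norm_num) (by norm_num) (by norm_num)
      (by norm_num)).elim
  · obtain rfl : q = 113 := by omega
    exact (E_kill 83 61 113 13 hp hq hG (by norm_num) (by norm_num) (by norm_num)
      (by norm_num)).elim
  · obtain rfl : q = 2377 := by omega
    exact (E_kill 109 5 2377 11 hp hq hG (by norm_num) (by norm_num) (by norm_num)
      (by norm_num)).elim
  · obtain rfl : q = 241 := by omega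
    exact (E_kill 113 53 241 29 hp hq hG (by norm_num) (by norm_num) (by norm_num)
      (by norm_num)).elim
  · obtain rfl : q = 4561 := by omega
    exact (E_kill 151 5 4561 19 hp hq hG (by norm_num) (by norm_num) (by norm_num)
      (by norm_num)).elim
  · obtain rfl : q = 277 := by omega
    exact (E_kill 157 89 277 47 hp hq hG (by norm_num) (by norm_num) (by norm_num)
      (by norm_num)).elim
  · obtain rfl : q = 6553 := by omega
    exact (E_kill 181 5 6553 19 hp hq hG (by norm_num) (by norm_num) (by norm_num)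
      (by norm_num)).elim
  · obtain rfl : q = 1213 := by omega
    exact (E_kill 223 41 1213 31 hp hq hG (by norm_num) (by norm_num) (by norm_num)
      (by norm_num)).elim
  · obtain rfl : q = 12601 := by omega
    exact (E_kill 251 5 12601 19 hp hq hG (by norm_num) (by norm_num) (by norm_num)
      (by norm_num)).elim

end Pool.Agent.Lib.MP_15cb89_nt
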