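import Pool.Agent.Lib.MP_15cb89_nt.Genus
import Pool.Agent.Lib.MP_15cb89_nt.Finite

/-! The eight fields with `D = n^2 + 4` do have class number two. -/

set_option autoImplicit false

namespace Pool.Agent.Lib.MP_15cb89_nt

open Finset NumberField
open scoped nonZeroDivisors

/-- Every ideal class contains an ideal of norm at most `n + 1`. -/
theorem C_small (n : ℕ) (K : Type) [Field K] [NumberField K] (e : 𝓞 K)
    (hind : ∀ x y : ℤ, (x : 𝓞 K) + (y : 𝓞 K) * e = 0 → x = 0 ∧ y = 0)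
    (hnorm : ∀ x y : ℤ, Algebra.norm ℤ ((x : 𝓞 K) + (y : 𝓞 K) * e) = x ^ 2 + n * x * y - y ^ 2)
    (C : ClassGroup (𝓞 K)) :
    ∃ I : (Ideal (𝓞 K))⁰, ClassGroup.mk0 I = C ∧ Ideal.absNorm (I : Ideal (𝓞 K)) ≤ n + 1 := by
  obtain ⟨J, hJ⟩ := ClassGroup.mk0_surjective C⁻¹
  have hN0 : Ideal.absNorm (J : Ideal (𝓞 K)) ≠ 0 := Ideal.absNorm_ne_zero_of_nonZeroDivisors J
  set N := Ideal.absNorm (J : Ideal (𝓞 K)) with hN
  have hcard : Nat.card (𝓞 K ⧸ (J : Ideal (𝓞 K))) = N := by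
    rw [hN, Ideal.absNorm_apply, Submodule.cardQuot_apply]
  have hfin : Finite (𝓞 K ⧸ (J : Ideal (𝓞 K))) := Nat.finite_of_card_ne_zero (hcard ▸ hN0)
  have := Fintype.ofFinite (𝓞 K ⧸ (J : Ideal (𝓞 K)))
  set s := Nat.sqrt N with hs
  obtain ⟨u, v, huv, h⟩ := Fintype.exists_ne_map_eq_of_card_lt
    (fun w : Fin (s + 1) × Fin (s + 1) =>
      Ideal.Quotient.mk (J : Ideal (𝓞 K)) ((((w.1 : ℕ) : ℤ) : 𝓞 K) + (((w.2 : ℕ) : ℤ) : 𝓞 K) * e))
    (by
      rw [← Nat.card_eq_fintype_card, hcard, Fintype.card_prod, Fintype.card_fin]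
      exact Nat.lt_succ_sqrt N)
  set x : ℤ := ((u.1 : ℕ) : ℤ) - ((v.1 : ℕ) : ℤ) with hx
  set y : ℤ := ((u.2 : ℕ) : ℤ) - ((v.2 : ℕ) : ℤ) with hy
  have hmem : (x : 𝓞 K) + (y : 𝓞 K) * e ∈ (J : Ideal (𝓞 K)) := by
    have h1 := Ideal.Quotient.eq.mp h
    convert h1 using 1
    rw [hx, hy]; push_cast; ring
  have hne : (x : 𝓞 K) + (y : 𝓞 K) * e ≠ 0 := by
    intro h0
    obtain ⟨h1, h2⟩ := hind x y h0
    apply huv
    exact Prod.ext (Fin.ext (by omega)) (Fin.ext (by omega))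
  obtain ⟨I, hI⟩ := Ideal.dvd_iff_le.mpr ((Ideal.span_singleton_le_iff_mem _).mpr hmem)
  have hI0 : I ≠ 0 := by
    rintro rfl
    rw [mul_zero, Ideal.zero_eq_bot, Ideal.span_singleton_eq_bot] at hI
    exact hne hI
  refine ⟨⟨I, mem_nonZeroDivisors_iff_ne_zero.mpr hI0⟩, ?_, ?_⟩
  · rw [← inv_inv C, ← hJ]
    exact ClassGroup.mk0_eq_mk0_inv_iff.mpr ⟨_, hne, by rw [mul_comm, ← hI]⟩
  · have h1 : N * Ideal.absNorm I = (x ^ 2 + n * x * y - y ^ 2 : ℤ).natAbs := by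
      rw [hN, ← map_mul, ← hI, Ideal.absNorm_span_singleton, hnorm]
    have hu1 := u.1.2
    have hu2 := u.2.2
    have hv1 := v.1.2
    have hv2 := v.2.2
    have hxa : |x| ≤ s := by rw [abs_le]; constructor <;> omega
    have hya : |y| ≤ s := by rw [abs_le]; constructor <;> omega
    have hss : (s : ℤ) * s ≤ N := by exact_mod_cast Nat.sqrt_le N
    have hx2 : x ^ 2 ≤ N := by
      rw [← sq_abs]; nlinarith [abs_nonneg x]
    have hy2 : y ^ 2 ≤ N := by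
      rw [← sq_abs]; nlinarith [abs_nonneg y]
    have hxy : |x * y| ≤ N := by
      rw [abs_mul]; nlinarith [abs_nonneg x, abs_nonneg y]
    obtain ⟨hl, hr⟩ := abs_le.mp hxy
    have hn0 : (0 : ℤ) ≤ n := by positivity
    have h2 : |x ^ 2 + n * x * y - y ^ 2| ≤ N * (n + 1) := by
      rw [abs_le]
      constructor <;> nlinarith [sq_nonneg x, sq_nonneg y, mul_le_mul_of_nonneg_left hl hn0,
        mul_le_mul_of_nonneg_left hr hn0]
    have h3 : N * Ideal.absNorm I ≤ N * (n + 1) := by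
      rw [h1]
      have : (((x ^ 2 + n * x * y - y ^ 2 : ℤ).natAbs : ℕ) : ℤ) ≤ ((N * (n + 1) : ℕ) : ℤ) := by
        rw [Int.natCast_natAbs]; exact_mod_cast h2
      exact_mod_cast this
    exact Nat.le_of_mul_le_mul_left h3 (Nat.pos_of_ne_zero hN0)

/-- A computable form of the Legendre symbol. -/
def cSym (p b : ℕ) : ℤ :=
  if b % p = 0 then 0 else if (List.range p).any (fun y => y * y % p == b % p) then 1 else -1

theorem C_sym (p b : ℕ) (hp : p.Prime) : jacobiSym (b : ℤ) p = cSym p b := by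
  have := Fact.mk hp
  rw [← jacobiSym.legendreSym.to_jacobiSym]
  unfold cSym
  by_cases h : b % p = 0
  · rw [if_pos h, legendreSym.eq_zero_iff]
    rw [Int.cast_natCast, ZMod.natCast_eq_zero_iff]
    exact Nat.dvd_of_mod_eq_zero h
  · rw [if_neg h]
    have h0 : ((b : ℤ) : ZMod p) ≠ 0 := by
      rw [Int.cast_natCast, Ne, ZMod.natCast_eq_zero_iff]
      exact fun h1 => h (Nat.mod_eq_zero_of_dvd h1)
    have key : IsSquare ((b : ℤ) : ZMod p) ↔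
        (List.range p).any (fun y => y * y % p == b % p) = true := by
      simp only [List.any_eq_true, List.mem_range, beq_iff_eq, Int.cast_natCast]
      constructor
      · rintro ⟨y, hy⟩
        refine ⟨y.val, ZMod.val_lt y, ?_⟩
        rw [← ZMod.natCast_eq_natCast_iff']
        push_cast
        rw [ZMod.natCast_zmod_val, hy]
      · rintro ⟨y, -, hy⟩
        refine ⟨(y : ZMod p), ?_⟩
        rw [← ZMod.natCast_eq_natCast_iff'] at hy
        rw [← hy]; push_cast; ring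
    split_ifs with h1
    · exact (legendreSym.eq_one_iff p h0).mpr (key.mpr h1)
    · exact (legendreSym.eq_neg_one_iff p).mpr (fun h2 => h1 (key.mp h2))

/-- The number of ideals of norm `a`, computably. -/
def cTot (p q a : ℕ) : ℤ :=
  ∑ d ∈ range (a + 1), if d ≠ 0 ∧ a % d = 0 then cSym p d * cSym q d else 0

/-- The number of listed representations of `a` by the principal form. -/
def cCnt (n : ℕ) (L : List (ℕ × ℕ)) (a : ℕ) : ℕ :=
  (L.toFinset.filter fun v : ℕ × ℕ => (v.1 < a + 1 ∧ v.2 < n * a + 1) ∧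
    0 < v.1 ∧ v.2 < n * v.1 ∧ v.1 ^ 2 + n * v.1 * v.2 = a + v.2 ^ 2).card

theorem C_cnt (n : ℕ) (L : List (ℕ × ℕ)) (a : ℕ) : cCnt n L a ≤ rP n a := by
  refine card_le_card fun v hv => ?_
  obtain ⟨-, ⟨h1, h2⟩, h3⟩ := mem_filter.1 hv
  exact mem_filter.2 ⟨mem_product.2 ⟨mem_range.2 h1, mem_range.2 h2⟩, h3⟩

open Classical in
theorem C_all (n : ℕ) (hn : 0 < n) (hsq : Squarefree (n ^ 2 + 4))
    (K : Type) [Field K] [NumberField K] (e : 𝓞 K) (he : e ^ 2 = (n : 𝓞 K) * e + 1)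
    (hspan : ∀ α : 𝓞 K, ∃ x y : ℤ, α = (x : 𝓞 K) + (y : 𝓞 K) * e)
    (hind : ∀ x y : ℤ, (x : 𝓞 K) + (y : 𝓞 K) * e = 0 → x = 0 ∧ y = 0)
    (hnorm : ∀ x y : ℤ, Algebra.norm ℤ ((x : 𝓞 K) + (y : 𝓞 K) * e) = x ^ 2 + n * x * y - y ^ 2)
    (p q : ℕ) (hp : p.Prime) (hq : q.Prime) (hD : n ^ 2 + 4 = p * q)
    (L : List (ℕ × ℕ)) (a : ℕ) (ha : 0 < a) (h : cTot p q a ≤ cCnt n L a)
    (I : Ideal (𝓞 K)) (hI : Ideal.absNorm I = a) : I.IsPrincipal := by
  have S1 := A3_ideal_sum K (fun _ => 1) rfl (fun _ _ _ _ => by norm_num) (fun _ => 1)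
    (fun b => jacobiSym (b : ℤ) (p * q)) rfl (by simp [jacobiSym.one_left])
    (fun _ _ => by norm_num) (fun b c => by rw [Nat.cast_mul, jacobiSym.mul_left]) (by
      intro r hr
      rcases A4_splitting n hn hsq K e he hspan hind hnorm r hr with h | h | h
      · left
        refine ⟨h.2.1, h.2.2, ?_, ?_⟩ <;> simp only [← hD, h.1] <;> norm_num
      · right; left
        obtain ⟨h1, P, Q, hPQ, hP, hQ, hmul⟩ := h
        exact ⟨P, Q, hPQ, hP, hQ, hmul, rfl, by simp only [← hD, h1]⟩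
      · right; right
        obtain ⟨h1, P, hP, hmul⟩ := h
        have h0 : jacobiSym (r : ℤ) (p * q) = 0 := by
          rw [← hD]
          refine jacobiSym.eq_zero_iff.mpr ⟨by omega, ?_⟩
          rw [Int.gcd_natCast_natCast, Nat.gcd_eq_left h1]
          exact hr.ne_one
        exact ⟨P, hP, hmul, by simp only [h0]; norm_num, by simp only [h0]; norm_num⟩) a ha
  have S2 : ∑ v ∈ a.divisorsAntidiagonal, (1 : ℤ) * jacobiSym (v.2 : ℤ) (p * q) = cTot p q a := by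
    rw [Nat.sum_divisorsAntidiagonal' (f := fun _ b : ℕ => (1 : ℤ) * jacobiSym (b : ℤ) (p * q))]
    unfold cTot
    rw [← sum_filter]
    refine sum_congr ?_ fun d _ => ?_
    · ext d
      simp only [Nat.mem_divisors, mem_filter, mem_range]
      constructor
      · rintro ⟨h1, h2⟩
        exact ⟨Nat.lt_succ_of_le (Nat.le_of_dvd ha h1), ne_zero_of_dvd_ne_zero h2 h1,
          Nat.mod_eq_zero_of_dvd h1⟩
      · rintro ⟨-, -, h3⟩
        exact ⟨Nat.dvd_of_mod_eq_zero h3, ha.ne'⟩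
    · rw [one_mul, jacobiSym.mul_right' _ hp.ne_zero hq.ne_zero, C_sym p d hp, C_sym q d hq]
  have S3 := A2_principal_count n hn K e he hspan hind hnorm a ha
  rw [S2, sum_const, nsmul_eq_mul, mul_one] at S1
  have h1 := C_cnt n L a
  have h2 := eq_of_subset_of_card_le (filter_subset (fun I => Submodule.IsPrincipal I)
    (Ideal.finite_setOfPred_absNorm_eq (S := 𝓞 K) a).toFinset) (by
      have : (((Ideal.finite_setOfPred_absNorm_eq (S := 𝓞 K) a).toFinset.card : ℕ) : ℤ) ≤ rP n a := by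
        rw [S1]; exact h.trans (by exact_mod_cast h1)
      have h4 : (Ideal.finite_setOfPred_absNorm_eq (S := 𝓞 K) a).toFinset.card ≤ rP n a := by
        exact_mod_cast this
      exact h4.trans (le_of_eq (by convert S3.symm)))
  have h3 : I ∈ (Ideal.finite_setOfPred_absNorm_eq (S := 𝓞 K) a).toFinset := by
    simpa using hI
  rw [← h2] at h3
  exact (mem_filter.1 h3).2

theorem C_two (n : ℕ) (hn : 0 < n) (hsq : Squarefree (n ^ 2 + 4))
    (K : Type) [Field K] [NumberField K] (hK : Module.finrank ℚ K = 2)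
    (hx : ∃ x : K, x ^ 2 = ((n ^ 2 + 4 : ℕ) : K))
    (p q : ℕ) (hp : p.Prime) (hq : q.Prime) (hD : n ^ 2 + 4 = p * q) (L : List (ℕ × ℕ))
    (h : ∀ a ∈ range (n + 2), a = 0 ∨ cTot p q a ≤ cCnt n L a ∨
      cTot p q (a * p) ≤ cCnt n L (a * p)) : classNumber K = 2 := by
  obtain ⟨e, he, hspan, hind, hnorm⟩ := A1_basis n hn hsq K hK hx
  have hpd : p ∣ n ^ 2 + 4 := ⟨q, hD⟩
  have h0 : jacobiSym (p : ℤ) (n ^ 2 + 4) = 0 := by
    refine jacobiSym.eq_zero_iff.mpr ⟨by omega, ?_⟩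
    rw [Int.gcd_natCast_natCast, Nat.gcd_eq_left hpd]
    exact hp.ne_one
  obtain ⟨P, hP⟩ : ∃ P : Ideal (𝓞 K), Ideal.absNorm P = p := by
    rcases A4_splitting n hn hsq K e he hspan hind hnorm p hp with h | h | h
    · omega
    · omega
    · exact ⟨_, h.2.choose_spec.1⟩
  have hP0 : P ∈ (Ideal (𝓞 K))⁰ := by
    refine mem_nonZeroDivisors_iff_ne_zero.mpr ?_
    rintro rfl
    rw [map_zero] at hP
    exact hp.ne_zero hP.symm
  obtain ⟨Q, hQ0, hQ, -⟩ := A5_nonprinc n hn hsq K e he hspan hind hnorm p q 1 hp hq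
    (by rw [hD]; ring)
  have hQ' : Q ∈ (Ideal (𝓞 K))⁰ := mem_nonZeroDivisors_iff_ne_zero.mpr hQ0
  have key : ∀ C : ClassGroup (𝓞 K), C ≠ 1 → C = (ClassGroup.mk0 ⟨P, hP0⟩)⁻¹ := by
    intro C hC
    obtain ⟨I, rfl, hI⟩ := C_small n K e hind hnorm C
    have hI0 := Ideal.absNorm_ne_zero_of_nonZeroDivisors I
    rcases h _ (mem_range.2 (Nat.lt_succ_of_le hI)) with h1 | h1 | h1
    · exact absurd h1 hI0
    · exact absurd ((ClassGroup.mk0_eq_one_iff I.2).mpr (C_all n hn hsq K e he hspan hind hnorm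
        p q hp hq hD L _ (Nat.pos_of_ne_zero hI0) h1 I rfl)) hC
    · have h2 := C_all n hn hsq K e he hspan hind hnorm p q hp hq hD L _
        (Nat.mul_pos (Nat.pos_of_ne_zero hI0) hp.pos) h1 (I * P) (by rw [map_mul, hP])
      rw [eq_inv_iff_mul_eq_one, ← map_mul]
      exact (ClassGroup.mk0_eq_one_iff (mul_mem I.2 hP0)).mpr h2
  have hne : ClassGroup.mk0 ⟨Q, hQ'⟩ ≠ 1 := fun h1 => hQ ((ClassGroup.mk0_eq_one_iff hQ').mp h1)
  unfold classNumber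
  rw [← Nat.card_eq_fintype_card, Nat.card_eq_two_iff' (1 : ClassGroup (𝓞 K))]
  exact ⟨_, hne, fun C hC => (key C hC).trans (key _ hne).symm⟩

theorem C_chk9 : ∀ a ∈ range (9 + 2), a = 0 ∨ cTot 5 17 a ≤ cCnt 9
    [(1, 0), (1, 1), (1, 2), (1, 7), (1, 8), (2, 0), (3, 0), (3, 1), (3, 26), (5, 0)] a ∨
    cTot 5 17 (a * 5) ≤ cCnt 9
    [(1, 0), (1, 1), (1, 2), (1, 7), (1, 8), (2, 0), (3, 0), (3, 1), (3, 26), (5, 0)] (a * 5) := by
  decide +kernel

theorem C_chk19 : ∀ a ∈ range (19 + 2), a = 0 ∨ cTot 5 73 a ≤ cCnt 19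
    [(1, 0), (1, 1), (1, 2), (1, 7), (1, 12), (1, 17), (1, 18), (2, 0), (3, 0), (3, 1), (3, 56), (4, 0), (5, 0), (10, 0)] a ∨
    cTot 5 73 (a * 5) ≤ cCnt 19
    [(1, 0), (1, 1), (1, 2), (1, 7), (1, 12), (1, 17), (1, 18), (2, 0), (3, 0), (3, 1), (3, 56), (4, 0), (5, 0), (10, 0)] (a * 5) := by
  decide +kernel

theorem C_chk23 : ∀ a ∈ range (23 + 2), a = 0 ∨ cTot 13 41 a ≤ cCnt 23
    [(1, 0), (1, 1), (1, 5), (1, 18), (1, 22), (2, 0), (3, 0), (3, 2), (3, 67), (4, 0), (8, 1), (8, 183), (13, 0)] a ∨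
    cTot 13 41 (a * 13) ≤ cCnt 23
    [(1, 0), (1, 1), (1, 5), (1, 18), (1, 22), (2, 0), (3, 0), (3, 2), (3, 67), (4, 0), (8, 1), (8, 183), (13, 0)] (a * 13) := by
  decide +kernel

theorem C_chk25 : ∀ a ∈ range (25 + 2), a = 0 ∨ cTot 17 37 a ≤ cCnt 25
    [(1, 0), (1, 1), (1, 4), (1, 21), (1, 24), (2, 0), (2, 8), (2, 42), (3, 0), (4, 0), (5, 0), (5, 3), (5, 122), (17, 0)] a ∨
    cTot 17 37 (a * 17) ≤ cCnt 25
    [(1, 0), (1, 1), (1, 4), (1, 21), (1, 24), (2, 0), (2, 8), (2, 42), (3, 0), (4, 0), (5, 0), (5, 3), (5, 122), (17, 0)] (a * 17) := by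
  decide +kernel

theorem C_chk31 : ∀ a ∈ range (31 + 2), a = 0 ∨ cTot 5 193 a ≤ cCnt 31
    [(1, 0), (1, 1), (1, 3), (1, 28), (1, 30), (2, 0), (2, 1), (2, 61), (3, 0), (4, 0), (5, 0), (10, 0)] a ∨
    cTot 5 193 (a * 5) ≤ cCnt 31
    [(1, 0), (1, 1), (1, 3), (1, 28), (1, 30), (2, 0), (2, 1), (2, 61), (3, 0), (4, 0), (5, 0), (10, 0)] (a * 5) := by
  decide +kernel

theorem C_chk41 : ∀ a ∈ range (41 + 2), a = 0 ∨ cTot 5 337 a ≤ cCnt 41
    [(1, 0), (1, 1), (1, 3), (1, 38), (1, 40), (2, 0), (2, 1), (2, 81), (3, 0), (4, 0), (5, 0), (6, 0), (10, 0)] a ∨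
    cTot 5 337 (a * 5) ≤ cCnt 41
    [(1, 0), (1, 1), (1, 3), (1, 38), (1, 40), (2, 0), (2, 1), (2, 81), (3, 0), (4, 0), (5, 0), (6, 0), (10, 0)] (a * 5) := by
  decide +kernel

theorem C_chk43 : ∀ a ∈ range (43 + 2), a = 0 ∨ cTot 17 109 a ≤ cCnt 43
    [(1, 0), (1, 1), (1, 13), (1, 30), (1, 42), (2, 0), (2, 9), (2, 77), (3, 0), (3, 5), (3, 124), (4, 0), (4, 1), (4, 171), (5, 0), (6, 0), (8, 2), (8, 342), (17, 0)] a ∨
    cTot 17 109 (a * 17) ≤ cCnt 43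
    [(1, 0), (1, 1), (1, 13), (1, 30), (1, 42), (2, 0), (2, 9), (2, 77), (3, 0), (3, 5), (3, 124), (4, 0), (4, 1), (4, 171), (5, 0), (6, 0), (8, 2), (8, 342), (17, 0)] (a * 17) := by
  decide +kernel

theorem C_chk53 : ∀ a ∈ range (53 + 2), a = 0 ∨ cTot 29 97 a ≤ cCnt 53
    [(1, 0), (1, 1), (1, 12), (1, 41), (1, 52), (2, 0), (3, 0), (3, 7), (3, 152), (4, 0), (5, 0), (5, 2), (5, 263), (6, 0), (7, 0), (17, 1), (17, 900), (29, 0)] a ∨
    cTot 29 97 (a * 29) ≤ cCnt 53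
    [(1, 0), (1, 1), (1, 12), (1, 41), (1, 52), (2, 0), (3, 0), (3, 7), (3, 152), (4, 0), (5, 0), (5, 2), (5, 263), (6, 0), (7, 0), (17, 1), (17, 900), (29, 0)] (a * 29) := by
  decide +kernel

end Pool.Agent.Lib.MP_15cb89_nt
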