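import Pool.Agent.Lib.MP_15cb89_nt.Euler

/-! The local characters and discrete logarithms given by tables. -/

set_option autoImplicit false

namespace Pool.Agent.Lib.MP_15cb89_nt

open Finset

def locM (c : ℕ) : ℕ := cond (Nat.beq c 16) 8 (cond (Nat.ble c 100) c (Nat.sub c 100))

def locT (c : ℕ) : ℕ :=
  cond (Nat.beq c 1) 2 <|
  cond (Nat.beq c 4) 25 <|
  cond (Nat.beq c 8) 37145 <|
  cond (Nat.beq c 16) 4505 <|
  cond (Nat.beq c 5) 521 <|
  cond (Nat.beq c 7) 553 <|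
  cond (Nat.beq c 11) 526985 <|
  cond (Nat.beq c 13) 36176521 <|
  cond (Nat.beq c 19) 42958629385 <|
  cond (Nat.beq c 23) 146197324457 <|
  cond (Nat.beq c 31) 146369883237157417 <|
  cond (Nat.beq c 43) 12252189066141660489458185 <|
  cond (Nat.beq c 101) 2 <|
  cond (Nat.beq c 109) 106341 <|
  cond (Nat.beq c 107) 7861 <|
  cond (Nat.beq c 113) 28178341 <|
  cond (Nat.beq c 119) 115653573541 <|
  cond (Nat.beq c 131) 1619747450400910741 <|
  cond (Nat.beq c 143) 27103907099853863808526741 <|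
  0

def tbN (T j : ℕ) : ℕ := Nat.mod (Nat.shiftRight T (Nat.mul 2 j)) 4

def locN (c j : ℕ) : ℕ := tbN (locT c) (Nat.mod j (locM c))

def loc (c : ℕ) (t : ℤ) : ℤ := (tbN (locT c) (t % (locM c : ℤ)).toNat : ℤ) - 1

def base (m : ℕ) : ℕ := cond (Nat.beq m 9) 3 m

def chL : List ℕ := [1, 4, 8, 16, 5, 7, 11, 13, 19, 23, 31, 43]

def lgL : List ℕ := [9, 7, 13, 19, 31, 43]

theorem loc_per (c : ℕ) : Per (loc c) (locM c) := fun t => by
  unfold loc; simp

theorem loc_nat (c j : ℕ) : loc c (j : ℤ) = (locN c j : ℤ) - 1 := by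
  unfold loc locN
  rw [← Int.natCast_mod, Int.toNat_natCast]; rfl

theorem loc_red (c : ℕ) (hc : 0 < locM c) (t : ℤ) :
    ∃ j : ℕ, j < locM c ∧ t ≡ j [ZMOD locM c] := by
  have h0 : (0 : ℤ) < locM c := by exact_mod_cast hc
  refine ⟨(t % locM c).toNat, ?_, ?_⟩
  · have := Int.emod_lt_of_pos t h0
    have := Int.emod_nonneg t h0.ne'
    omega
  · rw [Int.toNat_of_nonneg (Int.emod_nonneg t h0.ne')]
    exact (Int.mod_modEq t _).symm

theorem ch_chk : ∀ c ∈ chL, 0 < locM c ∧ ∀ a < locM c, ∀ b < locM c,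
    (locN c (a * b) : ℤ) - 1 = ((locN c a : ℤ) - 1) * ((locN c b : ℤ) - 1) := by
  decide +kernel

theorem ch_mul {c : ℕ} (hc : c ∈ chL) (s t : ℤ) : loc c (s * t) = loc c s * loc c t := by
  obtain ⟨h0, h⟩ := ch_chk c hc
  obtain ⟨a, ha, ha'⟩ := loc_red c h0 s
  obtain ⟨b, hb, hb'⟩ := loc_red c h0 t
  rw [(loc_per c).of_modEq (ha'.mul hb'), (loc_per c).of_modEq ha', (loc_per c).of_modEq hb',
    ← Nat.cast_mul, loc_nat, loc_nat, loc_nat, h a ha b hb]

theorem lg_chk : ∀ m ∈ lgL, locM (100 + m) = m ∧ (base m).Prime ∧ base m ∣ m ∧ 0 < m ∧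
    m ∣ base m ^ 2 ∧ (∀ a < m, locN (100 + m) ((m - 1) * a) = locN (100 + m) a) ∧
    ∀ a < m, ∀ b < m, (((locN (100 + m) (a * b) : ℤ) - 1 : ℤ) : ZMod 3) =
      (((locN (100 + m) a : ℤ) - 1 : ℤ) : ZMod 3) * (ub (base m) b : ℤ) +
        (ub (base m) a : ℤ) * (((locN (100 + m) b : ℤ) - 1 : ℤ) : ZMod 3) := by
  decide +kernel

theorem lg_isLog {m : ℕ} (hm : m ∈ lgL) : IsLog (loc (100 + m)) m (base m) := by
  obtain ⟨h0, h1, h2, h3, _, h5, h6⟩ := lg_chk m hm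
  have hp : Per (loc (100 + m)) m := by have := loc_per (100 + m); rwa [h0] at this
  have hu : Per (ub (base m)) m := (ub_per _).of_dvd h2
  have hr : ∀ t : ℤ, ∃ j : ℕ, j < m ∧ t ≡ j [ZMOD m] := by
    intro t; have := loc_red (100 + m) (by rw [h0]; exact h3) t; rwa [h0] at this
  refine ⟨h1, h2, h3, hp, fun t => ?_, fun s t => ?_⟩
  · obtain ⟨a, ha, ha'⟩ := hr t
    have : -t ≡ (((m - 1) * a : ℕ) : ℤ) [ZMOD m] := by
      refine ha'.neg.trans ?_
      rw [Nat.cast_mul, Nat.cast_sub h3]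
      exact (Int.modEq_iff_dvd.mpr ⟨a, by push_cast; ring⟩)
    rw [hp.of_modEq this, hp.of_modEq ha', loc_nat, loc_nat, h5 a ha]
  · obtain ⟨a, ha, ha'⟩ := hr s
    obtain ⟨b, hb, hb'⟩ := hr t
    rw [hp.of_modEq (ha'.mul hb'), hp.of_modEq ha', hp.of_modEq hb', hu.of_modEq ha',
      hu.of_modEq hb', ← Nat.cast_mul, loc_nat, loc_nat, loc_nat, h6 a ha b hb]

theorem loc_101 (t : ℤ) : loc 101 t = 1 := by
  have : locM 101 = 1 := rfl
  unfold loc
  rw [this]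
  simp only [Nat.cast_one, Int.emod_one]
  rfl

theorem loc_1 (t : ℤ) : loc 1 t = 1 := by
  have : locM 1 = 1 := rfl
  unfold loc
  rw [this]
  simp only [Nat.cast_one, Int.emod_one]
  rfl

theorem chi_five (t : ℤ) : chi 5 t = loc 5 t := by
  obtain ⟨a, ha, ha'⟩ := loc_red 5 (by decide) t
  have e : locM 5 = 5 := rfl
  rw [e] at ha ha'
  rw [(chi_per 5).of_modEq ha', (loc_per 5).of_modEq ha', loc_nat]
  unfold chi
  interval_cases a <;> norm_num <;> rfl

theorem chi_thirteen (t : ℤ) : chi 13 t = loc 13 t := by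
  obtain ⟨a, ha, ha'⟩ := loc_red 13 (by decide) t
  have e : locM 13 = 13 := rfl
  rw [e] at ha ha'
  rw [(chi_per 13).of_modEq ha', (loc_per 13).of_modEq ha', loc_nat]
  unfold chi
  interval_cases a <;> norm_num <;> rfl

end Pool.Agent.Lib.MP_15cb89_nt
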