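import Mathlib

/-! Shared definitions for the class number two problem for `D = n^2 + 4`. -/

set_option autoImplicit false

namespace Pool.Agent.Lib.MP_15cb89_nt

open Finset

/-- The number of pairs `(x, y)` of naturals with `0 < x`, `y < n x` and
`x^2 + n x y - y^2 = a`. -/
def rP (n a : ℕ) : ℕ :=
  ((range (a + 1) ×ˢ range (n * a + 1)).filter
    (fun v : ℕ × ℕ => 0 < v.1 ∧ v.2 < n * v.1 ∧ v.1 ^ 2 + n * v.1 * v.2 = a + v.2 ^ 2)).card

/-- The genus identity for class number two: twice the number of principal ideals of norm `a`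
is the sum of the two genus convolutions. -/
def GenusId (n p q : ℕ) : Prop :=
  ∀ a : ℕ, 0 < a → 2 * (rP n a : ℤ) =
    ∑ v ∈ a.divisorsAntidiagonal,
      (jacobiSym (v.2 : ℤ) (p * q) + jacobiSym (v.1 : ℤ) p * jacobiSym (v.2 : ℤ) q)

/-- Numerator of the sawtooth function: `2 N ((x / N))` for `0 ≤ x < N`. -/
def saw (N x : ℕ) : ℤ := if x = 0 then 0 else 2 * (x : ℤ) - N

/-- The closed form of `2 N^2` times the partial zeta value at zero of the principal class. -/
def Num (w : ℤ → ℤ) (n : ℤ) (N : ℕ) : ℤ :=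
  ∑ x ∈ range N, ∑ y ∈ range N,
    w ((x : ℤ) ^ 2 + n * x * y - (y : ℤ) ^ 2) *
      (saw N x * saw N y + 2 * n * ((y : ℤ) ^ 2 - N * y))

/-- The Bessel type weight, a function of the norm only. -/
noncomputable def Jf (τ a : ℝ) : ℝ :=
  ∫ s : ℝ, Real.exp (-(τ * (a * Real.exp s + Real.exp (-s))))

end Pool.Agent.Lib.MP_15cb89_nt
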