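import Mathlib

/-! Packed vectors, unrolled loops and the two-factor CRT reindexing. -/

set_option autoImplicit false

namespace Pool.Agent.Lib.MP_15cb89_nt

open Finset

/-- An unrolled loop. -/
abbrev Ch : Type := (ℕ → ℕ → ℕ) → ℕ → ℕ

/-- `R` is the loop over `0, …, r - 1`. -/
def IsLoop (R : Ch) (r : ℕ) : Prop :=
  ∀ (g : ℕ → ℕ → ℕ) (z : ℕ), R g z = Nat.rec (motive := fun _ => ℕ) z g r

/-- The plain loop. -/
def RN (r : ℕ) : Ch := fun g z => Nat.rec (motive := fun _ => ℕ) z g r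

theorem RN_loop (r : ℕ) : IsLoop (RN r) r := fun _ _ => rfl

def sumC (R : Ch) (f : ℕ → ℕ) : ℕ := R (fun i acc => Nat.add acc (f i)) 0

def encF (R : Ch) (σ : ℕ) (f : ℕ → ℕ) : ℕ :=
  R (fun i acc => Nat.add acc (Nat.shiftLeft (f i) (Nat.mul σ i))) 0

def encR (R : Ch) (σ : ℕ) (f : ℕ → ℕ) : ℕ :=
  R (fun i acc => Nat.add (Nat.shiftLeft acc σ) (f i)) 0

theorem sumC_eq {R : Ch} {r : ℕ} (h : IsLoop R r) (f : ℕ → ℕ) :
    sumC R f = ∑ i ∈ range r, f i := by
  unfold sumC
  rw [h]
  clear h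
  induction r with
  | zero => rfl
  | succ k ih => rw [sum_range_succ, ← ih]; rfl

theorem encF_eq {R : Ch} {r : ℕ} (h : IsLoop R r) (σ : ℕ) (f : ℕ → ℕ) :
    encF R σ f = ∑ i ∈ range r, f i * 2 ^ (σ * i) := by
  unfold encF
  rw [h]
  clear h
  induction r with
  | zero => rfl
  | succ k ih =>
    rw [sum_range_succ, ← ih, ← Nat.shiftLeft_eq]; rfl

theorem encR_eq {R : Ch} {r : ℕ} (h : IsLoop R r) (σ : ℕ) (f : ℕ → ℕ) :
    encR R σ f = ∑ i ∈ range r, f i * 2 ^ (σ * (r - 1 - i)) := by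
  unfold encR
  rw [h]
  clear h
  induction r with
  | zero => rfl
  | succ k ih =>
    rw [sum_range_succ]
    show Nat.add (Nat.shiftLeft (Nat.rec (motive := fun _ => ℕ) 0
      (fun i acc => Nat.add (Nat.shiftLeft acc σ) (f i)) k) σ) (f k) = _
    rw [ih]
    have e1 : ∀ a b : ℕ, Nat.shiftLeft a b = a * 2 ^ b := fun a b => Nat.shiftLeft_eq a b
    rw [e1, Nat.add_eq, sum_mul]
    congr 1
    · refine sum_congr rfl fun i hi => ?_
      have hi' := mem_range.mp hi
      rw [mul_assoc, ← pow_add]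
      congr 2
      have : k + 1 - 1 - i = (k - 1 - i) + 1 := by omega
      rw [this]; ring
    · simp

/-- Packed vector. -/
def Ev {ι : Type} (B : ℕ) (s : Finset ι) (a : ι → ℕ) (p : ι → ℕ) : ℕ := ∑ i ∈ s, a i * B ^ p i

theorem geom_le (B P : ℕ) (hB : 1 ≤ B) : (∑ t ∈ range P, B ^ t) * (B - 1) ≤ B ^ P := by
  induction P with
  | zero => simp
  | succ k ih =>
    rw [sum_range_succ, add_mul, pow_succ]
    have : B ^ k * (B - 1) + B ^ k = B ^ k * B := by
      obtain ⟨c, rfl⟩ : ∃ c, B = c + 1 := ⟨B - 1, by omega⟩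
      simp [mul_add]
    omega

theorem Ev_split {ι : Type} [DecidableEq ι] (B : ℕ) (hB : 1 ≤ B) (s : Finset ι) (a p : ι → ℕ)
    (hinj : Set.InjOn p s) (A : ℕ) (hA : ∀ i ∈ s, a i ≤ A) (j : ι) (hj : j ∈ s) :
    ∃ lo hi : ℕ, Ev B s a p = lo + a j * B ^ p j + hi * B ^ (p j + 1) ∧
      lo * (B - 1) ≤ A * B ^ p j := by
  refine ⟨∑ i ∈ s.filter (fun i => p i < p j), a i * B ^ p i,
    ∑ i ∈ s.filter (fun i => p j < p i), a i * B ^ (p i - (p j + 1)), ?_, ?_⟩
  · unfold Ev
    rw [← sum_filter_add_sum_filter_not s (fun i => p i < p j), add_assoc]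
    congr 1
    rw [← sum_filter_add_sum_filter_not (s.filter (fun i => ¬ p i < p j)) (fun i => p j < p i),
      add_comm]
    congr 1
    · have : (s.filter (fun i => ¬ p i < p j)).filter (fun i => ¬ p j < p i) = {j} := by
        ext i
        simp only [mem_filter, mem_singleton]
        constructor
        · rintro ⟨⟨hi, h1⟩, h2⟩
          exact hinj hi hj (by omega)
        · rintro rfl
          exact ⟨⟨hj, lt_irrefl _⟩, lt_irrefl _⟩
      rw [this, sum_singleton]
    · rw [filter_filter, sum_mul]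
      have : s.filter (fun i => ¬ p i < p j ∧ p j < p i) = s.filter (fun i => p j < p i) := by
        refine filter_congr fun i _ => ?_
        constructor
        · exact fun h => h.2
        · exact fun h => ⟨by omega, h⟩
      rw [this]
      refine sum_congr rfl fun i hi => ?_
      have h := (mem_filter.mp hi).2
      rw [mul_assoc, ← pow_add]
      congr 2
      omega
  · have h1 : ∑ i ∈ s.filter (fun i => p i < p j), a i * B ^ p i ≤
        A * ∑ t ∈ range (p j), B ^ t := by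
      calc ∑ i ∈ s.filter (fun i => p i < p j), a i * B ^ p i
          ≤ ∑ i ∈ s.filter (fun i => p i < p j), A * B ^ p i :=
            sum_le_sum fun i hi => Nat.mul_le_mul_right _ (hA i (mem_filter.mp hi).1)
        _ = A * ∑ i ∈ s.filter (fun i => p i < p j), B ^ p i := by rw [mul_sum]
        _ = A * ∑ t ∈ (s.filter (fun i => p i < p j)).image p, B ^ t := by
            rw [sum_image]
            intro x hx y hy hxy
            exact hinj (mem_filter.mp hx).1 (mem_filter.mp hy).1 hxy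
        _ ≤ A * ∑ t ∈ range (p j), B ^ t := by
            refine Nat.mul_le_mul_left _ (sum_le_sum_of_subset ?_)
            intro t ht
            obtain ⟨i, hi, rfl⟩ := mem_image.mp ht
            exact mem_range.mpr (mem_filter.mp hi).2
    calc _ ≤ (A * ∑ t ∈ range (p j), B ^ t) * (B - 1) := Nat.mul_le_mul_right _ h1
      _ = A * ((∑ t ∈ range (p j), B ^ t) * (B - 1)) := by ring
      _ ≤ A * B ^ p j := Nat.mul_le_mul_left _ (geom_le B _ hB)

/-- Inner product of two packed vectors by one multiplication. -/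
theorem Ev_extract {ι : Type} [DecidableEq ι] (B L : ℕ) (s : Finset ι) (a c p : ι → ℕ)
    (hinj : Set.InjOn p s) (hp : ∀ i ∈ s, p i ≤ L) (A : ℕ) (hA : ∀ i ∈ s, a i ≤ A)
    (hB : A * ∑ i ∈ s, c i + 1 < B) :
    Ev B s a p * Ev B s c (fun i => L - p i) / B ^ L % B = ∑ i ∈ s, a i * c i := by
  have hB1 : 1 ≤ B := by omega
  choose! lo hi hsplit using fun j hj => Ev_split B hB1 s a p hinj A hA j hj
  have e : Ev B s a p * Ev B s c (fun i => L - p i) =
      (∑ j ∈ s, c j * B ^ (L - p j) * lo j) +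
        B ^ L * ((∑ j ∈ s, a j * c j) + B * ∑ j ∈ s, c j * hi j) := by
    conv_lhs => rw [Ev.eq_1 B s c, mul_sum]
    rw [mul_add, mul_sum, mul_sum, mul_sum, ← sum_add_distrib, ← sum_add_distrib]
    refine sum_congr rfl fun j hj => ?_
    rw [(hsplit j hj).1]
    have h1 : B ^ L = B ^ p j * B ^ (L - p j) := by
      rw [← pow_add]; congr 1; have := hp j hj; omega
    rw [h1, pow_succ]; ring
  have hlow : (∑ j ∈ s, c j * B ^ (L - p j) * lo j) < B ^ L := by
    have h1 : (∑ j ∈ s, c j * B ^ (L - p j) * lo j) * (B - 1) ≤ (A * ∑ i ∈ s, c i) * B ^ L := by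
      rw [sum_mul, mul_sum, sum_mul]
      refine sum_le_sum fun j hj => ?_
      have h1 : B ^ L = B ^ p j * B ^ (L - p j) := by
        rw [← pow_add]; congr 1; have := hp j hj; omega
      calc c j * B ^ (L - p j) * lo j * (B - 1) = c j * B ^ (L - p j) * (lo j * (B - 1)) := by ring
        _ ≤ c j * B ^ (L - p j) * (A * B ^ p j) := Nat.mul_le_mul_left _ (hsplit j hj).2
        _ = A * c j * B ^ L := by rw [h1]; ring
    have h2 : (A * ∑ i ∈ s, c i) * B ^ L < B ^ L * (B - 1) := by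
      rw [mul_comm (B ^ L)]
      exact Nat.mul_lt_mul_of_pos_right (by omega) (by positivity)
    exact lt_of_mul_lt_mul_right (lt_of_le_of_lt h1 h2) (Nat.zero_le _)
  have hdiag : (∑ j ∈ s, a j * c j) < B := by
    have : (∑ j ∈ s, a j * c j) ≤ A * ∑ i ∈ s, c i := by
      rw [mul_sum]
      exact sum_le_sum fun j hj => Nat.mul_le_mul_right _ (hA j hj)
    omega
  rw [e, Nat.add_mul_div_left _ _ (by positivity), Nat.div_eq_of_lt hlow, zero_add,
    Nat.add_mul_mod_self_left, Nat.mod_eq_of_lt hdiag]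

/-- Two-factor CRT reindexing. -/
theorem sum_crt {β : Type} [AddCommMonoid β] (a b : ℕ) (ha : 0 < a) (hb : 0 < b)
    (hab : Nat.Coprime a b) (φ : ℕ → β) :
    ∑ x ∈ range (a * b), φ x =
      ∑ v ∈ range a ×ˢ range b, φ ((v.1 * b + v.2 * a) % (a * b)) := by
  have hinj : Set.InjOn (fun v : ℕ × ℕ => (v.1 * b + v.2 * a) % (a * b))
      (range a ×ˢ range b : Finset (ℕ × ℕ)) := by
    rintro ⟨i, j⟩ hv ⟨i', j'⟩ hv' h
    simp only [coe_product, coe_range, Set.mem_prod, Set.mem_Iio] at hv hv'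
    have h0 : i * b + j * a ≡ i' * b + j' * a [MOD a * b] := h
    have h1 : i * b ≡ i' * b [MOD a] := by
      have := h0.of_mul_right b
      have e1 : i * b + j * a ≡ i * b [MOD a] := by
        simp [Nat.ModEq]
      have e2 : i' * b + j' * a ≡ i' * b [MOD a] := by
        simp [Nat.ModEq]
      exact e1.symm.trans (this.trans e2)
    have h2 : j * a ≡ j' * a [MOD b] := by
      have := h0.of_mul_left a
      have e1 : i * b + j * a ≡ j * a [MOD b] := by
        simp [Nat.ModEq]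
      have e2 : i' * b + j' * a ≡ j' * a [MOD b] := by
        simp [Nat.ModEq]
      exact e1.symm.trans (this.trans e2)
    have h3 : i ≡ i' [MOD a] := Nat.ModEq.cancel_right_of_coprime hab h1
    have h4 : j ≡ j' [MOD b] := Nat.ModEq.cancel_right_of_coprime hab.symm h2
    rw [Nat.ModEq.eq_of_lt_of_lt h3 hv.1 hv'.1, Nat.ModEq.eq_of_lt_of_lt h4 hv.2 hv'.2]
  have himg : (range a ×ˢ range b).image (fun v : ℕ × ℕ => (v.1 * b + v.2 * a) % (a * b)) =
      range (a * b) := by
    refine eq_of_subset_of_card_le ?_ ?_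
    · intro x hx
      obtain ⟨v, _, rfl⟩ := mem_image.mp hx
      exact mem_range.mpr (Nat.mod_lt _ (by positivity))
    · rw [card_image_of_injOn hinj]; simp
  rw [← himg, sum_image hinj]

end Pool.Agent.Lib.MP_15cb89_nt
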