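import Pool.Agent.Lib.MP_15cb89_nt.Contr
import Pool.Agent.Lib.MP_15cb89_nt.Defs

/-! The packed contractions compute the three finite sums attached to a level. -/

set_option autoImplicit false

namespace Pool.Agent.Lib.MP_15cb89_nt

open Finset

def T1 (w : ℤ → ℤ) (n : ℤ) (N : ℕ) : ℤ :=
  ∑ x ∈ range N, ∑ y ∈ range N,
    w ((x : ℤ) ^ 2 + n * x * y - (y : ℤ) ^ 2) * (saw N x * saw N y)

def T2 (w : ℤ → ℤ) (n : ℤ) (N : ℕ) : ℤ :=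
  ∑ x ∈ range N, ∑ y ∈ range N,
    w ((x : ℤ) ^ 2 + n * x * y - (y : ℤ) ^ 2) * ((y : ℤ) ^ 2 - N * y)

def T0 (w : ℤ → ℤ) (N : ℕ) : ℤ := ∑ x ∈ range N, w x * saw N x

theorem Num_eq (w : ℤ → ℤ) (n : ℤ) (N : ℕ) : Num w n N = T1 w n N + 2 * n * T2 w n N := by
  unfold Num T1 T2
  rw [mul_sum, ← sum_add_distrib]
  refine sum_congr rfl fun x _ => ?_
  rw [mul_sum, ← sum_add_distrib]
  refine sum_congr rfl fun y _ => ?_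
  ring

def crt2 (a b x y : ℕ) : ℕ := Nat.mod (Nat.add (Nat.mul x b) (Nat.mul y a)) (Nat.mul a b)

def ph (t j : ℕ) : ℕ := Nat.mod (Nat.shiftRight t (Nat.mul 8 j)) 256

def fl (t r c n x y : ℕ) : ℕ :=
  ph t (Nat.mod (Nat.mul c (Nat.add (Nat.mul x (Nat.add x (Nat.mul n y)))
    (Nat.mul (Nat.pred r) (Nat.mul y y)))) r)

def gl (t r c x : ℕ) : ℕ := ph t (Nat.mod (Nat.mul c x) r)

def col (R : Ch) (md : ℕ) (f : ℕ → ℕ → ℕ) (y : ℕ) : ℕ := Nat.mod (sumC R (fun x => f x y)) md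

namespace Geo

def uq (G : Geo) (x1 x2 : ℕ) : ℕ := Nat.mul (crt2 G.r1 G.r2 x1 x2) G.q2
def vq (G : Geo) (x3 x4 : ℕ) : ℕ := Nat.mul (crt2 G.r3 G.r4 x3 x4) G.q1
def Xv (G : Geo) (x1 x2 x3 x4 : ℕ) : ℕ := Nat.mod (Nat.add (G.uq x1 x2) (G.vq x3 x4)) G.N
def cN (G : Geo) (md : ℕ) : ℕ := Nat.mul (Nat.pred md) G.N
def Sx (G : Geo) (md x1 x2 x3 x4 : ℕ) : ℕ :=
  cond (Nat.beq (G.Xv x1 x2 x3 x4) 0) 0
    (Nat.mod (Nat.add (Nat.mul 2 (G.Xv x1 x2 x3 x4)) (G.cN md)) md)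
def Bx (G : Geo) (md x1 x2 x3 x4 : ℕ) : ℕ :=
  Nat.mod (Nat.mul (G.Xv x1 x2 x3 x4) (Nat.add (G.Xv x1 x2 x3 x4) (G.cN md))) md
def e1 (G : Geo) : ℕ := Nat.mul G.r2 G.q2
def e2 (G : Geo) : ℕ := Nat.mul G.r1 G.q2
def e3 (G : Geo) : ℕ := Nat.mul G.r4 G.q1
def e4 (G : Geo) : ℕ := Nat.mul G.r3 G.q1
def f1 (G : Geo) (t n : ℕ) : ℕ → ℕ → ℕ := fl t G.r1 (Nat.mul G.e1 G.e1) n
def f2 (G : Geo) (t n : ℕ) : ℕ → ℕ → ℕ := fl t G.r2 (Nat.mul G.e2 G.e2) n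
def f3 (G : Geo) (t n : ℕ) : ℕ → ℕ → ℕ := fl t G.r3 (Nat.mul G.e3 G.e3) n
def f4 (G : Geo) (t n : ℕ) : ℕ → ℕ → ℕ := fl t G.r4 (Nat.mul G.e4 G.e4) n
def cT1 (G : Geo) (md t1 t2 t3 t4 n1 n2 n3 n4 : ℕ) : ℕ :=
  G.con2 (G.Sx md) (G.Sx md) (G.f1 t1 n1) (G.f2 t2 n2) (G.f3 t3 n3) (G.f4 t4 n4)
def cT2 (G : Geo) (md t1 t2 t3 t4 n1 n2 n3 n4 : ℕ) : ℕ :=
  G.con1 (G.Bx md) (col G.R1 md (G.f1 t1 n1)) (col G.R2 md (G.f2 t2 n2))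
    (col G.R3 md (G.f3 t3 n3)) (col G.R4 md (G.f4 t4 n4))
def cT0 (G : Geo) (md t1 t2 t3 t4 : ℕ) : ℕ :=
  G.con1 (G.Sx md) (gl t1 G.r1 G.e1) (gl t2 G.r2 G.e2) (gl t3 G.r3 G.e3) (gl t4 G.r4 G.e4)

structure Good (G : Geo) (md t1 t2 t3 t4 : ℕ) (w : ℤ → ℤ) : Prop where
  ok : G.OK
  p1 : 0 < G.r1
  p2 : 0 < G.r2
  p3 : 0 < G.r3
  p4 : 0 < G.r4
  c12 : Nat.Coprime G.r1 G.r2
  c34 : Nat.Coprime G.r3 G.r4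
  cq : Nat.Coprime G.q1 G.q2
  pm : 0 < md
  hW : G.N ^ 2 * md ^ 6 + 1 < G.B
  b1 : ∀ j < G.r1, ph t1 j ≤ md
  b2 : ∀ j < G.r2, ph t2 j ≤ md
  b3 : ∀ j < G.r3, ph t3 j ≤ md
  b4 : ∀ j < G.r4, ph t4 j ≤ md
  hw : ∀ t : ℤ, ((w t : ℤ) : ZMod md) =
    (ph t1 (t % G.r1).toNat : ZMod md) * ph t2 (t % G.r2).toNat * ph t3 (t % G.r3).toNat *
      ph t4 (t % G.r4).toNat

theorem toNat_emod_eq (t : ℤ) (k r : ℕ) (_hr : 0 < r) (h : (t : ZMod r) = (k : ZMod r)) :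
    (t % r).toNat = k % r := by
  have h1 : t ≡ (k : ℤ) [ZMOD r] := by
    rw [← ZMod.intCast_eq_intCast_iff]; simpa using h
  have h2 : t % r = ((k % r : ℕ) : ℤ) := by rw [h1]; push_cast; rfl
  rw [h2, Int.toNat_natCast]

theorem cast_mod_dvd (a M r : ℕ) (h : r ∣ M) : ((a % M : ℕ) : ZMod r) = a := by
  rw [ZMod.natCast_eq_natCast_iff]
  exact (Nat.mod_modEq a M).of_dvd h

variable {G : Geo}

theorem Xv_eq (x1 x2 x3 x4 : ℕ) : G.Xv x1 x2 x3 x4 =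
    (((x1 * G.r2 + x2 * G.r1) % (G.r1 * G.r2)) * G.q2 +
      ((x3 * G.r4 + x4 * G.r3) % (G.r3 * G.r4)) * G.q1) % (G.q1 * G.q2) := rfl

theorem Xv_r1 (x1 x2 x3 x4 : ℕ) : (G.Xv x1 x2 x3 x4 : ZMod G.r1) = G.e1 * x1 := by
  rw [Xv_eq, cast_mod_dvd _ _ _ ⟨G.r2 * G.q2, by rw [q1_eq]; ring⟩, Nat.cast_add, Nat.cast_mul,
    Nat.cast_mul, cast_mod_dvd _ (G.r1 * G.r2) G.r1 ⟨G.r2, rfl⟩]
  simp only [e1, q1_eq, Nat.mul_eq, Nat.cast_add, Nat.cast_mul, ZMod.natCast_self]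
  ring

theorem Xv_r2 (x1 x2 x3 x4 : ℕ) : (G.Xv x1 x2 x3 x4 : ZMod G.r2) = G.e2 * x2 := by
  rw [Xv_eq, cast_mod_dvd _ _ _ ⟨G.r1 * G.q2, by rw [q1_eq]; ring⟩, Nat.cast_add, Nat.cast_mul,
    Nat.cast_mul, cast_mod_dvd _ (G.r1 * G.r2) G.r2 ⟨G.r1, mul_comm _ _⟩]
  simp only [e2, q1_eq, Nat.mul_eq, Nat.cast_add, Nat.cast_mul, ZMod.natCast_self]
  ring

theorem Xv_r3 (x1 x2 x3 x4 : ℕ) : (G.Xv x1 x2 x3 x4 : ZMod G.r3) = G.e3 * x3 := by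
  rw [Xv_eq, cast_mod_dvd _ _ _ ⟨G.r4 * G.q1, by rw [q2_eq]; ring⟩, Nat.cast_add, Nat.cast_mul,
    Nat.cast_mul, cast_mod_dvd _ (G.r3 * G.r4) G.r3 ⟨G.r4, rfl⟩]
  simp only [e3, q2_eq, Nat.mul_eq, Nat.cast_add, Nat.cast_mul, ZMod.natCast_self]
  ring

theorem Xv_r4 (x1 x2 x3 x4 : ℕ) : (G.Xv x1 x2 x3 x4 : ZMod G.r4) = G.e4 * x4 := by
  rw [Xv_eq, cast_mod_dvd _ _ _ ⟨G.r3 * G.q1, by rw [q2_eq]; ring⟩, Nat.cast_add, Nat.cast_mul,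
    Nat.cast_mul, cast_mod_dvd _ (G.r3 * G.r4) G.r4 ⟨G.r3, mul_comm _ _⟩]
  simp only [e4, q2_eq, Nat.mul_eq, Nat.cast_add, Nat.cast_mul, ZMod.natCast_self]
  ring

variable {md t1 t2 t3 t4 : ℕ} {w : ℤ → ℤ}

theorem sum_Xv {β : Type} [AddCommMonoid β] (h : G.Good md t1 t2 t3 t4 w) (φ : ℕ → β) :
    ∑ x ∈ range G.N, φ x = ∑ u ∈ G.S12, ∑ v ∈ G.S43, φ (G.Xv u.1 u.2 v.2 v.1) := by
  have hq1 : 0 < G.q1 := Nat.mul_pos h.p1 h.p2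
  have hq2 : 0 < G.q2 := Nat.mul_pos h.p3 h.p4
  rw [N_eq, sum_crt _ _ hq1 hq2 h.cq, sum_product, q1_eq, sum_crt _ _ h.p1 h.p2 h.c12]
  refine sum_congr rfl fun u _ => ?_
  rw [q2_eq, sum_crt _ _ h.p3 h.p4 h.c34, S43, sum_product, sum_product, sum_comm]
  rfl

theorem fl_eq (t r e : ℕ) (hr : 0 < r) (n : ℤ) (n1 X Y x y : ℕ) (hn : (n : ZMod r) = n1)
    (hX : (X : ZMod r) = e * x) (hY : (Y : ZMod r) = e * y) :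
    ph t ((((X : ℤ) ^ 2 + n * X * Y - (Y : ℤ) ^ 2) % r).toNat) = fl t r (Nat.mul e e) n1 x y := by
  unfold fl
  congr 1
  refine toNat_emod_eq _ _ _ hr ?_
  obtain ⟨k, rfl⟩ : ∃ k, r = k + 1 := ⟨r - 1, by omega⟩
  have hk : (k : ZMod (k + 1)) = -1 := by
    have := ZMod.natCast_self (k + 1)
    push_cast at this
    exact eq_neg_of_add_eq_zero_left this
  simp only [Nat.mul_eq, Nat.add_eq, Nat.pred_succ]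
  push_cast
  rw [hn, hX, hY, hk]
  ring

theorem fl_le (t r c n x y m : ℕ) (hr : 0 < r) (hb : ∀ j < r, ph t j ≤ m) : fl t r c n x y ≤ m :=
  hb _ (Nat.mod_lt _ hr)

theorem gl_le (t r c x m : ℕ) (hr : 0 < r) (hb : ∀ j < r, ph t j ≤ m) : gl t r c x ≤ m :=
  hb _ (Nat.mod_lt _ hr)

theorem cN_cast (hm : 0 < md) : (G.cN md : ZMod md) = -(G.N : ZMod md) := by
  obtain ⟨k, rfl⟩ : ∃ k, md = k + 1 := ⟨md - 1, by omega⟩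
  have hk : (k : ZMod (k + 1)) = -1 := by
    have := ZMod.natCast_self (k + 1)
    push_cast at this
    exact eq_neg_of_add_eq_zero_left this
  simp only [cN, Nat.mul_eq, Nat.pred_succ]
  push_cast
  rw [hk]; ring

theorem Sx_cast (hm : 0 < md) (x1 x2 x3 x4 : ℕ) :
    (G.Sx md x1 x2 x3 x4 : ZMod md) = ((saw G.N (G.Xv x1 x2 x3 x4) : ℤ) : ZMod md) := by
  unfold Sx saw
  by_cases h0 : G.Xv x1 x2 x3 x4 = 0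
  · simp [h0]
  · have : Nat.beq (G.Xv x1 x2 x3 x4) 0 = false := by
      rw [Bool.eq_false_iff]; intro h; exact h0 (Nat.eq_of_beq_eq_true h)
    rw [this, cond_false, if_neg h0]
    show (((2 * G.Xv x1 x2 x3 x4 + G.cN md) % md : ℕ) : ZMod md) = _
    rw [ZMod.natCast_mod]
    push_cast
    rw [cN_cast hm]; ring

theorem Bx_cast (hm : 0 < md) (x1 x2 x3 x4 : ℕ) :
    (G.Bx md x1 x2 x3 x4 : ZMod md) =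
      (G.Xv x1 x2 x3 x4 : ZMod md) ^ 2 - G.N * G.Xv x1 x2 x3 x4 := by
  show (((G.Xv x1 x2 x3 x4 * (G.Xv x1 x2 x3 x4 + G.cN md)) % md : ℕ) : ZMod md) = _
  rw [ZMod.natCast_mod]
  push_cast
  rw [cN_cast hm]; ring

theorem Sx_le (hm : 0 < md) (x1 x2 x3 x4 : ℕ) : G.Sx md x1 x2 x3 x4 ≤ md := by
  unfold Sx
  cases Nat.beq (G.Xv x1 x2 x3 x4) 0
  · exact (Nat.mod_lt _ hm).le
  · exact Nat.zero_le _

theorem w_Q (h : G.Good md t1 t2 t3 t4 w) (n : ℤ) (n1 n2 n3 n4 : ℕ)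
    (h1 : (n : ZMod G.r1) = n1) (h2 : (n : ZMod G.r2) = n2) (h3 : (n : ZMod G.r3) = n3)
    (h4 : (n : ZMod G.r4) = n4) (x1 x2 x3 x4 y1 y2 y3 y4 : ℕ) :
    ((w ((G.Xv x1 x2 x3 x4 : ℤ) ^ 2 + n * G.Xv x1 x2 x3 x4 * G.Xv y1 y2 y3 y4 -
      (G.Xv y1 y2 y3 y4 : ℤ) ^ 2) : ℤ) : ZMod md) =
      (G.f1 t1 n1 x1 y1 : ZMod md) * G.f2 t2 n2 x2 y2 * G.f3 t3 n3 x3 y3 * G.f4 t4 n4 x4 y4 := by
  rw [h.hw, fl_eq t1 _ _ h.p1 n n1 _ _ x1 y1 h1 (Xv_r1 ..) (Xv_r1 ..),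
    fl_eq t2 _ _ h.p2 n n2 _ _ x2 y2 h2 (Xv_r2 ..) (Xv_r2 ..),
    fl_eq t3 _ _ h.p3 n n3 _ _ x3 y3 h3 (Xv_r3 ..) (Xv_r3 ..),
    fl_eq t4 _ _ h.p4 n n4 _ _ x4 y4 h4 (Xv_r4 ..) (Xv_r4 ..)]
  rfl

theorem cT1_eq (h : G.Good md t1 t2 t3 t4 w) (n : ℤ) (n1 n2 n3 n4 : ℕ)
    (h1 : (n : ZMod G.r1) = n1) (h2 : (n : ZMod G.r2) = n2) (h3 : (n : ZMod G.r3) = n3)
    (h4 : (n : ZMod G.r4) = n4) :
    (G.cT1 md t1 t2 t3 t4 n1 n2 n3 n4 : ZMod md) = ((T1 w n G.N : ℤ) : ZMod md) := by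
  unfold cT1 T1
  rw [con2_eq h.ok md (G.Sx md) (G.Sx md) (G.f1 t1 n1) (G.f2 t2 n2) (G.f3 t3 n3) (G.f4 t4 n4)
    (Sx_le h.pm) (Sx_le h.pm)
    (fun a b => fl_le _ _ _ _ _ _ _ h.p1 h.b1) (fun a b => fl_le _ _ _ _ _ _ _ h.p2 h.b2)
    (fun a b => fl_le _ _ _ _ _ _ _ h.p3 h.b3) (fun a b => fl_le _ _ _ _ _ _ _ h.p4 h.b4) h.hW,
    sum_Xv h]
  simp only [Nat.cast_sum, Int.cast_sum]
  refine sum_congr rfl fun u _ => sum_congr rfl fun v _ => ?_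
  rw [sum_Xv h]
  refine sum_congr rfl fun u' _ => sum_congr rfl fun v' _ => ?_
  rw [Int.cast_mul, w_Q h n n1 n2 n3 n4 h1 h2 h3 h4, Int.cast_mul, ← Sx_cast h.pm,
    ← Sx_cast h.pm]
  push_cast
  ring

theorem col_cast {R : Ch} {r : ℕ} (hR : IsLoop R r) (f : ℕ → ℕ → ℕ) (y : ℕ) :
    (col R md f y : ZMod md) = ∑ x ∈ range r, (f x y : ZMod md) := by
  show (((sumC R (fun x => f x y)) % md : ℕ) : ZMod md) = _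
  rw [ZMod.natCast_mod, sumC_eq hR, Nat.cast_sum]

theorem cT2_eq (h : G.Good md t1 t2 t3 t4 w) (n : ℤ) (n1 n2 n3 n4 : ℕ)
    (h1 : (n : ZMod G.r1) = n1) (h2 : (n : ZMod G.r2) = n2) (h3 : (n : ZMod G.r3) = n3)
    (h4 : (n : ZMod G.r4) = n4) :
    (G.cT2 md t1 t2 t3 t4 n1 n2 n3 n4 : ZMod md) = ((T2 w n G.N : ℤ) : ZMod md) := by
  unfold cT2 T2
  rw [con1_eq h.ok md (G.Bx md) (col G.R1 md (G.f1 t1 n1)) (col G.R2 md (G.f2 t2 n2))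
    (col G.R3 md (G.f3 t3 n3)) (col G.R4 md (G.f4 t4 n4)) (fun _ _ _ _ => (Nat.mod_lt _ h.pm).le)
    (fun _ => (Nat.mod_lt _ h.pm).le) (fun _ => (Nat.mod_lt _ h.pm).le)
    (fun _ => (Nat.mod_lt _ h.pm).le) (fun _ => (Nat.mod_lt _ h.pm).le) h.hW, sum_comm (s := range G.N),
    sum_Xv h]
  simp only [Nat.cast_sum, Int.cast_sum]
  refine sum_congr rfl fun u' _ => sum_congr rfl fun v' _ => ?_
  rw [sum_Xv h]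
  simp only [Int.cast_mul, w_Q h n n1 n2 n3 n4 h1 h2 h3 h4, Nat.cast_mul, Bx_cast h.pm,
    col_cast h.ok.l1, col_cast h.ok.l2, col_cast h.ok.l3, col_cast h.ok.l4, S12, S43, sum_product]
  push_cast
  simp only [← sum_mul, ← mul_sum]
  ring

theorem cT0_eq (h : G.Good md t1 t2 t3 t4 w) :
    (G.cT0 md t1 t2 t3 t4 : ZMod md) = ((T0 w G.N : ℤ) : ZMod md) := by
  unfold cT0 T0
  rw [con1_eq h.ok md _ _ _ _ _ (Sx_le h.pm)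
    (fun _ => gl_le _ _ _ _ _ h.p1 h.b1) (fun _ => gl_le _ _ _ _ _ h.p2 h.b2)
    (fun _ => gl_le _ _ _ _ _ h.p3 h.b3) (fun _ => gl_le _ _ _ _ _ h.p4 h.b4) h.hW, sum_Xv h]
  simp only [Nat.cast_sum, Int.cast_sum]
  refine sum_congr rfl fun u _ => sum_congr rfl fun v _ => ?_
  rw [Int.cast_mul, h.hw, ← Sx_cast h.pm,
    toNat_emod_eq _ (G.e1 * u.1) _ h.p1 (by push_cast; exact Xv_r1 ..),
    toNat_emod_eq _ (G.e2 * u.2) _ h.p2 (by push_cast; exact Xv_r2 ..),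
    toNat_emod_eq _ (G.e3 * v.2) _ h.p3 (by push_cast; exact Xv_r3 ..),
    toNat_emod_eq _ (G.e4 * v.1) _ h.p4 (by push_cast; exact Xv_r4 ..)]
  push_cast
  rw [mul_comm]
  rfl

end Geo

end Pool.Agent.Lib.MP_15cb89_nt
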