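import Pool.Agent.Lib.MP_15cb89_nt.Shintani
import Pool.Agent.Lib.MP_15cb89_nt.Level

/-! Leading terms modulo three at the trivial zeros. -/

set_option autoImplicit false

namespace Pool.Agent.Lib.MP_15cb89_nt

open Finset

structure IsLog (l : ℤ → ℤ) (m b : ℕ) : Prop where
  bp : b.Prime
  dv : b ∣ m
  pos : 0 < m
  per : Per l m
  even : ∀ t, l (-t) = l t
  add : ∀ s t, ((l (s * t) : ℤ) : ZMod 3) = l s * ub b t + ub b s * l t

def BB (κ : ℤ → ℤ) (d : ℕ) (κ' : ℤ → ℤ) (d' N : ℕ) (h : ℤ → ℤ) : ZMod 3 :=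
  ∑ c ∈ range N, ∑ c' ∈ range N,
    ((h (c * c') : ℤ) : ZMod 3) * ((xi κ d N c : ZMod 3) * (xi κ' d' N c' : ZMod 3))

def sv (κ : ℤ → ℤ) (d N : ℕ) (g : ℤ → ℤ) : ZMod 3 := ((LL κ d N g : ℤ) : ZMod 3)

def sg (e : Bool) : ℤ := if e then 1 else -1

def sgl (e : Bool) (s0 s1 t0 t1 : ZMod 3) : ZMod 3 := if e then 2 * (s1 * t0) else 2 * (s0 * t1)

def dbl (e1 e2 : Bool) (ll s0 s1 s2 s12 t0 t1 t2 t12 : ZMod 3) : ZMod 3 :=
  if e1 then (if e2 then s12 * t0 else s1 * t2 + ll * (s0 * t0))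
  else (if e2 then s2 * t1 + ll * (s0 * t0) else s0 * t12)

theorem BB_prod (κ : ℤ → ℤ) (d : ℕ) (κ' : ℤ → ℤ) (d' N : ℕ) (g g' : ℤ → ℤ) :
    ∑ c ∈ range N, ∑ c' ∈ range N, ((g c : ZMod 3) * (g' c' : ZMod 3)) *
      ((xi κ d N c : ZMod 3) * (xi κ' d' N c' : ZMod 3)) = sv κ d N g * sv κ' d' N g' := by
  unfold sv
  rw [LL_cast, LL_cast, sum_mul_sum]
  exact sum_congr rfl fun c _ => sum_congr rfl fun c' _ => by ring

theorem BB0 (κ : ℤ → ℤ) (d : ℕ) (κ' : ℤ → ℤ) (d' : ℕ) :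
    BB κ d κ' d' 1 (fun _ => 1) = sv κ d 1 (fun _ => 1) * sv κ' d' 1 (fun _ => 1) := by
  rw [← BB_prod]; simp [BB]

theorem per_one (N : ℕ) : Per (fun _ => (1 : ℤ)) N := fun _ => rfl

theorem LL_u {κ : ℤ → ℤ} {d m b : ℕ} (h : OddCh κ d) (hd : 0 < d) (hm : 0 < m) (hb : b ∣ m)
    (hc : Nat.Coprime m d) : LL κ d m (ub b) = (1 - κ b) * LL κ d 1 (fun _ => 1) := by
  have := LL_remove (g := fun _ => 1) h hd Nat.one_pos hm hb (by simpa using hc) (per_one 1)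
  simp only [mul_one, one_mul] at this
  rw [this]; ring

theorem BB1 {κ κ' l : ℤ → ℤ} {d d' m b : ℕ} (h : OddCh κ d) (h' : OddCh κ' d') (hd : 0 < d)
    (hd' : 0 < d') (hl : IsLog l m b) (hc : Nat.Coprime m d) (hc' : Nat.Coprime m d') (e : Bool)
    (he : κ b = sg e) (he' : κ' b = -sg e) :
    BB κ d κ' d' m l = sgl e (sv κ d 1 (fun _ => 1)) (sv κ d m l) (sv κ' d' 1 (fun _ => 1))
      (sv κ' d' m l) := by
  have e1 : BB κ d κ' d' m l = sv κ d m l * sv κ' d' m (ub b) + sv κ d m (ub b) * sv κ' d' m l := by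
    rw [← BB_prod, ← BB_prod, ← sum_add_distrib]
    refine sum_congr rfl fun c _ => ?_
    rw [← sum_add_distrib]
    refine sum_congr rfl fun c' _ => ?_
    rw [hl.add]; ring
  rw [e1]
  unfold sv
  rw [LL_u h hd hl.pos hl.dv hc, LL_u h' hd' hl.pos hl.dv hc', he, he']
  cases e <;> simp [sgl, sg] <;> ring

theorem ub_ne {b b' : ℕ} (hb : b.Prime) (hb' : b'.Prime) (hne : b ≠ b') : ub b (b' : ℤ) = 1 := by
  unfold ub
  rw [if_neg]
  intro h
  exact hne ((Nat.prime_dvd_prime_iff_eq hb hb').mp (by exact_mod_cast h))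

theorem sv_lu {κ l1 : ℤ → ℤ} {d m1 b1 m2 b2 : ℕ} (h : OddCh κ d) (hd : 0 < d)
    (h1 : IsLog l1 m1 b1) (hb2 : b2.Prime) (hm2 : 0 < m2) (hdv : b2 ∣ m2) (hne : b1 ≠ b2)
    (hc : Nat.Coprime (m2 * m1) d) :
    sv κ d (m2 * m1) (fun t => l1 t * ub b2 t) =
      (1 - (κ b2 : ZMod 3)) * sv κ d m1 l1 -
        κ b2 * (l1 b2 * ((1 - (κ b1 : ZMod 3)) * sv κ d 1 (fun _ => 1))) := by
  have hc1 : Nat.Coprime m1 d := Nat.Coprime.coprime_mul_left hc
  have e1 : sv κ d m1 (fun t => l1 (b2 * t)) = l1 b2 * sv κ d m1 (ub b1) + sv κ d m1 l1 := by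
    unfold sv
    rw [LL_cast, LL_cast, LL_cast, mul_sum, ← sum_add_distrib]
    refine sum_congr rfl fun c _ => ?_
    rw [h1.add, ub_ne h1.bp hb2 hne]
    push_cast; ring
  have e2 : sv κ d m1 (ub b1) = (1 - (κ b1 : ZMod 3)) * sv κ d 1 (fun _ => 1) := by
    unfold sv
    rw [LL_u h hd h1.pos h1.dv hc1]; push_cast; ring
  have e3 := LL_remove h hd h1.pos hm2 hdv hc h1.per
  have e4 : sv κ d (m2 * m1) (fun t => l1 t * ub b2 t) =
      sv κ d m1 l1 - κ b2 * sv κ d m1 (fun t => l1 (b2 * t)) := by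
    unfold sv
    rw [e3]; push_cast; ring
  rw [e4, e1, e2]; ring

theorem sv_uu {κ : ℤ → ℤ} {d m1 b1 m2 b2 : ℕ} (h : OddCh κ d) (hd : 0 < d)
    (hb1 : b1.Prime) (hm1 : 0 < m1) (hdv1 : b1 ∣ m1)
    (hb2 : b2.Prime) (hm2 : 0 < m2) (hdv : b2 ∣ m2) (hne : b1 ≠ b2)
    (hc : Nat.Coprime (m2 * m1) d) :
    sv κ d (m2 * m1) (fun t => ub b1 t * ub b2 t) =
      (1 - (κ b2 : ZMod 3)) * ((1 - (κ b1 : ZMod 3)) * sv κ d 1 (fun _ => 1)) := by
  have hc1 : Nat.Coprime m1 d := Nat.Coprime.coprime_mul_left hc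
  have e3 := LL_remove h hd hm1 hm2 hdv hc ((ub_per b1).of_dvd hdv1)
  have e1 : (fun t : ℤ => ub b1 (b2 * t)) = ub b1 := by
    funext t
    rw [ub_mul hb1, ub_ne hb1 hb2 hne, one_mul]
  unfold sv
  rw [e3, e1, LL_u h hd hm1 hdv1 hc1]; push_cast; ring

theorem BB2 {κ κ' l1 l2 : ℤ → ℤ} {d d' m1 b1 m2 b2 : ℕ} (h : OddCh κ d) (h' : OddCh κ' d')
    (hd : 0 < d) (hd' : 0 < d') (h1 : IsLog l1 m1 b1) (h2 : IsLog l2 m2 b2) (hne : b1 ≠ b2)
    (hc : Nat.Coprime (m1 * m2) d) (hc' : Nat.Coprime (m1 * m2) d') (e1 e2 : Bool)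
    (he1 : κ b1 = sg e1) (he1' : κ' b1 = -sg e1) (he2 : κ b2 = sg e2) (he2' : κ' b2 = -sg e2) :
    BB κ d κ' d' (m1 * m2) (fun t => l1 t * l2 t) =
      dbl e1 e2 (l1 b2 * l2 b1) (sv κ d 1 (fun _ => 1)) (sv κ d m1 l1) (sv κ d m2 l2)
        (sv κ d (m1 * m2) (fun t => l1 t * l2 t)) (sv κ' d' 1 (fun _ => 1)) (sv κ' d' m1 l1)
        (sv κ' d' m2 l2) (sv κ' d' (m1 * m2) (fun t => l1 t * l2 t)) := by
  have e0 : BB κ d κ' d' (m1 * m2) (fun t => l1 t * l2 t) =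
      sv κ d (m1 * m2) (fun t => l1 t * l2 t) * sv κ' d' (m1 * m2) (fun t => ub b1 t * ub b2 t) +
      sv κ d (m1 * m2) (fun t => l1 t * ub b2 t) * sv κ' d' (m1 * m2) (fun t => l2 t * ub b1 t) +
      sv κ d (m1 * m2) (fun t => l2 t * ub b1 t) * sv κ' d' (m1 * m2) (fun t => l1 t * ub b2 t) +
      sv κ d (m1 * m2) (fun t => ub b1 t * ub b2 t) * sv κ' d' (m1 * m2) (fun t => l1 t * l2 t) := by
    simp only [← BB_prod, ← sum_add_distrib]
    refine sum_congr rfl fun c _ => sum_congr rfl fun c' _ => ?_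
    simp only [Int.cast_mul, h1.add, h2.add]
    ring
  have c1 : m1 * m2 = m2 * m1 := mul_comm _ _
  rw [e0, sv_lu h hd h2 h1.bp h1.pos h1.dv hne.symm hc,
    sv_lu h' hd' h2 h1.bp h1.pos h1.dv hne.symm hc']
  have a1 := sv_lu h hd h1 h2.bp h2.pos h2.dv hne (c1 ▸ hc)
  have a2 := sv_lu h' hd' h1 h2.bp h2.pos h2.dv hne (c1 ▸ hc')
  have a3 := sv_uu h hd h1.bp h1.pos h1.dv h2.bp h2.pos h2.dv hne (c1 ▸ hc)
  have a4 := sv_uu h' hd' h1.bp h1.pos h1.dv h2.bp h2.pos h2.dv hne (c1 ▸ hc')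
  rw [← c1] at a1 a2 a3 a4
  rw [a1, a2, a3, a4, he1, he1', he2, he2']
  have h3 : (4 : ZMod 3) = 1 := by decide
  cases e1 <;> cases e2 <;>
    simp only [dbl, sg, Bool.false_eq_true, if_true, if_false] <;> push_cast
  · linear_combination (sv κ d 1 (fun _ => 1) * sv κ' d' (m1 * m2) (fun t => l1 t * l2 t)) * h3
  · linear_combination (sv κ d m2 l2 * sv κ' d' m1 l1 +
      (l1 b2 * l2 b1) * (sv κ d 1 (fun _ => 1) * sv κ' d' 1 (fun _ => 1))) * h3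
  · linear_combination (sv κ d m1 l1 * sv κ' d' m2 l2 +
      (l1 b2 * l2 b1) * (sv κ d 1 (fun _ => 1) * sv κ' d' 1 (fun _ => 1))) * h3
  · linear_combination (sv κ d (m1 * m2) (fun t => l1 t * l2 t) * sv κ' d' 1 (fun _ => 1)) * h3

theorem Bil_cast {κ κ' : ℤ → ℤ} {d e N : ℕ} (h : OddCh κ d) (hd : 0 < d) (hc : Nat.Coprime N d)
    (g : ℤ → ℤ) : ((Bil κ κ' (d * e) N g : ℤ) : ZMod 3) = e * BB κ d κ' (d * e) N g := by
  unfold Bil BB
  simp only [xi_modulus h hd hc]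
  push_cast
  rw [mul_sum]
  refine sum_congr rfl fun c _ => ?_
  rw [mul_sum]
  exact sum_congr rfl fun c' _ => by ring

theorem sum_range_neg {β : Type} [AddCommMonoid β] (N : ℕ) (hN : 0 < N) (φ : ℕ → β) :
    ∑ y ∈ range N, φ y = ∑ y ∈ range N, φ ((N - y) % N) := by
  refine sum_bij' (fun y _ => (N - y) % N) (fun y _ => (N - y) % N) ?_ ?_ ?_ ?_ ?_
  · intro y _; exact mem_range.mpr (Nat.mod_lt _ hN)
  · intro y _; exact mem_range.mpr (Nat.mod_lt _ hN)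
  all_goals
    intro y hy
    have hy' := mem_range.mp hy
    rcases Nat.eq_zero_or_pos y with rfl | h0
    · simp
    · rw [Nat.mod_eq_of_lt (show N - y < N by omega), show N - (N - y) = y by omega,
        Nat.mod_eq_of_lt hy']

theorem Num_neg {w : ℤ → ℤ} {N : ℕ} (hN : 0 < N) (hw : Per w N) (n : ℤ) :
    Num w (-n) N = -Num w n N := by
  unfold Num
  rw [← sum_neg_distrib]
  refine sum_congr rfl fun x _ => ?_
  rw [← sum_neg_distrib, sum_range_neg N hN]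
  refine sum_congr rfl fun y hy => ?_
  have hy' := mem_range.mp hy
  rcases Nat.eq_zero_or_pos y with rfl | h0
  · simp [saw]
  · rw [Nat.mod_eq_of_lt (show N - y < N by omega)]
    have e1 : ((N - y : ℕ) : ℤ) = N - y := by push_cast [Nat.cast_sub hy'.le]; rfl
    have e2 : saw N (N - y) = -saw N y := by
      unfold saw
      rw [if_neg (by omega), if_neg (by omega), e1]; ring
    have e3 : w ((x : ℤ) ^ 2 + -n * x * ((N : ℤ) - y) - ((N : ℤ) - y) ^ 2) =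
        w ((x : ℤ) ^ 2 + n * x * y - (y : ℤ) ^ 2) := by
      rw [← hw.add_mul ((x : ℤ) ^ 2 + n * x * y - (y : ℤ) ^ 2) (-n * x - N + 2 * y)]
      congr 1; ring
    rw [e1, e2, e3]; ring

theorem T0_eq {η h : ℤ → ℤ} {K N : ℕ} (hη : OddCh η K) (hK : 0 < K) (hh : Per h N)
    (hc : Nat.Coprime N K) :
    T0 (fun t => η t * h t) (K * N) = 2 * N * LL η K N h := by
  have h1 := lam_eq (hη.zero_sum hK hc) hh
  have h2 := lam_zero (hη.zero_sum hK hc) hh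
  have h0 : η 0 = 0 := by have := hη.odd 0; simp at this; omega
  rw [mul_assoc, ← h1, mul_comm K N]
  unfold T0
  have : ∀ x : ℕ, η x * h x * saw (N * K) x =
      2 * ((x : ℤ) * (η x * h x)) - ((N * K : ℕ) : ℤ) * (η x * h x) := by
    intro x
    unfold saw
    split_ifs with hx
    · subst hx; simp [h0]
    · ring
  simp only [this, sum_sub_distrib, ← mul_sum, h2, mul_zero, sub_zero]

end Pool.Agent.Lib.MP_15cb89_nt
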