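import Pool.Agent.Lib.MP_15cb89_nt.Defs

/-! Splitting of rational primes in the quadratic field of discriminant `n^2 + 4`. -/

set_option autoImplicit false

namespace Pool.Agent.Lib.MP_15cb89_nt

open Finset NumberField

theorem A4_odd (n : ℕ) (hsq : Squarefree (n ^ 2 + 4)) : n % 2 = 1 := by
  by_contra h
  have h0 : n % 2 = 0 := by omega
  obtain ⟨k, rfl⟩ : 2 ∣ n := Nat.dvd_of_mod_eq_zero h0
  have : IsUnit (2 : ℕ) := hsq 2 ⟨k ^ 2 + 1, by ring⟩
  simp at this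

theorem A4_mod8 (n : ℕ) (hsq : Squarefree (n ^ 2 + 4)) : (n ^ 2 + 4) % 8 = 5 := by
  have h := A4_odd n hsq
  have h8 : n % 8 = 1 ∨ n % 8 = 3 ∨ n % 8 = 5 ∨ n % 8 = 7 := by omega
  rcases h8 with h8 | h8 | h8 | h8 <;> simp [Nat.add_mod, Nat.pow_mod, h8]

theorem A4_two : ∀ t : ZMod 2, t ^ 2 ≠ 1 * t + 1 := by decide

/-- Evaluation at a root modulo `r`. -/
theorem A4_hom (n : ℕ) (K : Type) [Field K] [NumberField K] (e : 𝓞 K)
    (he : e ^ 2 = (n : 𝓞 K) * e + 1)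
    (hspan : ∀ α : 𝓞 K, ∃ x y : ℤ, α = (x : 𝓞 K) + (y : 𝓞 K) * e)
    (hind : ∀ x y : ℤ, (x : 𝓞 K) + (y : 𝓞 K) * e = 0 → x = 0 ∧ y = 0)
    (R : Type) [CommRing R] (t : R) (ht : t ^ 2 = (n : R) * t + 1) :
    ∃ φ : 𝓞 K →+* R, ∀ x y : ℤ, φ ((x : 𝓞 K) + (y : 𝓞 K) * e) = (x : R) + (y : R) * t := by
  choose X Y hXY using hspan
  have key : ∀ x y : ℤ, ((X ((x : 𝓞 K) + (y : 𝓞 K) * e) : ℤ) : R) +
      ((Y ((x : 𝓞 K) + (y : 𝓞 K) * e) : ℤ) : R) * t = (x : R) + (y : R) * t := by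
    intro x y
    have h := hXY ((x : 𝓞 K) + (y : 𝓞 K) * e)
    have h2 := hind (X ((x : 𝓞 K) + (y : 𝓞 K) * e) - x) (Y ((x : 𝓞 K) + (y : 𝓞 K) * e) - y)
      (by push_cast; linear_combination -h)
    have h3 : X ((x : 𝓞 K) + (y : 𝓞 K) * e) = x := by omega
    have h4 : Y ((x : 𝓞 K) + (y : 𝓞 K) * e) = y := by omega
    rw [h3, h4]
  let g : 𝓞 K → R := fun α => ((X α : ℤ) : R) + ((Y α : ℤ) : R) * t
  have hg : ∀ x y : ℤ, g ((x : 𝓞 K) + (y : 𝓞 K) * e) = (x : R) + (y : R) * t := key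
  have hg' : ∀ (α : 𝓞 K) (x y : ℤ), α = (x : 𝓞 K) + (y : 𝓞 K) * e →
      g α = (x : R) + (y : R) * t := by
    intro α x y h; rw [h]; exact hg x y
  refine ⟨{ toFun := g, map_one' := ?_, map_mul' := ?_, map_zero' := ?_, map_add' := ?_ }, hg⟩
  · rw [hg' 1 1 0 (by simp)]; simp
  · intro α β
    rw [hg' (α * β) (X α * X β + Y α * Y β) (X α * Y β + Y α * X β + n * (Y α * Y β)) (by
      conv_lhs => rw [hXY α, hXY β]
      push_cast
      linear_combination ((Y α : 𝓞 K) * (Y β : 𝓞 K)) * he)]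
    simp only [g]
    push_cast
    linear_combination -(((Y α : ℤ) : R) * ((Y β : ℤ) : R)) * ht
  · rw [hg' 0 0 0 (by simp)]; simp
  · intro α β
    rw [hg' (α + β) (X α + X β) (Y α + Y β) (by
      conv_lhs => rw [hXY α, hXY β]
      push_cast
      ring)]
    simp only [g]
    push_cast
    ring

theorem A4_norm_int (n : ℕ) (K : Type) [Field K] [NumberField K] (e : 𝓞 K)
    (hnorm : ∀ x y : ℤ, Algebra.norm ℤ ((x : 𝓞 K) + (y : 𝓞 K) * e) = x ^ 2 + n * x * y - y ^ 2)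
    (m : ℤ) : Algebra.norm ℤ (m : 𝓞 K) = m ^ 2 := by
  have h := hnorm m 0
  simpa using h

theorem A4_absNorm_nat (n : ℕ) (K : Type) [Field K] [NumberField K] (e : 𝓞 K)
    (hnorm : ∀ x y : ℤ, Algebra.norm ℤ ((x : 𝓞 K) + (y : 𝓞 K) * e) = x ^ 2 + n * x * y - y ^ 2)
    (r : ℕ) : Ideal.absNorm (Ideal.span {(r : 𝓞 K)}) = r ^ 2 := by
  have h := A4_norm_int n K e hnorm r
  rw [Int.cast_natCast] at h
  rw [Ideal.absNorm_span_singleton, h]
  simp [Int.natAbs_pow]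

theorem A4_absNorm_ker (K : Type) [Field K] [NumberField K] (r : ℕ) (φ : 𝓞 K →+* ZMod r) :
    Ideal.absNorm (RingHom.ker φ) = r := by
  have hs : Function.Surjective φ := ZMod.ringHom_surjective φ
  rw [Ideal.absNorm_apply, Submodule.cardQuot_apply,
    Nat.card_congr (RingHom.quotientKerEquivOfSurjective hs).toEquiv, Nat.card_zmod]

theorem A4_eq_of_le (K : Type) [Field K] [NumberField K] (I J : Ideal (𝓞 K)) (h : I ≤ J)
    (hn : Ideal.absNorm I = Ideal.absNorm J) (h0 : Ideal.absNorm J ≠ 0) : I = J := by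
  obtain ⟨L, hL⟩ := Ideal.dvd_iff_le.mpr h
  have h1 : Ideal.absNorm J * Ideal.absNorm L = Ideal.absNorm J * 1 := by
    rw [← map_mul, ← hL, hn, mul_one]
  have h2 : Ideal.absNorm L = 1 := Nat.eq_of_mul_eq_mul_left (Nat.pos_of_ne_zero h0) h1
  rw [Ideal.absNorm_eq_one_iff] at h2
  rw [hL, h2, Ideal.mul_top]

/-- A root modulo `r` gives a factorisation of `r`. -/
theorem A4_root (n : ℕ) (K : Type) [Field K] [NumberField K] (e : 𝓞 K)
    (he : e ^ 2 = (n : 𝓞 K) * e + 1)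
    (hspan : ∀ α : 𝓞 K, ∃ x y : ℤ, α = (x : 𝓞 K) + (y : 𝓞 K) * e)
    (hind : ∀ x y : ℤ, (x : 𝓞 K) + (y : 𝓞 K) * e = 0 → x = 0 ∧ y = 0)
    (hnorm : ∀ x y : ℤ, Algebra.norm ℤ ((x : 𝓞 K) + (y : 𝓞 K) * e) = x ^ 2 + n * x * y - y ^ 2)
    (r : ℕ) (hr : r.Prime) (t : ZMod r) (ht : t ^ 2 = (n : ZMod r) * t + 1) :
    ∃ P Q : Ideal (𝓞 K), Ideal.absNorm P = r ∧ Ideal.absNorm Q = r ∧
      P * Q = Ideal.span {(r : 𝓞 K)} ∧ (P = Q ↔ 2 * t = n) := by
  obtain ⟨φ, hφ⟩ := A4_hom n K e he hspan hind (ZMod r) t ht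
  obtain ⟨ψ, hψ⟩ := A4_hom n K e he hspan hind (ZMod r) (n - t) (by linear_combination ht)
  obtain ⟨T, hT⟩ := ZMod.intCast_surjective t
  refine ⟨RingHom.ker φ, RingHom.ker ψ, A4_absNorm_ker K r φ, A4_absNorm_ker K r ψ, ?_, ?_⟩
  · apply A4_eq_of_le
    · rw [Ideal.mul_le]
      intro α hα β hβ
      obtain ⟨x, y, rfl⟩ := hspan α
      obtain ⟨u, v, rfl⟩ := hspan β
      rw [RingHom.mem_ker, hφ] at hα
      rw [RingHom.mem_ker, hψ] at hβ
      have h1 : (r : ℤ) ∣ x + y * T := by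
        rw [← ZMod.intCast_zmod_eq_zero_iff_dvd]; push_cast; rw [hT]; exact hα
      have h2 : (r : ℤ) ∣ u + v * (n - T) := by
        rw [← ZMod.intCast_zmod_eq_zero_iff_dvd]; push_cast; rw [hT]; exact hβ
      have h3 : (r : ℤ) ∣ T ^ 2 - n * T - 1 := by
        rw [← ZMod.intCast_zmod_eq_zero_iff_dvd]; push_cast; rw [hT]; linear_combination ht
      obtain ⟨k1, hk1⟩ := h1
      obtain ⟨k2, hk2⟩ := h2
      obtain ⟨k3, hk3⟩ := h3
      have e1 : (x : 𝓞 K) + y * T = r * k1 := by exact_mod_cast congrArg (Int.cast : ℤ → 𝓞 K) hk1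
      have e2 : (u : 𝓞 K) + v * (n - T) = r * k2 := by
        exact_mod_cast congrArg (Int.cast : ℤ → 𝓞 K) hk2
      have e3 : (T : 𝓞 K) ^ 2 - n * T - 1 = r * k3 := by
        exact_mod_cast congrArg (Int.cast : ℤ → 𝓞 K) hk3
      rw [Ideal.mem_span_singleton]
      refine ⟨k1 * (u + v * e) + y * (e - T) * k2 - y * v * k3, ?_⟩
      linear_combination ((u : 𝓞 K) + v * e) * e1 + (y : 𝓞 K) * (e - T) * e2 -
        (y : 𝓞 K) * v * e3 + (y : 𝓞 K) * v * he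
    · rw [map_mul, A4_absNorm_ker, A4_absNorm_ker, A4_absNorm_nat n K e hnorm, sq]
    · rw [A4_absNorm_nat n K e hnorm]; exact pow_ne_zero _ hr.ne_zero
  · constructor
    · intro h
      have h1 : ((-T : ℤ) : 𝓞 K) + ((1 : ℤ) : 𝓞 K) * e ∈ RingHom.ker φ := by
        rw [RingHom.mem_ker, hφ]; push_cast; rw [hT]; ring
      rw [h, RingHom.mem_ker, hψ] at h1
      push_cast at h1
      rw [hT] at h1
      linear_combination -h1
    · intro h
      have : φ = ψ := by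
        ext α
        obtain ⟨x, y, rfl⟩ := hspan α
        rw [hφ, hψ]
        linear_combination (y : ZMod r) * h
      rw [this]

/-- No root modulo `r` makes `r` inert. -/
theorem A4_inert (n : ℕ) (K : Type) [Field K] [NumberField K] (e : 𝓞 K)
    (hspan : ∀ α : 𝓞 K, ∃ x y : ℤ, α = (x : 𝓞 K) + (y : 𝓞 K) * e)
    (hnorm : ∀ x y : ℤ, Algebra.norm ℤ ((x : 𝓞 K) + (y : 𝓞 K) * e) = x ^ 2 + n * x * y - y ^ 2)
    (r : ℕ) (hr : r.Prime) (ht : ∀ t : ZMod r, t ^ 2 ≠ (n : ZMod r) * t + 1) :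
    (Ideal.span {(r : 𝓞 K)}).IsPrime := by
  have := Fact.mk hr
  have aniso : ∀ α : 𝓞 K, (r : ℤ) ∣ Algebra.norm ℤ α → α ∈ Ideal.span {(r : 𝓞 K)} := by
    intro α h
    obtain ⟨x, y, rfl⟩ := hspan α
    rw [hnorm, ← ZMod.intCast_zmod_eq_zero_iff_dvd] at h
    push_cast at h
    have hx : (x : ZMod r) = 0 := by
      by_contra hx
      apply ht ((y : ZMod r) / x)
      field_simp
      linear_combination -h
    have hy : (y : ZMod r) = 0 := by
      rw [hx] at h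
      have : (y : ZMod r) ^ 2 = 0 := by linear_combination -h
      exact pow_eq_zero_iff (two_ne_zero) |>.mp this
    obtain ⟨k1, rfl⟩ := (ZMod.intCast_zmod_eq_zero_iff_dvd _ _).mp hx
    obtain ⟨k2, rfl⟩ := (ZMod.intCast_zmod_eq_zero_iff_dvd _ _).mp hy
    rw [Ideal.mem_span_singleton]
    exact ⟨k1 + k2 * e, by push_cast; ring⟩
  refine ⟨?_, ?_⟩
  · intro h
    have h1 := A4_absNorm_nat n K e hnorm r
    rw [h, Ideal.absNorm_top] at h1
    have := hr.two_le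
    nlinarith
  · intro α β h
    rw [Ideal.mem_span_singleton] at h
    obtain ⟨γ, hγ⟩ := h
    have h1 : Algebra.norm ℤ α * Algebra.norm ℤ β = (r : ℤ) * (r * Algebra.norm ℤ γ) := by
      have h2 := A4_norm_int n K e hnorm r
      rw [Int.cast_natCast] at h2
      rw [← map_mul, hγ, map_mul, h2]; ring
    have hp : Prime (r : ℤ) := Nat.prime_iff_prime_int.mp hr
    rcases hp.dvd_or_dvd ⟨_, h1⟩ with h | h
    · exact Or.inl (aniso α h)
    · exact Or.inr (aniso β h)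

theorem A4_splitting (n : ℕ) (hn : 0 < n) (hsq : Squarefree (n ^ 2 + 4))
    (K : Type) [Field K] [NumberField K] (e : 𝓞 K) (he : e ^ 2 = (n : 𝓞 K) * e + 1)
    (hspan : ∀ α : 𝓞 K, ∃ x y : ℤ, α = (x : 𝓞 K) + (y : 𝓞 K) * e)
    (hind : ∀ x y : ℤ, (x : 𝓞 K) + (y : 𝓞 K) * e = 0 → x = 0 ∧ y = 0)
    (hnorm : ∀ x y : ℤ, Algebra.norm ℤ ((x : 𝓞 K) + (y : 𝓞 K) * e) = x ^ 2 + n * x * y - y ^ 2)
    (r : ℕ) (hr : r.Prime) :
    (jacobiSym (r : ℤ) (n ^ 2 + 4) = -1 ∧ (Ideal.span {(r : 𝓞 K)}).IsPrime ∧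
        Ideal.absNorm (Ideal.span {(r : 𝓞 K)}) = r ^ 2) ∨
    (jacobiSym (r : ℤ) (n ^ 2 + 4) = 1 ∧ ∃ P Q : Ideal (𝓞 K), P ≠ Q ∧ Ideal.absNorm P = r ∧
        Ideal.absNorm Q = r ∧ P * Q = Ideal.span {(r : 𝓞 K)}) ∨
    (r ∣ n ^ 2 + 4 ∧ ∃ P : Ideal (𝓞 K), Ideal.absNorm P = r ∧ P * P = Ideal.span {(r : 𝓞 K)}) := by
  have := Fact.mk hr
  have _hn := hn
  have hodd := A4_odd n hsq
  have h8 := A4_mod8 n hsq
  have hDodd : Odd (n ^ 2 + 4) := Nat.odd_iff.mpr (by omega)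
  by_cases hr2 : r = 2
  · subst hr2
    left
    refine ⟨?_, A4_inert n K e hspan hnorm 2 hr ?_, A4_absNorm_nat n K e hnorm 2⟩
    · have := jacobiSym.at_two hDodd
      rw [Nat.cast_ofNat, this, ZMod.χ₈_nat_eq_if_mod_eight]
      simp only [h8]
      rw [if_neg (by omega)]
      simp
    · have hn1 : (n : ZMod 2) = 1 := by
        rw [← ZMod.natCast_mod n 2, hodd]; simp
      rw [hn1]
      exact A4_two
  · have hro : Odd r := hr.odd_of_ne_two hr2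
    have hrec : jacobiSym (r : ℤ) (n ^ 2 + 4) = jacobiSym ((n ^ 2 + 4 : ℕ) : ℤ) r :=
      jacobiSym.quadratic_reciprocity_one_mod_four' hro (by omega)
    have h2 : (2 : ZMod r) ≠ 0 := by
      intro h
      have : ((2 : ℕ) : ZMod r) = 0 := by exact_mod_cast h
      rw [ZMod.natCast_eq_zero_iff] at this
      exact hr2 ((Nat.prime_dvd_prime_iff_eq hr Nat.prime_two).mp this)
    by_cases ht : ∃ t : ZMod r, t ^ 2 = (n : ZMod r) * t + 1
    · obtain ⟨t, ht⟩ := ht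
      obtain ⟨P, Q, hP, hQ, hPQ, hiff⟩ := A4_root n K e he hspan hind hnorm r hr t ht
      right
      by_cases h : 2 * t = n
      · right
        refine ⟨?_, P, hP, ?_⟩
        · rw [← ZMod.natCast_eq_zero_iff]
          push_cast
          linear_combination (-4 : ZMod r) * ht + (2 * t - n) * h
        · rw [← hPQ, ← hiff.mpr h]
      · left
        refine ⟨?_, P, Q, fun hh => h (hiff.mp hh), hP, hQ, hPQ⟩
        rw [hrec, ← jacobiSym.legendreSym.to_jacobiSym]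
        have hD : (((n ^ 2 + 4 : ℕ) : ℤ) : ZMod r) = (2 * t - n) * (2 * t - n) := by
          push_cast
          linear_combination (-4 : ZMod r) * ht
        rw [legendreSym.eq_one_iff]
        · exact ⟨_, hD⟩
        · rw [hD]
          exact mul_ne_zero (sub_ne_zero.mpr h) (sub_ne_zero.mpr h)
    · left
      push Not at ht
      refine ⟨?_, A4_inert n K e hspan hnorm r hr ht, A4_absNorm_nat n K e hnorm r⟩
      rw [hrec, ← jacobiSym.legendreSym.to_jacobiSym, legendreSym.eq_neg_one_iff]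
      rintro ⟨s, hs⟩
      push_cast at hs
      apply ht ((n + s) / 2)
      field_simp
      linear_combination -hs

end Pool.Agent.Lib.MP_15cb89_nt
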