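import Pool.Agent.Lib.MP_15cb89_nt.Defs

/-! Part A3: the sum of a completely multiplicative function over the ideals of norm `a`,
given the local splitting data, is a convolution of two completely multiplicative functions. -/

set_option autoImplicit false

namespace Pool.Agent.Lib.MP_15cb89_nt

open Finset NumberField Filter Topology MeasureTheory

/-- The convolution sum. -/
def A3_T (k1 k2 : ℕ → ℤ) (a : ℕ) : ℤ := ∑ v ∈ a.divisorsAntidiagonal, k1 v.1 * k2 v.2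

/-- The ideals of norm `a`. -/
noncomputable def A3_I (K : Type) [Field K] [NumberField K] (a : ℕ) : Finset (Ideal (𝓞 K)) :=
  (Ideal.finite_setOfPred_absNorm_eq (S := 𝓞 K) a).toFinset

theorem A3_mem_I (K : Type) [Field K] [NumberField K] (a : ℕ) (I : Ideal (𝓞 K)) :
    I ∈ A3_I K a ↔ Ideal.absNorm I = a := by
  simp [A3_I]

theorem A3_T_filter (k1 k2 : ℕ → ℤ)
    (k1mul : ∀ a b, k1 (a * b) = k1 a * k1 b) (k2mul : ∀ a b, k2 (a * b) = k2 a * k2 b)
    (d1 d2 : ℕ) (h1 : 0 < d1) (h2 : 0 < d2) (a : ℕ) (ha : 0 < a) :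
    ∑ v ∈ a.divisorsAntidiagonal.filter (fun v => d1 ∣ v.1 ∧ d2 ∣ v.2), k1 v.1 * k2 v.2 =
      if d1 * d2 ∣ a then k1 d1 * k2 d2 * A3_T k1 k2 (a / (d1 * d2)) else 0 := by
  split_ifs with h
  · obtain ⟨c, rfl⟩ := h
    have hd : 0 < d1 * d2 := Nat.mul_pos h1 h2
    have hc : c ≠ 0 := by
      rintro rfl
      simp at ha
    rw [Nat.mul_div_cancel_left _ hd, A3_T, Finset.mul_sum]
    symm
    refine Finset.sum_bij (fun v _ => (d1 * v.1, d2 * v.2)) ?_ ?_ ?_ ?_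
    · intro v hv
      rw [Nat.mem_divisorsAntidiagonal] at hv
      rw [Finset.mem_filter, Nat.mem_divisorsAntidiagonal]
      refine ⟨⟨?_, ha.ne'⟩, dvd_mul_right _ _, dvd_mul_right _ _⟩
      rw [← hv.1]
      ring
    · intro v _ w _ hvw
      simp only [Prod.mk.injEq] at hvw
      exact Prod.ext (Nat.eq_of_mul_eq_mul_left h1 hvw.1) (Nat.eq_of_mul_eq_mul_left h2 hvw.2)
    · intro w hw
      rw [Finset.mem_filter, Nat.mem_divisorsAntidiagonal] at hw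
      obtain ⟨⟨hw1, _⟩, ⟨x, hx⟩, ⟨y, hy⟩⟩ := hw
      refine ⟨(x, y), ?_, ?_⟩
      · rw [Nat.mem_divisorsAntidiagonal]
        refine ⟨?_, hc⟩
        apply Nat.eq_of_mul_eq_mul_left hd
        rw [← hw1, hx, hy]
        ring
      · exact Prod.ext hx.symm hy.symm
    · intro v _
      simp only [k1mul, k2mul]
      ring
  · apply Finset.sum_eq_zero
    intro v hv
    rw [Finset.mem_filter, Nat.mem_divisorsAntidiagonal] at hv
    obtain ⟨⟨hv1, _⟩, hx, hy⟩ := hv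
    exact absurd (hv1 ▸ mul_dvd_mul hx hy) h

theorem A3_incl_excl {α : Type} [DecidableEq α] (s : Finset α) (g : α → ℤ) (p q : α → Prop)
    [DecidablePred p] [DecidablePred q] (h : ∀ x ∈ s, p x ∨ q x) :
    ∑ x ∈ s, g x = ∑ x ∈ s.filter p, g x + ∑ x ∈ s.filter q, g x -
      ∑ x ∈ s.filter (fun x => p x ∧ q x), g x := by
  have e1 : s.filter p ∪ s.filter q = s := by
    rw [← Finset.filter_or]
    exact Finset.filter_true_of_mem h
  have e2 := Finset.sum_union_inter (s₁ := s.filter p) (s₂ := s.filter q) (f := g)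
  rw [e1, ← Finset.filter_and] at e2
  linarith

theorem A3_T_rec (k1 k2 : ℕ → ℤ) (k11 : k1 1 = 1) (k21 : k2 1 = 1)
    (k1mul : ∀ a b, k1 (a * b) = k1 a * k1 b) (k2mul : ∀ a b, k2 (a * b) = k2 a * k2 b)
    (r : ℕ) (hr : r.Prime) (b : ℕ) (hb : 0 < b) :
    A3_T k1 k2 (r * b) = (k1 r + k2 r) * A3_T k1 k2 b -
      k1 r * k2 r * (if r ∣ b then A3_T k1 k2 (b / r) else 0) := by
  have hrb : 0 < r * b := Nat.mul_pos hr.pos hb
  have e := A3_incl_excl (r * b).divisorsAntidiagonal (fun v => k1 v.1 * k2 v.2)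
    (fun v => r ∣ v.1 ∧ 1 ∣ v.2) (fun v => 1 ∣ v.1 ∧ r ∣ v.2) (by
      intro v hv
      rw [Nat.mem_divisorsAntidiagonal] at hv
      have : r ∣ v.1 * v.2 := hv.1 ▸ dvd_mul_right r b
      rcases (Nat.Prime.dvd_mul hr).mp this with h | h
      · exact Or.inl ⟨h, one_dvd _⟩
      · exact Or.inr ⟨one_dvd _, h⟩)
  have e3 : (r * b).divisorsAntidiagonal.filter
      (fun v : ℕ × ℕ => (r ∣ v.1 ∧ 1 ∣ v.2) ∧ (1 ∣ v.1 ∧ r ∣ v.2)) =
      (r * b).divisorsAntidiagonal.filter (fun v : ℕ × ℕ => r ∣ v.1 ∧ r ∣ v.2) := by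
    apply Finset.filter_congr
    intro v _
    simp
  rw [e3, A3_T_filter k1 k2 k1mul k2mul r 1 hr.pos one_pos _ hrb,
    A3_T_filter k1 k2 k1mul k2mul 1 r one_pos hr.pos _ hrb,
    A3_T_filter k1 k2 k1mul k2mul r r hr.pos hr.pos _ hrb] at e
  rw [A3_T, e]
  simp only [mul_one, one_mul, dvd_mul_right, if_true, k11, k21,
    Nat.mul_div_cancel_left _ hr.pos, Nat.mul_dvd_mul_iff_left hr.pos,
    Nat.mul_div_mul_left _ _ hr.pos]
  split_ifs <;> ring

open Classical in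
theorem A3_S_filter (K : Type) [Field K] [NumberField K]
    (f : Ideal (𝓞 K) → ℤ)
    (fmul : ∀ I J : Ideal (𝓞 K), I ≠ ⊥ → J ≠ ⊥ → f (I * J) = f I * f J)
    (D : Ideal (𝓞 K)) (hD : D ≠ ⊥) (a : ℕ) (ha : 0 < a) :
    ∑ I ∈ (A3_I K a).filter (fun I => D ∣ I), f I =
      if Ideal.absNorm D ∣ a then f D * ∑ I ∈ A3_I K (a / Ideal.absNorm D), f I else 0 := by
  split_ifs with h
  · obtain ⟨c, hc⟩ := h
    have hd : 0 < Ideal.absNorm D :=
      Nat.pos_of_ne_zero (fun h0 => hD (Ideal.absNorm_eq_zero_iff.mp h0))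
    have hc0 : c ≠ 0 := by
      rintro rfl
      simp only [mul_zero] at hc
      omega
    have hac : a / Ideal.absNorm D = c := by
      rw [hc, Nat.mul_div_cancel_left _ hd]
    rw [hac, Finset.mul_sum]
    symm
    refine Finset.sum_bij (fun J _ => D * J) ?_ ?_ ?_ ?_
    · intro J hJ
      rw [A3_mem_I] at hJ
      rw [Finset.mem_filter, A3_mem_I, map_mul, hJ]
      exact ⟨hc.symm, dvd_mul_right _ _⟩
    · intro J _ J' _ hJJ
      exact mul_left_cancel₀ hD hJJ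
    · intro I hI
      rw [Finset.mem_filter, A3_mem_I] at hI
      obtain ⟨hI1, J, rfl⟩ := hI
      refine ⟨J, ?_, rfl⟩
      rw [A3_mem_I]
      rw [map_mul, hc] at hI1
      exact Nat.eq_of_mul_eq_mul_left hd hI1
    · intro J hJ
      rw [A3_mem_I] at hJ
      have hJ0 : J ≠ ⊥ := by
        intro h0
        rw [h0, Ideal.absNorm_bot] at hJ
        exact hc0 hJ.symm
      exact (fmul D J hD hJ0).symm
  · apply Finset.sum_eq_zero
    intro I hI
    rw [Finset.mem_filter, A3_mem_I] at hI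
    exact absurd (hI.1 ▸ map_dvd Ideal.absNorm hI.2) h

theorem A3_exists_prime (K : Type) [Field K] [NumberField K] (r : ℕ) (hr : r.Prime)
    (I : Ideal (𝓞 K)) (hI : r ∣ Ideal.absNorm I) :
    ∃ P : Ideal (𝓞 K), P.IsMaximal ∧ P ∣ Ideal.span {(r : 𝓞 K)} ∧ P ∣ I := by
  obtain ⟨P, hP, h1, h2⟩ := Ideal.exists_isMaximal_dvd_of_dvd_absNorm' hr I hI
  refine ⟨P, hP, ?_, h2⟩
  rw [Ideal.dvd_iff_le, Ideal.span_singleton_le_iff_mem]
  have : (r : ℤ) ∈ P.under ℤ := by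
    rw [h1]
    exact Ideal.mem_span_singleton_self _
  rw [Ideal.under_def, Ideal.mem_comap] at this
  simpa using this

theorem A3_prime_of_norm (K : Type) [Field K] [NumberField K] (r : ℕ) (hr : r.Prime)
    (P : Ideal (𝓞 K)) (hP : Ideal.absNorm P = r) : P ≠ ⊥ ∧ P.IsMaximal ∧ Prime P := by
  have h0 : P ≠ ⊥ := by
    intro h
    rw [h, Ideal.absNorm_bot] at hP
    exact hr.ne_zero hP.symm
  have hpr : P.IsPrime := Ideal.isPrime_of_irreducible_absNorm (by rw [hP]; exact hr)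
  exact ⟨h0, hpr.isMaximal h0, Ideal.prime_of_isPrime h0 hpr⟩

theorem A3_eq_of_dvd (K : Type) [Field K] [NumberField K] (P Q : Ideal (𝓞 K))
    (hP : P.IsMaximal) (hQ : Q.IsMaximal) (h : P ∣ Q) : P = Q :=
  (hQ.eq_of_le hP.ne_top (Ideal.dvd_iff_le.mp h)).symm

theorem A3_S_rec (K : Type) [Field K] [NumberField K]
    (f : Ideal (𝓞 K) → ℤ)
    (fmul : ∀ I J : Ideal (𝓞 K), I ≠ ⊥ → J ≠ ⊥ → f (I * J) = f I * f J)
    (c1 c2 : ℤ) (r : ℕ) (hr : r.Prime)
    (hloc :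
      ((Ideal.span {(r : 𝓞 K)}).IsPrime ∧ Ideal.absNorm (Ideal.span {(r : 𝓞 K)}) = r ^ 2 ∧
          c1 + c2 = 0 ∧ f (Ideal.span {(r : 𝓞 K)}) = -(c1 * c2)) ∨
      (∃ P Q : Ideal (𝓞 K), P ≠ Q ∧ Ideal.absNorm P = r ∧ Ideal.absNorm Q = r ∧
          P * Q = Ideal.span {(r : 𝓞 K)} ∧ f P = c1 ∧ f Q = c2) ∨
      (∃ P : Ideal (𝓞 K), Ideal.absNorm P = r ∧ P * P = Ideal.span {(r : 𝓞 K)} ∧
          c1 * c2 = 0 ∧ f P = c1 + c2))
    (b : ℕ) (hb : 0 < b) :
    ∑ I ∈ A3_I K (r * b), f I = (c1 + c2) * ∑ I ∈ A3_I K b, f I -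
      c1 * c2 * (if r ∣ b then ∑ I ∈ A3_I K (b / r), f I else 0) := by
  classical
  have hrb : 0 < r * b := Nat.mul_pos hr.pos hb
  have hex : ∀ I ∈ A3_I K (r * b),
      ∃ P : Ideal (𝓞 K), P.IsMaximal ∧ P ∣ Ideal.span {(r : 𝓞 K)} ∧ P ∣ I := by
    intro I hI
    rw [A3_mem_I] at hI
    exact A3_exists_prime K r hr I (hI ▸ dvd_mul_right r b)
  rcases hloc with ⟨h1, h2, h3, h4⟩ | ⟨P, Q, hPQ, hP, hQ, hmul, hfP, hfQ⟩ | ⟨P, hP, hmul, h3, h4⟩
  · have h0 : Ideal.span {(r : 𝓞 K)} ≠ ⊥ := by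
      intro h
      rw [h, Ideal.absNorm_bot] at h2
      exact pow_ne_zero 2 hr.ne_zero h2.symm
    have hall : (A3_I K (r * b)).filter (fun I => Ideal.span {(r : 𝓞 K)} ∣ I) =
        A3_I K (r * b) := by
      apply Finset.filter_true_of_mem
      intro I hI
      obtain ⟨P, hP, hP1, hP2⟩ := hex I hI
      rwa [A3_eq_of_dvd K P _ hP (h1.isMaximal h0) hP1] at hP2
    rw [← hall, A3_S_filter K f fmul _ h0 _ hrb, h2, h3, h4, sq]
    simp only [Nat.mul_dvd_mul_iff_left hr.pos, Nat.mul_div_mul_left _ _ hr.pos]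
    split_ifs <;> ring
  · obtain ⟨hP0, hPm, hPp⟩ := A3_prime_of_norm K r hr P hP
    obtain ⟨hQ0, hQm, hQp⟩ := A3_prime_of_norm K r hr Q hQ
    have e := A3_incl_excl (A3_I K (r * b)) f (fun I => P ∣ I) (fun I => Q ∣ I) (by
      intro I hI
      obtain ⟨R, hR, hR1, hR2⟩ := hex I hI
      rw [← hmul] at hR1
      have hR0 : R ≠ ⊥ := by
        rintro rfl
        exact mul_ne_zero hP0 hQ0 (zero_dvd_iff.mp hR1)
      rcases (Ideal.prime_of_isPrime hR0 hR.isPrime).dvd_or_dvd hR1 with h | h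
      · left
        rwa [A3_eq_of_dvd K R P hR hPm h] at hR2
      · right
        rwa [A3_eq_of_dvd K R Q hR hQm h] at hR2)
    have e3 : (A3_I K (r * b)).filter (fun I => P ∣ I ∧ Q ∣ I) =
        (A3_I K (r * b)).filter (fun I => P * Q ∣ I) := by
      apply Finset.filter_congr
      intro I _
      constructor
      · rintro ⟨⟨J, rfl⟩, h2⟩
        rcases hQp.dvd_or_dvd h2 with h | h
        · exact absurd (A3_eq_of_dvd K Q P hQm hPm h).symm hPQ
        · exact mul_dvd_mul_left P h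
      · intro h
        exact ⟨(dvd_mul_right P Q).trans h, (dvd_mul_left Q P).trans h⟩
    rw [e3, A3_S_filter K f fmul P hP0 _ hrb, A3_S_filter K f fmul Q hQ0 _ hrb,
      A3_S_filter K f fmul (P * Q) (mul_ne_zero hP0 hQ0) _ hrb, map_mul, fmul P Q hP0 hQ0,
      hP, hQ, hfP, hfQ] at e
    rw [e]
    simp only [dvd_mul_right, if_true, Nat.mul_div_cancel_left _ hr.pos,
      Nat.mul_dvd_mul_iff_left hr.pos, Nat.mul_div_mul_left _ _ hr.pos]
    split_ifs <;> ring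
  · obtain ⟨hP0, hPm, hPp⟩ := A3_prime_of_norm K r hr P hP
    have hall : (A3_I K (r * b)).filter (fun I => P ∣ I) = A3_I K (r * b) := by
      apply Finset.filter_true_of_mem
      intro I hI
      obtain ⟨R, hR, hR1, hR2⟩ := hex I hI
      rw [← hmul] at hR1
      have hR0 : R ≠ ⊥ := by
        rintro rfl
        exact mul_ne_zero hP0 hP0 (zero_dvd_iff.mp hR1)
      have h := (Ideal.prime_of_isPrime hR0 hR.isPrime).dvd_or_dvd hR1
      rw [or_self] at h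
      rwa [A3_eq_of_dvd K R P hR hPm h] at hR2
    rw [← hall, A3_S_filter K f fmul _ hP0 _ hrb, hP, h3, h4]
    simp only [dvd_mul_right, if_true, Nat.mul_div_cancel_left _ hr.pos]
    ring

theorem A3_ideal_sum (K : Type) [Field K] [NumberField K]
    (f : Ideal (𝓞 K) → ℤ) (f1 : f ⊤ = 1)
    (fmul : ∀ I J : Ideal (𝓞 K), I ≠ ⊥ → J ≠ ⊥ → f (I * J) = f I * f J)
    (k1 k2 : ℕ → ℤ) (k11 : k1 1 = 1) (k21 : k2 1 = 1)
    (k1mul : ∀ a b, k1 (a * b) = k1 a * k1 b) (k2mul : ∀ a b, k2 (a * b) = k2 a * k2 b)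
    (hloc : ∀ r : ℕ, r.Prime →
      ((Ideal.span {(r : 𝓞 K)}).IsPrime ∧ Ideal.absNorm (Ideal.span {(r : 𝓞 K)}) = r ^ 2 ∧
          k1 r + k2 r = 0 ∧ f (Ideal.span {(r : 𝓞 K)}) = -(k1 r * k2 r)) ∨
      (∃ P Q : Ideal (𝓞 K), P ≠ Q ∧ Ideal.absNorm P = r ∧ Ideal.absNorm Q = r ∧
          P * Q = Ideal.span {(r : 𝓞 K)} ∧ f P = k1 r ∧ f Q = k2 r) ∨
      (∃ P : Ideal (𝓞 K), Ideal.absNorm P = r ∧ P * P = Ideal.span {(r : 𝓞 K)} ∧
          k1 r * k2 r = 0 ∧ f P = k1 r + k2 r))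
    (a : ℕ) (ha : 0 < a) :
    ∑ I ∈ (Ideal.finite_setOfPred_absNorm_eq (S := 𝓞 K) a).toFinset, f I =
      ∑ v ∈ a.divisorsAntidiagonal, k1 v.1 * k2 v.2 := by
  change ∑ I ∈ A3_I K a, f I = A3_T k1 k2 a
  induction a using Nat.strong_induction_on with
  | _ a ih =>
    rcases eq_or_ne a 1 with rfl | h1
    · have : A3_I K 1 = {⊤} := by
        ext I
        rw [A3_mem_I, Ideal.absNorm_eq_one_iff, Finset.mem_singleton]
      rw [this, Finset.sum_singleton, f1]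
      simp [A3_T, k11, k21]
    · obtain ⟨r, hr, b, rfl⟩ := Nat.exists_prime_and_dvd h1
      have hb : 0 < b := Nat.pos_of_mul_pos_left ha
      have hlt : b < r * b := by
        have := hr.two_le
        nlinarith
      rw [A3_S_rec K f fmul (k1 r) (k2 r) r hr (hloc r hr) b hb,
        A3_T_rec k1 k2 k11 k21 k1mul k2mul r hr b hb, ih b hlt hb]
      split_ifs with h
      · rw [ih (b / r) (lt_of_le_of_lt (Nat.div_le_self _ _) hlt)
          (Nat.div_pos (Nat.le_of_dvd hb h) hr.pos)]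
      · rfl

end Pool.Agent.Lib.MP_15cb89_nt
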