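import Pool.Agent.Lib.MP_15cb89_nt.GenusBasis
import Pool.Agent.Lib.MP_15cb89_nt.IdealSum
import Pool.Agent.Lib.MP_15cb89_nt.GenusSplit

/-! Genus theory for class number two in the quadratic field of discriminant `n^2 + 4`. -/

set_option autoImplicit false

namespace Pool.Agent.Lib.MP_15cb89_nt

open Finset NumberField

theorem A5_group {G : Type*} [Group G] (h : Nat.card G = 2) (a b : G) :
    a * b = 1 ↔ (a = 1 ↔ b = 1) := by
  obtain ⟨y, _, hy⟩ := (Nat.card_eq_two_iff' (1 : G)).mp h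
  by_cases ha : a = 1
  · simp [ha]
  · by_cases hb : b = 1
    · simp [ha, hb]
    · have h1 : a⁻¹ = y := hy _ (inv_ne_one.mpr ha)
      have h2 : b = y := hy _ hb
      simp only [ha, hb, iff_true]
      rw [h2, ← h1, mul_inv_cancel]

theorem A5_mul (K : Type) [Field K] [NumberField K] (h2 : classNumber K = 2)
    (I J : Ideal (𝓞 K)) (hI : I ≠ ⊥) (hJ : J ≠ ⊥) :
    (I * J).IsPrincipal ↔ (I.IsPrincipal ↔ J.IsPrincipal) := by
  have hI' : I ∈ nonZeroDivisors (Ideal (𝓞 K)) := mem_nonZeroDivisors_iff_ne_zero.mpr hI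
  have hJ' : J ∈ nonZeroDivisors (Ideal (𝓞 K)) := mem_nonZeroDivisors_iff_ne_zero.mpr hJ
  have hc : Nat.card (ClassGroup (𝓞 K)) = 2 := by rw [Nat.card_eq_fintype_card]; exact h2
  rw [← ClassGroup.mk0_eq_one_iff hI', ← ClassGroup.mk0_eq_one_iff hJ',
    ← ClassGroup.mk0_eq_one_iff (mul_mem hI' hJ'), ← A5_group hc, ← map_mul]
  rfl

theorem A5_exists_nonprinc (K : Type) [Field K] [NumberField K] (h2 : classNumber K = 2) :
    ∃ I : Ideal (𝓞 K), I ≠ ⊥ ∧ ¬ I.IsPrincipal := by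
  by_contra h
  push Not at h
  have : IsPrincipalIdealRing (𝓞 K) := ⟨fun I => by
    by_cases hI : I = ⊥
    · rw [hI]; exact bot_isPrincipal
    · exact h I hI⟩
  have h1 := classNumber_eq_one_iff.mpr this
  omega

/-- A principal ideal has a generator of positive norm. -/
theorem A5_gen (n : ℕ) (K : Type) [Field K] [NumberField K] (e : 𝓞 K)
    (he : e ^ 2 = (n : 𝓞 K) * e + 1)
    (hspan : ∀ α : 𝓞 K, ∃ x y : ℤ, α = (x : 𝓞 K) + (y : 𝓞 K) * e)
    (hnorm : ∀ x y : ℤ, Algebra.norm ℤ ((x : 𝓞 K) + (y : 𝓞 K) * e) = x ^ 2 + n * x * y - y ^ 2)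
    (I : Ideal (𝓞 K)) (hI : I.IsPrincipal) :
    ∃ x y : ℤ, I = Ideal.span {(x : 𝓞 K) + (y : 𝓞 K) * e} ∧
      x ^ 2 + n * x * y - y ^ 2 = (Ideal.absNorm I : ℤ) := by
  obtain ⟨α, hα⟩ := hI
  obtain ⟨x, y, rfl⟩ := hspan α
  have hI : I = Ideal.span {(x : 𝓞 K) + (y : 𝓞 K) * e} := hα
  have hN : Ideal.absNorm I = (x ^ 2 + n * x * y - y ^ 2 : ℤ).natAbs := by
    rw [hI, Ideal.absNorm_span_singleton, hnorm]
  rcases Int.natAbs_eq (x ^ 2 + n * x * y - y ^ 2) with h | h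
  · exact ⟨x, y, hI, by rw [hN]; exact h⟩
  · refine ⟨y, x + n * y, ?_, by rw [hN]; linear_combination -h⟩
    have hu : IsUnit e := IsUnit.of_mul_eq_one (e - n) (by linear_combination he)
    rw [hI, ← Ideal.span_singleton_mul_right_unit hu]
    congr 2
    push_cast
    linear_combination (y : 𝓞 K) * he

theorem A5_symb (n : ℕ) (hsq : Squarefree (n ^ 2 + 4))
    (K : Type) [Field K] [NumberField K] (e : 𝓞 K)
    (he : e ^ 2 = (n : 𝓞 K) * e + 1)
    (hspan : ∀ α : 𝓞 K, ∃ x y : ℤ, α = (x : 𝓞 K) + (y : 𝓞 K) * e)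
    (hnorm : ∀ x y : ℤ, Algebra.norm ℤ ((x : 𝓞 K) + (y : 𝓞 K) * e) = x ^ 2 + n * x * y - y ^ 2)
    (I : Ideal (𝓞 K)) (hI : I.IsPrincipal) (d : ℕ) (hd : d ∣ n ^ 2 + 4) :
    jacobiSym (Ideal.absNorm I : ℤ) d ≠ -1 := by
  obtain ⟨x, y, -, hxy⟩ := A5_gen n K e he hspan hnorm I hI
  have h8 := A4_mod8 n hsq
  have hDodd : Odd (n ^ 2 + 4) := Nat.odd_iff.mpr (by omega)
  have hdo : Odd d := Odd.of_dvd_nat hDodd hd
  obtain ⟨k, hk⟩ := hd
  have hk' : (n : ℤ) ^ 2 + 4 = d * k := by exact_mod_cast hk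
  have h1 : jacobiSym (4 * (Ideal.absNorm I : ℤ)) d = jacobiSym ((2 * x + n * y) ^ 2) d := by
    apply jacobiSym.mod_left'
    apply Int.ModEq.eq
    rw [Int.modEq_iff_dvd]
    exact ⟨k * y ^ 2, by linear_combination 4 * hxy + y ^ 2 * hk'⟩
  rw [jacobiSym.mul_left, jacobiSym.at_four hdo, one_mul, jacobiSym.pow_left] at h1
  rw [h1]
  have := sq_nonneg (jacobiSym (2 * x + n * y) d)
  omega

theorem A5_nonres (u : ℕ) (hu : u.Prime) (hu2 : u ≠ 2) : ∃ c : ℕ, jacobiSym (c : ℤ) u = -1 := by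
  have := Fact.mk hu
  obtain ⟨a, ha⟩ := FiniteField.exists_nonsquare (F := ZMod u) (by rw [ZMod.ringChar_zmod_n]; exact hu2)
  refine ⟨a.val, ?_⟩
  rw [ZMod.nonsquare_iff_jacobiSym_eq_neg_one]
  simpa using ha

theorem A5_jac_congr {a b d : ℕ} (h : a ≡ b [MOD d]) : jacobiSym (a : ℤ) d = jacobiSym (b : ℤ) d :=
  jacobiSym.mod_left' (Int.natCast_modEq_iff.mpr h)

theorem A5_dirichlet (u v M : ℕ) (hu : u.Prime) (hv : v.Prime) (hu2 : u ≠ 2) (hv2 : v ≠ 2)
    (hsq : Squarefree (u * v * M)) :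
    ∃ r : ℕ, r.Prime ∧ jacobiSym (r : ℤ) u = -1 ∧ jacobiSym (r : ℤ) v = -1 ∧
      ∀ w, w ∣ M → jacobiSym (r : ℤ) w = 1 := by
  obtain ⟨c, hc⟩ := A5_nonres u hu hu2
  obtain ⟨d, hd⟩ := A5_nonres v hv hv2
  have h1 : (u * v).Coprime M := (Nat.squarefree_mul_iff.mp hsq).1
  have h2 : u.Coprime v := (Nat.squarefree_mul_iff.mp (Nat.squarefree_mul_iff.mp hsq).2.1).1
  obtain ⟨k1, hk1, hk2⟩ := Nat.chineseRemainder h2 c d
  obtain ⟨k, hk3, hk4⟩ := Nat.chineseRemainder h1 k1 1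
  have ku : jacobiSym (k : ℤ) u = -1 := by
    rw [A5_jac_congr ((hk3.of_mul_right v).trans hk1), hc]
  have kv : jacobiSym (k : ℤ) v = -1 := by
    rw [A5_jac_congr ((hk3.of_mul_left u).trans hk2), hd]
  have cop : ∀ w : ℕ, w ≠ 0 → jacobiSym (k : ℤ) w = -1 → k.Coprime w := by
    intro w hw h
    by_contra hne
    have : jacobiSym (k : ℤ) w = 0 := jacobiSym.eq_zero_iff.mpr ⟨hw, by simpa using hne⟩
    omega
  have hM : k.Coprime M := by
    rw [Nat.Coprime, hk4.gcd_eq]; simp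
  have hco : k.Coprime (u * v * M) :=
    Nat.Coprime.mul_right (Nat.Coprime.mul_right (cop u hu.ne_zero ku) (cop v hv.ne_zero kv)) hM
  obtain ⟨r, -, hr, hrk⟩ := Nat.forall_exists_prime_gt_and_modEq 0 hsq.ne_zero hco
  refine ⟨r, hr, ?_, ?_, ?_⟩
  · rw [A5_jac_congr ((hrk.of_mul_right M).of_mul_right v), ku]
  · rw [A5_jac_congr ((hrk.of_mul_right M).of_mul_left u), kv]
  · intro w hw
    rw [A5_jac_congr (((hrk.of_mul_left (u * v)).trans hk4).of_dvd hw)]
    simp [jacobiSym.one_left]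

/-- A nonprincipal ideal whose norm has prescribed symbols. -/
theorem A5_nonprinc (n : ℕ) (hn : 0 < n) (hsq : Squarefree (n ^ 2 + 4))
    (K : Type) [Field K] [NumberField K] (e : 𝓞 K) (he : e ^ 2 = (n : 𝓞 K) * e + 1)
    (hspan : ∀ α : 𝓞 K, ∃ x y : ℤ, α = (x : 𝓞 K) + (y : 𝓞 K) * e)
    (hind : ∀ x y : ℤ, (x : 𝓞 K) + (y : 𝓞 K) * e = 0 → x = 0 ∧ y = 0)
    (hnorm : ∀ x y : ℤ, Algebra.norm ℤ ((x : 𝓞 K) + (y : 𝓞 K) * e) = x ^ 2 + n * x * y - y ^ 2)
    (u v M : ℕ) (hu : u.Prime) (hv : v.Prime) (hD : n ^ 2 + 4 = u * v * M) :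
    ∃ P : Ideal (𝓞 K), P ≠ ⊥ ∧ ¬ P.IsPrincipal ∧ jacobiSym (Ideal.absNorm P : ℤ) u = -1 ∧
      jacobiSym (Ideal.absNorm P : ℤ) v = -1 ∧
      ∀ w, w ∣ M → jacobiSym (Ideal.absNorm P : ℤ) w = 1 := by
  have h8 := A4_mod8 n hsq
  have hDodd : Odd (n ^ 2 + 4) := Nat.odd_iff.mpr (by omega)
  have hud : u ∣ n ^ 2 + 4 := ⟨v * M, by rw [hD]; ring⟩
  have hvd : v ∣ n ^ 2 + 4 := ⟨u * M, by rw [hD]; ring⟩
  have hu2 : u ≠ 2 := by
    rintro rfl
    have := Odd.of_dvd_nat hDodd hud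
    exact absurd this (by decide)
  have hv2 : v ≠ 2 := by
    rintro rfl
    have := Odd.of_dvd_nat hDodd hvd
    exact absurd this (by decide)
  obtain ⟨r, hr, h1, h2, h3⟩ := A5_dirichlet u v M hu hv hu2 hv2 (hD ▸ hsq)
  have hM : M ≠ 0 := by
    rintro rfl
    simp at hD
  have hJ : jacobiSym (r : ℤ) (n ^ 2 + 4) = 1 := by
    rw [hD, jacobiSym.mul_right' _ (mul_ne_zero hu.ne_zero hv.ne_zero) hM,
      jacobiSym.mul_right' _ hu.ne_zero hv.ne_zero, h1, h2, h3 M dvd_rfl]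
    norm_num
  have hP : ∃ P : Ideal (𝓞 K), Ideal.absNorm P = r := by
    rcases A4_splitting n hn hsq K e he hspan hind hnorm r hr with h | h | h
    · omega
    · obtain ⟨-, P, -, -, hP, -⟩ := h
      exact ⟨P, hP⟩
    · obtain ⟨-, P, hP, -⟩ := h
      exact ⟨P, hP⟩
  obtain ⟨P, hP⟩ := hP
  refine ⟨P, ?_, ?_, hP ▸ h1, hP ▸ h2, hP ▸ h3⟩
  · rintro rfl
    rw [Ideal.absNorm_bot] at hP
    exact hr.ne_zero hP.symm
  · intro hp
    exact A5_symb n hsq K e he hspan hnorm P hp u hud (hP ▸ h1)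

/-- For a prime discriminant an ideal whose square is generated by an integer is principal. -/
theorem A5_ambig (n : ℕ) (hn : 0 < n) (hsq : Squarefree (n ^ 2 + 4))
    (K : Type) [Field K] [NumberField K] (e : 𝓞 K) (he : e ^ 2 = (n : 𝓞 K) * e + 1)
    (hspan : ∀ α : 𝓞 K, ∃ x y : ℤ, α = (x : 𝓞 K) + (y : 𝓞 K) * e)
    (hind : ∀ x y : ℤ, (x : 𝓞 K) + (y : 𝓞 K) * e = 0 → x = 0 ∧ y = 0)
    (hnorm : ∀ x y : ℤ, Algebra.norm ℤ ((x : 𝓞 K) + (y : 𝓞 K) * e) = x ^ 2 + n * x * y - y ^ 2)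
    (hD : (n ^ 2 + 4).Prime) (N : ℕ) :
    ∀ m : ℤ, m.natAbs = N → m ≠ 0 → ∀ J : Ideal (𝓞 K), J * J = Ideal.span {(m : 𝓞 K)} →
      J.IsPrincipal := by
  induction N using Nat.strong_induction_on with
  | _ N ih =>
  intro m hm hm0 J hJ
  have step : ∀ (γ : 𝓞 K) (c : ℤ), γ * γ = (c : 𝓞 K) → 1 < c → J ≤ Ideal.span {γ} →
      J.IsPrincipal := by
    intro γ c hγ hc hle
    obtain ⟨J', hJ'⟩ := Ideal.dvd_iff_le.mpr hle
    have h1 : Ideal.span {(c : 𝓞 K)} * (J' * J') = Ideal.span {(m : 𝓞 K)} := by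
      rw [← hJ, hJ', ← hγ, ← Ideal.span_singleton_mul_span_singleton]; ring
    have h2 : (m : 𝓞 K) ∈ Ideal.span {(c : 𝓞 K)} := by
      have h7 : Ideal.span {(m : 𝓞 K)} ≤ Ideal.span {(c : 𝓞 K)} := h1 ▸ Ideal.mul_le_left
      exact h7 (Ideal.mem_span_singleton_self _)
    obtain ⟨δ, hδ⟩ := Ideal.mem_span_singleton.mp h2
    obtain ⟨x, y, rfl⟩ := hspan δ
    have h3 := (hind (c * x - m) (c * y) (by push_cast; linear_combination -hδ)).1
    have h4 : m = c * x := by omega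
    have hc0 : (c : 𝓞 K) ≠ 0 := by exact_mod_cast (by omega : c ≠ 0)
    have h5 : J' * J' = Ideal.span {(x : 𝓞 K)} := by
      apply mul_left_cancel₀ (a := Ideal.span {(c : 𝓞 K)})
      · intro h
        exact hc0 (Ideal.span_singleton_eq_bot.mp h)
      · rw [h1, Ideal.span_singleton_mul_span_singleton, h4]; push_cast; rfl
    have hx0 : x ≠ 0 := by
      rintro rfl
      simp at h4
      exact hm0 h4
    have h6 : x.natAbs < N := by
      rw [← hm, h4, Int.natAbs_mul]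
      have : 0 < x.natAbs := Int.natAbs_pos.mpr hx0
      have : 1 < c.natAbs := by omega
      nlinarith
    obtain ⟨g, hg⟩ := ih x.natAbs h6 x rfl hx0 J' h5
    refine ⟨γ * g, ?_⟩
    have hg' : J' = Ideal.span {g} := hg
    rw [hJ', hg', Ideal.span_singleton_mul_span_singleton]
  by_cases h1 : m.natAbs = 1
  · have hu : IsUnit (m : 𝓞 K) := by
      have : IsUnit m := Int.isUnit_iff_natAbs_eq.mpr h1
      simpa using this.map (Int.castRingHom (𝓞 K))
    have : J = ⊤ := by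
      rw [eq_top_iff, ← Ideal.span_singleton_eq_top.mpr hu, ← hJ]
      exact Ideal.mul_le_right
    rw [this]
    exact top_isPrincipal
  · have hr : (m.natAbs.minFac).Prime := Nat.minFac_prime h1
    have hrm : ((m.natAbs.minFac : ℕ) : ℤ) ∣ m := Int.natCast_dvd.mpr (Nat.minFac_dvd _)
    generalize m.natAbs.minFac = r at hr hrm
    have hle : J * J ≤ Ideal.span {(r : 𝓞 K)} := by
      rw [hJ, Ideal.span_singleton_le_span_singleton]
      obtain ⟨k, hk⟩ := hrm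
      exact ⟨k, by rw [hk]; push_cast; rfl⟩
    have hr2 : (1 : ℤ) < r * r := by
      have := hr.two_le
      nlinarith
    have hprime : ∀ P : Ideal (𝓞 K), Ideal.absNorm P = r → P.IsPrime := fun P hP =>
      Ideal.isPrime_of_irreducible_absNorm (by rw [hP]; exact hr)
    have hne : ∀ P : Ideal (𝓞 K), Ideal.absNorm P = r → P ≠ ⊥ := by
      rintro P hP rfl
      rw [Ideal.absNorm_bot] at hP
      exact hr.ne_zero hP.symm
    rcases A4_splitting n hn hsq K e he hspan hind hnorm r hr with h | h | h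
    · refine step r (r * r) (by push_cast; rfl) hr2 ?_
      exact (h.2.1.mul_le.mp hle).elim id id
    · obtain ⟨-, P, Q, hPQ, hP, hQ, hmul⟩ := h
      refine step r (r * r) (by push_cast; rfl) hr2 ?_
      have hJP : J ≤ P :=
        ((hprime P hP).mul_le.mp (hle.trans (hmul ▸ Ideal.mul_le_left))).elim id id
      have hJQ : J ≤ Q :=
        ((hprime Q hQ).mul_le.mp (hle.trans (hmul ▸ Ideal.mul_le_right))).elim id id
      have hPm : P.IsMaximal := (hprime P hP).isMaximal (hne P hP)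
      have hQm : Q.IsMaximal := (hprime Q hQ).isMaximal (hne Q hQ)
      rw [← hmul, Ideal.mul_eq_inf_of_coprime (hPm.coprime_of_ne hQm hPQ)]
      exact le_inf hJP hJQ
    · obtain ⟨hdvd, P, hP, hmul⟩ := h
      have hrD : r = n ^ 2 + 4 := (Nat.prime_dvd_prime_iff_eq hr hD).mp hdvd
      have hδ : ((((-n : ℤ) : 𝓞 K) + ((2 : ℤ) : 𝓞 K) * e) * (((-n : ℤ) : 𝓞 K) + ((2 : ℤ) : 𝓞 K) * e))
          = ((r : ℤ) : 𝓞 K) := by
        rw [hrD]; push_cast; linear_combination 4 * he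
      refine step _ r hδ (by exact_mod_cast hr.one_lt) ?_
      have hJP : J ≤ P :=
        ((hprime P hP).mul_le.mp (hle.trans (hmul ▸ Ideal.mul_le_right))).elim id id
      have hδP : Ideal.span {((-n : ℤ) : 𝓞 K) + ((2 : ℤ) : 𝓞 K) * e} ≤ P := by
        refine ((hprime P hP).mul_le.mp ?_).elim id id
        rw [Ideal.span_singleton_mul_span_singleton, hδ, Int.cast_natCast, ← hmul]
        exact Ideal.mul_le_right
      rw [A4_eq_of_le K _ _ hδP ?_ (by rw [hP]; exact hr.ne_zero)]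
      · exact hJP
      · rw [hP, Ideal.absNorm_span_singleton, hnorm, hrD]
        have : ((-n : ℤ) ^ 2 + n * (-n : ℤ) * 2 - 2 ^ 2) = -((n ^ 2 + 4 : ℕ) : ℤ) := by
          push_cast; ring
        rw [this, Int.natAbs_neg, Int.natAbs_natCast]

/-- A prime discriminant does not have class number two. -/
theorem A5_not_prime (n : ℕ) (hn : 0 < n) (hsq : Squarefree (n ^ 2 + 4))
    (K : Type) [Field K] [NumberField K] (e : 𝓞 K) (he : e ^ 2 = (n : 𝓞 K) * e + 1)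
    (hspan : ∀ α : 𝓞 K, ∃ x y : ℤ, α = (x : 𝓞 K) + (y : 𝓞 K) * e)
    (hind : ∀ x y : ℤ, (x : 𝓞 K) + (y : 𝓞 K) * e = 0 → x = 0 ∧ y = 0)
    (hnorm : ∀ x y : ℤ, Algebra.norm ℤ ((x : 𝓞 K) + (y : 𝓞 K) * e) = x ^ 2 + n * x * y - y ^ 2)
    (h2 : classNumber K = 2) : ¬ (n ^ 2 + 4).Prime := by
  intro hD
  obtain ⟨I, hI0, hI⟩ := A5_exists_nonprinc K h2
  have hII : (I * I).IsPrincipal := (A5_mul K h2 I I hI0 hI0).mpr Iff.rfl
  obtain ⟨x, y, hxy, hN⟩ := A5_gen n K e he hspan hnorm _ hII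
  rw [map_mul] at hN
  have ha0 : Ideal.absNorm I ≠ 0 := fun h => hI0 (Ideal.absNorm_eq_zero_iff.mp h)
  generalize Ideal.absNorm I = a at hN ha0
  push_cast at hN
  have key : ∀ b : ℤ, b * b = (a : ℤ) * a → 2 * x + n * y + 2 * b ≠ 0 → False := by
    intro b hb hm
    have hb0 : b ≠ 0 := by
      rintro rfl
      have : (a : ℤ) * a = 0 := by linarith
      exact ha0 (by exact_mod_cast mul_self_eq_zero.mp this)
    have hN' : (x : 𝓞 K) ^ 2 + n * x * y - y ^ 2 = b * b := by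
      exact_mod_cast congrArg (Int.cast : ℤ → 𝓞 K) (hN.trans hb.symm)
    set β : 𝓞 K := (x : 𝓞 K) + y * (n - e) + b with hβ
    have hid : ((x : 𝓞 K) + (y : 𝓞 K) * e) * (β * β) =
        ((b * b * (2 * x + n * y + 2 * b) : ℤ) : 𝓞 K) := by
      have h1 : ((x : 𝓞 K) + (y : 𝓞 K) * e) * (x + y * (n - e)) = b * b := by
        linear_combination hN' - (y : 𝓞 K) ^ 2 * he
      push_cast
      rw [hβ]
      linear_combination ((x : 𝓞 K) + y * (n - e) + 2 * b) * h1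
    have hm0 : b * b * (2 * x + n * y + 2 * b) ≠ 0 := mul_ne_zero (mul_ne_zero hb0 hb0) hm
    have hβ0 : β ≠ 0 := by
      intro h
      rw [h] at hid
      simp only [mul_zero] at hid
      exact hm0 (by exact_mod_cast hid.symm)
    have hJ : (I * Ideal.span {β}) * (I * Ideal.span {β}) =
        Ideal.span {((b * b * (2 * x + n * y + 2 * b) : ℤ) : 𝓞 K)} := by
      rw [← hid, ← Ideal.span_singleton_mul_span_singleton,
        ← Ideal.span_singleton_mul_span_singleton, ← hxy]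
      ring
    have hp := A5_ambig n hn hsq K e he hspan hind hnorm hD _ _ rfl hm0 _ hJ
    rw [A5_mul K h2 _ _ hI0 (fun h => hβ0 (Ideal.span_singleton_eq_bot.mp h))] at hp
    exact hI (hp.mpr ⟨β, rfl⟩)
  by_cases h : 2 * x + n * y + 2 * (a : ℤ) = 0
  · exact key (-a) (by ring) (by omega)
  · exact key a rfl h

theorem A5_not_three (n : ℕ) (hn : 0 < n) (hsq : Squarefree (n ^ 2 + 4))
    (K : Type) [Field K] [NumberField K] (e : 𝓞 K) (he : e ^ 2 = (n : 𝓞 K) * e + 1)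
    (hspan : ∀ α : 𝓞 K, ∃ x y : ℤ, α = (x : 𝓞 K) + (y : 𝓞 K) * e)
    (hind : ∀ x y : ℤ, (x : 𝓞 K) + (y : 𝓞 K) * e = 0 → x = 0 ∧ y = 0)
    (hnorm : ∀ x y : ℤ, Algebra.norm ℤ ((x : 𝓞 K) + (y : 𝓞 K) * e) = x ^ 2 + n * x * y - y ^ 2)
    (h2 : classNumber K = 2) (u v w M : ℕ) (hu : u.Prime) (hv : v.Prime) (hw : w.Prime)
    (hD : n ^ 2 + 4 = u * v * w * M) : False := by
  obtain ⟨P, hP0, hP, h1, -, -⟩ := A5_nonprinc n hn hsq K e he hspan hind hnorm u v (w * M) hu hv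
    (by rw [hD]; ring)
  obtain ⟨Q, hQ0, hQ, -, -, h3⟩ := A5_nonprinc n hn hsq K e he hspan hind hnorm v w (u * M) hv hw
    (by rw [hD]; ring)
  have hPQ : (P * Q).IsPrincipal := (A5_mul K h2 P Q hP0 hQ0).mpr (iff_of_false hP hQ)
  apply A5_symb n hsq K e he hspan hnorm _ hPQ u ⟨v * w * M, by rw [hD]; ring⟩
  rw [map_mul, Nat.cast_mul, jacobiSym.mul_left, h1, h3 u (dvd_mul_right _ _)]
  norm_num

open Classical in
theorem A5_two (n : ℕ) (hn : 0 < n) (hsq : Squarefree (n ^ 2 + 4))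
    (K : Type) [Field K] [NumberField K] (e : 𝓞 K) (he : e ^ 2 = (n : 𝓞 K) * e + 1)
    (hspan : ∀ α : 𝓞 K, ∃ x y : ℤ, α = (x : 𝓞 K) + (y : 𝓞 K) * e)
    (hind : ∀ x y : ℤ, (x : 𝓞 K) + (y : 𝓞 K) * e = 0 → x = 0 ∧ y = 0)
    (hnorm : ∀ x y : ℤ, Algebra.norm ℤ ((x : 𝓞 K) + (y : 𝓞 K) * e) = x ^ 2 + n * x * y - y ^ 2)
    (h2 : classNumber K = 2) (p q : ℕ) (hp : p.Prime) (hq : q.Prime)
    (hD : n ^ 2 + 4 = p * q) : GenusId n p q := by
  obtain ⟨P0, hP00, hP0, h0p, h0q, -⟩ := A5_nonprinc n hn hsq K e he hspan hind hnorm p q 1 hp hq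
    (by rw [hD]; ring)
  have hpd : p ∣ n ^ 2 + 4 := ⟨q, hD⟩
  have hqd : q ∣ n ^ 2 + 4 := ⟨p, by rw [hD]; ring⟩
  have hco : p.Coprime q := (Nat.squarefree_mul_iff.mp (hD ▸ hsq)).1
  let f : Ideal (𝓞 K) → ℤ := fun I => if I.IsPrincipal then 1 else -1
  have hf : ∀ (d : ℕ), d ∣ n ^ 2 + 4 → jacobiSym (Ideal.absNorm P0 : ℤ) d = -1 →
      ∀ I : Ideal (𝓞 K), I ≠ ⊥ → jacobiSym (Ideal.absNorm I : ℤ) d ≠ 0 →
        f I = jacobiSym (Ideal.absNorm I : ℤ) d := by
    intro d hd h0 I hI hne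
    have htri := jacobiSym.trichotomy (Ideal.absNorm I : ℤ) d
    by_cases hpr : I.IsPrincipal
    · have := A5_symb n hsq K e he hspan hnorm I hpr d hd
      simp only [f, if_pos hpr]
      omega
    · have h1 : (I * P0).IsPrincipal := (A5_mul K h2 I P0 hI hP00).mpr (iff_of_false hpr hP0)
      have := A5_symb n hsq K e he hspan hnorm _ h1 d hd
      rw [map_mul, Nat.cast_mul, jacobiSym.mul_left, h0] at this
      simp only [f, if_neg hpr]
      omega
  have hne : ∀ (r : ℕ), r.Prime → ∀ P : Ideal (𝓞 K), Ideal.absNorm P = r → P ≠ ⊥ := by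
    rintro r hr P hP rfl
    rw [Ideal.absNorm_bot] at hP
    exact hr.ne_zero hP.symm
  have hsplit : ∀ r : ℕ, jacobiSym (r : ℤ) (n ^ 2 + 4) = jacobiSym (r : ℤ) p * jacobiSym (r : ℤ) q := by
    intro r
    rw [hD, jacobiSym.mul_right' _ hp.ne_zero hq.ne_zero]
  have hself : ∀ d : ℕ, d.Prime → jacobiSym (d : ℤ) d = 0 := by
    intro d hd
    refine jacobiSym.eq_zero_iff.mpr ⟨hd.ne_zero, ?_⟩
    simpa using hd.ne_one
  intro a ha
  have S1 := A3_ideal_sum K (fun _ => 1) rfl (fun _ _ _ _ => by norm_num) (fun _ => 1)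
    (fun b => jacobiSym (b : ℤ) (p * q)) rfl (by simp [jacobiSym.one_left])
    (fun _ _ => by norm_num) (fun b c => by rw [Nat.cast_mul, jacobiSym.mul_left]) (by
      intro r hr
      rcases A4_splitting n hn hsq K e he hspan hind hnorm r hr with h | h | h
      · left
        refine ⟨h.2.1, h.2.2, ?_, ?_⟩ <;> simp only [← hD, h.1] <;> norm_num
      · right; left
        obtain ⟨h1, P, Q, hPQ, hP, hQ, hmul⟩ := h
        exact ⟨P, Q, hPQ, hP, hQ, hmul, rfl, by simp only [← hD, h1]⟩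
      · right; right
        obtain ⟨h1, P, hP, hmul⟩ := h
        have h0 : jacobiSym (r : ℤ) (p * q) = 0 := by
          rw [← hD]
          refine jacobiSym.eq_zero_iff.mpr ⟨by omega, ?_⟩
          rw [Int.gcd_natCast_natCast, Nat.gcd_eq_left h1]
          exact hr.ne_one
        exact ⟨P, hP, hmul, by simp only [h0]; norm_num, by simp only [h0]; norm_num⟩) a ha
  have S2 := A3_ideal_sum K f (by simp only [f, if_pos top_isPrincipal]) (by
      intro I J hI hJ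
      have := A5_mul K h2 I J hI hJ
      by_cases h1 : I.IsPrincipal <;> by_cases h3 : J.IsPrincipal <;> simp [f, h1, h3, this])
    (fun b => jacobiSym (b : ℤ) p) (fun b => jacobiSym (b : ℤ) q)
    (by simp [jacobiSym.one_left]) (by simp [jacobiSym.one_left])
    (fun b c => by rw [Nat.cast_mul, jacobiSym.mul_left])
    (fun b c => by rw [Nat.cast_mul, jacobiSym.mul_left]) (by
      intro r hr
      have hs := hsplit r
      have t1 := jacobiSym.trichotomy (r : ℤ) p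
      have t2 := jacobiSym.trichotomy (r : ℤ) q
      rcases A4_splitting n hn hsq K e he hspan hind hnorm r hr with h | h | h
      · left
        rw [h.1] at hs
        refine ⟨h.2.1, h.2.2, ?_, ?_⟩
        · rcases t1 with t1 | t1 | t1 <;> rcases t2 with t2 | t2 | t2 <;>
            simp only [t1, t2] at hs ⊢ <;> omega
        · have hpr : (Ideal.span {(r : 𝓞 K)}).IsPrincipal := ⟨_, rfl⟩
          simp only [f, if_pos hpr, ← hs]
          norm_num
      · right; left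
        obtain ⟨h1, P, Q, hPQ, hP, hQ, hmul⟩ := h
        rw [h1] at hs
        refine ⟨P, Q, hPQ, hP, hQ, hmul, ?_, ?_⟩
        · rw [hf p hpd h0p P (hne r hr P hP) (by
            rw [hP]; intro h0; rw [h0] at hs; simp at hs), hP]
        · rw [hf q hqd h0q Q (hne r hr Q hQ) (by
            rw [hQ]; intro h0; rw [h0] at hs; simp at hs), hQ]
      · right; right
        obtain ⟨h1, P, hP, hmul⟩ := h
        rw [hD] at h1
        rcases (Nat.Prime.dvd_mul hr).mp h1 with h3 | h3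
        · have hrp : r = p := (Nat.prime_dvd_prime_iff_eq hr hp).mp h3
          subst hrp
          refine ⟨P, hP, hmul, by simp only [hself r hr, zero_mul], ?_⟩
          simp only [hself r hr, zero_add]
          rw [hf q hqd h0q P (hne r hr P hP) (by
            rw [hP]; exact jacobiSym.ne_zero (by simpa using hco)), hP]
        · have hrq : r = q := (Nat.prime_dvd_prime_iff_eq hr hq).mp h3
          subst hrq
          refine ⟨P, hP, hmul, by simp only [hself r hr, mul_zero], ?_⟩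
          simp only [hself r hr, add_zero]
          rw [hf p hpd h0p P (hne r hr P hP) (by
            rw [hP]; exact jacobiSym.ne_zero (by simpa using hco.symm)), hP]) a ha
  rw [sum_add_distrib, ← S2, ← A2_principal_count n hn K e he hspan hind hnorm a ha]
  simp only [one_mul] at S1
  rw [← S1, ← sum_add_distrib, card_filter]
  push_cast
  rw [mul_sum]
  refine sum_congr rfl fun I _ => ?_
  by_cases h1 : I.IsPrincipal <;> simp [f, h1]

theorem A5_genus (n : ℕ) (hn : 0 < n) (hsq : Squarefree (n ^ 2 + 4))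
    (K : Type) [Field K] [NumberField K] (hK : Module.finrank ℚ K = 2)
    (hx : ∃ x : K, x ^ 2 = ((n ^ 2 + 4 : ℕ) : K)) (h2 : classNumber K = 2) :
    ∃ p q : ℕ, p.Prime ∧ q.Prime ∧ p < q ∧ n ^ 2 + 4 = p * q ∧ GenusId n p q := by
  obtain ⟨e, he, hspan, hind, hnorm⟩ := A1_basis n hn hsq K hK hx
  obtain ⟨u, hu, m, hm⟩ := Nat.exists_prime_and_dvd (n := n ^ 2 + 4) (by omega)
  by_cases hm1 : m = 1
  · exfalso
    apply A5_not_prime n hn hsq K e he hspan hind hnorm h2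
    rw [hm, hm1, mul_one]
    exact hu
  obtain ⟨v, hv, m', hm'⟩ := Nat.exists_prime_and_dvd hm1
  by_cases hm2 : m' = 1
  · have hD : n ^ 2 + 4 = u * v := by rw [hm, hm', hm2, mul_one]
    have hco : u.Coprime v := (Nat.squarefree_mul_iff.mp (hD ▸ hsq)).1
    have huv : u ≠ v := (Nat.coprime_primes hu hv).mp hco
    rcases lt_or_gt_of_ne huv with h | h
    · exact ⟨u, v, hu, hv, h, hD, A5_two n hn hsq K e he hspan hind hnorm h2 u v hu hv hD⟩
    · have hD' : n ^ 2 + 4 = v * u := by rw [hD, mul_comm]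
      exact ⟨v, u, hv, hu, h, hD', A5_two n hn hsq K e he hspan hind hnorm h2 v u hv hu hD'⟩
  · exfalso
    obtain ⟨w, hw, M, hM⟩ := Nat.exists_prime_and_dvd hm2
    exact A5_not_three n hn hsq K e he hspan hind hnorm h2 u v w M hu hv hw
      (by rw [hm, hm', hM]; ring)

end Pool.Agent.Lib.MP_15cb89_nt
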