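import Pool.Agent.Lib.MP_15cb89_nt.Defs

/-! The ring of integers for `D = n^2 + 4` and the number of principal ideals of given norm. -/

set_option autoImplicit false

namespace Pool.Agent.Lib.MP_15cb89_nt

open Finset NumberField

theorem A1_int_of_sq {D : ℕ} (hD : Squarefree D) {b : ℚ} {m : ℤ} (h : (D : ℚ) * b ^ 2 = m) :
    ∃ y : ℤ, b = y := by
  have h1 : (D : ℤ) * b.num ^ 2 = m * (b.den : ℤ) ^ 2 := by
    have : (b.num : ℚ) = b * b.den := (Rat.mul_den_eq_num b).symm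
    exact_mod_cast (by rw [this, ← h]; ring : (D : ℚ) * (b.num : ℚ) ^ 2 = m * (b.den : ℚ) ^ 2)
  have h2 : b.den ^ 2 ∣ D * b.num.natAbs ^ 2 := by
    have := congrArg Int.natAbs h1
    simp only [Int.natAbs_mul, Int.natAbs_pow, Int.natAbs_natCast] at this
    exact this ▸ Dvd.intro_left _ rfl
  have h3 := hD b.den (by
    rw [← sq]; exact (Nat.Coprime.pow 2 2 b.reduced.symm).dvd_of_dvd_mul_right h2)
  exact ⟨b.num, ((Rat.den_eq_one_iff b).1 (Nat.isUnit_iff.1 h3)).symm⟩

theorem A1_basis (n : ℕ) (hn : 0 < n) (hsq : Squarefree (n ^ 2 + 4))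
    (K : Type) [Field K] [NumberField K] (hK : Module.finrank ℚ K = 2)
    (hx : ∃ x : K, x ^ 2 = ((n ^ 2 + 4 : ℕ) : K)) :
    ∃ e : 𝓞 K, e ^ 2 = (n : 𝓞 K) * e + 1 ∧
      (∀ α : 𝓞 K, ∃ x y : ℤ, α = (x : 𝓞 K) + (y : 𝓞 K) * e) ∧
      (∀ x y : ℤ, (x : 𝓞 K) + (y : 𝓞 K) * e = 0 → x = 0 ∧ y = 0) ∧
      (∀ x y : ℤ, Algebra.norm ℤ ((x : 𝓞 K) + (y : 𝓞 K) * e) = x ^ 2 + n * x * y - y ^ 2) := by
  obtain ⟨x, hx⟩ := hx
  obtain ⟨e, he⟩ : ∃ e : K, e ^ 2 = n * e + 1 :=
    ⟨(n + x) / 2, by push_cast at hx; linear_combination hx / 4⟩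
  have hint : IsIntegral ℤ e := by
    refine ⟨Polynomial.X ^ 2 - (Polynomial.C (n : ℤ) * Polynomial.X + 1), ?_, ?_⟩
    · refine Polynomial.monic_X_pow_sub (lt_of_le_of_lt (b := 1) ?_ (by norm_num))
      compute_degree
    · simp [he]
  have hind : ∀ a b : ℚ, (a : K) + b * e = 0 → a = 0 ∧ b = 0 := by
    intro a b h
    by_cases hb : b = 0
    · subst hb; exact ⟨by simpa using h, rfl⟩
    exfalso
    have hb' : (b : K) ≠ 0 := by exact_mod_cast hb
    have h1 : e = ((-a / b : ℚ) : K) := by push_cast; field_simp; linear_combination h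
    have h2 : (-a / b) ^ 2 = n * (-a / b) + 1 := by rw [h1] at he; exact_mod_cast he
    have h3 : IsSquare ((n ^ 2 + 4 : ℕ) : ℚ) :=
      ⟨2 * (-a / b) - n, by push_cast; linear_combination -4 * h2⟩
    obtain ⟨m, hm⟩ := Rat.isSquare_natCast_iff.1 h3
    have := Nat.isUnit_iff.1 (hsq m (hm ▸ dvd_rfl))
    subst this
    omega
  have hli : LinearIndependent ℚ ![(1 : K), e] := by
    rw [LinearIndependent.pair_iff]
    intro a b h
    exact hind a b (by simpa [Rat.smul_def] using h)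
  let B := basisOfLinearIndependentOfCardEqFinrank hli (by simp [hK])
  have B0 : B 0 = 1 := by simp [B]
  have B1 : B 1 = e := by simp [B]
  have rep : ∀ a b : ℚ, B.repr ((a : K) + b * e) = Finsupp.single 0 a + Finsupp.single 1 b := by
    intro a b
    have : (a : K) + b * e = a • B 0 + b • B 1 := by simp [B0, B1, Rat.smul_def]
    rw [this]; simp
  have mat : ∀ a b : ℚ, Algebra.leftMulMatrix B ((a : K) + b * e) = !![a, b; b, a + n * b] := by
    intro a b
    have m1 : ((a : K) + b * e) * e = (b : K) + ((a + n * b : ℚ) : K) * e := by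
      push_cast; linear_combination b * he
    ext i j
    rw [Algebra.leftMulMatrix_eq_repr_mul]
    fin_cases j
    · simp only [Fin.zero_eta, B0, mul_one, rep]; fin_cases i <;> simp
    · simp only [Fin.mk_one, B1, m1, rep]; fin_cases i <;> simp
  have nrm : ∀ a b : ℚ, Algebra.norm ℚ ((a : K) + b * e) = a ^ 2 + n * a * b - b ^ 2 := by
    intro a b
    rw [Algebra.norm_eq_matrix_det B, mat, Matrix.det_fin_two_of]; ring
  have trc : ∀ a b : ℚ, Algebra.trace ℚ K ((a : K) + b * e) = 2 * a + n * b := by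
    intro a b
    rw [Algebra.trace_eq_matrix_trace B, mat, Matrix.trace_fin_two_of]; ring
  refine ⟨⟨e, hint⟩, RingOfIntegers.ext (by simpa using he), fun α => ?_, fun x y h => ?_,
    fun x y => ?_⟩
  · obtain ⟨a, b, hab⟩ : ∃ a b : ℚ, (α : K) = a + b * e :=
      ⟨B.repr α 0, B.repr α 1, by
        conv_lhs => rw [← B.sum_repr α]
        simp [B0, B1, Rat.smul_def]⟩
    obtain ⟨T, hT⟩ := IsIntegrallyClosed.isIntegral_iff.1
      (Algebra.isIntegral_trace (L := ℚ) (RingOfIntegers.isIntegral_coe α))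
    obtain ⟨N, hN⟩ := IsIntegrallyClosed.isIntegral_iff.1
      (Algebra.isIntegral_norm ℚ (RingOfIntegers.isIntegral_coe α))
    change _ = Algebra.trace ℚ K (α : K) at hT
    change _ = Algebra.norm ℚ (α : K) at hN
    rw [hab, trc, eq_intCast] at hT
    rw [hab, nrm, eq_intCast] at hN
    obtain ⟨y, rfl⟩ := A1_int_of_sq hsq (b := b) (m := T ^ 2 - 4 * N)
      (by push_cast; rw [hT, hN]; ring)
    have h1 : (T - n * y) ^ 2 + 2 * (n * y * (T - n * y)) = 2 * (2 * N + 2 * y ^ 2) := by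
      exact_mod_cast (by rw [hT, hN]; ring : ((T : ℚ) - n * y) ^ 2 + 2 * (n * y * (T - n * y)) =
        2 * (2 * N + 2 * y ^ 2))
    obtain ⟨z, hz⟩ : Even (T - n * y) := (Int.even_pow' two_ne_zero).1
      ⟨2 * N + 2 * y ^ 2 - n * y * (T - n * y), by linear_combination h1⟩
    have h2 : a = z := by
      have : (T : ℚ) - n * y = z + z := by exact_mod_cast hz
      linear_combination (this - hT) / 2
    exact ⟨z, y, RingOfIntegers.ext (by simpa [h2] using hab)⟩
  · have := hind x y (by simpa using congrArg (fun z : 𝓞 K => (z : K)) h)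
    exact_mod_cast this
  · have := Algebra.coe_norm_int ((x : 𝓞 K) + (y : 𝓞 K) * ⟨e, hint⟩)
    have h2 := nrm x y
    push_cast at h2
    simp only [map_add, map_intCast, map_mul, RingOfIntegers.map_mk] at this
    exact_mod_cast this.trans h2

section

variable {O : Type} [CommRing O] {n : ℕ} {e : O}

theorem A2_descent (he : e ^ 2 = (n : O) * e + 1) (hn : 0 < n) (m : ℕ) :
    ∀ x y : ℤ, 0 < x → x ≤ m → 0 < x ^ 2 + n * x * y - y ^ 2 → ∃ (i k : ℕ) (s t : ℤ), 0 < s ∧
      0 ≤ t ∧ t < n * s ∧ s ^ 2 + n * s * t - t ^ 2 = x ^ 2 + n * x * y - y ^ 2 ∧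
      ((x : O) + y * e) * (e ^ 2) ^ i = ((s : O) + t * e) * (e ^ 2) ^ k := by
  induction m with
  | zero => intro x y h1 h2; omega
  | succ m ih =>
    intro x y h1 h2 h3
    have hn' : (1 : ℤ) ≤ n := by exact_mod_cast hn
    rcases lt_or_ge y 0 with hy | hy
    · obtain ⟨i, k, s, t, a1, a2, a3, a4, a5⟩ := ih (x + n * y) (y + n * (x + n * y))
        (by nlinarith) (by push_cast at h2; nlinarith) (by linarith)
      refine ⟨i + 1, k, s, t, a1, a2, a3, by linarith, ?_⟩
      rw [← a5, pow_succ' (e ^ 2), ← mul_assoc]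
      congr 1
      push_cast
      linear_combination (x + y * (e + n)) * he
    rcases lt_trichotomy y (n * x) with hy' | hy' | hy'
    · exact ⟨0, 0, x, y, h1, hy, hy', rfl, rfl⟩
    · refine ⟨0, 1, x, 0, h1, le_rfl, by nlinarith, by rw [hy']; ring, ?_⟩
      rw [hy']
      push_cast
      linear_combination (-x) * he
    · obtain ⟨i, k, s, t, a1, a2, a3, a4, a5⟩ := ih (x - n * (y - n * x)) (y - n * x)
        (by nlinarith [mul_pos (sub_pos.2 hy') (sub_pos.2 hy')]) (by push_cast at h2; nlinarith)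
        (by linarith)
      refine ⟨i, k + 1, s, t, a1, a2, a3, by linarith, ?_⟩
      rw [pow_succ (e ^ 2), ← mul_assoc, ← a5, mul_right_comm]
      congr 1
      push_cast
      linear_combination (-(x + (y - n * x) * e)) * he

theorem A2_pos (he : e ^ 2 = (n : O) * e + 1) {x y : ℤ} (hx : 0 < x) (hy : 0 ≤ y) (j : ℕ) :
    ∃ s t : ℤ, 0 < s ∧ n * s ≤ t ∧ ((x : O) + y * e) * (e ^ 2) ^ (j + 1) = s + t * e := by
  have step : ∀ x y : ℤ, ((x : O) + y * e) * e ^ 2 =
      ((x + n * y : ℤ) : O) + ((y + n * (x + n * y) : ℤ) : O) * e := fun x y => by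
    push_cast
    linear_combination (x + y * (e + n)) * he
  induction j with
  | zero =>
    exact ⟨x + n * y, y + n * (x + n * y), by positivity, by linarith,
      by rw [zero_add, pow_one, step]⟩
  | succ j ih =>
    obtain ⟨s, t, h1, h2, h3⟩ := ih
    have : 0 ≤ t := le_trans (by positivity) h2
    exact ⟨s + n * t, t + n * (s + n * t), by positivity, by linarith,
      by rw [pow_succ, ← mul_assoc, h3, step]⟩

theorem A2_uniq (he : e ^ 2 = (n : O) * e + 1)
    (hind : ∀ x y : ℤ, (x : O) + (y : O) * e = 0 → x = 0 ∧ y = 0) {x y s t c : ℤ}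
    (hx : 0 < x) (hy : 0 ≤ y) (hs : 0 < s) (ht : t < n * s) (hc : c = 1 ∨ c = -1) (j : ℕ)
    (h : (c : O) * (s + t * e) = (x + y * e) * (e ^ 2) ^ j) : s = x ∧ t = y := by
  cases j with
  | zero =>
    have := hind (c * s - x) (c * t - y) (by push_cast; linear_combination h)
    rcases hc with rfl | rfl <;> omega
  | succ j =>
    obtain ⟨u, v, h1, h2, h3⟩ := A2_pos he hx hy j
    have := hind (c * s - u) (c * t - v) (by push_cast; linear_combination h + h3)
    rcases hc with rfl | rfl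
    · obtain ⟨a, b⟩ := this
      have a' : s = u := by omega
      have b' : t = v := by omega
      rw [a', b'] at ht
      omega
    · omega

end

open Classical in
theorem A2_principal_count (n : ℕ) (hn : 0 < n)
    (K : Type) [Field K] [NumberField K] (e : 𝓞 K) (he : e ^ 2 = (n : 𝓞 K) * e + 1)
    (hspan : ∀ α : 𝓞 K, ∃ x y : ℤ, α = (x : 𝓞 K) + (y : 𝓞 K) * e)
    (hind : ∀ x y : ℤ, (x : 𝓞 K) + (y : 𝓞 K) * e = 0 → x = 0 ∧ y = 0)
    (hnorm : ∀ x y : ℤ, Algebra.norm ℤ ((x : 𝓞 K) + (y : 𝓞 K) * e) = x ^ 2 + n * x * y - y ^ 2)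
    (a : ℕ) (ha : 0 < a) :
    (((Ideal.finite_setOfPred_absNorm_eq (S := 𝓞 K) a).toFinset).filter
      (fun I => Submodule.IsPrincipal I)).card = rP n a := by
  have ue : IsUnit e := IsUnit.of_mul_eq_one (e - n) (by linear_combination he)
  have ue2 : ∀ j : ℕ, IsUnit ((e ^ 2) ^ j) := fun j => (ue.pow 2).pow j
  have desc : ∀ x y : ℤ, 0 < x ^ 2 + n * x * y - y ^ 2 → ∃ (c : ℤ) (i k : ℕ) (s t : ℤ),
      (c = 1 ∨ c = -1) ∧ 0 < s ∧ 0 ≤ t ∧ t < n * s ∧
      s ^ 2 + n * s * t - t ^ 2 = x ^ 2 + n * x * y - y ^ 2 ∧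
      (c : 𝓞 K) * (x + y * e) * (e ^ 2) ^ i = (s + t * e) * (e ^ 2) ^ k := by
    intro x y h
    rcases lt_trichotomy x 0 with hx | hx | hx
    · obtain ⟨i, k, s, t, a1, a2, a3, a4, a5⟩ := A2_descent he hn (-x).toNat (-x) (-y) (by omega)
        (by omega) (by linarith)
      exact ⟨-1, i, k, s, t, Or.inr rfl, a1, a2, a3, by linarith, by rw [← a5]; push_cast; ring⟩
    · subst hx; nlinarith
    · obtain ⟨i, k, s, t, a1, a2, a3, a4, a5⟩ := A2_descent he hn x.toNat x y hx (by omega) h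
      exact ⟨1, i, k, s, t, Or.inl rfl, a1, a2, a3, a4, by rw [← a5]; push_cast; ring⟩
  have mem : ∀ v : ℕ × ℕ, v ∈ (range (a + 1) ×ˢ range (n * a + 1)).filter
      (fun v : ℕ × ℕ => 0 < v.1 ∧ v.2 < n * v.1 ∧ v.1 ^ 2 + n * v.1 * v.2 = a + v.2 ^ 2) ↔
      (0 : ℤ) < v.1 ∧ (v.2 : ℤ) < n * v.1 ∧ (v.1 : ℤ) ^ 2 + n * v.1 * v.2 - v.2 ^ 2 = a := by
    rintro ⟨x, y⟩
    simp only [mem_filter, mem_product, mem_range]
    constructor
    · rintro ⟨-, h1, h2, h3⟩
      zify at h1 h2 h3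
      exact ⟨h1, h2, by linarith⟩
    · rintro ⟨h1, h2, h3⟩
      have h4 : x ≤ a := by zify; nlinarith [mul_nonneg (Int.natCast_nonneg y) (sub_pos.2 h2).le]
      have h5 : y < n * x := by exact_mod_cast h2
      have h6 := Nat.mul_le_mul_left n h4
      exact ⟨⟨by omega, by omega⟩, by exact_mod_cast h1, h5, by zify; linarith⟩
  symm
  refine card_bij (fun v _ => Ideal.span {((v.1 : ℤ) : 𝓞 K) + ((v.2 : ℤ) : 𝓞 K) * e}) ?_ ?_ ?_
  · intro v hv
    rw [mem_filter, Set.Finite.mem_toFinset]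
    refine ⟨?_, ⟨_, rfl⟩⟩
    rw [Set.mem_ofPred_eq, Ideal.absNorm_span_singleton, hnorm, ((mem v).1 hv).2.2,
      Int.natAbs_natCast]
  · intro v hv w hw h
    obtain ⟨v1, v2, v3⟩ := (mem v).1 hv
    obtain ⟨w1, w2, w3⟩ := (mem w).1 hw
    obtain ⟨u, hu⟩ := Ideal.span_singleton_eq_span_singleton.1 h
    obtain ⟨p, q, hpq⟩ := hspan u
    have n1 : p ^ 2 + n * p * q - q ^ 2 = 1 := by
      have := congrArg (Algebra.norm ℤ) hu
      rw [map_mul, hpq, hnorm, hnorm, hnorm, v3, w3] at this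
      exact mul_left_cancel₀ (a := (a : ℤ)) (by omega) (by rw [this, mul_one])
    obtain ⟨c, i, k, s, t, a0, a1, a2, a3, a4, a5⟩ := desc p q (by omega)
    have s1 : s = 1 := by nlinarith [mul_nonneg a2 (sub_pos.2 a3).le]
    subst s1
    have t0 : t = 0 := by
      by_contra h
      nlinarith [mul_pos (lt_of_le_of_ne a2 (Ne.symm h)) (sub_pos.2 a3)]
    subst t0
    rw [← hpq] at a5
    have c2 : (c : 𝓞 K) * c = 1 := by rcases a0 with rfl | rfl <;> simp
    rcases le_total i k with hik | hik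
    · obtain ⟨j, rfl⟩ := Nat.exists_eq_add_of_le hik
      have := A2_uniq he hind (t := (w.2 : ℤ)) v1 (Int.natCast_nonneg v.2) w1 w2 a0 j
        ((ue2 i).mul_right_cancel (by
          rw [← hu]
          push_cast at a5 ⊢
          linear_combination ((v.1 : 𝓞 K) + v.2 * e) * a5))
      exact Prod.ext (by omega) (by omega)
    · obtain ⟨j, rfl⟩ := Nat.exists_eq_add_of_le hik
      have := A2_uniq he hind (t := (v.2 : ℤ)) w1 (Int.natCast_nonneg w.2) v1 v2 a0 j
        ((ue2 k).mul_right_cancel (by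
          rw [← hu]
          push_cast at a5 ⊢
          linear_combination (-c * ((v.1 : 𝓞 K) + v.2 * e)) * a5 +
            ((v.1 : 𝓞 K) + v.2 * e) * u * (e ^ 2) ^ (k + j) * c2))
      exact Prod.ext (by omega) (by omega)
  · intro I hI
    rw [mem_filter, Set.Finite.mem_toFinset] at hI
    obtain ⟨h1, α, rfl⟩ := hI
    obtain ⟨x, y, β, hβ, h2⟩ : ∃ (x y : ℤ) (β : 𝓞 K), IsUnit β ∧ α * β = x + y * e ∧
        x ^ 2 + n * x * y - y ^ 2 = a := by
      obtain ⟨x, y, rfl⟩ := hspan α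
      rw [Set.mem_ofPred_eq, Ideal.submodule_span_eq, Ideal.absNorm_span_singleton, hnorm] at h1
      rcases Int.natAbs_eq_iff.1 h1 with h | h
      · exact ⟨x, y, 1, isUnit_one, mul_one _, h⟩
      · exact ⟨y, x + n * y, e, ue, by push_cast; linear_combination y * he, by linarith⟩
    obtain ⟨c, i, k, s, t, a0, a1, a2, a3, a4, a5⟩ := desc x y (by omega)
    lift s to ℕ using a1.le
    lift t to ℕ using a2
    refine ⟨(s, t), (mem _).2 ⟨a1, a3, a4.trans h2.2⟩, ?_⟩
    have uc : IsUnit (c : 𝓞 K) := by rcases a0 with rfl | rfl <;> simp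
    rw [← Ideal.span_singleton_mul_right_unit (ue2 k), ← a5,
      Ideal.span_singleton_mul_right_unit (ue2 i), Ideal.span_singleton_mul_left_unit uc, ← h2.1,
      Ideal.span_singleton_mul_right_unit hβ]

end Pool.Agent.Lib.MP_15cb89_nt
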