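import Mathlib

/-! Integral Stickelberger type functionals and their distribution relations. -/

set_option autoImplicit false

namespace Pool.Agent.Lib.MP_15cb89_nt

open Finset

def xi (κ : ℤ → ℤ) (d N : ℕ) (c : ℤ) : ℤ := ∑ j ∈ range d, (j : ℤ) * κ (c + N * j)

def LL (κ : ℤ → ℤ) (d N : ℕ) (g : ℤ → ℤ) : ℤ := ∑ c ∈ range N, g c * xi κ d N c

def Per (φ : ℤ → ℤ) (d : ℕ) : Prop := ∀ t, φ (t + d) = φ t

structure OddCh (κ : ℤ → ℤ) (d : ℕ) : Prop where
  per : Per κ d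
  odd : ∀ t, κ (-t) = -κ t
  mul : ∀ s t, κ (s * t) = κ s * κ t

theorem Per.add_mul {φ : ℤ → ℤ} {d : ℕ} (h : Per φ d) (t k : ℤ) : φ (t + d * k) = φ t := by
  have hp : Function.Periodic φ (d : ℤ) := h
  have := hp.int_mul k t
  rwa [mul_comm] at this

theorem Per.of_dvd {φ : ℤ → ℤ} {d e : ℕ} (h : Per φ d) (hde : d ∣ e) : Per φ e := by
  obtain ⟨k, rfl⟩ := hde
  intro t
  have := h.add_mul t k
  push_cast; exact this

theorem Per.mul {φ ψ : ℤ → ℤ} {d : ℕ} (h : Per φ d) (h' : Per ψ d) :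
    Per (fun t => φ t * ψ t) d := fun t => by simp only [h t, h' t]

theorem Per.comp_mul {φ : ℤ → ℤ} {d : ℕ} (h : Per φ d) (b : ℤ) : Per (fun t => φ (b * t)) d :=
  fun t => by
    have := h.add_mul (b * t) b
    simp only [mul_add]
    rw [mul_comm b d]; exact this

theorem Per.of_modEq {φ : ℤ → ℤ} {d : ℕ} (h : Per φ d) {s t : ℤ} (hst : s ≡ t [ZMOD d]) :
    φ s = φ t := by
  obtain ⟨k, hk⟩ := hst.dvd
  have : t = s + d * k := by linarith
  rw [this, h.add_mul]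

theorem sum_range_mul_split {β : Type} [AddCommMonoid β] (φ : ℕ → β) (N d : ℕ) :
    ∑ t ∈ range (N * d), φ t = ∑ c ∈ range N, ∑ j ∈ range d, φ (c + N * j) := by
  induction d with
  | zero => simp
  | succ k ih =>
    rw [Nat.mul_succ, sum_range_add, ih]
    simp only [sum_range_succ, sum_add_distrib]
    congr 1
    exact sum_congr rfl fun c _ => by rw [add_comm]

theorem sum_range_zmod {β : Type} [AddCommMonoid β] (d : ℕ) [NeZero d] (ψ : ZMod d → β) :
    ∑ j ∈ range d, ψ (j : ZMod d) = ∑ x : ZMod d, ψ x := by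
  refine sum_bij' (fun j _ => (j : ZMod d)) (fun x _ => x.val) ?_ ?_ ?_ ?_ ?_
  · intro _ _; exact mem_univ _
  · intro x _; exact mem_range.mpr (ZMod.val_lt x)
  · intro j hj; exact ZMod.val_cast_of_lt (mem_range.mp hj)
  · intro x _; exact ZMod.natCast_zmod_val x
  · intro _ _; rfl

theorem Per.lift {φ : ℤ → ℤ} {d : ℕ} [NeZero d] (h : Per φ d) (t : ℤ) :
    φ t = φ (((t : ZMod d).val : ℕ) : ℤ) := by
  refine h.of_modEq ?_
  rw [← ZMod.intCast_eq_intCast_iff]
  simp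

theorem sum_ap {φ : ℤ → ℤ} {d N : ℕ} (hd : 0 < d) (h : Per φ d) (hc : Nat.Coprime N d) (c : ℤ) :
    ∑ j ∈ range d, φ (c + N * j) = ∑ j ∈ range d, φ j := by
  have : NeZero d := ⟨hd.ne'⟩
  let ψ : ZMod d → ℤ := fun x => φ ((x.val : ℕ) : ℤ)
  have h1 : ∀ t : ℤ, φ t = ψ (t : ZMod d) := fun t => h.lift t
  simp only [h1]
  push_cast
  rw [sum_range_zmod d (fun x => ψ ((c : ZMod d) + N * x)), sum_range_zmod d ψ]
  let u := ZMod.unitOfCoprime N hc
  have := Equiv.sum_comp ((u.mulLeft).trans (Equiv.addLeft (c : ZMod d))) ψ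
  simpa [u] using this

theorem sum_odd {φ : ℤ → ℤ} {d : ℕ} (hd : 0 < d) (h : Per φ d) (ho : ∀ t, φ (-t) = -φ t) :
    ∑ j ∈ range d, φ j = 0 := by
  have : NeZero d := ⟨hd.ne'⟩
  let ψ : ZMod d → ℤ := fun x => φ ((x.val : ℕ) : ℤ)
  have h1 : ∀ t : ℤ, φ t = ψ (t : ZMod d) := fun t => h.lift t
  have h2 : ∀ x, ψ (-x) = -ψ x := by
    intro x
    have := ho ((x.val : ℕ) : ℤ)
    rw [h1, h1] at this
    simpa using this
  simp only [h1]
  push_cast
  rw [sum_range_zmod d ψ]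
  have := Equiv.sum_comp (Equiv.neg (ZMod d)) ψ
  simp only [Equiv.neg_apply, h2, sum_neg_distrib] at this
  linarith

theorem OddCh.zero_sum {κ : ℤ → ℤ} {d N : ℕ} (h : OddCh κ d) (hd : 0 < d) (hc : Nat.Coprime N d)
    (c : ℤ) : ∑ j ∈ range d, κ (c + N * j) = 0 := by
  rw [sum_ap hd h.per hc, sum_odd hd h.per h.odd]

theorem lam_eq {κ g : ℤ → ℤ} {d N : ℕ} (hz : ∀ c : ℤ, ∑ j ∈ range d, κ (c + N * j) = 0)
    (hg : Per g N) :
    ∑ t ∈ range (N * d), (t : ℤ) * (κ t * g t) = N * LL κ d N g := by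
  rw [sum_range_mul_split (fun t => (t : ℤ) * (κ t * g t)), LL, mul_sum]
  refine sum_congr rfl fun c _ => ?_
  have : ∀ j : ℕ, (((c + N * j : ℕ) : ℤ)) * (κ ((c + N * j : ℕ) : ℤ) * g ((c + N * j : ℕ) : ℤ)) =
      g c * c * κ (c + N * j) + N * (g c * (j * κ (c + N * j))) := by
    intro j
    push_cast
    rw [hg.add_mul]; ring
  simp only [this, sum_add_distrib, ← mul_sum, hz, xi]
  ring

theorem lam_zero {κ g : ℤ → ℤ} {d N : ℕ} (hz : ∀ c : ℤ, ∑ j ∈ range d, κ (c + N * j) = 0)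
    (hg : Per g N) : ∑ t ∈ range (N * d), κ t * g t = 0 := by
  rw [sum_range_mul_split (fun t => κ t * g t)]
  refine sum_eq_zero fun c _ => ?_
  have : ∀ j : ℕ, κ ((c + N * j : ℕ) : ℤ) * g ((c + N * j : ℕ) : ℤ) = g c * κ (c + N * j) := by
    intro j
    push_cast
    rw [hg.add_mul]; ring
  simp only [this, ← mul_sum, hz, mul_zero]

theorem lam_multi {ψ : ℤ → ℤ} {L : ℕ} (h : Per ψ L) (hz : ∑ t ∈ range L, ψ t = 0) (m : ℕ) :
    ∑ t ∈ range (L * m), (t : ℤ) * ψ t = m * ∑ t ∈ range L, (t : ℤ) * ψ t := by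
  rw [sum_range_mul_split (fun t => (t : ℤ) * ψ t), sum_comm]
  have : ∀ j c : ℕ, (((c + L * j : ℕ) : ℤ)) * ψ ((c + L * j : ℕ) : ℤ) =
      c * ψ c + L * j * ψ c := by
    intro j c
    push_cast
    rw [h.add_mul]; ring
  simp only [this, sum_add_distrib, ← mul_sum, hz, mul_zero, add_zero, sum_const, card_range,
    nsmul_eq_mul]

/-- Independence of the level. -/
theorem LL_level {κ g : ℤ → ℤ} {d N m : ℕ} (h : OddCh κ d) (hd : 0 < d) (hN : 0 < N) (hm : 0 < m)
    (hc : Nat.Coprime (m * N) d) (hg : Per g N) : LL κ d (m * N) g = LL κ d N g := by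
  have hc' : Nat.Coprime N d := Nat.Coprime.coprime_mul_left hc
  have h1 := lam_eq (h.zero_sum hd hc) (hg.of_dvd (Dvd.intro_left m rfl))
  have h2 := lam_eq (h.zero_sum hd hc') hg
  have h3 := lam_multi (ψ := fun t => κ t * g t) (L := N * d)
    ((h.per.of_dvd (Dvd.intro_left N rfl)).mul (hg.of_dvd (Dvd.intro d rfl)))
    (lam_zero (h.zero_sum hd hc') hg) m
  rw [show m * N * d = N * d * m by ring, h3, h2] at h1
  have : ((m * N : ℕ) : ℤ) ≠ 0 := by positivity
  apply mul_left_cancel₀ this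
  rw [← h1]; push_cast; ring

/-- Change of the modulus of the character. -/
theorem xi_modulus {κ : ℤ → ℤ} {d N : ℕ} (h : OddCh κ d) (hd : 0 < d) (hc : Nat.Coprime N d)
    (e : ℕ) (c : ℤ) : xi κ (d * e) N c = e * xi κ d N c := by
  unfold xi
  refine lam_multi (ψ := fun t => κ (c + N * t)) ?_ (h.zero_sum hd hc c) e
  intro t
  have := h.per.add_mul (c + N * t) N
  simp only [mul_add]
  rw [← this]; congr 1; ring

/-- The indicator of integers not divisible by `b`. -/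
def ub (b : ℕ) (t : ℤ) : ℤ := if (b : ℤ) ∣ t then 0 else 1

theorem ub_per (b : ℕ) : Per (ub b) b := fun t => by
  unfold ub
  simp only [dvd_add_left (dvd_refl (b : ℤ))]

theorem ub_mul {b : ℕ} (hb : b.Prime) (s t : ℤ) : ub b (s * t) = ub b s * ub b t := by
  have hp : Prime (b : ℤ) := Nat.prime_iff_prime_int.mp hb
  unfold ub
  by_cases h1 : (b : ℤ) ∣ s
  · simp [h1, h1.mul_right]
  · by_cases h2 : (b : ℤ) ∣ t
    · simp [h2, h2.mul_left]
    · have : ¬ (b : ℤ) ∣ s * t := fun h => (hp.dvd_or_dvd h).elim h1 h2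
      simp [h1, h2, this]

/-- Removal of an Euler factor. -/
theorem LL_remove {κ g : ℤ → ℤ} {d N m b : ℕ} (h : OddCh κ d) (hd : 0 < d) (hN : 0 < N)
    (hm : 0 < m) (hbm : b ∣ m) (hc : Nat.Coprime (m * N) d) (hg : Per g N) :
    LL κ d (m * N) (fun t => g t * ub b t) =
      LL κ d N g - κ b * LL κ d N (fun t => g (b * t)) := by
  obtain ⟨m', rfl⟩ := hbm
  have hb : 0 < b := Nat.pos_of_mul_pos_right hm
  have hm' : 0 < m' := Nat.pos_of_mul_pos_left hm
  have hc' : Nat.Coprime (m' * N) d := by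
    rw [mul_assoc] at hc; exact Nat.Coprime.coprime_mul_left hc
  have hgM : Per g (b * m' * N) := hg.of_dvd (Dvd.intro_left _ rfl)
  have h1 := lam_eq (h.zero_sum hd hc) (hgM.mul ((ub_per b).of_dvd ⟨m' * N, by ring⟩))
  have h2 := lam_eq (h.zero_sum hd hc) hgM
  have h3 := lam_eq (h.zero_sum hd hc') ((hg.comp_mul b).of_dvd (Dvd.intro_left m' rfl))
  rw [LL_level h hd hN hm hc hg] at h2
  rw [LL_level h hd hN hm' hc' (hg.comp_mul b)] at h3
  have h4 : ∑ t ∈ range (b * m' * N * d), (t : ℤ) * (κ t * (g t * ub b t)) =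
      ∑ t ∈ range (b * m' * N * d), (t : ℤ) * (κ t * g t) -
        b * κ b * ∑ t ∈ range (m' * N * d), (t : ℤ) * (κ t * g (b * t)) := by
    rw [show b * m' * N * d = b * (m' * N * d) by ring,
      sum_range_mul_split (fun t => (t : ℤ) * (κ t * (g t * ub b t))),
      sum_range_mul_split (fun t => (t : ℤ) * (κ t * g t)), eq_sub_iff_add_eq]
    obtain ⟨b', rfl⟩ : ∃ b', b = b' + 1 := ⟨b - 1, by omega⟩
    rw [sum_range_succ', sum_range_succ', add_assoc]
    congr 1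
    · refine sum_congr rfl fun c hc => sum_congr rfl fun j _ => ?_
      have : ub (b' + 1) ((c + 1 + (b' + 1) * j : ℕ) : ℤ) = 1 := by
        unfold ub
        rw [if_neg]
        intro hdiv
        have h5 : (b' + 1) ∣ c + 1 + (b' + 1) * j := by exact_mod_cast hdiv
        have h6 := (Nat.dvd_add_left (Dvd.intro j rfl)).mp h5
        have := Nat.le_of_dvd (by omega) h6
        have := mem_range.mp hc
        omega
      rw [this, mul_one]
    · rw [mul_sum, ← sum_add_distrib]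
      refine sum_congr rfl fun j _ => ?_
      have : ub (b' + 1) ((0 + (b' + 1) * j : ℕ) : ℤ) = 0 := by
        unfold ub
        rw [if_pos]
        push_cast
        simp
      rw [this, zero_add]
      push_cast
      rw [h.mul]; ring
  rw [h4, h2, h3] at h1
  have : ((b * m' * N : ℕ) : ℤ) ≠ 0 := by positivity
  apply mul_left_cancel₀ this
  rw [← h1]; push_cast; ring

theorem LL_cast (κ : ℤ → ℤ) (d N : ℕ) (g : ℤ → ℤ) :
    ((LL κ d N g : ℤ) : ZMod 3) = ∑ c ∈ range N, (g c : ZMod 3) * (xi κ d N c : ZMod 3) := by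
  unfold LL; push_cast; rfl

end Pool.Agent.Lib.MP_15cb89_nt
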