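import Pool.Agent.Lib.MP_15cb89_nt.Enc

/-! Unrolled loops. -/

set_option autoImplicit false
set_option maxRecDepth 100000

namespace Pool.Agent.Lib.MP_15cb89_nt

def C1 : Ch := fun g z =>
  g 0 z

theorem C1_loop : IsLoop C1 1 := fun _ _ => rfl

def C4 : Ch := fun g z =>
  g 3 (g 2 (g 1 (g 0 z)))

theorem C4_loop : IsLoop C4 4 := fun _ _ => rfl

def C5 : Ch := fun g z =>
  g 4 (g 3 (g 2 (g 1 (g 0 z))))

theorem C5_loop : IsLoop C5 5 := fun _ _ => rfl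

def C7 : Ch := fun g z =>
  g 6 (g 5 (g 4 (g 3 (g 2 (g 1 (g 0 z))))))

theorem C7_loop : IsLoop C7 7 := fun _ _ => rfl

def C8 : Ch := fun g z =>
  g 7 (g 6 (g 5 (g 4 (g 3 (g 2 (g 1 (g 0 z)))))))

theorem C8_loop : IsLoop C8 8 := fun _ _ => rfl

def C9 : Ch := fun g z =>
  g 8 (g 7 (g 6 (g 5 (g 4 (g 3 (g 2 (g 1 (g 0 z))))))))

theorem C9_loop : IsLoop C9 9 := fun _ _ => rfl

def C11 : Ch := fun g z =>
  g 10 (g 9 (g 8 (g 7 (g 6 (g 5 (g 4 (g 3 (g 2 (g 1 (g 0 z))))))))))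

theorem C11_loop : IsLoop C11 11 := fun _ _ => rfl

def C13 : Ch := fun g z =>
  g 12 (g 11 (g 10 (g 9 (g 8 (g 7 (g 6 (g 5 (g 4 (g 3 (g 2 (g 1 (g 0 z))))))))))))

theorem C13_loop : IsLoop C13 13 := fun _ _ => rfl

def C19 : Ch := fun g z =>
  g 18 (g 17 (g 16 (g 15 (g 14 (g 13 (g 12 (g 11 (g 10 (g 9 (g 8 (g 7 (g 6 (g 5 (g 4 (g 3 (g 2 (g
  1 (g 0 z))))))))))))))))))

theorem C19_loop : IsLoop C19 19 := fun _ _ => rfl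

def C23 : Ch := fun g z =>
  g 22 (g 21 (g 20 (g 19 (g 18 (g 17 (g 16 (g 15 (g 14 (g 13 (g 12 (g 11 (g 10 (g 9 (g 8 (g 7 (g 6
  (g 5 (g 4 (g 3 (g 2 (g 1 (g 0 z))))))))))))))))))))))

theorem C23_loop : IsLoop C23 23 := fun _ _ => rfl

def C31 : Ch := fun g z =>
  g 30 (g 29 (g 28 (g 27 (g 26 (g 25 (g 24 (g 23 (g 22 (g 21 (g 20 (g 19 (g 18 (g 17 (g 16 (g 15
  (g 14 (g 13 (g 12 (g 11 (g 10 (g 9 (g 8 (g 7 (g 6 (g 5 (g 4 (g 3 (g 2 (g 1 (g 0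
  z))))))))))))))))))))))))))))))

theorem C31_loop : IsLoop C31 31 := fun _ _ => rfl

def C43 : Ch := fun g z =>
  g 42 (g 41 (g 40 (g 39 (g 38 (g 37 (g 36 (g 35 (g 34 (g 33 (g 32 (g 31 (g 30 (g 29 (g 28 (g 27
  (g 26 (g 25 (g 24 (g 23 (g 22 (g 21 (g 20 (g 19 (g 18 (g 17 (g 16 (g 15 (g 14 (g 13 (g 12 (g 11
  (g 10 (g 9 (g 8 (g 7 (g 6 (g 5 (g 4 (g 3 (g 2 (g 1 (g 0
  z))))))))))))))))))))))))))))))))))))))))))

theorem C43_loop : IsLoop C43 43 := fun _ _ => rfl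


end Pool.Agent.Lib.MP_15cb89_nt
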