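import Pool.Agent.Lib.MP_15cb89_nt.Tab
import Pool.Agent.Lib.MP_15cb89_nt.Loops
import Pool.Agent.Lib.MP_15cb89_nt.Vals

/-! Kernel checks of the tables. -/

set_option autoImplicit false
set_option maxRecDepth 100000

namespace Pool.Agent.Lib.MP_15cb89_nt

theorem L32 : LevFact 4 5 1 9 43 V32 :=
  levFact_of ⟨C4, C43, C5, C9, 4, 43, 5, 9, 74⟩ 243
    0xf2000100
    0x100010102000201000102020200020201010000010102020002020201000102000201010001000000
    0x1f2f20100
    0x100020200010000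
    1 3 1 4 2 4 5 1 9 43 V32
    ⟨C4_loop, C43_loop, C5_loop, C9_loop⟩ (by decide +kernel)

theorem L22 : LevFact 7 1 1 31 43 V22 :=
  levFact_of ⟨C43, C1, C31, C7, 43, 1, 31, 7, 36⟩ 3
    0x100010102000201000102020200020201010000010102020002020201000102000201010001000000
    0x1
    0x100020101000202020102010000010201020202000101020001000000
    0x2020102010100
    4 1 1 3 1 7 1 1 31 43 V22
    ⟨C43_loop, C1_loop, C31_loop, C7_loop⟩ (by decide +kernel)

theorem L135 : LevFact 4 5 1 43 1 V135 :=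
  levFact_of ⟨C43, C1, C5, C4, 43, 1, 5, 4, 30⟩ 3
    0x100010102000201000102020200020201010000010102020002020201000102000201010001000000
    0x1
    0x102020100
    0x2000100
    4 3 1 1 1 4 5 1 43 1 V135
    ⟨C43_loop, C1_loop, C5_loop, C4_loop⟩ (by decide +kernel)

theorem L176 : LevFact 16 1 1 43 1 V176 :=
  levFact_of ⟨C43, C1, C8, C1, 43, 1, 8, 1, 27⟩ 3
    0x100010102000201000102020200020201010000010102020002020201000102000201010001000000
    0x1
    0x200020001000100
    0x1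
    3 1 1 1 1 16 1 1 43 1 V176
    ⟨C43_loop, C1_loop, C8_loop, C1_loop⟩ (by decide +kernel)

theorem L21 : LevFact 8 19 1 9 7 V21 :=
  levFact_of ⟨C8, C7, C19, C9, 8, 7, 19, 9, 74⟩ 243
    0x100f200f2000100
    0x20101020000
    0xf20101f2f2f2f201f201f201010101f2f20100
    0x100020200010000
    1 3 1 4 2 8 19 1 9 7 V21
    ⟨C8_loop, C7_loop, C19_loop, C9_loop⟩ (by decide +kernel)

theorem L162 : LevFact 11 1 1 43 1 V162 :=
  levFact_of ⟨C43, C1, C11, C1, 43, 1, 11, 1, 28⟩ 3
    0x100010102000201000102020200020201010000010102020002020201000102000201010001000000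
    0x1
    0x201020202010101020100
    0x1
    3 1 1 1 1 11 1 1 43 1 V162
    ⟨C43_loop, C1_loop, C11_loop, C1_loop⟩ (by decide +kernel)

theorem L66 : LevFact 19 1 1 7 31 V66 :=
  levFact_of ⟨C31, C1, C19, C7, 31, 1, 19, 7, 34⟩ 3
    0x100020101000202020102010000010201020202000101020001000000
    0x1
    0x2010102020202010201020101010102020100
    0x20101020000
    3 1 1 4 1 19 1 1 7 31 V66
    ⟨C31_loop, C1_loop, C19_loop, C7_loop⟩ (by decide +kernel)

theorem L29 : LevFact 5 7 1 13 19 V29 :=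
  levFact_of ⟨C5, C19, C13, C7, 5, 19, 13, 7, 36⟩ 3
    0x102020100
    0x10102010200000202000002010201010000
    0x10102000202000201010000
    0x2020102010100
    1 4 1 3 2 5 7 1 13 19 V29
    ⟨C5_loop, C19_loop, C13_loop, C7_loop⟩ (by decide +kernel)

theorem L129 : LevFact 23 1 1 43 1 V129 :=
  levFact_of ⟨C43, C1, C23, C1, 43, 1, 23, 1, 30⟩ 3
    0x100010102000201000102020200020201010000010102020002020201000102000201010001000000
    0x1
    0x202020201020102020101020201010201020101010100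
    0x1
    3 1 1 1 1 23 1 1 43 1 V129
    ⟨C43_loop, C1_loop, C23_loop, C1_loop⟩ (by decide +kernel)

theorem L179 : LevFact 7 1 1 43 1 V179 :=
  levFact_of ⟨C43, C1, C7, C1, 43, 1, 7, 1, 26⟩ 3
    0x100010102000201000102020200020201010000010102020002020201000102000201010001000000
    0x1
    0x2020102010100
    0x1
    3 1 1 1 1 7 1 1 43 1 V179
    ⟨C43_loop, C1_loop, C7_loop, C1_loop⟩ (by decide +kernel)

theorem L107 : LevFact 4 13 1 31 1 V107 :=
  levFact_of ⟨C31, C1, C13, C4, 31, 1, 13, 4, 31⟩ 3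
    0x100020101000202020102010000010201020202000101020001000000
    0x1
    0x1020101020202020101020100
    0x2000100
    4 3 1 1 1 4 13 1 31 1 V107
    ⟨C31_loop, C1_loop, C13_loop, C4_loop⟩ (by decide +kernel)

theorem L45 : LevFact 23 1 1 9 31 V45 :=
  levFact_of ⟨C9, C1, C31, C23, 9, 1, 31, 23, 73⟩ 243
    0x100020200010000
    0x1
    0x100020101000202020102010000010201020202000101020001000000
    0xf2f2f2f201f201f2f20101f2f20101f201f20101010100
    4 1 1 1 3 23 1 1 9 31 V45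
    ⟨C9_loop, C1_loop, C31_loop, C23_loop⟩ (by decide +kernel)

theorem L71 : LevFact 8 11 1 43 1 V71 :=
  levFact_of ⟨C43, C1, C11, C8, 43, 1, 11, 8, 34⟩ 3
    0x100010102000201000102020200020201010000010102020002020201000102000201010001000000
    0x1
    0x201020202010101020100
    0x100020002000100
    4 3 1 1 1 8 11 1 43 1 V71
    ⟨C43_loop, C1_loop, C11_loop, C8_loop⟩ (by decide +kernel)

theorem L67 : LevFact 5 7 1 9 13 V67 :=
  levFact_of ⟨C5, C7, C13, C9, 5, 7, 13, 9, 72⟩ 243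
    0x1f2f20100
    0xf2f201f2010100
    0x10102000202000201010000
    0x100020200010000
    1 2 1 4 3 5 7 1 9 13 V67
    ⟨C5_loop, C7_loop, C13_loop, C9_loop⟩ (by decide +kernel)

theorem L81 : LevFact 7 13 1 31 1 V81 :=
  levFact_of ⟨C31, C1, C13, C7, 31, 1, 13, 7, 33⟩ 3
    0x100020101000202020102010000010201020202000101020001000000
    0x1
    0x1020101020202020101020100
    0x2020102010100
    4 3 1 1 1 7 13 1 31 1 V81
    ⟨C31_loop, C1_loop, C13_loop, C7_loop⟩ (by decide +kernel)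

theorem L167 : LevFact 23 1 1 19 1 V167 :=
  levFact_of ⟨C23, C1, C19, C1, 23, 1, 19, 1, 28⟩ 3
    0x202020201020102020101020201010201020101010100
    0x1
    0x10102010200000202000002010201010000
    0x1
    1 1 1 3 1 23 1 1 19 1 V167
    ⟨C23_loop, C1_loop, C19_loop, C1_loop⟩ (by decide +kernel)

theorem L120 : LevFact 19 1 1 9 7 V120 :=
  levFact_of ⟨C19, C1, C9, C7, 19, 1, 9, 7, 68⟩ 243
    0xf20101f2f2f2f201f201f201010101f2f20100
    0x1
    0x100020200010000
    0x20101020000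
    1 1 1 3 4 19 1 1 9 7 V120
    ⟨C19_loop, C1_loop, C9_loop, C7_loop⟩ (by decide +kernel)

theorem L235 : LevFact 23 1 1 1 1 V235 :=
  levFact_of ⟨C23, C1, C1, C1, 23, 1, 1, 1, 19⟩ 3
    0x202020201020102020101020201010201020101010100
    0x1
    0x1
    0x1
    1 1 1 1 1 23 1 1 1 1 V235
    ⟨C23_loop, C1_loop, C1_loop, C1_loop⟩ (by decide +kernel)

theorem L101 : LevFact 4 5 1 7 13 V101 :=
  levFact_of ⟨C5, C13, C7, C4, 5, 13, 7, 4, 32⟩ 3
    0x102020100
    0x10102000202000201010000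
    0x20101020000
    0x2000100
    4 1 1 3 2 4 5 1 7 13 V101
    ⟨C5_loop, C13_loop, C7_loop, C4_loop⟩ (by decide +kernel)

theorem L127 : LevFact 11 13 1 7 1 V127 :=
  levFact_of ⟨C11, C1, C13, C7, 11, 1, 13, 7, 30⟩ 3
    0x201020202010101020100
    0x1
    0x1020101020202020101020100
    0x20101020000
    1 3 1 4 1 11 13 1 7 1 V127
    ⟨C11_loop, C1_loop, C13_loop, C7_loop⟩ (by decide +kernel)

theorem L206 : LevFact 19 1 1 7 1 V206 :=
  levFact_of ⟨C19, C1, C7, C1, 19, 1, 7, 1, 24⟩ 3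
    0x2010102020202010201020101010102020100
    0x1
    0x20101020000
    0x1
    1 1 1 3 1 19 1 1 7 1 V206
    ⟨C19_loop, C1_loop, C7_loop, C1_loop⟩ (by decide +kernel)

theorem L153 : LevFact 8 11 1 7 1 V153 :=
  levFact_of ⟨C8, C7, C11, C1, 8, 7, 11, 1, 29⟩ 3
    0x100020002000100
    0x20101020000
    0x201020202010101020100
    0x1
    1 3 1 2 1 8 11 1 7 1 V153
    ⟨C8_loop, C7_loop, C11_loop, C1_loop⟩ (by decide +kernel)

theorem L157 : LevFact 16 5 1 13 1 V157 :=
  levFact_of ⟨C13, C1, C8, C5, 13, 1, 8, 5, 28⟩ 3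
    0x10102000202000201010000
    0x1
    0x200020001000100
    0x102020100
    3 4 1 1 1 16 5 1 13 1 V157
    ⟨C13_loop, C1_loop, C8_loop, C5_loop⟩ (by decide +kernel)

theorem L185 : LevFact 4 5 1 13 1 V185 :=
  levFact_of ⟨C13, C1, C5, C4, 13, 1, 5, 4, 26⟩ 3
    0x10102000202000201010000
    0x1
    0x102020100
    0x2000100
    4 3 1 1 1 4 5 1 13 1 V185
    ⟨C13_loop, C1_loop, C5_loop, C4_loop⟩ (by decide +kernel)

theorem L217 : LevFact 8 11 1 1 1 V217 :=
  levFact_of ⟨C11, C1, C8, C1, 11, 1, 8, 1, 23⟩ 3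
    0x201020202010101020100
    0x1
    0x100020002000100
    0x1
    3 1 1 1 1 8 11 1 1 1 V217
    ⟨C11_loop, C1_loop, C8_loop, C1_loop⟩ (by decide +kernel)

theorem L224 : LevFact 5 11 1 1 1 V224 :=
  levFact_of ⟨C11, C1, C5, C1, 11, 1, 5, 1, 22⟩ 3
    0x201020202010101020100
    0x1
    0x102020100
    0x1
    3 1 1 1 1 5 11 1 1 1 V224
    ⟨C11_loop, C1_loop, C5_loop, C1_loop⟩ (by decide +kernel)

theorem L204 : LevFact 4 5 1 7 1 V204 :=
  levFact_of ⟨C5, C4, C7, C1, 5, 4, 7, 1, 24⟩ 3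
    0x102020100
    0x2000100
    0x20101020000
    0x1
    2 1 1 3 1 4 5 1 7 1 V204
    ⟨C5_loop, C4_loop, C7_loop, C1_loop⟩ (by decide +kernel)

theorem L146 : LevFact 8 7 13 1 1 V146 :=
  levFact_of ⟨C8, C13, C7, C1, 8, 13, 7, 1, 29⟩ 3
    0x100020002000100
    0x1020101020202020101020100
    0x2020102010100
    0x1
    1 3 2 1 1 8 7 13 1 1 V146
    ⟨C8_loop, C13_loop, C7_loop, C1_loop⟩ (by decide +kernel)

theorem L189 : LevFact 19 1 13 1 1 V189 :=
  levFact_of ⟨C13, C19, C1, C1, 13, 19, 1, 1, 26⟩ 3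
    0x1020101020202020101020100
    0x2010102020202010201020101010102020100
    0x1
    0x1
    2 1 1 1 1 19 1 13 1 1 V189
    ⟨C13_loop, C19_loop, C1_loop, C1_loop⟩ (by decide +kernel)

theorem L214 : LevFact 19 1 5 1 1 V214 :=
  levFact_of ⟨C5, C19, C1, C1, 5, 19, 1, 1, 23⟩ 3
    0x102020100
    0x2010102020202010201020101010102020100
    0x1
    0x1
    2 1 1 1 1 19 1 5 1 1 V214
    ⟨C5_loop, C19_loop, C1_loop, C1_loop⟩ (by decide +kernel)

end Pool.Agent.Lib.MP_15cb89_nt
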