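import Pool.Agent.Lib.MP_15cb89_nt.Tab
import Pool.Agent.Lib.MP_15cb89_nt.Loops
import Pool.Agent.Lib.MP_15cb89_nt.Vals

/-! Kernel checks of the tables. -/

set_option autoImplicit false
set_option maxRecDepth 100000

namespace Pool.Agent.Lib.MP_15cb89_nt

theorem L2 : LevFact 4 5 1 19 43 V2 :=
  levFact_of ⟨C5, C4, C43, C19, 5, 4, 43, 19, 38⟩ 3
    0x102020100
    0x2000100
    0x100010102000201000102020200020201010000010102020002020201000102000201010001000000
    0x10102010200000202000002010201010000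
    2 1 1 4 3 4 5 1 19 43 V2
    ⟨C5_loop, C4_loop, C43_loop, C19_loop⟩ (by decide +kernel)

theorem L5 : LevFact 11 1 1 31 43 V5 :=
  levFact_of ⟨C43, C1, C31, C11, 43, 1, 31, 11, 38⟩ 3
    0x100010102000201000102020200020201010000010102020002020201000102000201010001000000
    0x1
    0x100020101000202020102010000010201020202000101020001000000
    0x201020202010101020100
    4 1 1 3 1 11 1 1 31 43 V5
    ⟨C43_loop, C1_loop, C31_loop, C11_loop⟩ (by decide +kernel)

theorem L64 : LevFact 11 1 1 9 43 V64 :=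
  levFact_of ⟨C43, C1, C9, C11, 43, 1, 9, 11, 72⟩ 243
    0x100010102000201000102020200020201010000010102020002020201000102000201010001000000
    0x1
    0x100020200010000
    0xf201f2f2f2010101f20100
    4 1 1 3 1 11 1 1 9 43 V64
    ⟨C43_loop, C1_loop, C9_loop, C11_loop⟩ (by decide +kernel)

theorem L9 : LevFact 5 11 1 13 19 V9 :=
  levFact_of ⟨C5, C19, C13, C11, 5, 19, 13, 11, 37⟩ 3
    0x102020100
    0x10102010200000202000002010201010000
    0x10102000202000201010000
    0x201020202010101020100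
    1 4 1 3 2 5 11 1 13 19 V9
    ⟨C5_loop, C19_loop, C13_loop, C11_loop⟩ (by decide +kernel)

theorem L20 : LevFact 8 7 1 9 19 V20 :=
  levFact_of ⟨C8, C7, C19, C9, 8, 7, 19, 9, 74⟩ 243
    0x100f200f2000100
    0xf2f201f2010100
    0x10102010200000202000002010201010000
    0x100020200010000
    1 2 1 4 3 8 7 1 9 19 V20
    ⟨C8_loop, C7_loop, C19_loop, C9_loop⟩ (by decide +kernel)

theorem L58 : LevFact 16 1 1 19 31 V58 :=
  levFact_of ⟨C31, C1, C19, C8, 31, 1, 19, 8, 34⟩ 3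
    0x100020101000202020102010000010201020202000101020001000000
    0x1
    0x10102010200000202000002010201010000
    0x200020001000100
    4 1 1 3 1 16 1 1 19 31 V58
    ⟨C31_loop, C1_loop, C19_loop, C8_loop⟩ (by decide +kernel)

theorem L18 : LevFact 8 11 1 9 13 V18 :=
  levFact_of ⟨C9, C8, C13, C11, 9, 8, 13, 11, 75⟩ 243
    0x100020200010000
    0x100f200f2000100
    0x10102000202000201010000
    0xf201f2f2f2010101f20100
    2 4 1 1 3 8 11 1 9 13 V18
    ⟨C9_loop, C8_loop, C13_loop, C11_loop⟩ (by decide +kernel)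

theorem L63 : LevFact 4 5 1 7 31 V63 :=
  levFact_of ⟨C4, C31, C5, C7, 4, 31, 5, 7, 34⟩ 3
    0x2000100
    0x100020101000202020102010000010201020202000101020001000000
    0x102020100
    0x20101020000
    1 3 1 4 2 4 5 1 7 31 V63
    ⟨C4_loop, C31_loop, C5_loop, C7_loop⟩ (by decide +kernel)

theorem L37 : LevFact 16 5 1 9 19 V37 :=
  levFact_of ⟨C5, C8, C19, C9, 5, 8, 19, 9, 74⟩ 243
    0x1f2f20100
    0xf200f20001000100
    0x10102010200000202000002010201010000
    0x100020200010000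
    2 1 1 4 3 16 5 1 9 19 V37
    ⟨C5_loop, C8_loop, C19_loop, C9_loop⟩ (by decide +kernel)

theorem L38 : LevFact 8 7 1 9 13 V38 :=
  levFact_of ⟨C8, C7, C13, C9, 8, 7, 13, 9, 73⟩ 243
    0x100f200f2000100
    0xf2f201f2010100
    0x10102000202000201010000
    0x100020200010000
    1 2 1 4 3 8 7 1 9 13 V38
    ⟨C8_loop, C7_loop, C13_loop, C9_loop⟩ (by decide +kernel)

theorem L39 : LevFact 16 13 1 9 7 V39 :=
  levFact_of ⟨C9, C7, C13, C8, 9, 7, 13, 8, 73⟩ 243
    0x100020200010000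
    0x20101020000
    0x1f20101f2f2f2f20101f20100
    0xf200f20001000100
    4 3 1 1 2 16 13 1 9 7 V39
    ⟨C9_loop, C7_loop, C13_loop, C8_loop⟩ (by decide +kernel)

theorem L56 : LevFact 23 1 1 7 31 V56 :=
  levFact_of ⟨C31, C1, C23, C7, 31, 1, 23, 7, 35⟩ 3
    0x100020101000202020102010000010201020202000101020001000000
    0x1
    0x202020201020102020101020201010201020101010100
    0x20101020000
    3 1 1 4 1 23 1 1 7 31 V56
    ⟨C31_loop, C1_loop, C23_loop, C7_loop⟩ (by decide +kernel)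

theorem L79 : LevFact 23 1 1 7 19 V79 :=
  levFact_of ⟨C23, C1, C19, C7, 23, 1, 19, 7, 33⟩ 3
    0x202020201020102020101020201010201020101010100
    0x1
    0x10102010200000202000002010201010000
    0x20101020000
    1 1 1 4 3 23 1 1 7 19 V79
    ⟨C23_loop, C1_loop, C19_loop, C7_loop⟩ (by decide +kernel)

theorem L191 : LevFact 7 1 1 31 1 V191 :=
  levFact_of ⟨C31, C1, C7, C1, 31, 1, 7, 1, 26⟩ 3
    0x100020101000202020102010000010201020202000101020001000000
    0x1
    0x2020102010100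
    0x1
    3 1 1 1 1 7 1 1 31 1 V191
    ⟨C31_loop, C1_loop, C7_loop, C1_loop⟩ (by decide +kernel)

theorem L72 : LevFact 16 5 1 7 13 V72 :=
  levFact_of ⟨C5, C13, C8, C7, 5, 13, 8, 7, 34⟩ 3
    0x102020100
    0x10102000202000201010000
    0x200020001000100
    0x20101020000
    3 1 1 4 2 16 5 1 7 13 V72
    ⟨C5_loop, C13_loop, C8_loop, C7_loop⟩ (by decide +kernel)

theorem L100 : LevFact 11 1 1 9 19 V100 :=
  levFact_of ⟨C19, C1, C9, C11, 19, 1, 9, 11, 70⟩ 243
    0x10102010200000202000002010201010000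
    0x1
    0x100020200010000
    0xf201f2f2f2010101f20100
    4 1 1 3 1 11 1 1 9 19 V100
    ⟨C19_loop, C1_loop, C9_loop, C11_loop⟩ (by decide +kernel)

theorem L94 : LevFact 23 1 1 7 13 V94 :=
  levFact_of ⟨C23, C1, C13, C7, 23, 1, 13, 7, 32⟩ 3
    0x202020201020102020101020201010201020101010100
    0x1
    0x10102000202000201010000
    0x20101020000
    1 1 1 4 3 23 1 1 7 13 V94
    ⟨C23_loop, C1_loop, C13_loop, C7_loop⟩ (by decide +kernel)

theorem L125 : LevFact 8 19 1 7 1 V125 :=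
  levFact_of ⟨C19, C1, C8, C7, 19, 1, 8, 7, 30⟩ 3
    0x2010102020202010201020101010102020100
    0x1
    0x100020002000100
    0x20101020000
    3 1 1 4 1 8 19 1 7 1 V125
    ⟨C19_loop, C1_loop, C8_loop, C7_loop⟩ (by decide +kernel)

theorem L121 : LevFact 8 11 1 13 1 V121 :=
  levFact_of ⟨C11, C1, C13, C8, 11, 1, 13, 8, 30⟩ 3
    0x201020202010101020100
    0x1
    0x10102000202000201010000
    0x100020002000100
    4 1 1 3 1 8 11 1 13 1 V121
    ⟨C11_loop, C1_loop, C13_loop, C8_loop⟩ (by decide +kernel)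

theorem L108 : LevFact 23 1 1 9 7 V108 :=
  levFact_of ⟨C23, C1, C9, C7, 23, 1, 9, 7, 69⟩ 243
    0xf2f2f2f201f201f2f20101f2f20101f201f20101010100
    0x1
    0x100020200010000
    0x20101020000
    1 1 1 3 4 23 1 1 9 7 V108
    ⟨C23_loop, C1_loop, C9_loop, C7_loop⟩ (by decide +kernel)

theorem L213 : LevFact 5 19 1 1 1 V213 :=
  levFact_of ⟨C19, C1, C5, C1, 19, 1, 5, 1, 23⟩ 3
    0x2010102020202010201020101010102020100
    0x1
    0x102020100
    0x1
    3 1 1 1 1 5 19 1 1 1 V213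
    ⟨C19_loop, C1_loop, C5_loop, C1_loop⟩ (by decide +kernel)

theorem L143 : LevFact 8 7 1 13 1 V143 :=
  levFact_of ⟨C8, C7, C13, C1, 8, 7, 13, 1, 29⟩ 3
    0x100020002000100
    0x2020102010100
    0x10102000202000201010000
    0x1
    1 2 1 3 1 8 7 1 13 1 V143
    ⟨C8_loop, C7_loop, C13_loop, C1_loop⟩ (by decide +kernel)

theorem L159 : LevFact 8 7 1 9 1 V159 :=
  levFact_of ⟨C8, C1, C9, C7, 8, 1, 9, 7, 66⟩ 243
    0x100f200f2000100
    0x1
    0x100020200010000
    0xf2f201f2010100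
    1 4 1 3 1 8 7 1 9 1 V159
    ⟨C8_loop, C1_loop, C9_loop, C7_loop⟩ (by decide +kernel)

theorem L95 : LevFact 31 1 5 13 1 V95 :=
  levFact_of ⟨C5, C13, C31, C1, 5, 13, 31, 1, 32⟩ 3
    0x102020100
    0x10102000202000201010000
    0x2020102020102020202010101020102010202020101010102010102010100
    0x1
    3 1 1 2 1 31 1 5 13 1 V95
    ⟨C5_loop, C13_loop, C31_loop, C1_loop⟩ (by decide +kernel)

theorem L212 : LevFact 11 1 1 9 1 V212 :=
  levFact_of ⟨C11, C1, C9, C1, 11, 1, 9, 1, 61⟩ 243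
    0xf201f2f2f2010101f20100
    0x1
    0x100020200010000
    0x1
    1 1 1 3 1 11 1 1 9 1 V212
    ⟨C11_loop, C1_loop, C9_loop, C1_loop⟩ (by decide +kernel)

theorem L128 : LevFact 11 1 13 7 1 V128 :=
  levFact_of ⟨C11, C13, C7, C1, 11, 13, 7, 1, 30⟩ 3
    0x201020202010101020100
    0x1020101020202020101020100
    0x20101020000
    0x1
    1 1 2 3 1 11 1 13 7 1 V128
    ⟨C11_loop, C13_loop, C7_loop, C1_loop⟩ (by decide +kernel)

theorem L220 : LevFact 16 1 1 9 1 V220 :=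
  levFact_of ⟨C8, C1, C9, C1, 8, 1, 9, 1, 60⟩ 243
    0xf200f20001000100
    0x1
    0x100020200010000
    0x1
    1 1 1 3 1 16 1 1 9 1 V220
    ⟨C8_loop, C1_loop, C9_loop, C1_loop⟩ (by decide +kernel)

theorem L145 : LevFact 16 1 13 7 1 V145 :=
  levFact_of ⟨C8, C13, C7, C1, 8, 13, 7, 1, 29⟩ 3
    0x200020001000100
    0x1020101020202020101020100
    0x20101020000
    0x1
    1 1 2 3 1 16 1 13 7 1 V145
    ⟨C8_loop, C13_loop, C7_loop, C1_loop⟩ (by decide +kernel)

theorem L186 : LevFact 4 13 5 1 1 V186 :=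
  levFact_of ⟨C5, C13, C4, C1, 5, 13, 4, 1, 26⟩ 3
    0x102020100
    0x1020101020202020101020100
    0x2000100
    0x1
    3 2 1 1 1 4 13 5 1 1 V186
    ⟨C5_loop, C13_loop, C4_loop, C1_loop⟩ (by decide +kernel)

theorem L242 : LevFact 4 1 1 1 1 V242 :=
  levFact_of ⟨C4, C1, C1, C1, 4, 1, 1, 1, 14⟩ 3
    0x2000100
    0x1
    0x1
    0x1
    1 1 1 1 1 4 1 1 1 1 V242
    ⟨C4_loop, C1_loop, C1_loop, C1_loop⟩ (by decide +kernel)

end Pool.Agent.Lib.MP_15cb89_nt
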