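import Pool.Agent.Lib.MP_15cb89_nt.Tab
import Pool.Agent.Lib.MP_15cb89_nt.Loops
import Pool.Agent.Lib.MP_15cb89_nt.Vals

/-! Kernel checks of the tables. -/

set_option autoImplicit false
set_option maxRecDepth 100000

namespace Pool.Agent.Lib.MP_15cb89_nt

theorem L41 : LevFact 16 1 1 19 43 V41 :=
  levFact_of ⟨C43, C1, C19, C8, 43, 1, 19, 8, 35⟩ 3
    0x100010102000201000102020200020201010000010102020002020201000102000201010001000000
    0x1
    0x10102010200000202000002010201010000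
    0x200020001000100
    4 1 1 3 1 16 1 1 19 43 V41
    ⟨C43_loop, C1_loop, C19_loop, C8_loop⟩ (by decide +kernel)

theorem L60 : LevFact 16 13 1 43 1 V60 :=
  levFact_of ⟨C43, C1, C13, C8, 43, 1, 13, 8, 34⟩ 3
    0x100010102000201000102020200020201010000010102020002020201000102000201010001000000
    0x1
    0x1020101020202020101020100
    0x200020001000100
    4 3 1 1 1 16 13 1 43 1 V60
    ⟨C43_loop, C1_loop, C13_loop, C8_loop⟩ (by decide +kernel)

theorem L8 : LevFact 8 19 1 7 13 V8 :=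
  levFact_of ⟨C7, C13, C19, C8, 7, 13, 19, 8, 38⟩ 3
    0x20101020000
    0x10102000202000201010000
    0x2010102020202010201020101010102020100
    0x100020002000100
    4 3 1 1 2 8 19 1 7 13 V8
    ⟨C7_loop, C13_loop, C19_loop, C8_loop⟩ (by decide +kernel)

theorem L89 : LevFact 5 11 1 43 1 V89 :=
  levFact_of ⟨C43, C1, C11, C5, 43, 1, 11, 5, 32⟩ 3
    0x100010102000201000102020200020201010000010102020002020201000102000201010001000000
    0x1
    0x201020202010101020100
    0x102020100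
    4 3 1 1 1 5 11 1 43 1 V89
    ⟨C43_loop, C1_loop, C11_loop, C5_loop⟩ (by decide +kernel)

theorem L35 : LevFact 23 1 1 7 43 V35 :=
  levFact_of ⟨C43, C1, C23, C7, 43, 1, 23, 7, 36⟩ 3
    0x100010102000201000102020200020201010000010102020002020201000102000201010001000000
    0x1
    0x202020201020102020101020201010201020101010100
    0x20101020000
    3 1 1 4 1 23 1 1 7 43 V35
    ⟨C43_loop, C1_loop, C23_loop, C7_loop⟩ (by decide +kernel)

theorem L228 : LevFact 43 1 1 1 1 V228 :=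
  levFact_of ⟨C43, C1, C1, C1, 43, 1, 1, 1, 21⟩ 3
    0x2010102010201010202020102020202020101010201020202010101010102010101020201020102020100
    0x1
    0x1
    0x1
    1 1 1 1 1 43 1 1 1 1 V228
    ⟨C43_loop, C1_loop, C1_loop, C1_loop⟩ (by decide +kernel)

theorem L69 : LevFact 7 1 1 13 43 V69 :=
  levFact_of ⟨C43, C1, C13, C7, 43, 1, 13, 7, 34⟩ 3
    0x100010102000201000102020200020201010000010102020002020201000102000201010001000000
    0x1
    0x10102000202000201010000
    0x2020102010100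
    4 1 1 3 1 7 1 1 13 43 V69
    ⟨C43_loop, C1_loop, C13_loop, C7_loop⟩ (by decide +kernel)

theorem L24 : LevFact 11 13 1 9 7 V24 :=
  levFact_of ⟨C9, C7, C13, C11, 9, 7, 13, 11, 74⟩ 243
    0x100020200010000
    0x20101020000
    0x1f20101f2f2f2f20101f20100
    0xf201f2f2f2010101f20100
    4 3 1 1 2 11 13 1 9 7 V24
    ⟨C9_loop, C7_loop, C13_loop, C11_loop⟩ (by decide +kernel)

theorem L36 : LevFact 4 13 1 7 19 V36 :=
  levFact_of ⟨C4, C19, C13, C7, 4, 19, 13, 7, 36⟩ 3
    0x2000100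
    0x10102010200000202000002010201010000
    0x1020101020202020101020100
    0x20101020000
    1 3 1 4 2 4 13 1 7 19 V36
    ⟨C4_loop, C19_loop, C13_loop, C7_loop⟩ (by decide +kernel)

theorem L88 : LevFact 11 1 1 7 31 V88 :=
  levFact_of ⟨C31, C1, C11, C7, 31, 1, 11, 7, 32⟩ 3
    0x100020101000202020102010000010201020202000101020001000000
    0x1
    0x201020202010101020100
    0x20101020000
    3 1 1 4 1 11 1 1 7 31 V88
    ⟨C31_loop, C1_loop, C11_loop, C7_loop⟩ (by decide +kernel)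

theorem L155 : LevFact 19 1 1 31 1 V155 :=
  levFact_of ⟨C31, C1, C19, C1, 31, 1, 19, 1, 28⟩ 3
    0x100020101000202020102010000010201020202000101020001000000
    0x1
    0x2010102020202010201020101010102020100
    0x1
    3 1 1 1 1 19 1 1 31 1 V155
    ⟨C31_loop, C1_loop, C19_loop, C1_loop⟩ (by decide +kernel)

theorem L51 : LevFact 16 5 1 7 19 V51 :=
  levFact_of ⟨C5, C19, C8, C7, 5, 19, 8, 7, 35⟩ 3
    0x102020100
    0x10102010200000202000002010201010000
    0x200020001000100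
    0x20101020000
    3 1 1 4 2 16 5 1 7 19 V51
    ⟨C5_loop, C19_loop, C8_loop, C7_loop⟩ (by decide +kernel)

theorem L233 : LevFact 31 1 1 1 1 V233 :=
  levFact_of ⟨C31, C1, C1, C1, 31, 1, 1, 1, 20⟩ 3
    0x2020102020102020202010101020102010202020101010102010102010100
    0x1
    0x1
    0x1
    1 1 1 1 1 31 1 1 1 1 V233
    ⟨C31_loop, C1_loop, C1_loop, C1_loop⟩ (by decide +kernel)

theorem L6 : LevFact 7 13 5 31 1 V6 :=
  levFact_of ⟨C7, C13, C5, C31, 7, 13, 5, 31, 38⟩ 3
    0x2020102010100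
    0x1020101020202020101020100
    0x102020100
    0x100020101000202020102010000010201020202000101020001000000
    1 2 3 4 1 7 13 5 31 1 V6
    ⟨C7_loop, C13_loop, C5_loop, C31_loop⟩ (by decide +kernel)

theorem L85 : LevFact 4 5 1 7 19 V85 :=
  levFact_of ⟨C4, C19, C5, C7, 4, 19, 5, 7, 33⟩ 3
    0x2000100
    0x10102010200000202000002010201010000
    0x102020100
    0x20101020000
    1 3 1 4 2 4 5 1 7 19 V85
    ⟨C4_loop, C19_loop, C5_loop, C7_loop⟩ (by decide +kernel)

theorem L105 : LevFact 8 11 1 19 1 V105 :=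
  levFact_of ⟨C19, C1, C11, C8, 19, 1, 11, 8, 31⟩ 3
    0x10102010200000202000002010201010000
    0x1
    0x201020202010101020100
    0x100020002000100
    4 3 1 1 1 8 11 1 19 1 V105
    ⟨C19_loop, C1_loop, C11_loop, C8_loop⟩ (by decide +kernel)

theorem L126 : LevFact 5 11 1 19 1 V126 :=
  levFact_of ⟨C19, C1, C11, C5, 19, 1, 11, 5, 30⟩ 3
    0x10102010200000202000002010201010000
    0x1
    0x201020202010101020100
    0x102020100
    4 3 1 1 1 5 11 1 19 1 V126
    ⟨C19_loop, C1_loop, C11_loop, C5_loop⟩ (by decide +kernel)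

theorem L197 : LevFact 23 1 1 7 1 V197 :=
  levFact_of ⟨C23, C1, C7, C1, 23, 1, 7, 1, 25⟩ 3
    0x202020201020102020101020201010201020101010100
    0x1
    0x20101020000
    0x1
    1 1 1 3 1 23 1 1 7 1 V197
    ⟨C23_loop, C1_loop, C7_loop, C1_loop⟩ (by decide +kernel)

theorem L150 : LevFact 5 7 1 19 1 V150 :=
  levFact_of ⟨C19, C1, C7, C5, 19, 1, 7, 5, 29⟩ 3
    0x10102010200000202000002010201010000
    0x1
    0x2020102010100
    0x102020100
    4 3 1 1 1 5 7 1 19 1 V150
    ⟨C19_loop, C1_loop, C7_loop, C5_loop⟩ (by decide +kernel)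

theorem L200 : LevFact 16 1 1 19 1 V200 :=
  levFact_of ⟨C19, C1, C8, C1, 19, 1, 8, 1, 25⟩ 3
    0x10102010200000202000002010201010000
    0x1
    0x200020001000100
    0x1
    3 1 1 1 1 16 1 1 19 1 V200
    ⟨C19_loop, C1_loop, C8_loop, C1_loop⟩ (by decide +kernel)

theorem L133 : LevFact 16 13 1 9 1 V133 :=
  levFact_of ⟨C13, C1, C9, C8, 13, 1, 9, 8, 68⟩ 243
    0x1f20101f2f2f2f20101f20100
    0x1
    0x100020200010000
    0xf200f20001000100
    4 1 1 3 1 16 13 1 9 1 V133
    ⟨C13_loop, C1_loop, C9_loop, C8_loop⟩ (by decide +kernel)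

theorem L140 : LevFact 8 11 1 9 1 V140 :=
  levFact_of ⟨C11, C1, C9, C8, 11, 1, 9, 8, 67⟩ 243
    0xf201f2f2f2010101f20100
    0x1
    0x100020200010000
    0x100f200f2000100
    4 1 1 3 1 8 11 1 9 1 V140
    ⟨C11_loop, C1_loop, C9_loop, C8_loop⟩ (by decide +kernel)

theorem L173 : LevFact 4 13 1 7 1 V173 :=
  levFact_of ⟨C13, C1, C7, C4, 13, 1, 7, 4, 27⟩ 3
    0x1020101020202020101020100
    0x1
    0x20101020000
    0x2000100
    4 1 1 3 1 4 13 1 7 1 V173
    ⟨C13_loop, C1_loop, C7_loop, C4_loop⟩ (by decide +kernel)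

theorem L170 : LevFact 5 11 1 7 1 V170 :=
  levFact_of ⟨C5, C7, C11, C1, 5, 7, 11, 1, 27⟩ 3
    0x102020100
    0x20101020000
    0x201020202010101020100
    0x1
    1 3 1 2 1 5 11 1 7 1 V170
    ⟨C5_loop, C7_loop, C11_loop, C1_loop⟩ (by decide +kernel)

theorem L226 : LevFact 4 13 1 1 1 V226 :=
  levFact_of ⟨C13, C1, C4, C1, 13, 1, 4, 1, 21⟩ 3
    0x1020101020202020101020100
    0x1
    0x2000100
    0x1
    3 1 1 1 1 4 13 1 1 1 V226
    ⟨C13_loop, C1_loop, C4_loop, C1_loop⟩ (by decide +kernel)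

theorem L134 : LevFact 16 1 13 9 1 V134 :=
  levFact_of ⟨C8, C9, C13, C1, 8, 9, 13, 1, 68⟩ 243
    0xf200f20001000100
    0x100020200010000
    0x1f20101f2f2f2f20101f20100
    0x1
    1 1 3 2 1 16 1 13 9 1 V134
    ⟨C8_loop, C9_loop, C13_loop, C1_loop⟩ (by decide +kernel)

theorem L139 : LevFact 23 1 5 7 1 V139 :=
  levFact_of ⟨C7, C23, C5, C1, 7, 23, 5, 1, 29⟩ 3
    0x20101020000
    0x202020201020102020101020201010201020101010100
    0x102020100
    0x1
    2 1 3 1 1 23 1 5 7 1 V139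
    ⟨C7_loop, C23_loop, C5_loop, C1_loop⟩ (by decide +kernel)

theorem L158 : LevFact 16 1 5 13 1 V158 :=
  levFact_of ⟨C8, C13, C5, C1, 8, 13, 5, 1, 28⟩ 3
    0x200020001000100
    0x10102000202000201010000
    0x102020100
    0x1
    1 1 3 2 1 16 1 5 13 1 V158
    ⟨C8_loop, C13_loop, C5_loop, C1_loop⟩ (by decide +kernel)

theorem L240 : LevFact 16 1 1 1 1 V240 :=
  levFact_of ⟨C8, C1, C1, C1, 8, 1, 1, 1, 16⟩ 3
    0x200020001000100
    0x1
    0x1
    0x1
    1 1 1 1 1 16 1 1 1 1 V240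
    ⟨C8_loop, C1_loop, C1_loop, C1_loop⟩ (by decide +kernel)

theorem L198 : LevFact 31 1 5 1 1 V198 :=
  levFact_of ⟨C5, C31, C1, C1, 5, 31, 1, 1, 25⟩ 3
    0x102020100
    0x2020102020102020202010101020102010202020101010102010102010100
    0x1
    0x1
    2 1 1 1 1 31 1 5 1 1 V198
    ⟨C5_loop, C31_loop, C1_loop, C1_loop⟩ (by decide +kernel)

end Pool.Agent.Lib.MP_15cb89_nt
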