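import Pool.Agent.Lib.MP_15cb89_nt.Tab
import Pool.Agent.Lib.MP_15cb89_nt.Loops
import Pool.Agent.Lib.MP_15cb89_nt.Vals

/-! Kernel checks of the tables. -/

set_option autoImplicit false
set_option maxRecDepth 100000

namespace Pool.Agent.Lib.MP_15cb89_nt

theorem L1 : LevFact 8 19 1 9 13 V1 :=
  levFact_of ⟨C9, C8, C19, C13, 9, 8, 19, 13, 76⟩ 243
    0x100020200010000
    0x100f200f2000100
    0xf20101f2f2f2f201f201f201010101f2f20100
    0x10102000202000201010000
    2 3 1 1 4 8 19 1 9 13 V1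
    ⟨C9_loop, C8_loop, C19_loop, C13_loop⟩ (by decide +kernel)

theorem L61 : LevFact 16 1 1 13 43 V61 :=
  levFact_of ⟨C43, C1, C13, C8, 43, 1, 13, 8, 34⟩ 3
    0x100010102000201000102020200020201010000010102020002020201000102000201010001000000
    0x1
    0x10102000202000201010000
    0x200020001000100
    4 1 1 3 1 16 1 1 13 43 V61
    ⟨C43_loop, C1_loop, C13_loop, C8_loop⟩ (by decide +kernel)

theorem L7 : LevFact 8 7 1 13 19 V7 :=
  levFact_of ⟨C7, C13, C19, C8, 7, 13, 19, 8, 38⟩ 3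
    0x2020102010100
    0x10102000202000201010000
    0x10102010200000202000002010201010000
    0x100020002000100
    4 1 1 2 3 8 7 1 13 19 V7
    ⟨C7_loop, C13_loop, C19_loop, C8_loop⟩ (by decide +kernel)

theorem L33 : LevFact 31 1 1 13 19 V33 :=
  levFact_of ⟨C31, C1, C19, C13, 31, 1, 19, 13, 36⟩ 3
    0x2020102020102020202010101020102010202020101010102010102010100
    0x1
    0x10102010200000202000002010201010000
    0x10102000202000201010000
    1 1 1 4 3 31 1 1 13 19 V33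
    ⟨C31_loop, C1_loop, C19_loop, C13_loop⟩ (by decide +kernel)

theorem L17 : LevFact 5 19 1 9 13 V17 :=
  levFact_of ⟨C5, C13, C19, C9, 5, 13, 19, 9, 75⟩ 243
    0x1f2f20100
    0x10102000202000201010000
    0xf20101f2f2f2f201f201f201010101f2f20100
    0x100020200010000
    1 3 1 4 2 5 19 1 9 13 V17
    ⟨C5_loop, C13_loop, C19_loop, C9_loop⟩ (by decide +kernel)

theorem L43 : LevFact 11 1 1 19 31 V43 :=
  levFact_of ⟨C31, C1, C19, C11, 31, 1, 19, 11, 35⟩ 3
    0x100020101000202020102010000010201020202000101020001000000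
    0x1
    0x10102010200000202000002010201010000
    0x201020202010101020100
    4 1 1 3 1 11 1 1 19 31 V43
    ⟨C31_loop, C1_loop, C19_loop, C11_loop⟩ (by decide +kernel)

theorem L65 : LevFact 31 1 1 7 19 V65 :=
  levFact_of ⟨C31, C1, C19, C7, 31, 1, 19, 7, 34⟩ 3
    0x2020102020102020202010101020102010202020101010102010102010100
    0x1
    0x10102010200000202000002010201010000
    0x20101020000
    1 1 1 4 3 31 1 1 7 19 V65
    ⟨C31_loop, C1_loop, C19_loop, C7_loop⟩ (by decide +kernel)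

theorem L78 : LevFact 11 1 1 9 31 V78 :=
  levFact_of ⟨C31, C1, C9, C11, 31, 1, 9, 11, 71⟩ 243
    0x100020101000202020102010000010201020202000101020001000000
    0x1
    0x100020200010000
    0xf201f2f2f2010101f20100
    4 1 1 3 1 11 1 1 9 31 V78
    ⟨C31_loop, C1_loop, C9_loop, C11_loop⟩ (by decide +kernel)

theorem L76 : LevFact 16 13 1 31 1 V76 :=
  levFact_of ⟨C31, C1, C13, C8, 31, 1, 13, 8, 33⟩ 3
    0x100020101000202020102010000010201020202000101020001000000
    0x1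
    0x1020101020202020101020100
    0x200020001000100
    4 3 1 1 1 16 13 1 31 1 V76
    ⟨C31_loop, C1_loop, C13_loop, C8_loop⟩ (by decide +kernel)

theorem L104 : LevFact 5 11 1 31 1 V104 :=
  levFact_of ⟨C31, C1, C11, C5, 31, 1, 11, 5, 31⟩ 3
    0x100020101000202020102010000010201020202000101020001000000
    0x1
    0x201020202010101020100
    0x102020100
    4 3 1 1 1 5 11 1 31 1 V104
    ⟨C31_loop, C1_loop, C11_loop, C5_loop⟩ (by decide +kernel)

theorem L44 : LevFact 5 11 1 9 13 V44 :=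
  levFact_of ⟨C5, C11, C13, C9, 5, 11, 13, 9, 73⟩ 243
    0x1f2f20100
    0xf201f2f2f2010101f20100
    0x10102000202000201010000
    0x100020200010000
    1 2 1 4 3 5 11 1 9 13 V44
    ⟨C5_loop, C11_loop, C13_loop, C9_loop⟩ (by decide +kernel)

theorem L118 : LevFact 16 5 1 31 1 V118 :=
  levFact_of ⟨C31, C1, C8, C5, 31, 1, 8, 5, 31⟩ 3
    0x100020101000202020102010000010201020202000101020001000000
    0x1
    0x200020001000100
    0x102020100
    3 4 1 1 1 16 5 1 31 1 V118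
    ⟨C31_loop, C1_loop, C8_loop, C5_loop⟩ (by decide +kernel)

theorem L55 : LevFact 5 11 1 7 13 V55 :=
  levFact_of ⟨C5, C11, C13, C7, 5, 11, 13, 7, 35⟩ 3
    0x102020100
    0x201020202010101020100
    0x10102000202000201010000
    0x20101020000
    1 2 1 4 3 5 11 1 7 13 V55
    ⟨C5_loop, C11_loop, C13_loop, C7_loop⟩ (by decide +kernel)

theorem L83 : LevFact 11 13 1 19 1 V83 :=
  levFact_of ⟨C19, C1, C13, C11, 19, 1, 13, 11, 33⟩ 3
    0x10102010200000202000002010201010000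
    0x1
    0x1020101020202020101020100
    0x201020202010101020100
    4 3 1 1 1 11 13 1 19 1 V83
    ⟨C19_loop, C1_loop, C13_loop, C11_loop⟩ (by decide +kernel)

theorem L68 : LevFact 23 1 1 9 19 V68 :=
  levFact_of ⟨C9, C1, C19, C23, 9, 1, 19, 23, 72⟩ 243
    0x100020200010000
    0x1
    0x10102010200000202000002010201010000
    0xf2f2f2f201f201f2f20101f2f20101f201f20101010100
    4 1 1 1 3 23 1 1 9 19 V68
    ⟨C9_loop, C1_loop, C19_loop, C23_loop⟩ (by decide +kernel)

theorem L102 : LevFact 19 1 1 7 13 V102 :=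
  levFact_of ⟨C19, C1, C13, C7, 19, 1, 13, 7, 32⟩ 3
    0x2010102020202010201020101010102020100
    0x1
    0x10102000202000201010000
    0x20101020000
    1 1 1 4 3 19 1 1 7 13 V102
    ⟨C19_loop, C1_loop, C13_loop, C7_loop⟩ (by decide +kernel)

theorem L130 : LevFact 4 13 1 19 1 V130 :=
  levFact_of ⟨C19, C1, C13, C4, 19, 1, 13, 4, 30⟩ 3
    0x10102010200000202000002010201010000
    0x1
    0x1020101020202020101020100
    0x2000100
    4 3 1 1 1 4 13 1 19 1 V130
    ⟨C19_loop, C1_loop, C13_loop, C4_loop⟩ (by decide +kernel)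

theorem L131 : LevFact 4 1 1 13 19 V131 :=
  levFact_of ⟨C19, C1, C13, C4, 19, 1, 13, 4, 30⟩ 3
    0x10102010200000202000002010201010000
    0x1
    0x10102000202000201010000
    0x2000100
    4 1 1 3 1 4 1 1 13 19 V131
    ⟨C19_loop, C1_loop, C13_loop, C4_loop⟩ (by decide +kernel)

theorem L115 : LevFact 11 13 1 9 1 V115 :=
  levFact_of ⟨C11, C1, C13, C9, 11, 1, 13, 9, 69⟩ 243
    0xf201f2f2f2010101f20100
    0x1
    0x1f20101f2f2f2f20101f20100
    0x100020200010000
    1 3 1 4 1 11 13 1 9 1 V115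
    ⟨C11_loop, C1_loop, C13_loop, C9_loop⟩ (by decide +kernel)

theorem L52 : LevFact 16 1 5 7 19 V52 :=
  levFact_of ⟨C7, C8, C5, C19, 7, 8, 5, 19, 35⟩ 3
    0x20101020000
    0x200020001000100
    0x102020100
    0x10102010200000202000002010201010000
    2 1 3 1 4 16 1 5 7 19 V52
    ⟨C7_loop, C8_loop, C5_loop, C19_loop⟩ (by decide +kernel)

theorem L219 : LevFact 4 1 1 19 1 V219 :=
  levFact_of ⟨C19, C1, C4, C1, 19, 1, 4, 1, 23⟩ 3
    0x10102010200000202000002010201010000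
    0x1
    0x2000100
    0x1
    3 1 1 1 1 4 1 1 19 1 V219
    ⟨C19_loop, C1_loop, C4_loop, C1_loop⟩ (by decide +kernel)

theorem L238 : LevFact 19 1 1 1 1 V238 :=
  levFact_of ⟨C19, C1, C1, C1, 19, 1, 1, 1, 19⟩ 3
    0x2010102020202010201020101010102020100
    0x1
    0x1
    0x1
    1 1 1 1 1 19 1 1 1 1 V238
    ⟨C19_loop, C1_loop, C1_loop, C1_loop⟩ (by decide +kernel)

theorem L201 : LevFact 11 1 1 13 1 V201 :=
  levFact_of ⟨C13, C1, C11, C1, 13, 1, 11, 1, 24⟩ 3
    0x10102000202000201010000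
    0x1
    0x201020202010101020100
    0x1
    3 1 1 1 1 11 1 1 13 1 V201
    ⟨C13_loop, C1_loop, C11_loop, C1_loop⟩ (by decide +kernel)

theorem L210 : LevFact 16 13 1 1 1 V210 :=
  levFact_of ⟨C13, C1, C8, C1, 13, 1, 8, 1, 23⟩ 3
    0x1020101020202020101020100
    0x1
    0x200020001000100
    0x1
    3 1 1 1 1 16 13 1 1 1 V210
    ⟨C13_loop, C1_loop, C8_loop, C1_loop⟩ (by decide +kernel)

theorem L182 : LevFact 16 5 1 7 1 V182 :=
  levFact_of ⟨C5, C7, C8, C1, 5, 7, 8, 1, 26⟩ 3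
    0x102020100
    0x20101020000
    0x200020001000100
    0x1
    3 1 1 2 1 16 5 1 7 1 V182
    ⟨C5_loop, C7_loop, C8_loop, C1_loop⟩ (by decide +kernel)

theorem L122 : LevFact 8 11 13 1 1 V122 :=
  levFact_of ⟨C8, C11, C13, C1, 8, 11, 13, 1, 30⟩ 3
    0x100020002000100
    0x201020202010101020100
    0x1020101020202020101020100
    0x1
    1 2 3 1 1 8 11 13 1 1 V122
    ⟨C8_loop, C11_loop, C13_loop, C1_loop⟩ (by decide +kernel)

theorem L142 : LevFact 16 1 5 19 1 V142 :=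
  levFact_of ⟨C8, C19, C5, C1, 8, 19, 5, 1, 29⟩ 3
    0x200020001000100
    0x10102010200000202000002010201010000
    0x102020100
    0x1
    1 1 3 2 1 16 1 5 19 1 V142
    ⟨C8_loop, C19_loop, C5_loop, C1_loop⟩ (by decide +kernel)

theorem L221 : LevFact 7 1 1 9 1 V221 :=
  levFact_of ⟨C7, C1, C9, C1, 7, 1, 9, 1, 60⟩ 243
    0xf2f201f2010100
    0x1
    0x100020200010000
    0x1
    1 1 1 3 1 7 1 1 9 1 V221
    ⟨C7_loop, C1_loop, C9_loop, C1_loop⟩ (by decide +kernel)

theorem L241 : LevFact 7 1 1 1 1 V241 :=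
  levFact_of ⟨C7, C1, C1, C1, 7, 1, 1, 1, 16⟩ 3
    0x2020102010100
    0x1
    0x1
    0x1
    1 1 1 1 1 7 1 1 1 1 V241
    ⟨C7_loop, C1_loop, C1_loop, C1_loop⟩ (by decide +kernel)

theorem L203 : LevFact 11 1 13 1 1 V203 :=
  levFact_of ⟨C11, C13, C1, C1, 11, 13, 1, 1, 24⟩ 3
    0x201020202010101020100
    0x1020101020202020101020100
    0x1
    0x1
    1 1 2 1 1 11 1 13 1 1 V203
    ⟨C11_loop, C13_loop, C1_loop, C1_loop⟩ (by decide +kernel)

theorem L230 : LevFact 16 1 5 1 1 V230 :=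
  levFact_of ⟨C5, C8, C1, C1, 5, 8, 1, 1, 21⟩ 3
    0x102020100
    0x200020001000100
    0x1
    0x1
    2 1 1 1 1 16 1 5 1 1 V230
    ⟨C5_loop, C8_loop, C1_loop, C1_loop⟩ (by decide +kernel)

end Pool.Agent.Lib.MP_15cb89_nt
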