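import Pool.Agent.Lib.MP_15cb89_nt.Tab
import Pool.Agent.Lib.MP_15cb89_nt.Loops
import Pool.Agent.Lib.MP_15cb89_nt.Vals

/-! Kernel checks of the tables. -/

set_option autoImplicit false
set_option maxRecDepth 100000

namespace Pool.Agent.Lib.MP_15cb89_nt

theorem L3 : LevFact 16 5 1 13 31 V3 :=
  levFact_of ⟨C5, C31, C8, C13, 5, 31, 8, 13, 38⟩ 3
    0x102020100
    0x100020101000202020102010000010201020202000101020001000000
    0x200020001000100
    0x10102000202000201010000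
    3 1 1 4 2 16 5 1 13 31 V3
    ⟨C5_loop, C31_loop, C8_loop, C13_loop⟩ (by decide +kernel)

theorem L11 : LevFact 16 5 1 7 43 V11 :=
  levFact_of ⟨C5, C43, C8, C7, 5, 43, 8, 7, 37⟩ 3
    0x102020100
    0x100010102000201000102020200020201010000010102020002020201000102000201010001000000
    0x200020001000100
    0x20101020000
    3 1 1 4 2 16 5 1 7 43 V11
    ⟨C5_loop, C43_loop, C8_loop, C7_loop⟩ (by decide +kernel)

theorem L16 : LevFact 4 13 1 7 31 V16 :=
  levFact_of ⟨C4, C31, C13, C7, 4, 31, 13, 7, 37⟩ 3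
    0x2000100
    0x100020101000202020102010000010201020202000101020001000000
    0x1020101020202020101020100
    0x20101020000
    1 3 1 4 2 4 13 1 7 31 V16
    ⟨C4_loop, C31_loop, C13_loop, C7_loop⟩ (by decide +kernel)

theorem L70 : LevFact 43 1 1 7 13 V70 :=
  levFact_of ⟨C43, C1, C13, C7, 43, 1, 13, 7, 34⟩ 3
    0x2010102010201010202020102020202020101010201020202010101010102010101020201020102020100
    0x1
    0x10102000202000201010000
    0x20101020000
    1 1 1 4 3 43 1 1 7 13 V70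
    ⟨C43_loop, C1_loop, C13_loop, C7_loop⟩ (by decide +kernel)

theorem L180 : LevFact 43 1 1 7 1 V180 :=
  levFact_of ⟨C43, C1, C7, C1, 43, 1, 7, 1, 26⟩ 3
    0x2010102010201010202020102020202020101010201020202010101010102010101020201020102020100
    0x1
    0x20101020000
    0x1
    1 1 1 3 1 43 1 1 7 1 V180
    ⟨C43_loop, C1_loop, C7_loop, C1_loop⟩ (by decide +kernel)

theorem L50 : LevFact 4 5 1 9 31 V50 :=
  levFact_of ⟨C4, C31, C5, C9, 4, 31, 5, 9, 73⟩ 243
    0xf2000100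
    0x100020101000202020102010000010201020202000101020001000000
    0x1f2f20100
    0x100020200010000
    1 3 1 4 2 4 5 1 9 31 V50
    ⟨C4_loop, C31_loop, C5_loop, C9_loop⟩ (by decide +kernel)

theorem L26 : LevFact 23 1 1 9 43 V26 :=
  levFact_of ⟨C9, C1, C43, C23, 9, 1, 43, 23, 74⟩ 243
    0x100020200010000
    0x1
    0x100010102000201000102020200020201010000010102020002020201000102000201010001000000
    0xf2f2f2f201f201f2f20101f2f20101f201f20101010100
    4 1 1 1 3 23 1 1 9 43 V26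
    ⟨C9_loop, C1_loop, C43_loop, C23_loop⟩ (by decide +kernel)

theorem L28 : LevFact 5 19 1 7 13 V28 :=
  levFact_of ⟨C5, C19, C13, C7, 5, 19, 13, 7, 36⟩ 3
    0x102020100
    0x2010102020202010201020101010102020100
    0x10102000202000201010000
    0x20101020000
    1 2 1 4 3 5 19 1 7 13 V28
    ⟨C5_loop, C19_loop, C13_loop, C7_loop⟩ (by decide +kernel)

theorem L53 : LevFact 31 1 1 9 19 V53 :=
  levFact_of ⟨C31, C1, C19, C9, 31, 1, 19, 9, 73⟩ 243
    0xf2f201f2f201f2f2f2f2010101f201f201f2f2f201010101f20101f2010100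
    0x1
    0x10102010200000202000002010201010000
    0x100020200010000
    1 1 1 4 3 31 1 1 9 19 V53
    ⟨C31_loop, C1_loop, C19_loop, C9_loop⟩ (by decide +kernel)

theorem L80 : LevFact 31 1 1 7 13 V80 :=
  levFact_of ⟨C31, C1, C13, C7, 31, 1, 13, 7, 33⟩ 3
    0x2020102020102020202010101020102010202020101010102010102010100
    0x1
    0x10102000202000201010000
    0x20101020000
    1 1 1 4 3 31 1 1 7 13 V80
    ⟨C31_loop, C1_loop, C13_loop, C7_loop⟩ (by decide +kernel)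

theorem L92 : LevFact 4 13 1 43 1 V92 :=
  levFact_of ⟨C43, C1, C13, C4, 43, 1, 13, 4, 32⟩ 3
    0x100010102000201000102020200020201010000010102020002020201000102000201010001000000
    0x1
    0x1020101020202020101020100
    0x2000100
    4 3 1 1 1 4 13 1 43 1 V92
    ⟨C43_loop, C1_loop, C13_loop, C4_loop⟩ (by decide +kernel)

theorem L152 : LevFact 4 5 1 31 1 V152 :=
  levFact_of ⟨C31, C1, C5, C4, 31, 1, 5, 4, 29⟩ 3
    0x100020101000202020102010000010201020202000101020001000000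
    0x1
    0x102020100
    0x2000100
    4 3 1 1 1 4 5 1 31 1 V152
    ⟨C31_loop, C1_loop, C5_loop, C4_loop⟩ (by decide +kernel)

theorem L187 : LevFact 16 1 1 31 1 V187 :=
  levFact_of ⟨C31, C1, C8, C1, 31, 1, 8, 1, 26⟩ 3
    0x100020101000202020102010000010201020202000101020001000000
    0x1
    0x200020001000100
    0x1
    3 1 1 1 1 16 1 1 31 1 V187
    ⟨C31_loop, C1_loop, C8_loop, C1_loop⟩ (by decide +kernel)

theorem L75 : LevFact 4 5 1 9 19 V75 :=
  levFact_of ⟨C4, C19, C9, C5, 4, 19, 9, 5, 72⟩ 243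
    0xf2000100
    0x10102010200000202000002010201010000
    0x100020200010000
    0x1f2f20100
    1 4 1 3 2 4 5 1 9 19 V75
    ⟨C4_loop, C19_loop, C9_loop, C5_loop⟩ (by decide +kernel)

theorem L96 : LevFact 8 19 1 13 1 V96 :=
  levFact_of ⟨C19, C1, C13, C8, 19, 1, 13, 8, 32⟩ 3
    0x2010102020202010201020101010102020100
    0x1
    0x10102000202000201010000
    0x100020002000100
    4 1 1 3 1 8 19 1 13 1 V96
    ⟨C19_loop, C1_loop, C13_loop, C8_loop⟩ (by decide +kernel)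

theorem L148 : LevFact 23 1 1 31 1 V148 :=
  levFact_of ⟨C31, C1, C23, C1, 31, 1, 23, 1, 29⟩ 3
    0x100020101000202020102010000010201020202000101020001000000
    0x1
    0x202020201020102020101020201010201020101010100
    0x1
    3 1 1 1 1 23 1 1 31 1 V148
    ⟨C31_loop, C1_loop, C23_loop, C1_loop⟩ (by decide +kernel)

theorem L123 : LevFact 8 7 1 19 1 V123 :=
  levFact_of ⟨C19, C1, C8, C7, 19, 1, 8, 7, 30⟩ 3
    0x10102010200000202000002010201010000
    0x1
    0x100020002000100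
    0x2020102010100
    3 4 1 1 1 8 7 1 19 1 V123
    ⟨C19_loop, C1_loop, C8_loop, C7_loop⟩ (by decide +kernel)

theorem L136 : LevFact 5 19 1 9 1 V136 :=
  levFact_of ⟨C19, C1, C9, C5, 19, 1, 9, 5, 68⟩ 243
    0xf20101f2f2f2f201f201f201010101f2f20100
    0x1
    0x100020200010000
    0x1f2f20100
    4 1 1 3 1 5 19 1 9 1 V136
    ⟨C19_loop, C1_loop, C9_loop, C5_loop⟩ (by decide +kernel)

theorem L114 : LevFact 11 1 1 9 13 V114 :=
  levFact_of ⟨C13, C1, C11, C9, 13, 1, 11, 9, 69⟩ 243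
    0x10102000202000201010000
    0x1
    0xf201f2f2f2010101f20100
    0x100020200010000
    3 1 1 4 1 11 1 1 9 13 V114
    ⟨C13_loop, C1_loop, C11_loop, C9_loop⟩ (by decide +kernel)

theorem L192 : LevFact 11 1 1 19 1 V192 :=
  levFact_of ⟨C19, C1, C11, C1, 19, 1, 11, 1, 25⟩ 3
    0x10102010200000202000002010201010000
    0x1
    0x201020202010101020100
    0x1
    3 1 1 1 1 11 1 1 19 1 V192
    ⟨C19_loop, C1_loop, C11_loop, C1_loop⟩ (by decide +kernel)

theorem L132 : LevFact 16 1 1 9 13 V132 :=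
  levFact_of ⟨C13, C1, C9, C8, 13, 1, 9, 8, 68⟩ 243
    0x10102000202000201010000
    0x1
    0x100020200010000
    0xf200f20001000100
    4 1 1 3 1 16 1 1 9 13 V132
    ⟨C13_loop, C1_loop, C9_loop, C8_loop⟩ (by decide +kernel)

theorem L117 : LevFact 4 5 1 9 7 V117 :=
  levFact_of ⟨C4, C7, C9, C5, 4, 7, 9, 5, 69⟩ 243
    0xf2000100
    0x20101020000
    0x100020200010000
    0x1f2f20100
    1 4 1 3 2 4 5 1 9 7 V117
    ⟨C4_loop, C7_loop, C9_loop, C5_loop⟩ (by decide +kernel)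

theorem L160 : LevFact 16 1 1 9 7 V160 :=
  levFact_of ⟨C8, C1, C9, C7, 8, 1, 9, 7, 66⟩ 243
    0xf200f20001000100
    0x1
    0x100020200010000
    0x20101020000
    1 1 1 3 4 16 1 1 9 7 V160
    ⟨C8_loop, C1_loop, C9_loop, C7_loop⟩ (by decide +kernel)

theorem L175 : LevFact 16 5 1 9 1 V175 :=
  levFact_of ⟨C8, C1, C9, C5, 8, 1, 9, 5, 65⟩ 243
    0xf200f20001000100
    0x1
    0x100020200010000
    0x1f2f20100
    1 4 1 3 1 16 5 1 9 1 V175
    ⟨C8_loop, C1_loop, C9_loop, C5_loop⟩ (by decide +kernel)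

theorem L215 : LevFact 7 1 1 13 1 V215 :=
  levFact_of ⟨C13, C1, C7, C1, 13, 1, 7, 1, 23⟩ 3
    0x10102000202000201010000
    0x1
    0x2020102010100
    0x1
    3 1 1 1 1 7 1 1 13 1 V215
    ⟨C13_loop, C1_loop, C7_loop, C1_loop⟩ (by decide +kernel)

theorem L218 : LevFact 11 1 1 7 1 V218 :=
  levFact_of ⟨C11, C1, C7, C1, 11, 1, 7, 1, 23⟩ 3
    0x201020202010101020100
    0x1
    0x20101020000
    0x1
    1 1 1 3 1 11 1 1 7 1 V218
    ⟨C11_loop, C1_loop, C7_loop, C1_loop⟩ (by decide +kernel)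

theorem L223 : LevFact 16 1 1 7 1 V223 :=
  levFact_of ⟨C8, C1, C7, C1, 8, 1, 7, 1, 22⟩ 3
    0x200020001000100
    0x1
    0x20101020000
    0x1
    1 1 1 3 1 16 1 1 7 1 V223
    ⟨C8_loop, C1_loop, C7_loop, C1_loop⟩ (by decide +kernel)

theorem L231 : LevFact 4 1 1 9 1 V231 :=
  levFact_of ⟨C9, C1, C4, C1, 9, 1, 4, 1, 58⟩ 243
    0x100020200010000
    0x1
    0xf2000100
    0x1
    3 1 1 1 1 4 1 1 9 1 V231
    ⟨C9_loop, C1_loop, C4_loop, C1_loop⟩ (by decide +kernel)

theorem L183 : LevFact 16 1 5 7 1 V183 :=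
  levFact_of ⟨C7, C8, C5, C1, 7, 8, 5, 1, 26⟩ 3
    0x20101020000
    0x200020001000100
    0x102020100
    0x1
    2 1 3 1 1 16 1 5 7 1 V183
    ⟨C7_loop, C8_loop, C5_loop, C1_loop⟩ (by decide +kernel)

theorem L236 : LevFact 4 5 1 1 1 V236 :=
  levFact_of ⟨C5, C1, C4, C1, 5, 1, 4, 1, 19⟩ 3
    0x102020100
    0x1
    0x2000100
    0x1
    3 1 1 1 1 4 5 1 1 1 V236
    ⟨C5_loop, C1_loop, C4_loop, C1_loop⟩ (by decide +kernel)

theorem L225 : LevFact 11 1 5 1 1 V225 :=
  levFact_of ⟨C5, C11, C1, C1, 5, 11, 1, 1, 22⟩ 3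
    0x102020100
    0x201020202010101020100
    0x1
    0x1
    2 1 1 1 1 11 1 5 1 1 V225
    ⟨C5_loop, C11_loop, C1_loop, C1_loop⟩ (by decide +kernel)

end Pool.Agent.Lib.MP_15cb89_nt
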