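import Pool.Agent.Lib.MP_15cb89_nt.Tab
import Pool.Agent.Lib.MP_15cb89_nt.Loops
import Pool.Agent.Lib.MP_15cb89_nt.Vals

/-! Kernel checks of the tables. -/

set_option autoImplicit false
set_option maxRecDepth 100000

namespace Pool.Agent.Lib.MP_15cb89_nt

theorem L112 : LevFact 31 1 1 43 1 V112 :=
  levFact_of ⟨C43, C1, C31, C1, 43, 1, 31, 1, 31⟩ 3
    0x100010102000201000102020200020201010000010102020002020201000102000201010001000000
    0x1
    0x2020102020102020202010101020102010202020101010102010102010100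
    0x1
    3 1 1 1 1 31 1 1 43 1 V112
    ⟨C43_loop, C1_loop, C31_loop, C1_loop⟩ (by decide +kernel)

theorem L23 : LevFact 43 1 1 7 31 V23 :=
  levFact_of ⟨C43, C1, C31, C7, 43, 1, 31, 7, 36⟩ 3
    0x2010102010201010202020102020202020101010201020202010101010102010101020201020102020100
    0x1
    0x100020101000202020102010000010201020202000101020001000000
    0x20101020000
    1 1 1 4 3 43 1 1 7 31 V23
    ⟨C43_loop, C1_loop, C31_loop, C7_loop⟩ (by decide +kernel)

theorem L14 : LevFact 5 11 1 7 31 V14 :=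
  levFact_of ⟨C5, C31, C11, C7, 5, 31, 11, 7, 37⟩ 3
    0x102020100
    0x100020101000202020102010000010201020202000101020001000000
    0x201020202010101020100
    0x20101020000
    1 3 1 4 2 5 11 1 7 31 V14
    ⟨C5_loop, C31_loop, C11_loop, C7_loop⟩ (by decide +kernel)

theorem L113 : LevFact 43 1 1 31 1 V113 :=
  levFact_of ⟨C43, C1, C31, C1, 43, 1, 31, 1, 31⟩ 3
    0x2010102010201010202020102020202020101010201020202010101010102010101020201020102020100
    0x1
    0x100020101000202020102010000010201020202000101020001000000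
    0x1
    1 1 1 3 1 43 1 1 31 1 V113
    ⟨C43_loop, C1_loop, C31_loop, C1_loop⟩ (by decide +kernel)

theorem L15 : LevFact 8 11 1 7 19 V15 :=
  levFact_of ⟨C7, C11, C19, C8, 7, 11, 19, 8, 37⟩ 3
    0x20101020000
    0x201020202010101020100
    0x10102010200000202000002010201010000
    0x100020002000100
    4 2 1 1 3 8 11 1 7 19 V15
    ⟨C7_loop, C11_loop, C19_loop, C8_loop⟩ (by decide +kernel)

theorem L19 : LevFact 16 5 1 13 19 V19 :=
  levFact_of ⟨C5, C19, C13, C8, 5, 19, 13, 8, 37⟩ 3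
    0x102020100
    0x10102010200000202000002010201010000
    0x10102000202000201010000
    0x200020001000100
    4 1 1 3 2 16 5 1 13 19 V19
    ⟨C5_loop, C19_loop, C13_loop, C8_loop⟩ (by decide +kernel)

theorem L54 : LevFact 43 1 1 9 13 V54 :=
  levFact_of ⟨C43, C1, C9, C13, 43, 1, 9, 13, 73⟩ 243
    0xf20101f201f20101f2f2f201f2f2f2f2f2010101f201f2f2f20101010101f2010101f2f201f201f2f20100
    0x1
    0x100020200010000
    0x10102000202000201010000
    1 1 1 3 4 43 1 1 9 13 V54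
    ⟨C43_loop, C1_loop, C9_loop, C13_loop⟩ (by decide +kernel)

theorem L73 : LevFact 31 1 1 9 13 V73 :=
  levFact_of ⟨C31, C1, C13, C9, 31, 1, 13, 9, 72⟩ 243
    0xf2f201f2f201f2f2f2f2010101f201f201f2f2f201010101f20101f2010100
    0x1
    0x10102000202000201010000
    0x100020200010000
    1 1 1 4 3 31 1 1 9 13 V73
    ⟨C31_loop, C1_loop, C13_loop, C9_loop⟩ (by decide +kernel)

theorem L31 : LevFact 8 11 1 7 13 V31 :=
  levFact_of ⟨C7, C11, C13, C8, 7, 11, 13, 8, 36⟩ 3
    0x20101020000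
    0x201020202010101020100
    0x10102000202000201010000
    0x100020002000100
    4 2 1 1 3 8 11 1 7 13 V31
    ⟨C7_loop, C11_loop, C13_loop, C8_loop⟩ (by decide +kernel)

theorem L93 : LevFact 16 1 1 9 31 V93 :=
  levFact_of ⟨C31, C1, C9, C8, 31, 1, 9, 8, 70⟩ 243
    0x100020101000202020102010000010201020202000101020001000000
    0x1
    0x100020200010000
    0xf200f20001000100
    4 1 1 3 1 16 1 1 9 31 V93
    ⟨C31_loop, C1_loop, C9_loop, C8_loop⟩ (by decide +kernel)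

theorem L169 : LevFact 43 1 1 9 1 V169 :=
  levFact_of ⟨C43, C1, C9, C1, 43, 1, 9, 1, 65⟩ 243
    0xf20101f201f20101f2f2f201f2f2f2f2f2010101f201f2f2f20101010101f2010101f2f201f201f2f20100
    0x1
    0x100020200010000
    0x1
    1 1 1 3 1 43 1 1 9 1 V169
    ⟨C43_loop, C1_loop, C9_loop, C1_loop⟩ (by decide +kernel)

theorem L177 : LevFact 11 1 1 31 1 V177 :=
  levFact_of ⟨C31, C1, C11, C1, 31, 1, 11, 1, 27⟩ 3
    0x100020101000202020102010000010201020202000101020001000000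
    0x1
    0x201020202010101020100
    0x1
    3 1 1 1 1 11 1 1 31 1 V177
    ⟨C31_loop, C1_loop, C11_loop, C1_loop⟩ (by decide +kernel)

theorem L184 : LevFact 31 1 1 9 1 V184 :=
  levFact_of ⟨C31, C1, C9, C1, 31, 1, 9, 1, 64⟩ 243
    0xf2f201f2f201f2f2f2f2010101f201f201f2f2f201010101f20101f2010100
    0x1
    0x100020200010000
    0x1
    1 1 1 3 1 31 1 1 9 1 V184
    ⟨C31_loop, C1_loop, C9_loop, C1_loop⟩ (by decide +kernel)

theorem L99 : LevFact 31 1 1 9 7 V99 :=
  levFact_of ⟨C31, C1, C9, C7, 31, 1, 9, 7, 70⟩ 243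
    0xf2f201f2f201f2f2f2f2010101f201f201f2f2f201010101f20101f2010100
    0x1
    0x100020200010000
    0x20101020000
    1 1 1 3 4 31 1 1 9 7 V99
    ⟨C31_loop, C1_loop, C9_loop, C7_loop⟩ (by decide +kernel)

theorem L97 : LevFact 16 1 1 13 19 V97 :=
  levFact_of ⟨C19, C1, C13, C8, 19, 1, 13, 8, 32⟩ 3
    0x10102010200000202000002010201010000
    0x1
    0x10102000202000201010000
    0x200020001000100
    4 1 1 3 1 16 1 1 13 19 V97
    ⟨C19_loop, C1_loop, C13_loop, C8_loop⟩ (by decide +kernel)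

theorem L110 : LevFact 8 19 1 9 1 V110 :=
  levFact_of ⟨C19, C1, C9, C8, 19, 1, 9, 8, 69⟩ 243
    0xf20101f2f2f2f201f201f201010101f2f20100
    0x1
    0x100020200010000
    0x100f200f2000100
    4 1 1 3 1 8 19 1 9 1 V110
    ⟨C19_loop, C1_loop, C9_loop, C8_loop⟩ (by decide +kernel)

theorem L111 : LevFact 16 1 1 9 19 V111 :=
  levFact_of ⟨C19, C1, C9, C8, 19, 1, 9, 8, 69⟩ 243
    0x10102010200000202000002010201010000
    0x1
    0x100020200010000
    0xf200f20001000100
    4 1 1 3 1 16 1 1 9 19 V111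
    ⟨C19_loop, C1_loop, C9_loop, C8_loop⟩ (by decide +kernel)

theorem L141 : LevFact 16 5 1 19 1 V141 :=
  levFact_of ⟨C19, C1, C8, C5, 19, 1, 8, 5, 29⟩ 3
    0x10102010200000202000002010201010000
    0x1
    0x200020001000100
    0x102020100
    3 4 1 1 1 16 5 1 19 1 V141
    ⟨C19_loop, C1_loop, C8_loop, C5_loop⟩ (by decide +kernel)

theorem L40 : LevFact 16 1 13 9 7 V40 :=
  levFact_of ⟨C7, C8, C13, C9, 7, 8, 13, 9, 73⟩ 243
    0x20101020000
    0xf200f20001000100
    0x1f20101f2f2f2f20101f20100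
    0x100020200010000
    2 1 3 4 1 16 1 13 9 7 V40
    ⟨C7_loop, C8_loop, C13_loop, C9_loop⟩ (by decide +kernel)

theorem L188 : LevFact 19 1 1 13 1 V188 :=
  levFact_of ⟨C19, C1, C13, C1, 19, 1, 13, 1, 26⟩ 3
    0x2010102020202010201020101010102020100
    0x1
    0x10102000202000201010000
    0x1
    1 1 1 3 1 19 1 1 13 1 V188
    ⟨C19_loop, C1_loop, C13_loop, C1_loop⟩ (by decide +kernel)

theorem L196 : LevFact 19 1 1 9 1 V196 :=
  levFact_of ⟨C19, C1, C9, C1, 19, 1, 9, 1, 63⟩ 243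
    0xf20101f2f2f2f201f201f201010101f2f20100
    0x1
    0x100020200010000
    0x1
    1 1 1 3 1 19 1 1 9 1 V196
    ⟨C19_loop, C1_loop, C9_loop, C1_loop⟩ (by decide +kernel)

theorem L77 : LevFact 16 1 13 31 1 V77 :=
  levFact_of ⟨C8, C13, C31, C1, 8, 13, 31, 1, 33⟩ 3
    0x200020001000100
    0x1020101020202020101020100
    0x100020101000202020102010000010201020202000101020001000000
    0x1
    1 1 2 3 1 16 1 13 31 1 V77
    ⟨C8_loop, C13_loop, C31_loop, C1_loop⟩ (by decide +kernel)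

theorem L164 : LevFact 5 7 1 13 1 V164 :=
  levFact_of ⟨C13, C1, C7, C5, 13, 1, 7, 5, 28⟩ 3
    0x10102000202000201010000
    0x1
    0x2020102010100
    0x102020100
    4 3 1 1 1 5 7 1 13 1 V164
    ⟨C13_loop, C1_loop, C7_loop, C5_loop⟩ (by decide +kernel)

theorem L163 : LevFact 4 1 1 9 13 V163 :=
  levFact_of ⟨C13, C1, C9, C4, 13, 1, 9, 4, 66⟩ 243
    0x10102000202000201010000
    0x1
    0x100020200010000
    0xf2000100
    4 1 1 3 1 4 1 1 9 13 V163
    ⟨C13_loop, C1_loop, C9_loop, C4_loop⟩ (by decide +kernel)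

theorem L109 : LevFact 31 1 5 9 1 V109 :=
  levFact_of ⟨C5, C9, C31, C1, 5, 9, 31, 1, 69⟩ 243
    0x1f2f20100
    0x100020200010000
    0xf2f201f2f201f2f2f2f2010101f201f201f2f2f201010101f20101f2010100
    0x1
    3 1 1 2 1 31 1 5 9 1 V109
    ⟨C5_loop, C9_loop, C31_loop, C1_loop⟩ (by decide +kernel)

theorem L216 : LevFact 7 13 1 1 1 V216 :=
  levFact_of ⟨C13, C1, C7, C1, 13, 1, 7, 1, 23⟩ 3
    0x1020101020202020101020100
    0x1
    0x2020102010100
    0x1
    3 1 1 1 1 7 13 1 1 1 V216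
    ⟨C13_loop, C1_loop, C7_loop, C1_loop⟩ (by decide +kernel)

theorem L239 : LevFact 11 1 1 1 1 V239 :=
  levFact_of ⟨C11, C1, C1, C1, 11, 1, 1, 1, 17⟩ 3
    0x201020202010101020100
    0x1
    0x1
    0x1
    1 1 1 1 1 11 1 1 1 1 V239
    ⟨C11_loop, C1_loop, C1_loop, C1_loop⟩ (by decide +kernel)

theorem L165 : LevFact 7 13 5 1 1 V165 :=
  levFact_of ⟨C7, C13, C5, C1, 7, 13, 5, 1, 28⟩ 3
    0x2020102010100
    0x1020101020202020101020100
    0x102020100
    0x1
    1 2 3 1 1 7 13 5 1 1 V165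
    ⟨C7_loop, C13_loop, C5_loop, C1_loop⟩ (by decide +kernel)

theorem L232 : LevFact 5 7 1 1 1 V232 :=
  levFact_of ⟨C7, C1, C5, C1, 7, 1, 5, 1, 20⟩ 3
    0x2020102010100
    0x1
    0x102020100
    0x1
    3 1 1 1 1 5 7 1 1 1 V232
    ⟨C7_loop, C1_loop, C5_loop, C1_loop⟩ (by decide +kernel)

theorem L211 : LevFact 16 1 13 1 1 V211 :=
  levFact_of ⟨C8, C13, C1, C1, 8, 13, 1, 1, 23⟩ 3
    0x200020001000100
    0x1020101020202020101020100
    0x1
    0x1
    1 1 2 1 1 16 1 13 1 1 V211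
    ⟨C8_loop, C13_loop, C1_loop, C1_loop⟩ (by decide +kernel)

end Pool.Agent.Lib.MP_15cb89_nt
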