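import Pool.Agent.Lib.MP_15cb89_nt.Tab
import Pool.Agent.Lib.MP_15cb89_nt.Loops
import Pool.Agent.Lib.MP_15cb89_nt.Vals

/-! Kernel checks of the tables. -/

set_option autoImplicit false
set_option maxRecDepth 100000

namespace Pool.Agent.Lib.MP_15cb89_nt

theorem L12 : LevFact 31 1 1 9 43 V12 :=
  levFact_of ⟨C43, C1, C9, C31, 43, 1, 9, 31, 75⟩ 243
    0x100010102000201000102020200020201010000010102020002020201000102000201010001000000
    0x1
    0x100020200010000
    0xf2f201f2f201f2f2f2f2010101f201f201f2f2f201010101f20101f2010100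
    4 1 1 3 1 31 1 1 9 43 V12
    ⟨C43_loop, C1_loop, C9_loop, C31_loop⟩ (by decide +kernel)

theorem L42 : LevFact 8 19 1 43 1 V42 :=
  levFact_of ⟨C43, C1, C19, C8, 43, 1, 19, 8, 35⟩ 3
    0x100010102000201000102020200020201010000010102020002020201000102000201010001000000
    0x1
    0x2010102020202010201020101010102020100
    0x100020002000100
    4 3 1 1 1 8 19 1 43 1 V42
    ⟨C43_loop, C1_loop, C19_loop, C8_loop⟩ (by decide +kernel)

theorem L87 : LevFact 16 1 1 7 43 V87 :=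
  levFact_of ⟨C43, C1, C8, C7, 43, 1, 8, 7, 32⟩ 3
    0x100010102000201000102020200020201010000010102020002020201000102000201010001000000
    0x1
    0x200020001000100
    0x20101020000
    3 1 1 4 1 16 1 1 7 43 V87
    ⟨C43_loop, C1_loop, C8_loop, C7_loop⟩ (by decide +kernel)

theorem L195 : LevFact 4 1 1 43 1 V195 :=
  levFact_of ⟨C43, C1, C4, C1, 43, 1, 4, 1, 25⟩ 3
    0x100010102000201000102020200020201010000010102020002020201000102000201010001000000
    0x1
    0x2000100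
    0x1
    3 1 1 1 1 4 1 1 43 1 V195
    ⟨C43_loop, C1_loop, C4_loop, C1_loop⟩ (by decide +kernel)

theorem L156 : LevFact 43 1 1 13 1 V156 :=
  levFact_of ⟨C43, C1, C13, C1, 43, 1, 13, 1, 28⟩ 3
    0x2010102010201010202020102020202020101010201020202010101010102010101020201020102020100
    0x1
    0x10102000202000201010000
    0x1
    1 1 1 3 1 43 1 1 13 1 V156
    ⟨C43_loop, C1_loop, C13_loop, C1_loop⟩ (by decide +kernel)

theorem L138 : LevFact 19 1 1 43 1 V138 :=
  levFact_of ⟨C43, C1, C19, C1, 43, 1, 19, 1, 29⟩ 3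
    0x100010102000201000102020200020201010000010102020002020201000102000201010001000000
    0x1
    0x2010102020202010201020101010102020100
    0x1
    3 1 1 1 1 19 1 1 43 1 V138
    ⟨C43_loop, C1_loop, C19_loop, C1_loop⟩ (by decide +kernel)

theorem L62 : LevFact 11 1 1 13 31 V62 :=
  levFact_of ⟨C31, C1, C13, C11, 31, 1, 13, 11, 34⟩ 3
    0x100020101000202020102010000010201020202000101020001000000
    0x1
    0x10102000202000201010000
    0x201020202010101020100
    4 1 1 3 1 11 1 1 13 31 V62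
    ⟨C31_loop, C1_loop, C13_loop, C11_loop⟩ (by decide +kernel)

theorem L103 : LevFact 16 5 1 43 1 V103 :=
  levFact_of ⟨C43, C1, C8, C5, 43, 1, 8, 5, 32⟩ 3
    0x100010102000201000102020200020201010000010102020002020201000102000201010001000000
    0x1
    0x200020001000100
    0x102020100
    3 4 1 1 1 16 5 1 43 1 V103
    ⟨C43_loop, C1_loop, C8_loop, C5_loop⟩ (by decide +kernel)

theorem L84 : LevFact 7 1 1 9 43 V84 :=
  levFact_of ⟨C43, C1, C9, C7, 43, 1, 9, 7, 71⟩ 243
    0x100010102000201000102020200020201010000010102020002020201000102000201010001000000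
    0x1
    0x100020200010000
    0xf2f201f2010100
    4 1 1 3 1 7 1 1 9 43 V84
    ⟨C43_loop, C1_loop, C9_loop, C7_loop⟩ (by decide +kernel)

theorem L47 : LevFact 5 7 1 9 19 V47 :=
  levFact_of ⟨C5, C7, C19, C9, 5, 7, 19, 9, 73⟩ 243
    0x1f2f20100
    0xf2f201f2010100
    0x10102010200000202000002010201010000
    0x100020200010000
    1 2 1 4 3 5 7 1 9 19 V47
    ⟨C5_loop, C7_loop, C19_loop, C9_loop⟩ (by decide +kernel)

theorem L106 : LevFact 4 1 1 13 31 V106 :=
  levFact_of ⟨C31, C1, C13, C4, 31, 1, 13, 4, 31⟩ 3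
    0x100020101000202020102010000010201020202000101020001000000
    0x1
    0x10102000202000201010000
    0x2000100
    4 1 1 3 1 4 1 1 13 31 V106
    ⟨C31_loop, C1_loop, C13_loop, C4_loop⟩ (by decide +kernel)

theorem L168 : LevFact 31 1 1 13 1 V168 :=
  levFact_of ⟨C31, C1, C13, C1, 31, 1, 13, 1, 27⟩ 3
    0x2020102020102020202010101020102010202020101010102010102010100
    0x1
    0x10102000202000201010000
    0x1
    1 1 1 3 1 31 1 1 13 1 V168
    ⟨C31_loop, C1_loop, C13_loop, C1_loop⟩ (by decide +kernel)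

theorem L207 : LevFact 4 1 1 31 1 V207 :=
  levFact_of ⟨C31, C1, C4, C1, 31, 1, 4, 1, 24⟩ 3
    0x100020101000202020102010000010201020202000101020001000000
    0x1
    0x2000100
    0x1
    3 1 1 1 1 4 1 1 31 1 V207
    ⟨C31_loop, C1_loop, C4_loop, C1_loop⟩ (by decide +kernel)

theorem L49 : LevFact 23 1 1 13 19 V49 :=
  levFact_of ⟨C23, C1, C19, C13, 23, 1, 19, 13, 35⟩ 3
    0x202020201020102020101020201010201020101010100
    0x1
    0x10102010200000202000002010201010000
    0x10102000202000201010000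
    1 1 1 4 3 23 1 1 13 19 V49
    ⟨C23_loop, C1_loop, C19_loop, C13_loop⟩ (by decide +kernel)

theorem L74 : LevFact 5 11 1 9 7 V74 :=
  levFact_of ⟨C5, C11, C9, C7, 5, 11, 9, 7, 72⟩ 243
    0x1f2f20100
    0xf201f2f2f2010101f20100
    0x100020200010000
    0x20101020000
    1 2 1 3 4 5 11 1 9 7 V74
    ⟨C5_loop, C11_loop, C9_loop, C7_loop⟩ (by decide +kernel)

theorem L119 : LevFact 5 19 1 13 1 V119 :=
  levFact_of ⟨C19, C1, C13, C5, 19, 1, 13, 5, 31⟩ 3
    0x2010102020202010201020101010102020100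
    0x1
    0x10102000202000201010000
    0x102020100
    4 1 1 3 1 5 19 1 13 1 V119
    ⟨C19_loop, C1_loop, C13_loop, C5_loop⟩ (by decide +kernel)

theorem L90 : LevFact 4 5 1 9 13 V90 :=
  levFact_of ⟨C4, C13, C9, C5, 4, 13, 9, 5, 70⟩ 243
    0xf2000100
    0x10102000202000201010000
    0x100020200010000
    0x1f2f20100
    1 4 1 3 2 4 5 1 9 13 V90
    ⟨C4_loop, C13_loop, C9_loop, C5_loop⟩ (by decide +kernel)

theorem L124 : LevFact 16 1 1 7 19 V124 :=
  levFact_of ⟨C19, C1, C8, C7, 19, 1, 8, 7, 30⟩ 3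
    0x10102010200000202000002010201010000
    0x1
    0x200020001000100
    0x20101020000
    3 1 1 4 1 16 1 1 7 19 V124
    ⟨C19_loop, C1_loop, C8_loop, C7_loop⟩ (by decide +kernel)

theorem L193 : LevFact 23 1 1 9 1 V193 :=
  levFact_of ⟨C23, C1, C9, C1, 23, 1, 9, 1, 63⟩ 243
    0xf2f2f2f201f201f2f20101f2f20101f201f20101010100
    0x1
    0x100020200010000
    0x1
    1 1 1 3 1 23 1 1 9 1 V193
    ⟨C23_loop, C1_loop, C9_loop, C1_loop⟩ (by decide +kernel)

theorem L181 : LevFact 23 1 1 13 1 V181 :=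
  levFact_of ⟨C23, C1, C13, C1, 23, 1, 13, 1, 26⟩ 3
    0x202020201020102020101020201010201020101010100
    0x1
    0x10102000202000201010000
    0x1
    1 1 1 3 1 23 1 1 13 1 V181
    ⟨C23_loop, C1_loop, C13_loop, C1_loop⟩ (by decide +kernel)

theorem L199 : LevFact 8 19 1 1 1 V199 :=
  levFact_of ⟨C19, C1, C8, C1, 19, 1, 8, 1, 25⟩ 3
    0x2010102020202010201020101010102020100
    0x1
    0x100020002000100
    0x1
    3 1 1 1 1 8 19 1 1 1 V199
    ⟨C19_loop, C1_loop, C8_loop, C1_loop⟩ (by decide +kernel)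

theorem L144 : LevFact 16 13 1 7 1 V144 :=
  levFact_of ⟨C13, C1, C8, C7, 13, 1, 8, 7, 29⟩ 3
    0x1020101020202020101020100
    0x1
    0x200020001000100
    0x20101020000
    3 1 1 4 1 16 13 1 7 1 V144
    ⟨C13_loop, C1_loop, C8_loop, C7_loop⟩ (by decide +kernel)

theorem L174 : LevFact 4 1 1 7 13 V174 :=
  levFact_of ⟨C13, C1, C7, C4, 13, 1, 7, 4, 27⟩ 3
    0x10102000202000201010000
    0x1
    0x20101020000
    0x2000100
    4 1 1 3 1 4 1 1 7 13 V174
    ⟨C13_loop, C1_loop, C7_loop, C4_loop⟩ (by decide +kernel)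

theorem L209 : LevFact 16 1 1 13 1 V209 :=
  levFact_of ⟨C13, C1, C8, C1, 13, 1, 8, 1, 23⟩ 3
    0x10102000202000201010000
    0x1
    0x200020001000100
    0x1
    3 1 1 1 1 16 1 1 13 1 V209
    ⟨C13_loop, C1_loop, C8_loop, C1_loop⟩ (by decide +kernel)

theorem L178 : LevFact 5 7 1 9 1 V178 :=
  levFact_of ⟨C5, C7, C9, C1, 5, 7, 9, 1, 65⟩ 243
    0x1f2f20100
    0xf2f201f2010100
    0x100020200010000
    0x1
    1 2 1 3 1 5 7 1 9 1 V178
    ⟨C5_loop, C7_loop, C9_loop, C1_loop⟩ (by decide +kernel)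

theorem L116 : LevFact 11 1 13 9 1 V116 :=
  levFact_of ⟨C9, C11, C13, C1, 9, 11, 13, 1, 69⟩ 243
    0x100020200010000
    0xf201f2f2f2010101f20100
    0x1f20101f2f2f2f20101f20100
    0x1
    2 1 3 1 1 11 1 13 9 1 V116
    ⟨C9_loop, C11_loop, C13_loop, C1_loop⟩ (by decide +kernel)

theorem L222 : LevFact 8 7 1 1 1 V222 :=
  levFact_of ⟨C8, C1, C7, C1, 8, 1, 7, 1, 22⟩ 3
    0x100020002000100
    0x1
    0x2020102010100
    0x1
    1 3 1 1 1 8 7 1 1 1 V222
    ⟨C8_loop, C1_loop, C7_loop, C1_loop⟩ (by decide +kernel)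

theorem L166 : LevFact 8 11 5 1 1 V166 :=
  levFact_of ⟨C8, C11, C5, C1, 8, 11, 5, 1, 28⟩ 3
    0x100020002000100
    0x201020202010101020100
    0x102020100
    0x1
    1 2 3 1 1 8 11 5 1 1 V166
    ⟨C8_loop, C11_loop, C5_loop, C1_loop⟩ (by decide +kernel)

theorem L171 : LevFact 11 1 5 7 1 V171 :=
  levFact_of ⟨C7, C11, C5, C1, 7, 11, 5, 1, 27⟩ 3
    0x20101020000
    0x201020202010101020100
    0x102020100
    0x1
    2 1 3 1 1 11 1 5 7 1 V171
    ⟨C7_loop, C11_loop, C5_loop, C1_loop⟩ (by decide +kernel)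

theorem L208 : LevFact 23 1 5 1 1 V208 :=
  levFact_of ⟨C5, C23, C1, C1, 5, 23, 1, 1, 24⟩ 3
    0x102020100
    0x202020201020102020101020201010201020101010100
    0x1
    0x1
    2 1 1 1 1 23 1 5 1 1 V208
    ⟨C5_loop, C23_loop, C1_loop, C1_loop⟩ (by decide +kernel)

theorem L237 : LevFact 4 1 5 1 1 V237 :=
  levFact_of ⟨C4, C5, C1, C1, 4, 5, 1, 1, 19⟩ 3
    0x2000100
    0x102020100
    0x1
    0x1
    1 1 2 1 1 4 1 5 1 1 V237
    ⟨C4_loop, C5_loop, C1_loop, C1_loop⟩ (by decide +kernel)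

end Pool.Agent.Lib.MP_15cb89_nt
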