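import Pool.Agent.Lib.MP_15cb89_nt.Tab
import Pool.Agent.Lib.MP_15cb89_nt.Loops
import Pool.Agent.Lib.MP_15cb89_nt.Vals

/-! Kernel checks of the tables. -/

set_option autoImplicit false
set_option maxRecDepth 100000

namespace Pool.Agent.Lib.MP_15cb89_nt

theorem L4 : LevFact 4 13 1 7 43 V4 :=
  levFact_of ⟨C4, C7, C13, C43, 4, 7, 13, 43, 38⟩ 3
    0x2000100
    0x20101020000
    0x1020101020202020101020100
    0x100010102000201000102020200020201010000010102020002020201000102000201010001000000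
    1 3 1 2 4 4 13 1 7 43 V4
    ⟨C4_loop, C7_loop, C13_loop, C43_loop⟩ (by decide +kernel)

theorem L46 : LevFact 4 5 1 7 43 V46 :=
  levFact_of ⟨C4, C43, C5, C7, 4, 43, 5, 7, 35⟩ 3
    0x2000100
    0x100010102000201000102020200020201010000010102020002020201000102000201010001000000
    0x102020100
    0x20101020000
    1 3 1 4 2 4 5 1 7 43 V46
    ⟨C4_loop, C43_loop, C5_loop, C7_loop⟩ (by decide +kernel)

theorem L91 : LevFact 4 1 1 13 43 V91 :=
  levFact_of ⟨C43, C1, C13, C4, 43, 1, 13, 4, 32⟩ 3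
    0x100010102000201000102020200020201010000010102020002020201000102000201010001000000
    0x1
    0x10102000202000201010000
    0x2000100
    4 1 1 3 1 4 1 1 13 43 V91
    ⟨C43_loop, C1_loop, C13_loop, C4_loop⟩ (by decide +kernel)

theorem L10 : LevFact 23 1 1 13 43 V10 :=
  levFact_of ⟨C43, C1, C13, C23, 43, 1, 13, 23, 37⟩ 3
    0x100010102000201000102020200020201010000010102020002020201000102000201010001000000
    0x1
    0x10102000202000201010000
    0x202020201020102020101020201010201020101010100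
    4 1 1 3 1 23 1 1 13 43 V10
    ⟨C43_loop, C1_loop, C13_loop, C23_loop⟩ (by decide +kernel)

theorem L27 : LevFact 16 5 1 7 31 V27 :=
  levFact_of ⟨C5, C31, C8, C7, 5, 31, 8, 7, 36⟩ 3
    0x102020100
    0x100020101000202020102010000010201020202000101020001000000
    0x200020001000100
    0x20101020000
    3 1 1 4 2 16 5 1 7 31 V27
    ⟨C5_loop, C31_loop, C8_loop, C7_loop⟩ (by decide +kernel)

theorem L13 : LevFact 43 1 1 9 31 V13 :=
  levFact_of ⟨C9, C1, C31, C43, 9, 1, 31, 43, 75⟩ 243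
    0x100020200010000
    0x1
    0x100020101000202020102010000010201020202000101020001000000
    0xf20101f201f20101f2f2f201f2f2f2f2f2010101f201f2f2f20101010101f2010101f2f201f201f2f20100
    4 1 1 1 3 43 1 1 9 31 V13
    ⟨C9_loop, C1_loop, C31_loop, C43_loop⟩ (by decide +kernel)

theorem L57 : LevFact 8 19 1 31 1 V57 :=
  levFact_of ⟨C31, C1, C19, C8, 31, 1, 19, 8, 34⟩ 3
    0x100020101000202020102010000010201020202000101020001000000
    0x1
    0x2010102020202010201020101010102020100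
    0x100020002000100
    4 3 1 1 1 8 19 1 31 1 V57
    ⟨C31_loop, C1_loop, C19_loop, C8_loop⟩ (by decide +kernel)

theorem L0 : LevFact 16 1 13 9 31 V0 :=
  levFact_of ⟨C8, C9, C13, C31, 8, 9, 13, 31, 78⟩ 243
    0xf200f20001000100
    0x100020200010000
    0x1f20101f2f2f2f20101f20100
    0x100020101000202020102010000010201020202000101020001000000
    1 1 3 2 4 16 1 13 9 31 V0
    ⟨C8_loop, C9_loop, C13_loop, C31_loop⟩ (by decide +kernel)

theorem L34 : LevFact 5 11 1 7 19 V34 :=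
  levFact_of ⟨C5, C19, C11, C7, 5, 19, 11, 7, 36⟩ 3
    0x102020100
    0x10102010200000202000002010201010000
    0x201020202010101020100
    0x20101020000
    1 3 1 4 2 5 11 1 7 19 V34
    ⟨C5_loop, C19_loop, C11_loop, C7_loop⟩ (by decide +kernel)

theorem L154 : LevFact 31 1 1 19 1 V154 :=
  levFact_of ⟨C31, C1, C19, C1, 31, 1, 19, 1, 28⟩ 3
    0x2020102020102020202010101020102010202020101010102010102010100
    0x1
    0x10102010200000202000002010201010000
    0x1
    1 1 1 3 1 31 1 1 19 1 V154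
    ⟨C31_loop, C1_loop, C19_loop, C1_loop⟩ (by decide +kernel)

theorem L48 : LevFact 5 19 1 9 7 V48 :=
  levFact_of ⟨C5, C7, C19, C9, 5, 7, 19, 9, 73⟩ 243
    0x1f2f20100
    0x20101020000
    0xf20101f2f2f2f201f201f201010101f2f20100
    0x100020200010000
    1 3 1 4 2 5 19 1 9 7 V48
    ⟨C5_loop, C7_loop, C19_loop, C9_loop⟩ (by decide +kernel)

theorem L82 : LevFact 8 11 1 31 1 V82 :=
  levFact_of ⟨C31, C1, C11, C8, 31, 1, 11, 8, 33⟩ 3
    0x100020101000202020102010000010201020202000101020001000000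
    0x1
    0x201020202010101020100
    0x100020002000100
    4 3 1 1 1 8 11 1 31 1 V82
    ⟨C31_loop, C1_loop, C11_loop, C8_loop⟩ (by decide +kernel)

theorem L190 : LevFact 31 1 1 7 1 V190 :=
  levFact_of ⟨C31, C1, C7, C1, 31, 1, 7, 1, 26⟩ 3
    0x2020102020102020202010101020102010202020101010102010102010100
    0x1
    0x20101020000
    0x1
    1 1 1 3 1 31 1 1 7 1 V190
    ⟨C31_loop, C1_loop, C7_loop, C1_loop⟩ (by decide +kernel)

theorem L59 : LevFact 16 5 1 9 13 V59 :=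
  levFact_of ⟨C5, C8, C13, C9, 5, 8, 13, 9, 72⟩ 243
    0x1f2f20100
    0xf200f20001000100
    0x10102000202000201010000
    0x100020200010000
    2 1 1 4 3 16 5 1 9 13 V59
    ⟨C5_loop, C8_loop, C13_loop, C9_loop⟩ (by decide +kernel)

theorem L98 : LevFact 16 13 1 19 1 V98 :=
  levFact_of ⟨C19, C1, C13, C8, 19, 1, 13, 8, 32⟩ 3
    0x10102010200000202000002010201010000
    0x1
    0x1020101020202020101020100
    0x200020001000100
    4 3 1 1 1 16 13 1 19 1 V98
    ⟨C19_loop, C1_loop, C13_loop, C8_loop⟩ (by decide +kernel)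

theorem L25 : LevFact 11 1 13 9 7 V25 :=
  levFact_of ⟨C7, C9, C11, C13, 7, 9, 11, 13, 74⟩ 243
    0x20101020000
    0x100020200010000
    0xf201f2f2f2010101f20100
    0x1f20101f2f2f2f20101f20100
    3 1 4 2 1 11 1 13 9 7 V25
    ⟨C7_loop, C9_loop, C11_loop, C13_loop⟩ (by decide +kernel)

theorem L86 : LevFact 16 5 1 9 7 V86 :=
  levFact_of ⟨C5, C7, C9, C8, 5, 7, 9, 8, 71⟩ 243
    0x1f2f20100
    0x20101020000
    0x100020200010000
    0xf200f20001000100
    4 1 1 3 2 16 5 1 9 7 V86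
    ⟨C5_loop, C7_loop, C9_loop, C8_loop⟩ (by decide +kernel)

theorem L30 : LevFact 4 13 5 31 1 V30 :=
  levFact_of ⟨C5, C13, C4, C31, 5, 13, 4, 31, 36⟩ 3
    0x102020100
    0x1020101020202020101020100
    0x2000100
    0x100020101000202020102010000010201020202000101020001000000
    3 2 1 4 1 4 13 5 31 1 V30
    ⟨C5_loop, C13_loop, C4_loop, C31_loop⟩ (by decide +kernel)

theorem L151 : LevFact 5 19 1 7 1 V151 :=
  levFact_of ⟨C19, C1, C7, C5, 19, 1, 7, 5, 29⟩ 3
    0x2010102020202010201020101010102020100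
    0x1
    0x20101020000
    0x102020100
    4 1 1 3 1 5 19 1 7 1 V151
    ⟨C19_loop, C1_loop, C7_loop, C5_loop⟩ (by decide +kernel)

theorem L172 : LevFact 4 5 1 19 1 V172 :=
  levFact_of ⟨C19, C1, C5, C4, 19, 1, 5, 4, 27⟩ 3
    0x10102010200000202000002010201010000
    0x1
    0x102020100
    0x2000100
    4 3 1 1 1 4 5 1 19 1 V172
    ⟨C19_loop, C1_loop, C5_loop, C4_loop⟩ (by decide +kernel)

theorem L147 : LevFact 5 11 1 13 1 V147 :=
  levFact_of ⟨C13, C1, C11, C5, 13, 1, 11, 5, 29⟩ 3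
    0x10102000202000201010000
    0x1
    0x201020202010101020100
    0x102020100
    4 3 1 1 1 5 11 1 13 1 V147
    ⟨C13_loop, C1_loop, C11_loop, C5_loop⟩ (by decide +kernel)

theorem L149 : LevFact 11 1 1 9 7 V149 :=
  levFact_of ⟨C11, C1, C9, C7, 11, 1, 9, 7, 67⟩ 243
    0xf201f2f2f2010101f20100
    0x1
    0x100020200010000
    0x20101020000
    1 1 1 3 4 11 1 1 9 7 V149
    ⟨C11_loop, C1_loop, C9_loop, C7_loop⟩ (by decide +kernel)

theorem L161 : LevFact 5 11 1 9 1 V161 :=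
  levFact_of ⟨C11, C1, C9, C5, 11, 1, 9, 5, 66⟩ 243
    0xf201f2f2f2010101f20100
    0x1
    0x100020200010000
    0x1f2f20100
    4 1 1 3 1 5 11 1 9 1 V161
    ⟨C11_loop, C1_loop, C9_loop, C5_loop⟩ (by decide +kernel)

theorem L202 : LevFact 11 13 1 1 1 V202 :=
  levFact_of ⟨C13, C1, C11, C1, 13, 1, 11, 1, 24⟩ 3
    0x1020101020202020101020100
    0x1
    0x201020202010101020100
    0x1
    3 1 1 1 1 11 13 1 1 1 V202
    ⟨C13_loop, C1_loop, C11_loop, C1_loop⟩ (by decide +kernel)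

theorem L227 : LevFact 4 1 1 13 1 V227 :=
  levFact_of ⟨C13, C1, C4, C1, 13, 1, 4, 1, 21⟩ 3
    0x10102000202000201010000
    0x1
    0x2000100
    0x1
    3 1 1 1 1 4 1 1 13 1 V227
    ⟨C13_loop, C1_loop, C4_loop, C1_loop⟩ (by decide +kernel)

theorem L194 : LevFact 4 5 1 9 1 V194 :=
  levFact_of ⟨C9, C1, C5, C4, 9, 1, 5, 4, 63⟩ 243
    0x100020200010000
    0x1
    0x1f2f20100
    0xf2000100
    4 3 1 1 1 4 5 1 9 1 V194
    ⟨C9_loop, C1_loop, C5_loop, C4_loop⟩ (by decide +kernel)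

theorem L137 : LevFact 19 1 5 9 1 V137 :=
  levFact_of ⟨C5, C9, C19, C1, 5, 9, 19, 1, 68⟩ 243
    0x1f2f20100
    0x100020200010000
    0xf20101f2f2f2f201f201f201010101f2f20100
    0x1
    3 1 1 2 1 19 1 5 9 1 V137
    ⟨C5_loop, C9_loop, C19_loop, C1_loop⟩ (by decide +kernel)

theorem L229 : LevFact 16 5 1 1 1 V229 :=
  levFact_of ⟨C8, C1, C5, C1, 8, 1, 5, 1, 21⟩ 3
    0x200020001000100
    0x1
    0x102020100
    0x1
    1 3 1 1 1 16 5 1 1 1 V229
    ⟨C8_loop, C1_loop, C5_loop, C1_loop⟩ (by decide +kernel)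

theorem L234 : LevFact 4 1 1 7 1 V234 :=
  levFact_of ⟨C7, C1, C4, C1, 7, 1, 4, 1, 20⟩ 3
    0x20101020000
    0x1
    0x2000100
    0x1
    3 1 1 1 1 4 1 1 7 1 V234
    ⟨C7_loop, C1_loop, C4_loop, C1_loop⟩ (by decide +kernel)

theorem L205 : LevFact 4 1 5 7 1 V205 :=
  levFact_of ⟨C5, C7, C4, C1, 5, 7, 4, 1, 24⟩ 3
    0x102020100
    0x20101020000
    0x2000100
    0x1
    3 1 1 2 1 4 1 5 7 1 V205
    ⟨C5_loop, C7_loop, C4_loop, C1_loop⟩ (by decide +kernel)

end Pool.Agent.Lib.MP_15cb89_nt
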