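import Pool.Agent.Lib.MP_15cb89_nt.TData
import Pool.Agent.Lib.MP_15cb89_nt.Lev0
import Pool.Agent.Lib.MP_15cb89_nt.Lev1
import Pool.Agent.Lib.MP_15cb89_nt.Lev2
import Pool.Agent.Lib.MP_15cb89_nt.Lev3
import Pool.Agent.Lib.MP_15cb89_nt.Lev4
import Pool.Agent.Lib.MP_15cb89_nt.Lev5
import Pool.Agent.Lib.MP_15cb89_nt.Lev6
import Pool.Agent.Lib.MP_15cb89_nt.Lev7

/-! All tables are correct and all tests are well formed. -/

set_option autoImplicit false
set_option maxRecDepth 100000

namespace Pool.Agent.Lib.MP_15cb89_nt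

theorem LT_all : LvT.All :=
  (BT.all_node (BT.all_node (BT.all_node (BT.all_node (BT.all_node (BT.all_node (BT.all_node
  (BT.all_node BT.all_nil L242 BT.all_nil) L241 (BT.all_node BT.all_nil L239 BT.all_nil)) L240
  (BT.all_node (BT.all_node BT.all_nil L238 BT.all_nil) L235 (BT.all_node BT.all_nil L233
  BT.all_nil))) L228 (BT.all_node (BT.all_node (BT.all_node BT.all_nil L236 BT.all_nil) L229
  (BT.all_node BT.all_nil L232 BT.all_nil)) L222 (BT.all_node (BT.all_node BT.all_nil L224
  BT.all_nil) L217 (BT.all_node BT.all_nil L226 BT.all_nil)))) L216 (BT.all_node (BT.all_node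
  (BT.all_node (BT.all_node BT.all_nil L202 BT.all_nil) L210 (BT.all_node BT.all_nil L213
  BT.all_nil)) L199 (BT.all_node (BT.all_node BT.all_nil L237 BT.all_nil) L225 (BT.all_node
  BT.all_nil L230 BT.all_nil))) L214 (BT.all_node (BT.all_node (BT.all_node BT.all_nil L208
  BT.all_nil) L198 (BT.all_node BT.all_nil L166 BT.all_nil)) L186 (BT.all_node (BT.all_node
  BT.all_nil L165 BT.all_nil) L203 BT.all_nil)))) L211 (BT.all_node (BT.all_node (BT.all_node
  (BT.all_node (BT.all_node BT.all_nil L189 BT.all_nil) L146 (BT.all_node BT.all_nil L122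
  BT.all_nil)) L234 (BT.all_node (BT.all_node BT.all_nil L218 BT.all_nil) L223 (BT.all_node
  BT.all_nil L206 BT.all_nil))) L197 (BT.all_node (BT.all_node (BT.all_node BT.all_nil L190
  BT.all_nil) L180 (BT.all_node BT.all_nil L204 BT.all_nil)) L182 (BT.all_node (BT.all_node
  BT.all_nil L170 BT.all_nil) L153 BT.all_nil))) L173 (BT.all_node (BT.all_node (BT.all_node
  (BT.all_node BT.all_nil L127 BT.all_nil) L144 (BT.all_node BT.all_nil L151 BT.all_nil)) L125
  (BT.all_node (BT.all_node BT.all_nil L205 BT.all_nil) L171 (BT.all_node BT.all_nil L183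
  BT.all_nil))) L139 (BT.all_node (BT.all_node (BT.all_node BT.all_nil L128 BT.all_nil) L145
  (BT.all_node BT.all_nil L231 BT.all_nil)) L221 (BT.all_node (BT.all_node BT.all_nil L212
  BT.all_nil) L220 BT.all_nil))))) L196 (BT.all_node (BT.all_node (BT.all_node (BT.all_node
  (BT.all_node (BT.all_node BT.all_nil L193 BT.all_nil) L184 (BT.all_node BT.all_nil L169
  BT.all_nil)) L194 (BT.all_node (BT.all_node BT.all_nil L175 BT.all_nil) L178 (BT.all_node
  BT.all_nil L159 BT.all_nil))) L161 (BT.all_node (BT.all_node (BT.all_node BT.all_nil L140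
  BT.all_nil) L115 (BT.all_node BT.all_nil L133 BT.all_nil)) L136 (BT.all_node (BT.all_node
  BT.all_nil L110 BT.all_nil) L137 (BT.all_node BT.all_nil L109 BT.all_nil)))) L116 (BT.all_node
  (BT.all_node (BT.all_node (BT.all_node BT.all_nil L134 BT.all_nil) L227 (BT.all_node BT.all_nil
  L215 BT.all_nil)) L201 (BT.all_node (BT.all_node BT.all_nil L209 BT.all_nil) L188 (BT.all_node
  BT.all_nil L181 BT.all_nil))) L168 (BT.all_node (BT.all_node (BT.all_node BT.all_nil L156
  BT.all_nil) L185 (BT.all_node BT.all_nil L157 BT.all_nil)) L164 (BT.all_node (BT.all_node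
  BT.all_nil L143 BT.all_nil) L147 BT.all_nil)))) L121 (BT.all_node (BT.all_node (BT.all_node
  (BT.all_node (BT.all_node BT.all_nil L119 BT.all_nil) L96 (BT.all_node BT.all_nil L158
  BT.all_nil)) L95 (BT.all_node (BT.all_node BT.all_nil L219 BT.all_nil) L192 (BT.all_node
  BT.all_nil L200 BT.all_nil))) L167 (BT.all_node (BT.all_node (BT.all_node BT.all_nil L154
  BT.all_nil) L172 (BT.all_node BT.all_nil L141 BT.all_nil)) L150 (BT.all_node (BT.all_node
  BT.all_nil L123 BT.all_nil) L126 BT.all_nil))) L105 (BT.all_node (BT.all_node (BT.all_node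
  (BT.all_node BT.all_nil L130 BT.all_nil) L83 (BT.all_node BT.all_nil L98 BT.all_nil)) L142
  (BT.all_node (BT.all_node BT.all_nil L207 BT.all_nil) L191 (BT.all_node BT.all_nil L177
  BT.all_nil))) L187 (BT.all_node (BT.all_node (BT.all_node BT.all_nil L155 BT.all_nil) L148
  (BT.all_node BT.all_nil L113 BT.all_nil)) L152 (BT.all_node (BT.all_node BT.all_nil L118
  BT.all_nil) L104 BT.all_nil)))))) L82 (BT.all_node (BT.all_node (BT.all_node (BT.all_node
  (BT.all_node (BT.all_node (BT.all_node BT.all_nil L107 BT.all_nil) L81 (BT.all_node BT.all_nil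
  L76 BT.all_nil)) L57 (BT.all_node (BT.all_node BT.all_nil L30 BT.all_nil) L6 (BT.all_node
  BT.all_nil L77 BT.all_nil))) L195 (BT.all_node (BT.all_node (BT.all_node BT.all_nil L179
  BT.all_nil) L162 (BT.all_node BT.all_nil L176 BT.all_nil)) L138 (BT.all_node (BT.all_node
  BT.all_nil L129 BT.all_nil) L112 (BT.all_node BT.all_nil L135 BT.all_nil)))) L103 (BT.all_node
  (BT.all_node (BT.all_node (BT.all_node BT.all_nil L89 BT.all_nil) L71 (BT.all_node BT.all_nil
  L92 BT.all_nil)) L60 (BT.all_node (BT.all_node BT.all_nil L42 BT.all_nil) L149 (BT.all_node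
  BT.all_nil L160 BT.all_nil))) L120 (BT.all_node (BT.all_node (BT.all_node BT.all_nil L108
  BT.all_nil) L99 (BT.all_node BT.all_nil L117 BT.all_nil)) L86 (BT.all_node (BT.all_node
  BT.all_nil L74 BT.all_nil) L24 BT.all_nil)))) L39 (BT.all_node (BT.all_node (BT.all_node
  (BT.all_node (BT.all_node BT.all_nil L48 BT.all_nil) L21 (BT.all_node BT.all_nil L25
  BT.all_nil)) L40 (BT.all_node (BT.all_node BT.all_nil L174 BT.all_nil) L102 (BT.all_node
  BT.all_nil L94 BT.all_nil))) L80 (BT.all_node (BT.all_node (BT.all_node BT.all_nil L70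
  BT.all_nil) L101 (BT.all_node BT.all_nil L72 BT.all_nil)) L55 (BT.all_node (BT.all_node
  BT.all_nil L31 BT.all_nil) L28 BT.all_nil))) L8 (BT.all_node (BT.all_node (BT.all_node
  (BT.all_node BT.all_nil L163 BT.all_nil) L114 (BT.all_node BT.all_nil L132 BT.all_nil)) L73
  (BT.all_node (BT.all_node BT.all_nil L54 BT.all_nil) L90 (BT.all_node BT.all_nil L59
  BT.all_nil))) L67 (BT.all_node (BT.all_node (BT.all_node BT.all_nil L38 BT.all_nil) L44
  (BT.all_node BT.all_nil L18 BT.all_nil)) L17 (BT.all_node (BT.all_node BT.all_nil L1 BT.all_nil)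
  L124 BT.all_nil))))) L79 (BT.all_node (BT.all_node (BT.all_node (BT.all_node (BT.all_node
  (BT.all_node BT.all_nil L65 BT.all_nil) L85 (BT.all_node BT.all_nil L51 BT.all_nil)) L34
  (BT.all_node (BT.all_node BT.all_nil L15 BT.all_nil) L36 (BT.all_node BT.all_nil L52
  BT.all_nil))) L100 (BT.all_node (BT.all_node (BT.all_node BT.all_nil L111 BT.all_nil) L68
  (BT.all_node BT.all_nil L53 BT.all_nil)) L75 (BT.all_node (BT.all_node BT.all_nil L37
  BT.all_nil) L47 (BT.all_node BT.all_nil L20 BT.all_nil)))) L131 (BT.all_node (BT.all_node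
  (BT.all_node (BT.all_node BT.all_nil L97 BT.all_nil) L49 (BT.all_node BT.all_nil L33
  BT.all_nil)) L19 (BT.all_node (BT.all_node BT.all_nil L29 BT.all_nil) L7 (BT.all_node BT.all_nil
  L9 BT.all_nil))) L88 (BT.all_node (BT.all_node (BT.all_node BT.all_nil L66 BT.all_nil) L56
  (BT.all_node BT.all_nil L23 BT.all_nil)) L63 (BT.all_node (BT.all_node BT.all_nil L27
  BT.all_nil) L14 BT.all_nil)))) L16 (BT.all_node (BT.all_node (BT.all_node (BT.all_node
  (BT.all_node BT.all_nil L78 BT.all_nil) L93 (BT.all_node BT.all_nil L45 BT.all_nil)) L13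
  (BT.all_node (BT.all_node BT.all_nil L50 BT.all_nil) L0 (BT.all_node BT.all_nil L106
  BT.all_nil))) L62 (BT.all_node (BT.all_node (BT.all_node BT.all_nil L3 BT.all_nil) L43
  (BT.all_node BT.all_nil L58 BT.all_nil)) L87 (BT.all_node (BT.all_node BT.all_nil L35
  BT.all_nil) L46 BT.all_nil))) L11 (BT.all_node (BT.all_node (BT.all_node (BT.all_node BT.all_nil
  L4 BT.all_nil) L84 (BT.all_node BT.all_nil L64 BT.all_nil)) L26 (BT.all_node (BT.all_node
  BT.all_nil L12 BT.all_nil) L32 (BT.all_node BT.all_nil L91 BT.all_nil))) L69 (BT.all_node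
  (BT.all_node (BT.all_node BT.all_nil L61 BT.all_nil) L10 (BT.all_node BT.all_nil L41
  BT.all_nil)) L2 (BT.all_node (BT.all_node BT.all_nil L22 BT.all_nil) L5 BT.all_nil)))))))

theorem wfA : (wfT LvT 1 tA0 && SA.all (wfT LvT 1)) = true := by decide +kernel

theorem wfB : (wfT LvT 5 tB0 && SB.all (wfT LvT 5)) = true := by decide +kernel

theorem wfC : (wfT LvT 13 tC0 && SC.all (wfT LvT 13)) = true := by decide +kernel


end Pool.Agent.Lib.MP_15cb89_nt
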