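import Pool.Agent.Lib.MP_15cb89_nt.Finite
import Pool.Agent.Lib.MP_15cb89_nt.TAll
import Pool.Agent.Lib.MP_15cb89_nt.Sv0
import Pool.Agent.Lib.MP_15cb89_nt.Sv1
import Pool.Agent.Lib.MP_15cb89_nt.Sv2
import Pool.Agent.Lib.MP_15cb89_nt.Sv3
import Pool.Agent.Lib.MP_15cb89_nt.Sv4

/-! The genus identity fails for `n > 1849`. -/

set_option autoImplicit false

namespace Pool.Agent.Lib.MP_15cb89_nt

theorem inert_of {n p q r : ℕ} (hn : 1849 < n) (hp : p.Prime) (hq : q.Prime) (hpq : p < q)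
    (hD : n ^ 2 + 4 = p * q) (hG : GenusId n p q) (hr : r.Prime) (h43 : r ≤ 43) (hne : r ≠ p) :
    chi (p * q) r = -1 := by
  have hqn : n < q := by
    by_contra h
    have h1 : p * q ≤ n * n := Nat.mul_le_mul (by omega) (by omega)
    nlinarith
  unfold chi
  rcases jacobiSym.trichotomy (r : ℤ) (p * q) with h | h | h
  · exfalso
    have h1 := (jacobiSym.eq_zero_iff.mp h).2
    rw [Int.gcd_natCast_natCast] at h1
    have h2 : r ∣ p * q := (Nat.Prime.dvd_iff_not_coprime hr).mpr h1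
    rcases (Nat.Prime.dvd_mul hr).mp h2 with h3 | h3
    · exact hne ((Nat.prime_dvd_prime_iff_eq hr hp).mp h3)
    · have := (Nat.prime_dvd_prime_iff_eq hr hq).mp h3
      omega
  · have h1 := E_split_big n p q r (by omega) hp hq hD hG hr h
    have h2 : r ^ 2 ≤ 43 ^ 2 := Nat.pow_le_pow_left h43 2
    omega
  · exact h

theorem msk_ok {n : ℤ} {D r msk : ℕ} (hD : n ^ 2 + 4 = D) (h4 : D % 4 = 1) (hi : chi D r = -1)
    (h : r % 2 = 1 ∧ ∀ t < r, msk.testBit t = true → ∃ y < r, (t * t + 4) % r = y * y % r) :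
    msk.testBit (n % r).toNat = false := by
  obtain ⟨hr, h⟩ := h
  have h0 : (0 : ℤ) < r := by exact_mod_cast (by omega : 0 < r)
  have h1 := Int.emod_lt_of_pos n h0
  have h2 := Int.emod_nonneg n h0.ne'
  rw [Bool.eq_false_iff]
  intro h3
  obtain ⟨y, _, hy⟩ := h _ (by omega) h3
  have h5 : (D : ℤ) ≡ y ^ 2 [ZMOD r] := by
    have h6 : (((n % r).toNat * (n % r).toNat + 4 : ℕ) : ℤ) ≡ ((y * y : ℕ) : ℤ) [ZMOD r] :=
      Int.natCast_modEq_iff.mpr hy
    push_cast at h6
    rw [Int.toNat_of_nonneg h2] at h6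
    rw [← hD, pow_two, pow_two]
    exact (((Int.mod_modEq n r).symm.mul (Int.mod_modEq n r).symm).add_right 4).trans h6
  unfold chi at hi
  rw [← jacobiSym.quadratic_reciprocity_one_mod_four h4 (Nat.odd_iff.mpr hr),
    jacobiSym.mod_left' h5, jacobiSym.pow_left] at hi
  nlinarith [sq_nonneg (jacobiSym (y : ℤ) r)]

theorem StOK.zero (p q : ℕ) : StOK p q 0 := fun i hi => by simp at hi

theorem StOK.add {p q st : ℕ} (h : StOK p q st) (b s : ℕ) (hs : s < 2)
    (h1 : chi (p * q) b = -1) (h2 : chi p b = sg (Nat.beq s 0)) :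
    StOK p q (Pool.Agent.Lib.MP_15cb89_nt.upd st b 1 s) := by
  intro i hi
  have hi' : (st ||| 1 <<< (2 * b + s)).testBit i = true := hi
  rw [Nat.testBit_or, Nat.shiftLeft_eq, one_mul, Nat.testBit_two_pow, Bool.or_eq_true,
    decide_eq_true_eq] at hi'
  rcases hi' with hi' | rfl
  · exact h i hi'
  · rw [show (2 * b + s) / 2 = b by omega, show (2 * b + s) % 2 = s by omega]
    exact ⟨h1, h2⟩

theorem Cx.mod3 {n : ℤ} {p q : ℕ} (hx : Cx n p q) : n % 3 = 1 :=
  (ZMod.intCast_eq_intCast_iff' n 1 3).mp (by rw [hx.h3]; rfl)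

theorem Cx.D {n : ℤ} {p q : ℕ} (hx : Cx n p q) :
    n ^ 2 + 4 = ((p * q : ℕ) : ℤ) ∧ (p * q) % 4 = 1 :=
  ⟨by rw [hx.hD]; push_cast; rfl, by rw [Nat.mul_mod, hx.hp, hx.hq]⟩

theorem msk9 {n : ℤ} (h : n % 3 = 1) : (365 : ℕ).testBit (n % (9 : ℕ)).toNat = false := by
  have : (n % (9 : ℕ)).toNat = 1 ∨ (n % (9 : ℕ)).toNat = 4 ∨ (n % (9 : ℕ)).toNat = 7 := by omega
  rcases this with h | h | h <;> rw [h] <;> rfl

theorem msk8 {n : ℤ} (h : n % 2 = 1) : (85 : ℕ).testBit (n % (8 : ℕ)).toNat = false := by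
  have : (n % (8 : ℕ)).toNat = 1 ∨ (n % (8 : ℕ)).toNat = 3 ∨ (n % (8 : ℕ)).toNat = 5 ∨
    (n % (8 : ℕ)).toNat = 7 := by omega
  rcases this with h | h | h | h <;> rw [h] <;> rfl

theorem refA {n : ℤ} {p q : ℕ} (hx : Cx n p q) (h2 : n % 2 = 1)
    (hi : ∀ r ∈ [3, 5, 7, 11, 13, 19, 23, 31, 43], chi (p * q) (r : ℕ) = -1)
    (h3 : chi p (3 : ℕ) = 1) : False := by
  have hL : OA.OK n p q :=
    ⟨C7_loop, by norm_num, msk_ok hx.D.1 hx.D.2 (hi 7 (by decide)) (by decide +kernel),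
      Or.inr ⟨rfl, hi 7 (by decide)⟩,
      C13_loop, by norm_num, msk_ok hx.D.1 hx.D.2 (hi 13 (by decide)) (by decide +kernel),
      Or.inr ⟨rfl, hi 13 (by decide)⟩,
      C5_loop, by norm_num, msk_ok hx.D.1 hx.D.2 (hi 5 (by decide)) (by decide +kernel),
      Or.inl rfl,
      C19_loop, by norm_num, msk_ok hx.D.1 hx.D.2 (hi 19 (by decide)) (by decide +kernel),
      Or.inr ⟨rfl, hi 19 (by decide)⟩,
      C11_loop, by norm_num, msk_ok hx.D.1 hx.D.2 (hi 11 (by decide)) (by decide +kernel),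
      Or.inl rfl,
      C31_loop, by norm_num, msk_ok hx.D.1 hx.D.2 (hi 31 (by decide)) (by decide +kernel),
      Or.inr ⟨rfl, hi 31 (by decide)⟩,
      C43_loop, by norm_num, msk_ok hx.D.1 hx.D.2 (hi 43 (by decide)) (by decide +kernel),
      Or.inr ⟨rfl, hi 43 (by decide)⟩,
      C23_loop, by norm_num, msk_ok hx.D.1 hx.D.2 (hi 23 (by decide)) (by decide +kernel),
      Or.inl rfl, trivial⟩
  have hs : StOK p q 64 := (StOK.zero p q).add 3 0 (by norm_num) (hi 3 (by decide)) h3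
  have h4 := hx.mod3
  have : n % 72 = 1 ∨ n % 72 = 7 ∨ n % 72 = 13 ∨ n % 72 = 19 ∨ n % 72 = 25 ∨ n % 72 = 31 ∨
      n % 72 = 37 ∨ n % 72 = 43 ∨ n % 72 = 49 ∨ n % 72 = 55 ∨ n % 72 = 61 ∨ n % 72 = 67 := by omega
  rcases this with h | h | h | h | h | h | h | h | h | h | h | h
  · exact topB_sound LT_all wfA svA1 hx (Or.inl rfl) hL h hs
  · exact topB_sound LT_all wfA svA7 hx (Or.inl rfl) hL h hs
  · exact topB_sound LT_all wfA svA13 hx (Or.inl rfl) hL h hs
  · exact topB_sound LT_all wfA svA19 hx (Or.inl rfl) hL h hs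
  · exact topB_sound LT_all wfA svA25 hx (Or.inl rfl) hL h hs
  · exact topB_sound LT_all wfA svA31 hx (Or.inl rfl) hL h hs
  · exact topB_sound LT_all wfA svA37 hx (Or.inl rfl) hL h hs
  · exact topB_sound LT_all wfA svA43 hx (Or.inl rfl) hL h hs
  · exact topB_sound LT_all wfA svA49 hx (Or.inl rfl) hL h hs
  · exact topB_sound LT_all wfA svA55 hx (Or.inl rfl) hL h hs
  · exact topB_sound LT_all wfA svA61 hx (Or.inl rfl) hL h hs
  · exact topB_sound LT_all wfA svA67 hx (Or.inl rfl) hL h hs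

theorem refB {n : ℤ} {q : ℕ} (hx : Cx n 5 q) (h2 : n % 2 = 1)
    (hi : ∀ r ∈ [3, 7, 11, 13, 19, 23, 31], chi (5 * q) (r : ℕ) = -1) : False := by
  have hL : OB.OK n 5 q :=
    ⟨C9_loop, by norm_num, msk9 hx.mod3, Or.inl rfl,
      C8_loop, by norm_num, msk8 h2, Or.inl rfl,
      C7_loop, by norm_num, msk_ok hx.D.1 hx.D.2 (hi 7 (by decide)) (by decide +kernel),
      Or.inl rfl,
      C13_loop, by norm_num, msk_ok hx.D.1 hx.D.2 (hi 13 (by decide)) (by decide +kernel),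
      Or.inl rfl,
      C19_loop, by norm_num, msk_ok hx.D.1 hx.D.2 (hi 19 (by decide)) (by decide +kernel),
      Or.inl rfl,
      C11_loop, by norm_num, msk_ok hx.D.1 hx.D.2 (hi 11 (by decide)) (by decide +kernel),
      Or.inl rfl,
      C23_loop, by norm_num, msk_ok hx.D.1 hx.D.2 (hi 23 (by decide)) (by decide +kernel),
      Or.inl rfl,
      C31_loop, by norm_num, msk_ok hx.D.1 hx.D.2 (hi 31 (by decide)) (by decide +kernel),
      Or.inl rfl, trivial⟩
  have s0 := (StOK.zero 5 q).add 3 1 (by norm_num) (hi 3 (by decide))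
    (by rw [chi_five]; decide +kernel)
  have s1 := s0.add 7 1 (by norm_num) (hi 7 (by decide))
    (by rw [chi_five]; decide +kernel)
  have s2 := s1.add 13 1 (by norm_num) (hi 13 (by decide))
    (by rw [chi_five]; decide +kernel)
  have s3 := s2.add 19 0 (by norm_num) (hi 19 (by decide))
    (by rw [chi_five]; decide +kernel)
  have s4 := s3.add 31 0 (by norm_num) (hi 31 (by decide))
    (by rw [chi_five]; decide +kernel)
  have e : (upd (upd (upd (upd (upd 0 3 1 1) 7 1 1) 13 1 1) 19 1 0) 31 1 0) =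
      4611686293439545472 := by decide +kernel
  rw [e] at s4
  exact topB_sound LT_all wfB svB hx (Or.inr ⟨rfl, Or.inl rfl⟩) hL Int.modEq_one s4

theorem refC {n : ℤ} {q : ℕ} (hx : Cx n 13 q) (h2 : n % 2 = 1)
    (hi : ∀ r ∈ [3, 5, 7, 11, 19, 23, 31], chi (13 * q) (r : ℕ) = -1) : False := by
  have hL : OC.OK n 13 q :=
    ⟨C9_loop, by norm_num, msk9 hx.mod3, Or.inl rfl,
      C8_loop, by norm_num, msk8 h2, Or.inl rfl,
      C7_loop, by norm_num, msk_ok hx.D.1 hx.D.2 (hi 7 (by decide)) (by decide +kernel),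
      Or.inl rfl,
      C19_loop, by norm_num, msk_ok hx.D.1 hx.D.2 (hi 19 (by decide)) (by decide +kernel),
      Or.inl rfl,
      C5_loop, by norm_num, msk_ok hx.D.1 hx.D.2 (hi 5 (by decide)) (by decide +kernel),
      Or.inl rfl,
      C11_loop, by norm_num, msk_ok hx.D.1 hx.D.2 (hi 11 (by decide)) (by decide +kernel),
      Or.inl rfl,
      C31_loop, by norm_num, msk_ok hx.D.1 hx.D.2 (hi 31 (by decide)) (by decide +kernel),
      Or.inl rfl,
      C23_loop, by norm_num, msk_ok hx.D.1 hx.D.2 (hi 23 (by decide)) (by decide +kernel),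
      Or.inl rfl, trivial⟩
  have s0 := (StOK.zero 13 q).add 3 0 (by norm_num) (hi 3 (by decide))
    (by rw [chi_thirteen]; decide +kernel)
  have s1 := s0.add 7 1 (by norm_num) (hi 7 (by decide))
    (by rw [chi_thirteen]; decide +kernel)
  have s2 := s1.add 19 1 (by norm_num) (hi 19 (by decide))
    (by rw [chi_thirteen]; decide +kernel)
  have s3 := s2.add 31 1 (by norm_num) (hi 31 (by decide))
    (by rw [chi_thirteen]; decide +kernel)
  have e : (upd (upd (upd (upd 0 3 1 0) 7 1 1) 19 1 1) 31 1 1) =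
      9223372586610622528 := by decide +kernel
  rw [e] at s3
  exact topB_sound LT_all wfC svC hx (Or.inr ⟨rfl, Or.inr rfl⟩) hL Int.modEq_one s3

theorem mod_four_of {n p m : ℕ} (hp : p.Prime) (hn : n % 2 = 1) (hD : n ^ 2 + 4 = p * m) :
    p % 4 = 1 := by
  have : Fact p.Prime := ⟨hp⟩
  have h2 : p % 2 = 1 := by
    have h1 : (p * m) % 2 = 1 := by rw [← hD, Nat.add_mod, Nat.pow_mod, hn]
    exact Nat.odd_iff.mp (Nat.Odd.of_mul_left (Nat.odd_iff.mpr h1))
  have h3 : (n : ZMod p) ^ 2 = -(2 : ZMod p) ^ 2 := by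
    have := congrArg (Nat.cast : ℕ → ZMod p) hD
    push_cast at this
    rw [ZMod.natCast_self, zero_mul] at this
    linear_combination this
  have h4 : (2 : ZMod p) ≠ 0 := by
    intro h
    have h5 : p ∣ 2 := (ZMod.natCast_eq_zero_iff 2 p).mp (by exact_mod_cast h)
    have := (Nat.prime_dvd_prime_iff_eq hp Nat.prime_two).mp h5
    omega
  have := ZMod.mod_four_ne_three_of_sq_eq_neg_sq' h4 h3
  omega

theorem no_big {n p q : ℕ} (hn : 1849 < n) (hp : p.Prime) (hq : q.Prime) (hpq : p < q)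
    (hD : n ^ 2 + 4 = p * q) (hG : GenusId n p q) : False := by
  have hodd := E_odd n p q hp hq hpq hD
  have hp4 := mod_four_of hp hodd hD
  have hq4 := mod_four_of hq hodd (hD.trans (mul_comm p q))
  have hDz : (n : ℤ) ^ 2 + 4 = p * q := by exact_mod_cast hD
  have hi : ∀ r ∈ [3, 5, 7, 11, 13, 19, 23, 31, 43], r ≠ p → chi (p * q) (r : ℕ) = -1 := by
    intro r hr hne
    have : r.Prime ∧ r ≤ 43 := by
      simp only [List.mem_cons, List.not_mem_nil, or_false] at hr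
      rcases hr with rfl | rfl | rfl | rfl | rfl | rfl | rfl | rfl | rfl <;> norm_num
    exact inert_of hn hp hq hpq hD hG this.1 this.2 hne
  have h3 : (n : ℤ) % 3 ≠ 0 := by
    have := msk_ok (n := n) (D := p * q) (r := 3) (msk := 1) (by exact_mod_cast hD)
      (by rw [Nat.mul_mod, hp4, hq4]) (hi 3 (by decide) (by omega)) (by decide)
    intro h
    have e : ((n : ℤ) % (3 : ℕ)).toNat = 0 := by omega
    rw [e] at this
    exact absurd this (by decide)
  obtain ⟨m, hm, hm3, hm2⟩ : ∃ m : ℤ, (m = n ∨ m = -n) ∧ m % 3 = 1 ∧ m % 2 = 1 := by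
    by_cases h : (n : ℤ) % 3 = 1
    · exact ⟨n, Or.inl rfl, h, by omega⟩
    · exact ⟨-n, Or.inr rfl, by omega, by omega⟩
  have hm3' : (m : ZMod 3) = 1 := by
    have := (ZMod.intCast_eq_intCast_iff' m 1 3).mpr hm3
    rwa [Int.cast_one] at this
  have hmD : m ^ 2 + 4 = p * q := by
    rcases hm with rfl | rfl
    · exact hDz
    · rw [neg_sq]; exact hDz
  have hx : Cx m p q := ⟨hp4, hq4, ⟨n, by omega, hG, hm⟩, hm3', hmD⟩
  have hx' : Cx m q p := ⟨hq4, hp4, ⟨n, by omega, hG.swap, hm⟩, hm3', by rw [hmD, mul_comm]⟩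
  by_cases h5 : p = 5
  · subst h5
    exact refB hx hm2 fun r hr => hi r (by revert r; decide) (by revert r; decide)
  by_cases h13 : p = 13
  · subst h13
    exact refC hx hm2 fun r hr => hi r (by revert r; decide) (by revert r; decide)
  have hi' : ∀ r ∈ [3, 5, 7, 11, 13, 19, 23, 31, 43], chi (p * q) (r : ℕ) = -1 := by
    intro r hr
    refine hi r hr ?_
    simp only [List.mem_cons, List.not_mem_nil, or_false] at hr
    omega
  have h1 : chi (p * q) (3 : ℕ) = chi p (3 : ℕ) * chi q (3 : ℕ) := by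
    unfold chi
    exact jacobiSym.mul_right' _ hp.ne_zero hq.ne_zero
  rw [hi' 3 (by decide)] at h1
  rcases jacobiSym.trichotomy ((3 : ℕ) : ℤ) p with h | h | h
  · unfold chi at h1
    rw [h] at h1
    simp at h1
  · exact refA hx hm2 hi' h
  · refine refA hx' hm2 (by rwa [mul_comm q p]) ?_
    unfold chi at h1 ⊢
    rw [h] at h1
    omega

end Pool.Agent.Lib.MP_15cb89_nt
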