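import Pool.Agent.Lib.MP_15cb89_nt.Srch

/-! The true values attached to an odd character satisfy the bilinear systems. -/

set_option autoImplicit false

namespace Pool.Agent.Lib.MP_15cb89_nt

open Finset

def eta (c1 c2 : ℕ) (t : ℤ) : ℤ := loc c1 t * loc c2 t

def hh (m1 m2 : ℕ) (t : ℤ) : ℤ := loc (100 + m1) t * loc (100 + m2) t

def KK (c1 c2 : ℕ) : ℕ := locM c1 * locM c2

structure Cx (n : ℤ) (p q : ℕ) : Prop where
  hp : p % 4 = 1
  hq : q % 4 = 1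
  gen : ∃ n0 : ℕ, 0 < n0 ∧ GenusId n0 p q ∧ (n = n0 ∨ n = -n0)
  h3 : (n : ZMod 3) = 1
  hD : n ^ 2 + 4 = p * q

structure GoodM (c1 c2 p q m : ℕ) (c e : Bool) : Prop where
  mem : m ∈ lgL
  cop : Nat.Coprime m (KK c1 c2)
  hc : eta c1 c2 (base m) = sg c
  inert : chi (p * q) (base m) = -1
  he : eta c1 c2 (base m) * chi p (base m) = sg e

structure Adm (c1 c2 p q m : ℕ) : Prop where
  pos : 0 < m
  per : Per (loc (100 + m)) m
  even : ∀ t, loc (100 + m) (-t) = loc (100 + m) t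
  cop : Nat.Coprime m (KK c1 c2 * (p * q))

structure Mdl (c1 c2 : ℕ) (n : ℤ) (p q P : ℕ) (A X Z Y F : ℕ → ℕ → ZMod 3) : Prop where
  e0 : F 1 1 = A 1 1 * Z 1 1 + X 1 1 * Y 1 1
  e1 : ∀ m c e, GoodM c1 c2 p q m c e →
    F m 1 = sgl c (A 1 1) (A m 1) (Z 1 1) (Z m 1) + sgl e (X 1 1) (X m 1) (Y 1 1) (Y m 1)
  e2 : ∀ m0 c0 e0 m c e, GoodM c1 c2 p q m0 c0 e0 → GoodM c1 c2 p q m c e → base m0 ≠ base m →
    F m0 m = dbl c0 c ((loc (100 + m0) (base m) * loc (100 + m) (base m0) : ℤ) : ZMod 3)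
        (A 1 1) (A m0 1) (A m 1) (A m0 m) (Z 1 1) (Z m0 1) (Z m 1) (Z m0 m) +
      dbl e0 e ((loc (100 + m0) (base m) * loc (100 + m) (base m0) : ℤ) : ZMod 3)
        (X 1 1) (X m0 1) (X m 1) (X m0 m) (Y 1 1) (Y m0 1) (Y m 1) (Y m0 m)
  tF : ∀ m1 m2 V, Adm c1 c2 p q m1 → Adm c1 c2 p q m2 → LevFact c1 c2 1 m1 m2 V →
    Kn (tbN (V / 4) (n % (NL c1 c2 1 m1 m2 : ℕ)).toNat) (F m1 m2)
  tA : ∀ m1 m2 V, Adm c1 c2 p q m1 → Adm c1 c2 p q m2 → LevFact c1 c2 1 m1 m2 V →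
    Kn (V % 4) (A m1 m2)
  tX : ∀ m1 m2 V, Adm c1 c2 p q m1 → Adm c1 c2 p q m2 → P ≠ 1 → LevFact c1 c2 P m1 m2 V →
    Kn (V % 4) (X m1 m2)

theorem adm_one (c1 c2 p q : ℕ) : Adm c1 c2 p q 1 :=
  ⟨Nat.one_pos, fun t => by rw [loc_101, loc_101], fun t => by rw [loc_101, loc_101],
    Nat.coprime_one_left _⟩

theorem GoodM.adm {c1 c2 p q m : ℕ} {c e : Bool} (h : GoodM c1 c2 p q m c e) (h0 : p * q ≠ 0) :
    Adm c1 c2 p q m := by
  have hl := lg_isLog h.mem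
  obtain ⟨_, _, _, _, h4, _⟩ := lg_chk m h.mem
  refine ⟨hl.pos, hl.per, hl.even, Nat.Coprime.mul_right h.cop ?_⟩
  have h1 : Nat.Coprime (base m) (p * q) := by
    by_contra h2
    have h3 : jacobiSym (base m : ℤ) (p * q) = 0 :=
      jacobiSym.eq_zero_iff.mpr ⟨h0, by rwa [Int.gcd_natCast_natCast]⟩
    have := h.inert
    unfold chi at this
    omega
  exact Nat.Coprime.coprime_dvd_left h4 (h1.pow_left 2)

theorem hh_one (m : ℕ) : hh m 1 = loc (100 + m) := by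
  funext t; unfold hh; rw [loc_101, mul_one]

theorem hh_11 : hh 1 1 = fun _ => 1 := by
  funext t; unfold hh; rw [loc_101, mul_one]

theorem hh_per {c1 c2 p q m1 m2 : ℕ} (h1 : Adm c1 c2 p q m1) (h2 : Adm c1 c2 p q m2) :
    Per (hh m1 m2) (m1 * m2) :=
  (h1.per.of_dvd (Dvd.intro _ rfl)).mul (h2.per.of_dvd (Dvd.intro_left _ rfl))

theorem eta_odd {c1 c2 : ℕ} (h1 : c1 ∈ chL) (h2 : c2 ∈ chL) (ho : eta c1 c2 (-1) = -1) :
    OddCh (eta c1 c2) (KK c1 c2) := by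
  have hm : ∀ s t, eta c1 c2 (s * t) = eta c1 c2 s * eta c1 c2 t := fun s t => by
    unfold eta; rw [ch_mul h1, ch_mul h2]; ring
  refine ⟨((loc_per c1).of_dvd (Dvd.intro _ rfl)).mul ((loc_per c2).of_dvd (Dvd.intro_left _ rfl)),
    fun t => ?_, hm⟩
  rw [← neg_one_mul t, hm, ho]; ring

theorem sgl_smul (e : Bool) (s0 s1 t0 t1 k : ZMod 3) :
    sgl e s0 s1 (k * t0) (k * t1) = k * sgl e s0 s1 t0 t1 := by
  cases e <;> simp [sgl] <;> ring

theorem dbl_smul (e1 e2 : Bool) (ll s0 s1 s2 s12 t0 t1 t2 t12 k : ZMod 3) :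
    dbl e1 e2 ll s0 s1 s2 s12 (k * t0) (k * t1) (k * t2) (k * t12) =
      k * dbl e1 e2 ll s0 s1 s2 s12 t0 t1 t2 t12 := by
  cases e1 <;> cases e2 <;> simp [dbl] <;> ring

theorem Mdl.neg {c1 c2 : ℕ} {n : ℤ} {p q : ℕ} {A X Z Y F : ℕ → ℕ → ZMod 3}
    (h : Mdl c1 c2 n p q 1 A X Z Y F) :
    Mdl c1 c2 n p q 1 A (fun i j => -X i j) Z (fun i j => -Y i j) F where
  e0 := by rw [h.e0]; ring
  e1 m c e hg := by
    rw [h.e1 m c e hg]; cases e <;> simp [sgl]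
  e2 m0 c0 e0 m c e h0 hg hb := by
    rw [h.e2 m0 c0 e0 m c e h0 hg hb]; cases e0 <;> cases e <;> simp [dbl]
  tF := h.tF
  tA := h.tA
  tX _ _ _ _ _ h1 := absurd rfl h1

theorem sg_sq (e : Bool) : sg e * sg e = 1 := by cases e <;> rfl

theorem exists_mdl0 {c1 c2 : ℕ} {n : ℤ} {p q P : ℕ} (hx : Cx n p q)
    (hP : P = 1 ∨ (P = p ∧ (p = 5 ∨ p = 13))) (h1 : c1 ∈ chL) (h2 : c2 ∈ chL)
    (ho : eta c1 c2 (-1) = -1) : ∃ A X Z Y F, Mdl c1 c2 n p q P A X Z Y F := by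
  obtain ⟨n0, hn0, hG, hτ⟩ := hx.gen
  obtain ⟨τ, hτ1, hτ2⟩ : ∃ τ : ℤ, (τ = 1 ∨ τ = -1) ∧ n = τ * n0 := by
    rcases hτ with h | h
    · exact ⟨1, Or.inl rfl, by rw [h, one_mul]⟩
    · exact ⟨-1, Or.inr rfl, by rw [h, neg_one_mul]⟩
  have hη := eta_odd h1 h2 ho
  have hK : 0 < KK c1 c2 := Nat.mul_pos (ch_chk c1 h1).1 (ch_chk c2 h2).1
  have hp := hx.hp
  have hq := hx.hq
  have hp0 : 0 < p := by omega
  have hq0 : 0 < q := by omega
  have hD4 : (p * q) % 4 = 1 := by rw [Nat.mul_mod, hp, hq]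
  set η := eta c1 c2 with hηd
  set K := KK c1 c2 with hKd
  have hκD : OddCh (fun t => η t * chi (p * q) t) (K * (p * q)) :=
    hη.twist hD4 (Dvd.intro _ rfl) (Dvd.intro_left _ rfl)
  have hκp : OddCh (fun t => η t * chi p t) (K * p) :=
    hη.twist hp (Dvd.intro _ rfl) (Dvd.intro_left _ rfl)
  have hκq : OddCh (fun t => η t * chi q t) (K * p * q) :=
    hη.twist hq ⟨p * q, by ring⟩ (Dvd.intro_left _ rfl)
  have cK : ∀ {m}, Nat.Coprime m (K * (p * q)) → Nat.Coprime m K :=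
    fun h => Nat.Coprime.coprime_mul_right_right h
  have cq : ∀ {m}, Nat.Coprime m (K * (p * q)) → Nat.Coprime m (K * p * q) :=
    fun h => by rwa [mul_assoc]
  have cp : ∀ {m}, Nat.Coprime m (K * (p * q)) → Nat.Coprime m (K * p) :=
    fun h => Nat.Coprime.coprime_mul_right_right (cq h)
  have hFB : ∀ N h, Nat.Coprime N (K * (p * q)) →
      ((τ * (Bil η (fun t => η t * chi (p * q) t) (K * (p * q)) N h +
        Bil (fun t => η t * chi p t) (fun t => η t * chi q t) (K * (p * q)) N h) : ℤ) : ZMod 3) =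
      (τ * (p * q : ℕ)) * BB η K (fun t => η t * chi (p * q) t) (K * (p * q)) N h +
        (τ * q) * BB (fun t => η t * chi p t) (K * p) (fun t => η t * chi q t) (K * p * q) N h := by
    intro N h hc
    rw [Int.cast_mul, Int.cast_add, Bil_cast hη hK (cK hc), ← mul_assoc K p q,
      Bil_cast hκp (by positivity) (cp hc)]
    ring
  have sgq : ∀ {m c e}, GoodM c1 c2 p q m c e → η (base m) * chi (p * q) (base m) = -sg c ∧
      η (base m) * chi q (base m) = -sg e := by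
    intro m c e hg
    have a1 := hg.inert
    have a2 := hg.he
    have a3 := hg.hc
    rw [← hηd] at a2 a3
    refine ⟨by rw [a1, a3]; ring, ?_⟩
    have a4 : chi (p * q) (base m) = chi p (base m) * chi q (base m) := by
      unfold chi
      exact jacobiSym.mul_right' _ hp0.ne' hq0.ne'
    rw [a1] at a4
    have a5 := sg_sq c
    have a6 := sg_sq e
    rw [← a3] at a5
    rw [← a2] at a6 ⊢
    linear_combination (-(η (base m) * chi p (base m))) * a4 -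
      (η (base m) * chi q (base m)) * a6 + (η (base m) * chi p (base m) ^ 2 * chi q (base m)) * a5
  refine ⟨fun m1 m2 => sv η K (m1 * m2) (hh m1 m2),
    fun m1 m2 => sv (fun t => η t * chi p t) (K * p) (m1 * m2) (hh m1 m2),
    fun m1 m2 => (τ * (p * q : ℕ)) * sv (fun t => η t * chi (p * q) t) (K * (p * q)) (m1 * m2)
      (hh m1 m2),
    fun m1 m2 => (τ * q) * sv (fun t => η t * chi q t) (K * p * q) (m1 * m2) (hh m1 m2),
    fun m1 m2 => ((τ * (Bil η (fun t => η t * chi (p * q) t) (K * (p * q)) (m1 * m2) (hh m1 m2) +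
      Bil (fun t => η t * chi p t) (fun t => η t * chi q t) (K * (p * q)) (m1 * m2)
        (hh m1 m2)) : ℤ) : ZMod 3), ?_, ?_, ?_, ?_, ?_, ?_⟩
  · rw [hFB _ _ (Nat.coprime_one_left _)]
    simp only [mul_one, hh_11, BB0]
    ring
  · intro m c e hg
    have ha := hg.adm (by positivity)
    have hl := lg_isLog hg.mem
    obtain ⟨s1, s2⟩ := sgq hg
    simp only [mul_one, hh_11]
    simp only [hh_one]
    rw [hFB _ _ ha.cop, sgl_smul, sgl_smul,
      BB1 hη hκD hK (by positivity) hl (cK ha.cop) ha.cop c hg.hc s1,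
      BB1 hκp hκq (by positivity) (by positivity) hl (cp ha.cop) (cq ha.cop) e hg.he s2]
  · intro m0 c0 e0 m c e hg0 hg hb
    have ha0 := hg0.adm (by positivity)
    have ha := hg.adm (by positivity)
    have hl0 := lg_isLog hg0.mem
    have hl := lg_isLog hg.mem
    obtain ⟨r1, r2⟩ := sgq hg0
    obtain ⟨s1, s2⟩ := sgq hg
    have hc : Nat.Coprime (m0 * m) (K * (p * q)) := Nat.Coprime.mul_left ha0.cop ha.cop
    simp only [mul_one, hh_11]
    simp only [hh_one]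
    rw [hFB _ _ hc, dbl_smul, dbl_smul]
    have b1 := BB2 hη hκD hK (by positivity) hl0 hl hb (cK hc) hc c0 c hg0.hc r1 hg.hc s1
    have b2 := BB2 hκp hκq (by positivity) (by positivity) hl0 hl hb (cp hc) (cq hc) e0 e
      hg0.he r2 hg.he s2
    rw [← Int.cast_mul] at b1 b2
    exact congrArg₂ (· + ·) (congrArg _ b1) (congrArg _ b2)
  · intro m1 m2 V a1 a2 hL
    have hc : Nat.Coprime (m1 * m2) (K * (p * q)) := Nat.Coprime.mul_left a1.cop a2.cop
    have hN : 0 < m1 * m2 := Nat.mul_pos a1.pos a2.pos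
    have hper := hh_per a1 a2
    have hs := star hn0 hp hq hG hη hK hN hper
      (fun t => by unfold hh; rw [a1.even, a2.even]) hc
    have e1 : wL c1 c2 1 m1 m2 = fun t => η t * hh m1 m2 t := by
      funext t; unfold wL; rw [loc_1, mul_one]; rfl
    have e2 : NL c1 c2 1 m1 m2 = K * (m1 * m2) := by
      show locM c1 * locM c2 * 1 * (m1 * m2) = _
      rw [mul_one]; rfl
    have hT := hL.1
    rw [e1] at hT
    refine hT n (((p * q : ℕ) : ℤ) ^ 2) _ hx.h3 ?_ ?_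
    · have := congrArg (Int.cast : ℤ → ZMod 3) hx.hD
      push_cast at this ⊢
      rw [← this, hx.h3]; decide
    · have hw : Per (fun t => η t * hh m1 m2 t) (K * (m1 * m2)) :=
        (hη.per.of_dvd (Dvd.intro _ rfl)).mul (hper.of_dvd (Dvd.intro_left _ rfl))
      rw [e2, hτ2]
      rcases hτ1 with rfl | rfl
      · rw [one_mul, one_mul, hs]
      · rw [neg_one_mul, neg_one_mul, Num_neg (by positivity) hw, mul_neg, hs]; ring
  · intro m1 m2 V a1 a2 hL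
    have hc : Nat.Coprime (m1 * m2) (K * (p * q)) := Nat.Coprime.mul_left a1.cop a2.cop
    have e1 : wL c1 c2 1 m1 m2 = fun t => η t * hh m1 m2 t := by
      funext t; unfold wL; rw [loc_1, mul_one]; rfl
    have e2 : NL c1 c2 1 m1 m2 = K * (m1 * m2) := by
      show locM c1 * locM c2 * 1 * (m1 * m2) = _
      rw [mul_one]; rfl
    have hT := hL.2
    rw [e1, e2] at hT
    exact hT _ (T0_eq hη hK (hh_per a1 a2) (cK hc))
  · intro m1 m2 V a1 a2 hP1 hL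
    have hc : Nat.Coprime (m1 * m2) (K * (p * q)) := Nat.Coprime.mul_left a1.cop a2.cop
    obtain ⟨rfl, h5⟩ := hP.resolve_left hP1
    have e0 : (∀ t, loc P t = chi P t) ∧ locM P = P := by
      rcases h5 with rfl | rfl
      · exact ⟨fun t => (chi_five t).symm, rfl⟩
      · exact ⟨fun t => (chi_thirteen t).symm, rfl⟩
    have e1 : wL c1 c2 P m1 m2 = fun t => (η t * chi P t) * hh m1 m2 t := by
      funext t; unfold wL; rw [e0.1]; rfl
    have e2 : NL c1 c2 P m1 m2 = K * P * (m1 * m2) := by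
      unfold NL; rw [e0.2]; rfl
    have hT := hL.2
    rw [e1, e2] at hT
    exact hT _ (T0_eq hκp (by positivity) (hh_per a1 a2) (cp hc))

theorem exists_mdl {c1 c2 : ℕ} {n : ℤ} {p q P : ℕ} (hx : Cx n p q)
    (hP : P = 1 ∨ (P = p ∧ (p = 5 ∨ p = 13))) (h1 : c1 ∈ chL) (h2 : c2 ∈ chL)
    (ho : eta c1 c2 (-1) = -1) :
    ∃ A X Z Y F, Mdl c1 c2 n p q P A X Z Y F ∧ (P = 1 → X 1 1 ≠ 2) := by
  obtain ⟨A, X, Z, Y, F, h⟩ := exists_mdl0 hx hP h1 h2 ho
  by_cases h3 : P = 1 ∧ X 1 1 = 2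
  · obtain ⟨rfl, h3⟩ := h3
    exact ⟨A, _, Z, _, F, h.neg, fun _ => by simp only [h3]; decide⟩
  · exact ⟨A, X, Z, Y, F, h, fun h4 h5 => h3 ⟨h4, h5⟩⟩

end Pool.Agent.Lib.MP_15cb89_nt
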