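import Pool.Agent.Lib.MP_15cb89_nt.AnaCone
import Pool.Agent.Lib.MP_15cb89_nt.AnaRHS
import Pool.Agent.Lib.MP_15cb89_nt.LL

/-! The value identity at zero and its bilinear integral form. -/

set_option autoImplicit false

namespace Pool.Agent.Lib.MP_15cb89_nt

open Finset Filter Topology MeasureTheory

theorem B0_shintani (n N M : ℕ) (hn : 0 < n) (hN : 0 < N) (hM : 0 < M) (w : ℤ → ℤ)
    (hper : ∀ a, w (a + N) = w a) (hodd : ∀ a, w (-a) = -w a) (f : ℤ → ℤ → ℤ)
    (hp1 : ∀ u v, f (u + M) v = f u v) (hp2 : ∀ u v, f u (v + M) = f u v)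
    (ho1 : ∀ u v, f (-u) v = -f u v) (ho2 : ∀ u v, f u (-v) = -f u v)
    (H : ∀ a : ℕ, 0 < a → 2 * (w a * rP n a) = ∑ v ∈ a.divisorsAntidiagonal, f v.1 v.2) :
    (M : ℤ) ^ 2 * Num w n N = (N : ℤ) ^ 2 * ∑ u ∈ range M, ∑ v ∈ range M, f u v * u * v := by
  have h1 := B1_rhs M hM f hp1 hp2 ho1 ho2
  have h2 := (B2_cone n N hn hN w hper hodd).const_mul 2
  have h3 : (fun T : ℝ => 2 * ((1 / T) * ∑' a : ℕ,
        ((w a * rP n a : ℤ) : ℝ) * Jf (Real.exp (-T)) a)) = (fun T : ℝ => (1 / T) * ∑' a : ℕ,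
        ((∑ v ∈ a.divisorsAntidiagonal, f v.1 v.2 : ℤ) : ℝ) * Jf (Real.exp (-T)) a) := by
    funext T
    rw [mul_left_comm, ← tsum_mul_left]
    congr 1
    refine tsum_congr fun a => ?_
    rcases Nat.eq_zero_or_pos a with rfl | ha
    · have : w 0 = 0 := by have := hodd 0; simp at this; omega
      simp [this]
    · rw [← H a ha]; push_cast; ring
  rw [h3] at h2
  have h4 := tendsto_nhds_unique h1 h2
  have hM' : (M : ℝ) ≠ 0 := by positivity
  have hN' : (N : ℝ) ≠ 0 := by positivity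
  field_simp at h4
  exact_mod_cast (by push_cast at h4 ⊢; linarith :
    ((M : ℝ) ^ 2 * (Num w n N : ℝ) = (N : ℝ) ^ 2 * ((∑ u ∈ range M, ∑ v ∈ range M, f u v * u * v : ℤ) : ℝ)))


def Bil (κ κ' : ℤ → ℤ) (d N : ℕ) (h : ℤ → ℤ) : ℤ :=
  ∑ c ∈ range N, ∑ c' ∈ range N, h (c * c') * (xi κ d N c * xi κ' d N c')

theorem bil_lam {κ κ' h : ℤ → ℤ} {d N : ℕ} (hκ : OddCh κ d) (hκ' : OddCh κ' d) (hd : 0 < d)
    (hc : Nat.Coprime N d) (hh : Per h N) :
    ∑ u ∈ range (N * d), ∑ v ∈ range (N * d), h (u * v) * (κ u * κ' v) * u * v =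
      (N : ℤ) ^ 2 * Bil κ κ' d N h := by
  have h1 : ∀ u : ℕ, ∑ v ∈ range (N * d), h (u * v) * (κ u * κ' v) * u * v =
      ∑ c' ∈ range N, N * xi κ' d N c' * ((u : ℤ) * (κ u * h (c' * u))) := by
    intro u
    have := lam_eq (hκ'.zero_sum hd hc) (hh.comp_mul u)
    calc _ = κ u * u * ∑ v ∈ range (N * d), (v : ℤ) * (κ' v * h (u * v)) := by
          rw [mul_sum]; exact sum_congr rfl fun v _ => by ring
      _ = _ := by
          rw [this, LL, mul_sum, mul_sum]
          exact sum_congr rfl fun c' _ => by rw [mul_comm (c' : ℤ) u]; ring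
  simp only [h1]
  rw [sum_comm, Bil, sum_comm (s := range N) (t := range N), mul_sum]
  refine sum_congr rfl fun c' _ => ?_
  rw [← mul_sum, lam_eq (hκ.zero_sum hd hc) (hh.comp_mul c'), LL, mul_sum, mul_sum, mul_sum]
  exact sum_congr rfl fun c _ => by rw [mul_comm (c' : ℤ) c]; ring

/-- The quadratic character of modulus `d`. -/
def chi (d : ℕ) (t : ℤ) : ℤ := jacobiSym t d

theorem chi_per (d : ℕ) : Per (chi d) d := fun t => by
  unfold chi
  rw [jacobiSym.mod_left (t + d), jacobiSym.mod_left t]; simp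

theorem chi_neg {d : ℕ} (hd : d % 4 = 1) (t : ℤ) : chi d (-t) = chi d t := by
  unfold chi
  rw [jacobiSym.neg _ (Nat.odd_iff.mpr (by omega)), ZMod.χ₄_nat_one_mod_four hd, one_mul]

theorem chi_mul (d : ℕ) (s t : ℤ) : chi d (s * t) = chi d s * chi d t := jacobiSym.mul_left _ _ _

theorem OddCh.twist {η : ℤ → ℤ} {K d e : ℕ} (h : OddCh η K) (hd : d % 4 = 1) (h1 : K ∣ e)
    (h2 : d ∣ e) : OddCh (fun t => η t * chi d t) e where
  per := (h.per.of_dvd h1).mul ((chi_per d).of_dvd h2)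
  odd t := by simp only [h.odd, chi_neg hd]; ring
  mul s t := by simp only [h.mul, chi_mul]; ring

theorem OddCh.of_dvd {η : ℤ → ℤ} {K e : ℕ} (h : OddCh η K) (h1 : K ∣ e) : OddCh η e :=
  ⟨h.per.of_dvd h1, h.odd, h.mul⟩

theorem star {n p q K N : ℕ} (hn : 0 < n) (hp : p % 4 = 1) (hq : q % 4 = 1) (hG : GenusId n p q)
    {η h : ℤ → ℤ} (hη : OddCh η K) (hK : 0 < K) (hN : 0 < N) (hh : Per h N)
    (he : ∀ t, h (-t) = h t) (hc : Nat.Coprime N (K * (p * q))) :
    ((p * q : ℕ) : ℤ) ^ 2 * Num (fun t => η t * h t) n (K * N) =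
      (N : ℤ) ^ 2 * (Bil η (fun t => η t * chi (p * q) t) (K * (p * q)) N h +
        Bil (fun t => η t * chi p t) (fun t => η t * chi q t) (K * (p * q)) N h) := by
  have hp0 : 0 < p := by omega
  have hq0 : 0 < q := by omega
  have hD : (p * q) % 4 = 1 := by rw [Nat.mul_mod, hp, hq]
  have hd : 0 < K * (p * q) := by positivity
  have hw : Per (fun t => η t * h t) (K * N) :=
    (hη.per.of_dvd (Dvd.intro N rfl)).mul (hh.of_dvd (Dvd.intro_left K rfl))
  have hwM : Per (fun t => η t * h t) (N * (K * (p * q))) := hw.of_dvd ⟨p * q, by ring⟩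
  have hcD : Per (chi (p * q)) (N * (K * (p * q))) := (chi_per _).of_dvd ⟨N * K, by ring⟩
  have hcp : Per (chi p) (N * (K * (p * q))) := (chi_per _).of_dvd ⟨N * K * q, by ring⟩
  have hcq : Per (chi q) (N * (K * (p * q))) := (chi_per _).of_dvd ⟨N * K * p, by ring⟩
  have key := B0_shintani n (K * N) (N * (K * (p * q))) hn (by positivity) (by positivity)
    (fun t => η t * h t) hw (fun t => by simp only [hη.odd, he]; ring)
    (fun u v => η (u * v) * h (u * v) * (chi (p * q) v + chi p u * chi q v))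
    (fun u v => by
      have := hwM.add_mul (u * v) v
      simp only [add_mul, this, hcp u])
    (fun u v => by
      have := hwM.add_mul (u * v) u
      rw [mul_comm _ u] at this
      simp only [mul_add u, this, hcq v, hcD v])
    (fun u v => by simp only [neg_mul, hη.odd, he, chi_neg hp])
    (fun u v => by simp only [mul_neg, hη.odd, he, chi_neg hq, chi_neg hD, neg_mul])
    (fun a ha => by
      have h1 := hG a ha
      calc 2 * (η a * h a * rP n a) = η a * h a * (2 * (rP n a : ℤ)) := by ring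
        _ = _ := by
          rw [h1, mul_sum]
          refine sum_congr rfl fun v hv => ?_
          have := (Nat.mem_divisorsAntidiagonal.mp hv).1
          rw [← this]
          push_cast
          rfl)
  have b1 := bil_lam (hη.of_dvd (Dvd.intro (p * q) rfl))
    (hη.twist hD (Dvd.intro (p * q) rfl) (Dvd.intro_left K rfl)) hd hc hh
  have b2 := bil_lam (hη.twist hp (Dvd.intro (p * q) rfl) ⟨K * q, by ring⟩)
    (hη.twist hq (Dvd.intro (p * q) rfl) ⟨K * p, by ring⟩) hd hc hh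
  have e : ∑ u ∈ range (N * (K * (p * q))), ∑ v ∈ range (N * (K * (p * q))),
      η (u * v) * h (u * v) * (chi (p * q) v + chi p u * chi q v) * u * v =
      (N : ℤ) ^ 2 * (Bil η (fun t => η t * chi (p * q) t) (K * (p * q)) N h +
        Bil (fun t => η t * chi p t) (fun t => η t * chi q t) (K * (p * q)) N h) := by
    rw [mul_add, ← b1, ← b2, ← sum_add_distrib]
    refine sum_congr rfl fun u _ => ?_
    rw [← sum_add_distrib]
    refine sum_congr rfl fun v _ => ?_
    rw [hη.mul]; ring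
  rw [e] at key
  have h0 : ((K * N : ℕ) : ℤ) ^ 2 ≠ 0 := by positivity
  apply mul_left_cancel₀ h0
  rw [← key]; push_cast; ring

theorem GenusId.swap {n p q : ℕ} (h : GenusId n p q) : GenusId n q p := by
  intro a ha
  rw [h a ha, sum_add_distrib, sum_add_distrib, mul_comm q p]
  congr 1
  conv_lhs => rw [← Nat.map_swap_divisorsAntidiagonal, sum_map]
  exact sum_congr rfl fun v _ => mul_comm _ _

end Pool.Agent.Lib.MP_15cb89_nt
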