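import Pool.Agent.Lib.MP_15cb89_nt.Test

/-! The sieve tree. -/

set_option autoImplicit false

namespace Pool.Agent.Lib.MP_15cb89_nt

inductive LS where
  | nil : LS
  | cons (R : Ch) (r msk b fl : ℕ) (tl : LS) : LS

inductive CT where
  | nil : CT
  | node (i code : ℕ) (kids next : CT) : CT

inductive TT where
  | nil : TT
  | node (l : TT) (k : ℕ) (t : Test) (r : TT) : TT

noncomputable def TT.get (d : Test) (T : TT) (k : ℕ) : Test :=
  @TT.rec (fun _ => Test) d
    (fun _ k' t _ rl rr => cond (Nat.beq k k') t (cond (Nat.ble k k') rl rr)) T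

def TT.all (f : Test → Bool) : TT → Bool
  | .nil => true
  | .node l _ t r => all f l && f t && all f r

theorem TT.get_ok {f : Test → Bool} {d : Test} (hd : f d = true) {T : TT} (h : T.all f = true)
    (k : ℕ) : f (TT.get d T k) = true := by
  induction T with
  | nil => exact hd
  | node l k' t r ih1 ih2 =>
    simp only [TT.all, Bool.and_eq_true] at h
    show f (cond (Nat.beq k k') t (cond (Nat.ble k k') (TT.get d l k) (TT.get d r k))) = true
    cases Nat.beq k k'
    · cases Nat.ble k k'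
      · exact ih2 h.2
      · exact ih1 h.1.1
    · exact h.1.2

noncomputable def CT.mem (t : CT) (j : ℕ) : Bool :=
  @CT.rec (fun _ => Bool) false
    (fun i _ _ _ _ rn => @Bool.rec (fun _ => Bool) rn true (Nat.beq i j)) t

def fld (code i : ℕ) : ℕ := Nat.mod (Nat.shiftRight code (Nat.mul 10 i)) 1024

def upd (st b fl s : ℕ) : ℕ := Nat.lor st (Nat.shiftLeft fl (Nat.add (Nat.mul 2 b) s))

noncomputable def kid (g : ℕ → Test) (code : ℕ) (kids : CT) (i n M st : ℕ) : Bool :=
  @Nat.rec (fun _ => Bool) (kids.mem i) (fun k _ => runT (g k) n M st) (fld code i)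

noncomputable def kid2 (g : ℕ → Test) (code : ℕ) (kids : CT) (fl j n M s0 s1 : ℕ) : ℕ :=
  @Bool.rec (fun _ => ℕ) 1
    (@Nat.rec (fun _ => ℕ) 0 (fun _ _ => @Bool.rec (fun _ => ℕ) 1 0
      (kid g code kids (Nat.succ (Nat.mul 2 j)) n M s1)) fl)
    (kid g code kids (Nat.mul 2 j) n M s0)

noncomputable def nodeB (g : ℕ → Test) (code : ℕ) (kids : CT) (L : LS) (n0 M st : ℕ) : Bool :=
  @LS.rec (fun _ => Bool) false (fun R r msk b fl _ _ =>
    force (Nat.mul M r) fun M1 => force (upd st b fl 0) fun s0 => force (upd st b fl 1) fun s1 =>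
      Nat.beq (sumC R fun j => force (Nat.add n0 (Nat.mul M j)) fun n1 =>
        @Nat.rec (fun _ => ℕ) (kid2 g code kids fl j n1 M1 s0 s1) (fun _ _ => 0)
          (Nat.mod (Nat.shiftRight msk (Nat.mod n1 r)) 2)) 0) L

noncomputable def chain (g : ℕ → Test) (t : CT) : LS → ℕ → ℕ → ℕ → Bool :=
  @CT.rec (fun _ => LS → ℕ → ℕ → ℕ → Bool) (fun _ _ _ _ => true)
    (fun i code kids _ rk rn L n0 M st => @LS.rec (fun _ => Bool) false
      (fun _ r _ b fl tl _ =>
        force (Nat.add n0 (Nat.mul M (Nat.div i 2))) fun n1 => force (Nat.mul M r) fun M1 =>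
          force (upd st b fl (Nat.mod i 2)) fun s1 =>
            nodeB g code kids tl n1 M1 s1 && rk tl n1 M1 s1 && rn L n0 M st) L) t

noncomputable def topB (g : ℕ → Test) (code : ℕ) (kids : CT) (L : LS) (n0 M st : ℕ) : Bool :=
  nodeB g code kids L n0 M st && chain g kids L n0 M st

def LS.OK (n : ℤ) (p q : ℕ) : LS → Prop
  | .nil => True
  | .cons R r msk b fl tl => IsLoop R r ∧ 0 < r ∧ msk.testBit (n % r).toNat = false ∧
      (fl = 0 ∨ (fl = 1 ∧ chi (p * q) b = -1)) ∧ tl.OK n p q

def LS.r : LS → ℕ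
  | .nil => 0
  | .cons _ r _ _ _ _ => r

def LS.b : LS → ℕ
  | .nil => 0
  | .cons _ _ _ b _ _ => b

def LS.fl : LS → ℕ
  | .nil => 0
  | .cons _ _ _ _ fl _ => fl

def Ref (n : ℤ) (p q n0 M st : ℕ) : Prop := n ≡ n0 [ZMOD M] → StOK p q st → False

theorem StOK.upd {p q st b fl : ℕ} (h : StOK p q st) (h0 : p * q ≠ 0)
    (hf : fl = 0 ∨ (fl = 1 ∧ chi (p * q) b = -1)) :
    StOK p q (upd st b fl 0) ∨ (fl = 1 ∧ StOK p q (upd st b fl 1)) := by
  have key : ∀ s, s < 2 → chi (p * q) b = -1 → chi p b = sg (Nat.beq s 0) →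
      StOK p q (Pool.Agent.Lib.MP_15cb89_nt.upd st b 1 s) := by
    intro s hs h1 h2 i hi
    have hi' : (st ||| 1 <<< (2 * b + s)).testBit i = true := hi
    rw [Nat.testBit_or, Nat.shiftLeft_eq, one_mul, Nat.testBit_two_pow, Bool.or_eq_true,
      decide_eq_true_eq] at hi'
    rcases hi' with hi' | rfl
    · exact h i hi'
    · rw [show (2 * b + s) / 2 = b by omega, show (2 * b + s) % 2 = s by omega]
      exact ⟨h1, h2⟩
  rcases hf with rfl | ⟨rfl, hf⟩
  · left
    have : Pool.Agent.Lib.MP_15cb89_nt.upd st b 0 0 = st := by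
      show st ||| 0 <<< (2 * b + 0) = st
      simp
    rwa [this]
  · have h1 : chi (p * q) b = chi p b * chi q b := by
      unfold chi
      exact jacobiSym.mul_right' _ (left_ne_zero_of_mul h0) (right_ne_zero_of_mul h0)
    rcases jacobiSym.trichotomy (b : ℤ) p with h2 | h2 | h2
    · rw [h1] at hf
      unfold chi at hf
      rw [h2] at hf
      simp at hf
    · exact Or.inl (key 0 (by norm_num) hf h2)
    · exact Or.inr ⟨rfl, key 1 (by norm_num) hf h2⟩

section

variable {g : ℕ → Test} {n : ℤ} {p q : ℕ}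

theorem nodeB_sound (h0 : p * q ≠ 0)
    (hg : ∀ k n0 M st, runT (g k) n0 M st = true → Ref n p q n0 M st) {code : ℕ} {kids : CT}
    {L : LS} {n0 M st : ℕ} (hL : L.OK n p q) (h : nodeB g code kids L n0 M st = true)
    (hk : ∀ i, kids.mem i = true →
      Ref n p q (n0 + M * (i / 2)) (M * L.r) (upd st L.b L.fl (i % 2))) : Ref n p q n0 M st := by
  intro hn hs
  cases L with
  | nil => exact absurd h (by simp [nodeB])
  | cons R r msk b fl tl =>
    obtain ⟨l1, l2, l3, l4, _⟩ := hL
    simp only [LS.r, LS.b, LS.fl] at hk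
    have h1 : force (Nat.mul M r) (fun M1 => force (upd st b fl 0) fun s0 =>
      force (upd st b fl 1) fun s1 =>
      Nat.beq (sumC R fun j => force (Nat.add n0 (Nat.mul M j)) fun n1 =>
        @Nat.rec (fun _ => ℕ) (kid2 g code kids fl j n1 M1 s0 s1) (fun _ _ => 0)
          (Nat.mod (Nat.shiftRight msk (Nat.mod n1 r)) 2)) 0) = true := h
    simp only [force_eq] at h1
    obtain ⟨k, hk1⟩ := hn.symm.dvd
    have hr : (0 : ℤ) < r := by exact_mod_cast l2
    obtain ⟨j, hj, hj'⟩ : ∃ j : ℕ, j < r ∧ (j : ℤ) = k % r := by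
      have := Int.emod_lt_of_pos k hr
      have := Int.emod_nonneg k hr.ne'
      exact ⟨(k % r).toNat, by omega, by omega⟩
    have hn1 : n ≡ ((n0 + M * j : ℕ) : ℤ) [ZMOD ((M * r : ℕ) : ℤ)] := by
      refine (Int.modEq_iff_dvd.mpr ⟨k / r, ?_⟩).symm
      push_cast
      rw [hj']
      linear_combination hk1 - M * Int.emod_add_mul_ediv k r
    have h2 := sumC_zero l1 (Nat.eq_of_beq_eq_true h1) hj
    have h3 : Nat.mod (Nat.shiftRight msk (Nat.mod (Nat.add n0 (Nat.mul M j)) r)) 2 = 0 := by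
      have e1 : (n % r).toNat = (n0 + M * j) % r := by
        have : n ≡ ((n0 + M * j : ℕ) : ℤ) [ZMOD r] := hn1.of_dvd ⟨M, by push_cast; ring⟩
        rw [this, ← Int.natCast_mod, Int.toNat_natCast]
      rw [e1, Nat.testBit_eq_decide_div_mod_eq, decide_eq_false_iff_not,
        ← Nat.shiftRight_eq_div_pow] at l3
      show (msk >>> ((n0 + M * j) % r)) % 2 = 0
      omega
    rw [h3] at h2
    have h4 : @Bool.rec (fun _ => ℕ) 1
      (@Nat.rec (fun _ => ℕ) 0 (fun _ _ => @Bool.rec (fun _ => ℕ) 1 0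
        (kid g code kids (2 * j + 1) (n0 + M * j) (M * r) (upd st b fl 1))) fl)
      (kid g code kids (2 * j) (n0 + M * j) (M * r) (upd st b fl 0)) = 0 := h2
    have kd : ∀ s, s < 2 → kid g code kids (2 * j + s) (n0 + M * j) (M * r) (upd st b fl s) = true →
        StOK p q (upd st b fl s) → False := by
      intro s hs2 h5 h6
      unfold kid at h5
      cases hf : fld code (2 * j + s) with
      | zero =>
        rw [hf] at h5
        have := hk _ h5
        rw [show (2 * j + s) / 2 = j by omega, show (2 * j + s) % 2 = s by omega] at this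
        exact this hn1 h6
      | succ k => rw [hf] at h5; exact hg _ _ _ _ h5 hn1 h6
    cases h5 : kid g code kids (2 * j) (n0 + M * j) (M * r) (upd st b fl 0) with
    | false => rw [h5] at h4; exact absurd h4 (by simp)
    | true =>
      rw [h5] at h4
      rcases hs.upd h0 l4 with h6 | ⟨rfl, h6⟩
      · exact kd 0 (by norm_num) h5 h6
      · cases h7 : kid g code kids (2 * j + 1) (n0 + M * j) (M * r) (upd st b 1 1) with
        | false => rw [h7] at h4; exact absurd h4 (by simp)
        | true => exact kd 1 (by norm_num) h7 h6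

theorem chain_sound (h0 : p * q ≠ 0)
    (hg : ∀ k n0 M st, runT (g k) n0 M st = true → Ref n p q n0 M st) (t : CT) :
    ∀ (L : LS) (n0 M st : ℕ), L.OK n p q → chain g t L n0 M st = true → ∀ i, t.mem i = true →
      Ref n p q (n0 + M * (i / 2)) (M * L.r) (upd st L.b L.fl (i % 2)) := by
  induction t with
  | nil => intro L n0 M st _ _ i hi; exact absurd hi (by simp [CT.mem])
  | node i0 code kids nx ih1 ih2 =>
    intro L n0 M st hL h i hi
    cases L with
    | nil => exact absurd h (by simp [chain])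
    | cons R r msk b fl tl =>
      have h1 : force (Nat.add n0 (Nat.mul M (Nat.div i0 2))) (fun n1 =>
        force (Nat.mul M r) fun M1 => force (upd st b fl (Nat.mod i0 2)) fun s1 =>
          nodeB g code kids tl n1 M1 s1 && chain g kids tl n1 M1 s1 &&
            chain g nx (LS.cons R r msk b fl tl) n0 M st) = true := h
      simp only [force_eq, Bool.and_eq_true] at h1
      obtain ⟨⟨h2, h3⟩, h4⟩ := h1
      have hi' : @Bool.rec (fun _ => Bool) (nx.mem i) true (Nat.beq i0 i) = true := hi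
      cases hb : Nat.beq i0 i with
      | false => rw [hb] at hi'; exact ih2 _ _ _ _ hL h4 i hi'
      | true =>
        obtain rfl := Nat.eq_of_beq_eq_true hb
        exact nodeB_sound h0 hg hL.2.2.2.2 h2 (ih1 _ _ _ _ hL.2.2.2.2 h3)

end

theorem topB_sound {T : BT} (hT : T.All) {P : ℕ} {d : Test} {S : TT}
    (hw : (wfT T P d && S.all (wfT T P)) = true) {code : ℕ} {kids : CT} {L : LS} {n0 M st : ℕ}
    (h : topB (TT.get d S) code kids L n0 M st = true) {n : ℤ} {p q : ℕ} (hx : Cx n p q)
    (hP : P = 1 ∨ (P = p ∧ (p = 5 ∨ p = 13))) (hL : L.OK n p q) : Ref n p q n0 M st := by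
  rw [Bool.and_eq_true] at hw
  have h0 : p * q ≠ 0 := by
    have := hx.hp
    have := hx.hq
    exact Nat.mul_ne_zero (by omega) (by omega)
  have hg : ∀ k n0 M st, runT (TT.get d S k) n0 M st = true → Ref n p q n0 M st :=
    fun k n0 M st h1 hn hs => runT_sound hT (TT.get_ok hw.1 hw.2 k) hx hP hn hs h1
  unfold topB at h
  rw [Bool.and_eq_true] at h
  exact nodeB_sound h0 hg hL h.1 (chain_sound h0 hg kids L n0 M st hL h.2)

end Pool.Agent.Lib.MP_15cb89_nt
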