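import Pool.Agent.Lib.MP_15cb89_nt.Tab

/-! Exhaustive search for solutions of the bilinear systems modulo three. -/

set_option autoImplicit false

namespace Pool.Agent.Lib.MP_15cb89_nt

inductive PI where
  | nil : PI
  | skip (tl : PI) : PI
  | cons (f al be x ll : ℕ) (tl : PI) : PI

inductive EI where
  | nil : EI
  | cons (c e : Bool) (a x f : ℕ) (ps : PI) (tl : EI) : EI

inductive AS where
  | nil : AS
  | cons (e : Bool) (w u : ℕ) (tl : AS) : AS

def Kn (v : ℕ) (s : ZMod 3) : Prop := v = 0 ∨ s + 1 = v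

def eq3 (a f : ℕ) : Bool := Nat.beq (Nat.mod a 3) f

def pA (al be z w w0 : ℕ) : ℕ := Nat.add (Nat.mul al z) (Nat.mul be (Nat.add w w0))

def pD (A u u0 ll xy f : ℕ) : Bool := eq3 (Nat.add A (Nat.add (Nat.mul u u0) (Nat.mul ll xy))) f

def pZ (A x f : ℕ) : Bool := @Nat.rec (fun _ => Bool) (eq3 A f) (fun _ _ => true) x

def pT (A y xk f : ℕ) : Bool :=
  @Nat.rec (fun _ => Bool) (pZ A y f) (fun k _ => eq3 (Nat.add A (Nat.mul k y)) f) xk

def pairB (x y xy : ℕ) (e e0 : Bool) (A u u0 f xk ll : ℕ) : Bool :=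
  @Bool.rec (fun _ => Bool)
    (@Bool.rec (fun _ => Bool) (pZ A x f) (pD A u u0 ll xy f) e)
    (@Bool.rec (fun _ => Bool) (pD A u u0 ll xy f) (pT A y xk f) e) e0

noncomputable def pairsB (z x y xy : ℕ) (e : Bool) (w u : ℕ) (ps : PI) : AS → Bool :=
  @PI.rec (fun _ => AS → Bool) (fun _ => true)
    (fun _ r s => @AS.rec (fun _ => Bool) true (fun _ _ _ tl _ => r tl) s)
    (fun f al be xk ll _ r s => @AS.rec (fun _ => Bool) true
      (fun e0 w0 u0 tl _ => @Bool.rec (fun _ => Bool) false (r tl)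
        (pairB x y xy e e0 (pA al be z w w0) u u0 f xk ll)) s) ps

def loop3 (g : ℕ → Bool) : Bool :=
  @Bool.rec (fun _ => Bool) false (@Bool.rec (fun _ => Bool) false (g 2) (g 1)) (g 0)

def loopK (v : ℕ) (g : ℕ → Bool) : Bool := @Nat.rec (fun _ => Bool) (loop3 g) (fun k _ => g k) v

def loopG (v : ℕ) (g : ℕ → Bool) : Bool :=
  @Nat.rec (fun _ => Bool) (@Bool.rec (fun _ => Bool) false (g 1) (g 0)) (fun k _ => g k) v

def wLoop (c : Bool) (a a1 z t : ℕ) (g : ℕ → Bool) : Bool :=
  @Bool.rec (fun _ => Bool)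
    (@Nat.rec (fun _ => Bool) (@Nat.rec (fun _ => Bool) (loop3 g) (fun _ _ => true) t)
      (fun _ _ => force (Nat.mod (Nat.mul a t) 3) g) a)
    (@Bool.rec (fun _ => Bool) true (g 0) (eq3 (Nat.mul a1 z) t)) c

noncomputable def srchE (a z x y xy : ℕ) (es : EI) : AS → Bool :=
  @EI.rec (fun _ => AS → Bool) (fun _ => false)
    (fun c e a1 xk f ps _ r s =>
      loopK (@Bool.rec (fun _ => ℕ) 0 xk e) fun u =>
        force (Nat.mod (Nat.mul 2 (Nat.add f (Nat.mul (@Bool.rec (fun _ => ℕ) x y e) u))) 3)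
          fun t => wLoop c a a1 z t fun w =>
            @Bool.rec (fun _ => Bool) true (r (AS.cons e w u s)) (pairsB z x y xy e w u ps s)) es

noncomputable def srch (a xk F : ℕ) (es : EI) : Bool :=
  loopG xk fun x => loop3 fun y => force (Nat.mod (Nat.mul x y) 3) fun xy => loop3 fun z =>
    @Bool.rec (fun _ => Bool) true (srchE a z x y xy es AS.nil)
      (eq3 (Nat.add (Nat.mul a z) xy) F)

def AS.toL : AS → List (Bool × ZMod 3 × ZMod 3)
  | .nil => []
  | .cons e w u tl => (e, (w : ZMod 3), (u : ZMod 3)) :: tl.toL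

def PIok (z x y : ZMod 3) (e : Bool) (w u : ZMod 3) :
    PI → List (Bool × ZMod 3 × ZMod 3) → Prop
  | .nil, _ => True
  | .skip tl, l => PIok z x y e w u tl l.tail
  | .cons _ _ _ _ _ _, [] => True
  | .cons f al be xk ll tl, v :: l => f < 3 ∧ (∃ x12 y12 : ZMod 3, Kn xk x12 ∧
      (f : ZMod 3) = al * z + be * (w + v.2.1) +
        (if v.1 then (if e then x12 * y else v.2.2 * u + ll * (x * y))
          else (if e then u * v.2.2 + ll * (x * y) else x * y12))) ∧ PIok z x y e w u tl l

def EIok (a z x y : ZMod 3) : EI → List (Bool × ZMod 3 × ZMod 3) → Prop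
  | .nil, _ => True
  | .cons c e a1 xk f ps tl, l => ∃ w u : ZMod 3, (c = true → w = 0) ∧ (e = true → Kn xk u) ∧
      (f : ZMod 3) = 2 * (if c then a1 * z else a * w) + 2 * ((if e then y else x) * u) ∧
      PIok z x y e w u ps l ∧ EIok a z x y tl ((e, w, u) :: l)

theorem eq3_of {a f : ℕ} (hf : f < 3) (h : (f : ZMod 3) = a) : eq3 a f = true := by
  have := (ZMod.natCast_eq_natCast_iff' f a 3).mp h
  rw [Nat.mod_eq_of_lt hf] at this
  exact Nat.beq_eq ▸ this.symm

theorem pZ_of {A x f : ℕ} (hf : f < 3) (s : ZMod 3) (h : (f : ZMod 3) = A + x * s) :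
    pZ A x f = true := by
  cases x with
  | zero => exact eq3_of hf (by simpa using h)
  | succ k => rfl

theorem pairB_of {x y xy A u u0 f xk ll : ℕ} {e e0 : Bool} (hf : f < 3)
    (hxy : (xy : ZMod 3) = x * y) (x12 y12 : ZMod 3) (hk : Kn xk x12)
    (h : (f : ZMod 3) = A + (if e0 then (if e then x12 * y else u0 * u + ll * (x * y))
      else (if e then u * u0 + ll * (x * y) else x * y12))) :
    pairB x y xy e e0 A u u0 f xk ll = true := by
  cases e0 <;> cases e <;> simp only [Bool.false_eq_true, if_true, if_false] at h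
  · exact pZ_of hf _ h
  · exact eq3_of hf (by simp only [Nat.add_eq, Nat.mul_eq]; push_cast; rw [h, hxy])
  · exact eq3_of hf (by simp only [Nat.add_eq, Nat.mul_eq]; push_cast; rw [h, hxy]; ring)
  · cases xk with
    | zero => exact pZ_of hf x12 (by rw [h]; ring)
    | succ k =>
      rcases hk with hk | hk
      · omega
      · push_cast at hk
        have : x12 = k := add_right_cancel hk
        exact eq3_of hf (by simp only [Nat.add_eq, Nat.mul_eq]; push_cast; rw [h, this])

theorem pairsB_of {z x y xy w u : ℕ} {e : Bool} (hxy : (xy : ZMod 3) = x * y) (ps : PI) :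
    ∀ s : AS, PIok z x y e w u ps s.toL → pairsB z x y xy e w u ps s = true := by
  induction ps with
  | nil => intro _ _; rfl
  | skip tl ih =>
    intro s h
    cases s with
    | nil => rfl
    | cons e0 w0 u0 s => exact ih s h
  | cons f al be xk ll tl ih =>
    intro s h
    cases s with
    | nil => rfl
    | cons e0 w0 u0 s =>
      obtain ⟨hf, ⟨x12, y12, hk, h1⟩, h2⟩ := h
      have h3 : pairB x y xy e e0 (pA al be z w w0) u u0 f xk ll = true :=
        pairB_of hf hxy x12 y12 hk (by
          rw [h1]; simp only [pA, Nat.add_eq, Nat.mul_eq]; push_cast; rfl)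
      show @Bool.rec (fun _ => Bool) false (pairsB z x y xy e w u tl s)
        (pairB x y xy e e0 (pA al be z w w0) u u0 f xk ll) = true
      rw [h3]
      exact ih s h2

theorem z3_cases (s : ZMod 3) : s = 0 ∨ s = 1 ∨ s = 2 := by revert s; decide

theorem loop3_true {g : ℕ → Bool} (h : loop3 g = true) (s : ZMod 3) :
    ∃ k : ℕ, (k : ZMod 3) = s ∧ g k = true := by
  unfold loop3 at h
  cases h0 : g 0 with
  | false => rw [h0] at h; exact absurd h (by simp)
  | true =>
    cases h1 : g 1 with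
    | false => rw [h0, h1] at h; exact absurd h (by simp)
    | true =>
      rw [h0, h1] at h
      rcases z3_cases s with rfl | rfl | rfl
      · exact ⟨0, rfl, h0⟩
      · exact ⟨1, rfl, h1⟩
      · exact ⟨2, rfl, h⟩

theorem loopK_true {v : ℕ} {g : ℕ → Bool} (h : loopK v g = true) {s : ZMod 3} (hk : Kn v s) :
    ∃ k : ℕ, (k : ZMod 3) = s ∧ g k = true := by
  cases v with
  | zero => exact loop3_true h s
  | succ k =>
    rcases hk with hk | hk
    · omega
    · push_cast at hk
      exact ⟨k, (add_right_cancel hk).symm, h⟩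

theorem loopG_true {v : ℕ} {g : ℕ → Bool} (h : loopG v g = true) {s : ZMod 3} (hk : Kn v s)
    (h2 : v = 0 → s ≠ 2) : ∃ k : ℕ, (k : ZMod 3) = s ∧ g k = true := by
  cases v with
  | zero =>
    have h' : @Bool.rec (fun _ => Bool) false (g 1) (g 0) = true := h
    cases h0 : g 0 with
    | false => rw [h0] at h'; exact absurd h' (by simp)
    | true =>
      rw [h0] at h'
      rcases z3_cases s with rfl | rfl | rfl
      · exact ⟨0, rfl, h0⟩
      · exact ⟨1, rfl, h'⟩
      · exact absurd rfl (h2 rfl)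
  | succ k =>
    rcases hk with hk | hk
    · omega
    · push_cast at hk
      exact ⟨k, (add_right_cancel hk).symm, h⟩

theorem wLoop_true {c : Bool} {a a1 z t : ℕ} {g : ℕ → Bool} (h : wLoop c a a1 z t g = true)
    (ha : a < 3) (ht : t < 3) {w : ZMod 3} (hw : c = true → w = 0)
    (he : (t : ZMod 3) = if c then (a1 : ZMod 3) * z else a * w) :
    ∃ k : ℕ, (k : ZMod 3) = w ∧ g k = true := by
  cases c with
  | true =>
    have h' : @Bool.rec (fun _ => Bool) true (g 0) (eq3 (Nat.mul a1 z) t) = true := h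
    rw [eq3_of ht (by simp only [Nat.mul_eq]; push_cast; simpa using he)] at h'
    exact ⟨0, by rw [hw rfl]; rfl, h'⟩
  | false =>
    simp only [Bool.false_eq_true, if_false] at he
    cases a with
    | zero =>
      have : t = 0 := by
        have := (ZMod.natCast_eq_zero_iff t 3).mp (by simpa using he)
        omega
      subst this
      exact loop3_true h w
    | succ k =>
      have h' : force (Nat.mod (Nat.mul (k + 1) t) 3) g = true := h
      rw [force_eq] at h'
      refine ⟨_, ?_, h'⟩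
      show ((((k + 1) * t) % 3 : ℕ) : ZMod 3) = w
      rw [ZMod.natCast_mod, Nat.cast_mul, he, ← mul_assoc]
      have : ((k + 1 : ℕ) : ZMod 3) * ((k + 1 : ℕ) : ZMod 3) = 1 := by
        have : k = 0 ∨ k = 1 := by omega
        rcases this with rfl | rfl <;> rfl
      rw [this, one_mul]

theorem srchE_false {a z x y xy : ℕ} (ha : a < 3) (hxy : (xy : ZMod 3) = x * y) (es : EI) :
    ∀ s : AS, EIok a z x y es s.toL → srchE a z x y xy es s = true → False := by
  induction es with
  | nil => intro s _ h; exact absurd h (by simp [srchE])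
  | cons c e a1 xk f ps tl ih =>
    intro s h h'
    obtain ⟨w, u, hw, hu, hf, hp, ht⟩ := h
    have h1 : loopK (@Bool.rec (fun _ => ℕ) 0 xk e) (fun u =>
        force (Nat.mod (Nat.mul 2 (Nat.add f (Nat.mul (@Bool.rec (fun _ => ℕ) x y e) u))) 3)
          fun t => wLoop c a a1 z t fun w =>
            @Bool.rec (fun _ => Bool) true (srchE a z x y xy tl (AS.cons e w u s))
              (pairsB z x y xy e w u ps s)) = true := h'
    obtain ⟨u', rfl, h2⟩ := loopK_true h1 (s := u) (by
      cases e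
      · exact Or.inl rfl
      · exact hu rfl)
    rw [force_eq] at h2
    obtain ⟨w', rfl, h3⟩ := wLoop_true h2 ha (Nat.mod_lt _ (by norm_num)) hw (by
      show (((2 * (f + (@Bool.rec (fun _ => ℕ) x y e) * u')) % 3 : ℕ) : ZMod 3) = _
      rw [ZMod.natCast_mod]
      have h3 : (3 : ZMod 3) = 0 := by decide
      have h4 : ((@Bool.rec (fun _ => ℕ) x y e : ℕ) : ZMod 3) = if e then (y : ZMod 3) else x := by
        cases e <;> rfl
      push_cast
      rw [hf, h4]
      linear_combination ((if c then (a1 : ZMod 3) * z else a * w) +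
        2 * ((if e then (y : ZMod 3) else x) * u')) * h3)
    rw [pairsB_of hxy ps s hp] at h3
    exact ih (AS.cons e w' u' s) ht h3

theorem srch_false {a xk F : ℕ} {es : EI} (ha : a < 3) (hF : F < 3) {z x y : ZMod 3}
    (hk : Kn xk x) (h2 : xk = 0 → x ≠ 2) (h0 : (F : ZMod 3) = a * z + x * y)
    (h : EIok a z x y es []) (hs : srch a xk F es = true) : False := by
  obtain ⟨x', rfl, h1⟩ := loopG_true hs hk h2
  obtain ⟨y', rfl, h2⟩ := loop3_true h1 y
  rw [force_eq] at h2
  obtain ⟨z', rfl, h3⟩ := loop3_true h2 z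
  have hxy : ((Nat.mod (Nat.mul x' y') 3 : ℕ) : ZMod 3) = x' * y' := by
    show (((x' * y') % 3 : ℕ) : ZMod 3) = _
    rw [ZMod.natCast_mod, Nat.cast_mul]
  rw [eq3_of hF (by rw [Nat.add_eq, Nat.cast_add, hxy, h0, Nat.mul_eq, Nat.cast_mul])] at h3
  exact srchE_false ha hxy es AS.nil h h3

end Pool.Agent.Lib.MP_15cb89_nt
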