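import Pool.Agent.Lib.MP_15cb89_nt.Sieve
import Pool.Agent.Lib.MP_15cb89_nt.Loops
import Pool.Agent.Lib.MP_15cb89_nt.Vals

/-! The tree of tables, the tests and the orders of the sieve. -/

set_option autoImplicit false
set_option maxRecDepth 100000

namespace Pool.Agent.Lib.MP_15cb89_nt

noncomputable def LvT : BT :=
  (.node (.node (.node (.node (.node (.node (.node (.node .nil 17043524 4 1 1 1 1 V242 .nil)
  17043527 7 1 1 1 1 V241 (.node .nil 17043531 11 1 1 1 1 V239 .nil)) 17043536 16 1 1 1 1 V240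
  (.node (.node .nil 17043539 19 1 1 1 1 V238 .nil) 17043543 23 1 1 1 1 V235 (.node .nil 17043551
  31 1 1 1 1 V233 .nil))) 17043563 43 1 1 1 1 V228 (.node (.node (.node .nil 17043780 4 5 1 1 1
  V236 .nil) 17043792 16 5 1 1 1 V229 (.node .nil 17043909 5 7 1 1 1 V232 .nil)) 17043912 8 7 1 1
  1 V222 (.node (.node .nil 17044165 5 11 1 1 1 V224 .nil) 17044168 8 11 1 1 1 V217 (.node .nil
  17044292 4 13 1 1 1 V226 .nil)))) 17044295 7 13 1 1 1 V216 (.node (.node (.node (.node .nil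
  17044299 11 13 1 1 1 V202 .nil) 17044304 16 13 1 1 1 V210 (.node .nil 17044677 5 19 1 1 1 V213
  .nil)) 17044680 8 19 1 1 1 V199 (.node (.node .nil 17059908 4 1 5 1 1 V237 .nil) 17059915 11 1 5
  1 1 V225 (.node .nil 17059920 16 1 5 1 1 V230 .nil))) 17059923 19 1 5 1 1 V214 (.node (.node
  (.node .nil 17059927 23 1 5 1 1 V208 .nil) 17059935 31 1 5 1 1 V198 (.node .nil 17060552 8 11 5
  1 1 V166 .nil)) 17060676 4 13 5 1 1 V186 (.node (.node .nil 17060679 7 13 5 1 1 V165 .nil)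
  17092683 11 1 13 1 1 V203 .nil)))) 17092688 16 1 13 1 1 V211 (.node (.node (.node (.node (.node
  .nil 17092691 19 1 13 1 1 V189 .nil) 17093064 8 7 13 1 1 V146 (.node .nil 17093320 8 11 13 1 1
  V122 .nil)) 18616388 4 1 1 7 1 V234 (.node (.node .nil 18616395 11 1 1 7 1 V218 .nil) 18616400
  16 1 1 7 1 V223 (.node .nil 18616403 19 1 1 7 1 V206 .nil))) 18616407 23 1 1 7 1 V197 (.node
  (.node (.node .nil 18616415 31 1 1 7 1 V190 .nil) 18616427 43 1 1 7 1 V180 (.node .nil 18616644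
  4 5 1 7 1 V204 .nil)) 18616656 16 5 1 7 1 V182 (.node (.node .nil 18617029 5 11 1 7 1 V170 .nil)
  18617032 8 11 1 7 1 V153 .nil))) 18617156 4 13 1 7 1 V173 (.node (.node (.node (.node .nil
  18617163 11 13 1 7 1 V127 .nil) 18617168 16 13 1 7 1 V144 (.node .nil 18617541 5 19 1 7 1 V151
  .nil)) 18617544 8 19 1 7 1 V125 (.node (.node .nil 18632772 4 1 5 7 1 V205 .nil) 18632779 11 1 5
  7 1 V171 (.node .nil 18632784 16 1 5 7 1 V183 .nil))) 18632791 23 1 5 7 1 V139 (.node (.node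
  (.node .nil 18665547 11 1 13 7 1 V128 .nil) 18665552 16 1 13 7 1 V145 (.node .nil 19140676 4 1 1
  9 1 V231 .nil)) 19140679 7 1 1 9 1 V221 (.node (.node .nil 19140683 11 1 1 9 1 V212 .nil)
  19140688 16 1 1 9 1 V220 .nil))))) 19140691 19 1 1 9 1 V196 (.node (.node (.node (.node (.node
  (.node .nil 19140695 23 1 1 9 1 V193 .nil) 19140703 31 1 1 9 1 V184 (.node .nil 19140715 43 1 1
  9 1 V169 .nil)) 19140932 4 5 1 9 1 V194 (.node (.node .nil 19140944 16 5 1 9 1 V175 .nil)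
  19141061 5 7 1 9 1 V178 (.node .nil 19141064 8 7 1 9 1 V159 .nil))) 19141317 5 11 1 9 1 V161
  (.node (.node (.node .nil 19141320 8 11 1 9 1 V140 .nil) 19141451 11 13 1 9 1 V115 (.node .nil
  19141456 16 13 1 9 1 V133 .nil)) 19141829 5 19 1 9 1 V136 (.node (.node .nil 19141832 8 19 1 9 1
  V110 .nil) 19157075 19 1 5 9 1 V137 (.node .nil 19157087 31 1 5 9 1 V109 .nil)))) 19189835 11 1
  13 9 1 V116 (.node (.node (.node (.node .nil 19189840 16 1 13 9 1 V134 .nil) 20189252 4 1 1 13 1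
  V227 (.node .nil 20189255 7 1 1 13 1 V215 .nil)) 20189259 11 1 1 13 1 V201 (.node (.node .nil
  20189264 16 1 1 13 1 V209 .nil) 20189267 19 1 1 13 1 V188 (.node .nil 20189271 23 1 1 13 1 V181
  .nil))) 20189279 31 1 1 13 1 V168 (.node (.node (.node .nil 20189291 43 1 1 13 1 V156 .nil)
  20189508 4 5 1 13 1 V185 (.node .nil 20189520 16 5 1 13 1 V157 .nil)) 20189637 5 7 1 13 1 V164
  (.node (.node .nil 20189640 8 7 1 13 1 V143 .nil) 20189893 5 11 1 13 1 V147 .nil)))) 20189896 8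
  11 1 13 1 V121 (.node (.node (.node (.node (.node .nil 20190405 5 19 1 13 1 V119 .nil) 20190408
  8 19 1 13 1 V96 (.node .nil 20205648 16 1 5 13 1 V158 .nil)) 20205663 31 1 5 13 1 V95 (.node
  (.node .nil 21762116 4 1 1 19 1 V219 .nil) 21762123 11 1 1 19 1 V192 (.node .nil 21762128 16 1 1
  19 1 V200 .nil))) 21762135 23 1 1 19 1 V167 (.node (.node (.node .nil 21762143 31 1 1 19 1 V154
  .nil) 21762372 4 5 1 19 1 V172 (.node .nil 21762384 16 5 1 19 1 V141 .nil)) 21762501 5 7 1 19 1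
  V150 (.node (.node .nil 21762504 8 7 1 19 1 V123 .nil) 21762757 5 11 1 19 1 V126 .nil)))
  21762760 8 11 1 19 1 V105 (.node (.node (.node (.node .nil 21762884 4 13 1 19 1 V130 .nil)
  21762891 11 13 1 19 1 V83 (.node .nil 21762896 16 13 1 19 1 V98 .nil)) 21778512 16 1 5 19 1 V142
  (.node (.node .nil 24907844 4 1 1 31 1 V207 .nil) 24907847 7 1 1 31 1 V191 (.node .nil 24907851
  11 1 1 31 1 V177 .nil))) 24907856 16 1 1 31 1 V187 (.node (.node (.node .nil 24907859 19 1 1 31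
  1 V155 .nil) 24907863 23 1 1 31 1 V148 (.node .nil 24907883 43 1 1 31 1 V113 .nil)) 24908100 4 5
  1 31 1 V152 (.node (.node .nil 24908112 16 5 1 31 1 V118 .nil) 24908485 5 11 1 31 1 V104
  .nil)))))) 24908488 8 11 1 31 1 V82 (.node (.node (.node (.node (.node (.node (.node .nil
  24908612 4 13 1 31 1 V107 .nil) 24908615 7 13 1 31 1 V81 (.node .nil 24908624 16 13 1 31 1 V76
  .nil)) 24909000 8 19 1 31 1 V57 (.node (.node .nil 24924996 4 13 5 31 1 V30 .nil) 24924999 7 13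
  5 31 1 V6 (.node .nil 24957008 16 1 13 31 1 V77 .nil))) 28053572 4 1 1 43 1 V195 (.node (.node
  (.node .nil 28053575 7 1 1 43 1 V179 .nil) 28053579 11 1 1 43 1 V162 (.node .nil 28053584 16 1 1
  43 1 V176 .nil)) 28053587 19 1 1 43 1 V138 (.node (.node .nil 28053591 23 1 1 43 1 V129 .nil)
  28053599 31 1 1 43 1 V112 (.node .nil 28053828 4 5 1 43 1 V135 .nil)))) 28053840 16 5 1 43 1
  V103 (.node (.node (.node (.node .nil 28054213 5 11 1 43 1 V89 .nil) 28054216 8 11 1 43 1 V71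
  (.node .nil 28054340 4 13 1 43 1 V92 .nil)) 28054352 16 13 1 43 1 V60 (.node (.node .nil
  28054728 8 19 1 43 1 V42 .nil) 119803979 11 1 1 9 7 V149 (.node .nil 119803984 16 1 1 9 7 V160
  .nil))) 119803987 19 1 1 9 7 V120 (.node (.node (.node .nil 119803991 23 1 1 9 7 V108 .nil)
  119803999 31 1 1 9 7 V99 (.node .nil 119804228 4 5 1 9 7 V117 .nil)) 119804240 16 5 1 9 7 V86
  (.node (.node .nil 119804613 5 11 1 9 7 V74 .nil) 119804747 11 13 1 9 7 V24 .nil)))) 119804752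
  16 13 1 9 7 V39 (.node (.node (.node (.node (.node .nil 119805125 5 19 1 9 7 V48 .nil) 119805128
  8 19 1 9 7 V21 (.node .nil 119853131 11 1 13 9 7 V25 .nil)) 119853136 16 1 13 9 7 V40 (.node
  (.node .nil 219942980 4 1 1 7 13 V174 .nil) 219942995 19 1 1 7 13 V102 (.node .nil 219942999 23
  1 1 7 13 V94 .nil))) 219943007 31 1 1 7 13 V80 (.node (.node (.node .nil 219943019 43 1 1 7 13
  V70 .nil) 219943236 4 5 1 7 13 V101 (.node .nil 219943248 16 5 1 7 13 V72 .nil)) 219943621 5 11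
  1 7 13 V55 (.node (.node .nil 219943624 8 11 1 7 13 V31 .nil) 219944133 5 19 1 7 13 V28 .nil)))
  219944136 8 19 1 7 13 V8 (.node (.node (.node (.node .nil 220467268 4 1 1 9 13 V163 .nil)
  220467275 11 1 1 9 13 V114 (.node .nil 220467280 16 1 1 9 13 V132 .nil)) 220467295 31 1 1 9 13
  V73 (.node (.node .nil 220467307 43 1 1 9 13 V54 .nil) 220467524 4 5 1 9 13 V90 (.node .nil
  220467536 16 5 1 9 13 V59 .nil))) 220467653 5 7 1 9 13 V67 (.node (.node (.node .nil 220467656 8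
  7 1 9 13 V38 .nil) 220467909 5 11 1 9 13 V44 (.node .nil 220467912 8 11 1 9 13 V18 .nil))
  220468421 5 19 1 9 13 V17 (.node (.node .nil 220468424 8 19 1 9 13 V1 .nil) 320606288 16 1 1 7
  19 V124 .nil))))) 320606295 23 1 1 7 19 V79 (.node (.node (.node (.node (.node (.node .nil
  320606303 31 1 1 7 19 V65 .nil) 320606532 4 5 1 7 19 V85 (.node .nil 320606544 16 5 1 7 19 V51
  .nil)) 320606917 5 11 1 7 19 V34 (.node (.node .nil 320606920 8 11 1 7 19 V15 .nil) 320607044 4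
  13 1 7 19 V36 (.node .nil 320622672 16 1 5 7 19 V52 .nil))) 321130571 11 1 1 9 19 V100 (.node
  (.node (.node .nil 321130576 16 1 1 9 19 V111 .nil) 321130583 23 1 1 9 19 V68 (.node .nil
  321130591 31 1 1 9 19 V53 .nil)) 321130820 4 5 1 9 19 V75 (.node (.node .nil 321130832 16 5 1 9
  19 V37 .nil) 321130949 5 7 1 9 19 V47 (.node .nil 321130952 8 7 1 9 19 V20 .nil)))) 322179140 4
  1 1 13 19 V131 (.node (.node (.node (.node .nil 322179152 16 1 1 13 19 V97 .nil) 322179159 23 1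
  1 13 19 V49 (.node .nil 322179167 31 1 1 13 19 V33 .nil)) 322179408 16 5 1 13 19 V19 (.node
  (.node .nil 322179525 5 7 1 13 19 V29 .nil) 322179528 8 7 1 13 19 V7 (.node .nil 322179781 5 11
  1 13 19 V9 .nil))) 521932875 11 1 1 7 31 V88 (.node (.node (.node .nil 521932883 19 1 1 7 31 V66
  .nil) 521932887 23 1 1 7 31 V56 (.node .nil 521932907 43 1 1 7 31 V23 .nil)) 521933124 4 5 1 7
  31 V63 (.node (.node .nil 521933136 16 5 1 7 31 V27 .nil) 521933509 5 11 1 7 31 V14 .nil))))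
  521933636 4 13 1 7 31 V16 (.node (.node (.node (.node (.node .nil 522457163 11 1 1 9 31 V78
  .nil) 522457168 16 1 1 9 31 V93 (.node .nil 522457175 23 1 1 9 31 V45 .nil)) 522457195 43 1 1 9
  31 V13 (.node (.node .nil 522457412 4 5 1 9 31 V50 .nil) 522506320 16 1 13 9 31 V0 (.node .nil
  523505732 4 1 1 13 31 V106 .nil))) 523505739 11 1 1 13 31 V62 (.node (.node (.node .nil
  523506000 16 5 1 13 31 V3 .nil) 525078603 11 1 1 19 31 V43 (.node .nil 525078608 16 1 1 19 31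
  V58 .nil)) 723259472 16 1 1 7 43 V87 (.node (.node .nil 723259479 23 1 1 7 43 V35 .nil)
  723259716 4 5 1 7 43 V46 .nil))) 723259728 16 5 1 7 43 V11 (.node (.node (.node (.node .nil
  723260228 4 13 1 7 43 V4 .nil) 723783751 7 1 1 9 43 V84 (.node .nil 723783755 11 1 1 9 43 V64
  .nil)) 723783767 23 1 1 9 43 V26 (.node (.node .nil 723783775 31 1 1 9 43 V12 .nil) 723784004 4
  5 1 9 43 V32 (.node .nil 724832324 4 1 1 13 43 V91 .nil))) 724832327 7 1 1 13 43 V69 (.node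
  (.node (.node .nil 724832336 16 1 1 13 43 V61 .nil) 724832343 23 1 1 13 43 V10 (.node .nil
  726405200 16 1 1 19 43 V41 .nil)) 726405444 4 5 1 19 43 V2 (.node (.node .nil 729550919 7 1 1 31
  43 V22 .nil) 729550923 11 1 1 31 43 V5 .nil)))))))

noncomputable def tA0 : Test :=
  ⟨31, 1, (nat_lit 3627), V233, (nat_lit 31), (nat_lit 0), (nat_lit 0), (.cons 9 (nat_lit 3) false
  V184 (nat_lit 279) (nat_lit 0) (nat_lit 0) .nil (.cons 13 (nat_lit 13) false V168 (nat_lit 403)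
  (nat_lit 0) (nat_lit 0) (.cons V73 (nat_lit 3627) (nat_lit 0) (nat_lit 0) (nat_lit 0) (nat_lit
  2) .nil) .nil))⟩

noncomputable def tA1 : Test :=
  ⟨8, 19, (nat_lit 202616), V199, (nat_lit 152), (nat_lit 0), (nat_lit 0), (.cons 31 (nat_lit 31)
  false V57 (nat_lit 4712) (nat_lit 0) (nat_lit 0) .nil (.cons 43 (nat_lit 43) false V42 (nat_lit
  6536) (nat_lit 0) (nat_lit 0) .nil .nil))⟩

noncomputable def tA2 : Test :=
  ⟨16, 1, (nat_lit 1368), V240, (nat_lit 8), (nat_lit 1), (nat_lit 0), (.cons 9 (nat_lit 3) true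
  V220 (nat_lit 72) (nat_lit 2) (nat_lit 0) .nil (.cons 19 (nat_lit 19) true V200 (nat_lit 152)
  (nat_lit 1) (nat_lit 0) (.cons V111 (nat_lit 1368) (nat_lit 1) (nat_lit 0) (nat_lit 0) (nat_lit
  0) .nil) .nil))⟩

noncomputable def tA3 : Test :=
  ⟨5, 19, (nat_lit 11115), V213, (nat_lit 95), (nat_lit 2), (nat_lit 0), (.cons 9 (nat_lit 3) true
  V136 (nat_lit 855) (nat_lit 1) (nat_lit 0) .nil (.cons 13 (nat_lit 13) true V119 (nat_lit 1235)
  (nat_lit 1) (nat_lit 0) (.cons V17 (nat_lit 11115) (nat_lit 2) (nat_lit 0) (nat_lit 0) (nat_lit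
  2) .nil) .nil))⟩

noncomputable def tA4 : Test :=
  ⟨16, 5, (nat_lit 5320), V229, (nat_lit 40), (nat_lit 1), (nat_lit 0), (.cons 7 (nat_lit 7) true
  V182 (nat_lit 280) (nat_lit 0) (nat_lit 0) .nil (.cons 19 (nat_lit 19) true V141 (nat_lit 760)
  (nat_lit 2) (nat_lit 0) (.cons V51 (nat_lit 5320) (nat_lit 1) (nat_lit 0) (nat_lit 0) (nat_lit
  0) .nil) .nil))⟩

noncomputable def tA5 : Test :=
  ⟨8, 19, (nat_lit 9576), V199, (nat_lit 152), (nat_lit 0), (nat_lit 0), (.cons 9 (nat_lit 3) true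
  V110 (nat_lit 1368) (nat_lit 2) (nat_lit 0) .nil (.cons 7 (nat_lit 7) true V125 (nat_lit 1064)
  (nat_lit 1) (nat_lit 0) (.cons V21 (nat_lit 9576) (nat_lit 2) (nat_lit 0) (nat_lit 0) (nat_lit
  1) .nil) .nil))⟩

noncomputable def tA6 : Test :=
  ⟨11, 1, (nat_lit 3069), V239, (nat_lit 11), (nat_lit 1), (nat_lit 0), (.cons 9 (nat_lit 3) true
  V212 (nat_lit 99) (nat_lit 1) (nat_lit 0) .nil (.cons 31 (nat_lit 31) true V177 (nat_lit 341)
  (nat_lit 2) (nat_lit 0) (.cons V78 (nat_lit 3069) (nat_lit 1) (nat_lit 0) (nat_lit 0) (nat_lit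
  2) .nil) .nil))⟩

noncomputable def tA7 : Test :=
  ⟨16, 1, (nat_lit 202616), V240, (nat_lit 8), (nat_lit 1), (nat_lit 0), (.cons 19 (nat_lit 19)
  true V200 (nat_lit 152) (nat_lit 1) (nat_lit 0) .nil (.cons 31 (nat_lit 31) false V187 (nat_lit
  248) (nat_lit 0) (nat_lit 0) (.cons V58 (nat_lit 4712) (nat_lit 0) (nat_lit 1) (nat_lit 0)
  (nat_lit 0) .nil) (.cons 43 (nat_lit 43) true V176 (nat_lit 344) (nat_lit 1) (nat_lit 0) (.skip
  (.cons V41 (nat_lit 6536) (nat_lit 2) (nat_lit 0) (nat_lit 0) (nat_lit 1) .nil)) .nil)))⟩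

noncomputable def tA8 : Test :=
  ⟨31, 1, (nat_lit 17329), V233, (nat_lit 31), (nat_lit 0), (nat_lit 0), (.cons 13 (nat_lit 13)
  false V168 (nat_lit 403) (nat_lit 0) (nat_lit 0) .nil (.cons 43 (nat_lit 43) false V112 (nat_lit
  1333) (nat_lit 0) (nat_lit 0) .nil .nil))⟩

noncomputable def tA9 : Test :=
  ⟨16, 13, (nat_lit 61256), V210, (nat_lit 104), (nat_lit 0), (nat_lit 0), (.cons 19 (nat_lit 19)
  false V98 (nat_lit 1976) (nat_lit 0) (nat_lit 0) .nil (.cons 31 (nat_lit 31) true V76 (nat_lit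
  3224) (nat_lit 0) (nat_lit 0) .nil .nil))⟩

noncomputable def tA10 : Test :=
  ⟨19, 1, (nat_lit 15561), V238, (nat_lit 19), (nat_lit 2), (nat_lit 0), (.cons 9 (nat_lit 3)
  false V196 (nat_lit 171) (nat_lit 0) (nat_lit 0) .nil (.cons 7 (nat_lit 7) true V206 (nat_lit
  133) (nat_lit 2) (nat_lit 0) (.cons V120 (nat_lit 1197) (nat_lit 2) (nat_lit 2) (nat_lit 0)
  (nat_lit 1) .nil) (.cons 13 (nat_lit 13) false V188 (nat_lit 247) (nat_lit 0) (nat_lit 0) (.cons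
  V102 (nat_lit 1729) (nat_lit 0) (nat_lit 2) (nat_lit 0) (nat_lit 0) .nil) .nil)))⟩

noncomputable def tA11 : Test :=
  ⟨4, 13, (nat_lit 6916), V226, (nat_lit 52), (nat_lit 1), (nat_lit 0), (.cons 7 (nat_lit 7) true
  V173 (nat_lit 364) (nat_lit 1) (nat_lit 0) .nil (.cons 19 (nat_lit 19) true V130 (nat_lit 988)
  (nat_lit 0) (nat_lit 0) (.cons V36 (nat_lit 6916) (nat_lit 0) (nat_lit 0) (nat_lit 0) (nat_lit
  0) .nil) .nil))⟩

noncomputable def tA12 : Test :=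
  ⟨4, 1, (nat_lit 69316), V242, (nat_lit 4), (nat_lit 1), (nat_lit 0), (.cons 13 (nat_lit 13) true
  V227 (nat_lit 52) (nat_lit 2) (nat_lit 0) .nil (.cons 31 (nat_lit 31) false V207 (nat_lit 124)
  (nat_lit 0) (nat_lit 0) (.cons V106 (nat_lit 1612) (nat_lit 0) (nat_lit 2) (nat_lit 0) (nat_lit
  0) .nil) (.cons 43 (nat_lit 43) false V195 (nat_lit 172) (nat_lit 0) (nat_lit 0) (.skip (.cons
  V91 (nat_lit 2236) (nat_lit 1) (nat_lit 2) (nat_lit 0) (nat_lit 1) .nil)) .nil)))⟩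

noncomputable def tA13 : Test :=
  ⟨16, 1, (nat_lit 9576), V240, (nat_lit 8), (nat_lit 1), (nat_lit 0), (.cons 9 (nat_lit 3) true
  V220 (nat_lit 72) (nat_lit 2) (nat_lit 0) .nil (.cons 7 (nat_lit 7) false V223 (nat_lit 56)
  (nat_lit 0) (nat_lit 0) (.cons V160 (nat_lit 504) (nat_lit 1) (nat_lit 2) (nat_lit 0) (nat_lit
  1) .nil) (.cons 19 (nat_lit 19) true V200 (nat_lit 152) (nat_lit 1) (nat_lit 0) (.cons V124
  (nat_lit 1064) (nat_lit 0) (nat_lit 1) (nat_lit 0) (nat_lit 0) .nil) .nil)))⟩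

noncomputable def tA14 : Test :=
  ⟨31, 1, (nat_lit 4123), V233, (nat_lit 31), (nat_lit 0), (nat_lit 0), (.cons 7 (nat_lit 7) true
  V190 (nat_lit 217) (nat_lit 1) (nat_lit 0) .nil (.cons 19 (nat_lit 19) true V154 (nat_lit 589)
  (nat_lit 1) (nat_lit 0) (.cons V65 (nat_lit 4123) (nat_lit 1) (nat_lit 0) (nat_lit 0) (nat_lit
  0) .nil) .nil))⟩

noncomputable def tA15 : Test :=
  ⟨16, 1, (nat_lit 202616), V240, (nat_lit 8), (nat_lit 1), (nat_lit 0), (.cons 19 (nat_lit 19)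
  true V200 (nat_lit 152) (nat_lit 1) (nat_lit 0) .nil (.cons 31 (nat_lit 31) false V187 (nat_lit
  248) (nat_lit 0) (nat_lit 0) (.cons V58 (nat_lit 4712) (nat_lit 0) (nat_lit 1) (nat_lit 0)
  (nat_lit 0) .nil) (.cons 43 (nat_lit 43) true V176 (nat_lit 344) (nat_lit 1) (nat_lit 0) .nil
  .nil)))⟩

noncomputable def tA16 : Test :=
  ⟨8, 19, (nat_lit 13832), V199, (nat_lit 152), (nat_lit 0), (nat_lit 0), (.cons 7 (nat_lit 7)
  true V125 (nat_lit 1064) (nat_lit 1) (nat_lit 0) .nil (.cons 13 (nat_lit 13) true V96 (nat_lit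
  1976) (nat_lit 1) (nat_lit 0) (.cons V8 (nat_lit 13832) (nat_lit 1) (nat_lit 0) (nat_lit 0)
  (nat_lit 0) .nil) .nil))⟩

noncomputable def tA17 : Test :=
  ⟨8, 19, (nat_lit 17784), V199, (nat_lit 152), (nat_lit 0), (nat_lit 0), (.cons 9 (nat_lit 3)
  true V110 (nat_lit 1368) (nat_lit 2) (nat_lit 0) .nil (.cons 13 (nat_lit 13) true V96 (nat_lit
  1976) (nat_lit 1) (nat_lit 0) (.cons V1 (nat_lit 17784) (nat_lit 2) (nat_lit 0) (nat_lit 0)
  (nat_lit 2) .nil) .nil))⟩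

noncomputable def tA18 : Test :=
  ⟨16, 5, (nat_lit 9880), V229, (nat_lit 40), (nat_lit 1), (nat_lit 0), (.cons 13 (nat_lit 13)
  true V157 (nat_lit 520) (nat_lit 1) (nat_lit 0) .nil (.cons 19 (nat_lit 19) true V141 (nat_lit
  760) (nat_lit 2) (nat_lit 0) (.cons V19 (nat_lit 9880) (nat_lit 0) (nat_lit 0) (nat_lit 0)
  (nat_lit 1) .nil) .nil))⟩

noncomputable def tA19 : Test :=
  ⟨4, 1, (nat_lit 8892), V242, (nat_lit 4), (nat_lit 1), (nat_lit 0), (.cons 9 (nat_lit 3) false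
  V231 (nat_lit 36) (nat_lit 0) (nat_lit 0) .nil (.cons 13 (nat_lit 13) true V227 (nat_lit 52)
  (nat_lit 2) (nat_lit 0) (.cons V163 (nat_lit 468) (nat_lit 2) (nat_lit 2) (nat_lit 0) (nat_lit
  2) .nil) (.cons 19 (nat_lit 19) false V219 (nat_lit 76) (nat_lit 0) (nat_lit 0) (.cons V131
  (nat_lit 988) (nat_lit 1) (nat_lit 2) (nat_lit 0) (nat_lit 1) .nil) .nil)))⟩

noncomputable def tA20 : Test :=
  ⟨4, 1, (nat_lit 30628), V242, (nat_lit 4), (nat_lit 1), (nat_lit 0), (.cons 13 (nat_lit 13) true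
  V227 (nat_lit 52) (nat_lit 2) (nat_lit 0) .nil (.cons 19 (nat_lit 19) false V219 (nat_lit 76)
  (nat_lit 0) (nat_lit 0) (.cons V131 (nat_lit 988) (nat_lit 1) (nat_lit 2) (nat_lit 0) (nat_lit
  1) .nil) (.cons 31 (nat_lit 31) false V207 (nat_lit 124) (nat_lit 0) (nat_lit 0) (.skip (.cons
  V106 (nat_lit 1612) (nat_lit 0) (nat_lit 2) (nat_lit 0) (nat_lit 0) .nil)) .nil)))⟩

noncomputable def tA21 : Test :=
  ⟨8, 7, (nat_lit 9576), V222, (nat_lit 56), (nat_lit 1), (nat_lit 0), (.cons 9 (nat_lit 3) true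
  V159 (nat_lit 504) (nat_lit 0) (nat_lit 0) .nil (.cons 19 (nat_lit 19) true V123 (nat_lit 1064)
  (nat_lit 2) (nat_lit 0) (.cons V20 (nat_lit 9576) (nat_lit 0) (nat_lit 0) (nat_lit 0) (nat_lit
  0) .nil) .nil))⟩

noncomputable def tA22 : Test :=
  ⟨4, 1, (nat_lit 6916), V242, (nat_lit 4), (nat_lit 1), (nat_lit 0), (.cons 7 (nat_lit 7) false
  V234 (nat_lit 28) (nat_lit 0) (nat_lit 0) .nil (.cons 13 (nat_lit 13) true V227 (nat_lit 52)
  (nat_lit 2) (nat_lit 0) (.cons V174 (nat_lit 364) (nat_lit 0) (nat_lit 2) (nat_lit 0) (nat_lit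
  0) .nil) (.cons 19 (nat_lit 19) false V219 (nat_lit 76) (nat_lit 0) (nat_lit 0) (.cons V131
  (nat_lit 988) (nat_lit 1) (nat_lit 2) (nat_lit 0) (nat_lit 1) .nil) .nil)))⟩

noncomputable def tA23 : Test :=
  ⟨31, 1, (nat_lit 3627), V233, (nat_lit 31), (nat_lit 0), (nat_lit 0), (.cons 9 (nat_lit 3) false
  V184 (nat_lit 279) (nat_lit 0) (nat_lit 0) .nil (.cons 13 (nat_lit 13) false V168 (nat_lit 403)
  (nat_lit 0) (nat_lit 0) .nil .nil))⟩

noncomputable def tA24 : Test :=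
  ⟨4, 5, (nat_lit 44460), V236, (nat_lit 20), (nat_lit 2), (nat_lit 0), (.cons 9 (nat_lit 3) true
  V194 (nat_lit 180) (nat_lit 2) (nat_lit 0) .nil (.cons 13 (nat_lit 13) false V185 (nat_lit 260)
  (nat_lit 0) (nat_lit 0) (.cons V90 (nat_lit 2340) (nat_lit 1) (nat_lit 2) (nat_lit 0) (nat_lit
  2) .nil) (.cons 19 (nat_lit 19) false V172 (nat_lit 380) (nat_lit 0) (nat_lit 0) (.skip (.cons
  V75 (nat_lit 3420) (nat_lit 0) (nat_lit 2) (nat_lit 0) (nat_lit 0) .nil)) .nil)))⟩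

noncomputable def tA25 : Test :=
  ⟨4, 5, (nat_lit 23940), V236, (nat_lit 20), (nat_lit 2), (nat_lit 0), (.cons 9 (nat_lit 3) true
  V194 (nat_lit 180) (nat_lit 2) (nat_lit 0) .nil (.cons 7 (nat_lit 7) true V204 (nat_lit 140)
  (nat_lit 1) (nat_lit 0) (.cons V117 (nat_lit 1260) (nat_lit 2) (nat_lit 0) (nat_lit 0) (nat_lit
  1) .nil) (.cons 19 (nat_lit 19) false V172 (nat_lit 380) (nat_lit 0) (nat_lit 0) (.skip (.cons
  V75 (nat_lit 3420) (nat_lit 0) (nat_lit 2) (nat_lit 0) (nat_lit 0) .nil)) .nil)))⟩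

noncomputable def tA26 : Test :=
  ⟨16, 1, (nat_lit 17784), V240, (nat_lit 8), (nat_lit 1), (nat_lit 0), (.cons 9 (nat_lit 3) true
  V220 (nat_lit 72) (nat_lit 2) (nat_lit 0) .nil (.cons 13 (nat_lit 13) false V209 (nat_lit 104)
  (nat_lit 0) (nat_lit 0) (.cons V132 (nat_lit 936) (nat_lit 2) (nat_lit 2) (nat_lit 0) (nat_lit
  2) .nil) (.cons 19 (nat_lit 19) true V200 (nat_lit 152) (nat_lit 1) (nat_lit 0) (.cons V97
  (nat_lit 1976) (nat_lit 1) (nat_lit 1) (nat_lit 0) (nat_lit 1) .nil) .nil)))⟩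

noncomputable def tA27 : Test :=
  ⟨16, 1, (nat_lit 13832), V240, (nat_lit 8), (nat_lit 1), (nat_lit 0), (.cons 7 (nat_lit 7) false
  V223 (nat_lit 56) (nat_lit 0) (nat_lit 0) .nil (.cons 13 (nat_lit 13) false V209 (nat_lit 104)
  (nat_lit 0) (nat_lit 0) .nil (.cons 19 (nat_lit 19) true V200 (nat_lit 152) (nat_lit 1) (nat_lit
  0) (.cons V97 (nat_lit 1976) (nat_lit 1) (nat_lit 1) (nat_lit 0) (nat_lit 1) (.cons V124
  (nat_lit 1064) (nat_lit 0) (nat_lit 1) (nat_lit 0) (nat_lit 0) .nil)) .nil)))⟩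

noncomputable def tA28 : Test :=
  ⟨16, 1, (nat_lit 9576), V240, (nat_lit 8), (nat_lit 1), (nat_lit 0), (.cons 9 (nat_lit 3) true
  V220 (nat_lit 72) (nat_lit 2) (nat_lit 0) .nil (.cons 7 (nat_lit 7) false V223 (nat_lit 56)
  (nat_lit 0) (nat_lit 0) .nil (.cons 19 (nat_lit 19) true V200 (nat_lit 152) (nat_lit 1) (nat_lit
  0) (.cons V124 (nat_lit 1064) (nat_lit 0) (nat_lit 1) (nat_lit 0) (nat_lit 0) .nil) .nil)))⟩

noncomputable def tA29 : Test :=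
  ⟨16, 1, (nat_lit 29016), V240, (nat_lit 8), (nat_lit 1), (nat_lit 0), (.cons 9 (nat_lit 3) true
  V220 (nat_lit 72) (nat_lit 2) (nat_lit 0) .nil (.cons 13 (nat_lit 13) false V209 (nat_lit 104)
  (nat_lit 0) (nat_lit 0) (.cons V132 (nat_lit 936) (nat_lit 2) (nat_lit 2) (nat_lit 0) (nat_lit
  2) .nil) (.cons 31 (nat_lit 31) false V187 (nat_lit 248) (nat_lit 0) (nat_lit 0) (.skip (.cons
  V93 (nat_lit 2232) (nat_lit 2) (nat_lit 2) (nat_lit 0) (nat_lit 2) .nil)) .nil)))⟩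

noncomputable def tA30 : Test :=
  ⟨16, 1, (nat_lit 9576), V240, (nat_lit 8), (nat_lit 1), (nat_lit 0), (.cons 9 (nat_lit 3) true
  V220 (nat_lit 72) (nat_lit 2) (nat_lit 0) .nil (.cons 7 (nat_lit 7) false V223 (nat_lit 56)
  (nat_lit 0) (nat_lit 0) (.cons V160 (nat_lit 504) (nat_lit 1) (nat_lit 2) (nat_lit 0) (nat_lit
  1) .nil) (.cons 19 (nat_lit 19) true V200 (nat_lit 152) (nat_lit 1) (nat_lit 0) .nil .nil)))⟩

noncomputable def tA31 : Test :=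
  ⟨4, 5, (nat_lit 23940), V236, (nat_lit 20), (nat_lit 2), (nat_lit 0), (.cons 9 (nat_lit 3) true
  V194 (nat_lit 180) (nat_lit 2) (nat_lit 0) .nil (.cons 7 (nat_lit 7) true V204 (nat_lit 140)
  (nat_lit 1) (nat_lit 0) (.cons V117 (nat_lit 1260) (nat_lit 2) (nat_lit 0) (nat_lit 0) (nat_lit
  1) .nil) (.cons 19 (nat_lit 19) false V172 (nat_lit 380) (nat_lit 0) (nat_lit 0) (.cons V85
  (nat_lit 2660) (nat_lit 0) (nat_lit 1) (nat_lit 0) (nat_lit 0) (.cons V75 (nat_lit 3420)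
  (nat_lit 0) (nat_lit 2) (nat_lit 0) (nat_lit 0) .nil)) .nil)))⟩

noncomputable def tA32 : Test :=
  ⟨16, 1, (nat_lit 40248), V240, (nat_lit 8), (nat_lit 1), (nat_lit 0), (.cons 9 (nat_lit 3) true
  V220 (nat_lit 72) (nat_lit 2) (nat_lit 0) .nil (.cons 13 (nat_lit 13) false V209 (nat_lit 104)
  (nat_lit 0) (nat_lit 0) (.cons V132 (nat_lit 936) (nat_lit 2) (nat_lit 2) (nat_lit 0) (nat_lit
  2) .nil) (.cons 43 (nat_lit 43) true V176 (nat_lit 344) (nat_lit 1) (nat_lit 0) (.cons V61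
  (nat_lit 4472) (nat_lit 1) (nat_lit 1) (nat_lit 0) (nat_lit 1) .nil) .nil)))⟩

noncomputable def tA33 : Test :=
  ⟨16, 1, (nat_lit 9576), V240, (nat_lit 8), (nat_lit 1), (nat_lit 0), (.cons 9 (nat_lit 3) true
  V220 (nat_lit 72) (nat_lit 2) (nat_lit 0) .nil (.cons 7 (nat_lit 7) false V223 (nat_lit 56)
  (nat_lit 0) (nat_lit 0) (.cons V160 (nat_lit 504) (nat_lit 1) (nat_lit 2) (nat_lit 0) (nat_lit
  1) .nil) (.cons 19 (nat_lit 19) true V200 (nat_lit 152) (nat_lit 1) (nat_lit 0) (.skip (.cons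
  V111 (nat_lit 1368) (nat_lit 1) (nat_lit 0) (nat_lit 0) (nat_lit 0) .nil)) .nil)))⟩

noncomputable def tA34 : Test :=
  ⟨16, 5, (nat_lit 88920), V229, (nat_lit 40), (nat_lit 1), (nat_lit 0), (.cons 9 (nat_lit 3)
  false V175 (nat_lit 360) (nat_lit 0) (nat_lit 0) .nil (.cons 13 (nat_lit 13) true V157 (nat_lit
  520) (nat_lit 1) (nat_lit 0) (.cons V59 (nat_lit 4680) (nat_lit 2) (nat_lit 1) (nat_lit 0)
  (nat_lit 2) .nil) (.cons 19 (nat_lit 19) true V141 (nat_lit 760) (nat_lit 2) (nat_lit 0) (.cons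
  V19 (nat_lit 9880) (nat_lit 0) (nat_lit 0) (nat_lit 0) (nat_lit 1) .nil) .nil)))⟩

noncomputable def tA35 : Test :=
  ⟨5, 11, (nat_lit 11935), V224, (nat_lit 55), (nat_lit 2), (nat_lit 0), (.cons 7 (nat_lit 7) true
  V170 (nat_lit 385) (nat_lit 0) (nat_lit 0) .nil (.cons 31 (nat_lit 31) true V104 (nat_lit 1705)
  (nat_lit 2) (nat_lit 0) (.cons V14 (nat_lit 11935) (nat_lit 1) (nat_lit 0) (nat_lit 0) (nat_lit
  1) .nil) .nil))⟩

noncomputable def tA36 : Test :=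
  ⟨16, 1, (nat_lit 61256), V240, (nat_lit 8), (nat_lit 1), (nat_lit 0), (.cons 13 (nat_lit 13)
  false V209 (nat_lit 104) (nat_lit 0) (nat_lit 0) .nil (.cons 19 (nat_lit 19) true V200 (nat_lit
  152) (nat_lit 1) (nat_lit 0) (.cons V97 (nat_lit 1976) (nat_lit 1) (nat_lit 1) (nat_lit 0)
  (nat_lit 1) .nil) (.cons 31 (nat_lit 31) false V187 (nat_lit 248) (nat_lit 0) (nat_lit 0) (.cons
  V58 (nat_lit 4712) (nat_lit 0) (nat_lit 1) (nat_lit 0) (nat_lit 0) .nil) .nil)))⟩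

noncomputable def tA37 : Test :=
  ⟨16, 5, (nat_lit 373240), V229, (nat_lit 40), (nat_lit 1), (nat_lit 0), (.cons 7 (nat_lit 7)
  true V182 (nat_lit 280) (nat_lit 0) (nat_lit 0) .nil (.cons 31 (nat_lit 31) false V118 (nat_lit
  1240) (nat_lit 0) (nat_lit 0) (.cons V27 (nat_lit 8680) (nat_lit 1) (nat_lit 0) (nat_lit 0)
  (nat_lit 1) .nil) (.cons 43 (nat_lit 43) false V103 (nat_lit 1720) (nat_lit 0) (nat_lit 0)
  (.skip (.cons V11 (nat_lit 12040) (nat_lit 0) (nat_lit 0) (nat_lit 0) (nat_lit 0) .nil))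
  .nil)))⟩

noncomputable def tA38 : Test :=
  ⟨16, 1, (nat_lit 95976), V240, (nat_lit 8), (nat_lit 1), (nat_lit 0), (.cons 9 (nat_lit 3) true
  V220 (nat_lit 72) (nat_lit 2) (nat_lit 0) .nil (.cons 31 (nat_lit 31) false V187 (nat_lit 248)
  (nat_lit 0) (nat_lit 0) (.cons V93 (nat_lit 2232) (nat_lit 2) (nat_lit 2) (nat_lit 0) (nat_lit
  2) .nil) (.cons 43 (nat_lit 43) true V176 (nat_lit 344) (nat_lit 1) (nat_lit 0) .nil .nil)))⟩

noncomputable def tA39 : Test :=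
  ⟨11, 1, (nat_lit 39897), V239, (nat_lit 11), (nat_lit 1), (nat_lit 0), (.cons 9 (nat_lit 3) true
  V212 (nat_lit 99) (nat_lit 1) (nat_lit 0) .nil (.cons 13 (nat_lit 13) false V201 (nat_lit 143)
  (nat_lit 0) (nat_lit 0) (.cons V114 (nat_lit 1287) (nat_lit 2) (nat_lit 1) (nat_lit 0) (nat_lit
  2) .nil) (.cons 31 (nat_lit 31) true V177 (nat_lit 341) (nat_lit 2) (nat_lit 0) .nil .nil)))⟩

noncomputable def tA40 : Test :=
  ⟨8, 7, (nat_lit 13832), V222, (nat_lit 56), (nat_lit 1), (nat_lit 0), (.cons 13 (nat_lit 13)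
  true V143 (nat_lit 728) (nat_lit 1) (nat_lit 0) .nil (.cons 19 (nat_lit 19) true V123 (nat_lit
  1064) (nat_lit 2) (nat_lit 0) (.cons V7 (nat_lit 13832) (nat_lit 0) (nat_lit 0) (nat_lit 0)
  (nat_lit 1) .nil) .nil))⟩

noncomputable def tA41 : Test :=
  ⟨8, 7, (nat_lit 124488), V222, (nat_lit 56), (nat_lit 1), (nat_lit 0), (.cons 9 (nat_lit 3) true
  V159 (nat_lit 504) (nat_lit 0) (nat_lit 0) .nil (.cons 13 (nat_lit 13) true V143 (nat_lit 728)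
  (nat_lit 1) (nat_lit 0) .nil (.cons 19 (nat_lit 19) true V123 (nat_lit 1064) (nat_lit 2)
  (nat_lit 0) (.skip (.cons V20 (nat_lit 9576) (nat_lit 0) (nat_lit 0) (nat_lit 0) (nat_lit 0)
  .nil)) .nil)))⟩

noncomputable def tA42 : Test :=
  ⟨16, 1, (nat_lit 45752), V240, (nat_lit 8), (nat_lit 1), (nat_lit 0), (.cons 7 (nat_lit 7) false
  V223 (nat_lit 56) (nat_lit 0) (nat_lit 0) .nil (.cons 19 (nat_lit 19) true V200 (nat_lit 152)
  (nat_lit 1) (nat_lit 0) .nil (.cons 43 (nat_lit 43) true V176 (nat_lit 344) (nat_lit 1) (nat_lit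
  0) (.cons V41 (nat_lit 6536) (nat_lit 2) (nat_lit 0) (nat_lit 0) (nat_lit 1) (.cons V87 (nat_lit
  2408) (nat_lit 0) (nat_lit 1) (nat_lit 0) (nat_lit 0) .nil)) .nil)))⟩

noncomputable def tA43 : Test :=
  ⟨16, 1, (nat_lit 9576), V240, (nat_lit 8), (nat_lit 1), (nat_lit 0), (.cons 9 (nat_lit 3) true
  V220 (nat_lit 72) (nat_lit 2) (nat_lit 0) .nil (.cons 7 (nat_lit 7) false V223 (nat_lit 56)
  (nat_lit 0) (nat_lit 0) .nil (.cons 19 (nat_lit 19) true V200 (nat_lit 152) (nat_lit 1) (nat_lit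
  0) (.cons V124 (nat_lit 1064) (nat_lit 0) (nat_lit 1) (nat_lit 0) (nat_lit 0) (.cons V111
  (nat_lit 1368) (nat_lit 1) (nat_lit 0) (nat_lit 0) (nat_lit 0) .nil)) .nil)))⟩

noncomputable def tA44 : Test :=
  ⟨4, 5, (nat_lit 34580), V236, (nat_lit 20), (nat_lit 2), (nat_lit 0), (.cons 7 (nat_lit 7) true
  V204 (nat_lit 140) (nat_lit 1) (nat_lit 0) .nil (.cons 13 (nat_lit 13) false V185 (nat_lit 260)
  (nat_lit 0) (nat_lit 0) (.cons V101 (nat_lit 1820) (nat_lit 0) (nat_lit 1) (nat_lit 0) (nat_lit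
  0) .nil) (.cons 19 (nat_lit 19) false V172 (nat_lit 380) (nat_lit 0) (nat_lit 0) (.skip (.cons
  V85 (nat_lit 2660) (nat_lit 0) (nat_lit 1) (nat_lit 0) (nat_lit 0) .nil)) .nil)))⟩

noncomputable def tA45 : Test :=
  ⟨5, 7, (nat_lit 77805), V232, (nat_lit 35), (nat_lit 2), (nat_lit 0), (.cons 9 (nat_lit 3) true
  V178 (nat_lit 315) (nat_lit 0) (nat_lit 0) .nil (.cons 13 (nat_lit 13) true V164 (nat_lit 455)
  (nat_lit 2) (nat_lit 0) (.cons V67 (nat_lit 4095) (nat_lit 2) (nat_lit 0) (nat_lit 0) (nat_lit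
  2) .nil) (.cons 19 (nat_lit 19) false V150 (nat_lit 665) (nat_lit 0) (nat_lit 0) (.cons V29
  (nat_lit 8645) (nat_lit 2) (nat_lit 2) (nat_lit 0) (nat_lit 1) (.cons V47 (nat_lit 5985)
  (nat_lit 0) (nat_lit 0) (nat_lit 0) (nat_lit 0) .nil)) .nil)))⟩

noncomputable def tA46 : Test :=
  ⟨16, 1, (nat_lit 9576), V240, (nat_lit 8), (nat_lit 1), (nat_lit 0), (.cons 9 (nat_lit 3) true
  V220 (nat_lit 72) (nat_lit 2) (nat_lit 0) .nil (.cons 7 (nat_lit 7) false V223 (nat_lit 56)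
  (nat_lit 0) (nat_lit 0) (.cons V160 (nat_lit 504) (nat_lit 1) (nat_lit 2) (nat_lit 0) (nat_lit
  1) .nil) (.cons 19 (nat_lit 19) true V200 (nat_lit 152) (nat_lit 1) (nat_lit 0) (.cons V124
  (nat_lit 1064) (nat_lit 0) (nat_lit 1) (nat_lit 0) (nat_lit 0) (.cons V111 (nat_lit 1368)
  (nat_lit 1) (nat_lit 0) (nat_lit 0) (nat_lit 0) .nil)) .nil)))⟩

noncomputable def tA47 : Test :=
  ⟨4, 5, (nat_lit 23940), V236, (nat_lit 20), (nat_lit 2), (nat_lit 0), (.cons 9 (nat_lit 3) true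
  V194 (nat_lit 180) (nat_lit 2) (nat_lit 0) .nil (.cons 7 (nat_lit 7) true V204 (nat_lit 140)
  (nat_lit 1) (nat_lit 0) .nil (.cons 19 (nat_lit 19) false V172 (nat_lit 380) (nat_lit 0)
  (nat_lit 0) (.skip (.cons V75 (nat_lit 3420) (nat_lit 0) (nat_lit 2) (nat_lit 0) (nat_lit 0)
  .nil)) .nil)))⟩

noncomputable def tA48 : Test :=
  ⟨11, 1, (nat_lit 39897), V239, (nat_lit 11), (nat_lit 1), (nat_lit 0), (.cons 9 (nat_lit 3) true
  V212 (nat_lit 99) (nat_lit 1) (nat_lit 0) .nil (.cons 13 (nat_lit 13) false V201 (nat_lit 143)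
  (nat_lit 0) (nat_lit 0) (.cons V114 (nat_lit 1287) (nat_lit 2) (nat_lit 1) (nat_lit 0) (nat_lit
  2) .nil) (.cons 31 (nat_lit 31) true V177 (nat_lit 341) (nat_lit 2) (nat_lit 0) (.cons V62
  (nat_lit 4433) (nat_lit 0) (nat_lit 2) (nat_lit 0) (nat_lit 0) .nil) .nil)))⟩

noncomputable def tA49 : Test :=
  ⟨16, 1, (nat_lit 84968), V240, (nat_lit 8), (nat_lit 1), (nat_lit 0), (.cons 13 (nat_lit 13)
  false V209 (nat_lit 104) (nat_lit 0) (nat_lit 0) .nil (.cons 19 (nat_lit 19) true V200 (nat_lit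
  152) (nat_lit 1) (nat_lit 0) .nil (.cons 43 (nat_lit 43) true V176 (nat_lit 344) (nat_lit 1)
  (nat_lit 0) (.cons V41 (nat_lit 6536) (nat_lit 2) (nat_lit 0) (nat_lit 0) (nat_lit 1) (.cons V61
  (nat_lit 4472) (nat_lit 1) (nat_lit 1) (nat_lit 0) (nat_lit 1) .nil)) .nil)))⟩

noncomputable def tA50 : Test :=
  ⟨11, 1, (nat_lit 39897), V239, (nat_lit 11), (nat_lit 1), (nat_lit 0), (.cons 9 (nat_lit 3) true
  V212 (nat_lit 99) (nat_lit 1) (nat_lit 0) .nil (.cons 13 (nat_lit 13) false V201 (nat_lit 143)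
  (nat_lit 0) (nat_lit 0) (.cons V114 (nat_lit 1287) (nat_lit 2) (nat_lit 1) (nat_lit 0) (nat_lit
  2) .nil) (.cons 31 (nat_lit 31) true V177 (nat_lit 341) (nat_lit 2) (nat_lit 0) (.skip (.cons
  V78 (nat_lit 3069) (nat_lit 1) (nat_lit 0) (nat_lit 0) (nat_lit 2) .nil)) .nil)))⟩

noncomputable def tA51 : Test :=
  ⟨8, 7, (nat_lit 124488), V222, (nat_lit 56), (nat_lit 1), (nat_lit 0), (.cons 9 (nat_lit 3) true
  V159 (nat_lit 504) (nat_lit 0) (nat_lit 0) .nil (.cons 13 (nat_lit 13) true V143 (nat_lit 728)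
  (nat_lit 1) (nat_lit 0) (.cons V38 (nat_lit 6552) (nat_lit 2) (nat_lit 0) (nat_lit 0) (nat_lit
  2) .nil) (.cons 19 (nat_lit 19) true V123 (nat_lit 1064) (nat_lit 2) (nat_lit 0) .nil .nil)))⟩

noncomputable def tA52 : Test :=
  ⟨19, 1, (nat_lit 177289), V238, (nat_lit 19), (nat_lit 2), (nat_lit 0), (.cons 7 (nat_lit 7)
  true V206 (nat_lit 133) (nat_lit 2) (nat_lit 0) .nil (.cons 31 (nat_lit 31) false V155 (nat_lit
  589) (nat_lit 0) (nat_lit 0) (.cons V66 (nat_lit 4123) (nat_lit 2) (nat_lit 2) (nat_lit 0)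
  (nat_lit 1) .nil) (.cons 43 (nat_lit 43) true V138 (nat_lit 817) (nat_lit 0) (nat_lit 0) .nil
  .nil)))⟩

noncomputable def tA53 : Test :=
  ⟨16, 1, (nat_lit 45752), V240, (nat_lit 8), (nat_lit 1), (nat_lit 0), (.cons 7 (nat_lit 7) false
  V223 (nat_lit 56) (nat_lit 0) (nat_lit 0) .nil (.cons 19 (nat_lit 19) true V200 (nat_lit 152)
  (nat_lit 1) (nat_lit 0) (.cons V124 (nat_lit 1064) (nat_lit 0) (nat_lit 1) (nat_lit 0) (nat_lit
  0) .nil) (.cons 43 (nat_lit 43) true V176 (nat_lit 344) (nat_lit 1) (nat_lit 0) (.skip (.cons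
  V87 (nat_lit 2408) (nat_lit 0) (nat_lit 1) (nat_lit 0) (nat_lit 0) .nil)) .nil)))⟩

noncomputable def tA54 : Test :=
  ⟨16, 1, (nat_lit 17784), V240, (nat_lit 8), (nat_lit 1), (nat_lit 0), (.cons 9 (nat_lit 3) true
  V220 (nat_lit 72) (nat_lit 2) (nat_lit 0) .nil (.cons 13 (nat_lit 13) false V209 (nat_lit 104)
  (nat_lit 0) (nat_lit 0) .nil (.cons 19 (nat_lit 19) true V200 (nat_lit 152) (nat_lit 1) (nat_lit
  0) (.cons V97 (nat_lit 1976) (nat_lit 1) (nat_lit 1) (nat_lit 0) (nat_lit 1) .nil) .nil)))⟩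

noncomputable def tA55 : Test :=
  ⟨4, 5, (nat_lit 82460), V236, (nat_lit 20), (nat_lit 2), (nat_lit 0), (.cons 7 (nat_lit 7) true
  V204 (nat_lit 140) (nat_lit 1) (nat_lit 0) .nil (.cons 19 (nat_lit 19) false V172 (nat_lit 380)
  (nat_lit 0) (nat_lit 0) (.cons V85 (nat_lit 2660) (nat_lit 0) (nat_lit 1) (nat_lit 0) (nat_lit
  0) .nil) (.cons 31 (nat_lit 31) false V152 (nat_lit 620) (nat_lit 0) (nat_lit 0) (.skip (.cons
  V63 (nat_lit 4340) (nat_lit 2) (nat_lit 1) (nat_lit 0) (nat_lit 1) .nil)) .nil)))⟩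

noncomputable def tA56 : Test :=
  ⟨4, 5, (nat_lit 16380), V236, (nat_lit 20), (nat_lit 2), (nat_lit 0), (.cons 9 (nat_lit 3) true
  V194 (nat_lit 180) (nat_lit 2) (nat_lit 0) .nil (.cons 7 (nat_lit 7) true V204 (nat_lit 140)
  (nat_lit 1) (nat_lit 0) (.cons V117 (nat_lit 1260) (nat_lit 2) (nat_lit 0) (nat_lit 0) (nat_lit
  1) .nil) (.cons 13 (nat_lit 13) false V185 (nat_lit 260) (nat_lit 0) (nat_lit 0) (.skip (.cons
  V90 (nat_lit 2340) (nat_lit 1) (nat_lit 2) (nat_lit 0) (nat_lit 2) .nil)) .nil)))⟩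

noncomputable def tA57 : Test :=
  ⟨16, 5, (nat_lit 69160), V229, (nat_lit 40), (nat_lit 1), (nat_lit 0), (.cons 7 (nat_lit 7) true
  V182 (nat_lit 280) (nat_lit 0) (nat_lit 0) .nil (.cons 13 (nat_lit 13) true V157 (nat_lit 520)
  (nat_lit 1) (nat_lit 0) .nil (.cons 19 (nat_lit 19) true V141 (nat_lit 760) (nat_lit 2) (nat_lit
  0) (.cons V19 (nat_lit 9880) (nat_lit 0) (nat_lit 0) (nat_lit 0) (nat_lit 1) (.cons V51 (nat_lit
  5320) (nat_lit 1) (nat_lit 0) (nat_lit 0) (nat_lit 0) .nil)) .nil)))⟩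

noncomputable def tA58 : Test :=
  ⟨16, 1, (nat_lit 6536), V240, (nat_lit 8), (nat_lit 1), (nat_lit 0), (.cons 19 (nat_lit 19) true
  V200 (nat_lit 152) (nat_lit 1) (nat_lit 0) .nil (.cons 43 (nat_lit 43) true V176 (nat_lit 344)
  (nat_lit 1) (nat_lit 0) (.cons V41 (nat_lit 6536) (nat_lit 2) (nat_lit 0) (nat_lit 0) (nat_lit
  1) .nil) .nil))⟩

noncomputable def tA59 : Test :=
  ⟨16, 13, (nat_lit 970424), V210, (nat_lit 104), (nat_lit 0), (nat_lit 0), (.cons 7 (nat_lit 7)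
  true V144 (nat_lit 728) (nat_lit 2) (nat_lit 0) .nil (.cons 31 (nat_lit 31) true V76 (nat_lit
  3224) (nat_lit 0) (nat_lit 0) .nil (.cons 43 (nat_lit 43) true V60 (nat_lit 4472) (nat_lit 2)
  (nat_lit 0) .nil .nil)))⟩

noncomputable def tA60 : Test :=
  ⟨8, 7, (nat_lit 124488), V222, (nat_lit 56), (nat_lit 1), (nat_lit 0), (.cons 9 (nat_lit 3) true
  V159 (nat_lit 504) (nat_lit 0) (nat_lit 0) .nil (.cons 13 (nat_lit 13) true V143 (nat_lit 728)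
  (nat_lit 1) (nat_lit 0) (.cons V38 (nat_lit 6552) (nat_lit 2) (nat_lit 0) (nat_lit 0) (nat_lit
  2) .nil) (.cons 19 (nat_lit 19) true V123 (nat_lit 1064) (nat_lit 2) (nat_lit 0) (.skip (.cons
  V20 (nat_lit 9576) (nat_lit 0) (nat_lit 0) (nat_lit 0) (nat_lit 0) .nil)) .nil)))⟩

noncomputable def tA61 : Test :=
  ⟨4, 5, (nat_lit 186620), V236, (nat_lit 20), (nat_lit 2), (nat_lit 0), (.cons 7 (nat_lit 7) true
  V204 (nat_lit 140) (nat_lit 1) (nat_lit 0) .nil (.cons 31 (nat_lit 31) false V152 (nat_lit 620)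
  (nat_lit 0) (nat_lit 0) (.cons V63 (nat_lit 4340) (nat_lit 2) (nat_lit 1) (nat_lit 0) (nat_lit
  1) .nil) (.cons 43 (nat_lit 43) true V135 (nat_lit 860) (nat_lit 1) (nat_lit 0) .nil .nil)))⟩

noncomputable def tA62 : Test :=
  ⟨11, 1, (nat_lit 21483), V239, (nat_lit 11), (nat_lit 1), (nat_lit 0), (.cons 9 (nat_lit 3) true
  V212 (nat_lit 99) (nat_lit 1) (nat_lit 0) .nil (.cons 7 (nat_lit 7) false V218 (nat_lit 77)
  (nat_lit 0) (nat_lit 0) (.cons V149 (nat_lit 693) (nat_lit 1) (nat_lit 1) (nat_lit 0) (nat_lit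
  1) .nil) (.cons 31 (nat_lit 31) true V177 (nat_lit 341) (nat_lit 2) (nat_lit 0) (.cons V88
  (nat_lit 2387) (nat_lit 1) (nat_lit 2) (nat_lit 0) (nat_lit 1) .nil) .nil)))⟩

noncomputable def tA63 : Test :=
  ⟨11, 13, (nat_lit 9009), V202, (nat_lit 143), (nat_lit 1), (nat_lit 0), (.cons 9 (nat_lit 3)
  true V115 (nat_lit 1287) (nat_lit 2) (nat_lit 0) .nil (.cons 7 (nat_lit 7) true V127 (nat_lit
  1001) (nat_lit 2) (nat_lit 0) (.cons V24 (nat_lit 9009) (nat_lit 2) (nat_lit 0) (nat_lit 0)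
  (nat_lit 1) .nil) .nil))⟩

noncomputable def tA64 : Test :=
  ⟨5, 7, (nat_lit 77805), V232, (nat_lit 35), (nat_lit 2), (nat_lit 0), (.cons 9 (nat_lit 3) true
  V178 (nat_lit 315) (nat_lit 0) (nat_lit 0) .nil (.cons 13 (nat_lit 13) true V164 (nat_lit 455)
  (nat_lit 2) (nat_lit 0) (.cons V67 (nat_lit 4095) (nat_lit 2) (nat_lit 0) (nat_lit 0) (nat_lit
  2) .nil) (.cons 19 (nat_lit 19) false V150 (nat_lit 665) (nat_lit 0) (nat_lit 0) (.skip (.cons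
  V47 (nat_lit 5985) (nat_lit 0) (nat_lit 0) (nat_lit 0) (nat_lit 0) .nil)) .nil)))⟩

noncomputable def tA65 : Test :=
  ⟨7, 1, (nat_lit 35217), V241, (nat_lit 7), (nat_lit 2), (nat_lit 0), (.cons 9 (nat_lit 3) false
  V221 (nat_lit 63) (nat_lit 0) (nat_lit 0) .nil (.cons 13 (nat_lit 13) false V215 (nat_lit 91)
  (nat_lit 0) (nat_lit 0) .nil (.cons 43 (nat_lit 43) true V179 (nat_lit 301) (nat_lit 2) (nat_lit
  0) (.cons V69 (nat_lit 3913) (nat_lit 2) (nat_lit 2) (nat_lit 0) (nat_lit 1) (.cons V84 (nat_lit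
  2709) (nat_lit 2) (nat_lit 2) (nat_lit 0) (nat_lit 1) .nil)) .nil)))⟩

noncomputable def tA66 : Test :=
  ⟨4, 5, (nat_lit 16380), V236, (nat_lit 20), (nat_lit 2), (nat_lit 0), (.cons 9 (nat_lit 3) true
  V194 (nat_lit 180) (nat_lit 2) (nat_lit 0) .nil (.cons 7 (nat_lit 7) true V204 (nat_lit 140)
  (nat_lit 1) (nat_lit 0) .nil (.cons 13 (nat_lit 13) false V185 (nat_lit 260) (nat_lit 0)
  (nat_lit 0) (.skip (.cons V90 (nat_lit 2340) (nat_lit 1) (nat_lit 2) (nat_lit 0) (nat_lit 2)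
  .nil)) .nil)))⟩

noncomputable def tA67 : Test :=
  ⟨8, 7, (nat_lit 124488), V222, (nat_lit 56), (nat_lit 1), (nat_lit 0), (.cons 9 (nat_lit 3) true
  V159 (nat_lit 504) (nat_lit 0) (nat_lit 0) .nil (.cons 13 (nat_lit 13) true V143 (nat_lit 728)
  (nat_lit 1) (nat_lit 0) (.cons V38 (nat_lit 6552) (nat_lit 2) (nat_lit 0) (nat_lit 0) (nat_lit
  2) .nil) (.cons 19 (nat_lit 19) true V123 (nat_lit 1064) (nat_lit 2) (nat_lit 0) (.cons V7
  (nat_lit 13832) (nat_lit 0) (nat_lit 0) (nat_lit 0) (nat_lit 1) .nil) .nil)))⟩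

noncomputable def tA68 : Test :=
  ⟨5, 11, (nat_lit 65835), V224, (nat_lit 55), (nat_lit 2), (nat_lit 0), (.cons 9 (nat_lit 3)
  false V161 (nat_lit 495) (nat_lit 0) (nat_lit 0) .nil (.cons 7 (nat_lit 7) true V170 (nat_lit
  385) (nat_lit 0) (nat_lit 0) (.cons V74 (nat_lit 3465) (nat_lit 2) (nat_lit 0) (nat_lit 0)
  (nat_lit 1) .nil) (.cons 19 (nat_lit 19) false V126 (nat_lit 1045) (nat_lit 0) (nat_lit 0)
  (.cons V34 (nat_lit 7315) (nat_lit 0) (nat_lit 0) (nat_lit 0) (nat_lit 0) .nil) .nil)))⟩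

noncomputable def tA69 : Test :=
  ⟨31, 1, (nat_lit 11997), V233, (nat_lit 31), (nat_lit 0), (nat_lit 0), (.cons 9 (nat_lit 3)
  false V184 (nat_lit 279) (nat_lit 0) (nat_lit 0) .nil (.cons 43 (nat_lit 43) false V112 (nat_lit
  1333) (nat_lit 0) (nat_lit 0) (.cons V12 (nat_lit 11997) (nat_lit 0) (nat_lit 0) (nat_lit 0)
  (nat_lit 1) .nil) .nil))⟩

noncomputable def tA70 : Test :=
  ⟨4, 5, (nat_lit 239940), V236, (nat_lit 20), (nat_lit 2), (nat_lit 0), (.cons 9 (nat_lit 3) true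
  V194 (nat_lit 180) (nat_lit 2) (nat_lit 0) .nil (.cons 31 (nat_lit 31) false V152 (nat_lit 620)
  (nat_lit 0) (nat_lit 0) (.cons V50 (nat_lit 5580) (nat_lit 1) (nat_lit 2) (nat_lit 0) (nat_lit
  2) .nil) (.cons 43 (nat_lit 43) true V135 (nat_lit 860) (nat_lit 1) (nat_lit 0) (.skip (.cons
  V32 (nat_lit 7740) (nat_lit 0) (nat_lit 0) (nat_lit 0) (nat_lit 1) .nil)) .nil)))⟩

noncomputable def tA71 : Test :=
  ⟨16, 1, (nat_lit 40248), V240, (nat_lit 8), (nat_lit 1), (nat_lit 0), (.cons 9 (nat_lit 3) true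
  V220 (nat_lit 72) (nat_lit 2) (nat_lit 0) .nil (.cons 13 (nat_lit 13) false V209 (nat_lit 104)
  (nat_lit 0) (nat_lit 0) .nil (.cons 43 (nat_lit 43) true V176 (nat_lit 344) (nat_lit 1) (nat_lit
  0) (.cons V61 (nat_lit 4472) (nat_lit 1) (nat_lit 1) (nat_lit 0) (nat_lit 1) .nil) .nil)))⟩

noncomputable def tA72 : Test :=
  ⟨16, 5, (nat_lit 88920), V229, (nat_lit 40), (nat_lit 1), (nat_lit 0), (.cons 9 (nat_lit 3)
  false V175 (nat_lit 360) (nat_lit 0) (nat_lit 0) .nil (.cons 13 (nat_lit 13) true V157 (nat_lit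
  520) (nat_lit 1) (nat_lit 0) .nil (.cons 19 (nat_lit 19) true V141 (nat_lit 760) (nat_lit 2)
  (nat_lit 0) (.cons V19 (nat_lit 9880) (nat_lit 0) (nat_lit 0) (nat_lit 0) (nat_lit 1) (.cons V37
  (nat_lit 6840) (nat_lit 0) (nat_lit 2) (nat_lit 0) (nat_lit 0) .nil)) .nil)))⟩

noncomputable def tA73 : Test :=
  ⟨19, 1, (nat_lit 53599), V238, (nat_lit 19), (nat_lit 2), (nat_lit 0), (.cons 7 (nat_lit 7) true
  V206 (nat_lit 133) (nat_lit 2) (nat_lit 0) .nil (.cons 13 (nat_lit 13) false V188 (nat_lit 247)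
  (nat_lit 0) (nat_lit 0) (.cons V102 (nat_lit 1729) (nat_lit 0) (nat_lit 2) (nat_lit 0) (nat_lit
  0) .nil) (.cons 31 (nat_lit 31) false V155 (nat_lit 589) (nat_lit 0) (nat_lit 0) (.skip (.cons
  V66 (nat_lit 4123) (nat_lit 2) (nat_lit 2) (nat_lit 0) (nat_lit 1) .nil)) .nil)))⟩

noncomputable def tA74 : Test :=
  ⟨4, 5, (nat_lit 186620), V236, (nat_lit 20), (nat_lit 2), (nat_lit 0), (.cons 7 (nat_lit 7) true
  V204 (nat_lit 140) (nat_lit 1) (nat_lit 0) .nil (.cons 31 (nat_lit 31) false V152 (nat_lit 620)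
  (nat_lit 0) (nat_lit 0) (.cons V63 (nat_lit 4340) (nat_lit 2) (nat_lit 1) (nat_lit 0) (nat_lit
  1) .nil) (.cons 43 (nat_lit 43) true V135 (nat_lit 860) (nat_lit 1) (nat_lit 0) (.skip (.cons
  V46 (nat_lit 6020) (nat_lit 2) (nat_lit 0) (nat_lit 0) (nat_lit 0) .nil)) .nil)))⟩

noncomputable def tA75 : Test :=
  ⟨16, 1, (nat_lit 6552), V240, (nat_lit 8), (nat_lit 1), (nat_lit 0), (.cons 9 (nat_lit 3) true
  V220 (nat_lit 72) (nat_lit 2) (nat_lit 0) .nil (.cons 7 (nat_lit 7) false V223 (nat_lit 56)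
  (nat_lit 0) (nat_lit 0) (.cons V160 (nat_lit 504) (nat_lit 1) (nat_lit 2) (nat_lit 0) (nat_lit
  1) .nil) (.cons 13 (nat_lit 13) false V209 (nat_lit 104) (nat_lit 0) (nat_lit 0) (.skip (.cons
  V132 (nat_lit 936) (nat_lit 2) (nat_lit 2) (nat_lit 0) (nat_lit 2) .nil)) .nil)))⟩

noncomputable def tA76 : Test :=
  ⟨16, 5, (nat_lit 3640), V229, (nat_lit 40), (nat_lit 1), (nat_lit 0), (.cons 7 (nat_lit 7) true
  V182 (nat_lit 280) (nat_lit 0) (nat_lit 0) .nil (.cons 13 (nat_lit 13) true V157 (nat_lit 520)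
  (nat_lit 1) (nat_lit 0) (.cons V72 (nat_lit 3640) (nat_lit 2) (nat_lit 0) (nat_lit 0) (nat_lit
  0) .nil) .nil))⟩

noncomputable def tA77 : Test :=
  ⟨16, 1, (nat_lit 15624), V240, (nat_lit 8), (nat_lit 1), (nat_lit 0), (.cons 9 (nat_lit 3) true
  V220 (nat_lit 72) (nat_lit 2) (nat_lit 0) .nil (.cons 7 (nat_lit 7) false V223 (nat_lit 56)
  (nat_lit 0) (nat_lit 0) (.cons V160 (nat_lit 504) (nat_lit 1) (nat_lit 2) (nat_lit 0) (nat_lit
  1) .nil) (.cons 31 (nat_lit 31) false V187 (nat_lit 248) (nat_lit 0) (nat_lit 0) (.skip (.cons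
  V93 (nat_lit 2232) (nat_lit 2) (nat_lit 2) (nat_lit 0) (nat_lit 2) .nil)) .nil)))⟩

noncomputable def tA78 : Test :=
  ⟨11, 1, (nat_lit 21483), V239, (nat_lit 11), (nat_lit 1), (nat_lit 0), (.cons 9 (nat_lit 3) true
  V212 (nat_lit 99) (nat_lit 1) (nat_lit 0) .nil (.cons 7 (nat_lit 7) false V218 (nat_lit 77)
  (nat_lit 0) (nat_lit 0) (.cons V149 (nat_lit 693) (nat_lit 1) (nat_lit 1) (nat_lit 0) (nat_lit
  1) .nil) (.cons 31 (nat_lit 31) true V177 (nat_lit 341) (nat_lit 2) (nat_lit 0) (.skip (.cons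
  V78 (nat_lit 3069) (nat_lit 1) (nat_lit 0) (nat_lit 0) (nat_lit 2) .nil)) .nil)))⟩

noncomputable def tA79 : Test :=
  ⟨16, 1, (nat_lit 17784), V240, (nat_lit 8), (nat_lit 1), (nat_lit 0), (.cons 9 (nat_lit 3) true
  V220 (nat_lit 72) (nat_lit 2) (nat_lit 0) .nil (.cons 13 (nat_lit 13) false V209 (nat_lit 104)
  (nat_lit 0) (nat_lit 0) (.cons V132 (nat_lit 936) (nat_lit 2) (nat_lit 2) (nat_lit 0) (nat_lit
  2) .nil) (.cons 19 (nat_lit 19) true V200 (nat_lit 152) (nat_lit 1) (nat_lit 0) .nil .nil)))⟩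

noncomputable def tA80 : Test :=
  ⟨8, 7, (nat_lit 124488), V222, (nat_lit 56), (nat_lit 1), (nat_lit 0), (.cons 9 (nat_lit 3) true
  V159 (nat_lit 504) (nat_lit 0) (nat_lit 0) .nil (.cons 13 (nat_lit 13) true V143 (nat_lit 728)
  (nat_lit 1) (nat_lit 0) .nil (.cons 19 (nat_lit 19) true V123 (nat_lit 1064) (nat_lit 2)
  (nat_lit 0) (.cons V7 (nat_lit 13832) (nat_lit 0) (nat_lit 0) (nat_lit 0) (nat_lit 1) .nil)
  .nil)))⟩

noncomputable def tA81 : Test :=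
  ⟨4, 5, (nat_lit 23940), V236, (nat_lit 20), (nat_lit 2), (nat_lit 0), (.cons 9 (nat_lit 3) true
  V194 (nat_lit 180) (nat_lit 2) (nat_lit 0) .nil (.cons 7 (nat_lit 7) true V204 (nat_lit 140)
  (nat_lit 1) (nat_lit 0) (.cons V117 (nat_lit 1260) (nat_lit 2) (nat_lit 0) (nat_lit 0) (nat_lit
  1) .nil) (.cons 19 (nat_lit 19) false V172 (nat_lit 380) (nat_lit 0) (nat_lit 0) (.cons V85
  (nat_lit 2660) (nat_lit 0) (nat_lit 1) (nat_lit 0) (nat_lit 0) .nil) .nil)))⟩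

noncomputable def tA82 : Test :=
  ⟨11, 1, (nat_lit 131967), V239, (nat_lit 11), (nat_lit 1), (nat_lit 0), (.cons 9 (nat_lit 3)
  true V212 (nat_lit 99) (nat_lit 1) (nat_lit 0) .nil (.cons 31 (nat_lit 31) true V177 (nat_lit
  341) (nat_lit 2) (nat_lit 0) (.cons V78 (nat_lit 3069) (nat_lit 1) (nat_lit 0) (nat_lit 0)
  (nat_lit 2) .nil) (.cons 43 (nat_lit 43) false V162 (nat_lit 473) (nat_lit 0) (nat_lit 0) (.skip
  (.cons V64 (nat_lit 4257) (nat_lit 1) (nat_lit 1) (nat_lit 0) (nat_lit 1) .nil)) .nil)))⟩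

noncomputable def tA83 : Test :=
  ⟨16, 1, (nat_lit 17784), V240, (nat_lit 8), (nat_lit 1), (nat_lit 0), (.cons 9 (nat_lit 3) true
  V220 (nat_lit 72) (nat_lit 2) (nat_lit 0) .nil (.cons 13 (nat_lit 13) false V209 (nat_lit 104)
  (nat_lit 0) (nat_lit 0) (.cons V132 (nat_lit 936) (nat_lit 2) (nat_lit 2) (nat_lit 0) (nat_lit
  2) .nil) (.cons 19 (nat_lit 19) true V200 (nat_lit 152) (nat_lit 1) (nat_lit 0) (.cons V97
  (nat_lit 1976) (nat_lit 1) (nat_lit 1) (nat_lit 0) (nat_lit 1) (.cons V111 (nat_lit 1368)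
  (nat_lit 1) (nat_lit 0) (nat_lit 0) (nat_lit 0) .nil)) .nil)))⟩

noncomputable def tA84 : Test :=
  ⟨16, 5, (nat_lit 69160), V229, (nat_lit 40), (nat_lit 1), (nat_lit 0), (.cons 7 (nat_lit 7) true
  V182 (nat_lit 280) (nat_lit 0) (nat_lit 0) .nil (.cons 13 (nat_lit 13) true V157 (nat_lit 520)
  (nat_lit 1) (nat_lit 0) .nil (.cons 19 (nat_lit 19) true V141 (nat_lit 760) (nat_lit 2) (nat_lit
  0) (.cons V19 (nat_lit 9880) (nat_lit 0) (nat_lit 0) (nat_lit 0) (nat_lit 1) .nil) .nil)))⟩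

noncomputable def tA85 : Test :=
  ⟨4, 5, (nat_lit 114380), V236, (nat_lit 20), (nat_lit 2), (nat_lit 0), (.cons 7 (nat_lit 7) true
  V204 (nat_lit 140) (nat_lit 1) (nat_lit 0) .nil (.cons 19 (nat_lit 19) false V172 (nat_lit 380)
  (nat_lit 0) (nat_lit 0) .nil (.cons 43 (nat_lit 43) true V135 (nat_lit 860) (nat_lit 1) (nat_lit
  0) (.cons V2 (nat_lit 16340) (nat_lit 2) (nat_lit 1) (nat_lit 0) (nat_lit 1) (.cons V46 (nat_lit
  6020) (nat_lit 2) (nat_lit 0) (nat_lit 0) (nat_lit 0) .nil)) .nil)))⟩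

noncomputable def tA86 : Test :=
  ⟨11, 1, (nat_lit 131967), V239, (nat_lit 11), (nat_lit 1), (nat_lit 0), (.cons 9 (nat_lit 3)
  true V212 (nat_lit 99) (nat_lit 1) (nat_lit 0) .nil (.cons 31 (nat_lit 31) true V177 (nat_lit
  341) (nat_lit 2) (nat_lit 0) .nil (.cons 43 (nat_lit 43) false V162 (nat_lit 473) (nat_lit 0)
  (nat_lit 0) (.skip (.cons V64 (nat_lit 4257) (nat_lit 1) (nat_lit 1) (nat_lit 0) (nat_lit 1)
  .nil)) .nil)))⟩

noncomputable def tA87 : Test :=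
  ⟨31, 1, (nat_lit 53599), V233, (nat_lit 31), (nat_lit 0), (nat_lit 0), (.cons 7 (nat_lit 7) true
  V190 (nat_lit 217) (nat_lit 1) (nat_lit 0) .nil (.cons 13 (nat_lit 13) false V168 (nat_lit 403)
  (nat_lit 0) (nat_lit 0) (.cons V80 (nat_lit 2821) (nat_lit 0) (nat_lit 1) (nat_lit 0) (nat_lit
  0) .nil) (.cons 19 (nat_lit 19) true V154 (nat_lit 589) (nat_lit 1) (nat_lit 0) (.cons V33
  (nat_lit 7657) (nat_lit 0) (nat_lit 1) (nat_lit 0) (nat_lit 1) .nil) .nil)))⟩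

noncomputable def tA88 : Test :=
  ⟨4, 13, (nat_lit 11284), V226, (nat_lit 52), (nat_lit 1), (nat_lit 0), (.cons 7 (nat_lit 7) true
  V173 (nat_lit 364) (nat_lit 1) (nat_lit 0) .nil (.cons 31 (nat_lit 31) true V107 (nat_lit 1612)
  (nat_lit 1) (nat_lit 0) (.cons V16 (nat_lit 11284) (nat_lit 2) (nat_lit 0) (nat_lit 0) (nat_lit
  1) .nil) .nil))⟩

noncomputable def tA89 : Test :=
  ⟨4, 5, (nat_lit 106020), V236, (nat_lit 20), (nat_lit 2), (nat_lit 0), (.cons 9 (nat_lit 3) true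
  V194 (nat_lit 180) (nat_lit 2) (nat_lit 0) .nil (.cons 19 (nat_lit 19) false V172 (nat_lit 380)
  (nat_lit 0) (nat_lit 0) (.cons V75 (nat_lit 3420) (nat_lit 0) (nat_lit 2) (nat_lit 0) (nat_lit
  0) .nil) (.cons 31 (nat_lit 31) false V152 (nat_lit 620) (nat_lit 0) (nat_lit 0) (.skip (.cons
  V50 (nat_lit 5580) (nat_lit 1) (nat_lit 2) (nat_lit 0) (nat_lit 2) .nil)) .nil)))⟩

noncomputable def tA90 : Test :=
  ⟨16, 5, (nat_lit 47880), V229, (nat_lit 40), (nat_lit 1), (nat_lit 0), (.cons 9 (nat_lit 3)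
  false V175 (nat_lit 360) (nat_lit 0) (nat_lit 0) .nil (.cons 7 (nat_lit 7) true V182 (nat_lit
  280) (nat_lit 0) (nat_lit 0) .nil (.cons 19 (nat_lit 19) true V141 (nat_lit 760) (nat_lit 2)
  (nat_lit 0) (.cons V51 (nat_lit 5320) (nat_lit 1) (nat_lit 0) (nat_lit 0) (nat_lit 0) (.cons V37
  (nat_lit 6840) (nat_lit 0) (nat_lit 2) (nat_lit 0) (nat_lit 0) .nil)) .nil)))⟩

noncomputable def tA91 : Test :=
  ⟨11, 1, (nat_lit 21483), V239, (nat_lit 11), (nat_lit 1), (nat_lit 0), (.cons 9 (nat_lit 3) true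
  V212 (nat_lit 99) (nat_lit 1) (nat_lit 0) .nil (.cons 7 (nat_lit 7) false V218 (nat_lit 77)
  (nat_lit 0) (nat_lit 0) (.cons V149 (nat_lit 693) (nat_lit 1) (nat_lit 1) (nat_lit 0) (nat_lit
  1) .nil) (.cons 31 (nat_lit 31) true V177 (nat_lit 341) (nat_lit 2) (nat_lit 0) .nil .nil)))⟩

noncomputable def tA92 : Test :=
  ⟨4, 5, (nat_lit 54180), V236, (nat_lit 20), (nat_lit 2), (nat_lit 0), (.cons 9 (nat_lit 3) true
  V194 (nat_lit 180) (nat_lit 2) (nat_lit 0) .nil (.cons 7 (nat_lit 7) true V204 (nat_lit 140)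
  (nat_lit 1) (nat_lit 0) .nil (.cons 43 (nat_lit 43) true V135 (nat_lit 860) (nat_lit 1) (nat_lit
  0) (.cons V46 (nat_lit 6020) (nat_lit 2) (nat_lit 0) (nat_lit 0) (nat_lit 0) .nil) .nil)))⟩

noncomputable def tA93 : Test :=
  ⟨16, 5, (nat_lit 69160), V229, (nat_lit 40), (nat_lit 1), (nat_lit 0), (.cons 7 (nat_lit 7) true
  V182 (nat_lit 280) (nat_lit 0) (nat_lit 0) .nil (.cons 13 (nat_lit 13) true V157 (nat_lit 520)
  (nat_lit 1) (nat_lit 0) (.cons V72 (nat_lit 3640) (nat_lit 2) (nat_lit 0) (nat_lit 0) (nat_lit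
  0) .nil) (.cons 19 (nat_lit 19) true V141 (nat_lit 760) (nat_lit 2) (nat_lit 0) (.cons V19
  (nat_lit 9880) (nat_lit 0) (nat_lit 0) (nat_lit 0) (nat_lit 1) .nil) .nil)))⟩

noncomputable def tA94 : Test :=
  ⟨16, 1, (nat_lit 17784), V240, (nat_lit 8), (nat_lit 1), (nat_lit 0), (.cons 9 (nat_lit 3) true
  V220 (nat_lit 72) (nat_lit 2) (nat_lit 0) .nil (.cons 13 (nat_lit 13) false V209 (nat_lit 104)
  (nat_lit 0) (nat_lit 0) .nil (.cons 19 (nat_lit 19) true V200 (nat_lit 152) (nat_lit 1) (nat_lit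
  0) (.cons V97 (nat_lit 1976) (nat_lit 1) (nat_lit 1) (nat_lit 0) (nat_lit 1) (.cons V111
  (nat_lit 1368) (nat_lit 1) (nat_lit 0) (nat_lit 0) (nat_lit 0) .nil)) .nil)))⟩

noncomputable def tA95 : Test :=
  ⟨8, 7, (nat_lit 124488), V222, (nat_lit 56), (nat_lit 1), (nat_lit 0), (.cons 9 (nat_lit 3) true
  V159 (nat_lit 504) (nat_lit 0) (nat_lit 0) .nil (.cons 13 (nat_lit 13) true V143 (nat_lit 728)
  (nat_lit 1) (nat_lit 0) .nil (.cons 19 (nat_lit 19) true V123 (nat_lit 1064) (nat_lit 2)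
  (nat_lit 0) (.cons V7 (nat_lit 13832) (nat_lit 0) (nat_lit 0) (nat_lit 0) (nat_lit 1) (.cons V20
  (nat_lit 9576) (nat_lit 0) (nat_lit 0) (nat_lit 0) (nat_lit 0) .nil)) .nil)))⟩

noncomputable def tA96 : Test :=
  ⟨8, 19, (nat_lit 551304), V199, (nat_lit 152), (nat_lit 0), (nat_lit 0), (.cons 9 (nat_lit 3)
  true V110 (nat_lit 1368) (nat_lit 2) (nat_lit 0) .nil (.cons 13 (nat_lit 13) true V96 (nat_lit
  1976) (nat_lit 1) (nat_lit 0) .nil (.cons 31 (nat_lit 31) false V57 (nat_lit 4712) (nat_lit 0)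
  (nat_lit 0) .nil .nil)))⟩

noncomputable def tA97 : Test :=
  ⟨16, 13, (nat_lit 594776), V210, (nat_lit 104), (nat_lit 0), (nat_lit 0), (.cons 7 (nat_lit 7)
  true V144 (nat_lit 728) (nat_lit 2) (nat_lit 0) .nil (.cons 19 (nat_lit 19) false V98 (nat_lit
  1976) (nat_lit 0) (nat_lit 0) .nil (.cons 43 (nat_lit 43) true V60 (nat_lit 4472) (nat_lit 2)
  (nat_lit 0) .nil .nil)))⟩

noncomputable def tA98 : Test :=
  ⟨16, 1, (nat_lit 42408), V240, (nat_lit 8), (nat_lit 1), (nat_lit 0), (.cons 9 (nat_lit 3) true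
  V220 (nat_lit 72) (nat_lit 2) (nat_lit 0) .nil (.cons 19 (nat_lit 19) true V200 (nat_lit 152)
  (nat_lit 1) (nat_lit 0) (.cons V111 (nat_lit 1368) (nat_lit 1) (nat_lit 0) (nat_lit 0) (nat_lit
  0) .nil) (.cons 31 (nat_lit 31) false V187 (nat_lit 248) (nat_lit 0) (nat_lit 0) (.cons V58
  (nat_lit 4712) (nat_lit 0) (nat_lit 1) (nat_lit 0) (nat_lit 0) .nil) .nil)))⟩

noncomputable def tA99 : Test :=
  ⟨16, 5, (nat_lit 69160), V229, (nat_lit 40), (nat_lit 1), (nat_lit 0), (.cons 7 (nat_lit 7) true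
  V182 (nat_lit 280) (nat_lit 0) (nat_lit 0) .nil (.cons 13 (nat_lit 13) true V157 (nat_lit 520)
  (nat_lit 1) (nat_lit 0) (.cons V72 (nat_lit 3640) (nat_lit 2) (nat_lit 0) (nat_lit 0) (nat_lit
  0) .nil) (.cons 19 (nat_lit 19) true V141 (nat_lit 760) (nat_lit 2) (nat_lit 0) (.skip (.cons
  V51 (nat_lit 5320) (nat_lit 1) (nat_lit 0) (nat_lit 0) (nat_lit 0) .nil)) .nil)))⟩

noncomputable def tA100 : Test :=
  ⟨4, 5, (nat_lit 23940), V236, (nat_lit 20), (nat_lit 2), (nat_lit 0), (.cons 9 (nat_lit 3) true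
  V194 (nat_lit 180) (nat_lit 2) (nat_lit 0) .nil (.cons 7 (nat_lit 7) true V204 (nat_lit 140)
  (nat_lit 1) (nat_lit 0) .nil (.cons 19 (nat_lit 19) false V172 (nat_lit 380) (nat_lit 0)
  (nat_lit 0) (.cons V85 (nat_lit 2660) (nat_lit 0) (nat_lit 1) (nat_lit 0) (nat_lit 0) .nil)
  .nil)))⟩

noncomputable def tA101 : Test :=
  ⟨16, 1, (nat_lit 42408), V240, (nat_lit 8), (nat_lit 1), (nat_lit 0), (.cons 9 (nat_lit 3) true
  V220 (nat_lit 72) (nat_lit 2) (nat_lit 0) .nil (.cons 19 (nat_lit 19) true V200 (nat_lit 152)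
  (nat_lit 1) (nat_lit 0) .nil (.cons 31 (nat_lit 31) false V187 (nat_lit 248) (nat_lit 0)
  (nat_lit 0) (.skip (.cons V93 (nat_lit 2232) (nat_lit 2) (nat_lit 2) (nat_lit 0) (nat_lit 2)
  .nil)) .nil)))⟩

noncomputable def tA102 : Test :=
  ⟨5, 7, (nat_lit 77805), V232, (nat_lit 35), (nat_lit 2), (nat_lit 0), (.cons 9 (nat_lit 3) true
  V178 (nat_lit 315) (nat_lit 0) (nat_lit 0) .nil (.cons 13 (nat_lit 13) true V164 (nat_lit 455)
  (nat_lit 2) (nat_lit 0) (.cons V67 (nat_lit 4095) (nat_lit 2) (nat_lit 0) (nat_lit 0) (nat_lit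
  2) .nil) (.cons 19 (nat_lit 19) false V150 (nat_lit 665) (nat_lit 0) (nat_lit 0) (.cons V29
  (nat_lit 8645) (nat_lit 2) (nat_lit 2) (nat_lit 0) (nat_lit 1) .nil) .nil)))⟩

noncomputable def tA103 : Test :=
  ⟨16, 13, (nat_lit 203112), V210, (nat_lit 104), (nat_lit 0), (nat_lit 0), (.cons 9 (nat_lit 3)
  true V133 (nat_lit 936) (nat_lit 2) (nat_lit 0) .nil (.cons 7 (nat_lit 7) true V144 (nat_lit
  728) (nat_lit 2) (nat_lit 0) (.cons V39 (nat_lit 6552) (nat_lit 2) (nat_lit 0) (nat_lit 0)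
  (nat_lit 1) .nil) (.cons 31 (nat_lit 31) true V76 (nat_lit 3224) (nat_lit 0) (nat_lit 0) .nil
  .nil)))⟩

noncomputable def tA104 : Test :=
  ⟨16, 1, (nat_lit 32984), V240, (nat_lit 8), (nat_lit 1), (nat_lit 0), (.cons 7 (nat_lit 7) false
  V223 (nat_lit 56) (nat_lit 0) (nat_lit 0) .nil (.cons 19 (nat_lit 19) true V200 (nat_lit 152)
  (nat_lit 1) (nat_lit 0) (.cons V124 (nat_lit 1064) (nat_lit 0) (nat_lit 1) (nat_lit 0) (nat_lit
  0) .nil) (.cons 31 (nat_lit 31) false V187 (nat_lit 248) (nat_lit 0) (nat_lit 0) (.cons V58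
  (nat_lit 4712) (nat_lit 0) (nat_lit 1) (nat_lit 0) (nat_lit 0) .nil) .nil)))⟩

noncomputable def tA105 : Test :=
  ⟨16, 13, (nat_lit 6552), V210, (nat_lit 104), (nat_lit 0), (nat_lit 0), (.cons 9 (nat_lit 3)
  true V133 (nat_lit 936) (nat_lit 2) (nat_lit 0) .nil (.cons 7 (nat_lit 7) true V144 (nat_lit
  728) (nat_lit 2) (nat_lit 0) (.cons V39 (nat_lit 6552) (nat_lit 2) (nat_lit 0) (nat_lit 0)
  (nat_lit 1) .nil) .nil))⟩

noncomputable def tA106 : Test :=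
  ⟨11, 1, (nat_lit 31031), V239, (nat_lit 11), (nat_lit 1), (nat_lit 0), (.cons 7 (nat_lit 7)
  false V218 (nat_lit 77) (nat_lit 0) (nat_lit 0) .nil (.cons 13 (nat_lit 13) false V201 (nat_lit
  143) (nat_lit 0) (nat_lit 0) .nil (.cons 31 (nat_lit 31) true V177 (nat_lit 341) (nat_lit 2)
  (nat_lit 0) (.cons V62 (nat_lit 4433) (nat_lit 0) (nat_lit 2) (nat_lit 0) (nat_lit 0) (.cons V88
  (nat_lit 2387) (nat_lit 1) (nat_lit 2) (nat_lit 0) (nat_lit 1) .nil)) .nil)))⟩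

noncomputable def tA107 : Test :=
  ⟨11, 1, (nat_lit 58311), V239, (nat_lit 11), (nat_lit 1), (nat_lit 0), (.cons 9 (nat_lit 3) true
  V212 (nat_lit 99) (nat_lit 1) (nat_lit 0) .nil (.cons 19 (nat_lit 19) false V192 (nat_lit 209)
  (nat_lit 0) (nat_lit 0) (.cons V100 (nat_lit 1881) (nat_lit 0) (nat_lit 1) (nat_lit 0) (nat_lit
  0) .nil) (.cons 31 (nat_lit 31) true V177 (nat_lit 341) (nat_lit 2) (nat_lit 0) (.skip (.cons
  V78 (nat_lit 3069) (nat_lit 1) (nat_lit 0) (nat_lit 0) (nat_lit 2) .nil)) .nil)))⟩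

noncomputable def tA108 : Test :=
  ⟨11, 1, (nat_lit 84227), V239, (nat_lit 11), (nat_lit 1), (nat_lit 0), (.cons 13 (nat_lit 13)
  false V201 (nat_lit 143) (nat_lit 0) (nat_lit 0) .nil (.cons 19 (nat_lit 19) false V192 (nat_lit
  209) (nat_lit 0) (nat_lit 0) .nil (.cons 31 (nat_lit 31) true V177 (nat_lit 341) (nat_lit 2)
  (nat_lit 0) (.cons V43 (nat_lit 6479) (nat_lit 0) (nat_lit 2) (nat_lit 0) (nat_lit 0) (.cons V62
  (nat_lit 4433) (nat_lit 0) (nat_lit 2) (nat_lit 0) (nat_lit 0) .nil)) .nil)))⟩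

noncomputable def tA109 : Test :=
  ⟨5, 11, (nat_lit 5005), V224, (nat_lit 55), (nat_lit 2), (nat_lit 0), (.cons 7 (nat_lit 7) true
  V170 (nat_lit 385) (nat_lit 0) (nat_lit 0) .nil (.cons 13 (nat_lit 13) true V147 (nat_lit 715)
  (nat_lit 1) (nat_lit 0) (.cons V55 (nat_lit 5005) (nat_lit 0) (nat_lit 0) (nat_lit 0) (nat_lit
  0) .nil) .nil))⟩

noncomputable def tA110 : Test :=
  ⟨4, 5, (nat_lit 6020), V236, (nat_lit 20), (nat_lit 2), (nat_lit 0), (.cons 7 (nat_lit 7) true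
  V204 (nat_lit 140) (nat_lit 1) (nat_lit 0) .nil (.cons 43 (nat_lit 43) true V135 (nat_lit 860)
  (nat_lit 1) (nat_lit 0) (.cons V46 (nat_lit 6020) (nat_lit 2) (nat_lit 0) (nat_lit 0) (nat_lit
  0) .nil) .nil))⟩

noncomputable def tA111 : Test :=
  ⟨4, 5, (nat_lit 56420), V236, (nat_lit 20), (nat_lit 2), (nat_lit 0), (.cons 7 (nat_lit 7) true
  V204 (nat_lit 140) (nat_lit 1) (nat_lit 0) .nil (.cons 13 (nat_lit 13) false V185 (nat_lit 260)
  (nat_lit 0) (nat_lit 0) (.cons V101 (nat_lit 1820) (nat_lit 0) (nat_lit 1) (nat_lit 0) (nat_lit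
  0) .nil) (.cons 31 (nat_lit 31) false V152 (nat_lit 620) (nat_lit 0) (nat_lit 0) (.skip (.cons
  V63 (nat_lit 4340) (nat_lit 2) (nat_lit 1) (nat_lit 0) (nat_lit 1) .nil)) .nil)))⟩

noncomputable def tA112 : Test :=
  ⟨4, 5, (nat_lit 39060), V236, (nat_lit 20), (nat_lit 2), (nat_lit 0), (.cons 9 (nat_lit 3) true
  V194 (nat_lit 180) (nat_lit 2) (nat_lit 0) .nil (.cons 7 (nat_lit 7) true V204 (nat_lit 140)
  (nat_lit 1) (nat_lit 0) (.cons V117 (nat_lit 1260) (nat_lit 2) (nat_lit 0) (nat_lit 0) (nat_lit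
  1) .nil) (.cons 31 (nat_lit 31) false V152 (nat_lit 620) (nat_lit 0) (nat_lit 0) (.skip (.cons
  V50 (nat_lit 5580) (nat_lit 1) (nat_lit 2) (nat_lit 0) (nat_lit 2) .nil)) .nil)))⟩

noncomputable def tA113 : Test :=
  ⟨11, 1, (nat_lit 9009), V239, (nat_lit 11), (nat_lit 1), (nat_lit 0), (.cons 9 (nat_lit 3) true
  V212 (nat_lit 99) (nat_lit 1) (nat_lit 0) .nil (.cons 7 (nat_lit 7) false V218 (nat_lit 77)
  (nat_lit 0) (nat_lit 0) (.cons V149 (nat_lit 693) (nat_lit 1) (nat_lit 1) (nat_lit 0) (nat_lit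
  1) .nil) (.cons 13 (nat_lit 13) false V201 (nat_lit 143) (nat_lit 0) (nat_lit 0) (.skip (.cons
  V114 (nat_lit 1287) (nat_lit 2) (nat_lit 1) (nat_lit 0) (nat_lit 2) .nil)) .nil)))⟩

noncomputable def tA114 : Test :=
  ⟨16, 1, (nat_lit 31304), V240, (nat_lit 8), (nat_lit 1), (nat_lit 0), (.cons 7 (nat_lit 7) false
  V223 (nat_lit 56) (nat_lit 0) (nat_lit 0) .nil (.cons 13 (nat_lit 13) false V209 (nat_lit 104)
  (nat_lit 0) (nat_lit 0) .nil (.cons 43 (nat_lit 43) true V176 (nat_lit 344) (nat_lit 1) (nat_lit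
  0) (.cons V61 (nat_lit 4472) (nat_lit 1) (nat_lit 1) (nat_lit 0) (nat_lit 1) (.cons V87 (nat_lit
  2408) (nat_lit 0) (nat_lit 1) (nat_lit 0) (nat_lit 0) .nil)) .nil)))⟩

noncomputable def tA115 : Test :=
  ⟨7, 1, (nat_lit 121303), V241, (nat_lit 7), (nat_lit 2), (nat_lit 0), (.cons 13 (nat_lit 13)
  false V215 (nat_lit 91) (nat_lit 0) (nat_lit 0) .nil (.cons 31 (nat_lit 31) false V191 (nat_lit
  217) (nat_lit 0) (nat_lit 0) .nil (.cons 43 (nat_lit 43) true V179 (nat_lit 301) (nat_lit 2)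
  (nat_lit 0) (.cons V22 (nat_lit 9331) (nat_lit 2) (nat_lit 2) (nat_lit 0) (nat_lit 1) (.cons V69
  (nat_lit 3913) (nat_lit 2) (nat_lit 2) (nat_lit 0) (nat_lit 1) .nil)) .nil)))⟩

noncomputable def tA116 : Test :=
  ⟨16, 5, (nat_lit 32760), V229, (nat_lit 40), (nat_lit 1), (nat_lit 0), (.cons 9 (nat_lit 3)
  false V175 (nat_lit 360) (nat_lit 0) (nat_lit 0) .nil (.cons 7 (nat_lit 7) true V182 (nat_lit
  280) (nat_lit 0) (nat_lit 0) .nil (.cons 13 (nat_lit 13) true V157 (nat_lit 520) (nat_lit 1)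
  (nat_lit 0) (.skip (.cons V59 (nat_lit 4680) (nat_lit 2) (nat_lit 1) (nat_lit 0) (nat_lit 2)
  .nil)) .nil)))⟩

noncomputable def tA117 : Test :=
  ⟨4, 5, (nat_lit 39060), V236, (nat_lit 20), (nat_lit 2), (nat_lit 0), (.cons 9 (nat_lit 3) true
  V194 (nat_lit 180) (nat_lit 2) (nat_lit 0) .nil (.cons 7 (nat_lit 7) true V204 (nat_lit 140)
  (nat_lit 1) (nat_lit 0) .nil (.cons 31 (nat_lit 31) false V152 (nat_lit 620) (nat_lit 0)
  (nat_lit 0) (.cons V63 (nat_lit 4340) (nat_lit 2) (nat_lit 1) (nat_lit 0) (nat_lit 1) .nil)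
  .nil)))⟩

noncomputable def tA118 : Test :=
  ⟨4, 5, (nat_lit 16380), V236, (nat_lit 20), (nat_lit 2), (nat_lit 0), (.cons 9 (nat_lit 3) true
  V194 (nat_lit 180) (nat_lit 2) (nat_lit 0) .nil (.cons 7 (nat_lit 7) true V204 (nat_lit 140)
  (nat_lit 1) (nat_lit 0) (.cons V117 (nat_lit 1260) (nat_lit 2) (nat_lit 0) (nat_lit 0) (nat_lit
  1) .nil) (.cons 13 (nat_lit 13) false V185 (nat_lit 260) (nat_lit 0) (nat_lit 0) (.cons V101
  (nat_lit 1820) (nat_lit 0) (nat_lit 1) (nat_lit 0) (nat_lit 0) (.cons V90 (nat_lit 2340)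
  (nat_lit 1) (nat_lit 2) (nat_lit 0) (nat_lit 2) .nil)) .nil)))⟩

noncomputable def tA119 : Test :=
  ⟨11, 13, (nat_lit 171171), V202, (nat_lit 143), (nat_lit 1), (nat_lit 0), (.cons 9 (nat_lit 3)
  true V115 (nat_lit 1287) (nat_lit 2) (nat_lit 0) .nil (.cons 7 (nat_lit 7) true V127 (nat_lit
  1001) (nat_lit 2) (nat_lit 0) (.cons V24 (nat_lit 9009) (nat_lit 2) (nat_lit 0) (nat_lit 0)
  (nat_lit 1) .nil) (.cons 19 (nat_lit 19) true V83 (nat_lit 2717) (nat_lit 1) (nat_lit 0) .nil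
  .nil)))⟩

noncomputable def tA120 : Test :=
  ⟨16, 5, (nat_lit 47880), V229, (nat_lit 40), (nat_lit 1), (nat_lit 0), (.cons 9 (nat_lit 3)
  false V175 (nat_lit 360) (nat_lit 0) (nat_lit 0) .nil (.cons 7 (nat_lit 7) true V182 (nat_lit
  280) (nat_lit 0) (nat_lit 0) (.cons V86 (nat_lit 2520) (nat_lit 1) (nat_lit 0) (nat_lit 0)
  (nat_lit 1) .nil) (.cons 19 (nat_lit 19) true V141 (nat_lit 760) (nat_lit 2) (nat_lit 0) (.cons
  V51 (nat_lit 5320) (nat_lit 1) (nat_lit 0) (nat_lit 0) (nat_lit 0) .nil) .nil)))⟩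

noncomputable def tA121 : Test :=
  ⟨5, 7, (nat_lit 4095), V232, (nat_lit 35), (nat_lit 2), (nat_lit 0), (.cons 9 (nat_lit 3) true
  V178 (nat_lit 315) (nat_lit 0) (nat_lit 0) .nil (.cons 13 (nat_lit 13) true V164 (nat_lit 455)
  (nat_lit 2) (nat_lit 0) (.cons V67 (nat_lit 4095) (nat_lit 2) (nat_lit 0) (nat_lit 0) (nat_lit
  2) .nil) .nil))⟩

noncomputable def tA122 : Test :=
  ⟨5, 11, (nat_lit 45045), V224, (nat_lit 55), (nat_lit 2), (nat_lit 0), (.cons 9 (nat_lit 3)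
  false V161 (nat_lit 495) (nat_lit 0) (nat_lit 0) .nil (.cons 7 (nat_lit 7) true V170 (nat_lit
  385) (nat_lit 0) (nat_lit 0) (.cons V74 (nat_lit 3465) (nat_lit 2) (nat_lit 0) (nat_lit 0)
  (nat_lit 1) .nil) (.cons 13 (nat_lit 13) true V147 (nat_lit 715) (nat_lit 1) (nat_lit 0) (.cons
  V55 (nat_lit 5005) (nat_lit 0) (nat_lit 0) (nat_lit 0) (nat_lit 0) .nil) .nil)))⟩

noncomputable def tA123 : Test :=
  ⟨4, 1, (nat_lit 14508), V242, (nat_lit 4), (nat_lit 1), (nat_lit 0), (.cons 9 (nat_lit 3) false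
  V231 (nat_lit 36) (nat_lit 0) (nat_lit 0) .nil (.cons 13 (nat_lit 13) true V227 (nat_lit 52)
  (nat_lit 2) (nat_lit 0) (.cons V163 (nat_lit 468) (nat_lit 2) (nat_lit 2) (nat_lit 0) (nat_lit
  2) .nil) (.cons 31 (nat_lit 31) false V207 (nat_lit 124) (nat_lit 0) (nat_lit 0) (.cons V106
  (nat_lit 1612) (nat_lit 0) (nat_lit 2) (nat_lit 0) (nat_lit 0) .nil) .nil)))⟩

noncomputable def tA124 : Test :=
  ⟨8, 7, (nat_lit 6552), V222, (nat_lit 56), (nat_lit 1), (nat_lit 0), (.cons 9 (nat_lit 3) true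
  V159 (nat_lit 504) (nat_lit 0) (nat_lit 0) .nil (.cons 13 (nat_lit 13) true V143 (nat_lit 728)
  (nat_lit 1) (nat_lit 0) (.cons V38 (nat_lit 6552) (nat_lit 2) (nat_lit 0) (nat_lit 0) (nat_lit
  2) .nil) .nil))⟩

noncomputable def tA125 : Test :=
  ⟨16, 1, (nat_lit 84968), V240, (nat_lit 8), (nat_lit 1), (nat_lit 0), (.cons 13 (nat_lit 13)
  false V209 (nat_lit 104) (nat_lit 0) (nat_lit 0) .nil (.cons 19 (nat_lit 19) true V200 (nat_lit
  152) (nat_lit 1) (nat_lit 0) (.cons V97 (nat_lit 1976) (nat_lit 1) (nat_lit 1) (nat_lit 0)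
  (nat_lit 1) .nil) (.cons 43 (nat_lit 43) true V176 (nat_lit 344) (nat_lit 1) (nat_lit 0) (.skip
  (.cons V61 (nat_lit 4472) (nat_lit 1) (nat_lit 1) (nat_lit 0) (nat_lit 1) .nil)) .nil)))⟩

noncomputable def tA126 : Test :=
  ⟨11, 1, (nat_lit 29799), V239, (nat_lit 11), (nat_lit 1), (nat_lit 0), (.cons 9 (nat_lit 3) true
  V212 (nat_lit 99) (nat_lit 1) (nat_lit 0) .nil (.cons 7 (nat_lit 7) false V218 (nat_lit 77)
  (nat_lit 0) (nat_lit 0) (.cons V149 (nat_lit 693) (nat_lit 1) (nat_lit 1) (nat_lit 0) (nat_lit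
  1) .nil) (.cons 43 (nat_lit 43) false V162 (nat_lit 473) (nat_lit 0) (nat_lit 0) (.skip (.cons
  V64 (nat_lit 4257) (nat_lit 1) (nat_lit 1) (nat_lit 0) (nat_lit 1) .nil)) .nil)))⟩

noncomputable def tA127 : Test :=
  ⟨16, 5, (nat_lit 32760), V229, (nat_lit 40), (nat_lit 1), (nat_lit 0), (.cons 9 (nat_lit 3)
  false V175 (nat_lit 360) (nat_lit 0) (nat_lit 0) .nil (.cons 7 (nat_lit 7) true V182 (nat_lit
  280) (nat_lit 0) (nat_lit 0) (.cons V86 (nat_lit 2520) (nat_lit 1) (nat_lit 0) (nat_lit 0)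
  (nat_lit 1) .nil) (.cons 13 (nat_lit 13) true V157 (nat_lit 520) (nat_lit 1) (nat_lit 0) (.skip
  (.cons V59 (nat_lit 4680) (nat_lit 2) (nat_lit 1) (nat_lit 0) (nat_lit 2) .nil)) .nil)))⟩

noncomputable def tA128 : Test :=
  ⟨5, 7, (nat_lit 77805), V232, (nat_lit 35), (nat_lit 2), (nat_lit 0), (.cons 9 (nat_lit 3) true
  V178 (nat_lit 315) (nat_lit 0) (nat_lit 0) .nil (.cons 13 (nat_lit 13) true V164 (nat_lit 455)
  (nat_lit 2) (nat_lit 0) .nil (.cons 19 (nat_lit 19) false V150 (nat_lit 665) (nat_lit 0)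
  (nat_lit 0) (.skip (.cons V47 (nat_lit 5985) (nat_lit 0) (nat_lit 0) (nat_lit 0) (nat_lit 0)
  .nil)) .nil)))⟩

noncomputable def tA129 : Test :=
  ⟨11, 1, (nat_lit 39897), V239, (nat_lit 11), (nat_lit 1), (nat_lit 0), (.cons 9 (nat_lit 3) true
  V212 (nat_lit 99) (nat_lit 1) (nat_lit 0) .nil (.cons 13 (nat_lit 13) false V201 (nat_lit 143)
  (nat_lit 0) (nat_lit 0) .nil (.cons 31 (nat_lit 31) true V177 (nat_lit 341) (nat_lit 2) (nat_lit
  0) (.cons V62 (nat_lit 4433) (nat_lit 0) (nat_lit 2) (nat_lit 0) (nat_lit 0) .nil) .nil)))⟩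

noncomputable def tA130 : Test :=
  ⟨16, 5, (nat_lit 306280), V229, (nat_lit 40), (nat_lit 1), (nat_lit 0), (.cons 13 (nat_lit 13)
  true V157 (nat_lit 520) (nat_lit 1) (nat_lit 0) .nil (.cons 19 (nat_lit 19) true V141 (nat_lit
  760) (nat_lit 2) (nat_lit 0) (.cons V19 (nat_lit 9880) (nat_lit 0) (nat_lit 0) (nat_lit 0)
  (nat_lit 1) .nil) (.cons 31 (nat_lit 31) false V118 (nat_lit 1240) (nat_lit 0) (nat_lit 0)
  (.skip (.cons V3 (nat_lit 16120) (nat_lit 0) (nat_lit 1) (nat_lit 0) (nat_lit 0) .nil)) .nil)))⟩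

noncomputable def tA131 : Test :=
  ⟨16, 5, (nat_lit 32760), V229, (nat_lit 40), (nat_lit 1), (nat_lit 0), (.cons 9 (nat_lit 3)
  false V175 (nat_lit 360) (nat_lit 0) (nat_lit 0) .nil (.cons 7 (nat_lit 7) true V182 (nat_lit
  280) (nat_lit 0) (nat_lit 0) .nil (.cons 13 (nat_lit 13) true V157 (nat_lit 520) (nat_lit 1)
  (nat_lit 0) (.cons V72 (nat_lit 3640) (nat_lit 2) (nat_lit 0) (nat_lit 0) (nat_lit 0) (.cons V59
  (nat_lit 4680) (nat_lit 2) (nat_lit 1) (nat_lit 0) (nat_lit 2) .nil)) .nil)))⟩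

noncomputable def tA132 : Test :=
  ⟨31, 1, (nat_lit 53599), V233, (nat_lit 31), (nat_lit 0), (nat_lit 0), (.cons 7 (nat_lit 7) true
  V190 (nat_lit 217) (nat_lit 1) (nat_lit 0) .nil (.cons 13 (nat_lit 13) false V168 (nat_lit 403)
  (nat_lit 0) (nat_lit 0) .nil (.cons 19 (nat_lit 19) true V154 (nat_lit 589) (nat_lit 1) (nat_lit
  0) .nil .nil)))⟩

noncomputable def tA133 : Test :=
  ⟨43, 1, (nat_lit 35217), V228, (nat_lit 43), (nat_lit 2), (nat_lit 0), (.cons 9 (nat_lit 3)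
  false V169 (nat_lit 387) (nat_lit 0) (nat_lit 0) .nil (.cons 7 (nat_lit 7) false V180 (nat_lit
  301) (nat_lit 0) (nat_lit 0) .nil (.cons 13 (nat_lit 13) true V156 (nat_lit 559) (nat_lit 2)
  (nat_lit 0) (.cons V70 (nat_lit 3913) (nat_lit 0) (nat_lit 2) (nat_lit 0) (nat_lit 0) (.cons V54
  (nat_lit 5031) (nat_lit 1) (nat_lit 2) (nat_lit 0) (nat_lit 2) .nil)) .nil)))⟩

noncomputable def tA134 : Test :=
  ⟨5, 11, (nat_lit 122265), V224, (nat_lit 55), (nat_lit 2), (nat_lit 0), (.cons 9 (nat_lit 3)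
  false V161 (nat_lit 495) (nat_lit 0) (nat_lit 0) .nil (.cons 13 (nat_lit 13) true V147 (nat_lit
  715) (nat_lit 1) (nat_lit 0) (.cons V44 (nat_lit 6435) (nat_lit 1) (nat_lit 1) (nat_lit 0)
  (nat_lit 2) .nil) (.cons 19 (nat_lit 19) false V126 (nat_lit 1045) (nat_lit 0) (nat_lit 0)
  (.cons V9 (nat_lit 13585) (nat_lit 2) (nat_lit 1) (nat_lit 0) (nat_lit 1) .nil) .nil)))⟩

noncomputable def tA135 : Test :=
  ⟨8, 11, (nat_lit 152152), V217, (nat_lit 88), (nat_lit 1), (nat_lit 0), (.cons 7 (nat_lit 7)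
  false V153 (nat_lit 616) (nat_lit 0) (nat_lit 0) .nil (.cons 13 (nat_lit 13) true V121 (nat_lit
  1144) (nat_lit 0) (nat_lit 0) (.cons V31 (nat_lit 8008) (nat_lit 0) (nat_lit 0) (nat_lit 0)
  (nat_lit 0) .nil) (.cons 19 (nat_lit 19) true V105 (nat_lit 1672) (nat_lit 1) (nat_lit 0) (.skip
  (.cons V15 (nat_lit 11704) (nat_lit 0) (nat_lit 1) (nat_lit 0) (nat_lit 0) .nil)) .nil)))⟩

noncomputable def tA136 : Test :=
  ⟨19, 1, (nat_lit 37107), V238, (nat_lit 19), (nat_lit 2), (nat_lit 0), (.cons 9 (nat_lit 3)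
  false V196 (nat_lit 171) (nat_lit 0) (nat_lit 0) .nil (.cons 7 (nat_lit 7) true V206 (nat_lit
  133) (nat_lit 2) (nat_lit 0) (.cons V120 (nat_lit 1197) (nat_lit 2) (nat_lit 2) (nat_lit 0)
  (nat_lit 1) .nil) (.cons 31 (nat_lit 31) false V155 (nat_lit 589) (nat_lit 0) (nat_lit 0) (.cons
  V66 (nat_lit 4123) (nat_lit 2) (nat_lit 2) (nat_lit 0) (nat_lit 1) .nil) .nil)))⟩

noncomputable def tA137 : Test :=
  ⟨16, 1, (nat_lit 45752), V240, (nat_lit 8), (nat_lit 1), (nat_lit 0), (.cons 7 (nat_lit 7) false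
  V223 (nat_lit 56) (nat_lit 0) (nat_lit 0) .nil (.cons 19 (nat_lit 19) true V200 (nat_lit 152)
  (nat_lit 1) (nat_lit 0) (.cons V124 (nat_lit 1064) (nat_lit 0) (nat_lit 1) (nat_lit 0) (nat_lit
  0) .nil) (.cons 43 (nat_lit 43) true V176 (nat_lit 344) (nat_lit 1) (nat_lit 0) (.cons V41
  (nat_lit 6536) (nat_lit 2) (nat_lit 0) (nat_lit 0) (nat_lit 1) .nil) .nil)))⟩

noncomputable def tA138 : Test :=
  ⟨16, 5, (nat_lit 78120), V229, (nat_lit 40), (nat_lit 1), (nat_lit 0), (.cons 9 (nat_lit 3)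
  false V175 (nat_lit 360) (nat_lit 0) (nat_lit 0) .nil (.cons 7 (nat_lit 7) true V182 (nat_lit
  280) (nat_lit 0) (nat_lit 0) (.cons V86 (nat_lit 2520) (nat_lit 1) (nat_lit 0) (nat_lit 0)
  (nat_lit 1) .nil) (.cons 31 (nat_lit 31) false V118 (nat_lit 1240) (nat_lit 0) (nat_lit 0)
  (.cons V27 (nat_lit 8680) (nat_lit 1) (nat_lit 0) (nat_lit 0) (nat_lit 1) .nil) .nil)))⟩

noncomputable def tA139 : Test :=
  ⟨11, 1, (nat_lit 39897), V239, (nat_lit 11), (nat_lit 1), (nat_lit 0), (.cons 9 (nat_lit 3) true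
  V212 (nat_lit 99) (nat_lit 1) (nat_lit 0) .nil (.cons 13 (nat_lit 13) false V201 (nat_lit 143)
  (nat_lit 0) (nat_lit 0) .nil (.cons 31 (nat_lit 31) true V177 (nat_lit 341) (nat_lit 2) (nat_lit
  0) (.cons V62 (nat_lit 4433) (nat_lit 0) (nat_lit 2) (nat_lit 0) (nat_lit 0) (.cons V78 (nat_lit
  3069) (nat_lit 1) (nat_lit 0) (nat_lit 0) (nat_lit 2) .nil)) .nil)))⟩

noncomputable def tA140 : Test :=
  ⟨8, 19, (nat_lit 124488), V199, (nat_lit 152), (nat_lit 0), (nat_lit 0), (.cons 9 (nat_lit 3)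
  true V110 (nat_lit 1368) (nat_lit 2) (nat_lit 0) .nil (.cons 7 (nat_lit 7) true V125 (nat_lit
  1064) (nat_lit 1) (nat_lit 0) (.cons V21 (nat_lit 9576) (nat_lit 2) (nat_lit 0) (nat_lit 0)
  (nat_lit 1) .nil) (.cons 13 (nat_lit 13) true V96 (nat_lit 1976) (nat_lit 1) (nat_lit 0) (.skip
  (.cons V1 (nat_lit 17784) (nat_lit 2) (nat_lit 0) (nat_lit 0) (nat_lit 2) .nil)) .nil)))⟩

noncomputable def tA141 : Test :=
  ⟨8, 11, (nat_lit 72072), V217, (nat_lit 88), (nat_lit 1), (nat_lit 0), (.cons 9 (nat_lit 3)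
  false V140 (nat_lit 792) (nat_lit 0) (nat_lit 0) .nil (.cons 7 (nat_lit 7) false V153 (nat_lit
  616) (nat_lit 0) (nat_lit 0) .nil (.cons 13 (nat_lit 13) true V121 (nat_lit 1144) (nat_lit 0)
  (nat_lit 0) (.cons V31 (nat_lit 8008) (nat_lit 0) (nat_lit 0) (nat_lit 0) (nat_lit 0) (.cons V18
  (nat_lit 10296) (nat_lit 2) (nat_lit 0) (nat_lit 0) (nat_lit 2) .nil)) .nil)))⟩

noncomputable def tA142 : Test :=
  ⟨4, 1, (nat_lit 3276), V242, (nat_lit 4), (nat_lit 1), (nat_lit 0), (.cons 9 (nat_lit 3) false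
  V231 (nat_lit 36) (nat_lit 0) (nat_lit 0) .nil (.cons 7 (nat_lit 7) false V234 (nat_lit 28)
  (nat_lit 0) (nat_lit 0) .nil (.cons 13 (nat_lit 13) true V227 (nat_lit 52) (nat_lit 2) (nat_lit
  0) (.cons V174 (nat_lit 364) (nat_lit 0) (nat_lit 2) (nat_lit 0) (nat_lit 0) (.cons V163
  (nat_lit 468) (nat_lit 2) (nat_lit 2) (nat_lit 0) (nat_lit 2) .nil)) .nil)))⟩

noncomputable def tA143 : Test :=
  ⟨4, 1, (nat_lit 11284), V242, (nat_lit 4), (nat_lit 1), (nat_lit 0), (.cons 7 (nat_lit 7) false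
  V234 (nat_lit 28) (nat_lit 0) (nat_lit 0) .nil (.cons 13 (nat_lit 13) true V227 (nat_lit 52)
  (nat_lit 2) (nat_lit 0) (.cons V174 (nat_lit 364) (nat_lit 0) (nat_lit 2) (nat_lit 0) (nat_lit
  0) .nil) (.cons 31 (nat_lit 31) false V207 (nat_lit 124) (nat_lit 0) (nat_lit 0) (.cons V106
  (nat_lit 1612) (nat_lit 0) (nat_lit 2) (nat_lit 0) (nat_lit 0) .nil) .nil)))⟩

noncomputable def tA144 : Test :=
  ⟨16, 1, (nat_lit 42408), V240, (nat_lit 8), (nat_lit 1), (nat_lit 0), (.cons 9 (nat_lit 3) true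
  V220 (nat_lit 72) (nat_lit 2) (nat_lit 0) .nil (.cons 19 (nat_lit 19) true V200 (nat_lit 152)
  (nat_lit 1) (nat_lit 0) .nil (.cons 31 (nat_lit 31) false V187 (nat_lit 248) (nat_lit 0)
  (nat_lit 0) (.cons V58 (nat_lit 4712) (nat_lit 0) (nat_lit 1) (nat_lit 0) (nat_lit 0) .nil)
  .nil)))⟩

noncomputable def tA145 : Test :=
  ⟨16, 5, (nat_lit 88920), V229, (nat_lit 40), (nat_lit 1), (nat_lit 0), (.cons 9 (nat_lit 3)
  false V175 (nat_lit 360) (nat_lit 0) (nat_lit 0) .nil (.cons 13 (nat_lit 13) true V157 (nat_lit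
  520) (nat_lit 1) (nat_lit 0) (.cons V59 (nat_lit 4680) (nat_lit 2) (nat_lit 1) (nat_lit 0)
  (nat_lit 2) .nil) (.cons 19 (nat_lit 19) true V141 (nat_lit 760) (nat_lit 2) (nat_lit 0) .nil
  .nil)))⟩

noncomputable def tA146 : Test :=
  ⟨4, 13, (nat_lit 214396), V226, (nat_lit 52), (nat_lit 1), (nat_lit 0), (.cons 7 (nat_lit 7)
  true V173 (nat_lit 364) (nat_lit 1) (nat_lit 0) .nil (.cons 19 (nat_lit 19) true V130 (nat_lit
  988) (nat_lit 0) (nat_lit 0) (.cons V36 (nat_lit 6916) (nat_lit 0) (nat_lit 0) (nat_lit 0)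
  (nat_lit 0) .nil) (.cons 31 (nat_lit 31) true V107 (nat_lit 1612) (nat_lit 1) (nat_lit 0) .nil
  .nil)))⟩

noncomputable def tA147 : Test :=
  ⟨16, 1, (nat_lit 45752), V240, (nat_lit 8), (nat_lit 1), (nat_lit 0), (.cons 7 (nat_lit 7) false
  V223 (nat_lit 56) (nat_lit 0) (nat_lit 0) .nil (.cons 19 (nat_lit 19) true V200 (nat_lit 152)
  (nat_lit 1) (nat_lit 0) (.cons V124 (nat_lit 1064) (nat_lit 0) (nat_lit 1) (nat_lit 0) (nat_lit
  0) .nil) (.cons 43 (nat_lit 43) true V176 (nat_lit 344) (nat_lit 1) (nat_lit 0) .nil .nil)))⟩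

noncomputable def tA148 : Test :=
  ⟨16, 5, (nat_lit 145080), V229, (nat_lit 40), (nat_lit 1), (nat_lit 0), (.cons 9 (nat_lit 3)
  false V175 (nat_lit 360) (nat_lit 0) (nat_lit 0) .nil (.cons 13 (nat_lit 13) true V157 (nat_lit
  520) (nat_lit 1) (nat_lit 0) (.cons V59 (nat_lit 4680) (nat_lit 2) (nat_lit 1) (nat_lit 0)
  (nat_lit 2) .nil) (.cons 31 (nat_lit 31) false V118 (nat_lit 1240) (nat_lit 0) (nat_lit 0)
  (.cons V3 (nat_lit 16120) (nat_lit 0) (nat_lit 1) (nat_lit 0) (nat_lit 0) .nil) .nil)))⟩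

noncomputable def tA149 : Test :=
  ⟨16, 13, (nat_lit 124488), V210, (nat_lit 104), (nat_lit 0), (nat_lit 0), (.cons 9 (nat_lit 3)
  true V133 (nat_lit 936) (nat_lit 2) (nat_lit 0) .nil (.cons 7 (nat_lit 7) true V144 (nat_lit
  728) (nat_lit 2) (nat_lit 0) (.cons V39 (nat_lit 6552) (nat_lit 2) (nat_lit 0) (nat_lit 0)
  (nat_lit 1) .nil) (.cons 19 (nat_lit 19) false V98 (nat_lit 1976) (nat_lit 0) (nat_lit 0) .nil
  .nil)))⟩

noncomputable def tA150 : Test :=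
  ⟨16, 1, (nat_lit 40248), V240, (nat_lit 8), (nat_lit 1), (nat_lit 0), (.cons 9 (nat_lit 3) true
  V220 (nat_lit 72) (nat_lit 2) (nat_lit 0) .nil (.cons 13 (nat_lit 13) false V209 (nat_lit 104)
  (nat_lit 0) (nat_lit 0) (.cons V132 (nat_lit 936) (nat_lit 2) (nat_lit 2) (nat_lit 0) (nat_lit
  2) .nil) (.cons 43 (nat_lit 43) true V176 (nat_lit 344) (nat_lit 1) (nat_lit 0) .nil .nil)))⟩

noncomputable def tA151 : Test :=
  ⟨4, 5, (nat_lit 39060), V236, (nat_lit 20), (nat_lit 2), (nat_lit 0), (.cons 9 (nat_lit 3) true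
  V194 (nat_lit 180) (nat_lit 2) (nat_lit 0) .nil (.cons 7 (nat_lit 7) true V204 (nat_lit 140)
  (nat_lit 1) (nat_lit 0) (.cons V117 (nat_lit 1260) (nat_lit 2) (nat_lit 0) (nat_lit 0) (nat_lit
  1) .nil) (.cons 31 (nat_lit 31) false V152 (nat_lit 620) (nat_lit 0) (nat_lit 0) (.cons V63
  (nat_lit 4340) (nat_lit 2) (nat_lit 1) (nat_lit 0) (nat_lit 1) .nil) .nil)))⟩

noncomputable def tA152 : Test :=
  ⟨5, 11, (nat_lit 95095), V224, (nat_lit 55), (nat_lit 2), (nat_lit 0), (.cons 7 (nat_lit 7) true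
  V170 (nat_lit 385) (nat_lit 0) (nat_lit 0) .nil (.cons 13 (nat_lit 13) true V147 (nat_lit 715)
  (nat_lit 1) (nat_lit 0) .nil (.cons 19 (nat_lit 19) false V126 (nat_lit 1045) (nat_lit 0)
  (nat_lit 0) (.skip (.cons V34 (nat_lit 7315) (nat_lit 0) (nat_lit 0) (nat_lit 0) (nat_lit 0)
  .nil)) .nil)))⟩

noncomputable def tA153 : Test :=
  ⟨5, 11, (nat_lit 45045), V224, (nat_lit 55), (nat_lit 2), (nat_lit 0), (.cons 9 (nat_lit 3)
  false V161 (nat_lit 495) (nat_lit 0) (nat_lit 0) .nil (.cons 7 (nat_lit 7) true V170 (nat_lit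
  385) (nat_lit 0) (nat_lit 0) (.cons V74 (nat_lit 3465) (nat_lit 2) (nat_lit 0) (nat_lit 0)
  (nat_lit 1) .nil) (.cons 13 (nat_lit 13) true V147 (nat_lit 715) (nat_lit 1) (nat_lit 0) .nil
  .nil)))⟩

noncomputable def tA154 : Test :=
  ⟨5, 11, (nat_lit 155155), V224, (nat_lit 55), (nat_lit 2), (nat_lit 0), (.cons 7 (nat_lit 7)
  true V170 (nat_lit 385) (nat_lit 0) (nat_lit 0) .nil (.cons 13 (nat_lit 13) true V147 (nat_lit
  715) (nat_lit 1) (nat_lit 0) (.cons V55 (nat_lit 5005) (nat_lit 0) (nat_lit 0) (nat_lit 0)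
  (nat_lit 0) .nil) (.cons 31 (nat_lit 31) true V104 (nat_lit 1705) (nat_lit 2) (nat_lit 0) (.skip
  (.cons V14 (nat_lit 11935) (nat_lit 1) (nat_lit 0) (nat_lit 0) (nat_lit 1) .nil)) .nil)))⟩

noncomputable def tA155 : Test :=
  ⟨11, 1, (nat_lit 45353), V239, (nat_lit 11), (nat_lit 1), (nat_lit 0), (.cons 7 (nat_lit 7)
  false V218 (nat_lit 77) (nat_lit 0) (nat_lit 0) .nil (.cons 19 (nat_lit 19) false V192 (nat_lit
  209) (nat_lit 0) (nat_lit 0) .nil (.cons 31 (nat_lit 31) true V177 (nat_lit 341) (nat_lit 2)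
  (nat_lit 0) (.cons V43 (nat_lit 6479) (nat_lit 0) (nat_lit 2) (nat_lit 0) (nat_lit 0) (.cons V88
  (nat_lit 2387) (nat_lit 1) (nat_lit 2) (nat_lit 0) (nat_lit 1) .nil)) .nil)))⟩

noncomputable def tA156 : Test :=
  ⟨16, 1, (nat_lit 45752), V240, (nat_lit 8), (nat_lit 1), (nat_lit 0), (.cons 7 (nat_lit 7) false
  V223 (nat_lit 56) (nat_lit 0) (nat_lit 0) .nil (.cons 19 (nat_lit 19) true V200 (nat_lit 152)
  (nat_lit 1) (nat_lit 0) .nil (.cons 43 (nat_lit 43) true V176 (nat_lit 344) (nat_lit 1) (nat_lit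
  0) (.skip (.cons V87 (nat_lit 2408) (nat_lit 0) (nat_lit 1) (nat_lit 0) (nat_lit 0) .nil))
  .nil)))⟩

noncomputable def tA157 : Test :=
  ⟨5, 11, (nat_lit 155155), V224, (nat_lit 55), (nat_lit 2), (nat_lit 0), (.cons 7 (nat_lit 7)
  true V170 (nat_lit 385) (nat_lit 0) (nat_lit 0) .nil (.cons 13 (nat_lit 13) true V147 (nat_lit
  715) (nat_lit 1) (nat_lit 0) (.cons V55 (nat_lit 5005) (nat_lit 0) (nat_lit 0) (nat_lit 0)
  (nat_lit 0) .nil) (.cons 31 (nat_lit 31) true V104 (nat_lit 1705) (nat_lit 2) (nat_lit 0) .nil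
  .nil)))⟩

noncomputable def tA158 : Test :=
  ⟨16, 13, (nat_lit 1247688), V210, (nat_lit 104), (nat_lit 0), (nat_lit 0), (.cons 9 (nat_lit 3)
  true V133 (nat_lit 936) (nat_lit 2) (nat_lit 0) .nil (.cons 31 (nat_lit 31) true V76 (nat_lit
  3224) (nat_lit 0) (nat_lit 0) .nil (.cons 43 (nat_lit 43) true V60 (nat_lit 4472) (nat_lit 2)
  (nat_lit 0) .nil .nil)))⟩

noncomputable def tA159 : Test :=
  ⟨5, 11, (nat_lit 45045), V224, (nat_lit 55), (nat_lit 2), (nat_lit 0), (.cons 9 (nat_lit 3)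
  false V161 (nat_lit 495) (nat_lit 0) (nat_lit 0) .nil (.cons 7 (nat_lit 7) true V170 (nat_lit
  385) (nat_lit 0) (nat_lit 0) .nil (.cons 13 (nat_lit 13) true V147 (nat_lit 715) (nat_lit 1)
  (nat_lit 0) (.cons V55 (nat_lit 5005) (nat_lit 0) (nat_lit 0) (nat_lit 0) (nat_lit 0) (.cons V44
  (nat_lit 6435) (nat_lit 1) (nat_lit 1) (nat_lit 0) (nat_lit 2) .nil)) .nil)))⟩

noncomputable def tA160 : Test :=
  ⟨16, 1, (nat_lit 42408), V240, (nat_lit 8), (nat_lit 1), (nat_lit 0), (.cons 9 (nat_lit 3) true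
  V220 (nat_lit 72) (nat_lit 2) (nat_lit 0) .nil (.cons 19 (nat_lit 19) true V200 (nat_lit 152)
  (nat_lit 1) (nat_lit 0) .nil (.cons 31 (nat_lit 31) false V187 (nat_lit 248) (nat_lit 0)
  (nat_lit 0) (.cons V58 (nat_lit 4712) (nat_lit 0) (nat_lit 1) (nat_lit 0) (nat_lit 0) (.cons V93
  (nat_lit 2232) (nat_lit 2) (nat_lit 2) (nat_lit 0) (nat_lit 2) .nil)) .nil)))⟩

noncomputable def tA161 : Test :=
  ⟨8, 19, (nat_lit 296856), V199, (nat_lit 152), (nat_lit 0), (nat_lit 0), (.cons 9 (nat_lit 3)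
  true V110 (nat_lit 1368) (nat_lit 2) (nat_lit 0) .nil (.cons 7 (nat_lit 7) true V125 (nat_lit
  1064) (nat_lit 1) (nat_lit 0) (.cons V21 (nat_lit 9576) (nat_lit 2) (nat_lit 0) (nat_lit 0)
  (nat_lit 1) .nil) (.cons 31 (nat_lit 31) false V57 (nat_lit 4712) (nat_lit 0) (nat_lit 0) .nil
  .nil)))⟩

noncomputable def tA162 : Test :=
  ⟨5, 19, (nat_lit 77805), V213, (nat_lit 95), (nat_lit 2), (nat_lit 0), (.cons 9 (nat_lit 3) true
  V136 (nat_lit 855) (nat_lit 1) (nat_lit 0) .nil (.cons 7 (nat_lit 7) false V151 (nat_lit 665)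
  (nat_lit 0) (nat_lit 0) (.cons V48 (nat_lit 5985) (nat_lit 2) (nat_lit 1) (nat_lit 0) (nat_lit
  1) .nil) (.cons 13 (nat_lit 13) true V119 (nat_lit 1235) (nat_lit 1) (nat_lit 0) (.skip (.cons
  V17 (nat_lit 11115) (nat_lit 2) (nat_lit 0) (nat_lit 0) (nat_lit 2) .nil)) .nil)))⟩

noncomputable def tA163 : Test :=
  ⟨4, 1, (nat_lit 15652), V242, (nat_lit 4), (nat_lit 1), (nat_lit 0), (.cons 7 (nat_lit 7) false
  V234 (nat_lit 28) (nat_lit 0) (nat_lit 0) .nil (.cons 13 (nat_lit 13) true V227 (nat_lit 52)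
  (nat_lit 2) (nat_lit 0) (.cons V174 (nat_lit 364) (nat_lit 0) (nat_lit 2) (nat_lit 0) (nat_lit
  0) .nil) (.cons 43 (nat_lit 43) false V195 (nat_lit 172) (nat_lit 0) (nat_lit 0) (.cons V91
  (nat_lit 2236) (nat_lit 1) (nat_lit 2) (nat_lit 0) (nat_lit 1) .nil) .nil)))⟩

noncomputable def tA164 : Test :=
  ⟨4, 5, (nat_lit 239940), V236, (nat_lit 20), (nat_lit 2), (nat_lit 0), (.cons 9 (nat_lit 3) true
  V194 (nat_lit 180) (nat_lit 2) (nat_lit 0) .nil (.cons 31 (nat_lit 31) false V152 (nat_lit 620)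
  (nat_lit 0) (nat_lit 0) (.cons V50 (nat_lit 5580) (nat_lit 1) (nat_lit 2) (nat_lit 0) (nat_lit
  2) .nil) (.cons 43 (nat_lit 43) true V135 (nat_lit 860) (nat_lit 1) (nat_lit 0) .nil .nil)))⟩

noncomputable def tA165 : Test :=
  ⟨4, 5, (nat_lit 147060), V236, (nat_lit 20), (nat_lit 2), (nat_lit 0), (.cons 9 (nat_lit 3) true
  V194 (nat_lit 180) (nat_lit 2) (nat_lit 0) .nil (.cons 19 (nat_lit 19) false V172 (nat_lit 380)
  (nat_lit 0) (nat_lit 0) .nil (.cons 43 (nat_lit 43) true V135 (nat_lit 860) (nat_lit 1) (nat_lit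
  0) (.cons V2 (nat_lit 16340) (nat_lit 2) (nat_lit 1) (nat_lit 0) (nat_lit 1) (.cons V32 (nat_lit
  7740) (nat_lit 0) (nat_lit 0) (nat_lit 0) (nat_lit 1) .nil)) .nil)))⟩

noncomputable def tA166 : Test :=
  ⟨5, 19, (nat_lit 77805), V213, (nat_lit 95), (nat_lit 2), (nat_lit 0), (.cons 9 (nat_lit 3) true
  V136 (nat_lit 855) (nat_lit 1) (nat_lit 0) .nil (.cons 7 (nat_lit 7) false V151 (nat_lit 665)
  (nat_lit 0) (nat_lit 0) (.cons V48 (nat_lit 5985) (nat_lit 2) (nat_lit 1) (nat_lit 0) (nat_lit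
  1) .nil) (.cons 13 (nat_lit 13) true V119 (nat_lit 1235) (nat_lit 1) (nat_lit 0) .nil .nil)))⟩

noncomputable def tA167 : Test :=
  ⟨11, 1, (nat_lit 58311), V239, (nat_lit 11), (nat_lit 1), (nat_lit 0), (.cons 9 (nat_lit 3) true
  V212 (nat_lit 99) (nat_lit 1) (nat_lit 0) .nil (.cons 19 (nat_lit 19) false V192 (nat_lit 209)
  (nat_lit 0) (nat_lit 0) (.cons V100 (nat_lit 1881) (nat_lit 0) (nat_lit 1) (nat_lit 0) (nat_lit
  0) .nil) (.cons 31 (nat_lit 31) true V177 (nat_lit 341) (nat_lit 2) (nat_lit 0) (.cons V43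
  (nat_lit 6479) (nat_lit 0) (nat_lit 2) (nat_lit 0) (nat_lit 0) .nil) .nil)))⟩

noncomputable def tA168 : Test :=
  ⟨4, 13, (nat_lit 214396), V226, (nat_lit 52), (nat_lit 1), (nat_lit 0), (.cons 7 (nat_lit 7)
  true V173 (nat_lit 364) (nat_lit 1) (nat_lit 0) .nil (.cons 19 (nat_lit 19) true V130 (nat_lit
  988) (nat_lit 0) (nat_lit 0) .nil (.cons 31 (nat_lit 31) true V107 (nat_lit 1612) (nat_lit 1)
  (nat_lit 0) (.skip (.cons V16 (nat_lit 11284) (nat_lit 2) (nat_lit 0) (nat_lit 0) (nat_lit 1)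
  .nil)) .nil)))⟩

noncomputable def tA169 : Test :=
  ⟨4, 13, (nat_lit 214396), V226, (nat_lit 52), (nat_lit 1), (nat_lit 0), (.cons 7 (nat_lit 7)
  true V173 (nat_lit 364) (nat_lit 1) (nat_lit 0) .nil (.cons 19 (nat_lit 19) true V130 (nat_lit
  988) (nat_lit 0) (nat_lit 0) (.cons V36 (nat_lit 6916) (nat_lit 0) (nat_lit 0) (nat_lit 0)
  (nat_lit 0) .nil) (.cons 31 (nat_lit 31) true V107 (nat_lit 1612) (nat_lit 1) (nat_lit 0) (.skip
  (.cons V16 (nat_lit 11284) (nat_lit 2) (nat_lit 0) (nat_lit 0) (nat_lit 1) .nil)) .nil)))⟩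

noncomputable def tA170 : Test :=
  ⟨4, 5, (nat_lit 39060), V236, (nat_lit 20), (nat_lit 2), (nat_lit 0), (.cons 9 (nat_lit 3) true
  V194 (nat_lit 180) (nat_lit 2) (nat_lit 0) .nil (.cons 7 (nat_lit 7) true V204 (nat_lit 140)
  (nat_lit 1) (nat_lit 0) (.cons V117 (nat_lit 1260) (nat_lit 2) (nat_lit 0) (nat_lit 0) (nat_lit
  1) .nil) (.cons 31 (nat_lit 31) false V152 (nat_lit 620) (nat_lit 0) (nat_lit 0) (.cons V63
  (nat_lit 4340) (nat_lit 2) (nat_lit 1) (nat_lit 0) (nat_lit 1) (.cons V50 (nat_lit 5580)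
  (nat_lit 1) (nat_lit 2) (nat_lit 0) (nat_lit 2) .nil)) .nil)))⟩

noncomputable def tA171 : Test :=
  ⟨4, 5, (nat_lit 54180), V236, (nat_lit 20), (nat_lit 2), (nat_lit 0), (.cons 9 (nat_lit 3) true
  V194 (nat_lit 180) (nat_lit 2) (nat_lit 0) .nil (.cons 7 (nat_lit 7) true V204 (nat_lit 140)
  (nat_lit 1) (nat_lit 0) (.cons V117 (nat_lit 1260) (nat_lit 2) (nat_lit 0) (nat_lit 0) (nat_lit
  1) .nil) (.cons 43 (nat_lit 43) true V135 (nat_lit 860) (nat_lit 1) (nat_lit 0) (.cons V46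
  (nat_lit 6020) (nat_lit 2) (nat_lit 0) (nat_lit 0) (nat_lit 0) .nil) .nil)))⟩

noncomputable def tA172 : Test :=
  ⟨23, 1, (nat_lit 3059), V235, (nat_lit 23), (nat_lit 0), (nat_lit 0), (.cons 7 (nat_lit 7) false
  V197 (nat_lit 161) (nat_lit 0) (nat_lit 0) .nil (.cons 19 (nat_lit 19) false V167 (nat_lit 437)
  (nat_lit 0) (nat_lit 0) (.cons V79 (nat_lit 3059) (nat_lit 0) (nat_lit 0) (nat_lit 0) (nat_lit
  0) .nil) .nil))⟩

noncomputable def tA173 : Test :=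
  ⟨16, 5, (nat_lit 69160), V229, (nat_lit 40), (nat_lit 1), (nat_lit 0), (.cons 7 (nat_lit 7) true
  V182 (nat_lit 280) (nat_lit 0) (nat_lit 0) .nil (.cons 13 (nat_lit 13) true V157 (nat_lit 520)
  (nat_lit 1) (nat_lit 0) .nil (.cons 19 (nat_lit 19) true V141 (nat_lit 760) (nat_lit 2) (nat_lit
  0) (.skip (.cons V51 (nat_lit 5320) (nat_lit 1) (nat_lit 0) (nat_lit 0) (nat_lit 0) .nil))
  .nil)))⟩

noncomputable def tA174 : Test :=
  ⟨16, 5, (nat_lit 164920), V229, (nat_lit 40), (nat_lit 1), (nat_lit 0), (.cons 7 (nat_lit 7)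
  true V182 (nat_lit 280) (nat_lit 0) (nat_lit 0) .nil (.cons 19 (nat_lit 19) true V141 (nat_lit
  760) (nat_lit 2) (nat_lit 0) .nil (.cons 31 (nat_lit 31) false V118 (nat_lit 1240) (nat_lit 0)
  (nat_lit 0) (.skip (.cons V27 (nat_lit 8680) (nat_lit 1) (nat_lit 0) (nat_lit 0) (nat_lit 1)
  .nil)) .nil)))⟩

noncomputable def tA175 : Test :=
  ⟨4, 5, (nat_lit 7740), V236, (nat_lit 20), (nat_lit 2), (nat_lit 0), (.cons 9 (nat_lit 3) true
  V194 (nat_lit 180) (nat_lit 2) (nat_lit 0) .nil (.cons 43 (nat_lit 43) true V135 (nat_lit 860)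
  (nat_lit 1) (nat_lit 0) (.cons V32 (nat_lit 7740) (nat_lit 0) (nat_lit 0) (nat_lit 0) (nat_lit
  1) .nil) .nil))⟩

noncomputable def tA176 : Test :=
  ⟨4, 1, (nat_lit 42484), V242, (nat_lit 4), (nat_lit 1), (nat_lit 0), (.cons 13 (nat_lit 13) true
  V227 (nat_lit 52) (nat_lit 2) (nat_lit 0) .nil (.cons 19 (nat_lit 19) false V219 (nat_lit 76)
  (nat_lit 0) (nat_lit 0) (.cons V131 (nat_lit 988) (nat_lit 1) (nat_lit 2) (nat_lit 0) (nat_lit
  1) .nil) (.cons 43 (nat_lit 43) false V195 (nat_lit 172) (nat_lit 0) (nat_lit 0) (.skip (.cons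
  V91 (nat_lit 2236) (nat_lit 1) (nat_lit 2) (nat_lit 0) (nat_lit 1) .nil)) .nil)))⟩

noncomputable def tA177 : Test :=
  ⟨8, 11, (nat_lit 152152), V217, (nat_lit 88), (nat_lit 1), (nat_lit 0), (.cons 7 (nat_lit 7)
  false V153 (nat_lit 616) (nat_lit 0) (nat_lit 0) .nil (.cons 13 (nat_lit 13) true V121 (nat_lit
  1144) (nat_lit 0) (nat_lit 0) .nil (.cons 19 (nat_lit 19) true V105 (nat_lit 1672) (nat_lit 1)
  (nat_lit 0) (.skip (.cons V15 (nat_lit 11704) (nat_lit 0) (nat_lit 1) (nat_lit 0) (nat_lit 0)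
  .nil)) .nil)))⟩

noncomputable def tA178 : Test :=
  ⟨5, 11, (nat_lit 95095), V224, (nat_lit 55), (nat_lit 2), (nat_lit 0), (.cons 7 (nat_lit 7) true
  V170 (nat_lit 385) (nat_lit 0) (nat_lit 0) .nil (.cons 13 (nat_lit 13) true V147 (nat_lit 715)
  (nat_lit 1) (nat_lit 0) (.cons V55 (nat_lit 5005) (nat_lit 0) (nat_lit 0) (nat_lit 0) (nat_lit
  0) .nil) (.cons 19 (nat_lit 19) false V126 (nat_lit 1045) (nat_lit 0) (nat_lit 0) (.skip (.cons
  V34 (nat_lit 7315) (nat_lit 0) (nat_lit 0) (nat_lit 0) (nat_lit 0) .nil)) .nil)))⟩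

noncomputable def tA179 : Test :=
  ⟨16, 1, (nat_lit 17784), V240, (nat_lit 8), (nat_lit 1), (nat_lit 0), (.cons 9 (nat_lit 3) true
  V220 (nat_lit 72) (nat_lit 2) (nat_lit 0) .nil (.cons 13 (nat_lit 13) false V209 (nat_lit 104)
  (nat_lit 0) (nat_lit 0) (.cons V132 (nat_lit 936) (nat_lit 2) (nat_lit 2) (nat_lit 0) (nat_lit
  2) .nil) (.cons 19 (nat_lit 19) true V200 (nat_lit 152) (nat_lit 1) (nat_lit 0) (.skip (.cons
  V111 (nat_lit 1368) (nat_lit 1) (nat_lit 0) (nat_lit 0) (nat_lit 0) .nil)) .nil)))⟩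

noncomputable def tA180 : Test :=
  ⟨5, 11, (nat_lit 95095), V224, (nat_lit 55), (nat_lit 2), (nat_lit 0), (.cons 7 (nat_lit 7) true
  V170 (nat_lit 385) (nat_lit 0) (nat_lit 0) .nil (.cons 13 (nat_lit 13) true V147 (nat_lit 715)
  (nat_lit 1) (nat_lit 0) .nil (.cons 19 (nat_lit 19) false V126 (nat_lit 1045) (nat_lit 0)
  (nat_lit 0) (.cons V9 (nat_lit 13585) (nat_lit 2) (nat_lit 1) (nat_lit 0) (nat_lit 1) (.cons V34
  (nat_lit 7315) (nat_lit 0) (nat_lit 0) (nat_lit 0) (nat_lit 0) .nil)) .nil)))⟩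

noncomputable def tA181 : Test :=
  ⟨31, 1, (nat_lit 53599), V233, (nat_lit 31), (nat_lit 0), (nat_lit 0), (.cons 7 (nat_lit 7) true
  V190 (nat_lit 217) (nat_lit 1) (nat_lit 0) .nil (.cons 13 (nat_lit 13) false V168 (nat_lit 403)
  (nat_lit 0) (nat_lit 0) .nil (.cons 19 (nat_lit 19) true V154 (nat_lit 589) (nat_lit 1) (nat_lit
  0) (.skip (.cons V65 (nat_lit 4123) (nat_lit 1) (nat_lit 0) (nat_lit 0) (nat_lit 0) .nil))
  .nil)))⟩

noncomputable def tA182 : Test :=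
  ⟨4, 5, (nat_lit 16380), V236, (nat_lit 20), (nat_lit 2), (nat_lit 0), (.cons 9 (nat_lit 3) true
  V194 (nat_lit 180) (nat_lit 2) (nat_lit 0) .nil (.cons 7 (nat_lit 7) true V204 (nat_lit 140)
  (nat_lit 1) (nat_lit 0) .nil (.cons 13 (nat_lit 13) false V185 (nat_lit 260) (nat_lit 0)
  (nat_lit 0) (.cons V101 (nat_lit 1820) (nat_lit 0) (nat_lit 1) (nat_lit 0) (nat_lit 0) (.cons
  V90 (nat_lit 2340) (nat_lit 1) (nat_lit 2) (nat_lit 0) (nat_lit 2) .nil)) .nil)))⟩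

noncomputable def tA183 : Test :=
  ⟨8, 19, (nat_lit 124488), V199, (nat_lit 152), (nat_lit 0), (nat_lit 0), (.cons 9 (nat_lit 3)
  true V110 (nat_lit 1368) (nat_lit 2) (nat_lit 0) .nil (.cons 7 (nat_lit 7) true V125 (nat_lit
  1064) (nat_lit 1) (nat_lit 0) (.cons V21 (nat_lit 9576) (nat_lit 2) (nat_lit 0) (nat_lit 0)
  (nat_lit 1) .nil) (.cons 13 (nat_lit 13) true V96 (nat_lit 1976) (nat_lit 1) (nat_lit 0) .nil
  .nil)))⟩

noncomputable def tA184 : Test :=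
  ⟨8, 19, (nat_lit 296856), V199, (nat_lit 152), (nat_lit 0), (nat_lit 0), (.cons 9 (nat_lit 3)
  true V110 (nat_lit 1368) (nat_lit 2) (nat_lit 0) .nil (.cons 7 (nat_lit 7) true V125 (nat_lit
  1064) (nat_lit 1) (nat_lit 0) .nil (.cons 31 (nat_lit 31) false V57 (nat_lit 4712) (nat_lit 0)
  (nat_lit 0) .nil .nil)))⟩

noncomputable def tA185 : Test :=
  ⟨5, 19, (nat_lit 77805), V213, (nat_lit 95), (nat_lit 2), (nat_lit 0), (.cons 9 (nat_lit 3) true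
  V136 (nat_lit 855) (nat_lit 1) (nat_lit 0) .nil (.cons 7 (nat_lit 7) false V151 (nat_lit 665)
  (nat_lit 0) (nat_lit 0) .nil (.cons 13 (nat_lit 13) true V119 (nat_lit 1235) (nat_lit 1)
  (nat_lit 0) (.cons V28 (nat_lit 8645) (nat_lit 0) (nat_lit 1) (nat_lit 0) (nat_lit 0) (.cons V17
  (nat_lit 11115) (nat_lit 2) (nat_lit 0) (nat_lit 0) (nat_lit 2) .nil)) .nil)))⟩

noncomputable def tA186 : Test :=
  ⟨7, 1, (nat_lit 83979), V241, (nat_lit 7), (nat_lit 2), (nat_lit 0), (.cons 9 (nat_lit 3) false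
  V221 (nat_lit 63) (nat_lit 0) (nat_lit 0) .nil (.cons 31 (nat_lit 31) false V191 (nat_lit 217)
  (nat_lit 0) (nat_lit 0) .nil (.cons 43 (nat_lit 43) true V179 (nat_lit 301) (nat_lit 2) (nat_lit
  0) (.cons V22 (nat_lit 9331) (nat_lit 2) (nat_lit 2) (nat_lit 0) (nat_lit 1) (.cons V84 (nat_lit
  2709) (nat_lit 2) (nat_lit 2) (nat_lit 0) (nat_lit 1) .nil)) .nil)))⟩

noncomputable def tA187 : Test :=
  ⟨5, 11, (nat_lit 95095), V224, (nat_lit 55), (nat_lit 2), (nat_lit 0), (.cons 7 (nat_lit 7) true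
  V170 (nat_lit 385) (nat_lit 0) (nat_lit 0) .nil (.cons 13 (nat_lit 13) true V147 (nat_lit 715)
  (nat_lit 1) (nat_lit 0) .nil (.cons 19 (nat_lit 19) false V126 (nat_lit 1045) (nat_lit 0)
  (nat_lit 0) (.cons V9 (nat_lit 13585) (nat_lit 2) (nat_lit 1) (nat_lit 0) (nat_lit 1) .nil)
  .nil)))⟩

noncomputable def tA188 : Test :=
  ⟨5, 11, (nat_lit 226765), V224, (nat_lit 55), (nat_lit 2), (nat_lit 0), (.cons 7 (nat_lit 7)
  true V170 (nat_lit 385) (nat_lit 0) (nat_lit 0) .nil (.cons 19 (nat_lit 19) false V126 (nat_lit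
  1045) (nat_lit 0) (nat_lit 0) (.cons V34 (nat_lit 7315) (nat_lit 0) (nat_lit 0) (nat_lit 0)
  (nat_lit 0) .nil) (.cons 31 (nat_lit 31) true V104 (nat_lit 1705) (nat_lit 2) (nat_lit 0) .nil
  .nil)))⟩

noncomputable def tA189 : Test :=
  ⟨8, 19, (nat_lit 124488), V199, (nat_lit 152), (nat_lit 0), (nat_lit 0), (.cons 9 (nat_lit 3)
  true V110 (nat_lit 1368) (nat_lit 2) (nat_lit 0) .nil (.cons 7 (nat_lit 7) true V125 (nat_lit
  1064) (nat_lit 1) (nat_lit 0) .nil (.cons 13 (nat_lit 13) true V96 (nat_lit 1976) (nat_lit 1)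
  (nat_lit 0) (.cons V8 (nat_lit 13832) (nat_lit 1) (nat_lit 0) (nat_lit 0) (nat_lit 0) (.cons V1
  (nat_lit 17784) (nat_lit 2) (nat_lit 0) (nat_lit 0) (nat_lit 2) .nil)) .nil)))⟩

noncomputable def tA190 : Test :=
  ⟨11, 1, (nat_lit 13167), V239, (nat_lit 11), (nat_lit 1), (nat_lit 0), (.cons 9 (nat_lit 3) true
  V212 (nat_lit 99) (nat_lit 1) (nat_lit 0) .nil (.cons 7 (nat_lit 7) false V218 (nat_lit 77)
  (nat_lit 0) (nat_lit 0) (.cons V149 (nat_lit 693) (nat_lit 1) (nat_lit 1) (nat_lit 0) (nat_lit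
  1) .nil) (.cons 19 (nat_lit 19) false V192 (nat_lit 209) (nat_lit 0) (nat_lit 0) (.skip (.cons
  V100 (nat_lit 1881) (nat_lit 0) (nat_lit 1) (nat_lit 0) (nat_lit 0) .nil)) .nil)))⟩

noncomputable def tA191 : Test :=
  ⟨5, 7, (nat_lit 77805), V232, (nat_lit 35), (nat_lit 2), (nat_lit 0), (.cons 9 (nat_lit 3) true
  V178 (nat_lit 315) (nat_lit 0) (nat_lit 0) .nil (.cons 13 (nat_lit 13) true V164 (nat_lit 455)
  (nat_lit 2) (nat_lit 0) .nil (.cons 19 (nat_lit 19) false V150 (nat_lit 665) (nat_lit 0)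
  (nat_lit 0) (.cons V29 (nat_lit 8645) (nat_lit 2) (nat_lit 2) (nat_lit 0) (nat_lit 1) .nil)
  .nil)))⟩

noncomputable def tA192 : Test :=
  ⟨16, 5, (nat_lit 32760), V229, (nat_lit 40), (nat_lit 1), (nat_lit 0), (.cons 9 (nat_lit 3)
  false V175 (nat_lit 360) (nat_lit 0) (nat_lit 0) .nil (.cons 7 (nat_lit 7) true V182 (nat_lit
  280) (nat_lit 0) (nat_lit 0) (.cons V86 (nat_lit 2520) (nat_lit 1) (nat_lit 0) (nat_lit 0)
  (nat_lit 1) .nil) (.cons 13 (nat_lit 13) true V157 (nat_lit 520) (nat_lit 1) (nat_lit 0) (.cons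
  V72 (nat_lit 3640) (nat_lit 2) (nat_lit 0) (nat_lit 0) (nat_lit 0) (.cons V59 (nat_lit 4680)
  (nat_lit 2) (nat_lit 1) (nat_lit 0) (nat_lit 2) .nil)) .nil)))⟩

noncomputable def tA193 : Test :=
  ⟨4, 5, (nat_lit 16380), V236, (nat_lit 20), (nat_lit 2), (nat_lit 0), (.cons 9 (nat_lit 3) true
  V194 (nat_lit 180) (nat_lit 2) (nat_lit 0) .nil (.cons 7 (nat_lit 7) true V204 (nat_lit 140)
  (nat_lit 1) (nat_lit 0) .nil (.cons 13 (nat_lit 13) false V185 (nat_lit 260) (nat_lit 0)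
  (nat_lit 0) (.cons V101 (nat_lit 1820) (nat_lit 0) (nat_lit 1) (nat_lit 0) (nat_lit 0) .nil)
  .nil)))⟩

noncomputable def tA194 : Test :=
  ⟨4, 5, (nat_lit 16380), V236, (nat_lit 20), (nat_lit 2), (nat_lit 0), (.cons 9 (nat_lit 3) true
  V194 (nat_lit 180) (nat_lit 2) (nat_lit 0) .nil (.cons 7 (nat_lit 7) true V204 (nat_lit 140)
  (nat_lit 1) (nat_lit 0) (.cons V117 (nat_lit 1260) (nat_lit 2) (nat_lit 0) (nat_lit 0) (nat_lit
  1) .nil) (.cons 13 (nat_lit 13) false V185 (nat_lit 260) (nat_lit 0) (nat_lit 0) (.cons V101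
  (nat_lit 1820) (nat_lit 0) (nat_lit 1) (nat_lit 0) (nat_lit 0) .nil) .nil)))⟩

noncomputable def tA195 : Test :=
  ⟨5, 11, (nat_lit 45045), V224, (nat_lit 55), (nat_lit 2), (nat_lit 0), (.cons 9 (nat_lit 3)
  false V161 (nat_lit 495) (nat_lit 0) (nat_lit 0) .nil (.cons 7 (nat_lit 7) true V170 (nat_lit
  385) (nat_lit 0) (nat_lit 0) .nil (.cons 13 (nat_lit 13) true V147 (nat_lit 715) (nat_lit 1)
  (nat_lit 0) (.skip (.cons V44 (nat_lit 6435) (nat_lit 1) (nat_lit 1) (nat_lit 0) (nat_lit 2)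
  .nil)) .nil)))⟩

noncomputable def tA196 : Test :=
  ⟨16, 5, (nat_lit 32760), V229, (nat_lit 40), (nat_lit 1), (nat_lit 0), (.cons 9 (nat_lit 3)
  false V175 (nat_lit 360) (nat_lit 0) (nat_lit 0) .nil (.cons 7 (nat_lit 7) true V182 (nat_lit
  280) (nat_lit 0) (nat_lit 0) (.cons V86 (nat_lit 2520) (nat_lit 1) (nat_lit 0) (nat_lit 0)
  (nat_lit 1) .nil) (.cons 13 (nat_lit 13) true V157 (nat_lit 520) (nat_lit 1) (nat_lit 0) (.cons
  V72 (nat_lit 3640) (nat_lit 2) (nat_lit 0) (nat_lit 0) (nat_lit 0) .nil) .nil)))⟩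

noncomputable def tA197 : Test :=
  ⟨8, 11, (nat_lit 152152), V217, (nat_lit 88), (nat_lit 1), (nat_lit 0), (.cons 7 (nat_lit 7)
  false V153 (nat_lit 616) (nat_lit 0) (nat_lit 0) .nil (.cons 13 (nat_lit 13) true V121 (nat_lit
  1144) (nat_lit 0) (nat_lit 0) (.cons V31 (nat_lit 8008) (nat_lit 0) (nat_lit 0) (nat_lit 0)
  (nat_lit 0) .nil) (.cons 19 (nat_lit 19) true V105 (nat_lit 1672) (nat_lit 1) (nat_lit 0) .nil
  .nil)))⟩

noncomputable def tA198 : Test :=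
  ⟨4, 5, (nat_lit 114380), V236, (nat_lit 20), (nat_lit 2), (nat_lit 0), (.cons 7 (nat_lit 7) true
  V204 (nat_lit 140) (nat_lit 1) (nat_lit 0) .nil (.cons 19 (nat_lit 19) false V172 (nat_lit 380)
  (nat_lit 0) (nat_lit 0) (.cons V85 (nat_lit 2660) (nat_lit 0) (nat_lit 1) (nat_lit 0) (nat_lit
  0) .nil) (.cons 43 (nat_lit 43) true V135 (nat_lit 860) (nat_lit 1) (nat_lit 0) (.skip (.cons
  V46 (nat_lit 6020) (nat_lit 2) (nat_lit 0) (nat_lit 0) (nat_lit 0) .nil)) .nil)))⟩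

noncomputable def tA199 : Test :=
  ⟨16, 1, (nat_lit 84968), V240, (nat_lit 8), (nat_lit 1), (nat_lit 0), (.cons 13 (nat_lit 13)
  false V209 (nat_lit 104) (nat_lit 0) (nat_lit 0) .nil (.cons 19 (nat_lit 19) true V200 (nat_lit
  152) (nat_lit 1) (nat_lit 0) .nil (.cons 43 (nat_lit 43) true V176 (nat_lit 344) (nat_lit 1)
  (nat_lit 0) (.skip (.cons V61 (nat_lit 4472) (nat_lit 1) (nat_lit 1) (nat_lit 0) (nat_lit 1)
  .nil)) .nil)))⟩

noncomputable def tA200 : Test :=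
  ⟨5, 11, (nat_lit 95095), V224, (nat_lit 55), (nat_lit 2), (nat_lit 0), (.cons 7 (nat_lit 7) true
  V170 (nat_lit 385) (nat_lit 0) (nat_lit 0) .nil (.cons 13 (nat_lit 13) true V147 (nat_lit 715)
  (nat_lit 1) (nat_lit 0) (.cons V55 (nat_lit 5005) (nat_lit 0) (nat_lit 0) (nat_lit 0) (nat_lit
  0) .nil) (.cons 19 (nat_lit 19) false V126 (nat_lit 1045) (nat_lit 0) (nat_lit 0) (.cons V9
  (nat_lit 13585) (nat_lit 2) (nat_lit 1) (nat_lit 0) (nat_lit 1) .nil) .nil)))⟩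

noncomputable def tA201 : Test :=
  ⟨11, 1, (nat_lit 58311), V239, (nat_lit 11), (nat_lit 1), (nat_lit 0), (.cons 9 (nat_lit 3) true
  V212 (nat_lit 99) (nat_lit 1) (nat_lit 0) .nil (.cons 19 (nat_lit 19) false V192 (nat_lit 209)
  (nat_lit 0) (nat_lit 0) .nil (.cons 31 (nat_lit 31) true V177 (nat_lit 341) (nat_lit 2) (nat_lit
  0) (.cons V43 (nat_lit 6479) (nat_lit 0) (nat_lit 2) (nat_lit 0) (nat_lit 0) (.cons V78 (nat_lit
  3069) (nat_lit 1) (nat_lit 0) (nat_lit 0) (nat_lit 2) .nil)) .nil)))⟩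

noncomputable def tA202 : Test :=
  ⟨4, 5, (nat_lit 78260), V236, (nat_lit 20), (nat_lit 2), (nat_lit 0), (.cons 7 (nat_lit 7) true
  V204 (nat_lit 140) (nat_lit 1) (nat_lit 0) .nil (.cons 13 (nat_lit 13) false V185 (nat_lit 260)
  (nat_lit 0) (nat_lit 0) (.cons V101 (nat_lit 1820) (nat_lit 0) (nat_lit 1) (nat_lit 0) (nat_lit
  0) .nil) (.cons 43 (nat_lit 43) true V135 (nat_lit 860) (nat_lit 1) (nat_lit 0) (.skip (.cons
  V46 (nat_lit 6020) (nat_lit 2) (nat_lit 0) (nat_lit 0) (nat_lit 0) .nil)) .nil)))⟩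

noncomputable def tA203 : Test :=
  ⟨31, 1, (nat_lit 37107), V233, (nat_lit 31), (nat_lit 0), (nat_lit 0), (.cons 9 (nat_lit 3)
  false V184 (nat_lit 279) (nat_lit 0) (nat_lit 0) .nil (.cons 7 (nat_lit 7) true V190 (nat_lit
  217) (nat_lit 1) (nat_lit 0) (.cons V99 (nat_lit 1953) (nat_lit 0) (nat_lit 1) (nat_lit 0)
  (nat_lit 1) .nil) (.cons 19 (nat_lit 19) true V154 (nat_lit 589) (nat_lit 1) (nat_lit 0) (.skip
  (.cons V53 (nat_lit 5301) (nat_lit 0) (nat_lit 1) (nat_lit 0) (nat_lit 0) .nil)) .nil)))⟩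

noncomputable def tA204 : Test :=
  ⟨16, 5, (nat_lit 112840), V229, (nat_lit 40), (nat_lit 1), (nat_lit 0), (.cons 7 (nat_lit 7)
  true V182 (nat_lit 280) (nat_lit 0) (nat_lit 0) .nil (.cons 13 (nat_lit 13) true V157 (nat_lit
  520) (nat_lit 1) (nat_lit 0) .nil (.cons 31 (nat_lit 31) false V118 (nat_lit 1240) (nat_lit 0)
  (nat_lit 0) (.skip (.cons V27 (nat_lit 8680) (nat_lit 1) (nat_lit 0) (nat_lit 0) (nat_lit 1)
  .nil)) .nil)))⟩

noncomputable def tA205 : Test :=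
  ⟨11, 1, (nat_lit 58311), V239, (nat_lit 11), (nat_lit 1), (nat_lit 0), (.cons 9 (nat_lit 3) true
  V212 (nat_lit 99) (nat_lit 1) (nat_lit 0) .nil (.cons 19 (nat_lit 19) false V192 (nat_lit 209)
  (nat_lit 0) (nat_lit 0) (.cons V100 (nat_lit 1881) (nat_lit 0) (nat_lit 1) (nat_lit 0) (nat_lit
  0) .nil) (.cons 31 (nat_lit 31) true V177 (nat_lit 341) (nat_lit 2) (nat_lit 0) .nil .nil)))⟩

noncomputable def tA206 : Test :=
  ⟨16, 5, (nat_lit 88920), V229, (nat_lit 40), (nat_lit 1), (nat_lit 0), (.cons 9 (nat_lit 3)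
  false V175 (nat_lit 360) (nat_lit 0) (nat_lit 0) .nil (.cons 13 (nat_lit 13) true V157 (nat_lit
  520) (nat_lit 1) (nat_lit 0) .nil (.cons 19 (nat_lit 19) true V141 (nat_lit 760) (nat_lit 2)
  (nat_lit 0) (.skip (.cons V37 (nat_lit 6840) (nat_lit 0) (nat_lit 2) (nat_lit 0) (nat_lit 0)
  .nil)) .nil)))⟩

noncomputable def tA207 : Test :=
  ⟨16, 1, (nat_lit 21672), V240, (nat_lit 8), (nat_lit 1), (nat_lit 0), (.cons 9 (nat_lit 3) true
  V220 (nat_lit 72) (nat_lit 2) (nat_lit 0) .nil (.cons 7 (nat_lit 7) false V223 (nat_lit 56)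
  (nat_lit 0) (nat_lit 0) (.cons V160 (nat_lit 504) (nat_lit 1) (nat_lit 2) (nat_lit 0) (nat_lit
  1) .nil) (.cons 43 (nat_lit 43) true V176 (nat_lit 344) (nat_lit 1) (nat_lit 0) (.cons V87
  (nat_lit 2408) (nat_lit 0) (nat_lit 1) (nat_lit 0) (nat_lit 0) .nil) .nil)))⟩

noncomputable def tA208 : Test :=
  ⟨5, 11, (nat_lit 45045), V224, (nat_lit 55), (nat_lit 2), (nat_lit 0), (.cons 9 (nat_lit 3)
  false V161 (nat_lit 495) (nat_lit 0) (nat_lit 0) .nil (.cons 7 (nat_lit 7) true V170 (nat_lit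
  385) (nat_lit 0) (nat_lit 0) (.cons V74 (nat_lit 3465) (nat_lit 2) (nat_lit 0) (nat_lit 0)
  (nat_lit 1) .nil) (.cons 13 (nat_lit 13) true V147 (nat_lit 715) (nat_lit 1) (nat_lit 0) (.skip
  (.cons V44 (nat_lit 6435) (nat_lit 1) (nat_lit 1) (nat_lit 0) (nat_lit 2) .nil)) .nil)))⟩

noncomputable def tA209 : Test :=
  ⟨11, 1, (nat_lit 24453), V239, (nat_lit 11), (nat_lit 1), (nat_lit 0), (.cons 9 (nat_lit 3) true
  V212 (nat_lit 99) (nat_lit 1) (nat_lit 0) .nil (.cons 13 (nat_lit 13) false V201 (nat_lit 143)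
  (nat_lit 0) (nat_lit 0) (.cons V114 (nat_lit 1287) (nat_lit 2) (nat_lit 1) (nat_lit 0) (nat_lit
  2) .nil) (.cons 19 (nat_lit 19) false V192 (nat_lit 209) (nat_lit 0) (nat_lit 0) (.skip (.cons
  V100 (nat_lit 1881) (nat_lit 0) (nat_lit 1) (nat_lit 0) (nat_lit 0) .nil)) .nil)))⟩

noncomputable def tA210 : Test :=
  ⟨31, 1, (nat_lit 482391), V233, (nat_lit 31), (nat_lit 0), (nat_lit 0), (.cons 9 (nat_lit 3)
  false V184 (nat_lit 279) (nat_lit 0) (nat_lit 0) .nil (.cons 7 (nat_lit 7) true V190 (nat_lit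
  217) (nat_lit 1) (nat_lit 0) .nil (.cons 13 (nat_lit 13) false V168 (nat_lit 403) (nat_lit 0)
  (nat_lit 0) (.skip (.cons V73 (nat_lit 3627) (nat_lit 0) (nat_lit 0) (nat_lit 0) (nat_lit 2)
  .nil)) (.cons 19 (nat_lit 19) true V154 (nat_lit 589) (nat_lit 1) (nat_lit 0) .nil .nil))))⟩

noncomputable def tA211 : Test :=
  ⟨4, 5, (nat_lit 72540), V236, (nat_lit 20), (nat_lit 2), (nat_lit 0), (.cons 9 (nat_lit 3) true
  V194 (nat_lit 180) (nat_lit 2) (nat_lit 0) .nil (.cons 13 (nat_lit 13) false V185 (nat_lit 260)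
  (nat_lit 0) (nat_lit 0) (.cons V90 (nat_lit 2340) (nat_lit 1) (nat_lit 2) (nat_lit 0) (nat_lit
  2) .nil) (.cons 31 (nat_lit 31) false V152 (nat_lit 620) (nat_lit 0) (nat_lit 0) (.skip (.cons
  V50 (nat_lit 5580) (nat_lit 1) (nat_lit 2) (nat_lit 0) (nat_lit 2) .nil)) .nil)))⟩

noncomputable def tA212 : Test :=
  ⟨16, 1, (nat_lit 42408), V240, (nat_lit 8), (nat_lit 1), (nat_lit 0), (.cons 9 (nat_lit 3) true
  V220 (nat_lit 72) (nat_lit 2) (nat_lit 0) .nil (.cons 19 (nat_lit 19) true V200 (nat_lit 152)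
  (nat_lit 1) (nat_lit 0) (.cons V111 (nat_lit 1368) (nat_lit 1) (nat_lit 0) (nat_lit 0) (nat_lit
  0) .nil) (.cons 31 (nat_lit 31) false V187 (nat_lit 248) (nat_lit 0) (nat_lit 0) (.cons V58
  (nat_lit 4712) (nat_lit 0) (nat_lit 1) (nat_lit 0) (nat_lit 0) (.cons V93 (nat_lit 2232)
  (nat_lit 2) (nat_lit 2) (nat_lit 0) (nat_lit 2) .nil)) .nil)))⟩

noncomputable def tA213 : Test :=
  ⟨31, 1, (nat_lit 37107), V233, (nat_lit 31), (nat_lit 0), (nat_lit 0), (.cons 9 (nat_lit 3)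
  false V184 (nat_lit 279) (nat_lit 0) (nat_lit 0) .nil (.cons 7 (nat_lit 7) true V190 (nat_lit
  217) (nat_lit 1) (nat_lit 0) .nil (.cons 19 (nat_lit 19) true V154 (nat_lit 589) (nat_lit 1)
  (nat_lit 0) (.cons V65 (nat_lit 4123) (nat_lit 1) (nat_lit 0) (nat_lit 0) (nat_lit 0) .nil)
  .nil)))⟩

noncomputable def tA214 : Test :=
  ⟨43, 1, (nat_lit 121303), V228, (nat_lit 43), (nat_lit 2), (nat_lit 0), (.cons 7 (nat_lit 7)
  false V180 (nat_lit 301) (nat_lit 0) (nat_lit 0) .nil (.cons 13 (nat_lit 13) true V156 (nat_lit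
  559) (nat_lit 2) (nat_lit 0) (.cons V70 (nat_lit 3913) (nat_lit 0) (nat_lit 2) (nat_lit 0)
  (nat_lit 0) .nil) (.cons 31 (nat_lit 31) true V113 (nat_lit 1333) (nat_lit 1) (nat_lit 0) (.skip
  (.cons V23 (nat_lit 9331) (nat_lit 2) (nat_lit 1) (nat_lit 0) (nat_lit 1) .nil)) .nil)))⟩

noncomputable def tA215 : Test :=
  ⟨23, 1, (nat_lit 6923), V235, (nat_lit 23), (nat_lit 0), (nat_lit 0), (.cons 7 (nat_lit 7) false
  V197 (nat_lit 161) (nat_lit 0) (nat_lit 0) .nil (.cons 43 (nat_lit 43) false V129 (nat_lit 989)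
  (nat_lit 0) (nat_lit 0) (.cons V35 (nat_lit 6923) (nat_lit 0) (nat_lit 0) (nat_lit 0) (nat_lit
  0) .nil) .nil))⟩

noncomputable def tA216 : Test :=
  ⟨8, 19, (nat_lit 428792), V199, (nat_lit 152), (nat_lit 0), (nat_lit 0), (.cons 7 (nat_lit 7)
  true V125 (nat_lit 1064) (nat_lit 1) (nat_lit 0) .nil (.cons 13 (nat_lit 13) true V96 (nat_lit
  1976) (nat_lit 1) (nat_lit 0) .nil (.cons 31 (nat_lit 31) false V57 (nat_lit 4712) (nat_lit 0)
  (nat_lit 0) .nil .nil)))⟩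

noncomputable def tA217 : Test :=
  ⟨19, 1, (nat_lit 74347), V238, (nat_lit 19), (nat_lit 2), (nat_lit 0), (.cons 7 (nat_lit 7) true
  V206 (nat_lit 133) (nat_lit 2) (nat_lit 0) .nil (.cons 13 (nat_lit 13) false V188 (nat_lit 247)
  (nat_lit 0) (nat_lit 0) (.cons V102 (nat_lit 1729) (nat_lit 0) (nat_lit 2) (nat_lit 0) (nat_lit
  0) .nil) (.cons 43 (nat_lit 43) true V138 (nat_lit 817) (nat_lit 0) (nat_lit 0) .nil .nil)))⟩

noncomputable def tA218 : Test :=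
  ⟨16, 5, (nat_lit 69160), V229, (nat_lit 40), (nat_lit 1), (nat_lit 0), (.cons 7 (nat_lit 7) true
  V182 (nat_lit 280) (nat_lit 0) (nat_lit 0) .nil (.cons 13 (nat_lit 13) true V157 (nat_lit 520)
  (nat_lit 1) (nat_lit 0) (.cons V72 (nat_lit 3640) (nat_lit 2) (nat_lit 0) (nat_lit 0) (nat_lit
  0) .nil) (.cons 19 (nat_lit 19) true V141 (nat_lit 760) (nat_lit 2) (nat_lit 0) (.cons V19
  (nat_lit 9880) (nat_lit 0) (nat_lit 0) (nat_lit 0) (nat_lit 1) (.cons V51 (nat_lit 5320)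
  (nat_lit 1) (nat_lit 0) (nat_lit 0) (nat_lit 0) .nil)) .nil)))⟩

noncomputable def tA219 : Test :=
  ⟨23, 1, (nat_lit 3059), V235, (nat_lit 23), (nat_lit 0), (nat_lit 0), (.cons 7 (nat_lit 7) false
  V197 (nat_lit 161) (nat_lit 0) (nat_lit 0) .nil (.cons 19 (nat_lit 19) false V167 (nat_lit 437)
  (nat_lit 0) (nat_lit 0) .nil .nil))⟩

noncomputable def tA220 : Test :=
  ⟨16, 1, (nat_lit 58824), V240, (nat_lit 8), (nat_lit 1), (nat_lit 0), (.cons 9 (nat_lit 3) true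
  V220 (nat_lit 72) (nat_lit 2) (nat_lit 0) .nil (.cons 19 (nat_lit 19) true V200 (nat_lit 152)
  (nat_lit 1) (nat_lit 0) .nil (.cons 43 (nat_lit 43) true V176 (nat_lit 344) (nat_lit 1) (nat_lit
  0) (.cons V41 (nat_lit 6536) (nat_lit 2) (nat_lit 0) (nat_lit 0) (nat_lit 1) .nil) .nil)))⟩

noncomputable def tA221 : Test :=
  ⟨16, 5, (nat_lit 164920), V229, (nat_lit 40), (nat_lit 1), (nat_lit 0), (.cons 7 (nat_lit 7)
  true V182 (nat_lit 280) (nat_lit 0) (nat_lit 0) .nil (.cons 19 (nat_lit 19) true V141 (nat_lit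
  760) (nat_lit 2) (nat_lit 0) (.cons V51 (nat_lit 5320) (nat_lit 1) (nat_lit 0) (nat_lit 0)
  (nat_lit 0) .nil) (.cons 31 (nat_lit 31) false V118 (nat_lit 1240) (nat_lit 0) (nat_lit 0)
  (.skip (.cons V27 (nat_lit 8680) (nat_lit 1) (nat_lit 0) (nat_lit 0) (nat_lit 1) .nil)) .nil)))⟩

noncomputable def tA222 : Test :=
  ⟨16, 5, (nat_lit 47880), V229, (nat_lit 40), (nat_lit 1), (nat_lit 0), (.cons 9 (nat_lit 3)
  false V175 (nat_lit 360) (nat_lit 0) (nat_lit 0) .nil (.cons 7 (nat_lit 7) true V182 (nat_lit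
  280) (nat_lit 0) (nat_lit 0) (.cons V86 (nat_lit 2520) (nat_lit 1) (nat_lit 0) (nat_lit 0)
  (nat_lit 1) .nil) (.cons 19 (nat_lit 19) true V141 (nat_lit 760) (nat_lit 2) (nat_lit 0) (.cons
  V51 (nat_lit 5320) (nat_lit 1) (nat_lit 0) (nat_lit 0) (nat_lit 0) (.cons V37 (nat_lit 6840)
  (nat_lit 0) (nat_lit 2) (nat_lit 0) (nat_lit 0) .nil)) .nil)))⟩

noncomputable def tA223 : Test :=
  ⟨4, 5, (nat_lit 114380), V236, (nat_lit 20), (nat_lit 2), (nat_lit 0), (.cons 7 (nat_lit 7) true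
  V204 (nat_lit 140) (nat_lit 1) (nat_lit 0) .nil (.cons 19 (nat_lit 19) false V172 (nat_lit 380)
  (nat_lit 0) (nat_lit 0) (.cons V85 (nat_lit 2660) (nat_lit 0) (nat_lit 1) (nat_lit 0) (nat_lit
  0) .nil) (.cons 43 (nat_lit 43) true V135 (nat_lit 860) (nat_lit 1) (nat_lit 0) .nil .nil)))⟩

noncomputable def tA224 : Test :=
  ⟨4, 5, (nat_lit 23940), V236, (nat_lit 20), (nat_lit 2), (nat_lit 0), (.cons 9 (nat_lit 3) true
  V194 (nat_lit 180) (nat_lit 2) (nat_lit 0) .nil (.cons 7 (nat_lit 7) true V204 (nat_lit 140)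
  (nat_lit 1) (nat_lit 0) .nil (.cons 19 (nat_lit 19) false V172 (nat_lit 380) (nat_lit 0)
  (nat_lit 0) (.cons V85 (nat_lit 2660) (nat_lit 0) (nat_lit 1) (nat_lit 0) (nat_lit 0) (.cons V75
  (nat_lit 3420) (nat_lit 0) (nat_lit 2) (nat_lit 0) (nat_lit 0) .nil)) .nil)))⟩

noncomputable def tA225 : Test :=
  ⟨16, 5, (nat_lit 32760), V229, (nat_lit 40), (nat_lit 1), (nat_lit 0), (.cons 9 (nat_lit 3)
  false V175 (nat_lit 360) (nat_lit 0) (nat_lit 0) .nil (.cons 7 (nat_lit 7) true V182 (nat_lit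
  280) (nat_lit 0) (nat_lit 0) (.cons V86 (nat_lit 2520) (nat_lit 1) (nat_lit 0) (nat_lit 0)
  (nat_lit 1) .nil) (.cons 13 (nat_lit 13) true V157 (nat_lit 520) (nat_lit 1) (nat_lit 0) .nil
  .nil)))⟩

noncomputable def tA226 : Test :=
  ⟨5, 19, (nat_lit 77805), V213, (nat_lit 95), (nat_lit 2), (nat_lit 0), (.cons 9 (nat_lit 3) true
  V136 (nat_lit 855) (nat_lit 1) (nat_lit 0) .nil (.cons 7 (nat_lit 7) false V151 (nat_lit 665)
  (nat_lit 0) (nat_lit 0) (.cons V48 (nat_lit 5985) (nat_lit 2) (nat_lit 1) (nat_lit 0) (nat_lit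
  1) .nil) (.cons 13 (nat_lit 13) true V119 (nat_lit 1235) (nat_lit 1) (nat_lit 0) (.cons V28
  (nat_lit 8645) (nat_lit 0) (nat_lit 1) (nat_lit 0) (nat_lit 0) .nil) .nil)))⟩

noncomputable def tA227 : Test :=
  ⟨8, 19, (nat_lit 124488), V199, (nat_lit 152), (nat_lit 0), (nat_lit 0), (.cons 9 (nat_lit 3)
  true V110 (nat_lit 1368) (nat_lit 2) (nat_lit 0) .nil (.cons 7 (nat_lit 7) true V125 (nat_lit
  1064) (nat_lit 1) (nat_lit 0) .nil (.cons 13 (nat_lit 13) true V96 (nat_lit 1976) (nat_lit 1)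
  (nat_lit 0) (.skip (.cons V1 (nat_lit 17784) (nat_lit 2) (nat_lit 0) (nat_lit 0) (nat_lit 2)
  .nil)) .nil)))⟩

noncomputable def tA228 : Test :=
  ⟨5, 11, (nat_lit 215215), V224, (nat_lit 55), (nat_lit 2), (nat_lit 0), (.cons 7 (nat_lit 7)
  true V170 (nat_lit 385) (nat_lit 0) (nat_lit 0) .nil (.cons 13 (nat_lit 13) true V147 (nat_lit
  715) (nat_lit 1) (nat_lit 0) (.cons V55 (nat_lit 5005) (nat_lit 0) (nat_lit 0) (nat_lit 0)
  (nat_lit 0) .nil) (.cons 43 (nat_lit 43) true V89 (nat_lit 2365) (nat_lit 0) (nat_lit 0) .nil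
  .nil)))⟩

noncomputable def tA229 : Test :=
  ⟨31, 1, (nat_lit 482391), V233, (nat_lit 31), (nat_lit 0), (nat_lit 0), (.cons 9 (nat_lit 3)
  false V184 (nat_lit 279) (nat_lit 0) (nat_lit 0) .nil (.cons 7 (nat_lit 7) true V190 (nat_lit
  217) (nat_lit 1) (nat_lit 0) .nil (.cons 13 (nat_lit 13) false V168 (nat_lit 403) (nat_lit 0)
  (nat_lit 0) (.cons V80 (nat_lit 2821) (nat_lit 0) (nat_lit 1) (nat_lit 0) (nat_lit 0) (.cons V73
  (nat_lit 3627) (nat_lit 0) (nat_lit 0) (nat_lit 0) (nat_lit 2) .nil)) (.cons 19 (nat_lit 19)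
  true V154 (nat_lit 589) (nat_lit 1) (nat_lit 0) (.cons V33 (nat_lit 7657) (nat_lit 0) (nat_lit
  1) (nat_lit 0) (nat_lit 1) .nil) .nil))))⟩

noncomputable def tA230 : Test :=
  ⟨5, 19, (nat_lit 77805), V213, (nat_lit 95), (nat_lit 2), (nat_lit 0), (.cons 9 (nat_lit 3) true
  V136 (nat_lit 855) (nat_lit 1) (nat_lit 0) .nil (.cons 7 (nat_lit 7) false V151 (nat_lit 665)
  (nat_lit 0) (nat_lit 0) .nil (.cons 13 (nat_lit 13) true V119 (nat_lit 1235) (nat_lit 1)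
  (nat_lit 0) (.cons V28 (nat_lit 8645) (nat_lit 0) (nat_lit 1) (nat_lit 0) (nat_lit 0) .nil)
  .nil)))⟩

noncomputable def tA231 : Test :=
  ⟨11, 1, (nat_lit 21483), V239, (nat_lit 11), (nat_lit 1), (nat_lit 0), (.cons 9 (nat_lit 3) true
  V212 (nat_lit 99) (nat_lit 1) (nat_lit 0) .nil (.cons 7 (nat_lit 7) false V218 (nat_lit 77)
  (nat_lit 0) (nat_lit 0) .nil (.cons 31 (nat_lit 31) true V177 (nat_lit 341) (nat_lit 2) (nat_lit
  0) (.cons V88 (nat_lit 2387) (nat_lit 1) (nat_lit 2) (nat_lit 0) (nat_lit 1) .nil) .nil)))⟩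

noncomputable def tA232 : Test :=
  ⟨16, 5, (nat_lit 47880), V229, (nat_lit 40), (nat_lit 1), (nat_lit 0), (.cons 9 (nat_lit 3)
  false V175 (nat_lit 360) (nat_lit 0) (nat_lit 0) .nil (.cons 7 (nat_lit 7) true V182 (nat_lit
  280) (nat_lit 0) (nat_lit 0) (.cons V86 (nat_lit 2520) (nat_lit 1) (nat_lit 0) (nat_lit 0)
  (nat_lit 1) .nil) (.cons 19 (nat_lit 19) true V141 (nat_lit 760) (nat_lit 2) (nat_lit 0) .nil
  .nil)))⟩

noncomputable def tA233 : Test :=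
  ⟨4, 5, (nat_lit 54180), V236, (nat_lit 20), (nat_lit 2), (nat_lit 0), (.cons 9 (nat_lit 3) true
  V194 (nat_lit 180) (nat_lit 2) (nat_lit 0) .nil (.cons 7 (nat_lit 7) true V204 (nat_lit 140)
  (nat_lit 1) (nat_lit 0) .nil (.cons 43 (nat_lit 43) true V135 (nat_lit 860) (nat_lit 1) (nat_lit
  0) (.skip (.cons V32 (nat_lit 7740) (nat_lit 0) (nat_lit 0) (nat_lit 0) (nat_lit 1) .nil))
  .nil)))⟩

noncomputable def tA234 : Test :=
  ⟨8, 19, (nat_lit 124488), V199, (nat_lit 152), (nat_lit 0), (nat_lit 0), (.cons 9 (nat_lit 3)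
  true V110 (nat_lit 1368) (nat_lit 2) (nat_lit 0) .nil (.cons 7 (nat_lit 7) true V125 (nat_lit
  1064) (nat_lit 1) (nat_lit 0) (.cons V21 (nat_lit 9576) (nat_lit 2) (nat_lit 0) (nat_lit 0)
  (nat_lit 1) .nil) (.cons 13 (nat_lit 13) true V96 (nat_lit 1976) (nat_lit 1) (nat_lit 0) (.cons
  V8 (nat_lit 13832) (nat_lit 1) (nat_lit 0) (nat_lit 0) (nat_lit 0) .nil) .nil)))⟩

noncomputable def tA235 : Test :=
  ⟨4, 5, (nat_lit 147060), V236, (nat_lit 20), (nat_lit 2), (nat_lit 0), (.cons 9 (nat_lit 3) true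
  V194 (nat_lit 180) (nat_lit 2) (nat_lit 0) .nil (.cons 19 (nat_lit 19) false V172 (nat_lit 380)
  (nat_lit 0) (nat_lit 0) (.cons V75 (nat_lit 3420) (nat_lit 0) (nat_lit 2) (nat_lit 0) (nat_lit
  0) .nil) (.cons 43 (nat_lit 43) true V135 (nat_lit 860) (nat_lit 1) (nat_lit 0) .nil .nil)))⟩

noncomputable def tA236 : Test :=
  ⟨5, 19, (nat_lit 77805), V213, (nat_lit 95), (nat_lit 2), (nat_lit 0), (.cons 9 (nat_lit 3) true
  V136 (nat_lit 855) (nat_lit 1) (nat_lit 0) .nil (.cons 7 (nat_lit 7) false V151 (nat_lit 665)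
  (nat_lit 0) (nat_lit 0) (.cons V48 (nat_lit 5985) (nat_lit 2) (nat_lit 1) (nat_lit 0) (nat_lit
  1) .nil) (.cons 13 (nat_lit 13) true V119 (nat_lit 1235) (nat_lit 1) (nat_lit 0) (.cons V28
  (nat_lit 8645) (nat_lit 0) (nat_lit 1) (nat_lit 0) (nat_lit 0) (.cons V17 (nat_lit 11115)
  (nat_lit 2) (nat_lit 0) (nat_lit 0) (nat_lit 2) .nil)) .nil)))⟩

noncomputable def tA237 : Test :=
  ⟨16, 5, (nat_lit 4852120), V229, (nat_lit 40), (nat_lit 1), (nat_lit 0), (.cons 7 (nat_lit 7)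
  true V182 (nat_lit 280) (nat_lit 0) (nat_lit 0) .nil (.cons 13 (nat_lit 13) true V157 (nat_lit
  520) (nat_lit 1) (nat_lit 0) (.cons V72 (nat_lit 3640) (nat_lit 2) (nat_lit 0) (nat_lit 0)
  (nat_lit 0) .nil) (.cons 31 (nat_lit 31) false V118 (nat_lit 1240) (nat_lit 0) (nat_lit 0)
  (.cons V3 (nat_lit 16120) (nat_lit 0) (nat_lit 1) (nat_lit 0) (nat_lit 0) .nil) (.cons 43
  (nat_lit 43) false V103 (nat_lit 1720) (nat_lit 0) (nat_lit 0) (.skip (.skip (.cons V11 (nat_lit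
  12040) (nat_lit 0) (nat_lit 0) (nat_lit 0) (nat_lit 0) .nil))) .nil))))⟩

noncomputable def tA238 : Test :=
  ⟨16, 5, (nat_lit 228760), V229, (nat_lit 40), (nat_lit 1), (nat_lit 0), (.cons 7 (nat_lit 7)
  true V182 (nat_lit 280) (nat_lit 0) (nat_lit 0) .nil (.cons 19 (nat_lit 19) true V141 (nat_lit
  760) (nat_lit 2) (nat_lit 0) .nil (.cons 43 (nat_lit 43) false V103 (nat_lit 1720) (nat_lit 0)
  (nat_lit 0) (.skip (.cons V11 (nat_lit 12040) (nat_lit 0) (nat_lit 0) (nat_lit 0) (nat_lit 0)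
  .nil)) .nil)))⟩

noncomputable def tA239 : Test :=
  ⟨31, 1, (nat_lit 37107), V233, (nat_lit 31), (nat_lit 0), (nat_lit 0), (.cons 9 (nat_lit 3)
  false V184 (nat_lit 279) (nat_lit 0) (nat_lit 0) .nil (.cons 7 (nat_lit 7) true V190 (nat_lit
  217) (nat_lit 1) (nat_lit 0) .nil (.cons 19 (nat_lit 19) true V154 (nat_lit 589) (nat_lit 1)
  (nat_lit 0) .nil .nil)))⟩

noncomputable def tA240 : Test :=
  ⟨4, 13, (nat_lit 485212), V226, (nat_lit 52), (nat_lit 1), (nat_lit 0), (.cons 7 (nat_lit 7)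
  true V173 (nat_lit 364) (nat_lit 1) (nat_lit 0) .nil (.cons 31 (nat_lit 31) true V107 (nat_lit
  1612) (nat_lit 1) (nat_lit 0) .nil (.cons 43 (nat_lit 43) false V92 (nat_lit 2236) (nat_lit 0)
  (nat_lit 0) (.skip (.cons V4 (nat_lit 15652) (nat_lit 0) (nat_lit 1) (nat_lit 0) (nat_lit 0)
  .nil)) .nil)))⟩

noncomputable def tA241 : Test :=
  ⟨11, 1, (nat_lit 55341), V239, (nat_lit 11), (nat_lit 1), (nat_lit 0), (.cons 9 (nat_lit 3) true
  V212 (nat_lit 99) (nat_lit 1) (nat_lit 0) .nil (.cons 13 (nat_lit 13) false V201 (nat_lit 143)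
  (nat_lit 0) (nat_lit 0) (.cons V114 (nat_lit 1287) (nat_lit 2) (nat_lit 1) (nat_lit 0) (nat_lit
  2) .nil) (.cons 43 (nat_lit 43) false V162 (nat_lit 473) (nat_lit 0) (nat_lit 0) (.skip (.cons
  V64 (nat_lit 4257) (nat_lit 1) (nat_lit 1) (nat_lit 0) (nat_lit 1) .nil)) .nil)))⟩

noncomputable def tA242 : Test :=
  ⟨16, 13, (nat_lit 124488), V210, (nat_lit 104), (nat_lit 0), (nat_lit 0), (.cons 9 (nat_lit 3)
  true V133 (nat_lit 936) (nat_lit 2) (nat_lit 0) .nil (.cons 7 (nat_lit 7) true V144 (nat_lit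
  728) (nat_lit 2) (nat_lit 0) .nil (.cons 19 (nat_lit 19) false V98 (nat_lit 1976) (nat_lit 0)
  (nat_lit 0) .nil .nil)))⟩

noncomputable def tA243 : Test :=
  ⟨4, 5, (nat_lit 114380), V236, (nat_lit 20), (nat_lit 2), (nat_lit 0), (.cons 7 (nat_lit 7) true
  V204 (nat_lit 140) (nat_lit 1) (nat_lit 0) .nil (.cons 19 (nat_lit 19) false V172 (nat_lit 380)
  (nat_lit 0) (nat_lit 0) .nil (.cons 43 (nat_lit 43) true V135 (nat_lit 860) (nat_lit 1) (nat_lit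
  0) (.cons V2 (nat_lit 16340) (nat_lit 2) (nat_lit 1) (nat_lit 0) (nat_lit 1) .nil) .nil)))⟩

noncomputable def tA244 : Test :=
  ⟨4, 5, (nat_lit 147060), V236, (nat_lit 20), (nat_lit 2), (nat_lit 0), (.cons 9 (nat_lit 3) true
  V194 (nat_lit 180) (nat_lit 2) (nat_lit 0) .nil (.cons 19 (nat_lit 19) false V172 (nat_lit 380)
  (nat_lit 0) (nat_lit 0) (.cons V75 (nat_lit 3420) (nat_lit 0) (nat_lit 2) (nat_lit 0) (nat_lit
  0) .nil) (.cons 43 (nat_lit 43) true V135 (nat_lit 860) (nat_lit 1) (nat_lit 0) (.skip (.cons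
  V32 (nat_lit 7740) (nat_lit 0) (nat_lit 0) (nat_lit 0) (nat_lit 1) .nil)) .nil)))⟩

noncomputable def tA245 : Test :=
  ⟨23, 1, (nat_lit 6923), V235, (nat_lit 23), (nat_lit 0), (nat_lit 0), (.cons 7 (nat_lit 7) false
  V197 (nat_lit 161) (nat_lit 0) (nat_lit 0) .nil (.cons 43 (nat_lit 43) false V129 (nat_lit 989)
  (nat_lit 0) (nat_lit 0) .nil .nil))⟩

noncomputable def tA246 : Test :=
  ⟨4, 13, (nat_lit 485212), V226, (nat_lit 52), (nat_lit 1), (nat_lit 0), (.cons 7 (nat_lit 7)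
  true V173 (nat_lit 364) (nat_lit 1) (nat_lit 0) .nil (.cons 31 (nat_lit 31) true V107 (nat_lit
  1612) (nat_lit 1) (nat_lit 0) (.cons V16 (nat_lit 11284) (nat_lit 2) (nat_lit 0) (nat_lit 0)
  (nat_lit 1) .nil) (.cons 43 (nat_lit 43) false V92 (nat_lit 2236) (nat_lit 0) (nat_lit 0) (.skip
  (.cons V4 (nat_lit 15652) (nat_lit 0) (nat_lit 1) (nat_lit 0) (nat_lit 0) .nil)) .nil)))⟩

noncomputable def tA247 : Test :=
  ⟨5, 11, (nat_lit 199485), V224, (nat_lit 55), (nat_lit 2), (nat_lit 0), (.cons 9 (nat_lit 3)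
  false V161 (nat_lit 495) (nat_lit 0) (nat_lit 0) .nil (.cons 13 (nat_lit 13) true V147 (nat_lit
  715) (nat_lit 1) (nat_lit 0) (.cons V44 (nat_lit 6435) (nat_lit 1) (nat_lit 1) (nat_lit 0)
  (nat_lit 2) .nil) (.cons 31 (nat_lit 31) true V104 (nat_lit 1705) (nat_lit 2) (nat_lit 0) .nil
  .nil)))⟩

noncomputable def tA248 : Test :=
  ⟨4, 5, (nat_lit 1260), V236, (nat_lit 20), (nat_lit 2), (nat_lit 0), (.cons 9 (nat_lit 3) true
  V194 (nat_lit 180) (nat_lit 2) (nat_lit 0) .nil (.cons 7 (nat_lit 7) true V204 (nat_lit 140)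
  (nat_lit 1) (nat_lit 0) (.cons V117 (nat_lit 1260) (nat_lit 2) (nat_lit 0) (nat_lit 0) (nat_lit
  1) .nil) .nil))⟩

noncomputable def tA249 : Test :=
  ⟨4, 5, (nat_lit 100620), V236, (nat_lit 20), (nat_lit 2), (nat_lit 0), (.cons 9 (nat_lit 3) true
  V194 (nat_lit 180) (nat_lit 2) (nat_lit 0) .nil (.cons 13 (nat_lit 13) false V185 (nat_lit 260)
  (nat_lit 0) (nat_lit 0) (.cons V90 (nat_lit 2340) (nat_lit 1) (nat_lit 2) (nat_lit 0) (nat_lit
  2) .nil) (.cons 43 (nat_lit 43) true V135 (nat_lit 860) (nat_lit 1) (nat_lit 0) .nil .nil)))⟩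

noncomputable def tA250 : Test :=
  ⟨16, 5, (nat_lit 47880), V229, (nat_lit 40), (nat_lit 1), (nat_lit 0), (.cons 9 (nat_lit 3)
  false V175 (nat_lit 360) (nat_lit 0) (nat_lit 0) .nil (.cons 7 (nat_lit 7) true V182 (nat_lit
  280) (nat_lit 0) (nat_lit 0) .nil (.cons 19 (nat_lit 19) true V141 (nat_lit 760) (nat_lit 2)
  (nat_lit 0) (.skip (.cons V37 (nat_lit 6840) (nat_lit 0) (nat_lit 2) (nat_lit 0) (nat_lit 0)
  .nil)) .nil)))⟩

noncomputable def tA251 : Test :=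
  ⟨5, 11, (nat_lit 314545), V224, (nat_lit 55), (nat_lit 2), (nat_lit 0), (.cons 7 (nat_lit 7)
  true V170 (nat_lit 385) (nat_lit 0) (nat_lit 0) .nil (.cons 19 (nat_lit 19) false V126 (nat_lit
  1045) (nat_lit 0) (nat_lit 0) (.cons V34 (nat_lit 7315) (nat_lit 0) (nat_lit 0) (nat_lit 0)
  (nat_lit 0) .nil) (.cons 43 (nat_lit 43) true V89 (nat_lit 2365) (nat_lit 0) (nat_lit 0) .nil
  .nil)))⟩

noncomputable def tA252 : Test :=
  ⟨8, 19, (nat_lit 411768), V199, (nat_lit 152), (nat_lit 0), (nat_lit 0), (.cons 9 (nat_lit 3)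
  true V110 (nat_lit 1368) (nat_lit 2) (nat_lit 0) .nil (.cons 7 (nat_lit 7) true V125 (nat_lit
  1064) (nat_lit 1) (nat_lit 0) .nil (.cons 43 (nat_lit 43) false V42 (nat_lit 6536) (nat_lit 0)
  (nat_lit 0) .nil .nil)))⟩

noncomputable def tA253 : Test :=
  ⟨16, 1, (nat_lit 42408), V240, (nat_lit 8), (nat_lit 1), (nat_lit 0), (.cons 9 (nat_lit 3) true
  V220 (nat_lit 72) (nat_lit 2) (nat_lit 0) .nil (.cons 19 (nat_lit 19) true V200 (nat_lit 152)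
  (nat_lit 1) (nat_lit 0) (.cons V111 (nat_lit 1368) (nat_lit 1) (nat_lit 0) (nat_lit 0) (nat_lit
  0) .nil) (.cons 31 (nat_lit 31) false V187 (nat_lit 248) (nat_lit 0) (nat_lit 0) (.skip (.cons
  V93 (nat_lit 2232) (nat_lit 2) (nat_lit 2) (nat_lit 0) (nat_lit 2) .nil)) .nil)))⟩

noncomputable def tA254 : Test :=
  ⟨16, 5, (nat_lit 306280), V229, (nat_lit 40), (nat_lit 1), (nat_lit 0), (.cons 13 (nat_lit 13)
  true V157 (nat_lit 520) (nat_lit 1) (nat_lit 0) .nil (.cons 19 (nat_lit 19) true V141 (nat_lit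
  760) (nat_lit 2) (nat_lit 0) .nil (.cons 31 (nat_lit 31) false V118 (nat_lit 1240) (nat_lit 0)
  (nat_lit 0) (.skip (.cons V3 (nat_lit 16120) (nat_lit 0) (nat_lit 1) (nat_lit 0) (nat_lit 0)
  .nil)) .nil)))⟩

noncomputable def tA255 : Test :=
  ⟨16, 5, (nat_lit 47880), V229, (nat_lit 40), (nat_lit 1), (nat_lit 0), (.cons 9 (nat_lit 3)
  false V175 (nat_lit 360) (nat_lit 0) (nat_lit 0) .nil (.cons 7 (nat_lit 7) true V182 (nat_lit
  280) (nat_lit 0) (nat_lit 0) (.cons V86 (nat_lit 2520) (nat_lit 1) (nat_lit 0) (nat_lit 0)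
  (nat_lit 1) .nil) (.cons 19 (nat_lit 19) true V141 (nat_lit 760) (nat_lit 2) (nat_lit 0) (.skip
  (.cons V37 (nat_lit 6840) (nat_lit 0) (nat_lit 2) (nat_lit 0) (nat_lit 0) .nil)) .nil)))⟩

noncomputable def tA256 : Test :=
  ⟨8, 19, (nat_lit 428792), V199, (nat_lit 152), (nat_lit 0), (nat_lit 0), (.cons 7 (nat_lit 7)
  true V125 (nat_lit 1064) (nat_lit 1) (nat_lit 0) .nil (.cons 13 (nat_lit 13) true V96 (nat_lit
  1976) (nat_lit 1) (nat_lit 0) (.cons V8 (nat_lit 13832) (nat_lit 1) (nat_lit 0) (nat_lit 0)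
  (nat_lit 0) .nil) (.cons 31 (nat_lit 31) false V57 (nat_lit 4712) (nat_lit 0) (nat_lit 0) .nil
  .nil)))⟩

noncomputable def tA257 : Test :=
  ⟨16, 5, (nat_lit 112840), V229, (nat_lit 40), (nat_lit 1), (nat_lit 0), (.cons 7 (nat_lit 7)
  true V182 (nat_lit 280) (nat_lit 0) (nat_lit 0) .nil (.cons 13 (nat_lit 13) true V157 (nat_lit
  520) (nat_lit 1) (nat_lit 0) (.cons V72 (nat_lit 3640) (nat_lit 2) (nat_lit 0) (nat_lit 0)
  (nat_lit 0) .nil) (.cons 31 (nat_lit 31) false V118 (nat_lit 1240) (nat_lit 0) (nat_lit 0)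
  (.skip (.cons V27 (nat_lit 8680) (nat_lit 1) (nat_lit 0) (nat_lit 0) (nat_lit 1) .nil)) .nil)))⟩

noncomputable def tA258 : Test :=
  ⟨5, 11, (nat_lit 226765), V224, (nat_lit 55), (nat_lit 2), (nat_lit 0), (.cons 7 (nat_lit 7)
  true V170 (nat_lit 385) (nat_lit 0) (nat_lit 0) .nil (.cons 19 (nat_lit 19) false V126 (nat_lit
  1045) (nat_lit 0) (nat_lit 0) (.cons V34 (nat_lit 7315) (nat_lit 0) (nat_lit 0) (nat_lit 0)
  (nat_lit 0) .nil) (.cons 31 (nat_lit 31) true V104 (nat_lit 1705) (nat_lit 2) (nat_lit 0) (.skip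
  (.cons V14 (nat_lit 11935) (nat_lit 1) (nat_lit 0) (nat_lit 0) (nat_lit 1) .nil)) .nil)))⟩

noncomputable def tA259 : Test :=
  ⟨16, 1, (nat_lit 21672), V240, (nat_lit 8), (nat_lit 1), (nat_lit 0), (.cons 9 (nat_lit 3) true
  V220 (nat_lit 72) (nat_lit 2) (nat_lit 0) .nil (.cons 7 (nat_lit 7) false V223 (nat_lit 56)
  (nat_lit 0) (nat_lit 0) .nil (.cons 43 (nat_lit 43) true V176 (nat_lit 344) (nat_lit 1) (nat_lit
  0) (.cons V87 (nat_lit 2408) (nat_lit 0) (nat_lit 1) (nat_lit 0) (nat_lit 0) .nil) .nil)))⟩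

noncomputable def tA260 : Test :=
  ⟨16, 13, (nat_lit 203112), V210, (nat_lit 104), (nat_lit 0), (nat_lit 0), (.cons 9 (nat_lit 3)
  true V133 (nat_lit 936) (nat_lit 2) (nat_lit 0) .nil (.cons 7 (nat_lit 7) true V144 (nat_lit
  728) (nat_lit 2) (nat_lit 0) .nil (.cons 31 (nat_lit 31) true V76 (nat_lit 3224) (nat_lit 0)
  (nat_lit 0) .nil .nil)))⟩

noncomputable def tA261 : Test :=
  ⟨16, 5, (nat_lit 69160), V229, (nat_lit 40), (nat_lit 1), (nat_lit 0), (.cons 7 (nat_lit 7) true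
  V182 (nat_lit 280) (nat_lit 0) (nat_lit 0) .nil (.cons 13 (nat_lit 13) true V157 (nat_lit 520)
  (nat_lit 1) (nat_lit 0) (.cons V72 (nat_lit 3640) (nat_lit 2) (nat_lit 0) (nat_lit 0) (nat_lit
  0) .nil) (.cons 19 (nat_lit 19) true V141 (nat_lit 760) (nat_lit 2) (nat_lit 0) .nil .nil)))⟩

noncomputable def tA262 : Test :=
  ⟨5, 7, (nat_lit 77805), V232, (nat_lit 35), (nat_lit 2), (nat_lit 0), (.cons 9 (nat_lit 3) true
  V178 (nat_lit 315) (nat_lit 0) (nat_lit 0) .nil (.cons 13 (nat_lit 13) true V164 (nat_lit 455)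
  (nat_lit 2) (nat_lit 0) .nil (.cons 19 (nat_lit 19) false V150 (nat_lit 665) (nat_lit 0)
  (nat_lit 0) (.cons V29 (nat_lit 8645) (nat_lit 2) (nat_lit 2) (nat_lit 0) (nat_lit 1) (.cons V47
  (nat_lit 5985) (nat_lit 0) (nat_lit 0) (nat_lit 0) (nat_lit 0) .nil)) .nil)))⟩

noncomputable def tA263 : Test :=
  ⟨4, 5, (nat_lit 39060), V236, (nat_lit 20), (nat_lit 2), (nat_lit 0), (.cons 9 (nat_lit 3) true
  V194 (nat_lit 180) (nat_lit 2) (nat_lit 0) .nil (.cons 7 (nat_lit 7) true V204 (nat_lit 140)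
  (nat_lit 1) (nat_lit 0) .nil (.cons 31 (nat_lit 31) false V152 (nat_lit 620) (nat_lit 0)
  (nat_lit 0) (.skip (.cons V50 (nat_lit 5580) (nat_lit 1) (nat_lit 2) (nat_lit 0) (nat_lit 2)
  .nil)) .nil)))⟩

noncomputable def tA264 : Test :=
  ⟨11, 1, (nat_lit 58311), V239, (nat_lit 11), (nat_lit 1), (nat_lit 0), (.cons 9 (nat_lit 3) true
  V212 (nat_lit 99) (nat_lit 1) (nat_lit 0) .nil (.cons 19 (nat_lit 19) false V192 (nat_lit 209)
  (nat_lit 0) (nat_lit 0) .nil (.cons 31 (nat_lit 31) true V177 (nat_lit 341) (nat_lit 2) (nat_lit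
  0) (.cons V43 (nat_lit 6479) (nat_lit 0) (nat_lit 2) (nat_lit 0) (nat_lit 0) .nil) .nil)))⟩

noncomputable def tA265 : Test :=
  ⟨16, 1, (nat_lit 84968), V240, (nat_lit 8), (nat_lit 1), (nat_lit 0), (.cons 13 (nat_lit 13)
  false V209 (nat_lit 104) (nat_lit 0) (nat_lit 0) .nil (.cons 19 (nat_lit 19) true V200 (nat_lit
  152) (nat_lit 1) (nat_lit 0) (.cons V97 (nat_lit 1976) (nat_lit 1) (nat_lit 1) (nat_lit 0)
  (nat_lit 1) .nil) (.cons 43 (nat_lit 43) true V176 (nat_lit 344) (nat_lit 1) (nat_lit 0) .nil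
  .nil)))⟩

noncomputable def tA266 : Test :=
  ⟨5, 11, (nat_lit 421135), V224, (nat_lit 55), (nat_lit 2), (nat_lit 0), (.cons 13 (nat_lit 13)
  true V147 (nat_lit 715) (nat_lit 1) (nat_lit 0) .nil (.cons 19 (nat_lit 19) false V126 (nat_lit
  1045) (nat_lit 0) (nat_lit 0) (.cons V9 (nat_lit 13585) (nat_lit 2) (nat_lit 1) (nat_lit 0)
  (nat_lit 1) .nil) (.cons 31 (nat_lit 31) true V104 (nat_lit 1705) (nat_lit 2) (nat_lit 0) .nil
  .nil)))⟩

noncomputable def tA267 : Test :=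
  ⟨8, 19, (nat_lit 124488), V199, (nat_lit 152), (nat_lit 0), (nat_lit 0), (.cons 9 (nat_lit 3)
  true V110 (nat_lit 1368) (nat_lit 2) (nat_lit 0) .nil (.cons 7 (nat_lit 7) true V125 (nat_lit
  1064) (nat_lit 1) (nat_lit 0) (.cons V21 (nat_lit 9576) (nat_lit 2) (nat_lit 0) (nat_lit 0)
  (nat_lit 1) .nil) (.cons 13 (nat_lit 13) true V96 (nat_lit 1976) (nat_lit 1) (nat_lit 0) (.cons
  V8 (nat_lit 13832) (nat_lit 1) (nat_lit 0) (nat_lit 0) (nat_lit 0) (.cons V1 (nat_lit 17784)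
  (nat_lit 2) (nat_lit 0) (nat_lit 0) (nat_lit 2) .nil)) .nil)))⟩

noncomputable def tA268 : Test :=
  ⟨11, 1, (nat_lit 278597), V239, (nat_lit 11), (nat_lit 1), (nat_lit 0), (.cons 19 (nat_lit 19)
  false V192 (nat_lit 209) (nat_lit 0) (nat_lit 0) .nil (.cons 31 (nat_lit 31) true V177 (nat_lit
  341) (nat_lit 2) (nat_lit 0) (.cons V43 (nat_lit 6479) (nat_lit 0) (nat_lit 2) (nat_lit 0)
  (nat_lit 0) .nil) (.cons 43 (nat_lit 43) false V162 (nat_lit 473) (nat_lit 0) (nat_lit 0) (.cons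
  V5 (nat_lit 14663) (nat_lit 1) (nat_lit 2) (nat_lit 0) (nat_lit 1) .nil) .nil)))⟩

noncomputable def tA269 : Test :=
  ⟨16, 1, (nat_lit 58824), V240, (nat_lit 8), (nat_lit 1), (nat_lit 0), (.cons 9 (nat_lit 3) true
  V220 (nat_lit 72) (nat_lit 2) (nat_lit 0) .nil (.cons 19 (nat_lit 19) true V200 (nat_lit 152)
  (nat_lit 1) (nat_lit 0) (.cons V111 (nat_lit 1368) (nat_lit 1) (nat_lit 0) (nat_lit 0) (nat_lit
  0) .nil) (.cons 43 (nat_lit 43) true V176 (nat_lit 344) (nat_lit 1) (nat_lit 0) .nil .nil)))⟩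

noncomputable def tA270 : Test :=
  ⟨4, 5, (nat_lit 54180), V236, (nat_lit 20), (nat_lit 2), (nat_lit 0), (.cons 9 (nat_lit 3) true
  V194 (nat_lit 180) (nat_lit 2) (nat_lit 0) .nil (.cons 7 (nat_lit 7) true V204 (nat_lit 140)
  (nat_lit 1) (nat_lit 0) (.cons V117 (nat_lit 1260) (nat_lit 2) (nat_lit 0) (nat_lit 0) (nat_lit
  1) .nil) (.cons 43 (nat_lit 43) true V135 (nat_lit 860) (nat_lit 1) (nat_lit 0) (.skip (.cons
  V32 (nat_lit 7740) (nat_lit 0) (nat_lit 0) (nat_lit 0) (nat_lit 1) .nil)) .nil)))⟩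

noncomputable def tA271 : Test :=
  ⟨16, 5, (nat_lit 622440), V229, (nat_lit 40), (nat_lit 1), (nat_lit 0), (.cons 9 (nat_lit 3)
  false V175 (nat_lit 360) (nat_lit 0) (nat_lit 0) .nil (.cons 7 (nat_lit 7) true V182 (nat_lit
  280) (nat_lit 0) (nat_lit 0) (.cons V86 (nat_lit 2520) (nat_lit 1) (nat_lit 0) (nat_lit 0)
  (nat_lit 1) .nil) (.cons 13 (nat_lit 13) true V157 (nat_lit 520) (nat_lit 1) (nat_lit 0) (.skip
  (.cons V59 (nat_lit 4680) (nat_lit 2) (nat_lit 1) (nat_lit 0) (nat_lit 2) .nil)) (.cons 19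
  (nat_lit 19) true V141 (nat_lit 760) (nat_lit 2) (nat_lit 0) (.skip (.cons V51 (nat_lit 5320)
  (nat_lit 1) (nat_lit 0) (nat_lit 0) (nat_lit 0) .nil)) .nil))))⟩

noncomputable def tA272 : Test :=
  ⟨4, 5, (nat_lit 78260), V236, (nat_lit 20), (nat_lit 2), (nat_lit 0), (.cons 7 (nat_lit 7) true
  V204 (nat_lit 140) (nat_lit 1) (nat_lit 0) .nil (.cons 13 (nat_lit 13) false V185 (nat_lit 260)
  (nat_lit 0) (nat_lit 0) (.cons V101 (nat_lit 1820) (nat_lit 0) (nat_lit 1) (nat_lit 0) (nat_lit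
  0) .nil) (.cons 43 (nat_lit 43) true V135 (nat_lit 860) (nat_lit 1) (nat_lit 0) .nil .nil)))⟩

noncomputable def tA273 : Test :=
  ⟨8, 11, (nat_lit 503272), V217, (nat_lit 88), (nat_lit 1), (nat_lit 0), (.cons 7 (nat_lit 7)
  false V153 (nat_lit 616) (nat_lit 0) (nat_lit 0) .nil (.cons 19 (nat_lit 19) true V105 (nat_lit
  1672) (nat_lit 1) (nat_lit 0) (.cons V15 (nat_lit 11704) (nat_lit 0) (nat_lit 1) (nat_lit 0)
  (nat_lit 0) .nil) (.cons 43 (nat_lit 43) true V71 (nat_lit 3784) (nat_lit 0) (nat_lit 0) .nil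
  .nil)))⟩

noncomputable def tA274 : Test :=
  ⟨43, 1, (nat_lit 155961), V228, (nat_lit 43), (nat_lit 2), (nat_lit 0), (.cons 9 (nat_lit 3)
  false V169 (nat_lit 387) (nat_lit 0) (nat_lit 0) .nil (.cons 13 (nat_lit 13) true V156 (nat_lit
  559) (nat_lit 2) (nat_lit 0) (.cons V54 (nat_lit 5031) (nat_lit 1) (nat_lit 2) (nat_lit 0)
  (nat_lit 2) .nil) (.cons 31 (nat_lit 31) true V113 (nat_lit 1333) (nat_lit 1) (nat_lit 0) .nil
  .nil)))⟩

noncomputable def tA275 : Test :=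
  ⟨4, 5, (nat_lit 54180), V236, (nat_lit 20), (nat_lit 2), (nat_lit 0), (.cons 9 (nat_lit 3) true
  V194 (nat_lit 180) (nat_lit 2) (nat_lit 0) .nil (.cons 7 (nat_lit 7) true V204 (nat_lit 140)
  (nat_lit 1) (nat_lit 0) .nil (.cons 43 (nat_lit 43) true V135 (nat_lit 860) (nat_lit 1) (nat_lit
  0) (.cons V46 (nat_lit 6020) (nat_lit 2) (nat_lit 0) (nat_lit 0) (nat_lit 0) (.cons V32 (nat_lit
  7740) (nat_lit 0) (nat_lit 0) (nat_lit 0) (nat_lit 1) .nil)) .nil)))⟩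

noncomputable def tA276 : Test :=
  ⟨16, 5, (nat_lit 112840), V229, (nat_lit 40), (nat_lit 1), (nat_lit 0), (.cons 7 (nat_lit 7)
  true V182 (nat_lit 280) (nat_lit 0) (nat_lit 0) .nil (.cons 13 (nat_lit 13) true V157 (nat_lit
  520) (nat_lit 1) (nat_lit 0) (.cons V72 (nat_lit 3640) (nat_lit 2) (nat_lit 0) (nat_lit 0)
  (nat_lit 0) .nil) (.cons 31 (nat_lit 31) false V118 (nat_lit 1240) (nat_lit 0) (nat_lit 0)
  (.cons V3 (nat_lit 16120) (nat_lit 0) (nat_lit 1) (nat_lit 0) (nat_lit 0) .nil) .nil)))⟩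

noncomputable def tA277 : Test :=
  ⟨8, 19, (nat_lit 551304), V199, (nat_lit 152), (nat_lit 0), (nat_lit 0), (.cons 9 (nat_lit 3)
  true V110 (nat_lit 1368) (nat_lit 2) (nat_lit 0) .nil (.cons 13 (nat_lit 13) true V96 (nat_lit
  1976) (nat_lit 1) (nat_lit 0) (.cons V1 (nat_lit 17784) (nat_lit 2) (nat_lit 0) (nat_lit 0)
  (nat_lit 2) .nil) (.cons 31 (nat_lit 31) false V57 (nat_lit 4712) (nat_lit 0) (nat_lit 0) .nil
  .nil)))⟩

noncomputable def tA278 : Test :=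
  ⟨4, 5, (nat_lit 1679580), V236, (nat_lit 20), (nat_lit 2), (nat_lit 0), (.cons 9 (nat_lit 3)
  true V194 (nat_lit 180) (nat_lit 2) (nat_lit 0) .nil (.cons 7 (nat_lit 7) true V204 (nat_lit
  140) (nat_lit 1) (nat_lit 0) .nil (.cons 31 (nat_lit 31) false V152 (nat_lit 620) (nat_lit 0)
  (nat_lit 0) (.cons V63 (nat_lit 4340) (nat_lit 2) (nat_lit 1) (nat_lit 0) (nat_lit 1) .nil)
  (.cons 43 (nat_lit 43) true V135 (nat_lit 860) (nat_lit 1) (nat_lit 0) (.skip (.skip (.cons V32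
  (nat_lit 7740) (nat_lit 0) (nat_lit 0) (nat_lit 0) (nat_lit 1) .nil))) .nil))))⟩

noncomputable def tA279 : Test :=
  ⟨31, 1, (nat_lit 155961), V233, (nat_lit 31), (nat_lit 0), (nat_lit 0), (.cons 9 (nat_lit 3)
  false V184 (nat_lit 279) (nat_lit 0) (nat_lit 0) .nil (.cons 13 (nat_lit 13) false V168 (nat_lit
  403) (nat_lit 0) (nat_lit 0) (.cons V73 (nat_lit 3627) (nat_lit 0) (nat_lit 0) (nat_lit 0)
  (nat_lit 2) .nil) (.cons 43 (nat_lit 43) false V112 (nat_lit 1333) (nat_lit 0) (nat_lit 0) .nil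
  .nil)))⟩

noncomputable def tA280 : Test :=
  ⟨8, 11, (nat_lit 362824), V217, (nat_lit 88), (nat_lit 1), (nat_lit 0), (.cons 7 (nat_lit 7)
  false V153 (nat_lit 616) (nat_lit 0) (nat_lit 0) .nil (.cons 19 (nat_lit 19) true V105 (nat_lit
  1672) (nat_lit 1) (nat_lit 0) (.cons V15 (nat_lit 11704) (nat_lit 0) (nat_lit 1) (nat_lit 0)
  (nat_lit 0) .nil) (.cons 31 (nat_lit 31) true V82 (nat_lit 2728) (nat_lit 1) (nat_lit 0) .nil
  .nil)))⟩

noncomputable def tA281 : Test :=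
  ⟨16, 1, (nat_lit 58824), V240, (nat_lit 8), (nat_lit 1), (nat_lit 0), (.cons 9 (nat_lit 3) true
  V220 (nat_lit 72) (nat_lit 2) (nat_lit 0) .nil (.cons 19 (nat_lit 19) true V200 (nat_lit 152)
  (nat_lit 1) (nat_lit 0) (.cons V111 (nat_lit 1368) (nat_lit 1) (nat_lit 0) (nat_lit 0) (nat_lit
  0) .nil) (.cons 43 (nat_lit 43) true V176 (nat_lit 344) (nat_lit 1) (nat_lit 0) (.cons V41
  (nat_lit 6536) (nat_lit 2) (nat_lit 0) (nat_lit 0) (nat_lit 1) .nil) .nil)))⟩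

noncomputable def tA282 : Test :=
  ⟨16, 5, (nat_lit 88920), V229, (nat_lit 40), (nat_lit 1), (nat_lit 0), (.cons 9 (nat_lit 3)
  false V175 (nat_lit 360) (nat_lit 0) (nat_lit 0) .nil (.cons 13 (nat_lit 13) true V157 (nat_lit
  520) (nat_lit 1) (nat_lit 0) (.cons V59 (nat_lit 4680) (nat_lit 2) (nat_lit 1) (nat_lit 0)
  (nat_lit 2) .nil) (.cons 19 (nat_lit 19) true V141 (nat_lit 760) (nat_lit 2) (nat_lit 0) (.skip
  (.cons V37 (nat_lit 6840) (nat_lit 0) (nat_lit 2) (nat_lit 0) (nat_lit 0) .nil)) .nil)))⟩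

noncomputable def tA283 : Test :=
  ⟨5, 11, (nat_lit 155155), V224, (nat_lit 55), (nat_lit 2), (nat_lit 0), (.cons 7 (nat_lit 7)
  true V170 (nat_lit 385) (nat_lit 0) (nat_lit 0) .nil (.cons 13 (nat_lit 13) true V147 (nat_lit
  715) (nat_lit 1) (nat_lit 0) .nil (.cons 31 (nat_lit 31) true V104 (nat_lit 1705) (nat_lit 2)
  (nat_lit 0) (.skip (.cons V14 (nat_lit 11935) (nat_lit 1) (nat_lit 0) (nat_lit 0) (nat_lit 1)
  .nil)) .nil)))⟩

noncomputable def tA284 : Test :=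
  ⟨16, 5, (nat_lit 2143960), V229, (nat_lit 40), (nat_lit 1), (nat_lit 0), (.cons 7 (nat_lit 7)
  true V182 (nat_lit 280) (nat_lit 0) (nat_lit 0) .nil (.cons 13 (nat_lit 13) true V157 (nat_lit
  520) (nat_lit 1) (nat_lit 0) .nil (.cons 19 (nat_lit 19) true V141 (nat_lit 760) (nat_lit 2)
  (nat_lit 0) (.cons V19 (nat_lit 9880) (nat_lit 0) (nat_lit 0) (nat_lit 0) (nat_lit 1) .nil)
  (.cons 31 (nat_lit 31) false V118 (nat_lit 1240) (nat_lit 0) (nat_lit 0) (.skip (.skip (.cons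
  V27 (nat_lit 8680) (nat_lit 1) (nat_lit 0) (nat_lit 0) (nat_lit 1) .nil))) .nil))))⟩

noncomputable def tA285 : Test :=
  ⟨4, 5, (nat_lit 54180), V236, (nat_lit 20), (nat_lit 2), (nat_lit 0), (.cons 9 (nat_lit 3) true
  V194 (nat_lit 180) (nat_lit 2) (nat_lit 0) .nil (.cons 7 (nat_lit 7) true V204 (nat_lit 140)
  (nat_lit 1) (nat_lit 0) (.cons V117 (nat_lit 1260) (nat_lit 2) (nat_lit 0) (nat_lit 0) (nat_lit
  1) .nil) (.cons 43 (nat_lit 43) true V135 (nat_lit 860) (nat_lit 1) (nat_lit 0) .nil .nil)))⟩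

noncomputable def tA286 : Test :=
  ⟨4, 5, (nat_lit 147060), V236, (nat_lit 20), (nat_lit 2), (nat_lit 0), (.cons 9 (nat_lit 3) true
  V194 (nat_lit 180) (nat_lit 2) (nat_lit 0) .nil (.cons 19 (nat_lit 19) false V172 (nat_lit 380)
  (nat_lit 0) (nat_lit 0) .nil (.cons 43 (nat_lit 43) true V135 (nat_lit 860) (nat_lit 1) (nat_lit
  0) (.cons V2 (nat_lit 16340) (nat_lit 2) (nat_lit 1) (nat_lit 0) (nat_lit 1) .nil) .nil)))⟩

noncomputable def tA287 : Test :=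
  ⟨11, 1, (nat_lit 21483), V239, (nat_lit 11), (nat_lit 1), (nat_lit 0), (.cons 9 (nat_lit 3) true
  V212 (nat_lit 99) (nat_lit 1) (nat_lit 0) .nil (.cons 7 (nat_lit 7) false V218 (nat_lit 77)
  (nat_lit 0) (nat_lit 0) .nil (.cons 31 (nat_lit 31) true V177 (nat_lit 341) (nat_lit 2) (nat_lit
  0) (.cons V88 (nat_lit 2387) (nat_lit 1) (nat_lit 2) (nat_lit 0) (nat_lit 1) (.cons V78 (nat_lit
  3069) (nat_lit 1) (nat_lit 0) (nat_lit 0) (nat_lit 2) .nil)) .nil)))⟩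

noncomputable def tA288 : Test :=
  ⟨43, 1, (nat_lit 121303), V228, (nat_lit 43), (nat_lit 2), (nat_lit 0), (.cons 7 (nat_lit 7)
  false V180 (nat_lit 301) (nat_lit 0) (nat_lit 0) .nil (.cons 13 (nat_lit 13) true V156 (nat_lit
  559) (nat_lit 2) (nat_lit 0) .nil (.cons 31 (nat_lit 31) true V113 (nat_lit 1333) (nat_lit 1)
  (nat_lit 0) (.skip (.cons V23 (nat_lit 9331) (nat_lit 2) (nat_lit 1) (nat_lit 0) (nat_lit 1)
  .nil)) .nil)))⟩

noncomputable def tA289 : Test :=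
  ⟨16, 1, (nat_lit 124488), V240, (nat_lit 8), (nat_lit 1), (nat_lit 0), (.cons 9 (nat_lit 3) true
  V220 (nat_lit 72) (nat_lit 2) (nat_lit 0) .nil (.cons 7 (nat_lit 7) false V223 (nat_lit 56)
  (nat_lit 0) (nat_lit 0) (.cons V160 (nat_lit 504) (nat_lit 1) (nat_lit 2) (nat_lit 0) (nat_lit
  1) .nil) (.cons 13 (nat_lit 13) false V209 (nat_lit 104) (nat_lit 0) (nat_lit 0) .nil (.cons 19
  (nat_lit 19) true V200 (nat_lit 152) (nat_lit 1) (nat_lit 0) (.cons V97 (nat_lit 1976) (nat_lit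
  1) (nat_lit 1) (nat_lit 0) (nat_lit 1) (.skip (.cons V111 (nat_lit 1368) (nat_lit 1) (nat_lit 0)
  (nat_lit 0) (nat_lit 0) .nil))) .nil))))⟩

noncomputable def tA290 : Test :=
  ⟨16, 5, (nat_lit 4852120), V229, (nat_lit 40), (nat_lit 1), (nat_lit 0), (.cons 7 (nat_lit 7)
  true V182 (nat_lit 280) (nat_lit 0) (nat_lit 0) .nil (.cons 13 (nat_lit 13) true V157 (nat_lit
  520) (nat_lit 1) (nat_lit 0) .nil (.cons 31 (nat_lit 31) false V118 (nat_lit 1240) (nat_lit 0)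
  (nat_lit 0) (.cons V3 (nat_lit 16120) (nat_lit 0) (nat_lit 1) (nat_lit 0) (nat_lit 0) .nil)
  (.cons 43 (nat_lit 43) false V103 (nat_lit 1720) (nat_lit 0) (nat_lit 0) (.skip (.skip (.cons
  V11 (nat_lit 12040) (nat_lit 0) (nat_lit 0) (nat_lit 0) (nat_lit 0) .nil))) .nil))))⟩

noncomputable def tA291 : Test :=
  ⟨31, 1, (nat_lit 482391), V233, (nat_lit 31), (nat_lit 0), (nat_lit 0), (.cons 9 (nat_lit 3)
  false V184 (nat_lit 279) (nat_lit 0) (nat_lit 0) .nil (.cons 7 (nat_lit 7) true V190 (nat_lit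
  217) (nat_lit 1) (nat_lit 0) (.cons V99 (nat_lit 1953) (nat_lit 0) (nat_lit 1) (nat_lit 0)
  (nat_lit 1) .nil) (.cons 13 (nat_lit 13) false V168 (nat_lit 403) (nat_lit 0) (nat_lit 0) (.cons
  V80 (nat_lit 2821) (nat_lit 0) (nat_lit 1) (nat_lit 0) (nat_lit 0) .nil) (.cons 19 (nat_lit 19)
  true V154 (nat_lit 589) (nat_lit 1) (nat_lit 0) (.cons V33 (nat_lit 7657) (nat_lit 0) (nat_lit
  1) (nat_lit 0) (nat_lit 1) (.cons V65 (nat_lit 4123) (nat_lit 1) (nat_lit 0) (nat_lit 0)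
  (nat_lit 0) (.cons V53 (nat_lit 5301) (nat_lit 0) (nat_lit 1) (nat_lit 0) (nat_lit 0) .nil)))
  .nil))))⟩

noncomputable def tA292 : Test :=
  ⟨11, 1, (nat_lit 80883), V239, (nat_lit 11), (nat_lit 1), (nat_lit 0), (.cons 9 (nat_lit 3) true
  V212 (nat_lit 99) (nat_lit 1) (nat_lit 0) .nil (.cons 19 (nat_lit 19) false V192 (nat_lit 209)
  (nat_lit 0) (nat_lit 0) (.cons V100 (nat_lit 1881) (nat_lit 0) (nat_lit 1) (nat_lit 0) (nat_lit
  0) .nil) (.cons 43 (nat_lit 43) false V162 (nat_lit 473) (nat_lit 0) (nat_lit 0) (.skip (.cons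
  V64 (nat_lit 4257) (nat_lit 1) (nat_lit 1) (nat_lit 0) (nat_lit 1) .nil)) .nil)))⟩

noncomputable def tA293 : Test :=
  ⟨16, 5, (nat_lit 156520), V229, (nat_lit 40), (nat_lit 1), (nat_lit 0), (.cons 7 (nat_lit 7)
  true V182 (nat_lit 280) (nat_lit 0) (nat_lit 0) .nil (.cons 13 (nat_lit 13) true V157 (nat_lit
  520) (nat_lit 1) (nat_lit 0) .nil (.cons 43 (nat_lit 43) false V103 (nat_lit 1720) (nat_lit 0)
  (nat_lit 0) (.skip (.cons V11 (nat_lit 12040) (nat_lit 0) (nat_lit 0) (nat_lit 0) (nat_lit 0)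
  .nil)) .nil)))⟩

noncomputable def tA294 : Test :=
  ⟨4, 5, (nat_lit 311220), V236, (nat_lit 20), (nat_lit 2), (nat_lit 0), (.cons 9 (nat_lit 3) true
  V194 (nat_lit 180) (nat_lit 2) (nat_lit 0) .nil (.cons 7 (nat_lit 7) true V204 (nat_lit 140)
  (nat_lit 1) (nat_lit 0) (.cons V117 (nat_lit 1260) (nat_lit 2) (nat_lit 0) (nat_lit 0) (nat_lit
  1) .nil) (.cons 13 (nat_lit 13) false V185 (nat_lit 260) (nat_lit 0) (nat_lit 0) (.skip (.cons
  V90 (nat_lit 2340) (nat_lit 1) (nat_lit 2) (nat_lit 0) (nat_lit 2) .nil)) (.cons 19 (nat_lit 19)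
  false V172 (nat_lit 380) (nat_lit 0) (nat_lit 0) (.skip (.cons V85 (nat_lit 2660) (nat_lit 0)
  (nat_lit 1) (nat_lit 0) (nat_lit 0) .nil)) .nil))))⟩

noncomputable def tA295 : Test :=
  ⟨23, 1, (nat_lit 131537), V235, (nat_lit 23), (nat_lit 0), (nat_lit 0), (.cons 7 (nat_lit 7)
  false V197 (nat_lit 161) (nat_lit 0) (nat_lit 0) .nil (.cons 19 (nat_lit 19) false V167 (nat_lit
  437) (nat_lit 0) (nat_lit 0) .nil (.cons 43 (nat_lit 43) false V129 (nat_lit 989) (nat_lit 0)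
  (nat_lit 0) (.skip (.cons V35 (nat_lit 6923) (nat_lit 0) (nat_lit 0) (nat_lit 0) (nat_lit 0)
  .nil)) .nil)))⟩

noncomputable def tA296 : Test :=
  ⟨4, 5, (nat_lit 1679580), V236, (nat_lit 20), (nat_lit 2), (nat_lit 0), (.cons 9 (nat_lit 3)
  true V194 (nat_lit 180) (nat_lit 2) (nat_lit 0) .nil (.cons 7 (nat_lit 7) true V204 (nat_lit
  140) (nat_lit 1) (nat_lit 0) .nil (.cons 31 (nat_lit 31) false V152 (nat_lit 620) (nat_lit 0)
  (nat_lit 0) (.skip (.cons V50 (nat_lit 5580) (nat_lit 1) (nat_lit 2) (nat_lit 0) (nat_lit 2)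
  .nil)) (.cons 43 (nat_lit 43) true V135 (nat_lit 860) (nat_lit 1) (nat_lit 0) (.skip (.cons V46
  (nat_lit 6020) (nat_lit 2) (nat_lit 0) (nat_lit 0) (nat_lit 0) .nil)) .nil))))⟩

noncomputable def tA297 : Test :=
  ⟨16, 1, (nat_lit 1823544), V240, (nat_lit 8), (nat_lit 1), (nat_lit 0), (.cons 9 (nat_lit 3)
  true V220 (nat_lit 72) (nat_lit 2) (nat_lit 0) .nil (.cons 19 (nat_lit 19) true V200 (nat_lit
  152) (nat_lit 1) (nat_lit 0) (.cons V111 (nat_lit 1368) (nat_lit 1) (nat_lit 0) (nat_lit 0)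
  (nat_lit 0) .nil) (.cons 31 (nat_lit 31) false V187 (nat_lit 248) (nat_lit 0) (nat_lit 0) (.skip
  (.cons V93 (nat_lit 2232) (nat_lit 2) (nat_lit 2) (nat_lit 0) (nat_lit 2) .nil)) (.cons 43
  (nat_lit 43) true V176 (nat_lit 344) (nat_lit 1) (nat_lit 0) .nil .nil))))⟩

noncomputable def tA298 : Test :=
  ⟨4, 5, (nat_lit 1679580), V236, (nat_lit 20), (nat_lit 2), (nat_lit 0), (.cons 9 (nat_lit 3)
  true V194 (nat_lit 180) (nat_lit 2) (nat_lit 0) .nil (.cons 7 (nat_lit 7) true V204 (nat_lit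
  140) (nat_lit 1) (nat_lit 0) (.cons V117 (nat_lit 1260) (nat_lit 2) (nat_lit 0) (nat_lit 0)
  (nat_lit 1) .nil) (.cons 31 (nat_lit 31) false V152 (nat_lit 620) (nat_lit 0) (nat_lit 0) (.skip
  (.cons V50 (nat_lit 5580) (nat_lit 1) (nat_lit 2) (nat_lit 0) (nat_lit 2) .nil)) (.cons 43
  (nat_lit 43) true V135 (nat_lit 860) (nat_lit 1) (nat_lit 0) .nil .nil))))⟩

noncomputable def tA299 : Test :=
  ⟨4, 5, (nat_lit 1679580), V236, (nat_lit 20), (nat_lit 2), (nat_lit 0), (.cons 9 (nat_lit 3)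
  true V194 (nat_lit 180) (nat_lit 2) (nat_lit 0) .nil (.cons 7 (nat_lit 7) true V204 (nat_lit
  140) (nat_lit 1) (nat_lit 0) (.cons V117 (nat_lit 1260) (nat_lit 2) (nat_lit 0) (nat_lit 0)
  (nat_lit 1) .nil) (.cons 31 (nat_lit 31) false V152 (nat_lit 620) (nat_lit 0) (nat_lit 0) (.cons
  V63 (nat_lit 4340) (nat_lit 2) (nat_lit 1) (nat_lit 0) (nat_lit 1) .nil) (.cons 43 (nat_lit 43)
  true V135 (nat_lit 860) (nat_lit 1) (nat_lit 0) .nil .nil))))⟩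

noncomputable def tA300 : Test :=
  ⟨23, 1, (nat_lit 131537), V235, (nat_lit 23), (nat_lit 0), (nat_lit 0), (.cons 7 (nat_lit 7)
  false V197 (nat_lit 161) (nat_lit 0) (nat_lit 0) .nil (.cons 19 (nat_lit 19) false V167 (nat_lit
  437) (nat_lit 0) (nat_lit 0) (.cons V79 (nat_lit 3059) (nat_lit 0) (nat_lit 0) (nat_lit 0)
  (nat_lit 0) .nil) (.cons 43 (nat_lit 43) false V129 (nat_lit 989) (nat_lit 0) (nat_lit 0) (.skip
  (.cons V35 (nat_lit 6923) (nat_lit 0) (nat_lit 0) (nat_lit 0) (nat_lit 0) .nil)) .nil)))⟩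

noncomputable def tA301 : Test :=
  ⟨16, 1, (nat_lit 671832), V240, (nat_lit 8), (nat_lit 1), (nat_lit 0), (.cons 9 (nat_lit 3) true
  V220 (nat_lit 72) (nat_lit 2) (nat_lit 0) .nil (.cons 7 (nat_lit 7) false V223 (nat_lit 56)
  (nat_lit 0) (nat_lit 0) .nil (.cons 31 (nat_lit 31) false V187 (nat_lit 248) (nat_lit 0)
  (nat_lit 0) (.skip (.cons V93 (nat_lit 2232) (nat_lit 2) (nat_lit 2) (nat_lit 0) (nat_lit 2)
  .nil)) (.cons 43 (nat_lit 43) true V176 (nat_lit 344) (nat_lit 1) (nat_lit 0) (.skip (.cons V87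
  (nat_lit 2408) (nat_lit 0) (nat_lit 1) (nat_lit 0) (nat_lit 0) .nil)) .nil))))⟩

noncomputable def tA302 : Test :=
  ⟨31, 1, (nat_lit 482391), V233, (nat_lit 31), (nat_lit 0), (nat_lit 0), (.cons 9 (nat_lit 3)
  false V184 (nat_lit 279) (nat_lit 0) (nat_lit 0) .nil (.cons 7 (nat_lit 7) true V190 (nat_lit
  217) (nat_lit 1) (nat_lit 0) (.cons V99 (nat_lit 1953) (nat_lit 0) (nat_lit 1) (nat_lit 0)
  (nat_lit 1) .nil) (.cons 13 (nat_lit 13) false V168 (nat_lit 403) (nat_lit 0) (nat_lit 0) (.cons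
  V80 (nat_lit 2821) (nat_lit 0) (nat_lit 1) (nat_lit 0) (nat_lit 0) .nil) (.cons 19 (nat_lit 19)
  true V154 (nat_lit 589) (nat_lit 1) (nat_lit 0) (.cons V33 (nat_lit 7657) (nat_lit 0) (nat_lit
  1) (nat_lit 0) (nat_lit 1) (.skip (.cons V53 (nat_lit 5301) (nat_lit 0) (nat_lit 1) (nat_lit 0)
  (nat_lit 0) .nil))) .nil))))⟩

noncomputable def tA303 : Test :=
  ⟨4, 13, (nat_lit 297388), V226, (nat_lit 52), (nat_lit 1), (nat_lit 0), (.cons 7 (nat_lit 7)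
  true V173 (nat_lit 364) (nat_lit 1) (nat_lit 0) .nil (.cons 19 (nat_lit 19) true V130 (nat_lit
  988) (nat_lit 0) (nat_lit 0) .nil (.cons 43 (nat_lit 43) false V92 (nat_lit 2236) (nat_lit 0)
  (nat_lit 0) (.skip (.cons V4 (nat_lit 15652) (nat_lit 0) (nat_lit 1) (nat_lit 0) (nat_lit 0)
  .nil)) .nil)))⟩

noncomputable def tA304 : Test :=
  ⟨16, 5, (nat_lit 622440), V229, (nat_lit 40), (nat_lit 1), (nat_lit 0), (.cons 9 (nat_lit 3)
  false V175 (nat_lit 360) (nat_lit 0) (nat_lit 0) .nil (.cons 7 (nat_lit 7) true V182 (nat_lit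
  280) (nat_lit 0) (nat_lit 0) (.cons V86 (nat_lit 2520) (nat_lit 1) (nat_lit 0) (nat_lit 0)
  (nat_lit 1) .nil) (.cons 13 (nat_lit 13) true V157 (nat_lit 520) (nat_lit 1) (nat_lit 0) (.cons
  V72 (nat_lit 3640) (nat_lit 2) (nat_lit 0) (nat_lit 0) (nat_lit 0) .nil) (.cons 19 (nat_lit 19)
  true V141 (nat_lit 760) (nat_lit 2) (nat_lit 0) (.skip (.cons V51 (nat_lit 5320) (nat_lit 1)
  (nat_lit 0) (nat_lit 0) (nat_lit 0) .nil)) .nil))))⟩

noncomputable def tA305 : Test :=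
  ⟨4, 5, (nat_lit 742140), V236, (nat_lit 20), (nat_lit 2), (nat_lit 0), (.cons 9 (nat_lit 3) true
  V194 (nat_lit 180) (nat_lit 2) (nat_lit 0) .nil (.cons 7 (nat_lit 7) true V204 (nat_lit 140)
  (nat_lit 1) (nat_lit 0) (.cons V117 (nat_lit 1260) (nat_lit 2) (nat_lit 0) (nat_lit 0) (nat_lit
  1) .nil) (.cons 19 (nat_lit 19) false V172 (nat_lit 380) (nat_lit 0) (nat_lit 0) (.cons V85
  (nat_lit 2660) (nat_lit 0) (nat_lit 1) (nat_lit 0) (nat_lit 0) .nil) (.cons 31 (nat_lit 31)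
  false V152 (nat_lit 620) (nat_lit 0) (nat_lit 0) (.skip (.skip (.cons V50 (nat_lit 5580)
  (nat_lit 1) (nat_lit 2) (nat_lit 0) (nat_lit 2) .nil))) .nil))))⟩

noncomputable def tA306 : Test :=
  ⟨23, 1, (nat_lit 115713), V235, (nat_lit 23), (nat_lit 0), (nat_lit 0), (.cons 9 (nat_lit 3)
  true V193 (nat_lit 207) (nat_lit 2) (nat_lit 0) .nil (.cons 13 (nat_lit 13) true V181 (nat_lit
  299) (nat_lit 2) (nat_lit 0) .nil (.cons 43 (nat_lit 43) false V129 (nat_lit 989) (nat_lit 0)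
  (nat_lit 0) (.cons V10 (nat_lit 12857) (nat_lit 0) (nat_lit 2) (nat_lit 0) (nat_lit 1) (.cons
  V26 (nat_lit 8901) (nat_lit 0) (nat_lit 2) (nat_lit 0) (nat_lit 1) .nil)) .nil)))⟩

noncomputable def tA307 : Test :=
  ⟨16, 5, (nat_lit 112840), V229, (nat_lit 40), (nat_lit 1), (nat_lit 0), (.cons 7 (nat_lit 7)
  true V182 (nat_lit 280) (nat_lit 0) (nat_lit 0) .nil (.cons 13 (nat_lit 13) true V157 (nat_lit
  520) (nat_lit 1) (nat_lit 0) .nil (.cons 31 (nat_lit 31) false V118 (nat_lit 1240) (nat_lit 0)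
  (nat_lit 0) (.cons V3 (nat_lit 16120) (nat_lit 0) (nat_lit 1) (nat_lit 0) (nat_lit 0) .nil)
  .nil)))⟩

noncomputable def tA308 : Test :=
  ⟨31, 1, (nat_lit 177289), V233, (nat_lit 31), (nat_lit 0), (nat_lit 0), (.cons 7 (nat_lit 7)
  true V190 (nat_lit 217) (nat_lit 1) (nat_lit 0) .nil (.cons 19 (nat_lit 19) true V154 (nat_lit
  589) (nat_lit 1) (nat_lit 0) .nil (.cons 43 (nat_lit 43) false V112 (nat_lit 1333) (nat_lit 0)
  (nat_lit 0) .nil .nil)))⟩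

noncomputable def tA309 : Test :=
  ⟨4, 5, (nat_lit 1679580), V236, (nat_lit 20), (nat_lit 2), (nat_lit 0), (.cons 9 (nat_lit 3)
  true V194 (nat_lit 180) (nat_lit 2) (nat_lit 0) .nil (.cons 7 (nat_lit 7) true V204 (nat_lit
  140) (nat_lit 1) (nat_lit 0) .nil (.cons 31 (nat_lit 31) false V152 (nat_lit 620) (nat_lit 0)
  (nat_lit 0) (.skip (.cons V50 (nat_lit 5580) (nat_lit 1) (nat_lit 2) (nat_lit 0) (nat_lit 2)
  .nil)) (.cons 43 (nat_lit 43) true V135 (nat_lit 860) (nat_lit 1) (nat_lit 0) (.skip (.cons V46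
  (nat_lit 6020) (nat_lit 2) (nat_lit 0) (nat_lit 0) (nat_lit 0) (.cons V32 (nat_lit 7740)
  (nat_lit 0) (nat_lit 0) (nat_lit 0) (nat_lit 1) .nil))) .nil))))⟩

noncomputable def tA310 : Test :=
  ⟨23, 1, (nat_lit 6417), V235, (nat_lit 23), (nat_lit 0), (nat_lit 0), (.cons 9 (nat_lit 3) true
  V193 (nat_lit 207) (nat_lit 2) (nat_lit 0) .nil (.cons 31 (nat_lit 31) true V148 (nat_lit 713)
  (nat_lit 1) (nat_lit 0) (.cons V45 (nat_lit 6417) (nat_lit 0) (nat_lit 0) (nat_lit 0) (nat_lit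
  2) .nil) .nil))⟩

noncomputable def tA311 : Test :=
  ⟨23, 1, (nat_lit 51129), V235, (nat_lit 23), (nat_lit 0), (nat_lit 0), (.cons 9 (nat_lit 3) true
  V193 (nat_lit 207) (nat_lit 2) (nat_lit 0) .nil (.cons 13 (nat_lit 13) true V181 (nat_lit 299)
  (nat_lit 2) (nat_lit 0) .nil (.cons 19 (nat_lit 19) false V167 (nat_lit 437) (nat_lit 0)
  (nat_lit 0) (.cons V49 (nat_lit 5681) (nat_lit 0) (nat_lit 2) (nat_lit 0) (nat_lit 1) (.cons V68
  (nat_lit 3933) (nat_lit 0) (nat_lit 2) (nat_lit 0) (nat_lit 0) .nil)) .nil)))⟩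

noncomputable def tA312 : Test :=
  ⟨23, 1, (nat_lit 51129), V235, (nat_lit 23), (nat_lit 0), (nat_lit 0), (.cons 9 (nat_lit 3) true
  V193 (nat_lit 207) (nat_lit 2) (nat_lit 0) .nil (.cons 13 (nat_lit 13) true V181 (nat_lit 299)
  (nat_lit 2) (nat_lit 0) .nil (.cons 19 (nat_lit 19) false V167 (nat_lit 437) (nat_lit 0)
  (nat_lit 0) .nil .nil)))⟩

noncomputable def tA313 : Test :=
  ⟨31, 1, (nat_lit 177289), V233, (nat_lit 31), (nat_lit 0), (nat_lit 0), (.cons 7 (nat_lit 7)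
  true V190 (nat_lit 217) (nat_lit 1) (nat_lit 0) .nil (.cons 19 (nat_lit 19) true V154 (nat_lit
  589) (nat_lit 1) (nat_lit 0) (.cons V65 (nat_lit 4123) (nat_lit 1) (nat_lit 0) (nat_lit 0)
  (nat_lit 0) .nil) (.cons 43 (nat_lit 43) false V112 (nat_lit 1333) (nat_lit 0) (nat_lit 0) .nil
  .nil)))⟩

noncomputable def tA314 : Test :=
  ⟨16, 5, (nat_lit 108360), V229, (nat_lit 40), (nat_lit 1), (nat_lit 0), (.cons 9 (nat_lit 3)
  false V175 (nat_lit 360) (nat_lit 0) (nat_lit 0) .nil (.cons 7 (nat_lit 7) true V182 (nat_lit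
  280) (nat_lit 0) (nat_lit 0) (.cons V86 (nat_lit 2520) (nat_lit 1) (nat_lit 0) (nat_lit 0)
  (nat_lit 1) .nil) (.cons 43 (nat_lit 43) false V103 (nat_lit 1720) (nat_lit 0) (nat_lit 0)
  (.cons V11 (nat_lit 12040) (nat_lit 0) (nat_lit 0) (nat_lit 0) (nat_lit 0) .nil) .nil)))⟩

noncomputable def tA315 : Test :=
  ⟨16, 5, (nat_lit 1015560), V229, (nat_lit 40), (nat_lit 1), (nat_lit 0), (.cons 9 (nat_lit 3)
  false V175 (nat_lit 360) (nat_lit 0) (nat_lit 0) .nil (.cons 7 (nat_lit 7) true V182 (nat_lit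
  280) (nat_lit 0) (nat_lit 0) .nil (.cons 13 (nat_lit 13) true V157 (nat_lit 520) (nat_lit 1)
  (nat_lit 0) (.cons V72 (nat_lit 3640) (nat_lit 2) (nat_lit 0) (nat_lit 0) (nat_lit 0) (.cons V59
  (nat_lit 4680) (nat_lit 2) (nat_lit 1) (nat_lit 0) (nat_lit 2) .nil)) (.cons 31 (nat_lit 31)
  false V118 (nat_lit 1240) (nat_lit 0) (nat_lit 0) (.skip (.cons V27 (nat_lit 8680) (nat_lit 1)
  (nat_lit 0) (nat_lit 0) (nat_lit 1) .nil)) .nil))))⟩

noncomputable def tA316 : Test :=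
  ⟨4, 5, (nat_lit 147060), V236, (nat_lit 20), (nat_lit 2), (nat_lit 0), (.cons 9 (nat_lit 3) true
  V194 (nat_lit 180) (nat_lit 2) (nat_lit 0) .nil (.cons 19 (nat_lit 19) false V172 (nat_lit 380)
  (nat_lit 0) (nat_lit 0) (.cons V75 (nat_lit 3420) (nat_lit 0) (nat_lit 2) (nat_lit 0) (nat_lit
  0) .nil) (.cons 43 (nat_lit 43) true V135 (nat_lit 860) (nat_lit 1) (nat_lit 0) (.cons V2
  (nat_lit 16340) (nat_lit 2) (nat_lit 1) (nat_lit 0) (nat_lit 1) .nil) .nil)))⟩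

noncomputable def tA317 : Test :=
  ⟨16, 5, (nat_lit 622440), V229, (nat_lit 40), (nat_lit 1), (nat_lit 0), (.cons 9 (nat_lit 3)
  false V175 (nat_lit 360) (nat_lit 0) (nat_lit 0) .nil (.cons 7 (nat_lit 7) true V182 (nat_lit
  280) (nat_lit 0) (nat_lit 0) .nil (.cons 13 (nat_lit 13) true V157 (nat_lit 520) (nat_lit 1)
  (nat_lit 0) (.skip (.cons V59 (nat_lit 4680) (nat_lit 2) (nat_lit 1) (nat_lit 0) (nat_lit 2)
  .nil)) (.cons 19 (nat_lit 19) true V141 (nat_lit 760) (nat_lit 2) (nat_lit 0) (.skip (.cons V51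
  (nat_lit 5320) (nat_lit 1) (nat_lit 0) (nat_lit 0) (nat_lit 0) .nil)) .nil))))⟩

noncomputable def tA318 : Test :=
  ⟨5, 11, (nat_lit 855855), V224, (nat_lit 55), (nat_lit 2), (nat_lit 0), (.cons 9 (nat_lit 3)
  false V161 (nat_lit 495) (nat_lit 0) (nat_lit 0) .nil (.cons 7 (nat_lit 7) true V170 (nat_lit
  385) (nat_lit 0) (nat_lit 0) .nil (.cons 13 (nat_lit 13) true V147 (nat_lit 715) (nat_lit 1)
  (nat_lit 0) (.skip (.cons V44 (nat_lit 6435) (nat_lit 1) (nat_lit 1) (nat_lit 0) (nat_lit 2)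
  .nil)) (.cons 19 (nat_lit 19) false V126 (nat_lit 1045) (nat_lit 0) (nat_lit 0) (.skip (.cons
  V34 (nat_lit 7315) (nat_lit 0) (nat_lit 0) (nat_lit 0) (nat_lit 0) .nil)) .nil))))⟩

noncomputable def tA319 : Test :=
  ⟨16, 5, (nat_lit 112840), V229, (nat_lit 40), (nat_lit 1), (nat_lit 0), (.cons 7 (nat_lit 7)
  true V182 (nat_lit 280) (nat_lit 0) (nat_lit 0) .nil (.cons 13 (nat_lit 13) true V157 (nat_lit
  520) (nat_lit 1) (nat_lit 0) .nil (.cons 31 (nat_lit 31) false V118 (nat_lit 1240) (nat_lit 0)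
  (nat_lit 0) (.cons V3 (nat_lit 16120) (nat_lit 0) (nat_lit 1) (nat_lit 0) (nat_lit 0) (.cons V27
  (nat_lit 8680) (nat_lit 1) (nat_lit 0) (nat_lit 0) (nat_lit 1) .nil)) .nil)))⟩

noncomputable def tA320 : Test :=
  ⟨8, 11, (nat_lit 195624), V217, (nat_lit 88), (nat_lit 1), (nat_lit 0), (.cons 9 (nat_lit 3)
  false V140 (nat_lit 792) (nat_lit 0) (nat_lit 0) .nil (.cons 13 (nat_lit 13) true V121 (nat_lit
  1144) (nat_lit 0) (nat_lit 0) (.cons V18 (nat_lit 10296) (nat_lit 2) (nat_lit 0) (nat_lit 0)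
  (nat_lit 2) .nil) (.cons 19 (nat_lit 19) true V105 (nat_lit 1672) (nat_lit 1) (nat_lit 0) .nil
  .nil)))⟩

noncomputable def tA321 : Test :=
  ⟨23, 1, (nat_lit 131537), V235, (nat_lit 23), (nat_lit 0), (nat_lit 0), (.cons 7 (nat_lit 7)
  false V197 (nat_lit 161) (nat_lit 0) (nat_lit 0) .nil (.cons 19 (nat_lit 19) false V167 (nat_lit
  437) (nat_lit 0) (nat_lit 0) (.cons V79 (nat_lit 3059) (nat_lit 0) (nat_lit 0) (nat_lit 0)
  (nat_lit 0) .nil) (.cons 43 (nat_lit 43) false V129 (nat_lit 989) (nat_lit 0) (nat_lit 0) .nil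
  .nil)))⟩

noncomputable def tA322 : Test :=
  ⟨23, 1, (nat_lit 18791), V235, (nat_lit 23), (nat_lit 0), (nat_lit 0), (.cons 19 (nat_lit 19)
  false V167 (nat_lit 437) (nat_lit 0) (nat_lit 0) .nil (.cons 43 (nat_lit 43) false V129 (nat_lit
  989) (nat_lit 0) (nat_lit 0) .nil .nil))⟩

noncomputable def tA323 : Test :=
  ⟨16, 5, (nat_lit 622440), V229, (nat_lit 40), (nat_lit 1), (nat_lit 0), (.cons 9 (nat_lit 3)
  false V175 (nat_lit 360) (nat_lit 0) (nat_lit 0) .nil (.cons 7 (nat_lit 7) true V182 (nat_lit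
  280) (nat_lit 0) (nat_lit 0) (.cons V86 (nat_lit 2520) (nat_lit 1) (nat_lit 0) (nat_lit 0)
  (nat_lit 1) .nil) (.cons 13 (nat_lit 13) true V157 (nat_lit 520) (nat_lit 1) (nat_lit 0) (.cons
  V72 (nat_lit 3640) (nat_lit 2) (nat_lit 0) (nat_lit 0) (nat_lit 0) .nil) (.cons 19 (nat_lit 19)
  true V141 (nat_lit 760) (nat_lit 2) (nat_lit 0) (.skip (.skip (.cons V37 (nat_lit 6840) (nat_lit
  0) (nat_lit 2) (nat_lit 0) (nat_lit 0) .nil))) .nil))))⟩

noncomputable def tA324 : Test :=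
  ⟨8, 11, (nat_lit 248248), V217, (nat_lit 88), (nat_lit 1), (nat_lit 0), (.cons 7 (nat_lit 7)
  false V153 (nat_lit 616) (nat_lit 0) (nat_lit 0) .nil (.cons 13 (nat_lit 13) true V121 (nat_lit
  1144) (nat_lit 0) (nat_lit 0) (.cons V31 (nat_lit 8008) (nat_lit 0) (nat_lit 0) (nat_lit 0)
  (nat_lit 0) .nil) (.cons 31 (nat_lit 31) true V82 (nat_lit 2728) (nat_lit 1) (nat_lit 0) .nil
  .nil)))⟩

noncomputable def tA325 : Test :=
  ⟨23, 1, (nat_lit 809991), V235, (nat_lit 23), (nat_lit 0), (nat_lit 0), (.cons 9 (nat_lit 3)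
  true V193 (nat_lit 207) (nat_lit 2) (nat_lit 0) .nil (.cons 7 (nat_lit 7) false V197 (nat_lit
  161) (nat_lit 0) (nat_lit 0) .nil (.cons 13 (nat_lit 13) true V181 (nat_lit 299) (nat_lit 2)
  (nat_lit 0) .nil (.cons 43 (nat_lit 43) false V129 (nat_lit 989) (nat_lit 0) (nat_lit 0) (.cons
  V10 (nat_lit 12857) (nat_lit 0) (nat_lit 2) (nat_lit 0) (nat_lit 1) (.cons V35 (nat_lit 6923)
  (nat_lit 0) (nat_lit 0) (nat_lit 0) (nat_lit 0) (.cons V26 (nat_lit 8901) (nat_lit 0) (nat_lit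
  2) (nat_lit 0) (nat_lit 1) .nil))) .nil))))⟩

noncomputable def tA326 : Test :=
  ⟨16, 5, (nat_lit 228760), V229, (nat_lit 40), (nat_lit 1), (nat_lit 0), (.cons 7 (nat_lit 7)
  true V182 (nat_lit 280) (nat_lit 0) (nat_lit 0) .nil (.cons 19 (nat_lit 19) true V141 (nat_lit
  760) (nat_lit 2) (nat_lit 0) (.cons V51 (nat_lit 5320) (nat_lit 1) (nat_lit 0) (nat_lit 0)
  (nat_lit 0) .nil) (.cons 43 (nat_lit 43) false V103 (nat_lit 1720) (nat_lit 0) (nat_lit 0)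
  (.skip (.cons V11 (nat_lit 12040) (nat_lit 0) (nat_lit 0) (nat_lit 0) (nat_lit 0) .nil))
  .nil)))⟩

noncomputable def tA327 : Test :=
  ⟨31, 1, (nat_lit 37107), V233, (nat_lit 31), (nat_lit 0), (nat_lit 0), (.cons 9 (nat_lit 3)
  false V184 (nat_lit 279) (nat_lit 0) (nat_lit 0) .nil (.cons 7 (nat_lit 7) true V190 (nat_lit
  217) (nat_lit 1) (nat_lit 0) (.cons V99 (nat_lit 1953) (nat_lit 0) (nat_lit 1) (nat_lit 0)
  (nat_lit 1) .nil) (.cons 19 (nat_lit 19) true V154 (nat_lit 589) (nat_lit 1) (nat_lit 0) (.cons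
  V65 (nat_lit 4123) (nat_lit 1) (nat_lit 0) (nat_lit 0) (nat_lit 0) (.cons V53 (nat_lit 5301)
  (nat_lit 0) (nat_lit 1) (nat_lit 0) (nat_lit 0) .nil)) .nil)))⟩

noncomputable def tA328 : Test :=
  ⟨16, 1, (nat_lit 1247688), V240, (nat_lit 8), (nat_lit 1), (nat_lit 0), (.cons 9 (nat_lit 3)
  true V220 (nat_lit 72) (nat_lit 2) (nat_lit 0) .nil (.cons 13 (nat_lit 13) false V209 (nat_lit
  104) (nat_lit 0) (nat_lit 0) .nil (.cons 31 (nat_lit 31) false V187 (nat_lit 248) (nat_lit 0)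
  (nat_lit 0) (.skip (.cons V93 (nat_lit 2232) (nat_lit 2) (nat_lit 2) (nat_lit 0) (nat_lit 2)
  .nil)) (.cons 43 (nat_lit 43) true V176 (nat_lit 344) (nat_lit 1) (nat_lit 0) (.skip (.cons V61
  (nat_lit 4472) (nat_lit 1) (nat_lit 1) (nat_lit 0) (nat_lit 1) .nil)) .nil))))⟩

noncomputable def tA329 : Test :=
  ⟨16, 1, (nat_lit 1823544), V240, (nat_lit 8), (nat_lit 1), (nat_lit 0), (.cons 9 (nat_lit 3)
  true V220 (nat_lit 72) (nat_lit 2) (nat_lit 0) .nil (.cons 19 (nat_lit 19) true V200 (nat_lit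
  152) (nat_lit 1) (nat_lit 0) (.cons V111 (nat_lit 1368) (nat_lit 1) (nat_lit 0) (nat_lit 0)
  (nat_lit 0) .nil) (.cons 31 (nat_lit 31) false V187 (nat_lit 248) (nat_lit 0) (nat_lit 0) (.skip
  (.cons V93 (nat_lit 2232) (nat_lit 2) (nat_lit 2) (nat_lit 0) (nat_lit 2) .nil)) (.cons 43
  (nat_lit 43) true V176 (nat_lit 344) (nat_lit 1) (nat_lit 0) (.skip (.cons V41 (nat_lit 6536)
  (nat_lit 2) (nat_lit 0) (nat_lit 0) (nat_lit 1) .nil)) .nil))))⟩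

noncomputable def tA330 : Test :=
  ⟨4, 5, (nat_lit 1679580), V236, (nat_lit 20), (nat_lit 2), (nat_lit 0), (.cons 9 (nat_lit 3)
  true V194 (nat_lit 180) (nat_lit 2) (nat_lit 0) .nil (.cons 7 (nat_lit 7) true V204 (nat_lit
  140) (nat_lit 1) (nat_lit 0) .nil (.cons 31 (nat_lit 31) false V152 (nat_lit 620) (nat_lit 0)
  (nat_lit 0) (.cons V63 (nat_lit 4340) (nat_lit 2) (nat_lit 1) (nat_lit 0) (nat_lit 1) (.cons V50
  (nat_lit 5580) (nat_lit 1) (nat_lit 2) (nat_lit 0) (nat_lit 2) .nil)) (.cons 43 (nat_lit 43)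
  true V135 (nat_lit 860) (nat_lit 1) (nat_lit 0) (.skip (.cons V46 (nat_lit 6020) (nat_lit 2)
  (nat_lit 0) (nat_lit 0) (nat_lit 0) .nil)) .nil))))⟩

noncomputable def tA331 : Test :=
  ⟨23, 1, (nat_lit 2789969), V235, (nat_lit 23), (nat_lit 0), (nat_lit 0), (.cons 7 (nat_lit 7)
  false V197 (nat_lit 161) (nat_lit 0) (nat_lit 0) .nil (.cons 13 (nat_lit 13) true V181 (nat_lit
  299) (nat_lit 2) (nat_lit 0) (.cons V94 (nat_lit 2093) (nat_lit 0) (nat_lit 2) (nat_lit 0)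
  (nat_lit 0) .nil) (.cons 31 (nat_lit 31) true V148 (nat_lit 713) (nat_lit 1) (nat_lit 0) (.skip
  (.cons V56 (nat_lit 4991) (nat_lit 0) (nat_lit 1) (nat_lit 0) (nat_lit 1) .nil)) (.cons 43
  (nat_lit 43) false V129 (nat_lit 989) (nat_lit 0) (nat_lit 0) (.skip (.skip (.cons V35 (nat_lit
  6923) (nat_lit 0) (nat_lit 0) (nat_lit 0) (nat_lit 0) .nil))) .nil))))⟩

noncomputable def tA332 : Test :=
  ⟨31, 1, (nat_lit 482391), V233, (nat_lit 31), (nat_lit 0), (nat_lit 0), (.cons 9 (nat_lit 3)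
  false V184 (nat_lit 279) (nat_lit 0) (nat_lit 0) .nil (.cons 7 (nat_lit 7) true V190 (nat_lit
  217) (nat_lit 1) (nat_lit 0) .nil (.cons 13 (nat_lit 13) false V168 (nat_lit 403) (nat_lit 0)
  (nat_lit 0) (.skip (.cons V73 (nat_lit 3627) (nat_lit 0) (nat_lit 0) (nat_lit 0) (nat_lit 2)
  .nil)) (.cons 19 (nat_lit 19) true V154 (nat_lit 589) (nat_lit 1) (nat_lit 0) (.skip (.cons V65
  (nat_lit 4123) (nat_lit 1) (nat_lit 0) (nat_lit 0) (nat_lit 0) .nil)) .nil))))⟩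

noncomputable def tA333 : Test :=
  ⟨8, 19, (nat_lit 124488), V199, (nat_lit 152), (nat_lit 0), (nat_lit 0), (.cons 9 (nat_lit 3)
  true V110 (nat_lit 1368) (nat_lit 2) (nat_lit 0) .nil (.cons 7 (nat_lit 7) true V125 (nat_lit
  1064) (nat_lit 1) (nat_lit 0) .nil (.cons 13 (nat_lit 13) true V96 (nat_lit 1976) (nat_lit 1)
  (nat_lit 0) (.cons V8 (nat_lit 13832) (nat_lit 1) (nat_lit 0) (nat_lit 0) (nat_lit 0) .nil)
  .nil)))⟩

noncomputable def tA334 : Test :=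
  ⟨16, 1, (nat_lit 764712), V240, (nat_lit 8), (nat_lit 1), (nat_lit 0), (.cons 9 (nat_lit 3) true
  V220 (nat_lit 72) (nat_lit 2) (nat_lit 0) .nil (.cons 13 (nat_lit 13) false V209 (nat_lit 104)
  (nat_lit 0) (nat_lit 0) (.cons V132 (nat_lit 936) (nat_lit 2) (nat_lit 2) (nat_lit 0) (nat_lit
  2) .nil) (.cons 19 (nat_lit 19) true V200 (nat_lit 152) (nat_lit 1) (nat_lit 0) (.skip (.cons
  V111 (nat_lit 1368) (nat_lit 1) (nat_lit 0) (nat_lit 0) (nat_lit 0) .nil)) (.cons 43 (nat_lit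
  43) true V176 (nat_lit 344) (nat_lit 1) (nat_lit 0) .nil .nil))))⟩

noncomputable def tA335 : Test :=
  ⟨4, 5, (nat_lit 114380), V236, (nat_lit 20), (nat_lit 2), (nat_lit 0), (.cons 7 (nat_lit 7) true
  V204 (nat_lit 140) (nat_lit 1) (nat_lit 0) .nil (.cons 19 (nat_lit 19) false V172 (nat_lit 380)
  (nat_lit 0) (nat_lit 0) (.cons V85 (nat_lit 2660) (nat_lit 0) (nat_lit 1) (nat_lit 0) (nat_lit
  0) .nil) (.cons 43 (nat_lit 43) true V135 (nat_lit 860) (nat_lit 1) (nat_lit 0) (.cons V2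
  (nat_lit 16340) (nat_lit 2) (nat_lit 1) (nat_lit 0) (nat_lit 1) .nil) .nil)))⟩

noncomputable def tA336 : Test :=
  ⟨4, 5, (nat_lit 311220), V236, (nat_lit 20), (nat_lit 2), (nat_lit 0), (.cons 9 (nat_lit 3) true
  V194 (nat_lit 180) (nat_lit 2) (nat_lit 0) .nil (.cons 7 (nat_lit 7) true V204 (nat_lit 140)
  (nat_lit 1) (nat_lit 0) (.cons V117 (nat_lit 1260) (nat_lit 2) (nat_lit 0) (nat_lit 0) (nat_lit
  1) .nil) (.cons 13 (nat_lit 13) false V185 (nat_lit 260) (nat_lit 0) (nat_lit 0) (.cons V101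
  (nat_lit 1820) (nat_lit 0) (nat_lit 1) (nat_lit 0) (nat_lit 0) .nil) (.cons 19 (nat_lit 19)
  false V172 (nat_lit 380) (nat_lit 0) (nat_lit 0) (.skip (.skip (.cons V75 (nat_lit 3420)
  (nat_lit 0) (nat_lit 2) (nat_lit 0) (nat_lit 0) .nil))) .nil))))⟩

noncomputable def tA337 : Test :=
  ⟨8, 11, (nat_lit 1369368), V217, (nat_lit 88), (nat_lit 1), (nat_lit 0), (.cons 9 (nat_lit 3)
  false V140 (nat_lit 792) (nat_lit 0) (nat_lit 0) .nil (.cons 7 (nat_lit 7) false V153 (nat_lit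
  616) (nat_lit 0) (nat_lit 0) .nil (.cons 13 (nat_lit 13) true V121 (nat_lit 1144) (nat_lit 0)
  (nat_lit 0) (.skip (.cons V18 (nat_lit 10296) (nat_lit 2) (nat_lit 0) (nat_lit 0) (nat_lit 2)
  .nil)) (.cons 19 (nat_lit 19) true V105 (nat_lit 1672) (nat_lit 1) (nat_lit 0) (.skip (.cons V15
  (nat_lit 11704) (nat_lit 0) (nat_lit 1) (nat_lit 0) (nat_lit 0) .nil)) .nil))))⟩

noncomputable def tA338 : Test :=
  ⟨4, 5, (nat_lit 100620), V236, (nat_lit 20), (nat_lit 2), (nat_lit 0), (.cons 9 (nat_lit 3) true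
  V194 (nat_lit 180) (nat_lit 2) (nat_lit 0) .nil (.cons 13 (nat_lit 13) false V185 (nat_lit 260)
  (nat_lit 0) (nat_lit 0) (.cons V90 (nat_lit 2340) (nat_lit 1) (nat_lit 2) (nat_lit 0) (nat_lit
  2) .nil) (.cons 43 (nat_lit 43) true V135 (nat_lit 860) (nat_lit 1) (nat_lit 0) (.skip (.cons
  V32 (nat_lit 7740) (nat_lit 0) (nat_lit 0) (nat_lit 0) (nat_lit 1) .nil)) .nil)))⟩

noncomputable def tA339 : Test :=
  ⟨11, 1, (nat_lit 131967), V239, (nat_lit 11), (nat_lit 1), (nat_lit 0), (.cons 9 (nat_lit 3)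
  true V212 (nat_lit 99) (nat_lit 1) (nat_lit 0) .nil (.cons 31 (nat_lit 31) true V177 (nat_lit
  341) (nat_lit 2) (nat_lit 0) .nil (.cons 43 (nat_lit 43) false V162 (nat_lit 473) (nat_lit 0)
  (nat_lit 0) (.cons V5 (nat_lit 14663) (nat_lit 1) (nat_lit 2) (nat_lit 0) (nat_lit 1) (.cons V64
  (nat_lit 4257) (nat_lit 1) (nat_lit 1) (nat_lit 0) (nat_lit 1) .nil)) .nil)))⟩

noncomputable def tA340 : Test :=
  ⟨16, 5, (nat_lit 112840), V229, (nat_lit 40), (nat_lit 1), (nat_lit 0), (.cons 7 (nat_lit 7)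
  true V182 (nat_lit 280) (nat_lit 0) (nat_lit 0) .nil (.cons 13 (nat_lit 13) true V157 (nat_lit
  520) (nat_lit 1) (nat_lit 0) (.cons V72 (nat_lit 3640) (nat_lit 2) (nat_lit 0) (nat_lit 0)
  (nat_lit 0) .nil) (.cons 31 (nat_lit 31) false V118 (nat_lit 1240) (nat_lit 0) (nat_lit 0)
  (.cons V3 (nat_lit 16120) (nat_lit 0) (nat_lit 1) (nat_lit 0) (nat_lit 0) (.cons V27 (nat_lit
  8680) (nat_lit 1) (nat_lit 0) (nat_lit 0) (nat_lit 1) .nil)) .nil)))⟩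

noncomputable def tA341 : Test :=
  ⟨16, 5, (nat_lit 622440), V229, (nat_lit 40), (nat_lit 1), (nat_lit 0), (.cons 9 (nat_lit 3)
  false V175 (nat_lit 360) (nat_lit 0) (nat_lit 0) .nil (.cons 7 (nat_lit 7) true V182 (nat_lit
  280) (nat_lit 0) (nat_lit 0) (.cons V86 (nat_lit 2520) (nat_lit 1) (nat_lit 0) (nat_lit 0)
  (nat_lit 1) .nil) (.cons 13 (nat_lit 13) true V157 (nat_lit 520) (nat_lit 1) (nat_lit 0) .nil
  (.cons 19 (nat_lit 19) true V141 (nat_lit 760) (nat_lit 2) (nat_lit 0) (.cons V19 (nat_lit 9880)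
  (nat_lit 0) (nat_lit 0) (nat_lit 0) (nat_lit 1) .nil) .nil))))⟩

noncomputable def tA342 : Test :=
  ⟨5, 11, (nat_lit 855855), V224, (nat_lit 55), (nat_lit 2), (nat_lit 0), (.cons 9 (nat_lit 3)
  false V161 (nat_lit 495) (nat_lit 0) (nat_lit 0) .nil (.cons 7 (nat_lit 7) true V170 (nat_lit
  385) (nat_lit 0) (nat_lit 0) (.cons V74 (nat_lit 3465) (nat_lit 2) (nat_lit 0) (nat_lit 0)
  (nat_lit 1) .nil) (.cons 13 (nat_lit 13) true V147 (nat_lit 715) (nat_lit 1) (nat_lit 0) .nil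
  (.cons 19 (nat_lit 19) false V126 (nat_lit 1045) (nat_lit 0) (nat_lit 0) (.cons V9 (nat_lit
  13585) (nat_lit 2) (nat_lit 1) (nat_lit 0) (nat_lit 1) .nil) .nil))))⟩

noncomputable def tA343 : Test :=
  ⟨43, 1, (nat_lit 121303), V228, (nat_lit 43), (nat_lit 2), (nat_lit 0), (.cons 7 (nat_lit 7)
  false V180 (nat_lit 301) (nat_lit 0) (nat_lit 0) .nil (.cons 13 (nat_lit 13) true V156 (nat_lit
  559) (nat_lit 2) (nat_lit 0) (.cons V70 (nat_lit 3913) (nat_lit 0) (nat_lit 2) (nat_lit 0)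
  (nat_lit 0) .nil) (.cons 31 (nat_lit 31) true V113 (nat_lit 1333) (nat_lit 1) (nat_lit 0) .nil
  .nil)))⟩

noncomputable def tA344 : Test :=
  ⟨16, 5, (nat_lit 622440), V229, (nat_lit 40), (nat_lit 1), (nat_lit 0), (.cons 9 (nat_lit 3)
  false V175 (nat_lit 360) (nat_lit 0) (nat_lit 0) .nil (.cons 7 (nat_lit 7) true V182 (nat_lit
  280) (nat_lit 0) (nat_lit 0) (.cons V86 (nat_lit 2520) (nat_lit 1) (nat_lit 0) (nat_lit 0)
  (nat_lit 1) .nil) (.cons 13 (nat_lit 13) true V157 (nat_lit 520) (nat_lit 1) (nat_lit 0) (.cons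
  V72 (nat_lit 3640) (nat_lit 2) (nat_lit 0) (nat_lit 0) (nat_lit 0) .nil) (.cons 19 (nat_lit 19)
  true V141 (nat_lit 760) (nat_lit 2) (nat_lit 0) .nil .nil))))⟩

noncomputable def tA345 : Test :=
  ⟨16, 5, (nat_lit 622440), V229, (nat_lit 40), (nat_lit 1), (nat_lit 0), (.cons 9 (nat_lit 3)
  false V175 (nat_lit 360) (nat_lit 0) (nat_lit 0) .nil (.cons 7 (nat_lit 7) true V182 (nat_lit
  280) (nat_lit 0) (nat_lit 0) .nil (.cons 13 (nat_lit 13) true V157 (nat_lit 520) (nat_lit 1)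
  (nat_lit 0) (.cons V72 (nat_lit 3640) (nat_lit 2) (nat_lit 0) (nat_lit 0) (nat_lit 0) .nil)
  (.cons 19 (nat_lit 19) true V141 (nat_lit 760) (nat_lit 2) (nat_lit 0) (.skip (.cons V51
  (nat_lit 5320) (nat_lit 1) (nat_lit 0) (nat_lit 0) (nat_lit 0) (.cons V37 (nat_lit 6840)
  (nat_lit 0) (nat_lit 2) (nat_lit 0) (nat_lit 0) .nil))) .nil))))⟩

noncomputable def tA346 : Test :=
  ⟨16, 5, (nat_lit 622440), V229, (nat_lit 40), (nat_lit 1), (nat_lit 0), (.cons 9 (nat_lit 3)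
  false V175 (nat_lit 360) (nat_lit 0) (nat_lit 0) .nil (.cons 7 (nat_lit 7) true V182 (nat_lit
  280) (nat_lit 0) (nat_lit 0) .nil (.cons 13 (nat_lit 13) true V157 (nat_lit 520) (nat_lit 1)
  (nat_lit 0) (.cons V72 (nat_lit 3640) (nat_lit 2) (nat_lit 0) (nat_lit 0) (nat_lit 0) (.cons V59
  (nat_lit 4680) (nat_lit 2) (nat_lit 1) (nat_lit 0) (nat_lit 2) .nil)) (.cons 19 (nat_lit 19)
  true V141 (nat_lit 760) (nat_lit 2) (nat_lit 0) (.skip (.cons V51 (nat_lit 5320) (nat_lit 1)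
  (nat_lit 0) (nat_lit 0) (nat_lit 0) .nil)) .nil))))⟩

noncomputable def tA347 : Test :=
  ⟨16, 1, (nat_lit 2634008), V240, (nat_lit 8), (nat_lit 1), (nat_lit 0), (.cons 13 (nat_lit 13)
  false V209 (nat_lit 104) (nat_lit 0) (nat_lit 0) .nil (.cons 19 (nat_lit 19) true V200 (nat_lit
  152) (nat_lit 1) (nat_lit 0) .nil (.cons 31 (nat_lit 31) false V187 (nat_lit 248) (nat_lit 0)
  (nat_lit 0) (.cons V58 (nat_lit 4712) (nat_lit 0) (nat_lit 1) (nat_lit 0) (nat_lit 0) .nil)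
  (.cons 43 (nat_lit 43) true V176 (nat_lit 344) (nat_lit 1) (nat_lit 0) (.skip (.skip (.cons V61
  (nat_lit 4472) (nat_lit 1) (nat_lit 1) (nat_lit 0) (nat_lit 1) .nil))) .nil))))⟩

noncomputable def tA348 : Test :=
  ⟨16, 1, (nat_lit 124488), V240, (nat_lit 8), (nat_lit 1), (nat_lit 0), (.cons 9 (nat_lit 3) true
  V220 (nat_lit 72) (nat_lit 2) (nat_lit 0) .nil (.cons 7 (nat_lit 7) false V223 (nat_lit 56)
  (nat_lit 0) (nat_lit 0) .nil (.cons 13 (nat_lit 13) false V209 (nat_lit 104) (nat_lit 0)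
  (nat_lit 0) (.skip (.cons V132 (nat_lit 936) (nat_lit 2) (nat_lit 2) (nat_lit 0) (nat_lit 2)
  .nil)) (.cons 19 (nat_lit 19) true V200 (nat_lit 152) (nat_lit 1) (nat_lit 0) (.skip (.cons V124
  (nat_lit 1064) (nat_lit 0) (nat_lit 1) (nat_lit 0) (nat_lit 0) (.cons V111 (nat_lit 1368)
  (nat_lit 1) (nat_lit 0) (nat_lit 0) (nat_lit 0) .nil))) .nil))))⟩

noncomputable def tA349 : Test :=
  ⟨4, 5, (nat_lit 1679580), V236, (nat_lit 20), (nat_lit 2), (nat_lit 0), (.cons 9 (nat_lit 3)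
  true V194 (nat_lit 180) (nat_lit 2) (nat_lit 0) .nil (.cons 7 (nat_lit 7) true V204 (nat_lit
  140) (nat_lit 1) (nat_lit 0) (.cons V117 (nat_lit 1260) (nat_lit 2) (nat_lit 0) (nat_lit 0)
  (nat_lit 1) .nil) (.cons 31 (nat_lit 31) false V152 (nat_lit 620) (nat_lit 0) (nat_lit 0) (.skip
  (.cons V50 (nat_lit 5580) (nat_lit 1) (nat_lit 2) (nat_lit 0) (nat_lit 2) .nil)) (.cons 43
  (nat_lit 43) true V135 (nat_lit 860) (nat_lit 1) (nat_lit 0) (.skip (.cons V46 (nat_lit 6020)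
  (nat_lit 2) (nat_lit 0) (nat_lit 0) (nat_lit 0) .nil)) .nil))))⟩

noncomputable def tA350 : Test :=
  ⟨43, 1, (nat_lit 83979), V228, (nat_lit 43), (nat_lit 2), (nat_lit 0), (.cons 9 (nat_lit 3)
  false V169 (nat_lit 387) (nat_lit 0) (nat_lit 0) .nil (.cons 7 (nat_lit 7) false V180 (nat_lit
  301) (nat_lit 0) (nat_lit 0) .nil (.cons 31 (nat_lit 31) true V113 (nat_lit 1333) (nat_lit 1)
  (nat_lit 0) (.cons V23 (nat_lit 9331) (nat_lit 2) (nat_lit 1) (nat_lit 0) (nat_lit 1) (.cons V13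
  (nat_lit 11997) (nat_lit 1) (nat_lit 1) (nat_lit 0) (nat_lit 2) .nil)) .nil)))⟩

noncomputable def tA351 : Test :=
  ⟨16, 5, (nat_lit 1484280), V229, (nat_lit 40), (nat_lit 1), (nat_lit 0), (.cons 9 (nat_lit 3)
  false V175 (nat_lit 360) (nat_lit 0) (nat_lit 0) .nil (.cons 7 (nat_lit 7) true V182 (nat_lit
  280) (nat_lit 0) (nat_lit 0) .nil (.cons 19 (nat_lit 19) true V141 (nat_lit 760) (nat_lit 2)
  (nat_lit 0) (.skip (.cons V37 (nat_lit 6840) (nat_lit 0) (nat_lit 2) (nat_lit 0) (nat_lit 0)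
  .nil)) (.cons 31 (nat_lit 31) false V118 (nat_lit 1240) (nat_lit 0) (nat_lit 0) (.skip (.cons
  V27 (nat_lit 8680) (nat_lit 1) (nat_lit 0) (nat_lit 0) (nat_lit 1) .nil)) .nil))))⟩

noncomputable def tA352 : Test :=
  ⟨23, 1, (nat_lit 357903), V235, (nat_lit 23), (nat_lit 0), (nat_lit 0), (.cons 9 (nat_lit 3)
  true V193 (nat_lit 207) (nat_lit 2) (nat_lit 0) .nil (.cons 7 (nat_lit 7) false V197 (nat_lit
  161) (nat_lit 0) (nat_lit 0) .nil (.cons 13 (nat_lit 13) true V181 (nat_lit 299) (nat_lit 2)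
  (nat_lit 0) .nil (.cons 19 (nat_lit 19) false V167 (nat_lit 437) (nat_lit 0) (nat_lit 0) (.skip
  (.cons V79 (nat_lit 3059) (nat_lit 0) (nat_lit 0) (nat_lit 0) (nat_lit 0) .nil)) .nil))))⟩

noncomputable def tA353 : Test :=
  ⟨23, 1, (nat_lit 583947), V235, (nat_lit 23), (nat_lit 0), (nat_lit 0), (.cons 9 (nat_lit 3)
  true V193 (nat_lit 207) (nat_lit 2) (nat_lit 0) .nil (.cons 7 (nat_lit 7) false V197 (nat_lit
  161) (nat_lit 0) (nat_lit 0) (.cons V108 (nat_lit 1449) (nat_lit 0) (nat_lit 2) (nat_lit 0)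
  (nat_lit 1) .nil) (.cons 13 (nat_lit 13) true V181 (nat_lit 299) (nat_lit 2) (nat_lit 0) (.cons
  V94 (nat_lit 2093) (nat_lit 0) (nat_lit 2) (nat_lit 0) (nat_lit 0) .nil) (.cons 31 (nat_lit 31)
  true V148 (nat_lit 713) (nat_lit 1) (nat_lit 0) (.skip (.cons V56 (nat_lit 4991) (nat_lit 0)
  (nat_lit 1) (nat_lit 0) (nat_lit 1) .nil)) .nil))))⟩

noncomputable def tA354 : Test :=
  ⟨5, 11, (nat_lit 855855), V224, (nat_lit 55), (nat_lit 2), (nat_lit 0), (.cons 9 (nat_lit 3)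
  false V161 (nat_lit 495) (nat_lit 0) (nat_lit 0) .nil (.cons 7 (nat_lit 7) true V170 (nat_lit
  385) (nat_lit 0) (nat_lit 0) .nil (.cons 13 (nat_lit 13) true V147 (nat_lit 715) (nat_lit 1)
  (nat_lit 0) (.cons V55 (nat_lit 5005) (nat_lit 0) (nat_lit 0) (nat_lit 0) (nat_lit 0) (.cons V44
  (nat_lit 6435) (nat_lit 1) (nat_lit 1) (nat_lit 0) (nat_lit 2) .nil)) (.cons 19 (nat_lit 19)
  false V126 (nat_lit 1045) (nat_lit 0) (nat_lit 0) (.skip (.cons V34 (nat_lit 7315) (nat_lit 0)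
  (nat_lit 0) (nat_lit 0) (nat_lit 0) .nil)) .nil))))⟩

noncomputable def tA355 : Test :=
  ⟨16, 1, (nat_lit 124488), V240, (nat_lit 8), (nat_lit 1), (nat_lit 0), (.cons 9 (nat_lit 3) true
  V220 (nat_lit 72) (nat_lit 2) (nat_lit 0) .nil (.cons 7 (nat_lit 7) false V223 (nat_lit 56)
  (nat_lit 0) (nat_lit 0) (.cons V160 (nat_lit 504) (nat_lit 1) (nat_lit 2) (nat_lit 0) (nat_lit
  1) .nil) (.cons 13 (nat_lit 13) false V209 (nat_lit 104) (nat_lit 0) (nat_lit 0) .nil (.cons 19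
  (nat_lit 19) true V200 (nat_lit 152) (nat_lit 1) (nat_lit 0) (.cons V97 (nat_lit 1976) (nat_lit
  1) (nat_lit 1) (nat_lit 0) (nat_lit 1) (.cons V124 (nat_lit 1064) (nat_lit 0) (nat_lit 1)
  (nat_lit 0) (nat_lit 0) .nil)) .nil))))⟩

noncomputable def tA356 : Test :=
  ⟨31, 1, (nat_lit 482391), V233, (nat_lit 31), (nat_lit 0), (nat_lit 0), (.cons 9 (nat_lit 3)
  false V184 (nat_lit 279) (nat_lit 0) (nat_lit 0) .nil (.cons 7 (nat_lit 7) true V190 (nat_lit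
  217) (nat_lit 1) (nat_lit 0) .nil (.cons 13 (nat_lit 13) false V168 (nat_lit 403) (nat_lit 0)
  (nat_lit 0) (.cons V80 (nat_lit 2821) (nat_lit 0) (nat_lit 1) (nat_lit 0) (nat_lit 0) (.cons V73
  (nat_lit 3627) (nat_lit 0) (nat_lit 0) (nat_lit 0) (nat_lit 2) .nil)) (.cons 19 (nat_lit 19)
  true V154 (nat_lit 589) (nat_lit 1) (nat_lit 0) (.cons V33 (nat_lit 7657) (nat_lit 0) (nat_lit
  1) (nat_lit 0) (nat_lit 1) (.cons V65 (nat_lit 4123) (nat_lit 1) (nat_lit 0) (nat_lit 0)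
  (nat_lit 0) .nil)) .nil))))⟩

noncomputable def tA357 : Test :=
  ⟨23, 1, (nat_lit 357903), V235, (nat_lit 23), (nat_lit 0), (nat_lit 0), (.cons 9 (nat_lit 3)
  true V193 (nat_lit 207) (nat_lit 2) (nat_lit 0) .nil (.cons 7 (nat_lit 7) false V197 (nat_lit
  161) (nat_lit 0) (nat_lit 0) .nil (.cons 13 (nat_lit 13) true V181 (nat_lit 299) (nat_lit 2)
  (nat_lit 0) .nil (.cons 19 (nat_lit 19) false V167 (nat_lit 437) (nat_lit 0) (nat_lit 0) (.cons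
  V49 (nat_lit 5681) (nat_lit 0) (nat_lit 2) (nat_lit 0) (nat_lit 1) (.skip (.cons V68 (nat_lit
  3933) (nat_lit 0) (nat_lit 2) (nat_lit 0) (nat_lit 0) .nil))) .nil))))⟩

noncomputable def tA358 : Test :=
  ⟨23, 1, (nat_lit 357903), V235, (nat_lit 23), (nat_lit 0), (nat_lit 0), (.cons 9 (nat_lit 3)
  true V193 (nat_lit 207) (nat_lit 2) (nat_lit 0) .nil (.cons 7 (nat_lit 7) false V197 (nat_lit
  161) (nat_lit 0) (nat_lit 0) (.cons V108 (nat_lit 1449) (nat_lit 0) (nat_lit 2) (nat_lit 0)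
  (nat_lit 1) .nil) (.cons 13 (nat_lit 13) true V181 (nat_lit 299) (nat_lit 2) (nat_lit 0) (.cons
  V94 (nat_lit 2093) (nat_lit 0) (nat_lit 2) (nat_lit 0) (nat_lit 0) .nil) (.cons 19 (nat_lit 19)
  false V167 (nat_lit 437) (nat_lit 0) (nat_lit 0) (.skip (.cons V79 (nat_lit 3059) (nat_lit 0)
  (nat_lit 0) (nat_lit 0) (nat_lit 0) .nil)) .nil))))⟩

noncomputable def tA359 : Test :=
  ⟨23, 1, (nat_lit 64883), V235, (nat_lit 23), (nat_lit 0), (nat_lit 0), (.cons 7 (nat_lit 7)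
  false V197 (nat_lit 161) (nat_lit 0) (nat_lit 0) .nil (.cons 13 (nat_lit 13) true V181 (nat_lit
  299) (nat_lit 2) (nat_lit 0) (.cons V94 (nat_lit 2093) (nat_lit 0) (nat_lit 2) (nat_lit 0)
  (nat_lit 0) .nil) (.cons 31 (nat_lit 31) true V148 (nat_lit 713) (nat_lit 1) (nat_lit 0) (.skip
  (.cons V56 (nat_lit 4991) (nat_lit 0) (nat_lit 1) (nat_lit 0) (nat_lit 1) .nil)) .nil)))⟩

noncomputable def tA360 : Test :=
  ⟨8, 11, (nat_lit 319176), V217, (nat_lit 88), (nat_lit 1), (nat_lit 0), (.cons 9 (nat_lit 3)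
  false V140 (nat_lit 792) (nat_lit 0) (nat_lit 0) .nil (.cons 13 (nat_lit 13) true V121 (nat_lit
  1144) (nat_lit 0) (nat_lit 0) (.cons V18 (nat_lit 10296) (nat_lit 2) (nat_lit 0) (nat_lit 0)
  (nat_lit 2) .nil) (.cons 31 (nat_lit 31) true V82 (nat_lit 2728) (nat_lit 1) (nat_lit 0) .nil
  .nil)))⟩

noncomputable def tA361 : Test :=
  ⟨5, 11, (nat_lit 276705), V224, (nat_lit 55), (nat_lit 2), (nat_lit 0), (.cons 9 (nat_lit 3)
  false V161 (nat_lit 495) (nat_lit 0) (nat_lit 0) .nil (.cons 13 (nat_lit 13) true V147 (nat_lit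
  715) (nat_lit 1) (nat_lit 0) (.cons V44 (nat_lit 6435) (nat_lit 1) (nat_lit 1) (nat_lit 0)
  (nat_lit 2) .nil) (.cons 43 (nat_lit 43) true V89 (nat_lit 2365) (nat_lit 0) (nat_lit 0) .nil
  .nil)))⟩

noncomputable def tA362 : Test :=
  ⟨31, 1, (nat_lit 482391), V233, (nat_lit 31), (nat_lit 0), (nat_lit 0), (.cons 9 (nat_lit 3)
  false V184 (nat_lit 279) (nat_lit 0) (nat_lit 0) .nil (.cons 7 (nat_lit 7) true V190 (nat_lit
  217) (nat_lit 1) (nat_lit 0) (.cons V99 (nat_lit 1953) (nat_lit 0) (nat_lit 1) (nat_lit 0)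
  (nat_lit 1) .nil) (.cons 13 (nat_lit 13) false V168 (nat_lit 403) (nat_lit 0) (nat_lit 0) .nil
  (.cons 19 (nat_lit 19) true V154 (nat_lit 589) (nat_lit 1) (nat_lit 0) (.skip (.skip (.cons V53
  (nat_lit 5301) (nat_lit 0) (nat_lit 1) (nat_lit 0) (nat_lit 0) .nil))) .nil))))⟩

noncomputable def tA363 : Test :=
  ⟨16, 5, (nat_lit 622440), V229, (nat_lit 40), (nat_lit 1), (nat_lit 0), (.cons 9 (nat_lit 3)
  false V175 (nat_lit 360) (nat_lit 0) (nat_lit 0) .nil (.cons 7 (nat_lit 7) true V182 (nat_lit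
  280) (nat_lit 0) (nat_lit 0) .nil (.cons 13 (nat_lit 13) true V157 (nat_lit 520) (nat_lit 1)
  (nat_lit 0) (.cons V72 (nat_lit 3640) (nat_lit 2) (nat_lit 0) (nat_lit 0) (nat_lit 0) .nil)
  (.cons 19 (nat_lit 19) true V141 (nat_lit 760) (nat_lit 2) (nat_lit 0) (.skip (.skip (.cons V37
  (nat_lit 6840) (nat_lit 0) (nat_lit 2) (nat_lit 0) (nat_lit 0) .nil))) .nil))))⟩

noncomputable def tA364 : Test :=
  ⟨8, 11, (nat_lit 344344), V217, (nat_lit 88), (nat_lit 1), (nat_lit 0), (.cons 7 (nat_lit 7)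
  false V153 (nat_lit 616) (nat_lit 0) (nat_lit 0) .nil (.cons 13 (nat_lit 13) true V121 (nat_lit
  1144) (nat_lit 0) (nat_lit 0) (.cons V31 (nat_lit 8008) (nat_lit 0) (nat_lit 0) (nat_lit 0)
  (nat_lit 0) .nil) (.cons 43 (nat_lit 43) true V71 (nat_lit 3784) (nat_lit 0) (nat_lit 0) .nil
  .nil)))⟩

noncomputable def tA365 : Test :=
  ⟨31, 1, (nat_lit 482391), V233, (nat_lit 31), (nat_lit 0), (nat_lit 0), (.cons 9 (nat_lit 3)
  false V184 (nat_lit 279) (nat_lit 0) (nat_lit 0) .nil (.cons 7 (nat_lit 7) true V190 (nat_lit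
  217) (nat_lit 1) (nat_lit 0) .nil (.cons 13 (nat_lit 13) false V168 (nat_lit 403) (nat_lit 0)
  (nat_lit 0) (.cons V80 (nat_lit 2821) (nat_lit 0) (nat_lit 1) (nat_lit 0) (nat_lit 0) .nil)
  (.cons 19 (nat_lit 19) true V154 (nat_lit 589) (nat_lit 1) (nat_lit 0) (.cons V33 (nat_lit 7657)
  (nat_lit 0) (nat_lit 1) (nat_lit 0) (nat_lit 1) .nil) .nil))))⟩

noncomputable def tA366 : Test :=
  ⟨16, 1, (nat_lit 594776), V240, (nat_lit 8), (nat_lit 1), (nat_lit 0), (.cons 7 (nat_lit 7)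
  false V223 (nat_lit 56) (nat_lit 0) (nat_lit 0) .nil (.cons 13 (nat_lit 13) false V209 (nat_lit
  104) (nat_lit 0) (nat_lit 0) .nil (.cons 19 (nat_lit 19) true V200 (nat_lit 152) (nat_lit 1)
  (nat_lit 0) (.cons V97 (nat_lit 1976) (nat_lit 1) (nat_lit 1) (nat_lit 0) (nat_lit 1) (.cons
  V124 (nat_lit 1064) (nat_lit 0) (nat_lit 1) (nat_lit 0) (nat_lit 0) .nil)) (.cons 43 (nat_lit
  43) true V176 (nat_lit 344) (nat_lit 1) (nat_lit 0) (.skip (.cons V61 (nat_lit 4472) (nat_lit 1)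
  (nat_lit 1) (nat_lit 0) (nat_lit 1) .nil)) .nil))))⟩

noncomputable def tA367 : Test :=
  ⟨31, 1, (nat_lit 482391), V233, (nat_lit 31), (nat_lit 0), (nat_lit 0), (.cons 9 (nat_lit 3)
  false V184 (nat_lit 279) (nat_lit 0) (nat_lit 0) .nil (.cons 7 (nat_lit 7) true V190 (nat_lit
  217) (nat_lit 1) (nat_lit 0) (.cons V99 (nat_lit 1953) (nat_lit 0) (nat_lit 1) (nat_lit 0)
  (nat_lit 1) .nil) (.cons 13 (nat_lit 13) false V168 (nat_lit 403) (nat_lit 0) (nat_lit 0) (.skip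
  (.cons V73 (nat_lit 3627) (nat_lit 0) (nat_lit 0) (nat_lit 0) (nat_lit 2) .nil)) (.cons 19
  (nat_lit 19) true V154 (nat_lit 589) (nat_lit 1) (nat_lit 0) (.skip (.skip (.cons V53 (nat_lit
  5301) (nat_lit 0) (nat_lit 1) (nat_lit 0) (nat_lit 0) .nil))) .nil))))⟩

noncomputable def tA368 : Test :=
  ⟨5, 11, (nat_lit 855855), V224, (nat_lit 55), (nat_lit 2), (nat_lit 0), (.cons 9 (nat_lit 3)
  false V161 (nat_lit 495) (nat_lit 0) (nat_lit 0) .nil (.cons 7 (nat_lit 7) true V170 (nat_lit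
  385) (nat_lit 0) (nat_lit 0) .nil (.cons 13 (nat_lit 13) true V147 (nat_lit 715) (nat_lit 1)
  (nat_lit 0) (.skip (.cons V44 (nat_lit 6435) (nat_lit 1) (nat_lit 1) (nat_lit 0) (nat_lit 2)
  .nil)) (.cons 19 (nat_lit 19) false V126 (nat_lit 1045) (nat_lit 0) (nat_lit 0) (.cons V9
  (nat_lit 13585) (nat_lit 2) (nat_lit 1) (nat_lit 0) (nat_lit 1) (.cons V34 (nat_lit 7315)
  (nat_lit 0) (nat_lit 0) (nat_lit 0) (nat_lit 0) .nil)) .nil))))⟩

noncomputable def tA369 : Test :=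
  ⟨4, 5, (nat_lit 1679580), V236, (nat_lit 20), (nat_lit 2), (nat_lit 0), (.cons 9 (nat_lit 3)
  true V194 (nat_lit 180) (nat_lit 2) (nat_lit 0) .nil (.cons 7 (nat_lit 7) true V204 (nat_lit
  140) (nat_lit 1) (nat_lit 0) .nil (.cons 31 (nat_lit 31) false V152 (nat_lit 620) (nat_lit 0)
  (nat_lit 0) (.cons V63 (nat_lit 4340) (nat_lit 2) (nat_lit 1) (nat_lit 0) (nat_lit 1) (.cons V50
  (nat_lit 5580) (nat_lit 1) (nat_lit 2) (nat_lit 0) (nat_lit 2) .nil)) (.cons 43 (nat_lit 43)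
  true V135 (nat_lit 860) (nat_lit 1) (nat_lit 0) (.skip (.cons V46 (nat_lit 6020) (nat_lit 2)
  (nat_lit 0) (nat_lit 0) (nat_lit 0) (.cons V32 (nat_lit 7740) (nat_lit 0) (nat_lit 0) (nat_lit
  0) (nat_lit 1) .nil))) .nil))))⟩

noncomputable def tA370 : Test :=
  ⟨16, 5, (nat_lit 2143960), V229, (nat_lit 40), (nat_lit 1), (nat_lit 0), (.cons 7 (nat_lit 7)
  true V182 (nat_lit 280) (nat_lit 0) (nat_lit 0) .nil (.cons 13 (nat_lit 13) true V157 (nat_lit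
  520) (nat_lit 1) (nat_lit 0) (.cons V72 (nat_lit 3640) (nat_lit 2) (nat_lit 0) (nat_lit 0)
  (nat_lit 0) .nil) (.cons 19 (nat_lit 19) true V141 (nat_lit 760) (nat_lit 2) (nat_lit 0) .nil
  (.cons 31 (nat_lit 31) false V118 (nat_lit 1240) (nat_lit 0) (nat_lit 0) (.skip (.skip (.cons
  V27 (nat_lit 8680) (nat_lit 1) (nat_lit 0) (nat_lit 0) (nat_lit 1) .nil))) .nil))))⟩

noncomputable def tA371 : Test :=
  ⟨5, 11, (nat_lit 107415), V224, (nat_lit 55), (nat_lit 2), (nat_lit 0), (.cons 9 (nat_lit 3)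
  false V161 (nat_lit 495) (nat_lit 0) (nat_lit 0) .nil (.cons 7 (nat_lit 7) true V170 (nat_lit
  385) (nat_lit 0) (nat_lit 0) (.cons V74 (nat_lit 3465) (nat_lit 2) (nat_lit 0) (nat_lit 0)
  (nat_lit 1) .nil) (.cons 31 (nat_lit 31) true V104 (nat_lit 1705) (nat_lit 2) (nat_lit 0) (.cons
  V14 (nat_lit 11935) (nat_lit 1) (nat_lit 0) (nat_lit 0) (nat_lit 1) .nil) .nil)))⟩

noncomputable def tA372 : Test :=
  ⟨4, 5, (nat_lit 507780), V236, (nat_lit 20), (nat_lit 2), (nat_lit 0), (.cons 9 (nat_lit 3) true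
  V194 (nat_lit 180) (nat_lit 2) (nat_lit 0) .nil (.cons 7 (nat_lit 7) true V204 (nat_lit 140)
  (nat_lit 1) (nat_lit 0) (.cons V117 (nat_lit 1260) (nat_lit 2) (nat_lit 0) (nat_lit 0) (nat_lit
  1) .nil) (.cons 13 (nat_lit 13) false V185 (nat_lit 260) (nat_lit 0) (nat_lit 0) (.cons V101
  (nat_lit 1820) (nat_lit 0) (nat_lit 1) (nat_lit 0) (nat_lit 0) .nil) (.cons 31 (nat_lit 31)
  false V152 (nat_lit 620) (nat_lit 0) (nat_lit 0) (.skip (.skip (.cons V50 (nat_lit 5580)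
  (nat_lit 1) (nat_lit 2) (nat_lit 0) (nat_lit 2) .nil))) .nil))))⟩

noncomputable def tA373 : Test :=
  ⟨8, 19, (nat_lit 3859128), V199, (nat_lit 152), (nat_lit 0), (nat_lit 0), (.cons 9 (nat_lit 3)
  true V110 (nat_lit 1368) (nat_lit 2) (nat_lit 0) .nil (.cons 7 (nat_lit 7) true V125 (nat_lit
  1064) (nat_lit 1) (nat_lit 0) (.cons V21 (nat_lit 9576) (nat_lit 2) (nat_lit 0) (nat_lit 0)
  (nat_lit 1) .nil) (.cons 13 (nat_lit 13) true V96 (nat_lit 1976) (nat_lit 1) (nat_lit 0) (.cons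
  V8 (nat_lit 13832) (nat_lit 1) (nat_lit 0) (nat_lit 0) (nat_lit 0) .nil) (.cons 31 (nat_lit 31)
  false V57 (nat_lit 4712) (nat_lit 0) (nat_lit 0) .nil .nil))))⟩

noncomputable def tA374 : Test :=
  ⟨23, 1, (nat_lit 2198547), V235, (nat_lit 23), (nat_lit 0), (nat_lit 0), (.cons 9 (nat_lit 3)
  true V193 (nat_lit 207) (nat_lit 2) (nat_lit 0) .nil (.cons 13 (nat_lit 13) true V181 (nat_lit
  299) (nat_lit 2) (nat_lit 0) .nil (.cons 19 (nat_lit 19) false V167 (nat_lit 437) (nat_lit 0)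
  (nat_lit 0) .nil (.cons 43 (nat_lit 43) false V129 (nat_lit 989) (nat_lit 0) (nat_lit 0) (.skip
  (.cons V10 (nat_lit 12857) (nat_lit 0) (nat_lit 2) (nat_lit 0) (nat_lit 1) (.cons V26 (nat_lit
  8901) (nat_lit 0) (nat_lit 2) (nat_lit 0) (nat_lit 1) .nil))) .nil))))⟩

noncomputable def tA375 : Test :=
  ⟨23, 1, (nat_lit 2789969), V235, (nat_lit 23), (nat_lit 0), (nat_lit 0), (.cons 7 (nat_lit 7)
  false V197 (nat_lit 161) (nat_lit 0) (nat_lit 0) .nil (.cons 13 (nat_lit 13) true V181 (nat_lit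
  299) (nat_lit 2) (nat_lit 0) .nil (.cons 31 (nat_lit 31) true V148 (nat_lit 713) (nat_lit 1)
  (nat_lit 0) .nil (.cons 43 (nat_lit 43) false V129 (nat_lit 989) (nat_lit 0) (nat_lit 0) (.skip
  (.skip (.cons V35 (nat_lit 6923) (nat_lit 0) (nat_lit 0) (nat_lit 0) (nat_lit 0) .nil)))
  .nil))))⟩

noncomputable def tA376 : Test :=
  ⟨43, 1, (nat_lit 155961), V228, (nat_lit 43), (nat_lit 2), (nat_lit 0), (.cons 9 (nat_lit 3)
  false V169 (nat_lit 387) (nat_lit 0) (nat_lit 0) .nil (.cons 13 (nat_lit 13) true V156 (nat_lit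
  559) (nat_lit 2) (nat_lit 0) .nil (.cons 31 (nat_lit 31) true V113 (nat_lit 1333) (nat_lit 1)
  (nat_lit 0) (.skip (.cons V13 (nat_lit 11997) (nat_lit 1) (nat_lit 1) (nat_lit 0) (nat_lit 2)
  .nil)) .nil)))⟩

noncomputable def tA377 : Test :=
  ⟨5, 11, (nat_lit 513205), V224, (nat_lit 55), (nat_lit 2), (nat_lit 0), (.cons 7 (nat_lit 7)
  true V170 (nat_lit 385) (nat_lit 0) (nat_lit 0) .nil (.cons 31 (nat_lit 31) true V104 (nat_lit
  1705) (nat_lit 2) (nat_lit 0) (.cons V14 (nat_lit 11935) (nat_lit 1) (nat_lit 0) (nat_lit 0)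
  (nat_lit 1) .nil) (.cons 43 (nat_lit 43) true V89 (nat_lit 2365) (nat_lit 0) (nat_lit 0) .nil
  .nil)))⟩

noncomputable def tA378 : Test :=
  ⟨31, 1, (nat_lit 482391), V233, (nat_lit 31), (nat_lit 0), (nat_lit 0), (.cons 9 (nat_lit 3)
  false V184 (nat_lit 279) (nat_lit 0) (nat_lit 0) .nil (.cons 7 (nat_lit 7) true V190 (nat_lit
  217) (nat_lit 1) (nat_lit 0) (.cons V99 (nat_lit 1953) (nat_lit 0) (nat_lit 1) (nat_lit 0)
  (nat_lit 1) .nil) (.cons 13 (nat_lit 13) false V168 (nat_lit 403) (nat_lit 0) (nat_lit 0) (.skip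
  (.cons V73 (nat_lit 3627) (nat_lit 0) (nat_lit 0) (nat_lit 0) (nat_lit 2) .nil)) (.cons 19
  (nat_lit 19) true V154 (nat_lit 589) (nat_lit 1) (nat_lit 0) (.skip (.cons V65 (nat_lit 4123)
  (nat_lit 1) (nat_lit 0) (nat_lit 0) (nat_lit 0) (.cons V53 (nat_lit 5301) (nat_lit 0) (nat_lit
  1) (nat_lit 0) (nat_lit 0) .nil))) .nil))))⟩

noncomputable def tA379 : Test :=
  ⟨16, 5, (nat_lit 2143960), V229, (nat_lit 40), (nat_lit 1), (nat_lit 0), (.cons 7 (nat_lit 7)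
  true V182 (nat_lit 280) (nat_lit 0) (nat_lit 0) .nil (.cons 13 (nat_lit 13) true V157 (nat_lit
  520) (nat_lit 1) (nat_lit 0) .nil (.cons 19 (nat_lit 19) true V141 (nat_lit 760) (nat_lit 2)
  (nat_lit 0) (.skip (.cons V51 (nat_lit 5320) (nat_lit 1) (nat_lit 0) (nat_lit 0) (nat_lit 0)
  .nil)) (.cons 31 (nat_lit 31) false V118 (nat_lit 1240) (nat_lit 0) (nat_lit 0) (.skip (.skip
  (.cons V27 (nat_lit 8680) (nat_lit 1) (nat_lit 0) (nat_lit 0) (nat_lit 1) .nil))) .nil))))⟩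

noncomputable def tA380 : Test :=
  ⟨16, 5, (nat_lit 2143960), V229, (nat_lit 40), (nat_lit 1), (nat_lit 0), (.cons 7 (nat_lit 7)
  true V182 (nat_lit 280) (nat_lit 0) (nat_lit 0) .nil (.cons 13 (nat_lit 13) true V157 (nat_lit
  520) (nat_lit 1) (nat_lit 0) .nil (.cons 19 (nat_lit 19) true V141 (nat_lit 760) (nat_lit 2)
  (nat_lit 0) (.cons V19 (nat_lit 9880) (nat_lit 0) (nat_lit 0) (nat_lit 0) (nat_lit 1) (.cons V51
  (nat_lit 5320) (nat_lit 1) (nat_lit 0) (nat_lit 0) (nat_lit 0) .nil)) (.cons 31 (nat_lit 31)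
  false V118 (nat_lit 1240) (nat_lit 0) (nat_lit 0) (.skip (.skip (.cons V27 (nat_lit 8680)
  (nat_lit 1) (nat_lit 0) (nat_lit 0) (nat_lit 1) .nil))) .nil))))⟩

noncomputable def tA381 : Test :=
  ⟨16, 1, (nat_lit 84968), V240, (nat_lit 8), (nat_lit 1), (nat_lit 0), (.cons 13 (nat_lit 13)
  false V209 (nat_lit 104) (nat_lit 0) (nat_lit 0) .nil (.cons 19 (nat_lit 19) true V200 (nat_lit
  152) (nat_lit 1) (nat_lit 0) (.cons V97 (nat_lit 1976) (nat_lit 1) (nat_lit 1) (nat_lit 0)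
  (nat_lit 1) .nil) (.cons 43 (nat_lit 43) true V176 (nat_lit 344) (nat_lit 1) (nat_lit 0) (.cons
  V41 (nat_lit 6536) (nat_lit 2) (nat_lit 0) (nat_lit 0) (nat_lit 1) .nil) .nil)))⟩

noncomputable def tA382 : Test :=
  ⟨16, 1, (nat_lit 124488), V240, (nat_lit 8), (nat_lit 1), (nat_lit 0), (.cons 9 (nat_lit 3) true
  V220 (nat_lit 72) (nat_lit 2) (nat_lit 0) .nil (.cons 7 (nat_lit 7) false V223 (nat_lit 56)
  (nat_lit 0) (nat_lit 0) .nil (.cons 13 (nat_lit 13) false V209 (nat_lit 104) (nat_lit 0)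
  (nat_lit 0) (.skip (.cons V132 (nat_lit 936) (nat_lit 2) (nat_lit 2) (nat_lit 0) (nat_lit 2)
  .nil)) (.cons 19 (nat_lit 19) true V200 (nat_lit 152) (nat_lit 1) (nat_lit 0) (.cons V97
  (nat_lit 1976) (nat_lit 1) (nat_lit 1) (nat_lit 0) (nat_lit 1) (.cons V124 (nat_lit 1064)
  (nat_lit 0) (nat_lit 1) (nat_lit 0) (nat_lit 0) .nil)) .nil))))⟩

noncomputable def tA383 : Test :=
  ⟨5, 11, (nat_lit 26531505), V224, (nat_lit 55), (nat_lit 2), (nat_lit 0), (.cons 9 (nat_lit 3)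
  false V161 (nat_lit 495) (nat_lit 0) (nat_lit 0) .nil (.cons 7 (nat_lit 7) true V170 (nat_lit
  385) (nat_lit 0) (nat_lit 0) .nil (.cons 13 (nat_lit 13) true V147 (nat_lit 715) (nat_lit 1)
  (nat_lit 0) (.skip (.cons V44 (nat_lit 6435) (nat_lit 1) (nat_lit 1) (nat_lit 0) (nat_lit 2)
  .nil)) (.cons 19 (nat_lit 19) false V126 (nat_lit 1045) (nat_lit 0) (nat_lit 0) (.skip (.cons
  V34 (nat_lit 7315) (nat_lit 0) (nat_lit 0) (nat_lit 0) (nat_lit 0) .nil)) (.cons 31 (nat_lit 31)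
  true V104 (nat_lit 1705) (nat_lit 2) (nat_lit 0) (.skip (.skip (.cons V14 (nat_lit 11935)
  (nat_lit 1) (nat_lit 0) (nat_lit 0) (nat_lit 1) .nil))) .nil)))))⟩

noncomputable def tA384 : Test :=
  ⟨4, 5, (nat_lit 311220), V236, (nat_lit 20), (nat_lit 2), (nat_lit 0), (.cons 9 (nat_lit 3) true
  V194 (nat_lit 180) (nat_lit 2) (nat_lit 0) .nil (.cons 7 (nat_lit 7) true V204 (nat_lit 140)
  (nat_lit 1) (nat_lit 0) .nil (.cons 13 (nat_lit 13) false V185 (nat_lit 260) (nat_lit 0)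
  (nat_lit 0) (.cons V101 (nat_lit 1820) (nat_lit 0) (nat_lit 1) (nat_lit 0) (nat_lit 0) .nil)
  (.cons 19 (nat_lit 19) false V172 (nat_lit 380) (nat_lit 0) (nat_lit 0) (.skip (.skip (.cons V75
  (nat_lit 3420) (nat_lit 0) (nat_lit 2) (nat_lit 0) (nat_lit 0) .nil))) .nil))))⟩

noncomputable def tA385 : Test :=
  ⟨16, 1, (nat_lit 124488), V240, (nat_lit 8), (nat_lit 1), (nat_lit 0), (.cons 9 (nat_lit 3) true
  V220 (nat_lit 72) (nat_lit 2) (nat_lit 0) .nil (.cons 7 (nat_lit 7) false V223 (nat_lit 56)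
  (nat_lit 0) (nat_lit 0) (.cons V160 (nat_lit 504) (nat_lit 1) (nat_lit 2) (nat_lit 0) (nat_lit
  1) .nil) (.cons 13 (nat_lit 13) false V209 (nat_lit 104) (nat_lit 0) (nat_lit 0) .nil (.cons 19
  (nat_lit 19) true V200 (nat_lit 152) (nat_lit 1) (nat_lit 0) (.cons V97 (nat_lit 1976) (nat_lit
  1) (nat_lit 1) (nat_lit 0) (nat_lit 1) .nil) .nil))))⟩

noncomputable def tA386 : Test :=
  ⟨4, 13, (nat_lit 297388), V226, (nat_lit 52), (nat_lit 1), (nat_lit 0), (.cons 7 (nat_lit 7)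
  true V173 (nat_lit 364) (nat_lit 1) (nat_lit 0) .nil (.cons 19 (nat_lit 19) true V130 (nat_lit
  988) (nat_lit 0) (nat_lit 0) (.cons V36 (nat_lit 6916) (nat_lit 0) (nat_lit 0) (nat_lit 0)
  (nat_lit 0) .nil) (.cons 43 (nat_lit 43) false V92 (nat_lit 2236) (nat_lit 0) (nat_lit 0) (.skip
  (.cons V4 (nat_lit 15652) (nat_lit 0) (nat_lit 1) (nat_lit 0) (nat_lit 0) .nil)) .nil)))⟩

noncomputable def tA387 : Test :=
  ⟨43, 1, (nat_lit 1091727), V228, (nat_lit 43), (nat_lit 2), (nat_lit 0), (.cons 9 (nat_lit 3)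
  false V169 (nat_lit 387) (nat_lit 0) (nat_lit 0) .nil (.cons 7 (nat_lit 7) false V180 (nat_lit
  301) (nat_lit 0) (nat_lit 0) .nil (.cons 13 (nat_lit 13) true V156 (nat_lit 559) (nat_lit 2)
  (nat_lit 0) (.skip (.cons V54 (nat_lit 5031) (nat_lit 1) (nat_lit 2) (nat_lit 0) (nat_lit 2)
  .nil)) (.cons 31 (nat_lit 31) true V113 (nat_lit 1333) (nat_lit 1) (nat_lit 0) (.skip (.cons V23
  (nat_lit 9331) (nat_lit 2) (nat_lit 1) (nat_lit 0) (nat_lit 1) .nil)) .nil))))⟩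

noncomputable def tA388 : Test :=
  ⟨23, 1, (nat_lit 18837), V235, (nat_lit 23), (nat_lit 0), (nat_lit 0), (.cons 9 (nat_lit 3) true
  V193 (nat_lit 207) (nat_lit 2) (nat_lit 0) .nil (.cons 7 (nat_lit 7) false V197 (nat_lit 161)
  (nat_lit 0) (nat_lit 0) .nil (.cons 13 (nat_lit 13) true V181 (nat_lit 299) (nat_lit 2) (nat_lit
  0) .nil .nil)))⟩

noncomputable def tA389 : Test :=
  ⟨23, 1, (nat_lit 1232777), V235, (nat_lit 23), (nat_lit 0), (nat_lit 0), (.cons 7 (nat_lit 7)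
  false V197 (nat_lit 161) (nat_lit 0) (nat_lit 0) .nil (.cons 13 (nat_lit 13) true V181 (nat_lit
  299) (nat_lit 2) (nat_lit 0) (.cons V94 (nat_lit 2093) (nat_lit 0) (nat_lit 2) (nat_lit 0)
  (nat_lit 0) .nil) (.cons 19 (nat_lit 19) false V167 (nat_lit 437) (nat_lit 0) (nat_lit 0) .nil
  (.cons 31 (nat_lit 31) true V148 (nat_lit 713) (nat_lit 1) (nat_lit 0) (.skip (.skip (.cons V56
  (nat_lit 4991) (nat_lit 0) (nat_lit 1) (nat_lit 0) (nat_lit 1) .nil))) .nil))))⟩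

noncomputable def SA : TT :=
  (.node (.node (.node (.node (.node (.node (.node (.node (.node .nil (nat_lit 0) tA0 .nil)
  (nat_lit 1) tA1 (.node .nil (nat_lit 2) tA2 .nil)) (nat_lit 3) tA3 (.node (.node .nil (nat_lit
  4) tA4 .nil) (nat_lit 5) tA5 .nil)) (nat_lit 6) tA6 (.node (.node (.node .nil (nat_lit 7) tA7
  .nil) (nat_lit 8) tA8 .nil) (nat_lit 9) tA9 (.node (.node .nil (nat_lit 10) tA10 .nil) (nat_lit
  11) tA11 .nil))) (nat_lit 12) tA12 (.node (.node (.node (.node .nil (nat_lit 13) tA13 .nil)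
  (nat_lit 14) tA14 .nil) (nat_lit 15) tA15 (.node (.node .nil (nat_lit 16) tA16 .nil) (nat_lit
  17) tA17 .nil)) (nat_lit 18) tA18 (.node (.node (.node .nil (nat_lit 19) tA19 .nil) (nat_lit 20)
  tA20 .nil) (nat_lit 21) tA21 (.node (.node .nil (nat_lit 22) tA22 .nil) (nat_lit 23) tA23
  .nil)))) (nat_lit 24) tA24 (.node (.node (.node (.node (.node .nil (nat_lit 25) tA25 .nil)
  (nat_lit 26) tA26 .nil) (nat_lit 27) tA27 (.node (.node .nil (nat_lit 28) tA28 .nil) (nat_lit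
  29) tA29 .nil)) (nat_lit 30) tA30 (.node (.node (.node .nil (nat_lit 31) tA31 .nil) (nat_lit 32)
  tA32 .nil) (nat_lit 33) tA33 (.node (.node .nil (nat_lit 34) tA34 .nil) (nat_lit 35) tA35
  .nil))) (nat_lit 36) tA36 (.node (.node (.node (.node .nil (nat_lit 37) tA37 .nil) (nat_lit 38)
  tA38 .nil) (nat_lit 39) tA39 (.node (.node .nil (nat_lit 40) tA40 .nil) (nat_lit 41) tA41 .nil))
  (nat_lit 42) tA42 (.node (.node (.node .nil (nat_lit 43) tA43 .nil) (nat_lit 44) tA44 .nil)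
  (nat_lit 45) tA45 (.node (.node .nil (nat_lit 46) tA46 .nil) (nat_lit 47) tA47 .nil)))))
  (nat_lit 48) tA48 (.node (.node (.node (.node (.node (.node .nil (nat_lit 49) tA49 .nil)
  (nat_lit 50) tA50 (.node .nil (nat_lit 51) tA51 .nil)) (nat_lit 52) tA52 (.node (.node .nil
  (nat_lit 53) tA53 .nil) (nat_lit 54) tA54 .nil)) (nat_lit 55) tA55 (.node (.node (.node .nil
  (nat_lit 56) tA56 .nil) (nat_lit 57) tA57 .nil) (nat_lit 58) tA58 (.node (.node .nil (nat_lit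
  59) tA59 .nil) (nat_lit 60) tA60 .nil))) (nat_lit 61) tA61 (.node (.node (.node (.node .nil
  (nat_lit 62) tA62 .nil) (nat_lit 63) tA63 .nil) (nat_lit 64) tA64 (.node (.node .nil (nat_lit
  65) tA65 .nil) (nat_lit 66) tA66 .nil)) (nat_lit 67) tA67 (.node (.node (.node .nil (nat_lit 68)
  tA68 .nil) (nat_lit 69) tA69 .nil) (nat_lit 70) tA70 (.node (.node .nil (nat_lit 71) tA71 .nil)
  (nat_lit 72) tA72 .nil)))) (nat_lit 73) tA73 (.node (.node (.node (.node (.node .nil (nat_lit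
  74) tA74 .nil) (nat_lit 75) tA75 .nil) (nat_lit 76) tA76 (.node (.node .nil (nat_lit 77) tA77
  .nil) (nat_lit 78) tA78 .nil)) (nat_lit 79) tA79 (.node (.node (.node .nil (nat_lit 80) tA80
  .nil) (nat_lit 81) tA81 .nil) (nat_lit 82) tA82 (.node (.node .nil (nat_lit 83) tA83 .nil)
  (nat_lit 84) tA84 .nil))) (nat_lit 85) tA85 (.node (.node (.node (.node .nil (nat_lit 86) tA86
  .nil) (nat_lit 87) tA87 .nil) (nat_lit 88) tA88 (.node (.node .nil (nat_lit 89) tA89 .nil)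
  (nat_lit 90) tA90 .nil)) (nat_lit 91) tA91 (.node (.node (.node .nil (nat_lit 92) tA92 .nil)
  (nat_lit 93) tA93 .nil) (nat_lit 94) tA94 (.node (.node .nil (nat_lit 95) tA95 .nil) (nat_lit
  96) tA96 .nil)))))) (nat_lit 97) tA97 (.node (.node (.node (.node (.node (.node (.node .nil
  (nat_lit 98) tA98 .nil) (nat_lit 99) tA99 (.node .nil (nat_lit 100) tA100 .nil)) (nat_lit 101)
  tA101 (.node (.node .nil (nat_lit 102) tA102 .nil) (nat_lit 103) tA103 .nil)) (nat_lit 104)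
  tA104 (.node (.node (.node .nil (nat_lit 105) tA105 .nil) (nat_lit 106) tA106 .nil) (nat_lit
  107) tA107 (.node (.node .nil (nat_lit 108) tA108 .nil) (nat_lit 109) tA109 .nil))) (nat_lit
  110) tA110 (.node (.node (.node (.node .nil (nat_lit 111) tA111 .nil) (nat_lit 112) tA112 .nil)
  (nat_lit 113) tA113 (.node (.node .nil (nat_lit 114) tA114 .nil) (nat_lit 115) tA115 .nil))
  (nat_lit 116) tA116 (.node (.node (.node .nil (nat_lit 117) tA117 .nil) (nat_lit 118) tA118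
  .nil) (nat_lit 119) tA119 (.node (.node .nil (nat_lit 120) tA120 .nil) (nat_lit 121) tA121
  .nil)))) (nat_lit 122) tA122 (.node (.node (.node (.node (.node .nil (nat_lit 123) tA123 .nil)
  (nat_lit 124) tA124 .nil) (nat_lit 125) tA125 (.node (.node .nil (nat_lit 126) tA126 .nil)
  (nat_lit 127) tA127 .nil)) (nat_lit 128) tA128 (.node (.node (.node .nil (nat_lit 129) tA129
  .nil) (nat_lit 130) tA130 .nil) (nat_lit 131) tA131 (.node (.node .nil (nat_lit 132) tA132 .nil)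
  (nat_lit 133) tA133 .nil))) (nat_lit 134) tA134 (.node (.node (.node (.node .nil (nat_lit 135)
  tA135 .nil) (nat_lit 136) tA136 .nil) (nat_lit 137) tA137 (.node (.node .nil (nat_lit 138) tA138
  .nil) (nat_lit 139) tA139 .nil)) (nat_lit 140) tA140 (.node (.node (.node .nil (nat_lit 141)
  tA141 .nil) (nat_lit 142) tA142 .nil) (nat_lit 143) tA143 (.node (.node .nil (nat_lit 144) tA144
  .nil) (nat_lit 145) tA145 .nil))))) (nat_lit 146) tA146 (.node (.node (.node (.node (.node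
  (.node .nil (nat_lit 147) tA147 .nil) (nat_lit 148) tA148 (.node .nil (nat_lit 149) tA149 .nil))
  (nat_lit 150) tA150 (.node (.node .nil (nat_lit 151) tA151 .nil) (nat_lit 152) tA152 .nil))
  (nat_lit 153) tA153 (.node (.node (.node .nil (nat_lit 154) tA154 .nil) (nat_lit 155) tA155
  .nil) (nat_lit 156) tA156 (.node (.node .nil (nat_lit 157) tA157 .nil) (nat_lit 158) tA158
  .nil))) (nat_lit 159) tA159 (.node (.node (.node (.node .nil (nat_lit 160) tA160 .nil) (nat_lit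
  161) tA161 .nil) (nat_lit 162) tA162 (.node (.node .nil (nat_lit 163) tA163 .nil) (nat_lit 164)
  tA164 .nil)) (nat_lit 165) tA165 (.node (.node (.node .nil (nat_lit 166) tA166 .nil) (nat_lit
  167) tA167 .nil) (nat_lit 168) tA168 (.node (.node .nil (nat_lit 169) tA169 .nil) (nat_lit 170)
  tA170 .nil)))) (nat_lit 171) tA171 (.node (.node (.node (.node (.node .nil (nat_lit 172) tA172
  .nil) (nat_lit 173) tA173 .nil) (nat_lit 174) tA174 (.node (.node .nil (nat_lit 175) tA175 .nil)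
  (nat_lit 176) tA176 .nil)) (nat_lit 177) tA177 (.node (.node (.node .nil (nat_lit 178) tA178
  .nil) (nat_lit 179) tA179 .nil) (nat_lit 180) tA180 (.node (.node .nil (nat_lit 181) tA181 .nil)
  (nat_lit 182) tA182 .nil))) (nat_lit 183) tA183 (.node (.node (.node (.node .nil (nat_lit 184)
  tA184 .nil) (nat_lit 185) tA185 .nil) (nat_lit 186) tA186 (.node (.node .nil (nat_lit 187) tA187
  .nil) (nat_lit 188) tA188 .nil)) (nat_lit 189) tA189 (.node (.node (.node .nil (nat_lit 190)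
  tA190 .nil) (nat_lit 191) tA191 .nil) (nat_lit 192) tA192 (.node (.node .nil (nat_lit 193) tA193
  .nil) (nat_lit 194) tA194 .nil))))))) (nat_lit 195) tA195 (.node (.node (.node (.node (.node
  (.node (.node (.node .nil (nat_lit 196) tA196 .nil) (nat_lit 197) tA197 (.node .nil (nat_lit
  198) tA198 .nil)) (nat_lit 199) tA199 (.node (.node .nil (nat_lit 200) tA200 .nil) (nat_lit 201)
  tA201 .nil)) (nat_lit 202) tA202 (.node (.node (.node .nil (nat_lit 203) tA203 .nil) (nat_lit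
  204) tA204 .nil) (nat_lit 205) tA205 (.node (.node .nil (nat_lit 206) tA206 .nil) (nat_lit 207)
  tA207 .nil))) (nat_lit 208) tA208 (.node (.node (.node (.node .nil (nat_lit 209) tA209 .nil)
  (nat_lit 210) tA210 .nil) (nat_lit 211) tA211 (.node (.node .nil (nat_lit 212) tA212 .nil)
  (nat_lit 213) tA213 .nil)) (nat_lit 214) tA214 (.node (.node (.node .nil (nat_lit 215) tA215
  .nil) (nat_lit 216) tA216 .nil) (nat_lit 217) tA217 (.node (.node .nil (nat_lit 218) tA218 .nil)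
  (nat_lit 219) tA219 .nil)))) (nat_lit 220) tA220 (.node (.node (.node (.node (.node .nil
  (nat_lit 221) tA221 .nil) (nat_lit 222) tA222 .nil) (nat_lit 223) tA223 (.node (.node .nil
  (nat_lit 224) tA224 .nil) (nat_lit 225) tA225 .nil)) (nat_lit 226) tA226 (.node (.node (.node
  .nil (nat_lit 227) tA227 .nil) (nat_lit 228) tA228 .nil) (nat_lit 229) tA229 (.node (.node .nil
  (nat_lit 230) tA230 .nil) (nat_lit 231) tA231 .nil))) (nat_lit 232) tA232 (.node (.node (.node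
  (.node .nil (nat_lit 233) tA233 .nil) (nat_lit 234) tA234 .nil) (nat_lit 235) tA235 (.node
  (.node .nil (nat_lit 236) tA236 .nil) (nat_lit 237) tA237 .nil)) (nat_lit 238) tA238 (.node
  (.node (.node .nil (nat_lit 239) tA239 .nil) (nat_lit 240) tA240 .nil) (nat_lit 241) tA241
  (.node (.node .nil (nat_lit 242) tA242 .nil) (nat_lit 243) tA243 .nil))))) (nat_lit 244) tA244
  (.node (.node (.node (.node (.node (.node .nil (nat_lit 245) tA245 .nil) (nat_lit 246) tA246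
  (.node .nil (nat_lit 247) tA247 .nil)) (nat_lit 248) tA248 (.node (.node .nil (nat_lit 249)
  tA249 .nil) (nat_lit 250) tA250 .nil)) (nat_lit 251) tA251 (.node (.node (.node .nil (nat_lit
  252) tA252 .nil) (nat_lit 253) tA253 .nil) (nat_lit 254) tA254 (.node (.node .nil (nat_lit 255)
  tA255 .nil) (nat_lit 256) tA256 .nil))) (nat_lit 257) tA257 (.node (.node (.node (.node .nil
  (nat_lit 258) tA258 .nil) (nat_lit 259) tA259 .nil) (nat_lit 260) tA260 (.node (.node .nil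
  (nat_lit 261) tA261 .nil) (nat_lit 262) tA262 .nil)) (nat_lit 263) tA263 (.node (.node (.node
  .nil (nat_lit 264) tA264 .nil) (nat_lit 265) tA265 .nil) (nat_lit 266) tA266 (.node (.node .nil
  (nat_lit 267) tA267 .nil) (nat_lit 268) tA268 .nil)))) (nat_lit 269) tA269 (.node (.node (.node
  (.node (.node .nil (nat_lit 270) tA270 .nil) (nat_lit 271) tA271 .nil) (nat_lit 272) tA272
  (.node (.node .nil (nat_lit 273) tA273 .nil) (nat_lit 274) tA274 .nil)) (nat_lit 275) tA275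
  (.node (.node (.node .nil (nat_lit 276) tA276 .nil) (nat_lit 277) tA277 .nil) (nat_lit 278)
  tA278 (.node (.node .nil (nat_lit 279) tA279 .nil) (nat_lit 280) tA280 .nil))) (nat_lit 281)
  tA281 (.node (.node (.node (.node .nil (nat_lit 282) tA282 .nil) (nat_lit 283) tA283 .nil)
  (nat_lit 284) tA284 (.node (.node .nil (nat_lit 285) tA285 .nil) (nat_lit 286) tA286 .nil))
  (nat_lit 287) tA287 (.node (.node (.node .nil (nat_lit 288) tA288 .nil) (nat_lit 289) tA289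
  .nil) (nat_lit 290) tA290 (.node (.node .nil (nat_lit 291) tA291 .nil) (nat_lit 292) tA292
  .nil)))))) (nat_lit 293) tA293 (.node (.node (.node (.node (.node (.node (.node .nil (nat_lit
  294) tA294 .nil) (nat_lit 295) tA295 (.node .nil (nat_lit 296) tA296 .nil)) (nat_lit 297) tA297
  (.node (.node .nil (nat_lit 298) tA298 .nil) (nat_lit 299) tA299 .nil)) (nat_lit 300) tA300
  (.node (.node (.node .nil (nat_lit 301) tA301 .nil) (nat_lit 302) tA302 .nil) (nat_lit 303)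
  tA303 (.node (.node .nil (nat_lit 304) tA304 .nil) (nat_lit 305) tA305 .nil))) (nat_lit 306)
  tA306 (.node (.node (.node (.node .nil (nat_lit 307) tA307 .nil) (nat_lit 308) tA308 .nil)
  (nat_lit 309) tA309 (.node (.node .nil (nat_lit 310) tA310 .nil) (nat_lit 311) tA311 .nil))
  (nat_lit 312) tA312 (.node (.node (.node .nil (nat_lit 313) tA313 .nil) (nat_lit 314) tA314
  .nil) (nat_lit 315) tA315 (.node (.node .nil (nat_lit 316) tA316 .nil) (nat_lit 317) tA317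
  .nil)))) (nat_lit 318) tA318 (.node (.node (.node (.node (.node .nil (nat_lit 319) tA319 .nil)
  (nat_lit 320) tA320 .nil) (nat_lit 321) tA321 (.node (.node .nil (nat_lit 322) tA322 .nil)
  (nat_lit 323) tA323 .nil)) (nat_lit 324) tA324 (.node (.node (.node .nil (nat_lit 325) tA325
  .nil) (nat_lit 326) tA326 .nil) (nat_lit 327) tA327 (.node (.node .nil (nat_lit 328) tA328 .nil)
  (nat_lit 329) tA329 .nil))) (nat_lit 330) tA330 (.node (.node (.node (.node .nil (nat_lit 331)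
  tA331 .nil) (nat_lit 332) tA332 .nil) (nat_lit 333) tA333 (.node (.node .nil (nat_lit 334) tA334
  .nil) (nat_lit 335) tA335 .nil)) (nat_lit 336) tA336 (.node (.node (.node .nil (nat_lit 337)
  tA337 .nil) (nat_lit 338) tA338 .nil) (nat_lit 339) tA339 (.node (.node .nil (nat_lit 340) tA340
  .nil) (nat_lit 341) tA341 .nil))))) (nat_lit 342) tA342 (.node (.node (.node (.node (.node
  (.node .nil (nat_lit 343) tA343 .nil) (nat_lit 344) tA344 .nil) (nat_lit 345) tA345 (.node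
  (.node .nil (nat_lit 346) tA346 .nil) (nat_lit 347) tA347 .nil)) (nat_lit 348) tA348 (.node
  (.node (.node .nil (nat_lit 349) tA349 .nil) (nat_lit 350) tA350 .nil) (nat_lit 351) tA351
  (.node (.node .nil (nat_lit 352) tA352 .nil) (nat_lit 353) tA353 .nil))) (nat_lit 354) tA354
  (.node (.node (.node (.node .nil (nat_lit 355) tA355 .nil) (nat_lit 356) tA356 .nil) (nat_lit
  357) tA357 (.node (.node .nil (nat_lit 358) tA358 .nil) (nat_lit 359) tA359 .nil)) (nat_lit 360)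
  tA360 (.node (.node (.node .nil (nat_lit 361) tA361 .nil) (nat_lit 362) tA362 .nil) (nat_lit
  363) tA363 (.node (.node .nil (nat_lit 364) tA364 .nil) (nat_lit 365) tA365 .nil)))) (nat_lit
  366) tA366 (.node (.node (.node (.node (.node .nil (nat_lit 367) tA367 .nil) (nat_lit 368) tA368
  .nil) (nat_lit 369) tA369 (.node (.node .nil (nat_lit 370) tA370 .nil) (nat_lit 371) tA371
  .nil)) (nat_lit 372) tA372 (.node (.node (.node .nil (nat_lit 373) tA373 .nil) (nat_lit 374)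
  tA374 .nil) (nat_lit 375) tA375 (.node (.node .nil (nat_lit 376) tA376 .nil) (nat_lit 377) tA377
  .nil))) (nat_lit 378) tA378 (.node (.node (.node (.node .nil (nat_lit 379) tA379 .nil) (nat_lit
  380) tA380 .nil) (nat_lit 381) tA381 (.node (.node .nil (nat_lit 382) tA382 .nil) (nat_lit 383)
  tA383 .nil)) (nat_lit 384) tA384 (.node (.node (.node .nil (nat_lit 385) tA385 .nil) (nat_lit
  386) tA386 .nil) (nat_lit 387) tA387 (.node (.node .nil (nat_lit 388) tA388 .nil) (nat_lit 389)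
  tA389 .nil))))))))

noncomputable def OA : LS :=
  (.cons C7 7 37 7 1 (.cons C13 13 1513 13 1 (.cons C5 5 19 5 0 (.cons C19 19 298771 19 1 (.cons
  C11 11 1171 11 0 (.cons C31 31 1779853399 31 1 (.cons C43 43 1341472285129 43 1 (.cons C23 23
  3434029 23 0 .nil))))))))

noncomputable def tB0 : Test :=
  ⟨31, 1, (nat_lit 403), V233, (nat_lit 31), (nat_lit 0), (nat_lit 2), (.cons 13 (nat_lit 13)
  false V168 (nat_lit 403) (nat_lit 0) (nat_lit 2) .nil .nil)⟩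

noncomputable def tB1 : Test :=
  ⟨23, 1, (nat_lit 161), V235, (nat_lit 23), (nat_lit 0), (nat_lit 2), (.cons 7 (nat_lit 7) false
  V197 (nat_lit 161) (nat_lit 0) (nat_lit 2) .nil .nil)⟩

noncomputable def tB2 : Test :=
  ⟨31, 1, (nat_lit 279), V233, (nat_lit 31), (nat_lit 0), (nat_lit 2), (.cons 9 (nat_lit 3) false
  V184 (nat_lit 279) (nat_lit 0) (nat_lit 3) .nil .nil)⟩

noncomputable def tB3 : Test :=
  ⟨16, 1, (nat_lit 1064), V240, (nat_lit 8), (nat_lit 1), (nat_lit 2), (.cons 7 (nat_lit 7) false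
  V223 (nat_lit 56) (nat_lit 0) (nat_lit 1) .nil (.cons 19 (nat_lit 19) true V200 (nat_lit 152)
  (nat_lit 1) (nat_lit 3) (.cons V124 (nat_lit 1064) (nat_lit 0) (nat_lit 1) (nat_lit 2) (nat_lit
  0) .nil) .nil))⟩

noncomputable def tB4 : Test :=
  ⟨8, 11, (nat_lit 1144), V217, (nat_lit 88), (nat_lit 1), (nat_lit 1), (.cons 13 (nat_lit 13)
  true V121 (nat_lit 1144) (nat_lit 0) (nat_lit 0) .nil .nil)⟩

noncomputable def tB5 : Test :=
  ⟨16, 1, (nat_lit 1368), V240, (nat_lit 8), (nat_lit 1), (nat_lit 2), (.cons 9 (nat_lit 3) true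
  V220 (nat_lit 72) (nat_lit 2) (nat_lit 0) .nil (.cons 19 (nat_lit 19) true V200 (nat_lit 152)
  (nat_lit 1) (nat_lit 3) (.cons V111 (nat_lit 1368) (nat_lit 1) (nat_lit 0) (nat_lit 0) (nat_lit
  0) .nil) .nil))⟩

noncomputable def tB6 : Test :=
  ⟨4, 1, (nat_lit 364), V242, (nat_lit 4), (nat_lit 1), (nat_lit 3), (.cons 7 (nat_lit 7) false
  V234 (nat_lit 28) (nat_lit 0) (nat_lit 2) .nil (.cons 13 (nat_lit 13) true V227 (nat_lit 52)
  (nat_lit 2) (nat_lit 0) (.cons V174 (nat_lit 364) (nat_lit 0) (nat_lit 2) (nat_lit 0) (nat_lit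
  0) .nil) .nil))⟩

noncomputable def tB7 : Test :=
  ⟨4, 13, (nat_lit 1612), V226, (nat_lit 52), (nat_lit 1), (nat_lit 3), (.cons 31 (nat_lit 31)
  true V107 (nat_lit 1612) (nat_lit 1) (nat_lit 3) .nil .nil)⟩

noncomputable def tB8 : Test :=
  ⟨19, 1, (nat_lit 1197), V238, (nat_lit 19), (nat_lit 2), (nat_lit 3), (.cons 9 (nat_lit 3) false
  V196 (nat_lit 171) (nat_lit 0) (nat_lit 2) .nil (.cons 7 (nat_lit 7) true V206 (nat_lit 133)
  (nat_lit 2) (nat_lit 0) (.cons V120 (nat_lit 1197) (nat_lit 2) (nat_lit 2) (nat_lit 0) (nat_lit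
  1) .nil) .nil))⟩

noncomputable def tB9 : Test :=
  ⟨23, 1, (nat_lit 3059), V235, (nat_lit 23), (nat_lit 0), (nat_lit 2), (.cons 7 (nat_lit 7) false
  V197 (nat_lit 161) (nat_lit 0) (nat_lit 2) .nil (.cons 19 (nat_lit 19) false V167 (nat_lit 437)
  (nat_lit 0) (nat_lit 0) (.cons V79 (nat_lit 3059) (nat_lit 0) (nat_lit 0) (nat_lit 0) (nat_lit
  0) .nil) .nil))⟩

noncomputable def tB10 : Test :=
  ⟨16, 1, (nat_lit 504), V240, (nat_lit 8), (nat_lit 1), (nat_lit 2), (.cons 9 (nat_lit 3) true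
  V220 (nat_lit 72) (nat_lit 2) (nat_lit 0) .nil (.cons 7 (nat_lit 7) false V223 (nat_lit 56)
  (nat_lit 0) (nat_lit 1) (.cons V160 (nat_lit 504) (nat_lit 1) (nat_lit 2) (nat_lit 0) (nat_lit
  1) .nil) .nil))⟩

noncomputable def tB11 : Test :=
  ⟨7, 13, (nat_lit 2821), V216, (nat_lit 91), (nat_lit 1), (nat_lit 3), (.cons 31 (nat_lit 31)
  true V81 (nat_lit 2821) (nat_lit 2) (nat_lit 2) .nil .nil)⟩

noncomputable def tB12 : Test :=
  ⟨11, 1, (nat_lit 693), V239, (nat_lit 11), (nat_lit 1), (nat_lit 3), (.cons 9 (nat_lit 3) true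
  V212 (nat_lit 99) (nat_lit 1) (nat_lit 0) .nil (.cons 7 (nat_lit 7) false V218 (nat_lit 77)
  (nat_lit 0) (nat_lit 1) (.cons V149 (nat_lit 693) (nat_lit 1) (nat_lit 1) (nat_lit 0) (nat_lit
  1) .nil) .nil))⟩

noncomputable def tB13 : Test :=
  ⟨16, 1, (nat_lit 936), V240, (nat_lit 8), (nat_lit 1), (nat_lit 2), (.cons 9 (nat_lit 3) true
  V220 (nat_lit 72) (nat_lit 2) (nat_lit 0) .nil (.cons 13 (nat_lit 13) false V209 (nat_lit 104)
  (nat_lit 0) (nat_lit 2) (.cons V132 (nat_lit 936) (nat_lit 2) (nat_lit 2) (nat_lit 0) (nat_lit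
  2) .nil) .nil))⟩

noncomputable def SB : TT :=
  (.node (.node (.node (.node .nil (nat_lit 0) tB0 .nil) (nat_lit 1) tB1 (.node .nil (nat_lit 2)
  tB2 .nil)) (nat_lit 3) tB3 (.node (.node .nil (nat_lit 4) tB4 .nil) (nat_lit 5) tB5 (.node .nil
  (nat_lit 6) tB6 .nil))) (nat_lit 7) tB7 (.node (.node (.node .nil (nat_lit 8) tB8 .nil) (nat_lit
  9) tB9 (.node .nil (nat_lit 10) tB10 .nil)) (nat_lit 11) tB11 (.node (.node .nil (nat_lit 12)
  tB12 .nil) (nat_lit 13) tB13 .nil)))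

noncomputable def OB : LS :=
  (.cons C9 9 365 3 0 (.cons C8 8 85 2 0 (.cons C7 7 37 7 0 (.cons C13 13 1513 13 0 (.cons C19 19
  298771 19 0 (.cons C11 11 1171 11 0 (.cons C23 23 3434029 23 0 (.cons C31 31 1779853399 31 0
  .nil))))))))

noncomputable def tC0 : Test :=
  ⟨16, 1, (nat_lit 152), V240, (nat_lit 8), (nat_lit 1), (nat_lit 1), (.cons 19 (nat_lit 19) true
  V200 (nat_lit 152) (nat_lit 1) (nat_lit 0) .nil .nil)⟩

noncomputable def tC1 : Test :=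
  ⟨11, 1, (nat_lit 2387), V239, (nat_lit 11), (nat_lit 1), (nat_lit 2), (.cons 7 (nat_lit 7) false
  V218 (nat_lit 77) (nat_lit 0) (nat_lit 3) .nil (.cons 31 (nat_lit 31) true V177 (nat_lit 341)
  (nat_lit 2) (nat_lit 0) (.cons V88 (nat_lit 2387) (nat_lit 1) (nat_lit 2) (nat_lit 0) (nat_lit
  1) .nil) .nil))⟩

noncomputable def tC2 : Test :=
  ⟨16, 1, (nat_lit 2232), V240, (nat_lit 8), (nat_lit 1), (nat_lit 1), (.cons 9 (nat_lit 3) true
  V220 (nat_lit 72) (nat_lit 2) (nat_lit 3) .nil (.cons 31 (nat_lit 31) false V187 (nat_lit 248)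
  (nat_lit 0) (nat_lit 1) (.cons V93 (nat_lit 2232) (nat_lit 2) (nat_lit 2) (nat_lit 1) (nat_lit
  2) .nil) .nil))⟩

noncomputable def tC3 : Test :=
  ⟨8, 11, (nat_lit 1672), V217, (nat_lit 88), (nat_lit 1), (nat_lit 1), (.cons 19 (nat_lit 19)
  true V105 (nat_lit 1672) (nat_lit 1) (nat_lit 0) .nil .nil)⟩

noncomputable def tC4 : Test :=
  ⟨19, 1, (nat_lit 133), V238, (nat_lit 19), (nat_lit 2), (nat_lit 1), (.cons 7 (nat_lit 7) true
  V206 (nat_lit 133) (nat_lit 2) (nat_lit 0) .nil .nil)⟩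

noncomputable def tC5 : Test :=
  ⟨16, 1, (nat_lit 504), V240, (nat_lit 8), (nat_lit 1), (nat_lit 1), (.cons 9 (nat_lit 3) true
  V220 (nat_lit 72) (nat_lit 2) (nat_lit 3) .nil (.cons 7 (nat_lit 7) false V223 (nat_lit 56)
  (nat_lit 0) (nat_lit 3) (.cons V160 (nat_lit 504) (nat_lit 1) (nat_lit 2) (nat_lit 3) (nat_lit
  1) .nil) .nil))⟩

noncomputable def tC6 : Test :=
  ⟨11, 1, (nat_lit 693), V239, (nat_lit 11), (nat_lit 1), (nat_lit 2), (.cons 9 (nat_lit 3) true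
  V212 (nat_lit 99) (nat_lit 1) (nat_lit 3) .nil (.cons 7 (nat_lit 7) false V218 (nat_lit 77)
  (nat_lit 0) (nat_lit 3) (.cons V149 (nat_lit 693) (nat_lit 1) (nat_lit 1) (nat_lit 3) (nat_lit
  1) .nil) .nil))⟩

noncomputable def tC7 : Test :=
  ⟨11, 1, (nat_lit 3069), V239, (nat_lit 11), (nat_lit 1), (nat_lit 2), (.cons 9 (nat_lit 3) true
  V212 (nat_lit 99) (nat_lit 1) (nat_lit 3) .nil (.cons 31 (nat_lit 31) true V177 (nat_lit 341)
  (nat_lit 2) (nat_lit 0) (.cons V78 (nat_lit 3069) (nat_lit 1) (nat_lit 0) (nat_lit 0) (nat_lit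
  2) .nil) .nil))⟩

noncomputable def tC8 : Test :=
  ⟨19, 1, (nat_lit 1197), V238, (nat_lit 19), (nat_lit 2), (nat_lit 1), (.cons 9 (nat_lit 3) false
  V196 (nat_lit 171) (nat_lit 0) (nat_lit 0) .nil (.cons 7 (nat_lit 7) true V206 (nat_lit 133)
  (nat_lit 2) (nat_lit 0) (.cons V120 (nat_lit 1197) (nat_lit 2) (nat_lit 2) (nat_lit 0) (nat_lit
  1) .nil) .nil))⟩

noncomputable def tC9 : Test :=
  ⟨8, 7, (nat_lit 1064), V222, (nat_lit 56), (nat_lit 1), (nat_lit 1), (.cons 19 (nat_lit 19) true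
  V123 (nat_lit 1064) (nat_lit 2) (nat_lit 0) .nil .nil)⟩

noncomputable def SC : TT :=
  (.node (.node (.node (.node .nil (nat_lit 0) tC0 .nil) (nat_lit 1) tC1 .nil) (nat_lit 2) tC2
  (.node (.node .nil (nat_lit 3) tC3 .nil) (nat_lit 4) tC4 .nil)) (nat_lit 5) tC5 (.node (.node
  (.node .nil (nat_lit 6) tC6 .nil) (nat_lit 7) tC7 .nil) (nat_lit 8) tC8 (.node .nil (nat_lit 9)
  tC9 .nil)))

noncomputable def OC : LS :=
  (.cons C9 9 365 3 0 (.cons C8 8 85 2 0 (.cons C7 7 37 7 0 (.cons C19 19 298771 19 0 (.cons C5 5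
  19 5 0 (.cons C11 11 1171 11 0 (.cons C31 31 1779853399 31 0 (.cons C23 23 3434029 23 0
  .nil))))))))


end Pool.Agent.Lib.MP_15cb89_nt
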