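import Pool.Agent.Lib.MP_15cb89_nt.Data

/-! Kernel checks for the tables of one level. -/

set_option autoImplicit false

namespace Pool.Agent.Lib.MP_15cb89_nt

open Finset

def force {β : Type} (a : ℕ) (f : ℕ → β) : β :=
  Nat.rec (motive := fun _ => β) (f 0) (fun k _ => f (Nat.succ k)) a

theorem force_eq {β : Type} (a : ℕ) (f : ℕ → β) : force a f = f a := by cases a <;> rfl

def wL (c1 c2 c3 m1 m2 : ℕ) (t : ℤ) : ℤ :=
  loc c1 t * loc c2 t * loc c3 t * (loc (100 + m1) t * loc (100 + m2) t)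

def NL (c1 c2 c3 m1 m2 : ℕ) : ℕ := locM c1 * locM c2 * locM c3 * (m1 * m2)

def TabOK (w : ℤ → ℤ) (Nt N1 T : ℕ) : Prop :=
  ∀ n Dsq Φ : ℤ, (n : ZMod 3) = 1 → (Dsq : ZMod 3) = 1 → Dsq * Num w n Nt = (N1 : ℤ) ^ 2 * Φ →
    tbN T (n % Nt).toNat = 0 ∨ (Φ : ZMod 3) + 1 = tbN T (n % Nt).toNat

def AvOK (w : ℤ → ℤ) (Nt N1 av : ℕ) : Prop :=
  ∀ A : ℤ, T0 w Nt = 2 * N1 * A → av = 0 ∨ (A : ZMod 3) + 1 = av

def LevFact (c1 c2 c3 m1 m2 val : ℕ) : Prop :=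
  TabOK (wL c1 c2 c3 m1 m2) (NL c1 c2 c3 m1 m2) (m1 * m2) (val / 4) ∧
    AvOK (wL c1 c2 c3 m1 m2) (NL c1 c2 c3 m1 m2) (m1 * m2) (val % 4)

def locR (md c j : ℕ) : ℕ := Nat.mod (Nat.add (locN c j) (Nat.pred md)) md

def modeVal (md : ℕ) (cs : List (ℕ × ℕ)) (i j : ℕ) : ℕ :=
  cs.foldr (fun c acc => cond (Nat.beq c.2 i) (Nat.mod (Nat.mul (locR md c.1 j) acc) md) acc) 1

def modeErr (R : Ch) (md : ℕ) (cs : List (ℕ × ℕ)) (i t : ℕ) : ℕ :=
  sumC R (fun j => cond (Nat.beq (ph t j) (modeVal md cs i j)) 0 1)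

def modeDiv (cs : List (ℕ × ℕ)) (i r : ℕ) : Bool :=
  cs.all (fun c => !(Nat.beq c.2 i) || Nat.beq (Nat.mod r (locM c.1)) 0)

theorem pred_cast {md : ℕ} (hm : 0 < md) : ((Nat.pred md : ℕ) : ZMod md) = -1 := by
  obtain ⟨k, rfl⟩ : ∃ k, md = k + 1 := ⟨md - 1, by omega⟩
  have := ZMod.natCast_self (k + 1)
  push_cast at this
  exact eq_neg_of_add_eq_zero_left this

theorem locR_cast {md : ℕ} (hm : 0 < md) (c j : ℕ) :
    (locR md c j : ZMod md) = ((loc c j : ℤ) : ZMod md) := by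
  show (((locN c j + Nat.pred md) % md : ℕ) : ZMod md) = _
  rw [ZMod.natCast_mod, loc_nat, Nat.cast_add, pred_cast hm]
  push_cast; ring

theorem modeVal_le {md : ℕ} (hm : 0 < md) (cs : List (ℕ × ℕ)) (i j : ℕ) :
    modeVal md cs i j ≤ md := by
  induction cs with
  | nil => exact hm
  | cons c cs ih =>
    show cond (Nat.beq c.2 i) (Nat.mod (Nat.mul (locR md c.1 j) (modeVal md cs i j)) md)
      (modeVal md cs i j) ≤ md
    cases Nat.beq c.2 i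
    · exact ih
    · exact (Nat.mod_lt _ hm).le

theorem modeVal_cast {md : ℕ} (hm : 0 < md) (cs : List (ℕ × ℕ)) (i r : ℕ) (hr : 0 < r)
    (hd : modeDiv cs i r = true) (t : ℤ) :
    (modeVal md cs i (t % r).toNat : ZMod md) =
      (cs.map (fun c => if c.2 = i then ((loc c.1 t : ℤ) : ZMod md) else 1)).prod := by
  induction cs with
  | nil => simp [modeVal]
  | cons c cs ih =>
    unfold modeDiv at hd
    rw [List.all_cons, Bool.and_eq_true] at hd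
    have ih' := ih hd.2
    show ((cond (Nat.beq c.2 i) (Nat.mod (Nat.mul (locR md c.1 (t % r).toNat)
      (modeVal md cs i (t % r).toNat)) md) (modeVal md cs i (t % r).toNat) : ℕ) : ZMod md) = _
    rw [List.map_cons, List.prod_cons, ← ih']
    by_cases h : c.2 = i
    · have hb : Nat.beq c.2 i = true := Nat.beq_eq ▸ h
      have h1 := hd.1
      rw [hb] at h1 ⊢
      have h1' : Nat.beq (Nat.mod r (locM c.1)) 0 = true := by
        rw [Bool.not_true, Bool.false_or] at h1; exact h1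
      have h2 : locM c.1 ∣ r := Nat.dvd_of_mod_eq_zero (Nat.eq_of_beq_eq_true h1')
      rw [cond_true, if_pos h]
      show (((locR md c.1 (t % r).toNat * modeVal md cs i (t % r).toNat) % md : ℕ) : ZMod md) = _
      rw [ZMod.natCast_mod, Nat.cast_mul, locR_cast hm]
      congr 2
      refine ((loc_per c.1).of_dvd h2).of_modEq ?_
      rw [Int.toNat_of_nonneg (Int.emod_nonneg t (by exact_mod_cast hr.ne'))]
      exact Int.mod_modEq t r
    · have hb : Nat.beq c.2 i = false := by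
        rw [Bool.eq_false_iff]; intro h'; exact h (Nat.eq_of_beq_eq_true h')
      rw [hb, cond_false, if_neg h, one_mul]

theorem sumC_zero {R : Ch} {r : ℕ} (h : IsLoop R r) {f : ℕ → ℕ} (h0 : sumC R f = 0) {j : ℕ}
    (hj : j < r) : f j = 0 := by
  rw [sumC_eq h, sum_eq_zero_iff] at h0
  exact h0 j (mem_range.mpr hj)

theorem cond_zero {b : Bool} (h : cond b 0 1 = 0) : b = true := by
  cases b
  · simp at h
  · rfl

theorem modeErr_eq {R : Ch} {r md i t : ℕ} {cs : List (ℕ × ℕ)} (h : IsLoop R r)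
    (h0 : modeErr R md cs i t = 0) {j : ℕ} (hj : j < r) : ph t j = modeVal md cs i j :=
  Nat.eq_of_beq_eq_true (cond_zero (sumC_zero h h0 hj))

theorem prod_modes {md : ℕ} (cs : List (ℕ × ℕ)) (t : ℤ)
    (h : ∀ c ∈ cs, c.2 = 1 ∨ c.2 = 2 ∨ c.2 = 3 ∨ c.2 = 4) :
    (cs.map (fun c => ((loc c.1 t : ℤ) : ZMod md))).prod =
      (cs.map (fun c => if c.2 = 1 then ((loc c.1 t : ℤ) : ZMod md) else 1)).prod *
      (cs.map (fun c => if c.2 = 2 then ((loc c.1 t : ℤ) : ZMod md) else 1)).prod *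
      (cs.map (fun c => if c.2 = 3 then ((loc c.1 t : ℤ) : ZMod md) else 1)).prod *
      (cs.map (fun c => if c.2 = 4 then ((loc c.1 t : ℤ) : ZMod md) else 1)).prod := by
  induction cs with
  | nil => simp
  | cons c cs ih =>
    simp only [List.map_cons, List.prod_cons]
    rw [ih fun c hc => h c (List.mem_cons_of_mem _ hc)]
    rcases h c List.mem_cons_self with h | h | h | h <;> simp [h] <;> ring

def goodB (G : Geo) (md t1 t2 t3 t4 : ℕ) (cs : List (ℕ × ℕ)) : Bool :=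
  decide (0 < G.r1) && decide (0 < G.r2) && decide (0 < G.r3) && decide (0 < G.r4) &&
  Nat.beq (Nat.gcd G.r1 G.r2) 1 && Nat.beq (Nat.gcd G.r3 G.r4) 1 &&
  Nat.beq (Nat.gcd G.q1 G.q2) 1 && decide (0 < md) && decide (G.N ^ 2 * md ^ 6 + 1 < G.B) &&
  Nat.beq (modeErr G.R1 md cs 1 t1) 0 && Nat.beq (modeErr G.R2 md cs 2 t2) 0 &&
  Nat.beq (modeErr G.R3 md cs 3 t3) 0 && Nat.beq (modeErr G.R4 md cs 4 t4) 0 &&
  modeDiv cs 1 G.r1 && modeDiv cs 2 G.r2 && modeDiv cs 3 G.r3 && modeDiv cs 4 G.r4 &&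
  cs.all (fun c => decide (c.2 = 1 ∨ c.2 = 2 ∨ c.2 = 3 ∨ c.2 = 4))

theorem good_of {G : Geo} {md t1 t2 t3 t4 : ℕ} {cs : List (ℕ × ℕ)} (hG : G.OK)
    (h : goodB G md t1 t2 t3 t4 cs = true) {w : ℤ → ℤ}
    (hw : ∀ t, w t = (cs.map (fun c => loc c.1 t)).prod) : G.Good md t1 t2 t3 t4 w := by
  simp only [goodB, Bool.and_eq_true, decide_eq_true_eq, Nat.beq_eq, List.all_eq_true] at h
  obtain ⟨⟨⟨⟨⟨⟨⟨⟨⟨⟨⟨⟨⟨⟨⟨⟨⟨p1, p2⟩, p3⟩, p4⟩, c12⟩, c34⟩, cq⟩, pm⟩, hW⟩, e1⟩, e2⟩, e3⟩, e4⟩, d1⟩,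
    d2⟩, d3⟩, d4⟩, hi⟩ := h
  have lt : ∀ (t : ℤ) (r : ℕ), 0 < r → (t % r).toNat < r := by
    intro t r hr
    have h0 : (0 : ℤ) < r := by exact_mod_cast hr
    have := Int.emod_lt_of_pos t h0
    have := Int.emod_nonneg t h0.ne'
    omega
  refine ⟨hG, p1, p2, p3, p4, c12, c34, cq, pm, hW, ?_, ?_, ?_, ?_, fun t => ?_⟩
  · intro j hj; rw [modeErr_eq hG.l1 e1 hj]; exact modeVal_le pm _ _ _
  · intro j hj; rw [modeErr_eq hG.l2 e2 hj]; exact modeVal_le pm _ _ _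
  · intro j hj; rw [modeErr_eq hG.l3 e3 hj]; exact modeVal_le pm _ _ _
  · intro j hj; rw [modeErr_eq hG.l4 e4 hj]; exact modeVal_le pm _ _ _
  · rw [modeErr_eq hG.l1 e1 (lt t _ p1), modeErr_eq hG.l2 e2 (lt t _ p2),
      modeErr_eq hG.l3 e3 (lt t _ p3), modeErr_eq hG.l4 e4 (lt t _ p4),
      modeVal_cast pm cs 1 _ p1 d1, modeVal_cast pm cs 2 _ p2 d2, modeVal_cast pm cs 3 _ p3 d3,
      modeVal_cast pm cs 4 _ p4 d4, ← prod_modes cs t hi, hw, Int.cast_list_prod, List.map_map]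
    rfl

def R64 : Ch := fun g z => 
  g 63 (g 62 (g 61 (g 60 (g 59 (g 58 (g 57 (g 56 (g 55 (g 54 (g 53 (g 52 (g 51 (g 50 (g 49 (g 48
  (g 47 (g 46 (g 45 (g 44 (g 43 (g 42 (g 41 (g 40 (g 39 (g 38 (g 37 (g 36 (g 35 (g 34 (g 33 (g 32
  (g 31 (g 30 (g 29 (g 28 (g 27 (g 26 (g 25 (g 24 (g 23 (g 22 (g 21 (g 20 (g 19 (g 18 (g 17 (g 16
  (g 15 (g 14 (g 13 (g 12 (g 11 (g 10 (g 9 (g 8 (g 7 (g 6 (g 5 (g 4 (g 3 (g 2 (g 1 (g 0
  z)))))))))))))))))))))))))))))))))))))))))))))))))))))))))))))))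

theorem R64_loop : IsLoop R64 64 := fun _ _ => rfl

def entB (G : Geo) (md t1 t2 t3 t4 n v : ℕ) : Bool :=
  force (Nat.mod n G.r1) fun n1 => force (Nat.mod n G.r2) fun n2 =>
  force (Nat.mod n G.r3) fun n3 => force (Nat.mod n G.r4) fun n4 =>
  cond (Nat.beq md 3)
    (Nat.beq (Nat.mod (Nat.add (G.cT1 md t1 t2 t3 t4 n1 n2 n3 n4)
      (Nat.mul 2 (G.cT2 md t1 t2 t3 t4 n1 n2 n3 n4))) 3) (Nat.pred v))
    (Nat.beq (Nat.mod (G.cT2 md t1 t2 t3 t4 n1 n2 n3 n4) 27) 0 &&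
      Nat.beq (Nat.mod (Nat.add (G.cT1 md t1 t2 t3 t4 n1 n2 n3 n4)
        (Nat.mul (Nat.mul 2 n) (G.cT2 md t1 t2 t3 t4 n1 n2 n3 n4))) 243)
        (Nat.mul 81 (Nat.pred v)))

def entErr (G : Geo) (md t1 t2 t3 t4 T n : ℕ) : ℕ :=
  cond (Nat.beq (tbN T n) 0) 0 (cond (entB G md t1 t2 t3 t4 n (tbN T n)) 0 1)

def tabErr (G : Geo) (md t1 t2 t3 t4 T : ℕ) : ℕ :=
  sumC (RN (G.N / 64 + 1)) fun j => sumC R64 fun i =>
    entErr G md t1 t2 t3 t4 T (Nat.add i (Nat.mul 64 j))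

def levB (G : Geo) (md t1 t2 t3 t4 N1 val : ℕ) : Bool :=
  ((Nat.beq md 3 && Nat.beq (N1 ^ 2 % 3) 1) ||
    (Nat.beq md 243 && Nat.beq (N1 ^ 2 % 243) 81 && Nat.beq (G.N % 9) 0 && Nat.beq (N1 % 9) 0)) &&
  (Nat.beq (val / 4) 0 || Nat.beq (tabErr G md t1 t2 t3 t4 (val / 4)) 0) &&
  (Nat.beq (val % 4) 0 ||
    Nat.beq (G.cT0 md t1 t2 t3 t4 % md % 27) (2 * N1 * (val % 4 - 1) % md % 27))

theorem cast_toNat_mod (n : ℤ) (N r : ℕ) (hN : 0 < N) (h : r ∣ N) :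
    (n : ZMod r) = (((n % N).toNat % r : ℕ) : ZMod r) := by
  rw [ZMod.natCast_mod, ← Int.cast_natCast,
    Int.toNat_of_nonneg (Int.emod_nonneg n (by exact_mod_cast hN.ne')),
    ZMod.intCast_eq_intCast_iff]
  exact ((Int.mod_modEq n N).of_dvd (by exact_mod_cast h)).symm

theorem three_dvd_of {g X Y : ℤ} (hg : g ≠ 0) (h : g * X = 3 * g * Y) : (X : ZMod 3) = 0 := by
  have : X = 3 * Y := by
    apply mul_left_cancel₀ hg
    rw [h]; ring
  rw [this]; push_cast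
  have h3 : (3 : ZMod 3) = 0 := by decide
  rw [h3, zero_mul]

theorem lev_of {G : Geo} {md t1 t2 t3 t4 N1 val : ℕ} {w : ℤ → ℤ}
    (hg : G.Good md t1 t2 t3 t4 w) (h : levB G md t1 t2 t3 t4 N1 val = true) :
    TabOK w G.N N1 (val / 4) ∧ AvOK w G.N N1 (val % 4) := by
  simp only [levB, Bool.and_eq_true, Bool.or_eq_true, Nat.beq_eq] at h
  obtain ⟨⟨hmd, hT⟩, hA⟩ := h
  have hN : 0 < G.N := Nat.mul_pos (Nat.mul_pos hg.p1 hg.p2) (Nat.mul_pos hg.p3 hg.p4)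
  constructor
  · intro n Dsq Φ hn hD hΦ
    rcases hT with hT | hT
    · left; rw [hT]; simp [tbN]
    set i := (n % G.N).toNat with hi
    have hlt : i < G.N := by
      have h0 : (0 : ℤ) < G.N := by exact_mod_cast hN
      have := Int.emod_lt_of_pos n h0
      have := Int.emod_nonneg n h0.ne'
      omega
    have h1 := sumC_zero (RN_loop _) hT (j := i / 64) (by
      have := Nat.div_le_div_right (c := 64) hlt.le; omega)
    have h2 := sumC_zero R64_loop h1 (j := i % 64) (Nat.mod_lt _ (by norm_num))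
    have h3 : Nat.add (i % 64) (Nat.mul 64 (i / 64)) = i := Nat.mod_add_div i 64
    rw [h3] at h2
    unfold entErr at h2
    by_cases h0 : tbN (val / 4) i = 0
    · exact Or.inl h0
    right
    have hb : Nat.beq (tbN (val / 4) i) 0 = false := by
      rw [Bool.eq_false_iff]; intro h'; exact h0 (Nat.eq_of_beq_eq_true h')
    rw [hb, cond_false] at h2
    have h4 := cond_zero h2
    obtain ⟨v, hv⟩ : ∃ v, tbN (val / 4) i = v + 1 := ⟨tbN (val / 4) i - 1, by omega⟩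
    rw [hv] at h4 ⊢
    simp only [entB, force_eq, Nat.pred_succ] at h4
    have d1 : G.r1 ∣ G.N := ⟨G.r2 * G.q2, by rw [Geo.N_eq, Geo.q1_eq]; ring⟩
    have d2 : G.r2 ∣ G.N := ⟨G.r1 * G.q2, by rw [Geo.N_eq, Geo.q1_eq]; ring⟩
    have d3 : G.r3 ∣ G.N := ⟨G.r4 * G.q1, by rw [Geo.N_eq, Geo.q2_eq]; ring⟩
    have d4 : G.r4 ∣ G.N := ⟨G.r3 * G.q1, by rw [Geo.N_eq, Geo.q2_eq]; ring⟩
    have a1 := Geo.cT1_eq hg n _ _ _ _ (cast_toNat_mod n _ _ hN d1) (cast_toNat_mod n _ _ hN d2)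
      (cast_toNat_mod n _ _ hN d3) (cast_toNat_mod n _ _ hN d4)
    have a2 := Geo.cT2_eq hg n _ _ _ _ (cast_toNat_mod n _ _ hN d1) (cast_toNat_mod n _ _ hN d2)
      (cast_toNat_mod n _ _ hN d3) (cast_toNat_mod n _ _ hN d4)
    rw [← hi] at a1 a2
    change (cond (Nat.beq md 3)
      (Nat.beq ((G.cT1 md t1 t2 t3 t4 (i % G.r1) (i % G.r2) (i % G.r3) (i % G.r4) +
        2 * G.cT2 md t1 t2 t3 t4 (i % G.r1) (i % G.r2) (i % G.r3) (i % G.r4)) % 3) v)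
      (Nat.beq (G.cT2 md t1 t2 t3 t4 (i % G.r1) (i % G.r2) (i % G.r3) (i % G.r4) % 27) 0 &&
        Nat.beq ((G.cT1 md t1 t2 t3 t4 (i % G.r1) (i % G.r2) (i % G.r3) (i % G.r4) +
        2 * i * G.cT2 md t1 t2 t3 t4 (i % G.r1) (i % G.r2) (i % G.r3) (i % G.r4)) % 243)
        (81 * v))) = true at h4
    generalize G.cT1 md t1 t2 t3 t4 (i % G.r1) (i % G.r2) (i % G.r3) (i % G.r4) = A1 at *
    generalize G.cT2 md t1 t2 t3 t4 (i % G.r1) (i % G.r2) (i % G.r3) (i % G.r4) = A2 at *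
    rw [Num_eq] at hΦ
    rcases hmd with ⟨rfl, hq⟩ | ⟨⟨⟨rfl, hq⟩, h9⟩, _⟩
    · have h5 : (A1 + 2 * A2) % 3 = v := Nat.eq_of_beq_eq_true h4
      have h6 : ((A1 + 2 * A2 : ℕ) : ZMod 3) = v := by rw [← h5, ZMod.natCast_mod]
      have h7 : ((N1 ^ 2 : ℕ) : ZMod 3) = 1 := by rw [← ZMod.natCast_mod, hq]; rfl
      have h8 := congrArg (Int.cast : ℤ → ZMod 3) hΦ
      push_cast at h6 h7 h8 ⊢
      rw [hD, hn, h7, ← a1, ← a2] at h8
      linear_combination h6 - h8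
    · have h4' : (Nat.beq (A2 % 27) 0 && Nat.beq ((A1 + 2 * i * A2) % 243) (81 * v)) = true := h4
      simp only [Bool.and_eq_true, Nat.beq_eq] at h4'
      obtain ⟨h5, h6⟩ := h4'
      obtain ⟨k1, hk1⟩ := (ZMod.intCast_eq_intCast_iff_dvd_sub (A1 : ℤ) _ 243).mp
        (by exact_mod_cast a1)
      obtain ⟨k2, hk2⟩ := (ZMod.intCast_eq_intCast_iff_dvd_sub (A2 : ℤ) _ 243).mp
        (by exact_mod_cast a2)
      obtain ⟨k3, hk3⟩ := (ZMod.intCast_eq_intCast_iff_dvd_sub Dsq 1 3).mp (by exact_mod_cast hD)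
      obtain ⟨k4, hk4⟩ := (ZMod.intCast_eq_intCast_iff_dvd_sub n (i : ℤ) 9).mp (by
        have := cast_toNat_mod n _ 9 hN (Nat.dvd_of_mod_eq_zero h9)
        rw [ZMod.natCast_mod] at this
        exact_mod_cast this)
      obtain ⟨k5, hk5⟩ : ∃ k : ℤ, (A2 : ℤ) = 27 * k := ⟨(A2 / 27 : ℕ), by omega⟩
      obtain ⟨k6, hk6⟩ : ∃ k : ℤ, (A1 : ℤ) + 2 * i * A2 = 81 * v + 243 * k :=
        ⟨((A1 + 2 * i * A2) / 243 : ℕ), by
          have := Nat.mod_add_div (A1 + 2 * i * A2) 243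
          rw [h6] at this
          exact_mod_cast this.symm⟩
      obtain ⟨k7, hk7⟩ : ∃ k : ℤ, (N1 : ℤ) ^ 2 = 81 + 243 * k :=
        ⟨(N1 ^ 2 / 243 : ℕ), by
          have := Nat.mod_add_div (N1 ^ 2) 243
          rw [hq] at this
          exact_mod_cast this.symm⟩
      push_cast at hk1 hk2 hk3 hk4
      have key : (81 : ℤ) * (Φ - v) = 3 * 81 *
          (-k7 * Φ - k3 * v + Dsq * (k6 + k1 + 2 * n * k2 - 2 * k4 * k5)) := by
        have e1 : T1 w n G.N = A1 + 243 * k1 := by linarith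
        have e2 : T2 w n G.N = A2 + 243 * k2 := by linarith
        have e3 : Dsq = 1 - 3 * k3 := by linarith
        have e4 : (i : ℤ) = n + 9 * k4 := by linarith
        rw [e1, e2, hk7] at hΦ
        rw [e4] at hk6
        linear_combination (-1) * hΦ + Dsq * hk6 - (18 * k4 * Dsq) * hk5 + (81 * v) * e3
      have := three_dvd_of (by norm_num) key
      push_cast at this ⊢
      linear_combination this
  · intro A hA'
    rcases hA with hA | hA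
    · exact Or.inl hA
    rcases Nat.eq_zero_or_pos (val % 4) with h0 | h0
    · exact Or.inl h0
    right
    obtain ⟨v, hv⟩ : ∃ v, val % 4 = v + 1 := ⟨val % 4 - 1, by omega⟩
    rw [hv] at hA ⊢
    have a0 := Geo.cT0_eq hg
    rw [hA'] at a0
    rw [Nat.add_sub_cancel] at hA
    rcases hmd with ⟨rfl, hq⟩ | ⟨⟨⟨rfl, hq⟩, _⟩, h9⟩
    · have h7 : ((N1 ^ 2 : ℕ) : ZMod 3) = 1 := by rw [← ZMod.natCast_mod, hq]; rfl
      have h3 : (4 : ZMod 3) = 1 := by decide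
      have h8 : G.cT0 3 t1 t2 t3 t4 % 3 = 2 * N1 * v % 3 := by omega
      rw [← ZMod.natCast_mod, h8, ZMod.natCast_mod] at a0
      push_cast at a0 h7 ⊢
      linear_combination (-2 * (N1 : ZMod 3)) * a0 - (A - v : ZMod 3) * (4 * h7 + h3)
    · obtain ⟨k1, hk1⟩ := (ZMod.intCast_eq_intCast_iff_dvd_sub ((G.cT0 243 t1 t2 t3 t4 : ℕ) : ℤ)
        (2 * N1 * A) 243).mp (by exact_mod_cast a0)
      obtain ⟨k2, hk2⟩ : ∃ k : ℤ, ((G.cT0 243 t1 t2 t3 t4 : ℕ) : ℤ) =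
          ((2 * N1 * v : ℕ) : ℤ) + 27 * k :=
        ⟨(((G.cT0 243 t1 t2 t3 t4 : ℕ) : ℤ) - ((2 * N1 * v : ℕ) : ℤ)) / 27, by omega⟩
      obtain ⟨k7, hk7⟩ : ∃ k : ℤ, (N1 : ℤ) ^ 2 = 81 + 243 * k :=
        ⟨(N1 ^ 2 / 243 : ℕ), by
          have := Nat.mod_add_div (N1 ^ 2) 243
          rw [hq] at this
          exact_mod_cast this.symm⟩
      obtain ⟨k9, hk9⟩ : ∃ k : ℤ, (N1 : ℤ) = 9 * k := ⟨(N1 / 9 : ℕ), by omega⟩
      push_cast at hk1 hk2
      have key2 : (81 : ℤ) * (2 * (A - v)) =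
          3 * 81 * (-2 * k7 * (A - v) + N1 * k1 + k9 * k2) := by
        linear_combination (N1 : ℤ) * hk1 + (N1 : ℤ) * hk2 - 2 * (A - v) * hk7 + 27 * k2 * hk9
      have := three_dvd_of (by norm_num) key2
      have h3 : (4 : ZMod 3) = 1 := by decide
      push_cast at this ⊢
      linear_combination 2 * this - (A - v : ZMod 3) * h3

theorem locM_lg {m : ℕ} (h : 0 < m) : locM (100 + m) = m := by
  unfold locM
  have h1 : Nat.beq (100 + m) 16 = false := by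
    rw [Bool.eq_false_iff]; intro h'; have := Nat.eq_of_beq_eq_true h'; omega
  have h2 : Nat.ble (100 + m) 100 = false := by
    rw [Bool.eq_false_iff]; intro h'; have := Nat.le_of_ble_eq_true h'; omega
  rw [h1, h2]
  show 100 + m - 100 = m
  omega

def levChk (G : Geo) (md t1 t2 t3 t4 i1 i2 i3 i4 i5 c1 c2 c3 m1 m2 val : ℕ) : Bool :=
  goodB G md t1 t2 t3 t4 [(c1, i1), (c2, i2), (c3, i3), (100 + m1, i4), (100 + m2, i5)] &&
    Nat.beq G.N (NL c1 c2 c3 m1 m2) && levB G md t1 t2 t3 t4 (m1 * m2) val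

theorem levFact_of (G : Geo) (md t1 t2 t3 t4 i1 i2 i3 i4 i5 c1 c2 c3 m1 m2 val : ℕ) (hG : G.OK)
    (h : levChk G md t1 t2 t3 t4 i1 i2 i3 i4 i5 c1 c2 c3 m1 m2 val = true) :
    LevFact c1 c2 c3 m1 m2 val := by
  simp only [levChk, Bool.and_eq_true, Nat.beq_eq] at h
  obtain ⟨⟨h1, h2⟩, h3⟩ := h
  have hg : G.Good md t1 t2 t3 t4 (wL c1 c2 c3 m1 m2) := good_of hG h1 fun t => by
    simp only [wL, List.map_cons, List.map_nil, List.prod_cons, List.prod_nil]; ring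
  have := lev_of hg h3
  rw [h2] at this
  exact this

end Pool.Agent.Lib.MP_15cb89_nt
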