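import Pool.Agent.Lib.MP_15cb89_nt.Model

/-! Tests at the leaves of the sieve. -/

set_option autoImplicit false

namespace Pool.Agent.Lib.MP_15cb89_nt

inductive BT where
  | nil : BT
  | node (l : BT) (k c1 c2 c3 m1 m2 v : ℕ) (r : BT) : BT

def BT.All : BT → Prop
  | .nil => True
  | .node l _ c1 c2 c3 m1 m2 v r => l.All ∧ LevFact c1 c2 c3 m1 m2 v ∧ r.All

theorem BT.all_nil : BT.nil.All := trivial

theorem BT.all_node {l r : BT} {k c1 c2 c3 m1 m2 v : ℕ} (h1 : l.All)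
    (h2 : LevFact c1 c2 c3 m1 m2 v) (h3 : r.All) : (BT.node l k c1 c2 c3 m1 m2 v r).All :=
  ⟨h1, h2, h3⟩

def BT.look (k c1 c2 c3 m1 m2 : ℕ) : BT → ℕ
  | .nil => 0
  | .node l k' d1 d2 d3 n1 n2 v r =>
    cond (Nat.beq k k')
      (cond (Nat.beq c1 d1 && Nat.beq c2 d2 && Nat.beq c3 d3 && Nat.beq m1 n1 && Nat.beq m2 n2) v 0)
      (cond (Nat.ble k k') (look k c1 c2 c3 m1 m2 l) (look k c1 c2 c3 m1 m2 r))

def lk (T : BT) (c1 c2 c3 m1 m2 : ℕ) : ℕ :=
  T.look (c1 + 64 * (c2 + 64 * (c3 + 64 * (m1 + 64 * m2)))) c1 c2 c3 m1 m2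

theorem levFact_zero (c1 c2 c3 m1 m2 : ℕ) : LevFact c1 c2 c3 m1 m2 0 :=
  ⟨fun _ _ _ _ _ _ => Or.inl (by simp [tbN]), fun _ _ => Or.inl rfl⟩

theorem look_fact {T : BT} (h : T.All) (k c1 c2 c3 m1 m2 : ℕ) :
    LevFact c1 c2 c3 m1 m2 (T.look k c1 c2 c3 m1 m2) := by
  induction T with
  | nil => exact levFact_zero ..
  | node l k' d1 d2 d3 n1 n2 v r ih1 ih2 =>
    unfold BT.look
    cases Nat.beq k k'
    · cases Nat.ble k k'
      · exact ih2 h.2.2
      · exact ih1 h.1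
    · cases hb : (Nat.beq c1 d1 && Nat.beq c2 d2 && Nat.beq c3 d3 && Nat.beq m1 n1 && Nat.beq m2 n2)
      · exact levFact_zero ..
      · simp only [Bool.and_eq_true, Nat.beq_eq] at hb
        obtain ⟨⟨⟨⟨rfl, rfl⟩, rfl⟩, rfl⟩, rfl⟩ := hb
        exact h.2.1

inductive PL where
  | nil : PL
  | skip (tl : PL) : PL
  | cons (V N al be x ll : ℕ) (tl : PL) : PL

inductive EL where
  | nil : EL
  | cons (m b : ℕ) (c : Bool) (V N a x : ℕ) (ps : PL) (tl : EL) : EL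

structure Test where
  c1 : ℕ
  c2 : ℕ
  Q : ℕ
  V : ℕ
  N : ℕ
  a : ℕ
  x : ℕ
  es : EL

def fz (v : ℕ) (g : ℕ → Bool) : Bool := @Nat.rec (fun _ => Bool) false (fun k _ => g k) v

def tv (V N n : ℕ) : ℕ := tbN V (Nat.succ (Nat.mod n N))

def ez (c : Bool) (s : ℕ) (g : Bool → Bool) : Bool :=
  @Bool.rec (fun _ => Bool) (@Nat.rec (fun _ => Bool) (g false) (fun _ _ => g true) s)
    (@Nat.rec (fun _ => Bool) (g true) (fun _ _ => g false) s) c

noncomputable def mkP (n : ℕ) (ps : PL) : (PI → Bool) → Bool :=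
  @PL.rec (fun _ => (PI → Bool) → Bool) (fun k => k PI.nil)
    (fun _ r k => r fun t => k (PI.skip t))
    (fun V N al be x ll _ r k => fz (tv V N n) fun f => r fun t => k (PI.cons f al be x ll t)) ps

noncomputable def mkE (n st : ℕ) (es : EL) : (EI → Bool) → Bool :=
  @EL.rec (fun _ => (EI → Bool) → Bool) (fun k => k EI.nil)
    (fun _ b c V N a x ps _ r k => fz (tbN st b) fun s => ez c s fun e => fz (tv V N n) fun f =>
      mkP n ps fun t0 => r fun t => k (EI.cons c e a x f t0 t)) es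

noncomputable def runT (t : Test) (n M st : ℕ) : Bool :=
  @Test.rec (fun _ => Bool) (fun _ _ Q V N a x es =>
    @Nat.rec (fun _ => Bool) (fz (tv V N n) fun F => mkE n st es fun ei => srch a x F ei)
      (fun _ _ => false) (Nat.mod M Q)) t

def xok (T : BT) (P c1 c2 m1 m2 x : ℕ) : Bool :=
  Nat.beq x 0 || (!(Nat.beq P 1) && Nat.beq (lk T c1 c2 P m1 m2 % 4) x)

def vok (T : BT) (c1 c2 Q m1 m2 V N : ℕ) : Bool :=
  Nat.beq (lk T c1 c2 1 m1 m2) V && Nat.beq N (NL c1 c2 1 m1 m2) && Nat.beq (Q % N) 0 &&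
    Nat.ble 1 N

def aok (c0 c : Bool) (V a a0 a1 al be ll : ℕ) : Bool :=
  cond c0 (cond c (Nat.beq (V % 4) (al + 1) && Nat.beq be 0)
      (Nat.beq al (ll * a % 3) && Nat.beq be a0))
    (cond c (Nat.beq al (ll * a % 3) && Nat.beq be a1)
      (Nat.beq a 0 && Nat.beq al 0 && Nat.beq be 0))

def wfP (T : BT) (P c1 c2 Q a m : ℕ) (c : Bool) (a1 : ℕ) : PL → List (ℕ × Bool × ℕ) → Bool
  | .nil, _ => true
  | .skip tl, l => wfP T P c1 c2 Q a m c a1 tl l.tail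
  | .cons _ _ _ _ _ _ _, [] => false
  | .cons V N al be x ll tl, v :: l =>
    vok T c1 c2 Q v.1 m V N && xok T P c1 c2 v.1 m x && !(Nat.beq (base v.1) (base m)) &&
      decide ((loc (100 + v.1) (base m) * loc (100 + m) (base v.1) - ll) % 3 = 0) &&
      aok v.2.1 c V a v.2.2 a1 al be ll && wfP T P c1 c2 Q a m c a1 tl l

def wfE (T : BT) (P c1 c2 Q a : ℕ) : EL → List (ℕ × Bool × ℕ) → Bool
  | .nil, _ => true
  | .cons m b c V N a1 x ps tl, l =>
    decide (m ∈ lgL) && Nat.beq b (base m) && Nat.beq (Nat.gcd m (KK c1 c2)) 1 &&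
      decide (eta c1 c2 (base m) = sg c) && vok T c1 c2 Q m 1 V N &&
      (!c || Nat.beq (V % 4) (a1 + 1)) && xok T P c1 c2 m 1 x &&
      wfP T P c1 c2 Q a m c a1 ps l && wfE T P c1 c2 Q a tl ((m, c, a1) :: l)

def wfT (T : BT) (P : ℕ) (t : Test) : Bool :=
  decide (t.c1 ∈ chL) && decide (t.c2 ∈ chL) && decide (eta t.c1 t.c2 (-1) = -1) &&
    vok T t.c1 t.c2 t.Q 1 1 t.V t.N && Nat.beq (t.V % 4) (t.a + 1) && xok T P t.c1 t.c2 1 1 t.x &&
    (!(Nat.beq t.x 0) || Nat.beq P 1) && wfE T P t.c1 t.c2 t.Q t.a t.es []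

def StOK (p q st : ℕ) : Prop :=
  ∀ i, st.testBit i = true →
    chi (p * q) ((i / 2 : ℕ) : ℤ) = -1 ∧ chi p ((i / 2 : ℕ) : ℤ) = sg (Nat.beq (i % 2) 0)

theorem fz_true {v : ℕ} {g : ℕ → Bool} (h : fz v g = true) : ∃ k, v = k + 1 ∧ g k = true := by
  cases v with
  | zero => exact absurd h (by simp [fz])
  | succ k => exact ⟨k, rfl, h⟩

theorem tbN_lt (T j : ℕ) : tbN T j < 4 := Nat.mod_lt _ (by norm_num)

theorem tv_eq (V N n : ℕ) : tv V N n = tbN (V / 4) (n % N) := by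
  show (V >>> (2 * (n % N + 1))) % 4 = ((V / 4) >>> (2 * (n % N))) % 4
  rw [Nat.shiftRight_eq_div_pow, Nat.shiftRight_eq_div_pow, Nat.div_div_eq_div_mul, mul_add,
    pow_add, mul_comm 4]
  rfl

theorem StOK.get {p q st b s : ℕ} (h : StOK p q st) (hs : tbN st b = s + 1) :
    chi (p * q) b = -1 ∧ chi p b = sg (Nat.beq s 0) := by
  have h1 : (st / 2 ^ (2 * b)) % 4 = s + 1 := by
    rw [← Nat.shiftRight_eq_div_pow]; exact hs
  cases s with
  | zero =>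
    have := h (2 * b) (by rw [Nat.testBit_eq_decide_div_mod_eq, decide_eq_true_eq]; omega)
    rwa [show 2 * b / 2 = b by omega, show 2 * b % 2 = 0 by omega] at this
  | succ s =>
    have := h (2 * b + 1) (by
      rw [Nat.testBit_eq_decide_div_mod_eq, decide_eq_true_eq, pow_succ, ← Nat.div_div_eq_div_mul]
      omega)
    rwa [show (2 * b + 1) / 2 = b by omega, show (2 * b + 1) % 2 = 1 by omega] at this

theorem Kn.succ {k : ℕ} {s : ZMod 3} (h : Kn (k + 1) s) : (k : ZMod 3) = s := by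
  rcases h with h | h
  · omega
  · push_cast at h; exact (add_right_cancel h).symm

section

variable {T : BT} {P c1 c2 Q a n0 p q : ℕ} {n : ℤ} {A X Z Y F : ℕ → ℕ → ZMod 3}

theorem xok_kn (hT : T.All) (h : Mdl c1 c2 n p q P A X Z Y F) {m1 m2 x : ℕ}
    (a1 : Adm c1 c2 p q m1) (a2 : Adm c1 c2 p q m2) (hx : xok T P c1 c2 m1 m2 x = true) :
    Kn x (X m1 m2) := by
  simp only [xok, Bool.or_eq_true, Bool.and_eq_true, Nat.beq_eq, Bool.not_eq_true'] at hx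
  rcases hx with hx | ⟨h1, rfl⟩
  · exact Or.inl hx
  · exact h.tX _ _ _ a1 a2 (fun h2 => by simp [h2] at h1) (look_fact hT ..)

theorem vok_F (hT : T.All) (h : Mdl c1 c2 n p q P A X Z Y F) (hn : n ≡ n0 [ZMOD Q])
    {m1 m2 V N f : ℕ} (a1 : Adm c1 c2 p q m1) (a2 : Adm c1 c2 p q m2)
    (hv : vok T c1 c2 Q m1 m2 V N = true) (hf : tv V N n0 = f + 1) :
    f < 3 ∧ (f : ZMod 3) = F m1 m2 := by
  simp only [vok, Bool.and_eq_true, Nat.beq_eq, Nat.ble_eq] at hv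
  obtain ⟨⟨⟨rfl, h2⟩, h3⟩, h4⟩ := hv
  have h5 := h.tF _ _ _ a1 a2 (look_fact hT (c1 + 64 * (c2 + 64 * (1 + 64 * (m1 + 64 * m2)))) ..)
  have h6 : (n % (N : ℕ)).toNat = n0 % N := by
    have : n ≡ n0 [ZMOD N] := hn.of_dvd (by exact_mod_cast Nat.dvd_of_mod_eq_zero h3)
    rw [this, ← Int.natCast_mod, Int.toNat_natCast]
  rw [tv_eq] at hf
  rw [← h2, h6] at h5
  refine ⟨by have := tbN_lt (lk T c1 c2 1 m1 m2 / 4) (n0 % N); omega, Kn.succ ?_⟩
  rw [← hf]; exact h5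

theorem vok_A (hT : T.All) (h : Mdl c1 c2 n p q P A X Z Y F)
    {m1 m2 V N k : ℕ} (a1 : Adm c1 c2 p q m1) (a2 : Adm c1 c2 p q m2)
    (hv : vok T c1 c2 Q m1 m2 V N = true) (hk : V % 4 = k + 1) : (k : ZMod 3) = A m1 m2 := by
  simp only [vok, Bool.and_eq_true, Nat.beq_eq, Nat.ble_eq] at hv
  obtain ⟨⟨⟨rfl, _⟩, _⟩, _⟩ := hv
  refine Kn.succ ?_
  rw [← hk]
  exact h.tA _ _ _ a1 a2 (look_fact hT ..)

def vl (E : ℕ → Bool) (X Z Y : ℕ → ℕ → ZMod 3) (v : ℕ × Bool × ℕ) : Bool × ZMod 3 × ZMod 3 :=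
  (E v.1, if v.2.1 then 0 else Z v.1 1, if E v.1 then X v.1 1 else Y v.1 1)

theorem mkP_sound (hT : T.All) (h : Mdl c1 c2 n p q P A X Z Y F) (hn : n ≡ n0 [ZMOD Q])
    (h0 : p * q ≠ 0) (ha : (a : ZMod 3) = A 1 1) (E : ℕ → Bool) {m a1 : ℕ} {c : Bool}
    (hg : GoodM c1 c2 p q m c (E m)) (ha1 : c = true → (a1 : ZMod 3) = A m 1) (ps : PL) :
    ∀ (l : List (ℕ × Bool × ℕ)) (k : PI → Bool), wfP T P c1 c2 Q a m c a1 ps l = true →
      (∀ v ∈ l, GoodM c1 c2 p q v.1 v.2.1 (E v.1) ∧ (v.2.1 = true → (v.2.2 : ZMod 3) = A v.1 1)) →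
      mkP n0 ps k = true → ∃ t, PIok (Z 1 1) (X 1 1) (Y 1 1) (E m) (if c then 0 else Z m 1)
        (if E m then X m 1 else Y m 1) t (l.map (vl E X Z Y)) ∧ k t = true := by
  induction ps with
  | nil => intro l k _ _ h3; exact ⟨PI.nil, trivial, h3⟩
  | skip tl ih =>
    intro l k h1 h2 h3
    obtain ⟨t, h4, h5⟩ := ih l.tail (fun t => k (PI.skip t)) h1
      (fun v hv => h2 v (List.mem_of_mem_tail hv)) h3
    refine ⟨PI.skip t, ?_, h5⟩
    rw [List.map_tail] at h4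
    exact h4
  | cons V N al be x ll tl ih =>
    intro l k h1 h2 h3
    cases l with
    | nil => exact absurd h1 (by simp [wfP])
    | cons v l =>
      obtain ⟨m0, c0, a0⟩ := v
      simp only [wfP, Bool.and_eq_true, decide_eq_true_eq, Bool.not_eq_true'] at h1
      obtain ⟨⟨⟨⟨⟨w1, w2⟩, w3⟩, w4⟩, w5⟩, w6⟩ := h1
      obtain ⟨f, hf, h4⟩ := fz_true (show fz (tv V N n0) (fun f =>
        mkP n0 tl fun t => k (PI.cons f al be x ll t)) = true from h3)
      obtain ⟨t, h5, h6⟩ := ih l _ w6 (fun v hv => h2 v (List.mem_cons_of_mem _ hv)) h4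
      obtain ⟨g0, g1⟩ := h2 _ List.mem_cons_self
      simp only at g0 g1
      have ad0 := g0.adm h0
      have ad := hg.adm h0
      obtain ⟨f3, hF⟩ := vok_F hT h hn ad0 ad w1 hf
      refine ⟨PI.cons f al be x ll t, ⟨f3, ⟨X m0 m, Y m0 m, xok_kn hT h ad0 ad w2, ?_⟩, h5⟩, h6⟩
      have hl : ((loc (100 + m0) (base m) * loc (100 + m) (base m0) : ℤ) : ZMod 3) = ll := by
        have := (ZMod.intCast_zmod_eq_zero_iff_dvd _ 3).mpr (Int.dvd_of_emod_eq_zero w4)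
        rw [Int.cast_sub, sub_eq_zero] at this
        exact_mod_cast this
      rw [hF, h.e2 _ _ _ _ _ _ g0 hg (fun h7 => by simp [h7] at w3), hl]
      congr 1
      · have m3 : ((ll * a % 3 : ℕ) : ZMod 3) = ll * A 1 1 := by
          rw [ZMod.natCast_mod, Nat.cast_mul, ha]
        cases c0 <;> cases c <;>
          simp only [aok, cond_true, cond_false, Bool.and_eq_true, Nat.beq_eq] at w5 <;>
          simp only [dbl, vl, Bool.false_eq_true, if_true, if_false]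
        · obtain ⟨⟨rfl, rfl⟩, rfl⟩ := w5
          rw [← ha]; simp
        · obtain ⟨rfl, rfl⟩ := w5
          rw [m3, ha1 rfl]; ring
        · obtain ⟨rfl, rfl⟩ := w5
          rw [m3, g1 rfl]; ring
        · obtain ⟨w5, rfl⟩ := w5
          rw [vok_A hT h ad0 ad w1 w5]; simp
      · simp only [vl]
        cases E m0 <;> cases E m <;> simp only [dbl, Bool.false_eq_true, if_true, if_false]

theorem ez_true {c : Bool} {s : ℕ} {g : Bool → Bool} (h : ez c s g = true) :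
    ∃ e, sg c * sg (Nat.beq s 0) = sg e ∧ g e = true := by
  cases c <;> cases s
  · exact ⟨false, rfl, h⟩
  · exact ⟨true, rfl, h⟩
  · exact ⟨true, rfl, h⟩
  · exact ⟨false, rfl, h⟩

theorem mkE_sound (hT : T.All) (h : Mdl c1 c2 n p q P A X Z Y F) (hn : n ≡ n0 [ZMOD Q])
    (h0 : p * q ≠ 0) (ha : (a : ZMod 3) = A 1 1) {st : ℕ} (hs : StOK p q st) (E : ℕ → Bool)
    (hE : ∀ m e, eta c1 c2 (base m) * chi p (base m) = sg e → E m = e) (es : EL) :
    ∀ (l : List (ℕ × Bool × ℕ)) (k : EI → Bool), wfE T P c1 c2 Q a es l = true →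
      (∀ v ∈ l, GoodM c1 c2 p q v.1 v.2.1 (E v.1) ∧ (v.2.1 = true → (v.2.2 : ZMod 3) = A v.1 1)) →
      mkE n0 st es k = true →
      ∃ t, EIok a (Z 1 1) (X 1 1) (Y 1 1) t (l.map (vl E X Z Y)) ∧ k t = true := by
  induction es with
  | nil => intro l k _ _ h3; exact ⟨EI.nil, trivial, h3⟩
  | cons m b c V N a1 x ps tl ih =>
    intro l k h1 h2 h3
    simp only [wfE, Bool.and_eq_true, decide_eq_true_eq, Nat.beq_eq, Bool.or_eq_true,
      Bool.not_eq_true'] at h1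
    obtain ⟨⟨⟨⟨⟨⟨⟨⟨w1, rfl⟩, w3⟩, w4⟩, w5⟩, w6⟩, w7⟩, w8⟩, w9⟩ := h1
    obtain ⟨s, hs1, h4⟩ := fz_true (show fz (tbN st (base m)) (fun s => ez c s fun e =>
      fz (tv V N n0) fun f => mkP n0 ps fun t0 => mkE n0 st tl fun t =>
        k (EI.cons c e a1 x f t0 t)) = true from h3)
    obtain ⟨e, he, h5⟩ := ez_true h4
    obtain ⟨f, hf, h6⟩ := fz_true h5
    obtain ⟨i1, i2⟩ := hs.get hs1
    have he' : eta c1 c2 (base m) * chi p (base m) = sg e := by rw [w4, i2, he]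
    have hEm := hE m e he'
    subst hEm
    have hg : GoodM c1 c2 p q m c (E m) := ⟨w1, w3, w4, i1, he'⟩
    have ad := hg.adm h0
    have ha1 : c = true → (a1 : ZMod 3) = A m 1 := fun hc =>
      vok_A hT h ad (adm_one ..) w5 (w6.resolve_left (by simp [hc]))
    obtain ⟨t0, h7, h8⟩ := mkP_sound hT h hn h0 ha E hg ha1 ps l _ w8 h2 h6
    obtain ⟨t, h9, h10⟩ := ih ((m, c, a1) :: l) _ w9 (fun v hv => by
      rcases List.mem_cons.mp hv with rfl | hv
      · exact ⟨hg, ha1⟩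
      · exact h2 v hv) h8
    refine ⟨EI.cons c (E m) a1 x f t0 t, ⟨if c then 0 else Z m 1, if E m then X m 1 else Y m 1, fun hc => by simp [hc],
      fun he => ?_, ?_, h7, h9⟩, h10⟩
    · rw [if_pos he]; exact xok_kn hT h ad (adm_one ..) w7
    · rw [(vok_F hT h hn ad (adm_one ..) w5 hf).2, h.e1 _ _ _ hg, ha]
      congr 1
      · cases c
        · simp [sgl]
        · simp [sgl, ha1 rfl]
      · cases E m <;> simp [sgl, mul_comm]

end

theorem runT_sound {T : BT} (hT : T.All) {P : ℕ} {t : Test} (hw : wfT T P t = true) {n : ℤ}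
    {p q n0 M st : ℕ} (hx : Cx n p q) (hP : P = 1 ∨ (P = p ∧ (p = 5 ∨ p = 13)))
    (hn : n ≡ n0 [ZMOD M]) (hs : StOK p q st) (hr : runT t n0 M st = true) : False := by
  obtain ⟨c1, c2, Q, V, N, a, x, es⟩ := t
  simp only [wfT, Bool.and_eq_true, decide_eq_true_eq, Nat.beq_eq, Bool.or_eq_true,
    Bool.not_eq_true'] at hw
  obtain ⟨⟨⟨⟨⟨⟨⟨w1, w2⟩, w3⟩, w4⟩, w5⟩, w6⟩, w7⟩, w8⟩ := hw
  obtain ⟨A, X, Z, Y, F, h, hg⟩ := exists_mdl hx hP w1 w2 w3
  have h1 : @Nat.rec (fun _ => Bool) (fz (tv V N n0) fun F => mkE n0 st es fun ei => srch a x F ei)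
      (fun _ _ => false) (Nat.mod M Q) = true := hr
  have h0 : p * q ≠ 0 := by
    have := hx.hp
    have := hx.hq
    exact Nat.mul_ne_zero (by omega) (by omega)
  cases hM : Nat.mod M Q with
  | succ k => rw [hM] at h1; exact absurd h1 (by simp)
  | zero =>
    rw [hM] at h1
    have hn' : n ≡ n0 [ZMOD Q] := hn.of_dvd (by exact_mod_cast Nat.dvd_of_mod_eq_zero hM)
    obtain ⟨f, hf, h2⟩ := fz_true h1
    have ha := vok_A hT h (adm_one ..) (adm_one ..) w4 w5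
    obtain ⟨t, h3, h4⟩ := mkE_sound hT h hn' h0 ha hs
      (fun m => decide (eta c1 c2 (base m) * chi p (base m) = 1))
      (fun m e he => by rw [he]; cases e <;> rfl) es [] _ w8 (fun _ hv => by simp at hv) h2
    obtain ⟨f3, hF⟩ := vok_F hT h hn' (adm_one ..) (adm_one ..) w4 hf
    refine srch_false (by omega) f3 (xok_kn hT h (adm_one ..) (adm_one ..) w6) (fun h5 => hg ?_)
      (by rw [hF, h.e0, ha]) h3 h4
    exact w7.resolve_left (by simp [h5])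

end Pool.Agent.Lib.MP_15cb89_nt
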